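import Pool.Agent.H7.IG.Defs

/-!
# IG toolkit 1: functions, choice, collection, well-orderings in a ctm

`N` is a ctm. Definable relations are given as `F : N → N → Prop` with
`hF : hN.Dfn (fun v : Fin 2 → N => F (v 0) (v 1))` (tactic `dfn`).
* `exists_fn`: separation from `ZFSet.prod A B`.
* `exists_coll`: collection, from replacement and the ranks (for `x` take the least rank of a `y`; `exists_rankF`,
  `exists_level` in H17/Omega/CtmV; or `exists_closed`).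
* `exists_choice`: from `exists_coll` for bounded `B` and the axiom of choice of `N` in the form of
  transversals of disjoint families (`Cl.ac`-style: `axChoice`, see H52/GX/Gen `ext_ac`, H52/OM/ACM): apply
  it to the family `{{(x, y) : y ∈ B, F x y} : x ∈ A}`.
* `exists_enum`: the well-ordering theorem: with a choice function `g` on the nonempty subsets of `A`
  (in `N`) define by recursion on ordinals `α ↦ g(A ∖ {earlier values})` (`CTM.recursion`) until `A` is exhausted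
  (replacement shows that it is exhausted at some ordinal of `N`).
-/

set_option autoImplicit false
set_option linter.unusedVariables false
set_option linter.unusedSectionVars false
set_option linter.unusedSimpArgs false
set_option linter.unusedTactic false
set_option linter.unreachableTactic false

namespace Pool.Agent.H7.IG

open Pool.Agent.H17.Omega Pool.Agent.H17.Omega.CTM Pool.Agent.H52.GX Pool.Agent.H52.GC

variable {N : Set ZFSet.{0}} (hN : CTM N)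

include hN

/-- The graph of a definable function from `A` to `B`. -/
theorem exists_fn {F : N → N → Prop} (hF : hN.Dfn (fun v : Fin 2 → N => F (v 0) (v 1))) {A B : ZFSet.{0}}
    (hA : A ∈ N) (hB : B ∈ N)
    (h : ∀ x : N, x.1 ∈ A → ∃ y : N, y.1 ∈ B ∧ F x y ∧ ∀ y' : N, y'.1 ∈ B → F x y' → y' = y) :
    ∃ f ∈ N, Fn f A B ∧ ∀ x y : N, ZFSet.pair x.1 y.1 ∈ f ↔ x.1 ∈ A ∧ y.1 ∈ B ∧ F x y := by
  obtain ⟨f, hf, hf'⟩ := hN.exists_sep (P := fun z => ∃ x y : N, z.1 = ZFSet.pair x.1 y.1 ∧ F x y)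
    (Dfn.exPair (P := fun v x y => F x y) (DT.var _) (Dfn.subst2 hF (DT.var _) (DT.var _)))
    (hN.prod_mem hA hB)
  have key : ∀ x y : N, ZFSet.pair x.1 y.1 ∈ f ↔ x.1 ∈ A ∧ y.1 ∈ B ∧ F x y := by
    intro x y
    rw [hf', ZFSet.pair_mem_prod]
    constructor
    · rintro ⟨⟨h1, h2⟩, _, x', y', h3, h4⟩
      have h3 : ZFSet.pair x.1 y.1 = ZFSet.pair x'.1 y'.1 := h3
      rw [ZFSet.pair_inj] at h3
      rw [Subtype.ext h3.1, Subtype.ext h3.2]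
      exact ⟨h3.1 ▸ h1, h3.2 ▸ h2, h4⟩
    · rintro ⟨h1, h2, h3⟩
      exact ⟨⟨h1, h2⟩, hN.pair_mem x.2 y.2, x, y, rfl, h3⟩
  refine ⟨f, hf, ⟨?_, ?_, ?_⟩, key⟩
  · intro z hz
    obtain ⟨x, hx, y, hy, h1⟩ := ZFSet.mem_prod.1 ((hf' z).1 hz).1
    exact ⟨x, hx, y, hy, h1⟩
  · intro x hx
    obtain ⟨y, hy, h1, _⟩ := h ⟨x, hN.mem_of_mem hA hx⟩ hx
    exact ⟨y.1, hy, (key ⟨x, hN.mem_of_mem hA hx⟩ y).2 ⟨hx, hy, h1⟩⟩
  · intro x hx y hy y' hy' h1 h2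
    obtain ⟨y0, _, _, h3⟩ := h ⟨x, hN.mem_of_mem hA hx⟩ hx
    have e1 := h3 ⟨y, hN.mem_of_mem hB hy⟩ hy
      ((key ⟨x, hN.mem_of_mem hA hx⟩ ⟨y, hN.mem_of_mem hB hy⟩).1 h1).2.2
    have e2 := h3 ⟨y', hN.mem_of_mem hB hy'⟩ hy'
      ((key ⟨x, hN.mem_of_mem hA hx⟩ ⟨y', hN.mem_of_mem hB hy'⟩).1 h2).2.2
    exact congrArg Subtype.val (e1.trans e2.symm)

/-- Collection. -/
theorem exists_coll {F : N → N → Prop} (hF : hN.Dfn (fun v : Fin 2 → N => F (v 0) (v 1))) {A : ZFSet.{0}}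
    (hA : A ∈ N) (h : ∀ x : N, x.1 ∈ A → ∃ y : N, F x y) :
    ∃ B ∈ N, ∀ x : N, x.1 ∈ A → ∃ y : N, y.1 ∈ B ∧ F x y := by
  obtain ⟨o, ho, hAo, _, hcl⟩ := hN.exists_closed (Φ := fun z w => z.1 ∈ (⟨A, hA⟩ : N).1 → F z w)
    (Dfn.imp (Dfn.mem (DT.var _) (DT.const _)) hF) (fun z => by
      by_cases hz : z.1 ∈ A
      · obtain ⟨y, hy⟩ := h z hz
        exact ⟨y, fun _ => hy⟩
      · exact ⟨z, fun h1 => (hz h1).elim⟩) ⟨A, hA⟩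
  obtain ⟨w, hw, hw'⟩ := hN.exists_level o ho
  refine ⟨w, hw, fun x hx => ?_⟩
  obtain ⟨y, hy, h1⟩ := hcl x ((ZFSet.rank_lt_of_mem hx).trans hAo)
  exact ⟨y, (hw' _).2 ⟨y.2, hy⟩, h1 hx⟩

/-- Choice. -/
theorem exists_choice {F : N → N → Prop} (hF : hN.Dfn (fun v : Fin 2 → N => F (v 0) (v 1)))
    {A B : ZFSet.{0}} (hA : A ∈ N) (hB : B ∈ N) (h : ∀ x : N, x.1 ∈ A → ∃ y : N, y.1 ∈ B ∧ F x y) :
    ∃ f ∈ N, Fn f A B ∧ ∀ x y : N, ZFSet.pair x.1 y.1 ∈ f → F x y := by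
  obtain ⟨P, hP, hP'⟩ := hN.exists_pow hB
  obtain ⟨c, hc, hc'⟩ := CTM.exists_choice hN hP
  -- the fibres
  have hfib : ∀ x : N, ∃ X : N, ∀ y : N, y.1 ∈ X.1 ↔ y.1 ∈ B ∧ F x y := by
    intro x
    obtain ⟨X, hX, hX'⟩ := hN.exists_sep (P := fun y => F x y)
      (Dfn.subst2 (P := F) hF (DT.const x) (DT.var _)) hB
    exact ⟨⟨X, hX⟩, fun y => by
      rw [hX']
      exact and_congr_right fun _ => ⟨fun ⟨_, h⟩ => h, fun h => ⟨y.2, h⟩⟩⟩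
  have hG : hN.Dfn (fun v : Fin 2 → N => ∃ X : N, (∀ y : N, y.1 ∈ X.1 ↔ y.1 ∈ (⟨B, hB⟩ : N).1 ∧ F (v 0) y) ∧
      (v 1).1 ∈ X.1 ∧ ZFSet.pair X.1 (v 1).1 ∈ (⟨c, hc⟩ : N).1) := by
    refine Dfn.ex ?_
    refine Dfn.and (Dfn.all (Dfn.iff (Dfn.mem (DT.var _) (DT.var _))
      (Dfn.and (Dfn.mem (DT.var _) (DT.const _)) (Dfn.subst2 (P := F) hF (DT.var _) (DT.var _)))))
      (Dfn.and (Dfn.mem (DT.var _) (DT.var _)) (Dfn.pairMem (DT.var _) (DT.var _) (DT.const _)))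
  obtain ⟨f, hf, hfn, hf'⟩ := exists_fn hN (F := fun x z => ∃ X : N, (∀ y : N, y.1 ∈ X.1 ↔
      y.1 ∈ (⟨B, hB⟩ : N).1 ∧ F x y) ∧ z.1 ∈ X.1 ∧ ZFSet.pair X.1 z.1 ∈ (⟨c, hc⟩ : N).1) hG hA hB (by
    intro x hx
    obtain ⟨X, hX⟩ := hfib x
    obtain ⟨y, hy, hxy⟩ := h x hx
    have hXP : X.1 ∈ P := (hP' _).2 ⟨X.2, fun z hz => ((hX ⟨z, hN.mem_of_mem X.2 hz⟩).1 hz).1⟩
    have hX0 : X.1 ≠ ∅ := fun h0 => ZFSet.notMem_empty y.1 (h0 ▸ (hX y).2 ⟨hy, hxy⟩)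
    obtain ⟨z, hz, h1, h2⟩ := hc' X.1 hXP hX0
    have hzN := hN.mem_of_mem X.2 hz
    refine ⟨⟨z, hzN⟩, ((hX ⟨z, hzN⟩).1 hz).1, ⟨X, hX, hz, h1⟩, ?_⟩
    rintro z' _ ⟨X', hX', h3, h4⟩
    have e : X' = X := Subtype.ext (hN.ext' X'.2 X.2 fun y => (hX' y).trans (hX y).symm)
    subst e
    exact Subtype.ext (h2 z'.1 h3 h4))
  refine ⟨f, hf, hfn, fun x y hxy => ?_⟩
  obtain ⟨_, _, X, hX, h1, _⟩ := (hf' x y).1 hxy
  exact ((hX y).1 h1).2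

/-- Every set of `N` is, in `N`, in bijection with an ordinal. -/
theorem exists_enum {A : ZFSet.{0}} (hA : A ∈ N) :
    ∃ μ : Ordinal.{0}, μ.toZFSet ∈ N ∧ ∃ f ∈ N, Onto f μ.toZFSet A ∧
      ∀ x x' y : ZFSet.{0}, ZFSet.pair x y ∈ f → ZFSet.pair x' y ∈ f → x = x' := by
  obtain ⟨p, hp, hp'⟩ := hN.exists_pow hA
  obtain ⟨c, hc, hc'⟩ := CTM.exists_choice hN hp
  obtain ⟨F, hF, hF'⟩ := CTM.recursion (hN := hN) (R := fun x y : N => x.1 ∈ y.1)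
    (𝒢 := fun x rel v0 => ∃ X : N, (∀ a : N, (a.1 ∈ X.1 ↔ (a.1 ∈ A ∧ ¬ (∃ y : N, rel y a)))) ∧
      ((X.1 = ∅ ∧ v0.1 = A) ∨ (v0.1 ∈ X.1 ∧ ZFSet.pair X.1 v0.1 ∈ c)))
    (CTM.Dfn.mem (CTM.DT.var _) (CTM.DT.var _)) (by
      exact (CTM.Dfn.ex (P := fun v X => ((∀ a : N, (a.1 ∈ X.1 ↔ (a.1 ∈ A ∧ ¬ (∃ y : N,
          (y.1 ∈ (v 0).1 ∧ ZFSet.pair y.1 a.1 ∈ (v 1).1))))) ∧
          ((X.1 = ∅ ∧ (v 2).1 = A) ∨ ((v 2).1 ∈ X.1 ∧ ZFSet.pair X.1 (v 2).1 ∈ c))))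
        (CTM.Dfn.and (CTM.Dfn.all (P := fun v a => (a.1 ∈ (v 3).1 ↔ (a.1 ∈ A ∧ ¬ (∃ y : N,
            (y.1 ∈ (v 0).1 ∧ ZFSet.pair y.1 a.1 ∈ (v 1).1)))))
          (CTM.Dfn.iff (CTM.Dfn.mem (CTM.DT.var _) (CTM.DT.var _))
          (CTM.Dfn.and (CTM.Dfn.mem (CTM.DT.var _) (CTM.DT.const ⟨A, hA⟩))
          (CTM.Dfn.not (CTM.Dfn.ex (P := fun v y => (y.1 ∈ (v 0).1 ∧
              ZFSet.pair y.1 (v 4).1 ∈ (v 1).1))
            (CTM.Dfn.and (CTM.Dfn.mem (CTM.DT.var _) (CTM.DT.var _))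
            (CTM.Dfn.pairMem (CTM.DT.var _) (CTM.DT.var _) (CTM.DT.var _))))))))
        (CTM.Dfn.or (CTM.Dfn.and (CTM.Dfn.isEmpty (CTM.DT.var _))
          (CTM.Dfn.eqv (CTM.DT.var _) (CTM.DT.const ⟨A, hA⟩)))
          (CTM.Dfn.and (CTM.Dfn.mem (CTM.DT.var _) (CTM.DT.var _))
          (CTM.Dfn.pairMem (CTM.DT.var _) (CTM.DT.var _) (CTM.DT.const ⟨c, hc⟩)))))))
    (fun x => ⟨x.1, x.2, fun y => Iff.rfl⟩) CTM.mem_membership_wf (by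
      rintro x r v v' ⟨X, h2, h3⟩ ⟨X', h2', h3'⟩
      have e2 : X = X' := Subtype.ext (hN.ext' X.2 X'.2 fun z => (h2 z).trans (h2' z).symm)
      subst e2
      have hXp : X.1 ∈ p := (hp' _).2 ⟨X.2, fun a ha => ((h2 ⟨a, hN.mem_of_mem X.2 ha⟩).1 ha).1⟩
      rcases h3 with ⟨h3, h4⟩ | ⟨h3, h4⟩ <;> rcases h3' with ⟨h3', h4'⟩ | ⟨h3', h4'⟩
      · exact Subtype.ext (h4.trans h4'.symm)
      · rw [h3] at h3'; exact (ZFSet.notMem_empty _ h3').elim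
      · rw [h3'] at h3; exact (ZFSet.notMem_empty _ h3).elim
      · obtain ⟨y, hy, h5, h6⟩ := hc' X.1 hXp (fun h0 => by rw [h0] at h3; exact ZFSet.notMem_empty _ h3)
        exact Subtype.ext ((h6 _ h3 h4).trans (h6 _ h3' h4').symm)) (by
      intro x h hd hu
      obtain ⟨X, hX, hX'⟩ := hN.exists_sep (P := fun a => ¬ (∃ y : N, y.1 ∈ x.1 ∧
          ZFSet.pair y.1 a.1 ∈ h.1))
        (CTM.Dfn.not (CTM.Dfn.ex (P := fun v y => y.1 ∈ x.1 ∧ ZFSet.pair y.1 (v 0).1 ∈ h.1)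
          (CTM.Dfn.and (CTM.Dfn.mem (CTM.DT.var _) (CTM.DT.const x))
            (CTM.Dfn.pairMem (CTM.DT.var _) (CTM.DT.var _) (CTM.DT.const h))))) hA
      have g2 : ∀ a : N, (a.1 ∈ X ↔ (a.1 ∈ A ∧ ¬ (∃ y : N, y.1 ∈ x.1 ∧
          ZFSet.pair y.1 a.1 ∈ h.1))) := by
        intro a; rw [hX']; exact and_congr_right fun _ => ⟨fun ⟨_, h⟩ => h, fun h => ⟨a.2, h⟩⟩
      by_cases h0 : X = ∅
      · exact ⟨⟨A, hA⟩, ⟨X, hX⟩, g2, Or.inl ⟨h0, rfl⟩⟩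
      · have hXp : X ∈ p := (hp' _).2 ⟨hX, fun a ha => ((g2 ⟨a, hN.mem_of_mem hX ha⟩).1 ha).1⟩
        obtain ⟨y, hy, h5, h6⟩ := hc' X hXp h0
        exact ⟨⟨y, hN.mem_of_mem hX hy⟩, ⟨X, hX⟩, g2, Or.inr ⟨hy, h5⟩⟩)
  choose Xz h2 h3 using hF'
  have h2' : ∀ x a : N, a.1 ∈ (Xz x).1 ↔ a.1 ∈ A ∧ ¬ ∃ y : N, y.1 ∈ x.1 ∧ F y = a := h2
  have hne : ∀ x : N, (Xz x).1 ≠ ∅ → (F x).1 ∈ A ∧ ¬ ∃ y : N, y.1 ∈ x.1 ∧ F y = F x := by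
    intro x hx
    rcases h3 x with ⟨h4, _⟩ | ⟨h4, _⟩
    · exact (hx h4).elim
    · exact (h2' x (F x)).1 h4
  -- some ordinal has an empty set of candidates
  have hex : ∃ α : N, α.1.IsOrdinal ∧ (Xz α).1 = ∅ := by
    by_contra hcon
    push Not at hcon
    have hOd : hN.Dfn (fun v : Fin 2 → N => (v 1).1.IsOrdinal ∧ F (v 1) = v 0) :=
      CTM.Dfn.and (CTM.Dfn.isOrd (CTM.DT.var _))
        (CTM.Dfn.subst2 (P := fun x y => F x = y) hF (CTM.DT.var _) (CTM.DT.var _))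
    obtain ⟨O, hO, hO'⟩ := hN.exists_repl (F := fun a γ : N => γ.1.IsOrdinal ∧ F γ = a) hOd hA (by
      rintro a _ γ γ' ⟨h4, h5⟩ ⟨h4', h5'⟩
      rcases h4.mem_trichotomous h4' with h6 | h6 | h6
      · exact ((hne γ' (hcon γ' h4')).2 ⟨γ, h6, h5.trans h5'.symm⟩).elim
      · exact Subtype.ext h6
      · exact ((hne γ (hcon γ h4)).2 ⟨γ', h6, h5'.trans h5.symm⟩).elim)
    have hO2 : ∀ γ : N, γ.1 ∈ O ↔ γ.1.IsOrdinal := by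
      intro γ
      rw [hO']
      constructor
      · rintro ⟨_, _, h4, _⟩; exact h4
      · intro h4; exact ⟨F γ, (hne γ (hcon γ h4)).1, h4, rfl⟩
    have hOo : O.IsOrdinal := by
      rw [ZFSet.isOrdinal_iff_forall_mem_isOrdinal]
      refine ⟨fun y hy z hz => ?_, fun y hy => (hO2 ⟨y, hN.mem_of_mem hO hy⟩).1 hy⟩
      have hyN := hN.mem_of_mem hO hy
      have h4 := (hO2 ⟨y, hyN⟩).1 hy
      exact (hO2 ⟨z, hN.mem_of_mem hyN hz⟩).2 (h4.mem hz)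
    exact ZFSet.mem_irrefl _ ((hO2 ⟨O, hO⟩).2 hOo)
  obtain ⟨α, ⟨hα, hα0⟩, hmin⟩ := (CTM.mem_membership_wf (N := N)).has_min
    {α : N | α.1.IsOrdinal ∧ (Xz α).1 = ∅} hex
  have hlt : ∀ γ : N, γ.1 ∈ α.1 → (F γ).1 ∈ A ∧ ¬ ∃ y : N, y.1 ∈ γ.1 ∧ F y = F γ :=
    fun γ hγ => hne γ fun h0 => hmin γ ⟨hα.mem hγ, h0⟩ hγ
  have hinj : ∀ β γ : N, β.1 ∈ α.1 → γ.1 ∈ α.1 → F β = F γ → β = γ := by
    intro β γ hβ hγ h
    rcases (hα.mem hβ).mem_trichotomous (hα.mem hγ) with h6 | h6 | h6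
    · exact ((hlt γ hγ).2 ⟨β, h6, h⟩).elim
    · exact Subtype.ext h6
    · exact ((hlt β hβ).2 ⟨γ, h6, h.symm⟩).elim
  have hsurj : ∀ a : N, a.1 ∈ A → ∃ y : N, y.1 ∈ α.1 ∧ F y = a := by
    intro a ha
    by_contra hcon
    have := (h2' α a).2 ⟨ha, hcon⟩
    rw [hα0] at this
    exact ZFSet.notMem_empty _ this
  obtain ⟨f, hf, hfn, hf'⟩ := exists_fn hN (F := fun x y => F x = y) hF α.2 hA (fun x hx =>
    ⟨F x, (hlt x hx).1, rfl, fun y' _ h1 => h1.symm⟩)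
  have hαe : α.1.rank.toZFSet = α.1 := hα.toZFSet_rank_eq
  refine ⟨α.1.rank, by rw [hαe]; exact α.2, f, hf, ?_, ?_⟩
  · rw [hαe]
    refine ⟨hfn, fun y hy => ?_⟩
    obtain ⟨x, hx, h1⟩ := hsurj ⟨y, hN.mem_of_mem hA hy⟩ hy
    exact ⟨x.1, hx, (hf' x ⟨y, hN.mem_of_mem hA hy⟩).2 ⟨hx, hy, h1⟩⟩
  · intro x x' y h4 h5
    obtain ⟨a, ha, b, hb, h6⟩ := hfn.sub _ h4
    rw [ZFSet.pair_inj] at h6
    obtain ⟨rfl, rfl⟩ := h6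
    obtain ⟨a', ha', b', hb', h7⟩ := hfn.sub _ h5
    rw [ZFSet.pair_inj] at h7
    obtain ⟨rfl, rfl⟩ := h7
    have hxN := hN.mem_of_mem α.2 ha
    have hxN' := hN.mem_of_mem α.2 ha'
    have hyN := hN.mem_of_mem hA hb
    have e1 := ((hf' ⟨x, hxN⟩ ⟨y, hyN⟩).1 h4).2.2
    have e2 := ((hf' ⟨x', hxN'⟩ ⟨y, hyN⟩).1 h5).2.2
    exact congrArg Subtype.val (hinj ⟨x, hxN⟩ ⟨x', hxN'⟩ ha ha' (e1.trans e2.symm))

end Pool.Agent.H7.IG
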