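import Pool.Agent.H7.IG.Tk1

/-!
# IG toolkit 2: recursion on ordinals in a ctm

`FnD g A`: `g` is a function (set of pairs) with domain `A`. `rs g a` is the restriction of `g` to `a`.

`exists_rec`: definable recursion. `CTM.recursion` (H17/Omega/CtmR) gives a definable class function
`F : N → N` on the ordinals (let `𝒢 x r v` say: if `x` is an ordinal `α < δ` then `Φ (r as a set of pairs) v`,
otherwise `v = ∅`); then replacement.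
`exists_dep`: recursion with choice, values in a set `A`: take a choice function `c ∈ N` for nonempty subsets
of `A` (`exists_choice`) and apply `exists_rec` to `Φ' g y := (y = c {z ∈ A : Φ g z})` (and `y = ∅` if this set is
empty); by induction on `α` the values are in `A` and satisfy `Φ`. (If `A` is empty the claim is trivial.)
-/

set_option autoImplicit false
set_option linter.unusedVariables false
set_option linter.unusedSectionVars false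
set_option linter.unusedSimpArgs false
set_option linter.unusedTactic false
set_option linter.unreachableTactic false

namespace Pool.Agent.H7.IG

open Pool.Agent.H17.Omega Pool.Agent.H17.Omega.CTM Pool.Agent.H52.GX Pool.Agent.H52.GC

/-- `g` is a function with domain `A`. -/
structure FnD (g A : ZFSet.{0}) : Prop where
  sub : ∀ z ∈ g, ∃ x ∈ A, ∃ y, z = ZFSet.pair x y
  tot : ∀ x ∈ A, ∃ y, ZFSet.pair x y ∈ g
  uni : ∀ x y y', ZFSet.pair x y ∈ g → ZFSet.pair x y' ∈ g → y = y'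

/-- The restriction of `g` to `a`. -/
noncomputable def rs (g a : ZFSet.{0}) : ZFSet.{0} := ZFSet.sep (fun z => ∃ x ∈ a, ∃ y, z = ZFSet.pair x y) g

theorem pair_mem_rs {g a x y : ZFSet.{0}} : ZFSet.pair x y ∈ rs g a ↔ x ∈ a ∧ ZFSet.pair x y ∈ g := by
  rw [rs, ZFSet.mem_sep]
  constructor
  · rintro ⟨h, x', hx', y', h'⟩
    rw [ZFSet.pair_inj] at h'
    exact ⟨h'.1 ▸ hx', h⟩
  · rintro ⟨hx, h⟩
    exact ⟨h, x, hx, y, rfl⟩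

theorem Fn.fnD {f A B : ZFSet.{0}} (h : Fn f A B) : FnD f A := by
  refine ⟨fun z hz => ?_, fun x hx => ?_, fun x y y' h1 h2 => ?_⟩
  · obtain ⟨x, hx, y, _, hz⟩ := h.sub z hz
    exact ⟨x, hx, y, hz⟩
  · obtain ⟨y, _, hy⟩ := h.tot x hx
    exact ⟨y, hy⟩
  · exact (h.ap_eq h1).symm.trans (h.ap_eq h2)

theorem ud_FnD : UD CtmC (fun N (v : Fin 2 → N) => FnD (v 0).1 (v 1).1) := by
  have h : UD CtmC (fun N (v : Fin 2 → N) => (∀ z ∈ (v 0).1, ∃ x ∈ (v 1).1, ∃ y : N, z = ZFSet.pair x y.1) ∧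
      (∀ x ∈ (v 1).1, ∃ y : N, ZFSet.pair x y.1 ∈ (v 0).1) ∧
      ∀ x y y' : N, ZFSet.pair x.1 y.1 ∈ (v 0).1 → ZFSet.pair x.1 y'.1 ∈ (v 0).1 → y = y') := by
    (repeat' first
      | exact UT.var _ | exact UT.last | assumption
      | refine UD.pairMem ?_ ?_ ?_ | refine UD.isPair ?_ ?_ ?_ | refine UD.mem ?_ ?_
      | refine UD.eqv ?_ ?_ | refine UD.eq ?_ ?_ | refine UD.subset ?_ ?_
      | refine UD.isEmpty ?_ | refine UD.isTrans ?_ | refine UD.isOrd ?_ | refine UD.isNat ?_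
      | refine UD.isUpair ?_ ?_ ?_ | refine UD.isInsert ?_ ?_ ?_ | refine UD.isUnion ?_ ?_ ?_
      | refine UD.and ?_ ?_ | refine UD.or ?_ ?_ | refine UD.iff ?_ ?_ | refine UD.not ?_
      | refine UD.imp ?_ ?_ | refine UD.all ?_ | refine UD.ex ?_ | exact UD.false' | exact UD.true'
      | refine UD.ball ?_ ?_ | refine UD.bex ?_ ?_)
  refine h.congr fun N hN v => ?_
  have hN' : CTM N := hN
  constructor
  · rintro ⟨h1, h2, h3⟩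
    refine ⟨?_, ?_, ?_⟩
    · intro z hz
      obtain ⟨x, hx, y, hy⟩ := h1 z hz
      exact ⟨x, hx, y.1, hy⟩
    · intro x hx
      obtain ⟨y, hy⟩ := h2 x hx
      exact ⟨y.1, hy⟩
    · intro x y y' h4 h5
      have h6 := hN'.of_pair_mem (hN'.mem_of_mem (v 0).2 h4)
      have h7 := hN'.of_pair_mem (hN'.mem_of_mem (v 0).2 h5)
      exact congrArg Subtype.val (h3 ⟨x, h6.1⟩ ⟨y, h6.2⟩ ⟨y', h7.2⟩ h4 h5)
  · rintro ⟨h1, h2, h3⟩
    refine ⟨?_, ?_, ?_⟩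
    · intro z hz
      obtain ⟨x, hx, y, hy⟩ := h1 z hz
      have h6 := hN'.of_pair_mem (hN'.mem_of_mem (v 0).2 (hy ▸ hz))
      exact ⟨x, hx, ⟨y, h6.2⟩, hy⟩
    · intro x hx
      obtain ⟨y, hy⟩ := h2 x hx
      have h6 := hN'.of_pair_mem (hN'.mem_of_mem (v 0).2 hy)
      exact ⟨⟨y, h6.2⟩, hy⟩
    · intro x y y' h4 h5
      exact Subtype.ext (h3 _ _ _ h4 h5)

theorem rs_rs {g a b : ZFSet.{0}} (h : b ⊆ a) : rs (rs g a) b = rs g b := by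
  ext z
  rw [rs, ZFSet.mem_sep, rs, ZFSet.mem_sep, rs, ZFSet.mem_sep]
  constructor
  · rintro ⟨⟨h1, _⟩, h2⟩
    exact ⟨h1, h2⟩
  · rintro ⟨h1, x, hx, y, h2⟩
    exact ⟨⟨h1, x, h hx, y, h2⟩, x, hx, y, h2⟩

theorem FnD.rs {g a b : ZFSet.{0}} (h : FnD g a) (hb : b ⊆ a) : FnD (rs g b) b := by
  refine ⟨?_, ?_, ?_⟩
  · intro z hz
    rw [IG.rs, ZFSet.mem_sep] at hz
    exact hz.2
  · intro x hx
    obtain ⟨y, hy⟩ := h.tot x (hb hx)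
    exact ⟨y, pair_mem_rs.2 ⟨hx, hy⟩⟩
  · intro x y y' h1 h2
    exact h.uni _ _ _ (pair_mem_rs.1 h1).2 (pair_mem_rs.1 h2).2

variable {N : Set ZFSet.{0}} (hN : CTM N)

include hN

theorem rs_mem {g a : ZFSet.{0}} (hg : g ∈ N) (ha : a ∈ N) : rs g a ∈ N := by
  refine hN.sep_mem ?_ hg
  have h : hN.Dfn (fun v : Fin 1 → N => ∃ x ∈ (⟨a, ha⟩ : N).1, ∃ y : N, (v 0).1 = ZFSet.pair x y.1) := by
    (repeat' first
      | exact DT.var _ | exact DT.last | exact DT.const _ | assumption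
      | refine Dfn.pairMem ?_ ?_ ?_ | refine Dfn.isPair ?_ ?_ ?_ | refine Dfn.mem ?_ ?_
      | refine Dfn.eqv ?_ ?_ | refine Dfn.eq ?_ ?_ | refine Dfn.subset ?_ ?_
      | refine Dfn.isEmpty ?_ | refine Dfn.isTrans ?_ | refine Dfn.isOrd ?_ | refine Dfn.isNat ?_
      | refine Dfn.isUpair ?_ ?_ ?_ | refine Dfn.isInsert ?_ ?_ ?_
      | refine Dfn.and ?_ ?_ | refine Dfn.or ?_ ?_ | refine Dfn.iff ?_ ?_ | refine Dfn.not ?_
      | refine Dfn.imp ?_ ?_ | refine Dfn.all ?_ | refine Dfn.ex ?_ | exact Dfn.false'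
      | refine Dfn.ballZ ?_ ?_ | refine Dfn.bexZ ?_ ?_ | exact Dfn.const _)
  refine h.congr fun v => ?_
  constructor
  · rintro ⟨x, hx, y, hy⟩
    exact ⟨x, hx, y.1, hy⟩
  · rintro ⟨x, hx, y, hy⟩
    have h6 := hN.of_pair_mem (x := x) (y := y) (hy ▸ (v 0).2)
    exact ⟨x, hx, ⟨y, h6.2⟩, hy⟩

/-- Definable recursion on an ordinal. -/
theorem exists_rec {Φ : N → N → Prop} (hΦ : hN.Dfn (fun v : Fin 2 → N => Φ (v 0) (v 1)))
    {δ : Ordinal.{0}} (hδ : δ.toZFSet ∈ N)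
    (h : ∀ α < δ, ∀ g : N, FnD g.1 α.toZFSet →
      (∀ β < α, ∀ r y : N, r.1 = rs g.1 β.toZFSet → ZFSet.pair β.toZFSet y.1 ∈ g.1 → Φ r y) →
      ∃ y : N, Φ g y ∧ ∀ y' : N, Φ g y' → y' = y) :
    ∃ g : N, FnD g.1 δ.toZFSet ∧
      ∀ α < δ, ∀ r y : N, r.1 = rs g.1 α.toZFSet → ZFSet.pair α.toZFSet y.1 ∈ g.1 → Φ r y := by
  obtain ⟨z0, hz0⟩ : ∃ z : N, z.1 = ∅ := ⟨⟨_, hN.empty_mem⟩, rfl⟩
  -- the relation
  have hsetlike : ∀ x : N, ∃ e ∈ N, ∀ y : N, y.1 ∈ e ↔ y.1 ∈ x.1 := fun x => ⟨x.1, x.2, fun y => Iff.rfl⟩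
  have hwf : WellFounded (fun y x : N => y.1 ∈ x.1) :=
    InvImage.wf (fun x : N => x.1) ZFSet.mem_wf
  obtain ⟨F, hF, hFr⟩ := CTM.recursion (hN := hN) (R := fun y x : N => y.1 ∈ x.1)
    (𝒢 := fun x r v => (∃ g : N, (∀ z : N, z.1 ∈ g.1 ↔ ∃ y w : N, z.1 = ZFSet.pair y.1 w.1 ∧ r y w) ∧
      Φ g v ∧ ∀ v', Φ g v' → v' = v) ∨
      ((¬ ∃ g : N, (∀ z : N, z.1 ∈ g.1 ↔ ∃ y w : N, z.1 = ZFSet.pair y.1 w.1 ∧ r y w) ∧
      ∃ u, Φ g u ∧ ∀ v', Φ g v' → v' = u) ∧ v = z0))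
    (by
      (repeat' first
      | exact DT.var _ | exact DT.last | exact DT.const _ | assumption
      | refine Dfn.pairMem ?_ ?_ ?_ | refine Dfn.isPair ?_ ?_ ?_ | refine Dfn.mem ?_ ?_
      | refine Dfn.eqv ?_ ?_ | refine Dfn.eq ?_ ?_ | refine Dfn.subset ?_ ?_
      | refine Dfn.isEmpty ?_ | refine Dfn.isTrans ?_ | refine Dfn.isOrd ?_ | refine Dfn.isNat ?_
      | refine Dfn.isUpair ?_ ?_ ?_ | refine Dfn.isInsert ?_ ?_ ?_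
      | refine Dfn.and ?_ ?_ | refine Dfn.or ?_ ?_ | refine Dfn.iff ?_ ?_ | refine Dfn.not ?_
      | refine Dfn.imp ?_ ?_ | refine Dfn.all ?_ | refine Dfn.ex ?_ | exact Dfn.false'
      | refine Dfn.ballZ ?_ ?_ | refine Dfn.bexZ ?_ ?_ | exact Dfn.const _)
      )
    (by
      show hN.Dfn (fun v : Fin 3 → N => (∃ g : N, (∀ z : N, z.1 ∈ g.1 ↔ ∃ y w : N, z.1 = ZFSet.pair y.1 w.1 ∧
        (y.1 ∈ (v 0).1 ∧ ZFSet.pair y.1 w.1 ∈ (v 1).1)) ∧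
        Φ g (v 2) ∧ ∀ v', Φ g v' → v' = v 2) ∨
        ((¬ ∃ g : N, (∀ z : N, z.1 ∈ g.1 ↔ ∃ y w : N, z.1 = ZFSet.pair y.1 w.1 ∧
        (y.1 ∈ (v 0).1 ∧ ZFSet.pair y.1 w.1 ∈ (v 1).1)) ∧
        ∃ u, Φ g u ∧ ∀ v', Φ g v' → v' = u) ∧ v 2 = z0))
      (repeat' first
      | exact DT.var _ | exact DT.last | exact DT.const _ | assumption
      | refine Dfn.pairMem ?_ ?_ ?_ | refine Dfn.isPair ?_ ?_ ?_ | refine Dfn.mem ?_ ?_
      | refine Dfn.eqv ?_ ?_ | refine Dfn.eq ?_ ?_ | refine Dfn.subset ?_ ?_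
      | refine Dfn.isEmpty ?_ | refine Dfn.isTrans ?_ | refine Dfn.isOrd ?_ | refine Dfn.isNat ?_
      | refine Dfn.isUpair ?_ ?_ ?_ | refine Dfn.isInsert ?_ ?_ ?_
      | refine Dfn.and ?_ ?_ | refine Dfn.or ?_ ?_ | refine Dfn.iff ?_ ?_ | refine Dfn.not ?_
      | refine Dfn.imp ?_ ?_ | refine Dfn.all ?_ | refine Dfn.ex ?_ | exact Dfn.false'
      | refine Dfn.ballZ ?_ ?_ | refine Dfn.bexZ ?_ ?_ | exact Dfn.const _)
      all_goals exact Dfn.subst2 hΦ (DT.var _) (DT.var _))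
    hsetlike hwf
    (by
      have hext : ∀ {r : N → N → Prop} {g g' : N},
          (∀ z : N, z.1 ∈ g.1 ↔ ∃ y w : N, z.1 = ZFSet.pair y.1 w.1 ∧ r y w) →
          (∀ z : N, z.1 ∈ g'.1 ↔ ∃ y w : N, z.1 = ZFSet.pair y.1 w.1 ∧ r y w) → g = g' :=
        fun {r g g'} h1 h2 => Subtype.ext (hN.ext' g.2 g'.2 fun z => (h1 z).trans (h2 z).symm)
      rintro x r v v' (⟨g, h1, h2, h3⟩ | ⟨h1, h2⟩) (⟨g', h1', h2', h3'⟩ | ⟨h1', h2'⟩)
      · have e := hext h1 h1'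
        subst e
        exact h3' _ h2
      · exact absurd ⟨g, h1, v, h2, h3⟩ h1'
      · exact absurd ⟨g', h1', v', h2', h3'⟩ h1
      · rw [h2, h2'])
    (by
      intro x h' _ _
      by_cases hc : ∃ g : N, (∀ z : N, z.1 ∈ g.1 ↔ ∃ y w : N, z.1 = ZFSet.pair y.1 w.1 ∧
        (y.1 ∈ x.1 ∧ ZFSet.pair y.1 w.1 ∈ h'.1)) ∧ ∃ u, Φ g u ∧ ∀ v', Φ g v' → v' = u
      · obtain ⟨g, h1, u, h2, h3⟩ := hc
        exact ⟨u, Or.inl ⟨g, h1, h2, h3⟩⟩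
      · exact ⟨z0, Or.inr ⟨hc, rfl⟩⟩)
  -- the graphs
  have hgr : ∀ a : N, ∃ g : N, ∀ z : ZFSet.{0}, z ∈ g.1 ↔ ∃ x : N, x.1 ∈ a.1 ∧ z = ZFSet.pair x.1 (F x).1 := by
    intro a
    obtain ⟨b, hb, hb'⟩ := hN.exists_repl (F := fun x p => ∃ w : N, F x = w ∧ p.1 = ZFSet.pair x.1 w.1) (by
      show hN.Dfn (fun v : Fin 2 → N => ∃ w : N, F (v 0) = w ∧ (v 1).1 = ZFSet.pair (v 0).1 w.1)
      refine Dfn.ex (P := fun v w => F (v 0) = w ∧ (v 1).1 = ZFSet.pair (v 0).1 w.1) (Dfn.and ?_ ?_)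
      · exact Dfn.subst2 (P := fun x y => F x = y) hF (DT.var _) (DT.var _)
      · exact Dfn.isPair (DT.var _) (DT.var _) (DT.var _)) a.2 (by
      rintro x _ y y' ⟨w, h1, h2⟩ ⟨w', h1', h2'⟩
      apply Subtype.ext
      rw [h2, h2', ← h1, ← h1'])
    refine ⟨⟨b, hb⟩, fun z => ?_⟩
    constructor
    · intro hz
      obtain ⟨x, hx, w, h1, h2⟩ := (hb' ⟨z, hN.mem_of_mem hb hz⟩).1 hz
      exact ⟨x, hx, by rw [h1]; exact h2⟩
    · rintro ⟨x, hx, hz⟩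
      have hzN : z ∈ N := by rw [hz]; exact hN.pair_mem x.2 (F x).2
      exact (hb' ⟨z, hzN⟩).2 ⟨x, hx, F x, rfl, hz⟩
  choose gr hgr using hgr
  have hD : ∀ a : N, FnD (gr a).1 a.1 := by
    intro a
    refine ⟨?_, ?_, ?_⟩
    · intro z hz
      obtain ⟨x, hx, h1⟩ := (hgr a z).1 hz
      exact ⟨x.1, hx, (F x).1, h1⟩
    · intro x hx
      exact ⟨(F ⟨x, hN.mem_of_mem a.2 hx⟩).1, (hgr a _).2 ⟨⟨x, hN.mem_of_mem a.2 hx⟩, hx, rfl⟩⟩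
    · intro x y y' h1 h2
      obtain ⟨x1, _, h3⟩ := (hgr a _).1 h1
      obtain ⟨x2, _, h4⟩ := (hgr a _).1 h2
      rw [ZFSet.pair_inj] at h3 h4
      have e : x1 = x2 := Subtype.ext (h3.1.symm.trans h4.1)
      rw [h3.2, h4.2, e]
  have hrs : ∀ a b : N, b.1 ⊆ a.1 → rs (gr a).1 b.1 = (gr b).1 := by
    intro a b hba
    ext z
    rw [rs, ZFSet.mem_sep, hgr, hgr]
    constructor
    · rintro ⟨⟨x, hx, h1⟩, y, hy, w, h2⟩
      refine ⟨x, ?_, h1⟩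
      rw [h1, ZFSet.pair_inj] at h2
      rw [h2.1]; exact hy
    · rintro ⟨x, hx, h1⟩
      exact ⟨⟨x, hba hx, h1⟩, x.1, hx, _, h1⟩
  have hpair : ∀ a x y : N, ZFSet.pair x.1 y.1 ∈ (gr a).1 → y = F x := by
    intro a x y h1
    obtain ⟨x1, _, h3⟩ := (hgr a _).1 h1
    rw [ZFSet.pair_inj] at h3
    have e : x = x1 := Subtype.ext h3.1
    rw [e]
    exact Subtype.ext h3.2
  have hoN : ∀ β, β ≤ δ → β.toZFSet ∈ N := by
    intro β hβ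
    rcases hβ.eq_or_lt with rfl | hβ
    · exact hδ
    · exact hN.mem_of_mem hδ (Ordinal.toZFSet_mem_toZFSet_iff.2 hβ)
  have hsub : ∀ {β γ : Ordinal.{0}}, β ≤ γ → β.toZFSet ⊆ γ.toZFSet := by
    intro β γ hβγ x hx
    obtain ⟨ξ, hξ, rfl⟩ := Ordinal.mem_toZFSet_iff.1 hx
    exact Ordinal.toZFSet_mem_toZFSet_iff.2 (hξ.trans_le hβγ)
  have main : ∀ α : Ordinal.{0}, ∀ hα : α < δ, Φ (gr ⟨α.toZFSet, hoN α hα.le⟩) (F ⟨α.toZFSet, hoN α hα.le⟩) := by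
    intro α
    induction α using WellFoundedLT.induction with
    | ind α ih =>
      intro hα
      obtain ⟨y0, hy0, hy1⟩ := h α hα (gr ⟨α.toZFSet, hoN α hα.le⟩) (hD _) (by
        intro β hβ r y hr hy
        have hβδ := hβ.trans hα
        have e1 : r = gr ⟨β.toZFSet, hoN β hβδ.le⟩ := by
          apply Subtype.ext
          rw [hr]
          exact hrs ⟨α.toZFSet, hoN α hα.le⟩ ⟨β.toZFSet, hoN β hβδ.le⟩ (hsub hβ.le)
        have e2 : y = F ⟨β.toZFSet, hoN β hβδ.le⟩ := hpair _ ⟨β.toZFSet, hoN β hβδ.le⟩ y hy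
        rw [e1, e2]
        exact ih β hβ hβδ)
      have hGr : ∀ z : N, z.1 ∈ (gr ⟨α.toZFSet, hoN α hα.le⟩).1 ↔ ∃ y w : N, z.1 = ZFSet.pair y.1 w.1 ∧
          (y.1 ∈ α.toZFSet ∧ F y = w) := by
        intro z
        rw [hgr]
        constructor
        · rintro ⟨x, hx, h1⟩
          exact ⟨x, F x, h1, hx, rfl⟩
        · rintro ⟨x, w, h1, hx, rfl⟩
          exact ⟨x, hx, h1⟩
      rcases hFr ⟨α.toZFSet, hoN α hα.le⟩ with ⟨g, h1, h2, h3⟩ | ⟨h1, h2⟩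
      · have e : g = gr ⟨α.toZFSet, hoN α hα.le⟩ :=
          Subtype.ext (hN.ext' g.2 (gr _).2 fun z => (h1 z).trans (hGr z).symm)
        rw [e] at h2
        exact h2
      · exact absurd ⟨_, hGr, y0, hy0, hy1⟩ h1
  refine ⟨gr ⟨δ.toZFSet, hδ⟩, hD _, ?_⟩
  intro α hα r y hr hy
  have e1 : r = gr ⟨α.toZFSet, hoN α hα.le⟩ := by
    apply Subtype.ext
    rw [hr]
    exact hrs ⟨δ.toZFSet, hδ⟩ ⟨α.toZFSet, hoN α hα.le⟩ (hsub hα.le)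
  have e2 : y = F ⟨α.toZFSet, hoN α hα.le⟩ := hpair _ ⟨α.toZFSet, hoN α hα.le⟩ y hy
  rw [e1, e2]
  exact main α hα

/-- Recursion on an ordinal with choices from a set `A`. -/
theorem exists_dep {Φ : N → N → Prop} (hΦ : hN.Dfn (fun v : Fin 2 → N => Φ (v 0) (v 1)))
    {δ : Ordinal.{0}} (hδ : δ.toZFSet ∈ N) {A : ZFSet.{0}} (hA : A ∈ N)
    (h : ∀ α < δ, ∀ g : N, Fn g.1 α.toZFSet A →
      (∀ β < α, ∀ r y : N, r.1 = rs g.1 β.toZFSet → ZFSet.pair β.toZFSet y.1 ∈ g.1 → Φ r y) →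
      ∃ y : N, y.1 ∈ A ∧ Φ g y) :
    ∃ g : N, Fn g.1 δ.toZFSet A ∧
      ∀ α < δ, ∀ r y : N, r.1 = rs g.1 α.toZFSet → ZFSet.pair α.toZFSet y.1 ∈ g.1 → Φ r y := by
  obtain ⟨z0, hz0⟩ : ∃ z : N, z.1 = ∅ := ⟨⟨_, hN.empty_mem⟩, rfl⟩
  obtain ⟨AN, hAN⟩ : ∃ z : N, z.1 = A := ⟨⟨_, hA⟩, rfl⟩
  obtain ⟨pw, hpw, hpw'⟩ := hN.exists_pow hA
  obtain ⟨A', hA', hA'iff⟩ := hN.exists_sep (P := fun x => ¬ x.1 = ∅) (by
    show hN.Dfn (fun v : Fin 1 → N => ¬ (v 0).1 = ∅)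
    exact Dfn.not (Dfn.isEmpty (DT.var _))) hpw
  have hA'm : ∀ x : N, x.1 ∈ A' ↔ x.1 ⊆ A ∧ x.1 ≠ ∅ := by
    intro x
    rw [hA'iff, hpw']
    constructor
    · rintro ⟨⟨_, h1⟩, _, h2⟩
      exact ⟨h1, h2⟩
    · rintro ⟨h1, h2⟩
      exact ⟨⟨x.2, h1⟩, x.2, h2⟩
  obtain ⟨c, hc, hcF, hcE⟩ := exists_choice hN (F := fun x y => y.1 ∈ x.1)
    (Dfn.mem (DT.var _) (DT.var _)) hA' hA (by
    intro x hx
    obtain ⟨h1, h2⟩ := (hA'm x).1 hx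
    rw [ne_eq, ZFSet.eq_empty] at h2
    push Not at h2
    obtain ⟨y, hy⟩ := h2
    exact ⟨⟨y, hN.mem_of_mem x.2 hy⟩, h1 hy, hy⟩)
  obtain ⟨cN, hcN⟩ : ∃ z : N, z.1 = c := ⟨⟨_, hc⟩, rfl⟩
  -- the new relation
  let Φ' : N → N → Prop := fun g y => ∃ z : N, (∀ w : N, w.1 ∈ z.1 ↔ w.1 ∈ AN.1 ∧ Φ g w) ∧
    (ZFSet.pair z.1 y.1 ∈ cN.1 ∨ (z.1 = ∅ ∧ y = z0))
  have hΦ' : hN.Dfn (fun v : Fin 2 → N => Φ' (v 0) (v 1)) := by
    show hN.Dfn (fun v : Fin 2 → N => ∃ z : N, (∀ w : N, w.1 ∈ z.1 ↔ w.1 ∈ AN.1 ∧ Φ (v 0) w) ∧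
      (ZFSet.pair z.1 (v 1).1 ∈ cN.1 ∨ (z.1 = ∅ ∧ (v 1) = z0)))
    (repeat' first
      | exact DT.var _ | exact DT.last | exact DT.const _ | assumption
      | refine Dfn.pairMem ?_ ?_ ?_ | refine Dfn.isPair ?_ ?_ ?_ | refine Dfn.mem ?_ ?_
      | refine Dfn.eqv ?_ ?_ | refine Dfn.eq ?_ ?_ | refine Dfn.subset ?_ ?_
      | refine Dfn.isEmpty ?_ | refine Dfn.isTrans ?_ | refine Dfn.isOrd ?_ | refine Dfn.isNat ?_
      | refine Dfn.isUpair ?_ ?_ ?_ | refine Dfn.isInsert ?_ ?_ ?_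
      | refine Dfn.and ?_ ?_ | refine Dfn.or ?_ ?_ | refine Dfn.iff ?_ ?_ | refine Dfn.not ?_
      | refine Dfn.imp ?_ ?_ | refine Dfn.all ?_ | refine Dfn.ex ?_ | exact Dfn.false'
      | refine Dfn.ballZ ?_ ?_ | refine Dfn.bexZ ?_ ?_ | exact Dfn.const _)
    all_goals exact Dfn.subst2 hΦ (DT.var _) (DT.var _)
  have hz : ∀ g : N, ∃ z : N, ∀ w : N, w.1 ∈ z.1 ↔ w.1 ∈ AN.1 ∧ Φ g w := by
    intro g
    obtain ⟨z, hzN, h1⟩ := hN.exists_sep (P := fun w => Φ g w)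
      (Dfn.subst2 hΦ (DT.const g) (DT.var _)) hA
    refine ⟨⟨z, hzN⟩, fun w => ?_⟩
    rw [hAN]
    constructor
    · intro hw
      obtain ⟨h2, _, h3⟩ := (h1 w.1).1 hw
      exact ⟨h2, h3⟩
    · rintro ⟨h2, h3⟩
      exact (h1 w.1).2 ⟨h2, w.2, h3⟩
  have hne : ∀ z y : N, ZFSet.pair z.1 y.1 ∈ cN.1 → z.1 ≠ ∅ := by
    intro z y h1 h2
    rw [hcN] at h1
    obtain ⟨x, hx, y', _, h3⟩ := hcF.sub _ h1
    rw [ZFSet.pair_inj] at h3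
    rw [← h3.1] at hx
    exact ((hA'm z).1 hx).2 h2
  obtain ⟨G, hG, hGΦ⟩ := exists_rec hN hΦ' hδ (by
    intro α hα g _ _
    obtain ⟨z, hz1⟩ := hz g
    have huz : ∀ z' : N, (∀ w : N, w.1 ∈ z'.1 ↔ w.1 ∈ AN.1 ∧ Φ g w) → z' = z := fun z' h1 =>
      Subtype.ext (hN.ext' z'.2 z.2 fun w => (h1 w).trans (hz1 w).symm)
    by_cases he : z.1 = ∅
    · refine ⟨z0, ⟨z, hz1, Or.inr ⟨he, rfl⟩⟩, ?_⟩
      rintro y' ⟨z', h1, h2 | ⟨_, h2⟩⟩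
      · exact absurd (by rw [huz z' h1]; exact he) (hne z' y' h2)
      · exact h2
    · have hzA : z.1 ∈ A' := by
        rw [hA'm]
        refine ⟨fun w hw => ?_, he⟩
        have h1 := ((hz1 ⟨w, hN.mem_of_mem z.2 hw⟩).1 hw).1
        rw [hAN] at h1
        exact h1
      obtain ⟨y, hy, hzy⟩ := hcF.tot _ hzA
      have hyN : y ∈ N := hN.mem_of_mem hA hy
      refine ⟨⟨y, hyN⟩, ⟨z, hz1, Or.inl (by rw [hcN]; exact hzy)⟩, ?_⟩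
      rintro y' ⟨z', h1, h2 | ⟨h2, _⟩⟩
      · rw [huz z' h1, hcN] at h2
        apply Subtype.ext
        exact (hcF.ap_eq h2).symm.trans (hcF.ap_eq hzy)
      · rw [huz z' h1] at h2
        exact absurd h2 he)
  have hoN : ∀ β, β ≤ δ → β.toZFSet ∈ N := by
    intro β hβ
    rcases hβ.eq_or_lt with rfl | hβ
    · exact hδ
    · exact hN.mem_of_mem hδ (Ordinal.toZFSet_mem_toZFSet_iff.2 hβ)
  have hsub : ∀ {β γ : Ordinal.{0}}, β ≤ γ → β.toZFSet ⊆ γ.toZFSet := by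
    intro β γ hβγ x hx
    obtain ⟨ξ, hξ, rfl⟩ := Ordinal.mem_toZFSet_iff.1 hx
    exact Ordinal.toZFSet_mem_toZFSet_iff.2 (hξ.trans_le hβγ)
  have main : ∀ α : Ordinal.{0}, α < δ → ∀ r y : N, r.1 = rs G.1 α.toZFSet →
      ZFSet.pair α.toZFSet y.1 ∈ G.1 → y.1 ∈ A ∧ Φ r y := by
    intro α
    induction α using WellFoundedLT.induction with
    | ind α ih =>
      intro hα r y hr hy
      obtain ⟨y0, hy0, hy1⟩ := h α hα r (by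
        rw [hr]
        refine ⟨?_, ?_, ?_⟩
        · intro w hw
          obtain ⟨x, hx, y1, hw1⟩ := (hG.rs (hsub hα.le)).sub w hw
          obtain ⟨ξ, hξ, rfl⟩ := Ordinal.mem_toZFSet_iff.1 hx
          rw [hw1] at hw
          have h2 := (pair_mem_rs.1 hw).2
          have h3 := (hN.of_pair_mem (hN.mem_of_mem G.2 h2)).2
          exact ⟨_, hx, y1, (ih ξ hξ (hξ.trans hα) ⟨_, rs_mem hN G.2 (hoN ξ (hξ.trans hα).le)⟩ ⟨y1, h3⟩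
            rfl h2).1, hw1⟩
        · intro x hx
          obtain ⟨y1, hw⟩ := (hG.rs (hsub hα.le)).tot x hx
          obtain ⟨ξ, hξ, rfl⟩ := Ordinal.mem_toZFSet_iff.1 hx
          have h2 := (pair_mem_rs.1 hw).2
          have h3 := (hN.of_pair_mem (hN.mem_of_mem G.2 h2)).2
          exact ⟨y1, (ih ξ hξ (hξ.trans hα) ⟨_, rs_mem hN G.2 (hoN ξ (hξ.trans hα).le)⟩ ⟨y1, h3⟩
            rfl h2).1, hw⟩
        · intro x _ y1 _ y2 _ h1 h2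
          exact (hG.rs (hsub hα.le)).uni _ _ _ h1 h2) (by
        intro β hβ r' y' hr' hy'
        rw [hr] at hr' hy'
        rw [rs_rs (hsub hβ.le)] at hr'
        exact (ih β hβ (hβ.trans hα) r' y' hr' (pair_mem_rs.1 hy').2).2)
      obtain ⟨z, h1, h2 | ⟨h2, _⟩⟩ := hGΦ α hα r y hr hy
      · rw [hcN] at h2
        have h3 := hcE z y h2
        have h4 := (h1 y).1 h3
        rw [hAN] at h4
        exact h4
      · exfalso
        have h3 : y0.1 ∈ z.1 := (h1 y0).2 ⟨by rw [hAN]; exact hy0, hy1⟩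
        rw [h2] at h3
        exact ZFSet.notMem_empty _ h3
  refine ⟨G, ⟨?_, ?_, ?_⟩, fun α hα r y hr hy => (main α hα r y hr hy).2⟩
  · intro w hw
    obtain ⟨x, hx, y1, hw1⟩ := hG.sub w hw
    obtain ⟨ξ, hξ, rfl⟩ := Ordinal.mem_toZFSet_iff.1 hx
    rw [hw1] at hw
    have h3 := (hN.of_pair_mem (hN.mem_of_mem G.2 hw)).2
    exact ⟨_, hx, y1, (main ξ hξ ⟨_, rs_mem hN G.2 (hoN ξ hξ.le)⟩ ⟨y1, h3⟩ rfl hw).1, hw1⟩
  · intro x hx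
    obtain ⟨y1, hw⟩ := hG.tot x hx
    obtain ⟨ξ, hξ, rfl⟩ := Ordinal.mem_toZFSet_iff.1 hx
    have h3 := (hN.of_pair_mem (hN.mem_of_mem G.2 hw)).2
    exact ⟨y1, (main ξ hξ ⟨_, rs_mem hN G.2 (hoN ξ hξ.le)⟩ ⟨y1, h3⟩ rfl hw).1, hw⟩
  · intro x _ y1 _ y2 _ h1 h2
    exact hG.uni _ _ _ h1 h2

end Pool.Agent.H7.IG
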