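import Pool.Agent.H7.IG.Tk4
import Pool.Agent.H7.IG.Tk2

/-!
# IG toolkit 5: sizes at most `ω₁`

`δ` is `ω₁` of `N` (`IsOm1 N δ`).
* `cvr_prod_om1`: `δ × δ` has size `δ`: for `α < δ` fix (`exists_choice`) a map of `ω` onto `(α+1) × (α+1)`; this
  covers `δ × δ` by `δ × ω`; and `δ × ω` is covered by `δ`: e.g. the definable map `(λ + n) ↦ (λ, n)` (`λ` limit or 0)
  composed with an enumeration of the limit ordinals; or: let `g ∈ N` be a bijection of an ordinal `μ` with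
  `δ × δ` (`exists_enum`) such that the order is Goedel's order; every initial segment is countable, so `μ ≤ δ`.
  (Another way: `A ⊆ δ × δ` maximal such that `A × A`... choose any proof.)
* `cvr_union_om1`: unions of `δ` many sets of size `≤ δ`, from choice and `cvr_prod_om1`.
* `cvr_fin_om1`: finite subsets.
* `exists_inj_om1`: an uncountable set contains an injective image of `δ` (`cvr_total`, `exists_dep`, or: enumerate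
  `X` by an ordinal `μ`; `μ ≥ δ`).
* `om1_bdd`: countable subsets of `δ` are bounded (`IsOm1.bdd`).
-/

set_option autoImplicit false
set_option linter.unusedVariables false
set_option linter.unusedSectionVars false
set_option linter.unusedSimpArgs false
set_option linter.unusedTactic false
set_option linter.unreachableTactic false

namespace Pool.Agent.H7.IG

open Pool.Agent.H17.Omega Pool.Agent.H17.Omega.CTM Pool.Agent.H52.GX Pool.Agent.H52.GC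

/-- selection rule for the enumeration of `δ × δ`: a new pair with minimal maximum -/
def tk5Sel {N : Set ZFSet.{0}} (A g y : N) : Prop :=
  (∀ x : N, ¬ ZFSet.pair x.1 y.1 ∈ g.1) ∧ ∀ z : N, z.1 ∈ A.1 → (∀ x : N, ¬ ZFSet.pair x.1 z.1 ∈ g.1) →
    ∀ a b c d : N, y.1 = ZFSet.pair a.1 b.1 → z.1 = ZFSet.pair c.1 d.1 →
      ∀ x : N, (x.1 ∈ a.1 ∨ x.1 ∈ b.1) → (x.1 ∈ c.1 ∨ x.1 ∈ d.1)

variable {N : Set ZFSet.{0}} (hN : CTM N) {δ : Ordinal.{0}} (hδ : IsOm1 N δ)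

include hN

theorem tk5_sel_dfn (A : N) : hN.Dfn (fun v : Fin 2 → N => tk5Sel A (v 0) (v 1)) := by
  unfold tk5Sel
  (repeat' first
      | exact DT.var _ | exact DT.last | exact DT.const _ | assumption
      | refine Dfn.pairMem ?_ ?_ ?_ | refine Dfn.isPair ?_ ?_ ?_ | refine Dfn.mem ?_ ?_
      | refine Dfn.eqv ?_ ?_ | refine Dfn.eq ?_ ?_ | refine Dfn.subset ?_ ?_
      | refine Dfn.isEmpty ?_ | refine Dfn.isTrans ?_ | refine Dfn.isOrd ?_ | refine Dfn.isNat ?_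
      | refine Dfn.and ?_ ?_ | refine Dfn.or ?_ ?_ | refine Dfn.iff ?_ ?_ | refine Dfn.not ?_
      | refine Dfn.imp ?_ ?_ | refine Dfn.all ?_ | refine Dfn.ex ?_ | exact Dfn.false')

include hδ

theorem tk5_mem {β : Ordinal.{0}} (h : β ≤ δ) : β.toZFSet ∈ N := hN.toZFSet_mem_of_le h hδ.mem

theorem tk5_step {A : N} (hA : A.1 = ZFSet.prod δ.toZFSet δ.toZFSet) {α : Ordinal.{0}} (hα : α < δ)
    {g : N} (hg : Fn g.1 α.toZFSet A.1) : ∃ y : N, y.1 ∈ A.1 ∧ tk5Sel A g y := by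
  classical
  have hex : ∃ β γ : Ordinal.{0}, β < δ ∧ γ < δ ∧
      ∀ x : N, ¬ ZFSet.pair x.1 (ZFSet.pair β.toZFSet γ.toZFSet) ∈ g.1 := by
    by_contra hcon
    push Not at hcon
    apply hδ.unc
    refine Ctb.image hN (hδ.ctb α hα) (tk5_mem hN hδ hα.le)
      (F := fun x y => ∃ p : N, ZFSet.pair x.1 p.1 ∈ g.1 ∧ ∃ b : N, p.1 = ZFSet.pair y.1 b.1) (by
      (repeat' first
      | exact DT.var _ | exact DT.last | exact DT.const _ | assumption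
      | refine Dfn.pairMem ?_ ?_ ?_ | refine Dfn.isPair ?_ ?_ ?_ | refine Dfn.mem ?_ ?_
      | refine Dfn.eqv ?_ ?_ | refine Dfn.eq ?_ ?_ | refine Dfn.subset ?_ ?_
      | refine Dfn.isEmpty ?_ | refine Dfn.isTrans ?_ | refine Dfn.isOrd ?_ | refine Dfn.isNat ?_
      | refine Dfn.and ?_ ?_ | refine Dfn.or ?_ ?_ | refine Dfn.iff ?_ ?_ | refine Dfn.not ?_
      | refine Dfn.imp ?_ ?_ | refine Dfn.all ?_ | refine Dfn.ex ?_ | exact Dfn.false')) ?_ ?_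
    · rintro x - y y' ⟨p, h1, b, h2⟩ ⟨p', h1', b', h2'⟩
      have h3 : p.1 = p'.1 := (hg.ap_eq h1).symm.trans (hg.ap_eq h1')
      rw [h2, h2', ZFSet.pair_inj] at h3
      exact Subtype.ext h3.1
    · intro y hy
      obtain ⟨β, hβ, rfl⟩ := Ordinal.mem_toZFSet_iff.1 hy
      obtain ⟨x, hx⟩ := hcon β β hβ hβ
      obtain ⟨x', hx', y', _, h3⟩ := hg.sub _ hx
      rw [ZFSet.pair_inj] at h3
      have hb := tk5_mem hN hδ hβ.le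
      exact ⟨x, ⟨_, hb⟩, h3.1 ▸ hx', rfl, ⟨_, hN.pair_mem hb hb⟩, hx, ⟨_, hb⟩, rfl⟩
  obtain ⟨β₀, γ₀, hβ₀, hγ₀, hn₀⟩ := hex
  obtain ⟨ε, ⟨β, γ, hβ, hγ, hn, hmax⟩, hmin⟩ := WellFounded.has_min (r := (· < ·)) Ordinal.lt_wf
    {ε : Ordinal.{0} | ∃ β γ : Ordinal.{0}, β < δ ∧ γ < δ ∧
      (∀ x : N, ¬ ZFSet.pair x.1 (ZFSet.pair β.toZFSet γ.toZFSet) ∈ g.1) ∧ max β γ = ε}
    ⟨max β₀ γ₀, β₀, γ₀, hβ₀, hγ₀, hn₀, rfl⟩
  have hyN : ZFSet.pair β.toZFSet γ.toZFSet ∈ N :=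
    hN.pair_mem (tk5_mem hN hδ hβ.le) (tk5_mem hN hδ hγ.le)
  refine ⟨⟨_, hyN⟩, ?_, hn, ?_⟩
  · rw [hA, ZFSet.mem_prod]
    exact ⟨_, Ordinal.mem_toZFSet_iff.2 ⟨β, hβ, rfl⟩, _, Ordinal.mem_toZFSet_iff.2 ⟨γ, hγ, rfl⟩, rfl⟩
  · intro z hz hnz a b c d hy hz' x hx
    have hy' : ZFSet.pair β.toZFSet γ.toZFSet = ZFSet.pair a.1 b.1 := hy
    rw [ZFSet.pair_inj] at hy'
    rw [hA, hz', ZFSet.pair_mem_prod] at hz
    obtain ⟨β', hβ', hcβ⟩ := Ordinal.mem_toZFSet_iff.1 hz.1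
    obtain ⟨γ', hγ', hdγ⟩ := Ordinal.mem_toZFSet_iff.1 hz.2
    have h1 : ε ≤ max β' γ' := by
      by_contra h
      refine hmin (max β' γ') ⟨β', γ', hβ', hγ', ?_, rfl⟩ (not_le.1 h)
      intro w
      rw [hcβ, hdγ, ← hz']
      exact hnz w
    have h2 : ∃ ξ : Ordinal.{0}, ξ < max β γ ∧ ξ.toZFSet = x.1 := by
      rw [← hy'.1, ← hy'.2] at hx
      rcases hx with hx | hx
      · obtain ⟨ξ, hξ, h3⟩ := Ordinal.mem_toZFSet_iff.1 hx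
        exact ⟨ξ, hξ.trans_le (le_max_left _ _), h3⟩
      · obtain ⟨ξ, hξ, h3⟩ := Ordinal.mem_toZFSet_iff.1 hx
        exact ⟨ξ, hξ.trans_le (le_max_right _ _), h3⟩
    obtain ⟨ξ, hξ, h3⟩ := h2
    rw [hmax] at hξ
    rw [← h3, ← hcβ, ← hdγ]
    rcases lt_max_iff.1 (hξ.trans_le h1) with h4 | h4
    · exact Or.inl (Ordinal.toZFSet_mem_toZFSet_iff.2 h4)
    · exact Or.inr (Ordinal.toZFSet_mem_toZFSet_iff.2 h4)

theorem cvr_prod_om1 : Cvr N δ.toZFSet (ZFSet.prod δ.toZFSet δ.toZFSet) := by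
  classical
  have hA : ZFSet.prod δ.toZFSet δ.toZFSet ∈ N := hN.prod_mem hδ.mem hδ.mem
  obtain ⟨g, hg, hgs⟩ := exists_dep hN (tk5_sel_dfn hN ⟨_, hA⟩) hδ.mem hA
    (fun α hα g hg _ => tk5_step hN hδ (A := ⟨_, hA⟩) rfl hα hg)
  refine ⟨g.1, g.2, ?_, ?_⟩
  · intro y _ x x' h1 h2
    exact (hg.ap_eq h1).symm.trans (hg.ap_eq h2)
  intro z hz
  by_contra hcon
  push Not at hcon
  have hz' := hz
  rw [ZFSet.mem_prod] at hz'
  obtain ⟨c, hc, d, hd, rfl⟩ := hz'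
  obtain ⟨β, hβ, rfl⟩ := Ordinal.mem_toZFSet_iff.1 hc
  obtain ⟨γ, hγ, rfl⟩ := Ordinal.mem_toZFSet_iff.1 hd
  have hε : max β γ + 1 < δ := hδ.succ_lt hN (max_lt hβ hγ)
  have hcε := hδ.ctb _ hε
  have hεN := tk5_mem hN hδ hε.le
  apply hδ.unc
  refine Ctb.image hN (Ctb.prod hN hcε hcε) (hN.prod_mem hεN hεN)
    (F := fun p a => ZFSet.pair a.1 p.1 ∈ g.1) (by
      (repeat' first
      | exact DT.var _ | exact DT.last | exact DT.const _ | assumption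
      | refine Dfn.pairMem ?_ ?_ ?_ | refine Dfn.isPair ?_ ?_ ?_ | refine Dfn.mem ?_ ?_
      | refine Dfn.eqv ?_ ?_ | refine Dfn.eq ?_ ?_ | refine Dfn.subset ?_ ?_
      | refine Dfn.isEmpty ?_ | refine Dfn.isTrans ?_ | refine Dfn.isOrd ?_ | refine Dfn.isNat ?_
      | refine Dfn.and ?_ ?_ | refine Dfn.or ?_ ?_ | refine Dfn.iff ?_ ?_ | refine Dfn.not ?_
      | refine Dfn.imp ?_ ?_ | refine Dfn.all ?_ | refine Dfn.ex ?_ | exact Dfn.false')) ?_ ?_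
  · intro p _ a a' h1 h2
    have key : ∀ a a' : N, ∀ p : N, ZFSet.pair a.1 p.1 ∈ g.1 → ZFSet.pair a'.1 p.1 ∈ g.1 →
        ∀ α α' : Ordinal.{0}, α' < δ → a.1 = α.toZFSet → a'.1 = α'.toZFSet → ¬ α < α' := by
      intro a a' p h1 h2 α α' hα' ha ha' hlt
      have h3 := (hgs α' hα' ⟨_, rs_mem hN g.2 (tk5_mem hN hδ hα'.le)⟩ p rfl (by rw [← ha']; exact h2)).1 a
      apply h3
      show ZFSet.pair a.1 p.1 ∈ rs g.1 α'.toZFSet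
      rw [pair_mem_rs]
      exact ⟨by rw [ha]; exact Ordinal.toZFSet_mem_toZFSet_iff.2 hlt, h1⟩
    obtain ⟨x, hx, _, _, h3⟩ := hg.sub _ h1
    obtain ⟨x', hx', _, _, h4⟩ := hg.sub _ h2
    rw [ZFSet.pair_inj] at h3 h4
    rw [← h3.1] at hx
    rw [← h4.1] at hx'
    obtain ⟨α, hα, hα2⟩ := Ordinal.mem_toZFSet_iff.1 hx
    obtain ⟨α', hα', hα2'⟩ := Ordinal.mem_toZFSet_iff.1 hx'
    have h5 := key a a' p h1 h2 α α' hα' hα2.symm hα2'.symm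
    have h6 := key a' a p h2 h1 α' α hα hα2'.symm hα2.symm
    have h7 : α = α' := le_antisymm (not_lt.1 h6) (not_lt.1 h5)
    exact Subtype.ext (by rw [← hα2, ← hα2', h7])
  · intro y hy
    obtain ⟨α, hα, rfl⟩ := Ordinal.mem_toZFSet_iff.1 hy
    obtain ⟨p, hp, hpg⟩ := hg.tot _ hy
    have hpN : p ∈ N := hN.mem_of_mem hA hp
    have hαN := tk5_mem hN hδ hα.le
    rw [ZFSet.mem_prod] at hp
    obtain ⟨a, ha, b, hb, rfl⟩ := hp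
    obtain ⟨β', hβ', rfl⟩ := Ordinal.mem_toZFSet_iff.1 ha
    obtain ⟨γ', hγ', rfl⟩ := Ordinal.mem_toZFSet_iff.1 hb
    refine ⟨⟨_, hpN⟩, ⟨_, hαN⟩, ?_, rfl, hpg⟩
    have h1 := (hgs α hα ⟨_, rs_mem hN g.2 hαN⟩ ⟨_, hpN⟩ rfl hpg).2
      ⟨_, hN.mem_of_mem hA hz⟩ hz (by
        intro x hx
        have hx' : ZFSet.pair x.1 (ZFSet.pair β.toZFSet γ.toZFSet) ∈ rs g.1 α.toZFSet := hx
        rw [pair_mem_rs] at hx'
        obtain ⟨w, hw, _, _, h3⟩ := hg.sub _ hx'.2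
        rw [ZFSet.pair_inj] at h3
        exact hcon x.1 (h3.1 ▸ hw) hx'.2)
      ⟨_, hN.mem_of_mem hδ.mem ha⟩ ⟨_, hN.mem_of_mem hδ.mem hb⟩ ⟨_, hN.mem_of_mem hδ.mem hc⟩
      ⟨_, hN.mem_of_mem hδ.mem hd⟩ rfl rfl
    have hbd : ∀ ζ : Ordinal.{0}, ζ < δ → (∀ x : N, x.1 ∈ ζ.toZFSet → x.1 ∈ β.toZFSet ∨ x.1 ∈ γ.toZFSet) →
        ζ < max β γ + 1 := by
      intro ζ hζ h2
      by_contra h3
      have h4 : max β γ < ζ := lt_of_lt_of_le (Order.lt_add_one_iff.2 le_rfl) (not_lt.1 h3)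
      rcases h2 ⟨(max β γ).toZFSet, tk5_mem hN hδ (max_lt hβ hγ).le⟩
        (Ordinal.toZFSet_mem_toZFSet_iff.2 h4) with h5 | h5
      · exact absurd (Ordinal.toZFSet_mem_toZFSet_iff.1 h5) (not_lt.2 (le_max_left _ _))
      · exact absurd (Ordinal.toZFSet_mem_toZFSet_iff.1 h5) (not_lt.2 (le_max_right _ _))
    show ZFSet.pair β'.toZFSet γ'.toZFSet ∈ _
    rw [ZFSet.pair_mem_prod]
    exact ⟨Ordinal.toZFSet_mem_toZFSet_iff.2 (hbd β' hβ' fun x hx => h1 x (Or.inl hx)),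
      Ordinal.toZFSet_mem_toZFSet_iff.2 (hbd γ' hγ' fun x hx => h1 x (Or.inr hx))⟩

theorem ctb_cvr_om1 {X : ZFSet.{0}} (h : Ctb N X) : Cvr N δ.toZFSet X := by
  obtain ⟨f, hf, hf'⟩ := h
  refine ⟨seqZ f, hf, ?_, ?_⟩
  · intro y _ x x' h1 h2
    obtain ⟨n, h3⟩ := mem_seqZ.1 h1
    obtain ⟨m, h4⟩ := mem_seqZ.1 h2
    rw [ZFSet.pair_inj] at h3 h4
    have h5 : n = m := natZ_inj.1 (h3.1.symm.trans h4.1)
    rw [h3.2, h4.2, h5]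
  · intro x hx
    obtain ⟨n, rfl⟩ := hf' x hx
    refine ⟨natZ n, ?_, pair_mem_seqZ.2 rfl⟩
    rw [natZ_eq]
    exact Ordinal.toZFSet_mem_toZFSet_iff.2 (hδ.omega_lt hN n)

theorem tk5_prod_map {X Y : ZFSet.{0}} (hX : X ∈ N) (hY : Y ∈ N) (hc : Cvr N δ.toZFSet X)
    (hc' : Cvr N δ.toZFSet Y) : Cvr N (ZFSet.prod δ.toZFSet δ.toZFSet) (ZFSet.prod X Y) := by
  obtain ⟨f, hf, hf1, hf2⟩ := hc
  obtain ⟨g, hg, hg1, hg2⟩ := hc'
  refine cvr_of_dfn hN (F := fun p z => ∃ a b x y : N, p.1 = ZFSet.pair a.1 b.1 ∧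
    z.1 = ZFSet.pair x.1 y.1 ∧ ZFSet.pair a.1 x.1 ∈ (⟨f, hf⟩ : N).1 ∧
    ZFSet.pair b.1 y.1 ∈ (⟨g, hg⟩ : N).1) (by
      (repeat' first
      | exact DT.var _ | exact DT.last | exact DT.const _ | assumption
      | refine Dfn.pairMem ?_ ?_ ?_ | refine Dfn.isPair ?_ ?_ ?_ | refine Dfn.mem ?_ ?_
      | refine Dfn.eqv ?_ ?_ | refine Dfn.eq ?_ ?_ | refine Dfn.subset ?_ ?_
      | refine Dfn.isEmpty ?_ | refine Dfn.isTrans ?_ | refine Dfn.isOrd ?_ | refine Dfn.isNat ?_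
      | refine Dfn.and ?_ ?_ | refine Dfn.or ?_ ?_ | refine Dfn.iff ?_ ?_ | refine Dfn.not ?_
      | refine Dfn.imp ?_ ?_ | refine Dfn.all ?_ | refine Dfn.ex ?_ | exact Dfn.false')) (hN.prod_mem hδ.mem hδ.mem) (hN.prod_mem hX hY) ?_ ?_
  · rintro p hp z z' ⟨a, b, x, y, h1, h2, h3, h4⟩ ⟨a', b', x', y', h1', h2', h3', h4'⟩
    have hp' : p.1 ∈ ZFSet.prod δ.toZFSet δ.toZFSet := hp
    rw [h1, ZFSet.pair_mem_prod] at hp'
    have h5 := h1.symm.trans h1'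
    rw [ZFSet.pair_inj] at h5
    rw [← h5.1] at h3'
    rw [← h5.2] at h4'
    have e1 : x.1 = x'.1 := hf1 a.1 hp'.1 _ _ h3 h3'
    have e2 : y.1 = y'.1 := hg1 b.1 hp'.2 _ _ h4 h4'
    exact Subtype.ext (by rw [h2, h2', e1, e2])
  · intro z hz
    obtain ⟨x, hx, y, hy, hxy⟩ := ZFSet.mem_prod.1 hz
    obtain ⟨a, ha, hax⟩ := hf2 x hx
    obtain ⟨b, hb, hby⟩ := hg2 y hy
    have haN := hN.mem_of_mem hδ.mem ha
    have hbN := hN.mem_of_mem hδ.mem hb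
    exact ⟨⟨_, hN.pair_mem haN hbN⟩, ZFSet.pair_mem_prod.2 ⟨ha, hb⟩, ⟨a, haN⟩, ⟨b, hbN⟩,
      ⟨x, hN.mem_of_mem hX hx⟩, ⟨y, hN.mem_of_mem hY hy⟩, rfl, hxy, hax, hby⟩

theorem cvr_prod2_om1 {X Y : ZFSet.{0}} (hX : X ∈ N) (hY : Y ∈ N) (hc : Cvr N δ.toZFSet X)
    (hc' : Cvr N δ.toZFSet Y) : Cvr N δ.toZFSet (ZFSet.prod X Y) :=
  Cvr.trans hN hδ.mem (hN.prod_mem hδ.mem hδ.mem) (hN.prod_mem hX hY) (cvr_prod_om1 hN hδ)
    (tk5_prod_map hN hδ hX hY hc hc')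

theorem tk5_refl : Cvr N δ.toZFSet δ.toZFSet := cvr_of_subset hN hδ.mem (fun x hx => hx)

theorem cvr_union_om1 {I r X : ZFSet.{0}} (hI : I ∈ N) (hr : r ∈ N) (hX : X ∈ N) (hc : Cvr N δ.toZFSet I)
    (h : ∀ i ∈ I, ∃ Y ∈ N, Cvr N δ.toZFSet Y ∧ ∀ x ∈ X, ZFSet.pair i x ∈ r → x ∈ Y)
    (hcov : ∀ x ∈ X, ∃ i ∈ I, ZFSet.pair i x ∈ r) : Cvr N δ.toZFSet X := by
  obtain ⟨B, hB, hB'⟩ := hN.exists_pow (hN.prod_mem hδ.mem hX)
  obtain ⟨c, hcN, hcf, hcs⟩ := exists_choice hN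
    (F := fun i f => (∀ y : N, y.1 ∈ (⟨_, hδ.mem⟩ : N).1 → ∀ x x' : N, ZFSet.pair y.1 x.1 ∈ f.1 →
      ZFSet.pair y.1 x'.1 ∈ f.1 → x = x') ∧ ∀ x : N, x.1 ∈ (⟨X, hX⟩ : N).1 →
      ZFSet.pair i.1 x.1 ∈ (⟨r, hr⟩ : N).1 → ∃ y : N, y.1 ∈ (⟨_, hδ.mem⟩ : N).1 ∧
      ZFSet.pair y.1 x.1 ∈ f.1) (by
      (repeat' first
      | exact DT.var _ | exact DT.last | exact DT.const _ | assumption
      | refine Dfn.pairMem ?_ ?_ ?_ | refine Dfn.isPair ?_ ?_ ?_ | refine Dfn.mem ?_ ?_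
      | refine Dfn.eqv ?_ ?_ | refine Dfn.eq ?_ ?_ | refine Dfn.subset ?_ ?_
      | refine Dfn.isEmpty ?_ | refine Dfn.isTrans ?_ | refine Dfn.isOrd ?_ | refine Dfn.isNat ?_
      | refine Dfn.and ?_ ?_ | refine Dfn.or ?_ ?_ | refine Dfn.iff ?_ ?_ | refine Dfn.not ?_
      | refine Dfn.imp ?_ ?_ | refine Dfn.all ?_ | refine Dfn.ex ?_ | exact Dfn.false')) hI hB (by
      intro i hi
      obtain ⟨Y, hY, ⟨f, hf, hf1, hf2⟩, hYr⟩ := h i.1 hi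
      have hf' : ZFSet.sep (fun z => z ∈ (⟨f, hf⟩ : N).1) (ZFSet.prod δ.toZFSet X) ∈ N :=
        hN.sep_mem (by
      (repeat' first
      | exact DT.var _ | exact DT.last | exact DT.const _ | assumption
      | refine Dfn.pairMem ?_ ?_ ?_ | refine Dfn.isPair ?_ ?_ ?_ | refine Dfn.mem ?_ ?_
      | refine Dfn.eqv ?_ ?_ | refine Dfn.eq ?_ ?_ | refine Dfn.subset ?_ ?_
      | refine Dfn.isEmpty ?_ | refine Dfn.isTrans ?_ | refine Dfn.isOrd ?_ | refine Dfn.isNat ?_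
      | refine Dfn.and ?_ ?_ | refine Dfn.or ?_ ?_ | refine Dfn.iff ?_ ?_ | refine Dfn.not ?_
      | refine Dfn.imp ?_ ?_ | refine Dfn.all ?_ | refine Dfn.ex ?_ | exact Dfn.false')) (hN.prod_mem hδ.mem hX)
      refine ⟨⟨_, hf'⟩, (hB' _).2 ⟨hf', fun z hz => (ZFSet.mem_sep.1 hz).1⟩, ?_, ?_⟩
      · intro y hy x x' h1 h2
        exact Subtype.ext (hf1 y.1 hy _ _ (ZFSet.mem_sep.1 h1).2 (ZFSet.mem_sep.1 h2).2)
      · intro x hx hxr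
        obtain ⟨y, hy, hyx⟩ := hf2 x.1 (hYr x.1 hx hxr)
        exact ⟨⟨y, hN.mem_of_mem hδ.mem hy⟩, hy,
          ZFSet.mem_sep.2 ⟨ZFSet.pair_mem_prod.2 ⟨hy, hx⟩, hyx⟩⟩)
  have h1 : Cvr N (ZFSet.prod δ.toZFSet I) X := by
    refine cvr_of_dfn hN (F := fun p x => ∃ y i f : N, p.1 = ZFSet.pair y.1 i.1 ∧
      ZFSet.pair i.1 f.1 ∈ (⟨c, hcN⟩ : N).1 ∧ ZFSet.pair y.1 x.1 ∈ f.1) (by
      (repeat' first
      | exact DT.var _ | exact DT.last | exact DT.const _ | assumption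
      | refine Dfn.pairMem ?_ ?_ ?_ | refine Dfn.isPair ?_ ?_ ?_ | refine Dfn.mem ?_ ?_
      | refine Dfn.eqv ?_ ?_ | refine Dfn.eq ?_ ?_ | refine Dfn.subset ?_ ?_
      | refine Dfn.isEmpty ?_ | refine Dfn.isTrans ?_ | refine Dfn.isOrd ?_ | refine Dfn.isNat ?_
      | refine Dfn.and ?_ ?_ | refine Dfn.or ?_ ?_ | refine Dfn.iff ?_ ?_ | refine Dfn.not ?_
      | refine Dfn.imp ?_ ?_ | refine Dfn.all ?_ | refine Dfn.ex ?_ | exact Dfn.false')) (hN.prod_mem hδ.mem hI) hX ?_ ?_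
    · rintro p hp x x' ⟨y, i, f, h2, h3, h4⟩ ⟨y', i', f', h2', h3', h4'⟩
      have hp' : p.1 ∈ ZFSet.prod δ.toZFSet I := hp
      rw [h2, ZFSet.pair_mem_prod] at hp'
      have h5 := h2.symm.trans h2'
      rw [ZFSet.pair_inj] at h5
      rw [← h5.2] at h3'
      have h6 : f.1 = f'.1 := (hcf.ap_eq h3).symm.trans (hcf.ap_eq h3')
      rw [← h5.1, ← h6] at h4'
      exact (hcs i f h3).1 y hp'.1 x x' h4 h4'
    · intro x hx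
      obtain ⟨i, hi, hix⟩ := hcov x.1 hx
      obtain ⟨f, hf, hif⟩ := hcf.tot i hi
      have hiN := hN.mem_of_mem hI hi
      have hfN := hN.mem_of_mem hB hf
      obtain ⟨y, hy, hyx⟩ := (hcs ⟨i, hiN⟩ ⟨f, hfN⟩ hif).2 x hx hix
      exact ⟨⟨_, hN.pair_mem y.2 hiN⟩, ZFSet.pair_mem_prod.2 ⟨hy, hi⟩, y, ⟨i, hiN⟩, ⟨f, hfN⟩, rfl,
        hif, hyx⟩
  exact Cvr.trans hN hδ.mem (hN.prod_mem hδ.mem hI) hX
    (cvr_prod2_om1 hN hδ hδ.mem hI (tk5_refl hN hδ) hc) h1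

theorem tk5_finset_bdd (s : Finset ZFSet.{0}) (hs : ∀ z ∈ s, z ∈ δ.toZFSet) :
    ∃ α < δ, ∀ z ∈ s, z ∈ α.toZFSet := by
  classical
  induction s using Finset.induction_on with
  | empty => exact ⟨_, hδ.omega_lt hN 0, fun z hz => absurd hz (Finset.notMem_empty z)⟩
  | insert z s _ ih =>
    obtain ⟨α, hα, h1⟩ := ih fun w hw => hs w (Finset.mem_insert_of_mem hw)
    obtain ⟨β, hβ, hβz⟩ := Ordinal.mem_toZFSet_iff.1 (hs z (Finset.mem_insert_self _ _))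
    refine ⟨max α (β + 1), max_lt hα (hδ.succ_lt hN hβ), fun w hw => ?_⟩
    rcases Finset.mem_insert.1 hw with rfl | hw
    · rw [← hβz]
      exact Ordinal.toZFSet_mem_toZFSet_iff.2 (lt_max_of_lt_right (Order.lt_add_one_iff.2 le_rfl))
    · obtain ⟨γ, hγ, hγw⟩ := Ordinal.mem_toZFSet_iff.1 (h1 w hw)
      rw [← hγw]
      exact Ordinal.toZFSet_mem_toZFSet_iff.2 (lt_max_of_lt_left hγ)

theorem tk5_fin_delta {Fi : ZFSet.{0}} (hFi : Fi ∈ N) (hFi' : ∀ a, a ∈ Fi ↔ a ⊆ δ.toZFSet ∧ FinZ a) :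
    Cvr N δ.toZFSet Fi := by
  obtain ⟨r, hr, hr'⟩ := hN.exists_sep (P := fun z => ∃ a y : N, z.1 = ZFSet.pair a.1 y.1 ∧ y.1 ⊆ a.1) (by
      (repeat' first
      | exact DT.var _ | exact DT.last | exact DT.const _ | assumption
      | refine Dfn.pairMem ?_ ?_ ?_ | refine Dfn.isPair ?_ ?_ ?_ | refine Dfn.mem ?_ ?_
      | refine Dfn.eqv ?_ ?_ | refine Dfn.eq ?_ ?_ | refine Dfn.subset ?_ ?_
      | refine Dfn.isEmpty ?_ | refine Dfn.isTrans ?_ | refine Dfn.isOrd ?_ | refine Dfn.isNat ?_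
      | refine Dfn.and ?_ ?_ | refine Dfn.or ?_ ?_ | refine Dfn.iff ?_ ?_ | refine Dfn.not ?_
      | refine Dfn.imp ?_ ?_ | refine Dfn.all ?_ | refine Dfn.ex ?_ | exact Dfn.false')) (hN.prod_mem hδ.mem hFi)
  refine cvr_union_om1 hN hδ hδ.mem hr hFi (tk5_refl hN hδ) ?_ ?_
  · intro i hi
    obtain ⟨α, hα, rfl⟩ := Ordinal.mem_toZFSet_iff.1 hi
    obtain ⟨Fa, hFa, hFa'⟩ := exists_fin hN (tk5_mem hN hδ hα.le)
    refine ⟨Fa, hFa, ctb_cvr_om1 hN hδ (Ctb.fin hN (hδ.ctb α hα) (fun y hy => (hFa' y).1 hy)), ?_⟩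
    intro x hx hxr
    obtain ⟨-, _, a, y, h1, h2⟩ := (hr' _).1 hxr
    have h1' : ZFSet.pair α.toZFSet x = ZFSet.pair a.1 y.1 := h1
    rw [ZFSet.pair_inj] at h1'
    rw [← h1'.1, ← h1'.2] at h2
    exact (hFa' x).2 ⟨h2, ((hFi' x).1 hx).2⟩
  · intro x hx
    obtain ⟨h1, s, hs⟩ := (hFi' x).1 hx
    obtain ⟨α, hα, h2⟩ := tk5_finset_bdd hN hδ s (fun z hz => h1 ((hs z).2 hz))
    have hαδ : α.toZFSet ∈ δ.toZFSet := Ordinal.toZFSet_mem_toZFSet_iff.2 hα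
    have hαN := tk5_mem hN hδ hα.le
    have hxN := hN.mem_of_mem hFi hx
    refine ⟨α.toZFSet, hαδ, (hr' _).2 ⟨ZFSet.pair_mem_prod.2 ⟨hαδ, hx⟩, hN.pair_mem hαN hxN,
      ⟨_, hαN⟩, ⟨_, hxN⟩, rfl, fun z hz => h2 z ((hs z).1 hz)⟩⟩

theorem cvr_fin_om1 {X Y : ZFSet.{0}} (hX : X ∈ N) (hY : Y ∈ N) (hc : Cvr N δ.toZFSet X)
    (h : ∀ y ∈ Y, y ⊆ X ∧ FinZ y) : Cvr N δ.toZFSet Y := by
  classical
  obtain ⟨f, hf, hf1, hf2⟩ := hc
  obtain ⟨Fi, hFi, hFi'⟩ := exists_fin hN hδ.mem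
  refine Cvr.trans hN hδ.mem hFi hY (tk5_fin_delta hN hδ hFi hFi') ?_
  refine cvr_of_dfn hN (F := fun a b => ∀ z : N, z.1 ∈ b.1 ↔ ∃ n : N, n.1 ∈ a.1 ∧
    ZFSet.pair n.1 z.1 ∈ (⟨_, hf⟩ : N).1) (by
      (repeat' first
      | exact DT.var _ | exact DT.last | exact DT.const _ | assumption
      | refine Dfn.pairMem ?_ ?_ ?_ | refine Dfn.isPair ?_ ?_ ?_ | refine Dfn.mem ?_ ?_
      | refine Dfn.eqv ?_ ?_ | refine Dfn.eq ?_ ?_ | refine Dfn.subset ?_ ?_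
      | refine Dfn.isEmpty ?_ | refine Dfn.isTrans ?_ | refine Dfn.isOrd ?_ | refine Dfn.isNat ?_
      | refine Dfn.and ?_ ?_ | refine Dfn.or ?_ ?_ | refine Dfn.iff ?_ ?_ | refine Dfn.not ?_
      | refine Dfn.imp ?_ ?_ | refine Dfn.all ?_ | refine Dfn.ex ?_ | exact Dfn.false')) hFi hY ?_ ?_
  · intro x _ y y' h1 h2
    exact Subtype.ext (hN.ext' y.2 y'.2 fun z => (h1 z).trans (h2 z).symm)
  · intro y hy
    obtain ⟨h1, s, hs⟩ := h y.1 hy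
    have hidx : ∀ z : ZFSet.{0}, ∃ n, z ∈ y.1 → n ∈ δ.toZFSet ∧ ZFSet.pair n z ∈ f := by
      intro z
      by_cases hz : z ∈ y.1
      · obtain ⟨n, hn, hn'⟩ := hf2 z (h1 hz)
        exact ⟨n, fun _ => ⟨hn, hn'⟩⟩
      · exact ⟨∅, fun h => (hz h).elim⟩
    choose ix hix using hidx
    let t : Finset ZFSet.{0} := s.image ix
    have hmk : ∃ a : ZFSet.{0}, ∀ z, z ∈ a ↔ z ∈ t := by
      refine ⟨ZFSet.sep (fun z => z ∈ t) δ.toZFSet, fun z => ?_⟩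
      rw [ZFSet.mem_sep]
      constructor
      · exact fun h => h.2
      · intro h
        refine ⟨?_, h⟩
        obtain ⟨w, hw, rfl⟩ := Finset.mem_image.1 h
        exact (hix w ((hs w).2 hw)).1
    obtain ⟨a, ha⟩ := hmk
    have haFi : a ∈ Fi := by
      refine (hFi' a).2 ⟨?_, t, ha⟩
      intro z hz
      obtain ⟨w, hw, rfl⟩ := Finset.mem_image.1 ((ha z).1 hz)
      exact (hix w ((hs w).2 hw)).1
    refine ⟨⟨a, hN.mem_of_mem hFi haFi⟩, haFi, fun z => ?_⟩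
    constructor
    · intro hz
      have h2 := hix z.1 hz
      exact ⟨⟨ix z.1, hN.mem_of_mem hδ.mem h2.1⟩,
        (ha _).2 (Finset.mem_image.2 ⟨z.1, (hs _).1 hz, rfl⟩), h2.2⟩
    · rintro ⟨n, hn, h2⟩
      obtain ⟨w, hw, hw2⟩ := Finset.mem_image.1 ((ha _).1 hn)
      have h4 := hix w ((hs w).2 hw)
      rw [← hw2] at h2
      have h5 : z.1 = w := hf1 _ h4.1 _ _ h2 h4.2
      rw [h5]
      exact (hs w).2 hw

theorem exists_inj_om1 {X : ZFSet.{0}} (hX : X ∈ N) (h : ¬ Ctb N X) :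
    ∃ f ∈ N, Fn f δ.toZFSet X ∧ ∀ x x' y : ZFSet.{0}, ZFSet.pair x y ∈ f → ZFSet.pair x' y ∈ f → x = x' := by
  obtain ⟨μ, hμ, f, hf, hfo, hfi⟩ := exists_enum hN hX
  have hle : δ ≤ μ := by
    by_contra hlt
    apply h
    refine Ctb.image hN (hδ.ctb μ (not_le.1 hlt)) hμ
      (F := fun x y => ZFSet.pair x.1 y.1 ∈ (⟨f, hf⟩ : N).1) (by
      (repeat' first
      | exact DT.var _ | exact DT.last | exact DT.const _ | assumption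
      | refine Dfn.pairMem ?_ ?_ ?_ | refine Dfn.isPair ?_ ?_ ?_ | refine Dfn.mem ?_ ?_
      | refine Dfn.eqv ?_ ?_ | refine Dfn.eq ?_ ?_ | refine Dfn.subset ?_ ?_
      | refine Dfn.isEmpty ?_ | refine Dfn.isTrans ?_ | refine Dfn.isOrd ?_ | refine Dfn.isNat ?_
      | refine Dfn.and ?_ ?_ | refine Dfn.or ?_ ?_ | refine Dfn.iff ?_ ?_ | refine Dfn.not ?_
      | refine Dfn.imp ?_ ?_ | refine Dfn.all ?_ | refine Dfn.ex ?_ | exact Dfn.false')) ?_ ?_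
    · intro x _ y y' h1 h2
      exact Subtype.ext ((hfo.1.ap_eq h1).symm.trans (hfo.1.ap_eq h2))
    · intro y hy
      obtain ⟨x, hx, hxy⟩ := hfo.2 y hy
      exact ⟨⟨x, hN.mem_of_mem hμ hx⟩, ⟨y, hN.mem_of_mem hX hy⟩, hx, rfl, hxy⟩
  obtain ⟨g, hg, hg'⟩ := hN.exists_sep (P := fun z => ∃ a b : N, z.1 = ZFSet.pair a.1 b.1 ∧
    a.1 ∈ (⟨_, hδ.mem⟩ : N).1) (by
      (repeat' first
      | exact DT.var _ | exact DT.last | exact DT.const _ | assumption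
      | refine Dfn.pairMem ?_ ?_ ?_ | refine Dfn.isPair ?_ ?_ ?_ | refine Dfn.mem ?_ ?_
      | refine Dfn.eqv ?_ ?_ | refine Dfn.eq ?_ ?_ | refine Dfn.subset ?_ ?_
      | refine Dfn.isEmpty ?_ | refine Dfn.isTrans ?_ | refine Dfn.isOrd ?_ | refine Dfn.isNat ?_
      | refine Dfn.and ?_ ?_ | refine Dfn.or ?_ ?_ | refine Dfn.iff ?_ ?_ | refine Dfn.not ?_
      | refine Dfn.imp ?_ ?_ | refine Dfn.all ?_ | refine Dfn.ex ?_ | exact Dfn.false')) hf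
  have hgp : ∀ a b : ZFSet.{0}, ZFSet.pair a b ∈ g → a ∈ δ.toZFSet ∧ ZFSet.pair a b ∈ f := by
    intro a b hab
    obtain ⟨h1, _, a', b', h2, h3⟩ := (hg' _).1 hab
    have h2' : ZFSet.pair a b = ZFSet.pair a'.1 b'.1 := h2
    rw [ZFSet.pair_inj] at h2'
    exact ⟨by rw [h2'.1]; exact h3, h1⟩
  refine ⟨g, hg, ⟨?_, ?_, ?_⟩, fun x x' y h1 h2 => hfi x x' y (hgp _ _ h1).2 (hgp _ _ h2).2⟩
  · intro z hz
    obtain ⟨h1, _, a, b, h2, h3⟩ := (hg' _).1 hz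
    obtain ⟨x, _, y, hy, rfl⟩ := hfo.1.sub z h1
    exact ⟨x, (hgp _ _ hz).1, y, hy, rfl⟩
  · intro x hx
    obtain ⟨α, hα, rfl⟩ := Ordinal.mem_toZFSet_iff.1 hx
    obtain ⟨y, hy, hxy⟩ := hfo.1.tot _ (Ordinal.toZFSet_mem_toZFSet_iff.2 (hα.trans_le hle))
    refine ⟨y, hy, (hg' _).2 ⟨hxy, hN.mem_of_mem hf hxy, ⟨_, tk5_mem hN hδ hα.le⟩,
      ⟨y, hN.mem_of_mem hX hy⟩, rfl, hx⟩⟩
  · intro x _ y _ y' _ h1 h2
    exact (hfo.1.ap_eq (hgp _ _ h1).2).symm.trans (hfo.1.ap_eq (hgp _ _ h2).2)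

/-- Countable subsets of `ω₁` are bounded. -/
theorem om1_bdd {X : ZFSet.{0}} (hX : X ∈ N) (hc : Ctb N X) (hs : X ⊆ δ.toZFSet) :
    ∃ α < δ, X ⊆ α.toZFSet := by
  obtain ⟨α, hα, h1⟩ := hδ.bdd hN hX hc (F := fun x y => x = y) (by
      (repeat' first
      | exact DT.var _ | exact DT.last | exact DT.const _ | assumption
      | refine Dfn.pairMem ?_ ?_ ?_ | refine Dfn.isPair ?_ ?_ ?_ | refine Dfn.mem ?_ ?_
      | refine Dfn.eqv ?_ ?_ | refine Dfn.eq ?_ ?_ | refine Dfn.subset ?_ ?_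
      | refine Dfn.isEmpty ?_ | refine Dfn.isTrans ?_ | refine Dfn.isOrd ?_ | refine Dfn.isNat ?_
      | refine Dfn.and ?_ ?_ | refine Dfn.or ?_ ?_ | refine Dfn.iff ?_ ?_ | refine Dfn.not ?_
      | refine Dfn.imp ?_ ?_ | refine Dfn.all ?_ | refine Dfn.ex ?_ | exact Dfn.false')) (fun x _ y y' h1 h2 => h1.symm.trans h2)
  refine ⟨α + 1, hδ.succ_lt hN hα, fun x hx => ?_⟩
  obtain ⟨β, hβ, hβx⟩ := Ordinal.mem_toZFSet_iff.1 (hs hx)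
  have h2 := h1 ⟨x, hN.mem_of_mem hX hx⟩ hx _ rfl β hβ hβx.symm
  rw [← hβx]
  exact Ordinal.toZFSet_mem_toZFSet_iff.2 (Order.lt_add_one_iff.2 h2)

/-- A subset of `ω₁` is countable iff it is bounded. -/
theorem ctb_iff_bdd {X : ZFSet.{0}} (hX : X ∈ N) (hs : X ⊆ δ.toZFSet) : Ctb N X ↔ ∃ α < δ, X ⊆ α.toZFSet := by
  refine ⟨fun h => om1_bdd hN hδ hX h hs, ?_⟩
  rintro ⟨α, hα, h⟩
  exact (hδ.ctb α hα).mono h

end Pool.Agent.H7.IG
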