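import Pool.Agent.H7.IG.Tk2

/-!
# IG toolkit 3: maximal cliques

For a definable symmetric relation `E` and `A ∈ N` there is a maximal `D ⊆ A`, `D ∈ N`, whose distinct members
are pairwise `E`-related. Proof: enumerate `A` by an ordinal `μ` (`exists_enum`), and put the `α`-th element
into `D` iff it is `E`-related to all earlier elements that were put into `D` (`exists_rec` for the
characteristic function with values `∅`, `{∅}`).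
-/

set_option autoImplicit false
set_option linter.unusedVariables false
set_option linter.unusedSectionVars false
set_option linter.unusedSimpArgs false
set_option linter.unusedTactic false
set_option linter.unreachableTactic false

namespace Pool.Agent.H7.IG

open Pool.Agent.H17.Omega Pool.Agent.H17.Omega.CTM Pool.Agent.H52.GX Pool.Agent.H52.GC

variable {N : Set ZFSet.{0}} (hN : CTM N)

include hN

theorem exists_max {E : N → N → Prop} (hE : hN.Dfn (fun v : Fin 2 → N => E (v 0) (v 1)))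
    (hs : ∀ x y, E x y → E y x) {A : ZFSet.{0}} (hA : A ∈ N) :
    ∃ D ∈ N, D ⊆ A ∧ (∀ x y : N, x.1 ∈ D → y.1 ∈ D → x ≠ y → E x y) ∧
      ∀ x : N, x.1 ∈ A → x.1 ∉ D → ∃ y : N, y.1 ∈ D ∧ ¬ E x y := by
  obtain ⟨μ, hμ, f, hf, hfO, hfi⟩ := exists_enum hN hA
  have hoN : ({∅} : ZFSet.{0}) ∈ N := hN.singleton_mem hN.empty_mem
  obtain ⟨z, hz⟩ : ∃ z : N, z.1 = ∅ := ⟨⟨_, hN.empty_mem⟩, rfl⟩
  obtain ⟨o, ho⟩ : ∃ o : N, o.1 = {∅} := ⟨⟨_, hoN⟩, rfl⟩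
  obtain ⟨F, hF⟩ : ∃ F : N, F.1 = f := ⟨⟨_, hf⟩, rfl⟩
  obtain ⟨m, hm⟩ : ∃ m : N, m.1 = μ.toZFSet := ⟨⟨_, hμ⟩, rfl⟩
  have hzo : o ≠ z := by
    intro h
    have h1 : o.1 = z.1 := congrArg Subtype.val h
    rw [ho, hz] at h1
    have h2 : (∅ : ZFSet.{0}) ∈ ({∅} : ZFSet.{0}) := ZFSet.mem_singleton.2 rfl
    rw [h1] at h2
    exact ZFSet.notMem_empty _ h2
  let Cd : N → Prop := fun g => ∀ d : N, FnD g.1 d.1 → ∀ b : N, b.1 ∈ d.1 → ZFSet.pair b.1 o.1 ∈ g.1 →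
    ∀ x y : N, ZFSet.pair d.1 x.1 ∈ F.1 → ZFSet.pair b.1 y.1 ∈ F.1 → E x y
  have hΦ : hN.Dfn (fun v : Fin 2 → N => ((v 1) = o ∧ Cd (v 0)) ∨ ((v 1) = z ∧ ¬ Cd (v 0))) := by
    show hN.Dfn (fun v : Fin 2 → N => ((v 1) = o ∧ (∀ d : N, FnD (v 0).1 d.1 → ∀ b : N, b.1 ∈ d.1 →
      ZFSet.pair b.1 o.1 ∈ (v 0).1 → ∀ x y : N, ZFSet.pair d.1 x.1 ∈ F.1 → ZFSet.pair b.1 y.1 ∈ F.1 → E x y)) ∨
      ((v 1) = z ∧ ¬ (∀ d : N, FnD (v 0).1 d.1 → ∀ b : N, b.1 ∈ d.1 →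
      ZFSet.pair b.1 o.1 ∈ (v 0).1 → ∀ x y : N, ZFSet.pair d.1 x.1 ∈ F.1 → ZFSet.pair b.1 y.1 ∈ F.1 → E x y)))
    (repeat' first
      | exact DT.var _ | exact DT.last | exact DT.const _ | assumption
      | refine Dfn.pairMem ?_ ?_ ?_ | refine Dfn.isPair ?_ ?_ ?_ | refine Dfn.mem ?_ ?_
      | refine Dfn.eqv ?_ ?_ | refine Dfn.eq ?_ ?_ | refine Dfn.subset ?_ ?_
      | refine Dfn.isEmpty ?_ | refine Dfn.isTrans ?_ | refine Dfn.isOrd ?_ | refine Dfn.isNat ?_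
      | refine Dfn.isUpair ?_ ?_ ?_ | refine Dfn.isInsert ?_ ?_ ?_
      | refine Dfn.and ?_ ?_ | refine Dfn.or ?_ ?_ | refine Dfn.iff ?_ ?_ | refine Dfn.not ?_
      | refine Dfn.imp ?_ ?_ | refine Dfn.all ?_ | refine Dfn.ex ?_ | exact Dfn.false'
      | refine Dfn.ballZ ?_ ?_ | refine Dfn.bexZ ?_ ?_ | exact Dfn.const _)
    all_goals first
      | exact Dfn.subst2 hE (DT.var _) (DT.var _)
      | exact UD.d2 (P := fun _ x y => FnD x.1 y.1) ud_FnD (show N ∈ CtmC from hN) (DT.var _) (DT.var _)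
  have hdom : ∀ {g a b : ZFSet.{0}}, FnD g a → FnD g b → a = b := by
    have key : ∀ {g a b : ZFSet.{0}}, FnD g a → FnD g b → ∀ x ∈ a, x ∈ b := by
      intro g a b h1 h2 x hx
      obtain ⟨y, hy⟩ := h1.tot x hx
      obtain ⟨x', hx', y', h3⟩ := h2.sub _ hy
      rw [ZFSet.pair_inj] at h3
      exact h3.1 ▸ hx'
    intro g a b h1 h2
    ext x
    exact ⟨key h1 h2 x, key h2 h1 x⟩
  obtain ⟨G, hG, hGΦ⟩ := exists_rec hN (Φ := fun g y => (y = o ∧ Cd g) ∨ (y = z ∧ ¬ Cd g)) hΦ hμ (by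
    intro α hα g hg hrec
    by_cases h : Cd g
    · refine ⟨o, Or.inl ⟨rfl, h⟩, ?_⟩
      rintro y' (⟨h1, _⟩ | ⟨_, h1⟩)
      · exact h1
      · exact absurd h h1
    · refine ⟨z, Or.inr ⟨rfl, h⟩, ?_⟩
      rintro y' (⟨_, h1⟩ | ⟨h1, _⟩)
      · exact absurd h1 h
      · exact h1)
  have hfF := hfO.1
  -- restrictions
  have hrs : ∀ β < μ, FnD (rs G.1 β.toZFSet) β.toZFSet := by
    intro β hβ
    refine ⟨?_, ?_, ?_⟩
    · intro w hw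
      rw [rs, ZFSet.mem_sep] at hw
      obtain ⟨x, hx, y, hxy⟩ := hw.2
      exact ⟨x, hx, y, hxy⟩
    · intro x hx
      obtain ⟨ξ, hξ, rfl⟩ := Ordinal.mem_toZFSet_iff.1 hx
      obtain ⟨y, hy⟩ := hG.tot ξ.toZFSet (Ordinal.toZFSet_mem_toZFSet_iff.2 (hξ.trans hβ))
      exact ⟨y, pair_mem_rs.2 ⟨hx, hy⟩⟩
    · intro x y y' h1 h2
      exact hG.uni _ _ _ (pair_mem_rs.1 h1).2 (pair_mem_rs.1 h2).2
  have hΦ' : ∀ β < μ, ∀ y : N, ZFSet.pair β.toZFSet y.1 ∈ G.1 → ∃ r : N, r.1 = rs G.1 β.toZFSet ∧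
      ((y = o ∧ Cd r) ∨ (y = z ∧ ¬ Cd r)) := by
    intro β hβ y hy
    have hβN : β.toZFSet ∈ N := hN.mem_of_mem hμ (Ordinal.toZFSet_mem_toZFSet_iff.2 hβ)
    exact ⟨⟨_, rs_mem hN G.2 hβN⟩, rfl, hGΦ β hβ ⟨_, rs_mem hN G.2 hβN⟩ y rfl hy⟩
  -- the set
  obtain ⟨D, hD, hDiff⟩ := hN.exists_sep (P := fun x => ∃ b : N, b.1 ∈ m.1 ∧ ZFSet.pair b.1 o.1 ∈ G.1 ∧
    ZFSet.pair b.1 x.1 ∈ F.1) (by
    show hN.Dfn (fun v : Fin 1 → N => ∃ b : N, b.1 ∈ m.1 ∧ ZFSet.pair b.1 o.1 ∈ G.1 ∧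
      ZFSet.pair b.1 (v 0).1 ∈ F.1)
    (repeat' first
      | exact DT.var _ | exact DT.last | exact DT.const _ | assumption
      | refine Dfn.pairMem ?_ ?_ ?_ | refine Dfn.isPair ?_ ?_ ?_ | refine Dfn.mem ?_ ?_
      | refine Dfn.eqv ?_ ?_ | refine Dfn.eq ?_ ?_ | refine Dfn.subset ?_ ?_
      | refine Dfn.isEmpty ?_ | refine Dfn.isTrans ?_ | refine Dfn.isOrd ?_ | refine Dfn.isNat ?_
      | refine Dfn.isUpair ?_ ?_ ?_ | refine Dfn.isInsert ?_ ?_ ?_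
      | refine Dfn.and ?_ ?_ | refine Dfn.or ?_ ?_ | refine Dfn.iff ?_ ?_ | refine Dfn.not ?_
      | refine Dfn.imp ?_ ?_ | refine Dfn.all ?_ | refine Dfn.ex ?_ | exact Dfn.false'
      | refine Dfn.ballZ ?_ ?_ | refine Dfn.bexZ ?_ ?_ | exact Dfn.const _)
    ) hA
  have hDm : ∀ x : ZFSet.{0}, x ∈ D ↔ ∃ β < μ, ZFSet.pair β.toZFSet ({∅} : ZFSet.{0}) ∈ G.1 ∧
      ZFSet.pair β.toZFSet x ∈ f := by
    intro x
    rw [hDiff]
    constructor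
    · rintro ⟨hxA, hxN, b, hb, h1, h2⟩
      rw [hm] at hb
      obtain ⟨β, hβ, hβb⟩ := Ordinal.mem_toZFSet_iff.1 hb
      rw [← hβb, ho] at h1
      rw [← hβb, hF] at h2
      exact ⟨β, hβ, h1, h2⟩
    · rintro ⟨β, hβ, h1, h2⟩
      have hβN : β.toZFSet ∈ N := hN.mem_of_mem hμ (Ordinal.toZFSet_mem_toZFSet_iff.2 hβ)
      obtain ⟨x', _, y', hy', h3⟩ := hfF.sub _ h2
      rw [ZFSet.pair_inj] at h3
      have hxA : x ∈ A := h3.2 ▸ hy'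
      refine ⟨hxA, hN.mem_of_mem hA hxA, ⟨_, hβN⟩, ?_, ?_, ?_⟩
      · rw [hm]
        exact Ordinal.toZFSet_mem_toZFSet_iff.2 hβ
      · rw [ho]; exact h1
      · rw [hF]; exact h2
  have hDA : D ⊆ A := fun x hx => ((hDiff x).1 hx).1
  have huni : ∀ {x y y' : ZFSet.{0}}, ZFSet.pair x y ∈ f → ZFSet.pair x y' ∈ f → y = y' := by
    intro x y y' h1 h2
    exact (hfF.ap_eq h1).symm.trans (hfF.ap_eq h2)
  -- pairs
  have hpair : ∀ β < μ, ∀ γ < β, ∀ x y : N, ZFSet.pair β.toZFSet ({∅} : ZFSet.{0}) ∈ G.1 →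
      ZFSet.pair γ.toZFSet ({∅} : ZFSet.{0}) ∈ G.1 → ZFSet.pair β.toZFSet x.1 ∈ f →
      ZFSet.pair γ.toZFSet y.1 ∈ f → E x y := by
    intro β hβ γ hγ x y h1 h2 h3 h4
    have hβN : β.toZFSet ∈ N := hN.mem_of_mem hμ (Ordinal.toZFSet_mem_toZFSet_iff.2 hβ)
    have hγN : γ.toZFSet ∈ N := hN.mem_of_mem hβN (Ordinal.toZFSet_mem_toZFSet_iff.2 hγ)
    obtain ⟨r, hr, h5⟩ := hΦ' β hβ o (by rw [ho]; exact h1)
    rcases h5 with ⟨_, h5⟩ | ⟨h5, _⟩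
    · refine h5 ⟨_, hβN⟩ ?_ ⟨_, hγN⟩ (Ordinal.toZFSet_mem_toZFSet_iff.2 hγ) ?_ x y ?_ ?_
      · show FnD r.1 β.toZFSet
        rw [hr]
        exact hrs β hβ
      · show ZFSet.pair γ.toZFSet o.1 ∈ r.1
        rw [hr, ho]
        exact pair_mem_rs.2 ⟨Ordinal.toZFSet_mem_toZFSet_iff.2 hγ, h2⟩
      · show ZFSet.pair β.toZFSet x.1 ∈ F.1
        rw [hF]; exact h3
      · show ZFSet.pair γ.toZFSet y.1 ∈ F.1
        rw [hF]; exact h4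
    · exact absurd h5 hzo
  refine ⟨D, hD, hDA, ?_, ?_⟩
  · intro x y hx hy hxy
    obtain ⟨β, hβ, h1, h2⟩ := (hDm _).1 hx
    obtain ⟨γ, hγ, h3, h4⟩ := (hDm _).1 hy
    rcases lt_trichotomy β γ with h | h | h
    · exact hs _ _ (hpair γ hγ β h y x h3 h1 h4 h2)
    · exfalso
      rw [h] at h2
      exact hxy (Subtype.ext (huni h2 h4))
    · exact hpair β hβ γ h x y h1 h3 h2 h4
  · intro x hxA hxD
    obtain ⟨w, hw, hwx⟩ := hfO.2 x.1 hxA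
    obtain ⟨β, hβ, rfl⟩ := Ordinal.mem_toZFSet_iff.1 hw
    have hβN : β.toZFSet ∈ N := hN.mem_of_mem hμ (Ordinal.toZFSet_mem_toZFSet_iff.2 hβ)
    obtain ⟨y, hy⟩ := hG.tot β.toZFSet hw
    have hyN : y ∈ N := (hN.of_pair_mem (hN.mem_of_mem G.2 hy)).2
    obtain ⟨r, hr, h5⟩ := hΦ' β hβ ⟨y, hyN⟩ hy
    rcases h5 with ⟨h5, _⟩ | ⟨_, h5⟩
    · exfalso
      apply hxD
      rw [hDm]
      refine ⟨β, hβ, ?_, hwx⟩
      have h6 : y = o.1 := congrArg Subtype.val h5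
      rw [← ho, ← h6]
      exact hy
    · by_contra hcon
      push Not at hcon
      apply h5
      intro d hd b hb hbo x' y' hx' hy'
      rw [hr] at hd
      have hdβ : d.1 = β.toZFSet := hdom hd (hrs β hβ)
      rw [hdβ] at hb hx'
      obtain ⟨γ, hγ, hγb⟩ := Ordinal.mem_toZFSet_iff.1 hb
      have e1 : x' = x := by
        rw [hF] at hx'
        exact Subtype.ext (huni hx' hwx)
      rw [e1]
      refine hcon y' ?_
      rw [hDm]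
      refine ⟨γ, hγ.trans hβ, ?_, ?_⟩
      · rw [hr, ho] at hbo
        rw [hγb]
        exact (pair_mem_rs.1 hbo).2
      · rw [hγb, ← hF]
        exact hy'

/-- A maximal antichain of conditions with a definable property (`P` ordered by reverse inclusion). -/
theorem exists_maxac {P : ZFSet.{0}} (hP : P ∈ N) {B : N → Prop}
    (hB : hN.Dfn (fun v : Fin 1 → N => B (v 0))) :
    ∃ A ∈ N, A ⊆ P ∧ (∀ x : N, x.1 ∈ A → B x) ∧
      (∀ a ∈ A, ∀ b ∈ A, a ≠ b → ∀ q ∈ P, a ⊆ q → ¬ b ⊆ q) ∧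
      ∀ x : N, x.1 ∈ P → B x → ∃ a ∈ A, ∃ q ∈ P, a ⊆ q ∧ x.1 ⊆ q := by
  obtain ⟨Q, hQ, hQiff⟩ := hN.exists_sep hB hP
  have hE : hN.Dfn (fun v : Fin 2 → N => ∀ q : N, q.1 ∈ (⟨P, hP⟩ : N).1 → (v 0).1 ⊆ q.1 → ¬ (v 1).1 ⊆ q.1) := by
    (repeat' first
      | exact DT.var _ | exact DT.last | exact DT.const _ | assumption
      | refine Dfn.pairMem ?_ ?_ ?_ | refine Dfn.isPair ?_ ?_ ?_ | refine Dfn.mem ?_ ?_
      | refine Dfn.eqv ?_ ?_ | refine Dfn.eq ?_ ?_ | refine Dfn.subset ?_ ?_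
      | refine Dfn.isEmpty ?_ | refine Dfn.isTrans ?_ | refine Dfn.isOrd ?_ | refine Dfn.isNat ?_
      | refine Dfn.isUpair ?_ ?_ ?_ | refine Dfn.isInsert ?_ ?_ ?_
      | refine Dfn.and ?_ ?_ | refine Dfn.or ?_ ?_ | refine Dfn.iff ?_ ?_ | refine Dfn.not ?_
      | refine Dfn.imp ?_ ?_ | refine Dfn.all ?_ | refine Dfn.ex ?_ | exact Dfn.false'
      | refine Dfn.ballZ ?_ ?_ | refine Dfn.bexZ ?_ ?_ | exact Dfn.const _)
  obtain ⟨D, hD, hDQ, h1, h2⟩ := exists_max hN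
    (E := fun x y => ∀ q : N, q.1 ∈ (⟨P, hP⟩ : N).1 → x.1 ⊆ q.1 → ¬ y.1 ⊆ q.1) hE
    (fun x y h q hq hy hx => h q hq hx hy) hQ
  refine ⟨D, hD, fun x hx => ((hQiff x).1 (hDQ hx)).1, ?_, ?_, ?_⟩
  · intro x hx
    obtain ⟨_, _, h3⟩ := (hQiff x.1).1 (hDQ hx)
    exact h3
  · intro a ha b hb hab q hq haq hbq
    have haN := hN.mem_of_mem hD ha
    have hbN := hN.mem_of_mem hD hb
    exact h1 ⟨a, haN⟩ ⟨b, hbN⟩ ha hb (fun h => hab (congrArg Subtype.val h)) ⟨q, hN.mem_of_mem hP hq⟩ hq haq hbq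
  · intro x hx hBx
    by_cases hxD : x.1 ∈ D
    · exact ⟨x.1, hxD, x.1, hx, fun w hw => hw, fun w hw => hw⟩
    · obtain ⟨y, hy, h3⟩ := h2 x ((hQiff x.1).2 ⟨hx, x.2, hBx⟩) hxD
      push Not at h3
      obtain ⟨q, hq, h4, h5⟩ := h3
      exact ⟨y.1, hy, q.1, hq, h5, h4⟩

end Pool.Agent.H7.IG
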