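import Pool.Agent.H7.IG.Tk5
import Pool.Agent.H7.IG.Tk3

/-!
# IG toolkit 7: Delta-systems

`A ∈ N` uncountable in `N`, `d ∈ N` a function on `A` with finite values. There is an uncountable `B ⊆ A`, `B ∈ N`,
and a finite `r` with `d(a) ∩ d(b) = r` for different `a, b ∈ B`.
Proof: by `ctb_fibre` all values have `n` elements (`n` fixed) on an uncountable subset. Let `r` be a finite set of
maximal size (`≤ n`) such that `U = {a ∈ A : r ⊆ d(a)}` is uncountable (`∅` is a candidate). For `x ∉ r` the set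
`{a ∈ U : x ∈ d(a)}` is countable. Let `B ⊆ U` be maximal with `d(a) ∩ d(b) = r` for different `a, b`
(`exists_max`). If `B` were countable then `⋃_{a ∈ B} d(a) ∖ r` is countable, and so is the set of the `b ∈ U` that meet
it (`ctb_union`); a further `b ∈ U` contradicts maximality.
-/

set_option autoImplicit false
set_option linter.unusedVariables false
set_option linter.unusedSectionVars false
set_option linter.unusedSimpArgs false
set_option linter.unusedTactic false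
set_option linter.unreachableTactic false

namespace Pool.Agent.H7.IG

open Pool.Agent.H17.Omega Pool.Agent.H17.Omega.CTM Pool.Agent.H52.GX Pool.Agent.H52.GC

variable {N : Set ZFSet.{0}} (hN : CTM N)

include hN

/-- Finite elements of the model are countable in the model. -/
theorem tk7_fin_ctb {a : ZFSet.{0}} (ha : a ∈ N) (h : FinZ a) : Ctb N a := by
  classical
  obtain ⟨s, hs⟩ := h
  let l := s.toList
  let gg : ℕ → ZFSet.{0} := fun n => l.getD n ∅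
  have hgM : ∀ n, gg n ∈ N := by
    intro n
    by_cases hn : n < l.length
    · have : gg n = l[n] := List.getD_eq_getElem _ _ hn
      rw [this]
      have h1 : l[n] ∈ s := by rw [← Finset.mem_toList]; exact List.getElem_mem hn
      exact hN.mem_of_mem ha ((hs _).2 h1)
    · have : gg n = ∅ := List.getD_eq_default _ _ (not_lt.1 hn)
      rw [this]; exact hN.empty_mem
  obtain ⟨e, he, he'⟩ := hN.finite_seq_mem (g := gg) hgM l.length
  refine Ctb.image hN (ctb_om hN) hN.omZ_mem (F := fun x y => ZFSet.pair x.1 y.1 ∈ (⟨e, he⟩ : N).1) (by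
    (repeat' first
        | exact DT.var _ | exact DT.last | exact DT.const _ | assumption
        | refine Dfn.pairMem ?_ ?_ ?_ | refine Dfn.isPair ?_ ?_ ?_ | refine Dfn.mem ?_ ?_
        | refine Dfn.eqv ?_ ?_ | refine Dfn.eq ?_ ?_ | refine Dfn.subset ?_ ?_
        | refine Dfn.isEmpty ?_ | refine Dfn.isTrans ?_ | refine Dfn.isOrd ?_
        | refine Dfn.isNat ?_ | refine Dfn.and ?_ ?_ | refine Dfn.or ?_ ?_ | refine Dfn.iff ?_ ?_
        | refine Dfn.not ?_ | refine Dfn.imp ?_ ?_ | refine Dfn.all ?_ | refine Dfn.ex ?_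
        | exact Dfn.false')) ?_ ?_
  · intro x _ y y' h1 h2
    obtain ⟨i, hi, h3⟩ := (he' _).1 h1
    obtain ⟨j, hj, h4⟩ := (he' _).1 h2
    rw [ZFSet.pair_inj] at h3 h4
    have : i = j := by rw [← natZ_inj.{0}, ← h3.1, ← h4.1]
    subst this
    exact Subtype.ext (h3.2.trans h4.2.symm)
  · intro y hy
    have h1 : y ∈ l := by rw [Finset.mem_toList]; exact (hs _).1 hy
    obtain ⟨i, hi, hiy⟩ := List.getElem_of_mem h1
    refine ⟨nz hN i, ⟨y, hN.mem_of_mem ha hy⟩, natZ_mem_omZ i, rfl, (he' _).2 ⟨i, hi, ?_⟩⟩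
    have : gg i = l[i] := List.getD_eq_getElem _ _ hi
    rw [this, hiy]; rfl

/-- The restriction of a definable relation to a product. -/
theorem tk7_rel {F : N → N → Prop} (hF : hN.Dfn (fun v : Fin 2 → N => F (v 0) (v 1))) {A B : ZFSet.{0}}
    (hA : A ∈ N) (hB : B ∈ N) :
    ∃ r ∈ N, ∀ x y : N, ZFSet.pair x.1 y.1 ∈ r ↔ x.1 ∈ A ∧ y.1 ∈ B ∧ F x y := by
  obtain ⟨r, hr, hr'⟩ := hN.exists_sep (P := fun z => ∃ x y : N, z.1 = ZFSet.pair x.1 y.1 ∧ F x y) (by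
    (repeat' first
        | exact DT.var _ | exact DT.last | exact DT.const _ | assumption
        | refine Dfn.pairMem ?_ ?_ ?_ | refine Dfn.isPair ?_ ?_ ?_ | refine Dfn.mem ?_ ?_
        | refine Dfn.eqv ?_ ?_ | refine Dfn.eq ?_ ?_ | refine Dfn.subset ?_ ?_
        | refine Dfn.isEmpty ?_ | refine Dfn.isTrans ?_ | refine Dfn.isOrd ?_
        | refine Dfn.isNat ?_ | refine Dfn.and ?_ ?_ | refine Dfn.or ?_ ?_ | refine Dfn.iff ?_ ?_
        | refine Dfn.not ?_ | refine Dfn.imp ?_ ?_ | refine Dfn.all ?_ | refine Dfn.ex ?_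
        | exact Dfn.false')
    all_goals exact Dfn.subst2 hF (DT.var _) (DT.var _)) (hN.prod_mem hA hB)
  refine ⟨r, hr, fun x y => ?_⟩
  rw [hr', ZFSet.pair_mem_prod]
  constructor
  · rintro ⟨⟨h1, h2⟩, _, x', y', h3, h4⟩
    have h3 : ZFSet.pair x.1 y.1 = ZFSet.pair x'.1 y'.1 := h3
    rw [ZFSet.pair_inj] at h3
    have e1 : x = x' := Subtype.ext h3.1
    have e2 : y = y' := Subtype.ext h3.2
    rw [e1, e2]
    exact ⟨e1 ▸ h1, e2 ▸ h2, h4⟩
  · rintro ⟨h1, h2, h3⟩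
    exact ⟨⟨h1, h2⟩, hN.pair_mem x.2 y.2, x, y, rfl, h3⟩

/-- Countable unions, with a definable relation. -/
theorem tk7_union {F : N → N → Prop} (hF : hN.Dfn (fun v : Fin 2 → N => F (v 0) (v 1))) {I X : ZFSet.{0}}
    (hI : I ∈ N) (hX : X ∈ N) (hc : Ctb N I)
    (h : ∀ i : N, i.1 ∈ I → ∃ Y ∈ N, Ctb N Y ∧ ∀ x : N, x.1 ∈ X → F i x → x.1 ∈ Y)
    (hcov : ∀ x : N, x.1 ∈ X → ∃ i : N, i.1 ∈ I ∧ F i x) : Ctb N X := by
  obtain ⟨r, hr, hr'⟩ := tk7_rel hN hF hI hX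
  refine ctb_union hN hI hr hX hc ?_ ?_
  · intro i hi
    obtain ⟨Y, hY, hYc, hY'⟩ := h ⟨i, hN.mem_of_mem hI hi⟩ hi
    refine ⟨Y, hY, hYc, fun x hx hix => ?_⟩
    exact hY' ⟨x, hN.mem_of_mem hX hx⟩ hx
      ((hr' ⟨i, hN.mem_of_mem hI hi⟩ ⟨x, hN.mem_of_mem hX hx⟩).1 hix).2.2
  · intro x hx
    obtain ⟨i, hi, hix⟩ := hcov ⟨x, hN.mem_of_mem hX hx⟩ hx
    exact ⟨i.1, hi, (hr' i ⟨x, hN.mem_of_mem hX hx⟩).2 ⟨hi, hx, hix⟩⟩

/-- The union of two countable sets. -/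
theorem tk7_union2 {X Y : ZFSet.{0}} (hX : X ∈ N) (hY : Y ∈ N) (hXc : Ctb N X) (hYc : Ctb N Y) :
    Ctb N (X ∪ Y) := by
  classical
  refine tk7_union hN (F := fun i x => x.1 ∈ i.1) (by
    (repeat' first
        | exact DT.var _ | exact DT.last | exact DT.const _ | assumption
        | refine Dfn.pairMem ?_ ?_ ?_ | refine Dfn.isPair ?_ ?_ ?_ | refine Dfn.mem ?_ ?_
        | refine Dfn.eqv ?_ ?_ | refine Dfn.eq ?_ ?_ | refine Dfn.subset ?_ ?_
        | refine Dfn.isEmpty ?_ | refine Dfn.isTrans ?_ | refine Dfn.isOrd ?_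
        | refine Dfn.isNat ?_ | refine Dfn.and ?_ ?_ | refine Dfn.or ?_ ?_ | refine Dfn.iff ?_ ?_
        | refine Dfn.not ?_ | refine Dfn.imp ?_ ?_ | refine Dfn.all ?_ | refine Dfn.ex ?_
        | exact Dfn.false')) (I := {X, Y}) (hN.upair_mem hX hY)
    (hN.union_mem hX hY) (tk7_fin_ctb hN (hN.upair_mem hX hY) ⟨{X, Y}, fun z => by simp⟩) ?_ ?_
  · intro i hi
    rw [ZFSet.mem_pair] at hi
    refine ⟨i.1, i.2, ?_, fun x _ hx => hx⟩
    rcases hi with hi | hi <;> rw [hi] <;> assumption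
  · intro x hx
    rw [ZFSet.mem_union] at hx
    rcases hx with hx | hx
    · exact ⟨⟨X, hX⟩, by simp, hx⟩
    · exact ⟨⟨Y, hY⟩, by simp, hx⟩

/-- The empty set is countable. -/
theorem tk7_ne {X : ZFSet.{0}} (h : ¬ Ctb N X) : ∃ x, x ∈ X := by
  by_contra hcon
  push Not at hcon
  exact h ((ctb_om hN).mono fun x hx => (hcon x hx).elim)

theorem delta_system {A C d : ZFSet.{0}} (hA : A ∈ N) (hC : C ∈ N) (hd : d ∈ N) (hfn : Fn d A C)
    (hfin : ∀ c ∈ C, FinZ c) (hunc : ¬ Ctb N A) :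
    ∃ B ∈ N, B ⊆ A ∧ ¬ Ctb N B ∧ ∃ r, FinZ r ∧ ∀ a ∈ B, ∀ b ∈ B, a ≠ b → ap d a ∩ ap d b = r := by
  classical
  have hAN : ∀ a ∈ A, a ∈ N := fun a ha => hN.mem_of_mem hA ha
  have hap : ∀ a ∈ A, ap d a ∈ N := fun a ha => hN.mem_of_mem hC (hfn.ap_mem ha).1
  have hpe : ∀ a ∈ A, ∀ y, ZFSet.pair a y ∈ d ↔ y = ap d a := by
    intro a ha y
    constructor
    · intro h; exact (hfn.ap_eq h).symm
    · rintro rfl; exact (hfn.ap_mem ha).2
  -- step 1: a bound for the sizes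
  let F1 : N → N → Prop := fun n a => ∃ y e : N, ZFSet.pair a.1 y.1 ∈ (⟨d, hd⟩ : N).1 ∧
    (∀ k z z' : N, ZFSet.pair k.1 z.1 ∈ e.1 → ZFSet.pair k.1 z'.1 ∈ e.1 → z = z') ∧
    ∀ z : N, z.1 ∈ y.1 → ∃ k : N, k.1 ∈ n.1 ∧ ZFSet.pair k.1 z.1 ∈ e.1
  have hF1 : hN.Dfn (fun v : Fin 2 → N => F1 (v 0) (v 1)) := by
    (repeat' first
        | exact DT.var _ | exact DT.last | exact DT.const _ | assumption
        | refine Dfn.pairMem ?_ ?_ ?_ | refine Dfn.isPair ?_ ?_ ?_ | refine Dfn.mem ?_ ?_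
        | refine Dfn.eqv ?_ ?_ | refine Dfn.eq ?_ ?_ | refine Dfn.subset ?_ ?_
        | refine Dfn.isEmpty ?_ | refine Dfn.isTrans ?_ | refine Dfn.isOrd ?_
        | refine Dfn.isNat ?_ | refine Dfn.and ?_ ?_ | refine Dfn.or ?_ ?_ | refine Dfn.iff ?_ ?_
        | refine Dfn.not ?_ | refine Dfn.imp ?_ ?_ | refine Dfn.all ?_ | refine Dfn.ex ?_
        | exact Dfn.false')
  have hF1c : ∀ n : ℕ, ∀ a : N, a.1 ∈ A → F1 (nz hN n) a → ∀ t : Finset ZFSet.{0}, (∀ z ∈ t, z ∈ ap d a.1) →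
      t.card ≤ n := by
    rintro n a ha ⟨y, e, h1, h2, h3⟩ t ht
    have hy : y.1 = ap d a.1 := (hpe _ ha _).1 h1
    have hex : ∀ z : ZFSet.{0}, ∃ k : ℕ, z ∈ t → k < n ∧ ZFSet.pair (natZ k) z ∈ e.1 := by
      intro z
      by_cases hz : z ∈ t
      · have hz1 : z ∈ y.1 := by rw [hy]; exact ht z hz
        obtain ⟨k, hk, hk'⟩ := h3 ⟨z, hN.mem_of_mem y.2 hz1⟩ hz1
        obtain ⟨i, hi, hki⟩ := mem_natZ.1 hk
        exact ⟨i, fun _ => ⟨hi, by rw [← hki]; exact hk'⟩⟩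
      · exact ⟨0, fun h => (hz h).elim⟩
    choose κ hκ using hex
    have h4 : t.card ≤ (Finset.range n).card := by
      refine Finset.card_le_card_of_injOn κ (fun z hz => ?_) (fun z hz z' hz' hzz => ?_)
      · rw [Finset.mem_coe] at hz ⊢
        exact Finset.mem_range.2 (hκ z hz).1
      · rw [Finset.mem_coe] at hz hz'
        have h5 := (hκ z hz).2
        have h6 := (hκ z' hz').2
        rw [hzz] at h5
        have hzN := (hN.of_pair_mem (hN.mem_of_mem e.2 h5)).2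
        have hzN' := (hN.of_pair_mem (hN.mem_of_mem e.2 h6)).2
        exact congrArg Subtype.val (h2 (nz hN (κ z')) ⟨z, hzN⟩ ⟨z', hzN'⟩ h5 h6)
    rwa [Finset.card_range] at h4
  have hF1e : ∀ a : N, a.1 ∈ A → ∃ n : ℕ, F1 (nz hN n) a := by
    intro a ha
    obtain ⟨s, hs⟩ := hfin _ (hfn.ap_mem ha).1
    let l := s.toList
    let gg : ℕ → ZFSet.{0} := fun n => l.getD n ∅
    have hgM : ∀ n, gg n ∈ N := by
      intro n
      by_cases hn : n < l.length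
      · have : gg n = l[n] := List.getD_eq_getElem _ _ hn
        rw [this]
        have h1 : l[n] ∈ s := by rw [← Finset.mem_toList]; exact List.getElem_mem hn
        exact hN.mem_of_mem (hap _ ha) ((hs _).2 h1)
      · have : gg n = ∅ := List.getD_eq_default _ _ (not_lt.1 hn)
        rw [this]; exact hN.empty_mem
    obtain ⟨e, he, he'⟩ := hN.finite_seq_mem (g := gg) hgM l.length
    refine ⟨l.length, ⟨ap d a.1, hap _ ha⟩, ⟨e, he⟩, (hfn.ap_mem ha).2, ?_, ?_⟩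
    · intro k y y' h1 h2
      obtain ⟨i, hi, h3⟩ := (he' _).1 h1
      obtain ⟨j, hj, h4⟩ := (he' _).1 h2
      rw [ZFSet.pair_inj] at h3 h4
      have : i = j := by rw [← natZ_inj.{0}, ← h3.1, ← h4.1]
      subst this
      exact Subtype.ext (h3.2.trans h4.2.symm)
    · intro x hx
      have h1 : x.1 ∈ l := by rw [Finset.mem_toList]; exact (hs _).1 hx
      obtain ⟨i, hi, hix⟩ := List.getElem_of_mem h1
      refine ⟨nz hN i, natZ_mem.2 hi, (he' _).2 ⟨i, hi, ?_⟩⟩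
      have : gg i = l[i] := List.getD_eq_getElem _ _ hi
      rw [this, hix]; rfl
  have hstep1 : ∃ n : ℕ, ∃ A' ∈ N, A' ⊆ A ∧ ¬ Ctb N A' ∧ ∀ a ∈ A', ∀ t : Finset ZFSet.{0},
      (∀ z ∈ t, z ∈ ap d a) → t.card ≤ n := by
    by_contra hcon
    push Not at hcon
    refine hunc (tk7_union hN hF1 hN.omZ_mem hA (ctb_om hN) ?_ ?_)
    · intro i hi
      obtain ⟨n, hn⟩ := mem_omZ.1 hi
      obtain ⟨Y, hY, hY'⟩ := hN.exists_sep (P := fun x => F1 i x) (by
        exact Dfn.subst2 hF1 (DT.const i) (DT.var _)) hA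
      refine ⟨Y, hY, ?_, fun x hx hx' => (hY' _).2 ⟨hx, x.2, hx'⟩⟩
      by_contra hYc
      have hi' : i = nz hN n := Subtype.ext hn
      obtain ⟨a, ha, t, ht, ht'⟩ := hcon n Y hY (fun z hz => ((hY' z).1 hz).1) hYc
      obtain ⟨h1, h2, h3⟩ := (hY' a).1 ha
      rw [hi'] at h3
      exact absurd (hF1c n ⟨a, h2⟩ h1 h3 t ht) (not_le.2 ht')
    · intro x hx
      obtain ⟨n, hn⟩ := hF1e x hx
      exact ⟨nz hN n, natZ_mem_omZ n, hn⟩
  obtain ⟨n, A', hA', hA'A, hA'c, hbound⟩ := hstep1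
  -- step 2: a maximal kernel
  let Pt : Finset ZFSet.{0} → Prop := fun t => ¬ Ctb N (ZFSet.sep (fun a => ∀ z ∈ t, z ∈ ap d a) A')
  have hP0 : Pt ∅ := by
    intro h
    exact hA'c (h.mono fun a ha => ZFSet.mem_sep.2 ⟨ha, fun z hz => (Finset.notMem_empty z hz).elim⟩)
  have hPb : ∀ t, Pt t → t.card ≤ n := by
    intro t ht
    obtain ⟨a, ha⟩ := tk7_ne hN ht
    rw [ZFSet.mem_sep] at ha
    exact hbound a ha.1 t ha.2
  have hmaxt : ∃ t, Pt t ∧ ∀ t', Pt t' → t'.card ≤ t.card := by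
    have h1 : {m : ℕ | ∃ t, Pt t ∧ t.card = m}.Nonempty := ⟨_, ∅, hP0, rfl⟩
    have h2 : BddAbove {m : ℕ | ∃ t, Pt t ∧ t.card = m} := ⟨n, by rintro _ ⟨t, ht, rfl⟩; exact hPb t ht⟩
    obtain ⟨t, ht, ht'⟩ := Nat.sSup_mem h1 h2
    refine ⟨t, ht, fun t' ht1 => ?_⟩
    rw [ht']
    exact le_csSup h2 ⟨t', ht1, rfl⟩
  obtain ⟨t, ht, hmax⟩ := hmaxt
  obtain ⟨a0, ha0⟩ := tk7_ne hN ht
  rw [ZFSet.mem_sep] at ha0
  obtain ⟨r, hr⟩ : ∃ r : ZFSet.{0}, ∀ z, z ∈ r ↔ z ∈ t := by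
    refine ⟨ZFSet.sep (fun z => z ∈ t) (ap d a0), fun z => ?_⟩
    rw [ZFSet.mem_sep]
    exact ⟨fun h => h.2, fun h => ⟨ha0.2 z h, h⟩⟩
  have hrf : FinZ r := ⟨t, hr⟩
  have hrN : r ∈ N := FinZ.mem (X := r) hN hrf fun z hz =>
    hN.mem_of_mem (hap _ (hA'A ha0.1)) (ha0.2 z ((hr z).1 hz))
  obtain ⟨U, hU, hU'⟩ := hN.exists_sep (P := fun a => ∀ y : N, ZFSet.pair a.1 y.1 ∈ (⟨d, hd⟩ : N).1 →
    ∀ z : N, z.1 ∈ (⟨r, hrN⟩ : N).1 → z.1 ∈ y.1) (by
    (repeat' first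
        | exact DT.var _ | exact DT.last | exact DT.const _ | assumption
        | refine Dfn.pairMem ?_ ?_ ?_ | refine Dfn.isPair ?_ ?_ ?_ | refine Dfn.mem ?_ ?_
        | refine Dfn.eqv ?_ ?_ | refine Dfn.eq ?_ ?_ | refine Dfn.subset ?_ ?_
        | refine Dfn.isEmpty ?_ | refine Dfn.isTrans ?_ | refine Dfn.isOrd ?_
        | refine Dfn.isNat ?_ | refine Dfn.and ?_ ?_ | refine Dfn.or ?_ ?_ | refine Dfn.iff ?_ ?_
        | refine Dfn.not ?_ | refine Dfn.imp ?_ ?_ | refine Dfn.all ?_ | refine Dfn.ex ?_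
        | exact Dfn.false')) hA'
  have hUm : ∀ a, a ∈ U ↔ a ∈ A' ∧ ∀ z ∈ t, z ∈ ap d a := by
    intro a
    rw [hU']
    constructor
    · rintro ⟨h1, h2, h3⟩
      refine ⟨h1, fun z hz => ?_⟩
      have hzr := (hr z).2 hz
      exact h3 ⟨_, hap a (hA'A h1)⟩ (hfn.ap_mem (hA'A h1)).2 ⟨z, hN.mem_of_mem hrN hzr⟩ hzr
    · rintro ⟨h1, h2⟩
      refine ⟨h1, hAN a (hA'A h1), fun y hy z hz => ?_⟩
      have hy' : y.1 = ap d a := (hpe a (hA'A h1) _).1 hy
      rw [hy']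
      exact h2 _ ((hr _).1 hz)
  have hUA : ∀ a ∈ U, a ∈ A := fun a ha => hA'A ((hUm a).1 ha).1
  have hUc : ¬ Ctb N U := by
    intro h
    refine ht (h.mono fun a ha => ?_)
    rw [ZFSet.mem_sep] at ha
    exact (hUm a).2 ha
  -- step 3: points outside of the kernel have countable fibres
  let F2 : N → N → Prop := fun z a => ¬ z.1 ∈ (⟨r, hrN⟩ : N).1 ∧
    ∃ y : N, ZFSet.pair a.1 y.1 ∈ (⟨d, hd⟩ : N).1 ∧ z.1 ∈ y.1
  have hF2 : hN.Dfn (fun v : Fin 2 → N => F2 (v 0) (v 1)) := by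
    (repeat' first
        | exact DT.var _ | exact DT.last | exact DT.const _ | assumption
        | refine Dfn.pairMem ?_ ?_ ?_ | refine Dfn.isPair ?_ ?_ ?_ | refine Dfn.mem ?_ ?_
        | refine Dfn.eqv ?_ ?_ | refine Dfn.eq ?_ ?_ | refine Dfn.subset ?_ ?_
        | refine Dfn.isEmpty ?_ | refine Dfn.isTrans ?_ | refine Dfn.isOrd ?_
        | refine Dfn.isNat ?_ | refine Dfn.and ?_ ?_ | refine Dfn.or ?_ ?_ | refine Dfn.iff ?_ ?_
        | refine Dfn.not ?_ | refine Dfn.imp ?_ ?_ | refine Dfn.all ?_ | refine Dfn.ex ?_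
        | exact Dfn.false')
  have hstep3 : ∀ z : N, ∃ Y ∈ N, Ctb N Y ∧ ∀ x : N, x.1 ∈ U → F2 z x → x.1 ∈ Y := by
    intro z
    obtain ⟨Y, hY, hY'⟩ := hN.exists_sep (P := fun x => F2 z x) (by
      exact Dfn.subst2 hF2 (DT.const z) (DT.var _)) hU
    refine ⟨Y, hY, ?_, fun x hx hx' => (hY' _).2 ⟨hx, x.2, hx'⟩⟩
    by_cases hz : z.1 ∈ t
    · refine (ctb_om hN).mono fun x hx => ?_
      obtain ⟨_, _, h3, _⟩ := (hY' x).1 hx
      exact (h3 ((hr _).2 hz)).elim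
    · by_contra hYc
      have h1 : Pt (insert z.1 t) := by
        intro h
        refine hYc (h.mono fun x hx => ?_)
        obtain ⟨h2, h3, _, y, hy, hzy⟩ := (hY' x).1 hx
        have h4 := (hUm x).1 h2
        have hy' : y.1 = ap d x := (hpe x (hA'A h4.1) _).1 hy
        rw [ZFSet.mem_sep]
        refine ⟨h4.1, fun w hw => ?_⟩
        rcases Finset.mem_insert.1 hw with rfl | hw
        · rw [← hy']; exact hzy
        · exact h4.2 w hw
      have h2 := hmax _ h1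
      rw [Finset.card_insert_of_notMem hz] at h2
      omega
  -- step 4: a maximal family
  let E : N → N → Prop := fun a b => ∀ y y' : N, ZFSet.pair a.1 y.1 ∈ (⟨d, hd⟩ : N).1 →
    ZFSet.pair b.1 y'.1 ∈ (⟨d, hd⟩ : N).1 → ∀ z : N, (z.1 ∈ y.1 ∧ z.1 ∈ y'.1) ↔ z.1 ∈ (⟨r, hrN⟩ : N).1
  have hE : hN.Dfn (fun v : Fin 2 → N => E (v 0) (v 1)) := by
    (repeat' first
        | exact DT.var _ | exact DT.last | exact DT.const _ | assumption
        | refine Dfn.pairMem ?_ ?_ ?_ | refine Dfn.isPair ?_ ?_ ?_ | refine Dfn.mem ?_ ?_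
        | refine Dfn.eqv ?_ ?_ | refine Dfn.eq ?_ ?_ | refine Dfn.subset ?_ ?_
        | refine Dfn.isEmpty ?_ | refine Dfn.isTrans ?_ | refine Dfn.isOrd ?_
        | refine Dfn.isNat ?_ | refine Dfn.and ?_ ?_ | refine Dfn.or ?_ ?_ | refine Dfn.iff ?_ ?_
        | refine Dfn.not ?_ | refine Dfn.imp ?_ ?_ | refine Dfn.all ?_ | refine Dfn.ex ?_
        | exact Dfn.false')
  have hEs : ∀ x y, E x y → E y x := fun x y h y1 y2 h1 h2 z => (and_comm).trans (h y2 y1 h2 h1 z)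
  obtain ⟨B, hB, hBU, hBp, hBm⟩ := exists_max hN hE hEs hU
  refine ⟨B, hB, fun a ha => hUA a (hBU ha), ?_, r, hrf, ?_⟩
  · intro hBc
    apply hUc
    refine tk7_union hN (F := fun y b => b = y ∨ ¬ E b y) (by
      (refine Dfn.or (Dfn.eq (DT.var _) (DT.var _)) (Dfn.not ?_))
      exact Dfn.subst2 hE (DT.var _) (DT.var _)) hB hU hBc ?_ ?_
    · intro y hy
      have hyA := hUA _ (hBU hy)
      obtain ⟨W, hW, hW'⟩ := hN.exists_sep (P := fun b => ¬ E b y) (by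
        (refine Dfn.not ?_)
        exact Dfn.subst2 hE (DT.var _) (DT.const y)) hU
      have hWc : Ctb N W := by
        refine tk7_union hN hF2 (hap _ hyA) hW (tk7_fin_ctb hN (hap _ hyA) (hfin _ (hfn.ap_mem hyA).1)) ?_ ?_
        · intro z _
          obtain ⟨Y, hY, hYc, hY'⟩ := hstep3 z
          exact ⟨Y, hY, hYc, fun x hx hx' => hY' x ((hW' _).1 hx).1 hx'⟩
        · intro b hb
          obtain ⟨h1, h2, h3⟩ := (hW' b.1).1 hb
          have h3 : ¬ E b y := h3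
          have hbU := (hUm _).1 h1
          have hyU := (hUm _).1 (hBU hy)
          have h5 : ∃ z : N, z.1 ∈ ap d b.1 ∧ z.1 ∈ ap d y.1 ∧ ¬ z.1 ∈ r := by
            by_contra hcon
            push Not at hcon
            apply h3
            intro y1 y2 h6 h7 z
            have h6 : y1.1 = ap d b.1 := (hpe _ (hUA _ h1) _).1 h6
            have h7 : y2.1 = ap d y.1 := (hpe _ hyA _).1 h7
            rw [h6, h7]
            constructor
            · rintro ⟨h8, h9⟩; exact hcon z h8 h9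
            · intro h8
              have h9 := (hr _).1 h8
              exact ⟨hbU.2 _ h9, hyU.2 _ h9⟩
          obtain ⟨z, h6, h7, h8⟩ := h5
          exact ⟨z, h7, h8, ⟨_, hap _ (hUA _ h1)⟩, (hfn.ap_mem (hUA _ h1)).2, h6⟩
      have hs : ({y.1} : ZFSet.{0}) ∈ N := hN.singleton_mem y.2
      refine ⟨W ∪ {y.1}, hN.union_mem hW hs, tk7_union2 hN hW hs hWc
        (tk7_fin_ctb hN hs ⟨{y.1}, fun z => by simp⟩), ?_⟩
      rintro x hx (rfl | h1)
      · rw [ZFSet.mem_union]; right; simp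
      · rw [ZFSet.mem_union]; left; exact (hW' _).2 ⟨hx, x.2, h1⟩
    · intro x hx
      by_cases hxB : x.1 ∈ B
      · exact ⟨x, hxB, Or.inl rfl⟩
      · obtain ⟨y, hy, hy'⟩ := hBm x hx hxB
        exact ⟨y, hy, Or.inr hy'⟩
  · intro a ha b hb hab
    have haA := hUA a (hBU ha)
    have hbA := hUA b (hBU hb)
    have h1 : E ⟨a, hAN a haA⟩ ⟨b, hAN b hbA⟩ := hBp _ _ ha hb (fun h => hab (congrArg Subtype.val h))
    ext z
    rw [ZFSet.mem_inter]
    have h2 : z ∈ N → ((z ∈ ap d a ∧ z ∈ ap d b) ↔ z ∈ r) := fun hz =>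
      h1 ⟨_, hap a haA⟩ ⟨_, hap b hbA⟩ (hfn.ap_mem haA).2 (hfn.ap_mem hbA).2 ⟨z, hz⟩
    constructor
    · intro h3; exact (h2 (hN.mem_of_mem (hap a haA) h3.1)).1 h3
    · intro h3; exact (h2 (hN.mem_of_mem hrN h3)).2 h3

end Pool.Agent.H7.IG
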