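import Pool.Agent.H7.IG.Tk4

/-!
# IG toolkit 8: Hartogs numbers, levels, transfer of countability
-/

set_option autoImplicit false
set_option linter.unusedVariables false
set_option linter.unusedSectionVars false
set_option linter.unusedSimpArgs false
set_option linter.unusedTactic false
set_option linter.unreachableTactic false

namespace Pool.Agent.H7.IG

open Pool.Agent.H17.Omega Pool.Agent.H17.Omega.CTM Pool.Agent.H52.GX Pool.Agent.H52.GC

/-- The Hartogs number: an ordinal of `N` that is not covered by `X`. (If not, every ordinal of `N` is the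
order type of a well-ordering, in `N`, of a subset of `X`; replacement gives the set of all ordinals of `N`.) -/
theorem exists_hartogs {N : Set ZFSet.{0}} (hN : CTM N) {X : ZFSet.{0}} (hX : X ∈ N) :
    ∃ μ : Ordinal.{0}, μ.toZFSet ∈ N ∧ ¬ Cvr N X μ.toZFSet ∧ ∀ α < μ, Cvr N X α.toZFSet := by
  obtain ⟨P, hP, hP'⟩ := hN.exists_pow hX
  obtain ⟨μ₀, hμ₀, f, hf, ⟨hfn, honto⟩, _⟩ := exists_enum hN hP
  have hcP : Cvr N μ₀.toZFSet P := by
    refine ⟨f, hf, ?_, honto⟩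
    intro y _ x x' h1 h2
    exact (hfn.ap_eq h1).symm.trans (hfn.ap_eq h2)
  have hnot : ¬ Cvr N X μ₀.toZFSet := by
    intro hc
    obtain ⟨g, hg, hg1, hg2⟩ := Cvr.trans hN hX hμ₀ hP hc hcP
    obtain ⟨D, hD, hD'⟩ := hN.exists_sep
      (P := fun y => ∀ x : N, ZFSet.pair y.1 x.1 ∈ (⟨g, hg⟩ : N).1 → ¬ y.1 ∈ x.1) (by
        (repeat' first
            | exact DT.var _ | exact DT.last | exact DT.const _ | assumption
            | refine Dfn.pairMem ?_ ?_ ?_ | refine Dfn.isPair ?_ ?_ ?_ | refine Dfn.mem ?_ ?_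
            | refine Dfn.eqv ?_ ?_ | refine Dfn.eq ?_ ?_ | refine Dfn.subset ?_ ?_
            | refine Dfn.isEmpty ?_ | refine Dfn.isTrans ?_ | refine Dfn.isOrd ?_ | refine Dfn.isNat ?_
            | refine Dfn.isUpair ?_ ?_ ?_ | refine Dfn.isInsert ?_ ?_ ?_
            | refine Dfn.and ?_ ?_ | refine Dfn.or ?_ ?_ | refine Dfn.iff ?_ ?_ | refine Dfn.not ?_
            | refine Dfn.imp ?_ ?_ | refine Dfn.all ?_ | refine Dfn.ex ?_ | exact Dfn.false'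
            | refine Dfn.ballZ ?_ ?_ | refine Dfn.bexZ ?_ ?_ | exact Dfn.const _)) hX
    have hDP : D ∈ P := (hP' D).2 ⟨hD, fun z hz => ((hD' z).1 hz).1⟩
    obtain ⟨y, hy, hyD⟩ := hg2 D hDP
    have hyN : y ∈ N := hN.mem_of_mem hX hy
    have hno : y ∉ D := by
      intro h
      obtain ⟨_, _, h2⟩ := (hD' y).1 h
      exact h2 ⟨D, hD⟩ hyD h
    apply hno
    refine (hD' y).2 ⟨hy, hyN, ?_⟩
    intro x hx
    have hx' : x.1 = D := hg1 y hy x.1 D hx hyD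
    rw [hx']
    exact hno
  classical
  have hex : ∃ μ : Ordinal.{0}, μ.toZFSet ∈ N ∧ ¬ Cvr N X μ.toZFSet := ⟨μ₀, hμ₀, hnot⟩
  obtain ⟨μ, ⟨h1, h2⟩, hmin⟩ := (wellFounded_lt (α := Ordinal.{0})).has_min
    {μ : Ordinal.{0} | μ.toZFSet ∈ N ∧ ¬ Cvr N X μ.toZFSet} hex
  refine ⟨μ, h1, h2, ?_⟩
  intro α hα
  by_contra hc
  exact hmin α ⟨hN.toZFSet_mem_of_le hα.le h1, hc⟩ hα

/-- `V_α` of `N` is a set of `N` (`exists_level`). -/
theorem exists_Lv {N : Set ZFSet.{0}} (hN : CTM N) {α : Ordinal.{0}} (hα : α.toZFSet ∈ N) :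
    ∃ K ∈ N, ∀ x, x ∈ K ↔ x ∈ Lv N α := by
  obtain ⟨w, hw, hw'⟩ := hN.exists_level α hα
  exact ⟨w, hw, fun x => hw' x⟩

/-- Finite sets of elements of a limit level. -/
theorem finZ_mem_Lv {N : Set ZFSet.{0}} (hN : CTM N) {α : Ordinal.{0}} (hα : ∀ γ < α, Order.succ γ < α)
    (h0 : 0 < α) {a : ZFSet.{0}} (ha : FinZ a) (h : ∀ x ∈ a, x ∈ Lv N α) : a ∈ Lv N α := by
  refine ⟨FinZ.mem hN (X := a) ha (fun z hz => (h z hz).1), ?_⟩
  obtain ⟨s, hs⟩ := ha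
  have h1 : a.rank ≤ s.sup (fun x => Order.succ x.rank) := by
    rw [ZFSet.rank_le_iff]
    intro y hy
    exact lt_of_lt_of_le (Order.lt_succ y.rank)
      (Finset.le_sup (f := fun x : ZFSet.{0} => Order.succ x.rank) ((hs y).1 hy))
  refine lt_of_le_of_lt h1 ?_
  rw [Finset.sup_lt_iff (by simpa using h0)]
  intro y hy
  exact hα _ (h y ((hs y).2 hy)).2

theorem ctb_up {N N' : Set ZFSet.{0}} (h : N ⊆ N') {X : ZFSet.{0}} (hX : Ctb N X) : Ctb N' X := by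
  obtain ⟨f, hf, hf'⟩ := hX
  exact ⟨f, h hf, hf'⟩

theorem Cov.refl {N : Set ZFSet.{0}} : Cov N N :=
  fun _ _ x hx hxY hc => ⟨x, hx, hxY, fun z hz => hz, hc⟩

theorem Cov.trans {N N' N'' : Set ZFSet.{0}} (h : N ⊆ N') (h' : N' ⊆ N'') (h1 : Cov N N') (h2 : Cov N' N'') :
    Cov N N'' := by
  intro Y hY x hx hxY hc
  obtain ⟨y', hy', h3, h4, h5⟩ := h2 Y (h hY) x hx hxY hc
  obtain ⟨y, hy, h6, h7, h8⟩ := h1 Y hY y' hy' h3 h5
  exact ⟨y, hy, h6, fun z hz => h7 (h4 hz), h8⟩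

/-- Sets of `N` that are countable in `N'` are countable in `N`. -/
theorem Cov.ctb {N N' : Set ZFSet.{0}} (h : N ⊆ N') (h1 : Cov N N') {X : ZFSet.{0}} (hX : X ∈ N)
    (hc : Ctb N' X) : Ctb N X := by
  obtain ⟨y, hy, _, h3, h4⟩ := h1 X hX X (h hX) (fun z hz => hz) hc
  exact h4.mono h3

theorem Cov.om1 {N N' : Set ZFSet.{0}} (h : N ⊆ N') (h1 : Cov N N') {δ : Ordinal.{0}} (hδ : IsOm1 N δ) :
    IsOm1 N' δ :=
  ⟨h hδ.mem, fun hc => hδ.unc (Cov.ctb h h1 hδ.mem hc), fun α hα => ctb_up h (hδ.ctb α hα)⟩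

end Pool.Agent.H7.IG
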