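import Pool.Agent.H7.IG.Tk1

/-!
# IG toolkit 4: the size relation `Cvr` and countability

`Cvr N Y X`: `X` is covered by the image of a part of `Y` under a single valued `f ∈ N` (see `Defs`).
`Ctb N X` (H52/GC/Cnt): there is `s : ℕ → ZFSet` with `seqZ s ∈ N` and every element of `X` is some `s n`;
useful lemmas: `Ctb.image`, `Ctb.iUnion`, `Ctb.prod`, `Ctb.fin`, `seqZ_mem_of_dfn`.
`cvr_total`: enumerate both sets by ordinals (`exists_enum`) and compare the ordinals.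
-/

set_option autoImplicit false
set_option linter.unusedVariables false
set_option linter.unusedSectionVars false
set_option linter.unusedSimpArgs false
set_option linter.unusedTactic false
set_option linter.unreachableTactic false

namespace Pool.Agent.H7.IG

open Pool.Agent.H17.Omega Pool.Agent.H17.Omega.CTM Pool.Agent.H52.GX Pool.Agent.H52.GC

theorem ud_Cvr : UD CtmC (fun N (v : Fin 2 → N) => Cvr N (v 0).1 (v 1).1) := by
  have h : UD CtmC (fun N (v : Fin 2 → N) => ∃ f : N, (∀ y ∈ (v 0).1, ∀ x x' : N,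
      ZFSet.pair y x.1 ∈ f.1 → ZFSet.pair y x'.1 ∈ f.1 → x = x') ∧
      ∀ x ∈ (v 1).1, ∃ y ∈ (v 0).1, ZFSet.pair y x ∈ f.1) := by
    (repeat' first
      | exact UT.var _ | exact UT.last | assumption
      | refine UD.pairMem ?_ ?_ ?_ | refine UD.isPair ?_ ?_ ?_ | refine UD.mem ?_ ?_
      | refine UD.eqv ?_ ?_ | refine UD.eq ?_ ?_ | refine UD.subset ?_ ?_
      | refine UD.isEmpty ?_ | refine UD.isTrans ?_ | refine UD.isOrd ?_ | refine UD.isNat ?_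
      | refine UD.isUpair ?_ ?_ ?_ | refine UD.isInsert ?_ ?_ ?_ | refine UD.isUnion ?_ ?_ ?_
      | refine UD.and ?_ ?_ | refine UD.or ?_ ?_ | refine UD.iff ?_ ?_ | refine UD.not ?_
      | refine UD.imp ?_ ?_ | refine UD.all ?_ | refine UD.ex ?_ | exact UD.false' | exact UD.true'
      | refine UD.ball ?_ ?_ | refine UD.bex ?_ ?_)
  refine h.congr fun N hN v => ?_
  have hN' : CTM N := hN
  constructor
  · rintro ⟨f, h1, h2⟩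
    refine ⟨f.1, f.2, fun y hy x x' hx hx' => ?_, h2⟩
    exact congrArg Subtype.val (h1 y hy ⟨x, (hN'.of_pair_mem (hN'.mem_of_mem f.2 hx)).2⟩
      ⟨x', (hN'.of_pair_mem (hN'.mem_of_mem f.2 hx')).2⟩ hx hx')
  · rintro ⟨f, hf, h1, h2⟩
    exact ⟨⟨f, hf⟩, fun y hy x x' hx hx' => Subtype.ext (h1 y hy x.1 x'.1 hx hx'), h2⟩

theorem ctb_iff_cvr' {N : Set ZFSet.{0}} (hN : CTM N) {X : ZFSet.{0}} : Ctb N X ↔ Cvr N omZ X := by
  constructor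
  · rintro ⟨f, hf, h⟩
    refine ⟨seqZ f, hf, fun y hy x x' hx hx' => ?_, fun x hx => ?_⟩
    · obtain ⟨n, rfl⟩ := mem_omZ.1 hy
      rw [pair_mem_seqZ] at hx hx'
      rw [hx, hx']
    · obtain ⟨n, hn⟩ := h x hx
      exact ⟨natZ n, natZ_mem_omZ n, pair_mem_seqZ.2 hn.symm⟩
  · rintro ⟨f, hf, h1, h2⟩
    refine Ctb.image hN (ctb_om hN) hN.omZ_mem
      (F := fun x y => ZFSet.pair x.1 y.1 ∈ ((⟨f, hf⟩ : N)).1) ?_ ?_ ?_
    · (repeat' first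
      | exact DT.var _ | exact DT.last | exact DT.const _ | assumption
      | refine Dfn.pairMem ?_ ?_ ?_ | refine Dfn.isPair ?_ ?_ ?_ | refine Dfn.mem ?_ ?_
      | refine Dfn.eqv ?_ ?_ | refine Dfn.eq ?_ ?_ | refine Dfn.subset ?_ ?_
      | refine Dfn.isEmpty ?_ | refine Dfn.isTrans ?_ | refine Dfn.isOrd ?_ | refine Dfn.isNat ?_
      | refine Dfn.isUpair ?_ ?_ ?_ | refine Dfn.isInsert ?_ ?_ ?_
      | refine Dfn.and ?_ ?_ | refine Dfn.or ?_ ?_ | refine Dfn.iff ?_ ?_ | refine Dfn.not ?_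
      | refine Dfn.imp ?_ ?_ | refine Dfn.all ?_ | refine Dfn.ex ?_ | exact Dfn.false'
      | refine Dfn.ballZ ?_ ?_ | refine Dfn.bexZ ?_ ?_ | exact Dfn.const _)
    · intro x hx y y' hy hy'
      exact Subtype.ext (h1 x.1 hx y.1 y'.1 hy hy')
    · intro y hy
      obtain ⟨x, hx, hxy⟩ := h2 y hy
      have h3 := hN.of_pair_mem (hN.mem_of_mem hf hxy)
      exact ⟨⟨x, h3.1⟩, ⟨y, h3.2⟩, hx, rfl, hxy⟩

theorem ud_Ctb : UD CtmC (fun N (v : Fin 1 → N) => Ctb N (v 0).1) := by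
  have h : UD CtmC (fun N (v : Fin 1 → N) => ∃ w : N, (∀ z : N, z.1 ∈ w.1 ↔ IsNatZ z.1) ∧
      Cvr N w.1 (v 0).1) := by
    (repeat' first
      | exact UT.var _ | exact UT.last | assumption
      | refine UD.pairMem ?_ ?_ ?_ | refine UD.isPair ?_ ?_ ?_ | refine UD.mem ?_ ?_
      | refine UD.eqv ?_ ?_ | refine UD.eq ?_ ?_ | refine UD.subset ?_ ?_
      | refine UD.isEmpty ?_ | refine UD.isTrans ?_ | refine UD.isOrd ?_ | refine UD.isNat ?_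
      | refine UD.isUpair ?_ ?_ ?_ | refine UD.isInsert ?_ ?_ ?_ | refine UD.isUnion ?_ ?_ ?_
      | refine UD.and ?_ ?_ | refine UD.or ?_ ?_ | refine UD.iff ?_ ?_ | refine UD.not ?_
      | refine UD.imp ?_ ?_ | refine UD.all ?_ | refine UD.ex ?_ | exact UD.false' | exact UD.true'
      | refine UD.ball ?_ ?_ | refine UD.bex ?_ ?_)
    exact UD.sub2 (P := fun N x y => Cvr N x.1 y.1) ud_Cvr (UT.var _) (UT.var _)
  refine h.congr fun N hN v => ?_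
  have hN' : CTM N := hN
  rw [ctb_iff_cvr' hN']
  constructor
  · rintro ⟨w, h1, h2⟩
    have : w.1 = omZ := hN'.ext' w.2 hN'.omZ_mem fun z => (h1 z).trans
      (isNatZ_iff.trans mem_omZ.symm)
    rwa [this] at h2
  · intro h
    exact ⟨⟨omZ, hN'.omZ_mem⟩, fun z => mem_omZ.trans isNatZ_iff.symm, h⟩

theorem Cvr.mono {N : Set ZFSet.{0}} {Y X X' : ZFSet.{0}} (h : Cvr N Y X) (hX : X' ⊆ X) : Cvr N Y X' := by
  obtain ⟨f, hf, h1, h2⟩ := h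
  exact ⟨f, hf, h1, fun x hx => h2 x (hX hx)⟩

variable {N : Set ZFSet.{0}} (hN : CTM N)

include hN

theorem ctb_iff_cvr {X : ZFSet.{0}} : Ctb N X ↔ Cvr N omZ X := ctb_iff_cvr' hN

/-- Images under definable relations. -/
theorem cvr_of_dfn {F : N → N → Prop} (hF : hN.Dfn (fun v : Fin 2 → N => F (v 0) (v 1))) {Y X : ZFSet.{0}}
    (hY : Y ∈ N) (hX : X ∈ N) (huni : ∀ y : N, y.1 ∈ Y → ∀ x x' : N, F y x → F y x' → x = x')
    (h : ∀ x : N, x.1 ∈ X → ∃ y : N, y.1 ∈ Y ∧ F y x) : Cvr N Y X := by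
  obtain ⟨r, hr, hr'⟩ := hN.exists_sep (P := fun z => ∃ y x : N, z.1 = ZFSet.pair y.1 x.1 ∧ F y x) (by
    (repeat' first
      | exact DT.var _ | exact DT.last | exact DT.const _ | assumption
      | refine Dfn.pairMem ?_ ?_ ?_ | refine Dfn.isPair ?_ ?_ ?_ | refine Dfn.mem ?_ ?_
      | refine Dfn.eqv ?_ ?_ | refine Dfn.eq ?_ ?_ | refine Dfn.subset ?_ ?_
      | refine Dfn.isEmpty ?_ | refine Dfn.isTrans ?_ | refine Dfn.isOrd ?_ | refine Dfn.isNat ?_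
      | refine Dfn.isUpair ?_ ?_ ?_ | refine Dfn.isInsert ?_ ?_ ?_
      | refine Dfn.and ?_ ?_ | refine Dfn.or ?_ ?_ | refine Dfn.iff ?_ ?_ | refine Dfn.not ?_
      | refine Dfn.imp ?_ ?_ | refine Dfn.all ?_ | refine Dfn.ex ?_ | exact Dfn.false'
      | refine Dfn.ballZ ?_ ?_ | refine Dfn.bexZ ?_ ?_ | exact Dfn.const _)
    exact Dfn.subst2 hF (DT.var _) (DT.var _)) (hN.prod_mem hY hX)
  refine ⟨r, hr, fun y hy x x' hx hx' => ?_, fun x hx => ?_⟩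
  · obtain ⟨_, _, y1, x1, h1, h2⟩ := (hr' _).1 hx
    obtain ⟨_, _, y2, x2, h3, h4⟩ := (hr' _).1 hx'
    have h1 : ZFSet.pair y x = ZFSet.pair y1.1 x1.1 := h1
    have h3 : ZFSet.pair y x' = ZFSet.pair y2.1 x2.1 := h3
    rw [ZFSet.pair_inj] at h1 h3
    have e1 : y1 = y2 := Subtype.ext (h1.1.symm.trans h3.1)
    subst e1
    have e2 := huni y1 (h1.1 ▸ hy) x1 x2 h2 h4
    rw [h1.2, h3.2, e2]
  · have hxN := hN.mem_of_mem hX hx
    obtain ⟨y, hy, hyx⟩ := h ⟨x, hxN⟩ hx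
    refine ⟨y.1, hy, (hr' _).2 ⟨?_, hN.pair_mem y.2 hxN, y, ⟨x, hxN⟩, rfl, hyx⟩⟩
    rw [ZFSet.pair_mem_prod]
    exact ⟨hy, hx⟩

theorem Cvr.trans {Z Y X : ZFSet.{0}} (hZ : Z ∈ N) (hY : Y ∈ N) (hX : X ∈ N) (h : Cvr N Z Y) (h' : Cvr N Y X) :
    Cvr N Z X := by
  obtain ⟨f, hf, h1, h2⟩ := h
  obtain ⟨g, hg, h3, h4⟩ := h'
  refine cvr_of_dfn hN (F := fun z x => ∃ y : N, y.1 ∈ (⟨Y, hY⟩ : N).1 ∧
    ZFSet.pair z.1 y.1 ∈ (⟨f, hf⟩ : N).1 ∧ ZFSet.pair y.1 x.1 ∈ (⟨g, hg⟩ : N).1) ?_ hZ hX ?_ ?_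
  · (repeat' first
      | exact DT.var _ | exact DT.last | exact DT.const _ | assumption
      | refine Dfn.pairMem ?_ ?_ ?_ | refine Dfn.isPair ?_ ?_ ?_ | refine Dfn.mem ?_ ?_
      | refine Dfn.eqv ?_ ?_ | refine Dfn.eq ?_ ?_ | refine Dfn.subset ?_ ?_
      | refine Dfn.isEmpty ?_ | refine Dfn.isTrans ?_ | refine Dfn.isOrd ?_ | refine Dfn.isNat ?_
      | refine Dfn.isUpair ?_ ?_ ?_ | refine Dfn.isInsert ?_ ?_ ?_
      | refine Dfn.and ?_ ?_ | refine Dfn.or ?_ ?_ | refine Dfn.iff ?_ ?_ | refine Dfn.not ?_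
      | refine Dfn.imp ?_ ?_ | refine Dfn.all ?_ | refine Dfn.ex ?_ | exact Dfn.false'
      | refine Dfn.ballZ ?_ ?_ | refine Dfn.bexZ ?_ ?_ | exact Dfn.const _)
  · rintro z hz x x' ⟨y, hy, h5, h6⟩ ⟨y', hy', h5', h6'⟩
    have e : y = y' := Subtype.ext (h1 z.1 hz _ _ h5 h5')
    subst e
    exact Subtype.ext (h3 y.1 hy _ _ h6 h6')
  · intro x hx
    obtain ⟨y, hy, hyx⟩ := h4 x.1 hx
    obtain ⟨z, hz, hzy⟩ := h2 y hy
    exact ⟨⟨z, hN.mem_of_mem hZ hz⟩, hz, ⟨y, hN.mem_of_mem hY hy⟩, hy, hzy, hyx⟩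

theorem cvr_of_subset {Y X : ZFSet.{0}} (hY : Y ∈ N) (h : X ⊆ Y) : Cvr N Y X := by
  refine Cvr.mono (cvr_of_dfn hN (F := fun y x => y = x) ?_ hY hY ?_ ?_) h
  · (repeat' first
      | exact DT.var _ | exact DT.last | exact DT.const _ | assumption
      | refine Dfn.pairMem ?_ ?_ ?_ | refine Dfn.isPair ?_ ?_ ?_ | refine Dfn.mem ?_ ?_
      | refine Dfn.eqv ?_ ?_ | refine Dfn.eq ?_ ?_ | refine Dfn.subset ?_ ?_
      | refine Dfn.isEmpty ?_ | refine Dfn.isTrans ?_ | refine Dfn.isOrd ?_ | refine Dfn.isNat ?_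
      | refine Dfn.isUpair ?_ ?_ ?_ | refine Dfn.isInsert ?_ ?_ ?_
      | refine Dfn.and ?_ ?_ | refine Dfn.or ?_ ?_ | refine Dfn.iff ?_ ?_ | refine Dfn.not ?_
      | refine Dfn.imp ?_ ?_ | refine Dfn.all ?_ | refine Dfn.ex ?_ | exact Dfn.false'
      | refine Dfn.ballZ ?_ ?_ | refine Dfn.bexZ ?_ ?_ | exact Dfn.const _)
  · intro y hy x x' h1 h2
    exact h1.symm.trans h2
  · intro x hx
    exact ⟨x, hx, rfl⟩

theorem cvr_total {Y X : ZFSet.{0}} (hY : Y ∈ N) (hX : X ∈ N) : Cvr N Y X ∨ Cvr N X Y := by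
  have key : ∀ {Y X : ZFSet.{0}} (hY : Y ∈ N) (hX : X ∈ N) {μ ν : Ordinal.{0}}, μ ≤ ν → ∀ {f g : ZFSet.{0}},
      f ∈ N → g ∈ N → Onto f μ.toZFSet Y →
      Onto g ν.toZFSet X → (∀ x x' y : ZFSet.{0}, ZFSet.pair x y ∈ g → ZFSet.pair x' y ∈ g → x = x') →
      Cvr N X Y := by
    intro Y X hY hX μ ν hμν f g hf hg hfo hgo hgi
    refine cvr_of_dfn hN (F := fun x y => ∃ a : N, ZFSet.pair a.1 x.1 ∈ (⟨g, hg⟩ : N).1 ∧
      ZFSet.pair a.1 y.1 ∈ (⟨f, hf⟩ : N).1) ?_ hX hY ?_ ?_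
    · (repeat' first
      | exact DT.var _ | exact DT.last | exact DT.const _ | assumption
      | refine Dfn.pairMem ?_ ?_ ?_ | refine Dfn.isPair ?_ ?_ ?_ | refine Dfn.mem ?_ ?_
      | refine Dfn.eqv ?_ ?_ | refine Dfn.eq ?_ ?_ | refine Dfn.subset ?_ ?_
      | refine Dfn.isEmpty ?_ | refine Dfn.isTrans ?_ | refine Dfn.isOrd ?_ | refine Dfn.isNat ?_
      | refine Dfn.isUpair ?_ ?_ ?_ | refine Dfn.isInsert ?_ ?_ ?_
      | refine Dfn.and ?_ ?_ | refine Dfn.or ?_ ?_ | refine Dfn.iff ?_ ?_ | refine Dfn.not ?_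
      | refine Dfn.imp ?_ ?_ | refine Dfn.all ?_ | refine Dfn.ex ?_ | exact Dfn.false'
      | refine Dfn.ballZ ?_ ?_ | refine Dfn.bexZ ?_ ?_ | exact Dfn.const _)
    · rintro x hx y y' ⟨a, h1, h2⟩ ⟨a', h1', h2'⟩
      have e : a = a' := Subtype.ext (hgi _ _ _ h1 h1')
      subst e
      obtain ⟨a1, ha1, y1, hy1, h3⟩ := hfo.1.sub _ h2
      obtain ⟨a2, ha2, y2, hy2, h4⟩ := hfo.1.sub _ h2'
      rw [ZFSet.pair_inj] at h3 h4
      refine Subtype.ext (hfo.1.uni a.1 (h3.1 ▸ ha1) y.1 (h3.2 ▸ hy1) y'.1 (h4.2 ▸ hy2) h2 h2')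
    · intro y hy
      obtain ⟨a, ha, hay⟩ := hfo.2 y.1 hy
      have ha' : a ∈ ν.toZFSet := Ordinal.toZFSet_subset_toZFSet_iff.2 hμν ha
      obtain ⟨x, hx, hax⟩ := hgo.1.tot a ha'
      exact ⟨⟨x, hN.mem_of_mem hX hx⟩, hx, ⟨a, (hN.of_pair_mem (hN.mem_of_mem hf hay)).1⟩, hax, hay⟩
  obtain ⟨μ, hμ, f, hf, hfo, hfi⟩ := exists_enum hN hY
  obtain ⟨ν, hν, g, hg, hgo, hgi⟩ := exists_enum hN hX
  rcases le_total μ ν with h | h
  · exact Or.inr (key hY hX h hf hg hfo hgo hgi)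
  · exact Or.inl (key hX hY h hg hf hgo hfo hfi)

/-- A nonempty set covered by `Y` is the image of a function defined on all of `Y`. -/
theorem cvr_onto {Y X : ZFSet.{0}} (hY : Y ∈ N) (hX : X ∈ N) (h : Cvr N Y X) (hne : ∃ x, x ∈ X) :
    ∃ f ∈ N, Onto f Y X := by
  classical
  obtain ⟨f, hf, h1, h2⟩ := h
  obtain ⟨x0, hx0⟩ := hne
  have hx0N := hN.mem_of_mem hX hx0
  obtain ⟨g, hg, hfn, hg'⟩ := exists_fn hN (F := fun y x => ZFSet.pair y.1 x.1 ∈ (⟨f, hf⟩ : N).1 ∨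
    ((∀ x' : N, x'.1 ∈ (⟨X, hX⟩ : N).1 → ¬ ZFSet.pair y.1 x'.1 ∈ (⟨f, hf⟩ : N).1) ∧
      x = ⟨x0, hx0N⟩)) (by
    (repeat' first
      | exact DT.var _ | exact DT.last | exact DT.const _ | assumption
      | refine Dfn.pairMem ?_ ?_ ?_ | refine Dfn.isPair ?_ ?_ ?_ | refine Dfn.mem ?_ ?_
      | refine Dfn.eqv ?_ ?_ | refine Dfn.eq ?_ ?_ | refine Dfn.subset ?_ ?_
      | refine Dfn.isEmpty ?_ | refine Dfn.isTrans ?_ | refine Dfn.isOrd ?_ | refine Dfn.isNat ?_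
      | refine Dfn.isUpair ?_ ?_ ?_ | refine Dfn.isInsert ?_ ?_ ?_
      | refine Dfn.and ?_ ?_ | refine Dfn.or ?_ ?_ | refine Dfn.iff ?_ ?_ | refine Dfn.not ?_
      | refine Dfn.imp ?_ ?_ | refine Dfn.all ?_ | refine Dfn.ex ?_ | exact Dfn.false'
      | refine Dfn.ballZ ?_ ?_ | refine Dfn.bexZ ?_ ?_ | exact Dfn.const _)) hY hX (by
    intro y hy
    by_cases hyx : ∃ x' : N, x'.1 ∈ X ∧ ZFSet.pair y.1 x'.1 ∈ f
    · obtain ⟨x', hx', h3⟩ := hyx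
      refine ⟨x', hx', Or.inl h3, fun y' hy' h4 => ?_⟩
      rcases h4 with h4 | ⟨h4, -⟩
      · exact Subtype.ext (h1 y.1 hy _ _ h4 h3)
      · exact (h4 x' hx' h3).elim
    · refine ⟨⟨x0, hx0N⟩, hx0, Or.inr ⟨fun x' hx' h3 => hyx ⟨x', hx', h3⟩, rfl⟩, fun y' hy' h4 => ?_⟩
      rcases h4 with h4 | ⟨-, h4⟩
      · exact (hyx ⟨y', hy', h4⟩).elim
      · exact h4)
  refine ⟨g, hg, hfn, fun x hx => ?_⟩
  obtain ⟨y, hy, hyx⟩ := h2 x hx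
  exact ⟨y, hy, (hg' ⟨y, hN.mem_of_mem hY hy⟩ ⟨x, hN.mem_of_mem hX hx⟩).2 ⟨hy, hx, Or.inl hyx⟩⟩

/-- Countable unions of countable sets: the union of the sets `{x : (i, x) ∈ r}`, `i ∈ I`. -/
theorem ctb_union {I r X : ZFSet.{0}} (hI : I ∈ N) (hr : r ∈ N) (hX : X ∈ N) (hc : Ctb N I)
    (h : ∀ i ∈ I, ∃ Y ∈ N, Ctb N Y ∧ ∀ x ∈ X, ZFSet.pair i x ∈ r → x ∈ Y)
    (hcov : ∀ x ∈ X, ∃ i ∈ I, ZFSet.pair i x ∈ r) : Ctb N X := by
  classical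
  obtain ⟨s, hs, hs'⟩ := hc
  have hsN : ∀ n, s n ∈ N := fun n => hN.seqZ_val hs n
  have hex : ∀ n, ∃ b : N, ∀ z : N, z.1 ∈ b.1 ↔ z.1 ∈ X ∧ s n ∈ I ∧ ZFSet.pair (s n) z.1 ∈ r := by
    intro n
    obtain ⟨b, hb, hb'⟩ := hN.exists_sep (P := fun z => (⟨s n, hsN n⟩ : N).1 ∈ (⟨I, hI⟩ : N).1 ∧
      ZFSet.pair (⟨s n, hsN n⟩ : N).1 z.1 ∈ (⟨r, hr⟩ : N).1) (by
      (repeat' first
      | exact DT.var _ | exact DT.last | exact DT.const _ | assumption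
      | refine Dfn.pairMem ?_ ?_ ?_ | refine Dfn.isPair ?_ ?_ ?_ | refine Dfn.mem ?_ ?_
      | refine Dfn.eqv ?_ ?_ | refine Dfn.eq ?_ ?_ | refine Dfn.subset ?_ ?_
      | refine Dfn.isEmpty ?_ | refine Dfn.isTrans ?_ | refine Dfn.isOrd ?_ | refine Dfn.isNat ?_
      | refine Dfn.isUpair ?_ ?_ ?_ | refine Dfn.isInsert ?_ ?_ ?_
      | refine Dfn.and ?_ ?_ | refine Dfn.or ?_ ?_ | refine Dfn.iff ?_ ?_ | refine Dfn.not ?_
      | refine Dfn.imp ?_ ?_ | refine Dfn.all ?_ | refine Dfn.ex ?_ | exact Dfn.false'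
      | refine Dfn.ballZ ?_ ?_ | refine Dfn.bexZ ?_ ?_ | exact Dfn.const _)) hX
    refine ⟨⟨b, hb⟩, fun z => (hb' z.1).trans ?_⟩
    exact ⟨fun ⟨h1, _, h2⟩ => ⟨h1, h2⟩, fun ⟨h1, h2⟩ => ⟨h1, z.2, h2⟩⟩
  choose b hb using hex
  have hbs : seqZ (fun n => (b n).1) ∈ N := by
    refine seqZ_mem_of_dfn hN (F := fun n y => ∃ i : N, ZFSet.pair n.1 i.1 ∈ (⟨_, hs⟩ : N).1 ∧
      ∀ z : N, z.1 ∈ y.1 ↔ z.1 ∈ (⟨X, hX⟩ : N).1 ∧ i.1 ∈ (⟨I, hI⟩ : N).1 ∧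
        ZFSet.pair i.1 z.1 ∈ (⟨r, hr⟩ : N).1) ?_ ?_ (fun n => (b n).2)
    · (repeat' first
      | exact DT.var _ | exact DT.last | exact DT.const _ | assumption
      | refine Dfn.pairMem ?_ ?_ ?_ | refine Dfn.isPair ?_ ?_ ?_ | refine Dfn.mem ?_ ?_
      | refine Dfn.eqv ?_ ?_ | refine Dfn.eq ?_ ?_ | refine Dfn.subset ?_ ?_
      | refine Dfn.isEmpty ?_ | refine Dfn.isTrans ?_ | refine Dfn.isOrd ?_ | refine Dfn.isNat ?_
      | refine Dfn.isUpair ?_ ?_ ?_ | refine Dfn.isInsert ?_ ?_ ?_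
      | refine Dfn.and ?_ ?_ | refine Dfn.or ?_ ?_ | refine Dfn.iff ?_ ?_ | refine Dfn.not ?_
      | refine Dfn.imp ?_ ?_ | refine Dfn.all ?_ | refine Dfn.ex ?_ | exact Dfn.false'
      | refine Dfn.ballZ ?_ ?_ | refine Dfn.bexZ ?_ ?_ | exact Dfn.const _)
    · intro n y
      constructor
      · rintro ⟨i, h1, h2⟩
        have h1 : i.1 = s n := pair_mem_seqZ.1 h1
        refine hN.ext' y.2 (b n).2 fun z => (h2 z).trans ?_
        rw [h1]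
        exact (hb n z).symm
      · intro hy
        refine ⟨⟨s n, hsN n⟩, pair_mem_seqZ.2 rfl, fun z => ?_⟩
        rw [hy]
        exact hb n z
  refine Ctb.iUnion hN hbs (fun n => ?_) (fun x hx => ?_)
  · by_cases hn : s n ∈ I
    · obtain ⟨Y, hY, hYc, hY'⟩ := h (s n) hn
      refine hYc.mono fun z hz => ?_
      have h1 := (hb n ⟨z, hN.mem_of_mem (b n).2 hz⟩).1 hz
      exact hY' z h1.1 h1.2.2
    · refine (ctb_om hN).mono fun z hz => ?_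
      exact (hn ((hb n ⟨z, hN.mem_of_mem (b n).2 hz⟩).1 hz).2.1).elim
  · obtain ⟨i, hi, hix⟩ := hcov x hx
    obtain ⟨n, hn⟩ := hs' i hi
    refine ⟨n, (hb n ⟨x, hN.mem_of_mem hX hx⟩).2 ⟨hx, ?_, ?_⟩⟩
    · rw [hn]; exact hi
    · rw [hn]; exact hix

/-- Pigeonhole: an uncountable set is not mapped with countable fibres into a countable set. -/
theorem ctb_fibre {X Y f : ZFSet.{0}} (hX : X ∈ N) (hY : Y ∈ N) (hf : f ∈ N) (hfn : Fn f X Y) (hYc : Ctb N Y)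
    (hXu : ¬ Ctb N X) : ∃ y ∈ Y, ¬ Ctb N (ZFSet.sep (fun x => ZFSet.pair x y ∈ f) X) := by
  by_contra hcon
  push Not at hcon
  obtain ⟨r, hr, hr'⟩ := hN.exists_sep (P := fun z => ∃ y x : N, z.1 = ZFSet.pair y.1 x.1 ∧
    ZFSet.pair x.1 y.1 ∈ (⟨f, hf⟩ : N).1) (by
    (repeat' first
      | exact DT.var _ | exact DT.last | exact DT.const _ | assumption
      | refine Dfn.pairMem ?_ ?_ ?_ | refine Dfn.isPair ?_ ?_ ?_ | refine Dfn.mem ?_ ?_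
      | refine Dfn.eqv ?_ ?_ | refine Dfn.eq ?_ ?_ | refine Dfn.subset ?_ ?_
      | refine Dfn.isEmpty ?_ | refine Dfn.isTrans ?_ | refine Dfn.isOrd ?_ | refine Dfn.isNat ?_
      | refine Dfn.isUpair ?_ ?_ ?_ | refine Dfn.isInsert ?_ ?_ ?_
      | refine Dfn.and ?_ ?_ | refine Dfn.or ?_ ?_ | refine Dfn.iff ?_ ?_ | refine Dfn.not ?_
      | refine Dfn.imp ?_ ?_ | refine Dfn.all ?_ | refine Dfn.ex ?_ | exact Dfn.false'
      | refine Dfn.ballZ ?_ ?_ | refine Dfn.bexZ ?_ ?_ | exact Dfn.const _)) (hN.prod_mem hY hX)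
  refine hXu (ctb_union hN hY hr hX hYc (fun y hy => ⟨_, ?_, hcon y hy, fun x hx hyx => ?_⟩)
    (fun x hx => ?_))
  · have hyN := hN.mem_of_mem hY hy
    refine hN.sep_mem (p := fun x => ZFSet.pair x (⟨y, hyN⟩ : N).1 ∈ (⟨f, hf⟩ : N).1) ?_ hX
    (repeat' first
      | exact DT.var _ | exact DT.last | exact DT.const _ | assumption
      | refine Dfn.pairMem ?_ ?_ ?_ | refine Dfn.isPair ?_ ?_ ?_ | refine Dfn.mem ?_ ?_
      | refine Dfn.eqv ?_ ?_ | refine Dfn.eq ?_ ?_ | refine Dfn.subset ?_ ?_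
      | refine Dfn.isEmpty ?_ | refine Dfn.isTrans ?_ | refine Dfn.isOrd ?_ | refine Dfn.isNat ?_
      | refine Dfn.isUpair ?_ ?_ ?_ | refine Dfn.isInsert ?_ ?_ ?_
      | refine Dfn.and ?_ ?_ | refine Dfn.or ?_ ?_ | refine Dfn.iff ?_ ?_ | refine Dfn.not ?_
      | refine Dfn.imp ?_ ?_ | refine Dfn.all ?_ | refine Dfn.ex ?_ | exact Dfn.false'
      | refine Dfn.ballZ ?_ ?_ | refine Dfn.bexZ ?_ ?_ | exact Dfn.const _)
  · obtain ⟨_, _, y1, x1, h1, h2⟩ := (hr' _).1 hyx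
    have h1 : ZFSet.pair y x = ZFSet.pair y1.1 x1.1 := h1
    rw [ZFSet.pair_inj] at h1
    rw [ZFSet.mem_sep, h1.1, h1.2]
    exact ⟨h1.2 ▸ hx, h2⟩
  · obtain ⟨y, hy, hxy⟩ := hfn.tot x hx
    have hyN := hN.mem_of_mem hY hy
    have hxN := hN.mem_of_mem hX hx
    refine ⟨y, hy, (hr' _).2 ⟨?_, hN.pair_mem hyN hxN, ⟨y, hyN⟩, ⟨x, hxN⟩, rfl, hxy⟩⟩
    rw [ZFSet.pair_mem_prod]
    exact ⟨hy, hx⟩

end Pool.Agent.H7.IG
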