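import Pool.Agent.H7.IG.UD

/-!
# Project IG: basic definitions

Everything lives in `ZFSet.{0}`; models are sets `N : Set ZFSet.{0}`.

* `Fn f A B`, `Onto f A B`, `ap f x`: functions as sets of pairs (absolute).
* `Cvr N Y X`: `X` is covered by the image of a subset of `Y` under a function of `N` (size of `X` is at
  most the size of `Y` in `N`, for `X` nonempty or empty).
* `Ctb N X` (H52/GC): countable in `N`; `IsOm1 N δ` (H52/GC): `δ` is `ω₁` of `N`. `IsOm2 N κ δ`: `κ` is `ω₂`.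
* posets are sets `P` of sets ordered by REVERSE inclusion (`q ⊇ p` means `q` is stronger).
  `Gen M P G`: `G ⊆ P` is a generic filter; `vl G τ` value of a name; `Xt M G = M[G]`.
* `Frc M P Ψ p a`: `p` forces `Ψ` (semantically: in all generic extensions by `G ∋ p`); the arguments
  `a i : Ar M` are ground model elements `.g x` or names `.n τ`.
* `Cov N N'`: countable sets of `N'` are covered by countable sets of `N`.
-/

set_option autoImplicit false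
set_option linter.unusedVariables false
set_option linter.unusedSectionVars false
set_option linter.unusedSimpArgs false
set_option linter.unusedTactic false
set_option linter.unreachableTactic false

namespace Pool.Agent.H7.IG

open Pool.Agent.H17.Omega Pool.Agent.H17.Omega.CTM Pool.Agent.H52.GX Pool.Agent.H52.GC

/-! ## Functions -/

/-- `f` is a function from `A` to `B` (a set of pairs). -/
structure Fn (f A B : ZFSet.{0}) : Prop where
  sub : ∀ z ∈ f, ∃ x ∈ A, ∃ y ∈ B, z = ZFSet.pair x y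
  tot : ∀ x ∈ A, ∃ y ∈ B, ZFSet.pair x y ∈ f
  uni : ∀ x ∈ A, ∀ y ∈ B, ∀ y' ∈ B, ZFSet.pair x y ∈ f → ZFSet.pair x y' ∈ f → y = y'

theorem Fn.iff {f A B : ZFSet.{0}} : Fn f A B ↔ (∀ z ∈ f, ∃ x ∈ A, ∃ y ∈ B, z = ZFSet.pair x y) ∧
    (∀ x ∈ A, ∃ y ∈ B, ZFSet.pair x y ∈ f) ∧
    ∀ x ∈ A, ∀ y ∈ B, ∀ y' ∈ B, ZFSet.pair x y ∈ f → ZFSet.pair x y' ∈ f → y = y' :=
  ⟨fun h => ⟨h.1, h.2, h.3⟩, fun h => ⟨h.1, h.2.1, h.2.2⟩⟩

theorem ud_Fn {𝒞 : Set (Set ZFSet.{0})} [TrC 𝒞] :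
    UD 𝒞 (fun N (v : Fin 3 → N) => Fn (v 0).1 (v 1).1 (v 2).1) := by
  simp only [Fn.iff]
  (repeat' first
      | exact UT.var _ | exact UT.last | assumption
      | refine UD.pairMem ?_ ?_ ?_ | refine UD.isPair ?_ ?_ ?_ | refine UD.mem ?_ ?_
      | refine UD.eqv ?_ ?_ | refine UD.eq ?_ ?_ | refine UD.subset ?_ ?_
      | refine UD.isEmpty ?_ | refine UD.isTrans ?_ | refine UD.isOrd ?_ | refine UD.isNat ?_
      | refine UD.isUpair ?_ ?_ ?_ | refine UD.isInsert ?_ ?_ ?_ | refine UD.isUnion ?_ ?_ ?_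
      | refine UD.and ?_ ?_ | refine UD.or ?_ ?_ | refine UD.iff ?_ ?_ | refine UD.not ?_
      | refine UD.imp ?_ ?_ | refine UD.all ?_ | refine UD.ex ?_ | exact UD.false' | exact UD.true'
      | refine UD.ball ?_ ?_ | refine UD.bex ?_ ?_)

/-- `f` maps `A` onto `B`. -/
def Onto (f A B : ZFSet.{0}) : Prop := Fn f A B ∧ ∀ y ∈ B, ∃ x ∈ A, ZFSet.pair x y ∈ f

theorem ud_Onto {𝒞 : Set (Set ZFSet.{0})} [TrC 𝒞] :
    UD 𝒞 (fun N (v : Fin 3 → N) => Onto (v 0).1 (v 1).1 (v 2).1) := by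
  unfold Onto
  refine UD.and ud_Fn ?_
  (repeat' first
      | exact UT.var _ | exact UT.last | assumption
      | refine UD.pairMem ?_ ?_ ?_ | refine UD.isPair ?_ ?_ ?_ | refine UD.mem ?_ ?_
      | refine UD.eqv ?_ ?_ | refine UD.eq ?_ ?_ | refine UD.subset ?_ ?_
      | refine UD.isEmpty ?_ | refine UD.isTrans ?_ | refine UD.isOrd ?_ | refine UD.isNat ?_
      | refine UD.isUpair ?_ ?_ ?_ | refine UD.isInsert ?_ ?_ ?_ | refine UD.isUnion ?_ ?_ ?_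
      | refine UD.and ?_ ?_ | refine UD.or ?_ ?_ | refine UD.iff ?_ ?_ | refine UD.not ?_
      | refine UD.imp ?_ ?_ | refine UD.all ?_ | refine UD.ex ?_ | exact UD.false' | exact UD.true'
      | refine UD.ball ?_ ?_ | refine UD.bex ?_ ?_)

open Classical in
/-- The value `f(x)` of a function (a set of pairs); `∅` if there is none. -/
noncomputable def ap (f x : ZFSet.{0}) : ZFSet.{0} := if h : ∃ y, ZFSet.pair x y ∈ f then h.choose else ∅

theorem Fn.ap_mem {f A B x : ZFSet.{0}} (h : Fn f A B) (hx : x ∈ A) : ap f x ∈ B ∧ ZFSet.pair x (ap f x) ∈ f := by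
  obtain ⟨y, hy, hxy⟩ := h.tot x hx
  have h1 : ∃ y, ZFSet.pair x y ∈ f := ⟨y, hxy⟩
  have h2 : ZFSet.pair x (ap f x) ∈ f := by rw [ap, dif_pos h1]; exact h1.choose_spec
  obtain ⟨x', _, y', hy', h3⟩ := h.sub _ h2
  rw [ZFSet.pair_inj] at h3
  exact ⟨h3.2 ▸ hy', h2⟩

theorem Fn.ap_eq {f A B x y : ZFSet.{0}} (h : Fn f A B) (hxy : ZFSet.pair x y ∈ f) : ap f x = y := by
  obtain ⟨x', hx', y', hy', h3⟩ := h.sub _ hxy
  rw [ZFSet.pair_inj] at h3
  obtain ⟨rfl, rfl⟩ := h3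
  obtain ⟨h4, h5⟩ := h.ap_mem hx'
  exact h.uni _ hx' _ h4 _ hy' h5 hxy

/-! ## Sizes -/

/-- `X` is contained in the image of (a part of) `Y` under a single valued `f ∈ N`. -/
def Cvr (N : Set ZFSet.{0}) (Y X : ZFSet.{0}) : Prop :=
  ∃ f ∈ N, (∀ y ∈ Y, ∀ x x' : ZFSet.{0}, ZFSet.pair y x ∈ f → ZFSet.pair y x' ∈ f → x = x') ∧
    ∀ x ∈ X, ∃ y ∈ Y, ZFSet.pair y x ∈ f

/-- `κ` is `ω₂` of `N`, where `δ` is `ω₁` of `N`. -/
structure IsOm2 (N : Set ZFSet.{0}) (δ κ : Ordinal.{0}) : Prop where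
  om1 : IsOm1 N δ
  mem : κ.toZFSet ∈ N
  unc : ¬ Cvr N δ.toZFSet κ.toZFSet
  cvr : ∀ α < κ, Cvr N δ.toZFSet α.toZFSet

/-- Countable sets of `N'` that are contained in a set of `N` are covered by countable sets of `N`. -/
def Cov (N N' : Set ZFSet.{0}) : Prop :=
  ∀ Y ∈ N, ∀ x ∈ N', x ⊆ Y → Ctb N' x → ∃ y ∈ N, y ⊆ Y ∧ x ⊆ y ∧ Ctb N y

/-! ## Posets, generic filters, extensions -/

/-- `G` is a filter on `P` (ordered by reverse inclusion) meeting all dense sets of `M`. -/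
structure Gen (M : Set ZFSet.{0}) (P G : ZFSet.{0}) : Prop where
  sub : ∀ p ∈ G, p ∈ P
  ne : ∃ p, p ∈ G
  up : ∀ p ∈ G, ∀ q ∈ P, q ⊆ p → q ∈ G
  dir : ∀ p ∈ G, ∀ q ∈ G, ∃ r ∈ G, p ⊆ r ∧ q ⊆ r
  gen : ∀ D ∈ M, (∀ p ∈ P, ∃ q ∈ P, p ⊆ q ∧ q ∈ D) → ∃ p ∈ G, p ∈ D

/-- The value of the name `τ`: `vl G τ = {vl G σ : (σ, p) ∈ τ, p ∈ G}`. -/
noncomputable def vl (G τ : ZFSet.{0}) : ZFSet.{0} :=
  ev (Q := Shrink.{0} {p : ZFSet.{0} // p ∈ G}) (fun q => ((equivShrink _).symm q).1) Set.univ τ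

theorem mem_vl {G τ z : ZFSet.{0}} : z ∈ vl G τ ↔ ∃ σ, ∃ p ∈ G, ZFSet.pair σ p ∈ τ ∧ vl G σ = z := by
  rw [vl, mem_ev]
  constructor
  · rintro ⟨σ, p, h1, _, h2⟩
    exact ⟨σ, _, ((equivShrink _).symm p).2, h1, h2⟩
  · rintro ⟨σ, p, hp, h1, h2⟩
    exact ⟨σ, equivShrink _ ⟨p, hp⟩, by simpa using h1, trivial, h2⟩

/-- `M[G]`. -/
def Xt (M : Set ZFSet.{0}) (G : ZFSet.{0}) : Set ZFSet.{0} := vl G '' M

/-- Arguments of forced statements: ground model elements (they stand for themselves) or names. -/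
inductive Ar (M : Set ZFSet.{0}) : Type 1
  | g (x : M) : Ar M
  | n (τ : M) : Ar M

/-- The value of an argument. -/
noncomputable def Ar.v {M : Set ZFSet.{0}} (G : ZFSet.{0}) : Ar M → ZFSet.{0}
  | .g x => x.1
  | .n τ => vl G τ.1

/-- `p` forces `Ψ(a)`: `Ψ` holds for the values of `a` in all generic extensions by filters that
contain `p`. -/
def Frc (M : Set ZFSet.{0}) (P : ZFSet.{0}) {n : ℕ} (Ψ : (N : Set ZFSet.{0}) → (Fin n → N) → Prop)
    (p : ZFSet.{0}) (a : Fin n → Ar M) : Prop :=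
  ∀ G, Gen M P G → p ∈ G → ∀ v : Fin n → Xt M G, (∀ i, (v i).1 = (a i).v G) → Ψ (Xt M G) v

/-- The countable chain condition, in `N`. -/
def Ccc (N : Set ZFSet.{0}) (P : ZFSet.{0}) : Prop :=
  ∀ A ∈ N, A ⊆ P → (∀ a ∈ A, ∀ b ∈ A, a ≠ b → ∀ q ∈ P, a ⊆ q → ¬ b ⊆ q) → Ctb N A

/-- The cumulative hierarchy of `M`. -/
def Lv (M : Set ZFSet.{0}) (α : Ordinal.{0}) : Set ZFSet.{0} := {x | x ∈ M ∧ x.rank < α}

/-- `e` is an elementary embedding from `(A, ∈)` to `(B, ∈)`. -/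
structure Elem (A B : Set ZFSet.{0}) (e : ZFSet.{0} → ZFSet.{0}) : Prop where
  map : ∀ x ∈ A, e x ∈ B
  sat : ∀ (φ : Fml) (f : ℕ → A), Sat (SMem A) φ f ↔ Sat (SMem B) φ (fun i => ⟨e (f i).1, map _ (f i).2⟩)

end Pool.Agent.H7.IG
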