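import Pool.Agent.H7.IG.ItD

/-!
# IG, Part 2: amalgamation in the iteration (combinatorics, no model)

`q_down`: for `p ∈ Q` and `β ∈ Λ` (or any ordinal) the restriction of `p` to `β` is in `Q`: for `γ ∈ dom p`, `γ < β` the condition
for `γ` only depends on `p|γ` and `p(γ)`.
`amalg`: `A` arbitrary, `p, r ∈ Q`, `Dm r A`, and every `(β, x) ∈ p` with `β ∈ A` is in `r`. Then `p ∪ r ∈ Q`. Proof: let `u = p ∪ r`.
Show by induction on `β ∈ Λ` that the restriction `u|β` is in `Q`, then `u ∈ Q`: for `γ ∈ dom u`: if `γ ∈ A` then `u(γ) = r(γ)`, and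
`r|γ ⊆ u|γ`, so the condition for `u` at `γ` follows from the one for `r` (it is a statement about all `q ⊇ r|γ`);
if `γ ∉ A` then `u(γ) = p(γ)`, `p|γ ⊆ u|γ`, use the condition for `p`. (`Λ` is an ordinal; use `Ordinal`-induction or
`ZFSet` epsilon-induction.)
-/

set_option autoImplicit false
set_option linter.unusedVariables false
set_option linter.unusedSectionVars false
set_option linter.unusedSimpArgs false
set_option linter.unusedTactic false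
set_option linter.unreachableTactic false

namespace Pool.Agent.H7.IG

open Pool.Agent.H17.Omega Pool.Agent.H17.Omega.CTM Pool.Agent.H52.GX Pool.Agent.H52.GC

variable {δ Λ : Ordinal.{0}} {𝓡 Q 𝓕 : ZFSet.{0}}

theorem itA_fin {a b : ZFSet.{0}} (ha : FinZ a) (h : b ⊆ a) : FinZ b := by
  classical
  obtain ⟨s, hs⟩ := ha
  refine ⟨s.filter (fun z => z ∈ b), fun z => ?_⟩
  rw [Finset.mem_filter]
  exact ⟨fun hz => ⟨(hs z).1 (h hz), hz⟩, fun hz => hz.2⟩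

theorem itA_union {a b : ZFSet.{0}} (ha : FinZ a) (hb : FinZ b) : FinZ (a ∪ b) := by
  classical
  obtain ⟨s, hs⟩ := ha
  obtain ⟨t, ht⟩ := hb
  refine ⟨s ∪ t, fun z => ?_⟩
  rw [ZFSet.mem_union, Finset.mem_union, hs, ht]

theorem itA_rs_sub {g a : ZFSet.{0}} : rs g a ⊆ g := fun z hz => by
  rw [rs, ZFSet.mem_sep] at hz
  exact hz.1

theorem itA_lb {δ 𝓡 Q β p p' q' z : ZFSet.{0}} (h : LbF δ 𝓡 Q β p q' z)
    (hp : ∀ y ∈ δ, ZFSet.pair β y ∈ p' → ZFSet.pair β y ∈ p) : LbF δ 𝓡 Q β p' q' z :=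
  fun y hy h1 => h y hy (hp y hy h1)

theorem itA_trans {β : Ordinal.{0}} {γ ξ : ZFSet.{0}} (h1 : γ ∈ β.toZFSet) (h2 : ξ ∈ γ) :
    ξ ∈ β.toZFSet := by
  obtain ⟨γ', hγ', rfl⟩ := Ordinal.mem_toZFSet_iff.1 h1
  obtain ⟨ξ', hξ', rfl⟩ := Ordinal.mem_toZFSet_iff.1 h2
  exact Ordinal.toZFSet_mem_toZFSet_iff.2 (hξ'.trans hγ')

theorem itA_F (hF : FinSub δ.toZFSet Λ.toZFSet 𝓕) {p q : ZFSet.{0}} (hp : p ∈ 𝓕) (h : q ⊆ p) :
    q ∈ 𝓕 := by
  obtain ⟨h1, h2⟩ := (hF p).1 hp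
  exact (hF q).2 ⟨itA_fin h1 h, fun z hz => h2 z (h hz)⟩

theorem IsIt.down (h : IsIt δ.toZFSet Λ.toZFSet 𝓡 Q 𝓕) (hF : FinSub δ.toZFSet Λ.toZFSet 𝓕) {p : ZFSet.{0}}
    (hp : p ∈ Q) {β : Ordinal.{0}} (hβ : β ≤ Λ) : rs p β.toZFSet ∈ Q := by
  have hpF := h.q_sub p hp
  rw [h.q_iff _ (itA_F hF hpF itA_rs_sub)]
  rintro γ hγ ⟨x, hx, hγx⟩
  rw [pair_mem_rs] at hγx
  obtain ⟨p₀, h1, h2, h3, h4, h5⟩ := (h.q_iff p hpF).1 hp γ hγ ⟨x, hx, hγx.2⟩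
  refine ⟨p₀, h1, fun z hz => ?_, h3, fun z hz h6 => h4 z (itA_rs_sub hz) h6, fun q hq h6 h7 => ?_⟩
  · obtain ⟨ξ, hξ, y, hy, rfl⟩ := h3 z hz
    rw [pair_mem_rs]
    exact ⟨itA_trans hγx.1 hξ, h2 hz⟩
  · obtain ⟨q', h8, h9, h10, z, hz, h11⟩ := h5 q hq h6 h7
    exact ⟨q', h8, h9, h10, z, hz, itA_lb h11 fun y _ h12 => itA_rs_sub h12⟩

theorem IsIt.amalg (h : IsIt δ.toZFSet Λ.toZFSet 𝓡 Q 𝓕) (hF : FinSub δ.toZFSet Λ.toZFSet 𝓕)
    {p r A : ZFSet.{0}} (hp : p ∈ Q) (hr : r ∈ Q) (hrA : Dm δ.toZFSet r A)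
    (hpr : ∀ β ∈ A, ∀ x, ZFSet.pair β x ∈ p → ZFSet.pair β x ∈ r) : p ∪ r ∈ Q := by
  have hpF := h.q_sub p hp
  have hrF := h.q_sub r hr
  obtain ⟨p1, p2⟩ := (hF p).1 hpF
  obtain ⟨r1, r2⟩ := (hF r).1 hrF
  have hu2 : Dm δ.toZFSet (p ∪ r) Λ.toZFSet := by
    intro z hz
    rcases ZFSet.mem_union.1 hz with h1 | h1
    · exact p2 z h1
    · exact r2 z h1
  have huF : p ∪ r ∈ 𝓕 := (hF _).2 ⟨itA_union p1 r1, hu2⟩
  have key : ∀ β : Ordinal.{0}, β ≤ Λ → rs (p ∪ r) β.toZFSet ∈ Q := by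
    intro β
    induction β using WellFoundedLT.induction with
    | ind β ih =>
      intro hβ
      rw [h.q_iff _ (itA_F hF huF itA_rs_sub)]
      rintro γ hγ ⟨x, hx, hγx⟩
      rw [pair_mem_rs] at hγx
      obtain ⟨γ', hγ', rfl⟩ := Ordinal.mem_toZFSet_iff.1 hγx.1
      refine ⟨rs (p ∪ r) γ'.toZFSet, ih γ' hγ' (hγ'.le.trans hβ), fun z hz => ?_, fun z hz => ?_,
        fun z hz h6 => ?_, fun q hq h6 h7 => ?_⟩
      · obtain ⟨ξ, hξ, y, hy, rfl⟩ := hu2 z (itA_rs_sub hz)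
        rw [pair_mem_rs] at hz ⊢
        exact ⟨itA_trans hγx.1 hz.1, hz.2⟩
      · obtain ⟨ξ, hξ, y, hy, rfl⟩ := hu2 z (itA_rs_sub hz)
        rw [pair_mem_rs] at hz
        exact ⟨ξ, hz.1, y, hy, rfl⟩
      · obtain ⟨ξ, hξ, y, hy, rfl⟩ := h6
        rw [pair_mem_rs] at hz ⊢
        exact ⟨hξ, hz.2⟩
      · have hmain : ∀ s ∈ Q, s ∈ 𝓕 → s ⊆ p ∪ r → ZFSet.pair γ'.toZFSet x ∈ s →
            (∀ y, ZFSet.pair γ'.toZFSet y ∈ p ∪ r → ZFSet.pair γ'.toZFSet y ∈ s) →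
            ∃ q' ∈ Q, Dm δ.toZFSet q' γ'.toZFSet ∧ q ⊆ q' ∧
              ∃ z ∈ δ.toZFSet, LbF δ.toZFSet 𝓡 Q γ'.toZFSet (rs (p ∪ r) β.toZFSet) q' z := by
          intro s hs hsF hsu hxs hall
          obtain ⟨s₀, h1, h2, h3, h4, h5⟩ := (h.q_iff s hsF).1 hs _ hγ ⟨x, hx, hxs⟩
          have h8 : s₀ ⊆ q := by
            intro z hz
            apply h7
            obtain ⟨ξ, hξ, y, hy, rfl⟩ := h3 z hz
            rw [pair_mem_rs]
            exact ⟨hξ, hsu (h2 hz)⟩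
          obtain ⟨q', h9, h10, h11, z, hz, h12⟩ := h5 q hq h6 h8
          exact ⟨q', h9, h10, h11, z, hz, itA_lb h12 fun y _ h13 => hall y (itA_rs_sub h13)⟩
        by_cases hA : γ'.toZFSet ∈ A
        · have hall : ∀ y, ZFSet.pair γ'.toZFSet y ∈ p ∪ r → ZFSet.pair γ'.toZFSet y ∈ r := by
            intro y hy
            rcases ZFSet.mem_union.1 hy with h1 | h1
            · exact hpr _ hA y h1
            · exact h1
          exact hmain r hr hrF (fun z hz => ZFSet.mem_union.2 (Or.inr hz)) (hall x hγx.2) hall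
        · have hall : ∀ y, ZFSet.pair γ'.toZFSet y ∈ p ∪ r → ZFSet.pair γ'.toZFSet y ∈ p := by
            intro y hy
            rcases ZFSet.mem_union.1 hy with h1 | h1
            · exact h1
            · exfalso
              obtain ⟨ξ, hξ, y', hy', he⟩ := hrA _ h1
              rw [ZFSet.pair_inj] at he
              rw [← he.1] at hξ
              exact hA hξ
          exact hmain p hp hpF (fun z hz => ZFSet.mem_union.2 (Or.inl hz)) (hall x hγx.2) hall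
  have hΛ := key Λ le_rfl
  have e : rs (p ∪ r) Λ.toZFSet = p ∪ r := by
    ext z
    constructor
    · exact fun hz => itA_rs_sub hz
    · intro hz
      obtain ⟨ξ, hξ, y, hy, rfl⟩ := hu2 z hz
      exact pair_mem_rs.2 ⟨hξ, hz⟩
  rwa [e] at hΛ

end Pool.Agent.H7.IG
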