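import Pool.Agent.H7.IG.ItD

/-!
# IG, Part 2: the definition of the iteration is uniformly definable in transitive structures

`ud_R4`: `∃ w ∈ 𝓡, ∃ s t : N, w = (s, t) ∧ s = (β, z) ∧ t = (y, p)`; `s, t` are in `N` by transitivity. Then paste the block of
UD.lean and use `UD.sub1 ...`-style substitution (`UD.sub5` of J1, or use `UD.shift` directly) for
`R4`, `Dm`, `LbF`. For `w = ((β, z), (y, p))` in `nm` proceed as for `R4`.
-/

set_option autoImplicit false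
set_option linter.unusedVariables false
set_option linter.unusedSectionVars false
set_option linter.unusedSimpArgs false
set_option linter.unusedTactic false
set_option linter.unreachableTactic false

namespace Pool.Agent.H7.IG

open Pool.Agent.H17.Omega Pool.Agent.H17.Omega.CTM Pool.Agent.H52.GX Pool.Agent.H52.GC

theorem ud_Dm : UD TraC (fun N (v : Fin 3 → N) => Dm (v 0).1 (v 1).1 (v 2).1) := by
  unfold Dm
  (repeat' first
      | exact UT.var _ | exact UT.last | assumption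
      | refine UD.pairMem ?_ ?_ ?_ | refine UD.isPair ?_ ?_ ?_ | refine UD.mem ?_ ?_
      | refine UD.eqv ?_ ?_ | refine UD.eq ?_ ?_ | refine UD.subset ?_ ?_
      | refine UD.isEmpty ?_ | refine UD.isTrans ?_ | refine UD.isOrd ?_ | refine UD.isNat ?_
      | refine UD.isUpair ?_ ?_ ?_ | refine UD.isInsert ?_ ?_ ?_ | refine UD.isUnion ?_ ?_ ?_
      | refine UD.and ?_ ?_ | refine UD.or ?_ ?_ | refine UD.iff ?_ ?_ | refine UD.not ?_
      | refine UD.imp ?_ ?_ | refine UD.all ?_ | refine UD.ex ?_ | exact UD.false' | exact UD.true'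
      | refine UD.ball ?_ ?_ | refine UD.bex ?_ ?_)

theorem pairMem_tra {N : Set ZFSet.{0}} (hN : Tra N) {a b : ZFSet.{0}} (h : ZFSet.pair a b ∈ N) : a ∈ N ∧ b ∈ N := by
  rw [pair_eq_upair] at h
  have h1 : ({a, b} : ZFSet.{0}) ∈ N := hN _ h _ (by simp)
  exact ⟨hN _ h1 _ (by simp), hN _ h1 _ (by simp)⟩

/-- Substitution of five terms. -/
theorem ituSub5 {𝒞 : Set (Set ZFSet.{0})} {n : ℕ} {s t r q u : (N : Set ZFSet.{0}) → (Fin n → N) → N}
    {P : (N : Set ZFSet.{0}) → N → N → N → N → N → Prop}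
    (h : UD 𝒞 (fun N (v : Fin 5 → N) => P N (v 0) (v 1) (v 2) (v 3) (v 4)))
    (hs : UT s) (ht : UT t) (hr : UT r) (hq : UT q) (hu : UT u) :
    UD 𝒞 (fun N v => P N (s N v) (t N v) (r N v) (q N v) (u N v)) := by
  have h1 := h.shift n
  refine (UD.ex (P := fun N v x => ∃ y, ∃ z, ∃ w, ∃ w', x = s N v ∧ y = t N v ∧ z = r N v ∧ w = q N v ∧ w' = u N v ∧
    P N x y z w w')
    (UD.ex (UD.ex (UD.ex (UD.ex ((UD.eq (UT.var _) hs.lift.lift.lift.lift.lift).and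
    ((UD.eq (UT.var _) ht.lift.lift.lift.lift.lift).and ((UD.eq (UT.var _) hr.lift.lift.lift.lift.lift).and
    ((UD.eq (UT.var _) hq.lift.lift.lift.lift.lift).and
    ((UD.eq (UT.var _) hu.lift.lift.lift.lift.lift).and ?_)))))))))).congr fun N _ v => ?_
  · exact h1
  · constructor
    · rintro ⟨x, y, z, w, w', rfl, rfl, rfl, rfl, rfl, h⟩; exact h
    · intro h; exact ⟨_, _, _, _, _, rfl, rfl, rfl, rfl, rfl, h⟩

theorem ud_R4 : UD TraC (fun N (v : Fin 5 → N) => R4 (v 0).1 (v 1).1 (v 2).1 (v 3).1 (v 4).1) := by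
  have h : UD TraC (fun N (v : Fin 5 → N) => ∃ s t : N, s.1 = ZFSet.pair (v 1).1 (v 2).1 ∧
      t.1 = ZFSet.pair (v 3).1 (v 4).1 ∧ ZFSet.pair s.1 t.1 ∈ (v 0).1) := by
    (repeat' first
      | exact UT.var _ | exact UT.last | assumption
      | refine UD.pairMem ?_ ?_ ?_ | refine UD.isPair ?_ ?_ ?_ | refine UD.mem ?_ ?_
      | refine UD.eqv ?_ ?_ | refine UD.eq ?_ ?_ | refine UD.subset ?_ ?_
      | refine UD.isEmpty ?_ | refine UD.isTrans ?_ | refine UD.isOrd ?_ | refine UD.isNat ?_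
      | refine UD.isUpair ?_ ?_ ?_ | refine UD.isInsert ?_ ?_ ?_ | refine UD.isUnion ?_ ?_ ?_
      | refine UD.and ?_ ?_ | refine UD.or ?_ ?_ | refine UD.iff ?_ ?_ | refine UD.not ?_
      | refine UD.imp ?_ ?_ | refine UD.all ?_ | refine UD.ex ?_ | exact UD.false' | exact UD.true'
      | refine UD.ball ?_ ?_ | refine UD.bex ?_ ?_)
  refine h.congr fun N hN v => ?_
  unfold R4
  constructor
  · rintro ⟨s, t, hs, ht, h⟩
    rwa [hs, ht] at h
  · intro h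
    have h1 := pairMem_tra hN (hN _ (v 0).2 _ h)
    exact ⟨⟨_, h1.1⟩, ⟨_, h1.2⟩, rfl, rfl, h⟩

/-- `w` is the quadruple `((β, z), (y, p))`. -/
theorem ud_Q4 : UD TraC (fun N (v : Fin 5 → N) => (v 0).1 = ZFSet.pair (ZFSet.pair (v 1).1 (v 2).1)
    (ZFSet.pair (v 3).1 (v 4).1)) := by
  have h : UD TraC (fun N (v : Fin 5 → N) => ∃ s t : N, s.1 = ZFSet.pair (v 1).1 (v 2).1 ∧
      t.1 = ZFSet.pair (v 3).1 (v 4).1 ∧ (v 0).1 = ZFSet.pair s.1 t.1) := by
    (repeat' first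
      | exact UT.var _ | exact UT.last | assumption
      | refine UD.pairMem ?_ ?_ ?_ | refine UD.isPair ?_ ?_ ?_ | refine UD.mem ?_ ?_
      | refine UD.eqv ?_ ?_ | refine UD.eq ?_ ?_ | refine UD.subset ?_ ?_
      | refine UD.isEmpty ?_ | refine UD.isTrans ?_ | refine UD.isOrd ?_ | refine UD.isNat ?_
      | refine UD.isUpair ?_ ?_ ?_ | refine UD.isInsert ?_ ?_ ?_ | refine UD.isUnion ?_ ?_ ?_
      | refine UD.and ?_ ?_ | refine UD.or ?_ ?_ | refine UD.iff ?_ ?_ | refine UD.not ?_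
      | refine UD.imp ?_ ?_ | refine UD.all ?_ | refine UD.ex ?_ | exact UD.false' | exact UD.true'
      | refine UD.ball ?_ ?_ | refine UD.bex ?_ ?_)
  refine h.congr fun N hN v => ?_
  constructor
  · rintro ⟨s, t, hs, ht, h⟩
    rwa [hs, ht] at h
  · intro h
    have h2 := (v 0).2
    rw [h] at h2
    have h1 := pairMem_tra hN h2
    exact ⟨⟨_, h1.1⟩, ⟨_, h1.2⟩, rfl, rfl, h⟩

/-- Substitution of seven terms. -/
theorem ituSub7 {𝒞 : Set (Set ZFSet.{0})} {n : ℕ} {s t r q u k l : (N : Set ZFSet.{0}) → (Fin n → N) → N}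
    {P : (N : Set ZFSet.{0}) → N → N → N → N → N → N → N → Prop}
    (h : UD 𝒞 (fun N (v : Fin 7 → N) => P N (v 0) (v 1) (v 2) (v 3) (v 4) (v 5) (v 6)))
    (hs : UT s) (ht : UT t) (hr : UT r) (hq : UT q) (hu : UT u) (hk : UT k) (hl : UT l) :
    UD 𝒞 (fun N v => P N (s N v) (t N v) (r N v) (q N v) (u N v) (k N v) (l N v)) := by
  have h1 := h.shift n
  refine (UD.ex (P := fun N v x => ∃ y, ∃ z, ∃ w, ∃ w', ∃ a, ∃ b, x = s N v ∧ y = t N v ∧ z = r N v ∧ w = q N v ∧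
    w' = u N v ∧ a = k N v ∧ b = l N v ∧ P N x y z w w' a b)
    (UD.ex (UD.ex (UD.ex (UD.ex (UD.ex (UD.ex ((UD.eq (UT.var _) hs.lift.lift.lift.lift.lift.lift.lift).and
    ((UD.eq (UT.var _) ht.lift.lift.lift.lift.lift.lift.lift).and
    ((UD.eq (UT.var _) hr.lift.lift.lift.lift.lift.lift.lift).and
    ((UD.eq (UT.var _) hq.lift.lift.lift.lift.lift.lift.lift).and
    ((UD.eq (UT.var _) hu.lift.lift.lift.lift.lift.lift.lift).and
    ((UD.eq (UT.var _) hk.lift.lift.lift.lift.lift.lift.lift).and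
    ((UD.eq (UT.var _) hl.lift.lift.lift.lift.lift.lift.lift).and ?_)))))))))))))).congr fun N _ v => ?_
  · exact h1
  · constructor
    · rintro ⟨x, y, z, w, w', a, b, rfl, rfl, rfl, rfl, rfl, rfl, rfl, h⟩; exact h
    · intro h; exact ⟨_, _, _, _, _, _, _, rfl, rfl, rfl, rfl, rfl, rfl, rfl, h⟩

theorem ud_LbF : UD TraC (fun N (v : Fin 7 → N) => LbF (v 0).1 (v 1).1 (v 2).1 (v 3).1 (v 4).1 (v 5).1 (v 6).1) := by
  unfold LbF
  (repeat' first
      | exact UT.var _ | exact UT.last | assumption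
      | refine UD.pairMem ?_ ?_ ?_ | refine UD.isPair ?_ ?_ ?_ | refine UD.mem ?_ ?_
      | refine UD.eqv ?_ ?_ | refine UD.eq ?_ ?_ | refine UD.subset ?_ ?_
      | refine UD.isEmpty ?_ | refine UD.isTrans ?_ | refine UD.isOrd ?_ | refine UD.isNat ?_
      | refine UD.isUpair ?_ ?_ ?_ | refine UD.isInsert ?_ ?_ ?_ | refine UD.isUnion ?_ ?_ ?_
      | refine UD.and ?_ ?_ | refine UD.or ?_ ?_ | refine UD.iff ?_ ?_ | refine UD.not ?_
      | refine UD.imp ?_ ?_ | refine UD.all ?_ | refine UD.ex ?_ | exact UD.false' | exact UD.true'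
      | refine UD.ball ?_ ?_ | refine UD.bex ?_ ?_
      | exact UD.sub3 (P := fun N a b c => Dm a.1 b.1 c.1) ud_Dm (UT.var _) (UT.var _) (UT.var _)
      | exact ituSub5 (P := fun N a b c d e => R4 a.1 b.1 c.1 d.1 e.1) ud_R4 (UT.var _) (UT.var _) (UT.var _)
          (UT.var _) (UT.var _))

theorem ud_IsIt : UD TraC (fun N (v : Fin 5 → N) => IsIt (v 0).1 (v 1).1 (v 2).1 (v 3).1 (v 4).1) := by
  have h : UD TraC (fun N (v : Fin 5 → N) => (∀ p ∈ (v 3).1, p ∈ (v 4).1) ∧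
      (∀ p ∈ (v 4).1, p ∈ (v 3).1 ↔ ∀ β ∈ (v 1).1, (∃ x ∈ (v 0).1, ZFSet.pair β x ∈ p) →
        ∃ p₀ ∈ (v 3).1, p₀ ⊆ p ∧ Dm (v 0).1 p₀ β ∧
        (∀ z ∈ p, (∃ γ ∈ β, ∃ x ∈ (v 0).1, z = ZFSet.pair γ x) → z ∈ p₀) ∧
        ∀ q ∈ (v 3).1, Dm (v 0).1 q β → p₀ ⊆ q → ∃ q' ∈ (v 3).1, Dm (v 0).1 q' β ∧ q ⊆ q' ∧
          ∃ z ∈ (v 0).1, LbF (v 0).1 (v 2).1 (v 3).1 β p q' z) ∧
      (∀ w ∈ (v 2).1, ∃ β ∈ (v 1).1, ∃ z ∈ (v 0).1, ∃ y ∈ (v 0).1, ∃ p ∈ (v 3).1, Dm (v 0).1 p β ∧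
        w = ZFSet.pair (ZFSet.pair β z) (ZFSet.pair y p))) := by
    (repeat' first
      | exact UT.var _ | exact UT.last | assumption
      | exact ituSub7 (P := fun N a b c d e f g => LbF a.1 b.1 c.1 d.1 e.1 f.1 g.1) ud_LbF (UT.var _) (UT.var _)
          (UT.var _) (UT.var _) (UT.var _) (UT.var _) (UT.var _)
      | refine UD.pairMem ?_ ?_ ?_ | refine UD.isPair ?_ ?_ ?_ | refine UD.mem ?_ ?_
      | refine UD.eqv ?_ ?_ | refine UD.eq ?_ ?_ | refine UD.subset ?_ ?_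
      | refine UD.isEmpty ?_ | refine UD.isTrans ?_ | refine UD.isOrd ?_ | refine UD.isNat ?_
      | refine UD.isUpair ?_ ?_ ?_ | refine UD.isInsert ?_ ?_ ?_ | refine UD.isUnion ?_ ?_ ?_
      | refine UD.and ?_ ?_ | refine UD.or ?_ ?_ | refine UD.iff ?_ ?_ | refine UD.not ?_
      | refine UD.imp ?_ ?_ | refine UD.all ?_ | refine UD.ex ?_ | exact UD.false' | exact UD.true'
      | refine UD.ball ?_ ?_ | refine UD.bex ?_ ?_
      | exact UD.sub3 (P := fun N a b c => Dm a.1 b.1 c.1) ud_Dm (UT.var _) (UT.var _) (UT.var _)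
      | exact ituSub5 (P := fun N a b c d e => a.1 = ZFSet.pair (ZFSet.pair b.1 c.1) (ZFSet.pair d.1 e.1)) ud_Q4
          (UT.var _) (UT.var _) (UT.var _) (UT.var _) (UT.var _))
  exact h.congr fun N _ v => ⟨fun h => ⟨h.1, h.2.1, h.2.2⟩, fun h => ⟨h.q_sub, h.q_iff, h.nm⟩⟩

end Pool.Agent.H7.IG
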