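import Pool.Agent.H7.IG.Gx1

/-!
# IG: the forcing relation `Frc`

`Frc.truth`, `Frc.dfn`: let `θ` define `Ψ` in all ctms; replace ground elements by check names (`exists_check`,
H52/GX/Names: a definable `F : M → M` with `ev c G (F x) = x`); with the bridge `exists_bridge`,
`Frc M P Ψ p a ↔ Fc M c θ f q` for `c q = p` and `f : ℕ → M` the assignment of the names (`Fc.iff_generic`;
the truth of `θ` in `M[G]` only depends on the first `n` values); then `truth` and `Fc.dfn` (H52/GX/Truth).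
If `p ∉ P` then `Frc M P Ψ p a` holds trivially. In `Frc.dfn` the check name function is eliminated by
`∃ y, F x = y ∧ ...` (finitely many quantifiers, one for each `i : Fin n`; e.g. first a lemma: if
`hM.Dfn (fun v : Fin (k + n) → M => ...)` then one may substitute a vector of definable functions; or treat
all arguments as names first and then replace the arguments one by one).
-/

set_option autoImplicit false
set_option linter.unusedVariables false
set_option linter.unusedSectionVars false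
set_option linter.unusedSimpArgs false
set_option linter.unusedTactic false
set_option linter.unreachableTactic false

namespace Pool.Agent.H7.IG

open Pool.Agent.H17.Omega Pool.Agent.H17.Omega.CTM Pool.Agent.H52.GX Pool.Agent.H52.GC

variable {M : Set ZFSet.{0}} {P G : ZFSet.{0}}

/-! ## The forcing relation -/

/-- Terms for the arguments of `Frc`. -/
def AT {hM : CTM M} {k : ℕ} (a : (Fin k → M) → Ar M) : Prop :=
  (∃ s : (Fin k → M) → M, hM.DT s ∧ a = fun v => Ar.g (s v)) ∨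
    ∃ s : (Fin k → M) → M, hM.DT s ∧ a = fun v => Ar.n (s v)

theorem AT.g {hM : CTM M} {k : ℕ} {s : (Fin k → M) → M} (h : hM.DT s) : AT (hM := hM) (fun v => Ar.g (s v)) :=
  Or.inl ⟨s, h, rfl⟩

theorem AT.n {hM : CTM M} {k : ℕ} {s : (Fin k → M) → M} (h : hM.DT s) : AT (hM := hM) (fun v => Ar.n (s v)) :=
  Or.inr ⟨s, h, rfl⟩

/-! ## Auxiliary definability lemmas -/

section Aux

variable {hM : CTM M}

theorem DT.castA {k : ℕ} {s : (Fin k → M) → M} (h : hM.DT s) (n : ℕ) :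
    hM.DT (fun v : Fin (k + n) → M => s (fun i => v (Fin.castAdd n i))) := by
  obtain ⟨j, hj⟩ := h
  exact ⟨j, fun v f hf => hj _ _ ⟨fun i => hf.1 (Fin.castAdd n i), hf.2⟩⟩

/-- Several existential quantifiers. -/
theorem Dfn.exN {k : ℕ} : ∀ {m : ℕ} {R : (Fin k → M) → (Fin m → M) → Prop},
    hM.Dfn (fun u : Fin (k + m) → M => R (fun i => u (Fin.castAdd m i)) (fun i => u (Fin.natAdd k i))) →
    hM.Dfn (fun v : Fin k → M => ∃ w : Fin m → M, R v w) := by
  intro m
  induction m with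
  | zero =>
    intro R h
    refine Dfn.congr (fun v => ?_) h
    constructor
    · intro h1
      exact ⟨_, h1⟩
    · rintro ⟨w, h1⟩
      have h2 : ∀ w' : Fin 0 → M, R v w' := fun w' => (Subsingleton.elim w w') ▸ h1
      exact h2 _
  | succ m ih =>
    intro R h
    have h1 : hM.Dfn (fun v : Fin k → M => ∃ w : Fin m → M, ∃ z : M,
        R v (Fin.snoc (α := fun _ => M) w z)) := by
      refine ih (R := fun v w => ∃ z : M, R v (Fin.snoc (α := fun _ => M) w z)) (Dfn.ex ?_)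
      refine Dfn.congr (fun u => ?_) h
      have h2 : (Fin.snoc (α := fun _ => M) (fun i : Fin m => u ((Fin.natAdd k i).castSucc))
          (u (Fin.last (k + m))) : Fin (m + 1) → M) = fun i => u (Fin.natAdd k i) := by
        funext i
        refine Fin.lastCases ?_ (fun i => ?_) i
        · rw [Fin.snoc_last]; rfl
        · rw [Fin.snoc_castSucc]; rfl
      rw [h2]
      exact Iff.rfl
    refine Dfn.congr (fun v => ?_) h1
    constructor
    · rintro ⟨w, z, h2⟩; exact ⟨_, h2⟩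
    · rintro ⟨w, h2⟩
      refine ⟨fun i => w i.castSucc, w (Fin.last m), ?_⟩
      have h3 : (Fin.snoc (α := fun _ => M) (fun i : Fin m => w i.castSucc) (w (Fin.last m)) :
          Fin (m + 1) → M) = w := by
        funext i
        refine Fin.lastCases ?_ (fun i => ?_) i
        · rw [Fin.snoc_last]
        · rw [Fin.snoc_castSucc]
      rw [h3]
      exact h2

/-- Finite conjunctions. -/
theorem Dfn.allFin {k : ℕ} : ∀ {m : ℕ} {P : Fin m → (Fin k → M) → Prop}, (∀ i, hM.Dfn (P i)) →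
    hM.Dfn (fun v => ∀ i, P i v) := by
  intro m
  induction m with
  | zero => intro P h; exact Dfn.congr (fun v => ⟨fun _ i => i.elim0, fun _ => trivial⟩) (Dfn.const True)
  | succ m ih =>
    intro P h
    refine Dfn.congr (fun v => ?_) ((ih fun i => h i.castSucc).and (h (Fin.last m)))
    constructor
    · rintro ⟨h1, h2⟩ i
      exact Fin.lastCases h2 h1 i
    · intro h1
      exact ⟨fun i => h1 _, h1 _⟩

end Aux

open Classical in
/-- Extension of a finite tuple to a sequence. -/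
noncomputable def extN {n : ℕ} (d : M) (w : Fin n → M) (j : ℕ) : M := if h : j < n then w ⟨j, h⟩ else d

theorem extN_lt {n : ℕ} (d : M) (w : Fin n → M) (i : Fin n) : extN d w i = w i := by
  rw [extN, dif_pos i.2]

/-- `y` is a name for the value of the argument. -/
def NmR (F : M → M) : Ar M → M → Prop
  | .g x, y => F x = y
  | .n τ, y => τ = y

/-- The canonical name of an argument. -/
def nmA (F : M → M) : Ar M → M
  | .g x => F x
  | .n τ => τ

theorem nmR_iff {F : M → M} {x : Ar M} {y : M} : NmR F x y ↔ nmA F x = y := by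
  cases x <;> exact Iff.rfl

/-- The semantic forcing relation is the syntactic one. -/
theorem exists_frc {n : ℕ} {Ψ : (N : Set ZFSet.{0}) → (Fin n → N) → Prop} (hΨ : UD CtmC Ψ) (hM : CTM M)
    (hP : P ∈ M) : ∃ (Q : Type) (_ : PartialOrder Q) (c : Q → ZFSet.{0}) (R : ZFSet.{0}) (P' : ZFSet.{0})
      (θ : Fml) (F : M → M), PR M c P' R ∧ (∀ z, z ∈ P ↔ ∃ q, z = c q) ∧
      hM.Dfn (fun v : Fin 2 → M => F (v 0) = v 1) ∧
      (∀ q a, Frc M P Ψ (c q) a ↔ Fc M c θ (extN ⟨P, hP⟩ fun i => nmA F (a i)) q) ∧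
      ∀ G, Gen M P G → ∀ (a : Fin n → Ar M) (v : Fin n → Xt M G), (∀ i, (v i).1 = (a i).v G) →
        (Ψ (Xt M G) v ↔ ∃ q, c q ∈ G ∧ Fc M c θ (extN ⟨P, hP⟩ fun i => nmA F (a i)) q) := by
  obtain ⟨Q, _, c, hQ, hcP, hle, hev, hgen⟩ := exists_bridge hM hP
  obtain ⟨P', R, hPR⟩ := hQ.exists_PR
  obtain ⟨F, hF, hF'⟩ := exists_check hM hPR
  obtain ⟨θ, hθ⟩ := hΨ
  have hinj : ∀ p q : Q, c p = c q → p = q := fun p q h =>
    le_antisymm ((hle p q).2 (h ▸ fun _ h => h)) ((hle q p).2 (h ▸ fun _ h => h))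
  have hXt : ∀ G, Gen M P G → Ext M c {q | c q ∈ G} = Xt M G := by
    intro G hG
    have h1 : ∀ τ, ev c {q | c q ∈ G} τ = vl G τ := hev G hG.sub
    ext z
    constructor
    · rintro ⟨τ, hτ, rfl⟩; exact ⟨τ, hτ, (h1 τ).symm⟩
    · rintro ⟨τ, hτ, rfl⟩; exact ⟨τ, hτ, h1 τ⟩
  have hval : ∀ G, Gen M P G → ∀ x : Ar M, vl G (nmA F x).1 = x.v G := by
    intro G hG x
    have h1 : ∀ τ, ev c {q | c q ∈ G} τ = vl G τ := hev G hG.sub
    cases x with
    | g x =>
      show vl G (F x).1 = x.1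
      rw [← h1]
      refine hF' x _ ?_
      obtain ⟨p, hp⟩ := hG.ne
      obtain ⟨q, rfl⟩ := (hcP p).1 (hG.sub p hp)
      exact ⟨q, hp⟩
    | n τ => rfl
  -- satisfaction in `M[G]`
  have key : ∀ G (hG : Gen M P G) (a : Fin n → Ar M) (v : Fin n → Xt M G), (∀ i, (v i).1 = (a i).v G) →
      (Ψ (Xt M G) v ↔ Sat (SMem (Ext M c {q | c q ∈ G})) θ
        (fun i => evE M c {q | c q ∈ G} (extN ⟨P, hP⟩ (fun i => nmA F (a i)) i))) := by
    intro G hG a v hv
    have hctm : CTM (Xt M G) := by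
      rw [← hXt G hG]
      exact ctm_Ext hM hQ ((hgen G hG.sub).1 hG)
    have hgo : ∀ (N : Set ZFSet.{0}) (hN : N = Ext M c {q | c q ∈ G}) (g : ℕ → N),
        (∀ i, (g i).1 = ev c {q | c q ∈ G} (extN ⟨P, hP⟩ (fun i => nmA F (a i)) i).1) →
        (Sat (SMem N) θ g ↔ Sat (SMem (Ext M c {q | c q ∈ G})) θ
          (fun i => evE M c {q | c q ∈ G} (extN ⟨P, hP⟩ (fun i => nmA F (a i)) i))) := by
      intro N hN g hg
      subst hN
      have : g = fun i => evE M c {q | c q ∈ G} (extN ⟨P, hP⟩ (fun i => nmA F (a i)) i) :=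
        funext fun i => Subtype.ext (hg i)
      rw [this]
    have h1 : ∀ τ, ev c {q | c q ∈ G} τ = vl G τ := hev G hG.sub
    let g : ℕ → Xt M G := fun i => ⟨vl G (extN ⟨P, hP⟩ (fun i => nmA F (a i)) i).1, _, Subtype.mem _, rfl⟩
    rw [← hgo (Xt M G) (hXt G hG).symm g fun i => (h1 _).symm]
    symm
    refine hθ (Xt M G) hctm v g fun i => Subtype.ext ?_
    show vl G (extN ⟨P, hP⟩ (fun i => nmA F (a i)) i).1 = (v i).1
    rw [extN_lt, hval G hG, hv]
  refine ⟨Q, _, c, R, P', θ, F, hPR, hcP, hF, fun q a => ?_, fun G hG a v hv => ?_⟩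
  · rw [Fc.iff_generic hM hQ]
    constructor
    · intro h G' hG' hq
      -- the set of codes
      let G : ZFSet.{0} := ZFSet.sep (fun z => ∃ q ∈ G', z = c q) P
      have hG1 : ∀ z, z ∈ G ↔ ∃ q ∈ G', z = c q := by
        intro z
        rw [ZFSet.mem_sep]
        exact ⟨fun h => h.2, fun h => ⟨(hcP z).2 (h.imp fun q h => h.2), h⟩⟩
      have hG2 : {q | c q ∈ G} = G' := by
        ext q
        show c q ∈ G ↔ _
        rw [hG1]
        constructor
        · rintro ⟨q', h1, h2⟩; rwa [hinj _ _ h2]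
        · intro h1; exact ⟨q, h1, rfl⟩
      have hGs : ∀ p ∈ G, p ∈ P := fun p hp => (ZFSet.mem_sep.1 hp).1
      have hG : Gen M P G := (hgen G hGs).2 (by rw [hG2]; exact hG')
      have hv : ∀ i, (a i).v G ∈ Xt M G := fun i => ⟨(nmA F (a i)).1, (nmA F (a i)).2, hval G hG (a i)⟩
      have h3 := (key G hG a (fun i => ⟨(a i).v G, hv i⟩) fun i => rfl).1
        (h G hG ((hG1 _).2 ⟨q, hq, rfl⟩) _ fun i => rfl)
      rw [hG2] at h3
      exact h3
    · intro h G hG hq v hv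
      refine (key G hG a v hv).2 (h _ ((hgen G hG.sub).1 hG) hq)
  · rw [key G hG a v hv, truth hM hQ ((hgen G hG.sub).1 hG)]
    rfl

namespace Frc

variable {n : ℕ} {Ψ : (N : Set ZFSet.{0}) → (Fin n → N) → Prop}

theorem mono {p q : ZFSet.{0}} {a : Fin n → Ar M} (h : Frc M P Ψ p a) (hp : p ∈ P) (hpq : p ⊆ q) :
    Frc M P Ψ q a :=
  fun G hG hq v hv => h G hG (hG.up q hq p hp hpq) v hv

/-- The truth lemma. -/
theorem truth (hΨ : UD CtmC Ψ) (hM : CTM M) (hP : P ∈ M) (hG : Gen M P G) (a : Fin n → Ar M)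
    (v : Fin n → Xt M G) (hv : ∀ i, (v i).1 = (a i).v G) : Ψ (Xt M G) v ↔ ∃ p ∈ G, Frc M P Ψ p a := by
  obtain ⟨Q, _, c, R, P', θ, F, hPR, hcP, hF, h1, h2⟩ := exists_frc hΨ hM hP
  rw [h2 G hG a v hv]
  constructor
  · rintro ⟨q, hq, h3⟩
    exact ⟨c q, hq, (h1 q a).2 h3⟩
  · rintro ⟨p, hp, h3⟩
    obtain ⟨q, rfl⟩ := (hcP p).1 (hG.sub p hp)
    exact ⟨q, hp, (h1 q a).1 h3⟩

/-- Definability of the forcing relation. -/
theorem dfn (hΨ : UD CtmC Ψ) {hM : CTM M} (hP : P ∈ M) {k : ℕ} {s : (Fin k → M) → M} (hs : hM.DT s)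
    {a : Fin n → (Fin k → M) → Ar M} (ha : ∀ i, AT (hM := hM) (a i)) :
    hM.Dfn (fun v => Frc M P Ψ (s v).1 (fun i => a i v)) := by
  obtain ⟨Q, _, c, R, P', θ, F, hPR, hcP, hF, h1, h2⟩ := exists_frc hΨ hM hP
  have hd : hM.Dfn (fun v : Fin k → M => ∃ w : Fin n → M, (∀ i, NmR F (a i v) (w i)) ∧
      ((s v).1 ∈ (⟨P, hP⟩ : M).1 → ∃ q, c q = (s v).1 ∧ Fc M c θ (extN ⟨P, hP⟩ w) q)) := by
    refine Dfn.exN (R := fun v w => (∀ i, NmR F (a i v) (w i)) ∧
      ((s v).1 ∈ (⟨P, hP⟩ : M).1 → ∃ q, c q = (s v).1 ∧ Fc M c θ (extN ⟨P, hP⟩ w) q)) ?_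
    refine (Dfn.allFin fun i => ?_).and ((Dfn.mem (DT.castA hs n) (DT.const _)).imp ?_)
    · rcases ha i with ⟨t, ht, h3⟩ | ⟨t, ht, h3⟩
      · rw [h3]
        exact Dfn.subst2 (P := fun x y => F x = y) hF (DT.castA ht n) (DT.var (Fin.natAdd k i))
      · rw [h3]
        exact Dfn.eq (DT.castA ht n) (DT.var (Fin.natAdd k i))
    · refine Fc.dfn hM hPR θ (fun u : Fin (k + n) → M => s (fun i => u (Fin.castAdd n i)))
        (fun u => extN ⟨P, hP⟩ fun i => u (Fin.natAdd k i)) (DT.castA hs n) fun j => ?_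
      by_cases hj : j < n
      · obtain ⟨l, hl⟩ := DT.var (hN := hM) (n := k + n) (Fin.natAdd k ⟨j, hj⟩)
        refine ⟨l, fun v f hf => ?_⟩
        rw [hl v f hf]
        show _ = extN _ _ j
        rw [extN, dif_pos hj]
      · obtain ⟨l, hl⟩ := DT.const (hN := hM) (n := k + n) (⟨P, hP⟩ : M)
        refine ⟨l, fun v f hf => ?_⟩
        rw [hl v f hf]
        show _ = extN _ _ j
        rw [extN, dif_neg hj]
  refine Dfn.congr (fun v => ?_) hd
  constructor
  · rintro ⟨w, h3, h4⟩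
    have hw : w = fun i => nmA F (a i v) := funext fun i => (nmR_iff.1 (h3 i)).symm
    subst hw
    by_cases hsv : (s v).1 ∈ P
    · obtain ⟨q, hq, h5⟩ := h4 hsv
      rw [← hq]
      exact (h1 q fun i => a i v).2 h5
    · intro G hG hs' 
      exact (hsv (hG.sub _ hs')).elim
  · intro h3
    refine ⟨fun i => nmA F (a i v), fun i => nmR_iff.2 rfl, fun hsv => ?_⟩
    obtain ⟨q, hq⟩ := (hcP _).1 hsv
    refine ⟨q, hq.symm, (h1 q fun i => a i v).1 ?_⟩
    rw [← hq]
    exact h3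

theorem dfn1 {Ψ : (N : Set ZFSet.{0}) → (Fin 1 → N) → Prop} (hΨ : UD CtmC Ψ) {hM : CTM M} (hP : P ∈ M)
    {k : ℕ} {s : (Fin k → M) → M} (hs : hM.DT s) {a : (Fin k → M) → Ar M} (ha : AT (hM := hM) a) :
    hM.Dfn (fun v => Frc M P Ψ (s v).1 ![a v]) := by
  have := dfn hΨ hP hs (a := ![a]) (by intro i; fin_cases i; assumption)
  refine this.congr fun v => ?_
  rw [show (fun i => (![a] : Fin 1 → (Fin k → M) → Ar M) i v) = ![a v] from by
    funext i; fin_cases i; rfl]

theorem dfn2 {Ψ : (N : Set ZFSet.{0}) → (Fin 2 → N) → Prop} (hΨ : UD CtmC Ψ) {hM : CTM M} (hP : P ∈ M)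
    {k : ℕ} {s : (Fin k → M) → M} (hs : hM.DT s) {a b : (Fin k → M) → Ar M} (ha : AT (hM := hM) a)
    (hb : AT (hM := hM) b) : hM.Dfn (fun v => Frc M P Ψ (s v).1 ![a v, b v]) := by
  have := dfn hΨ hP hs (a := ![a, b]) (by intro i; fin_cases i <;> assumption)
  refine this.congr fun v => ?_
  rw [show (fun i => (![a, b] : Fin 2 → (Fin k → M) → Ar M) i v) = ![a v, b v] from by
    funext i; fin_cases i <;> rfl]

theorem dfn3 {Ψ : (N : Set ZFSet.{0}) → (Fin 3 → N) → Prop} (hΨ : UD CtmC Ψ) {hM : CTM M} (hP : P ∈ M)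
    {k : ℕ} {s : (Fin k → M) → M} (hs : hM.DT s) {a b c : (Fin k → M) → Ar M} (ha : AT (hM := hM) a)
    (hb : AT (hM := hM) b) (hc : AT (hM := hM) c) :
    hM.Dfn (fun v => Frc M P Ψ (s v).1 ![a v, b v, c v]) := by
  have := dfn hΨ hP hs (a := ![a, b, c]) (by intro i; fin_cases i <;> assumption)
  refine this.congr fun v => ?_
  rw [show (fun i => (![a, b, c] : Fin 3 → (Fin k → M) → Ar M) i v) = ![a v, b v, c v] from by
    funext i; fin_cases i <;> rfl]

theorem dfn4 {Ψ : (N : Set ZFSet.{0}) → (Fin 4 → N) → Prop} (hΨ : UD CtmC Ψ) {hM : CTM M} (hP : P ∈ M)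
    {k : ℕ} {s : (Fin k → M) → M} (hs : hM.DT s) {a b c d : (Fin k → M) → Ar M} (ha : AT (hM := hM) a)
    (hb : AT (hM := hM) b) (hc : AT (hM := hM) c) (hd : AT (hM := hM) d) :
    hM.Dfn (fun v => Frc M P Ψ (s v).1 ![a v, b v, c v, d v]) := by
  have := dfn hΨ hP hs (a := ![a, b, c, d]) (by intro i; fin_cases i <;> assumption)
  refine this.congr fun v => ?_
  rw [show (fun i => (![a, b, c, d] : Fin 4 → (Fin k → M) → Ar M) i v) = ![a v, b v, c v, d v] from by
    funext i; fin_cases i <;> rfl]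

end Frc

end Pool.Agent.H7.IG
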