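import Pool.Agent.H7.IG.Defs

/-!
# IG: the statements (Martin's axiom, the continuum, guessing models, supercompactness in Magidor's form)

All notions are relative to a model `N` (a countable transitive model of ZFC); `δ` is `ω₁` of `N` and `κ` is
`ω₂` of `N` (`IsOm2 N δ κ`).
-/

set_option autoImplicit false
set_option linter.unusedVariables false
set_option linter.unusedSectionVars false
set_option linter.unusedSimpArgs false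
set_option linter.unusedTactic false
set_option linter.unreachableTactic false

namespace Pool.Agent.H7.IG

open Pool.Agent.H17.Omega Pool.Agent.H17.Omega.CTM Pool.Agent.H52.GX Pool.Agent.H52.GC

/-- `R` is a partial order on `P`; `(p, q) ∈ R` means `p ≤ q`. -/
structure PO (P R : ZFSet.{0}) : Prop where
  sub : ∀ z ∈ R, ∃ p ∈ P, ∃ q ∈ P, z = ZFSet.pair p q
  refl : ∀ p ∈ P, ZFSet.pair p p ∈ R
  trans : ∀ p q r, ZFSet.pair p q ∈ R → ZFSet.pair q r ∈ R → ZFSet.pair p r ∈ R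
  antisymm : ∀ p q, ZFSet.pair p q ∈ R → ZFSet.pair q p ∈ R → p = q

/-- `MA_{ω₁}` holds in `N`: for every ccc partial order `(P, R)` of `N` and every family `D ∈ N` of at most `ω₁`
dense subsets of `P` there is a filter `F ∈ N` on `P` that meets all members of `D`. -/
def MA1 (N : Set ZFSet.{0}) (δ : Ordinal.{0}) : Prop :=
  ∀ P ∈ N, ∀ R ∈ N, PO P R → (∃ p, p ∈ P) →
    (∀ A ∈ N, A ⊆ P → (∀ a ∈ A, ∀ b ∈ A, a ≠ b → ∀ q ∈ P, ZFSet.pair q a ∈ R → ZFSet.pair q b ∉ R) → Ctb N A) →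
    ∀ D ∈ N, Cvr N δ.toZFSet D → (∀ d ∈ D, d ⊆ P ∧ ∀ p ∈ P, ∃ q ∈ d, ZFSet.pair q p ∈ R) →
    ∃ F ∈ N, F ⊆ P ∧ (∃ p, p ∈ F) ∧ (∀ p ∈ F, ∀ q ∈ P, ZFSet.pair p q ∈ R → q ∈ F) ∧
      (∀ p ∈ F, ∀ q ∈ F, ∃ r ∈ F, ZFSet.pair r p ∈ R ∧ ZFSet.pair r q ∈ R) ∧ ∀ d ∈ D, ∃ p ∈ d, p ∈ F

/-- The continuum of `N` is larger than `κ`: no function of `N` maps (a part of) `κ` onto the reals of `N`. -/
def BigC (N : Set ZFSet.{0}) (κ : Ordinal.{0}) : Prop :=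
  ∀ f ∈ N, (∀ x y y', ZFSet.pair x y ∈ f → ZFSet.pair x y' ∈ f → y = y') →
    ∃ r ∈ N, r ⊆ omZ ∧ ∀ x ∈ κ.toZFSet, ZFSet.pair x r ∉ f

/-- `r` is a strict tree order on `δ` (`(x, y) ∈ r` means `x < y`) whose sets of predecessors are countable. -/
structure TreeO (N : Set ZFSet.{0}) (δ : Ordinal.{0}) (r : ZFSet.{0}) : Prop where
  sub : ∀ z ∈ r, ∃ x ∈ δ.toZFSet, ∃ y ∈ δ.toZFSet, z = ZFSet.pair x y
  irrefl : ∀ x, ZFSet.pair x x ∉ r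
  trans : ∀ x y z, ZFSet.pair x y ∈ r → ZFSet.pair y z ∈ r → ZFSet.pair x z ∈ r
  tree : ∀ x y z, ZFSet.pair x z ∈ r → ZFSet.pair y z ∈ r → x = y ∨ ZFSet.pair x y ∈ r ∨ ZFSet.pair y x ∈ r
  ctb : ∀ z ∈ δ.toZFSet, ∀ p ∈ N, (∀ x ∈ p, ZFSet.pair x z ∈ r) → Ctb N p

/-- Every tree on `ω₁` with countable sets of predecessors and without uncountable chains is special. -/
def SP (N : Set ZFSet.{0}) (δ : Ordinal.{0}) : Prop :=
  ∀ r ∈ N, TreeO N δ r →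
    (∀ C ∈ N, C ⊆ δ.toZFSet → (∀ x ∈ C, ∀ y ∈ C, x = y ∨ ZFSet.pair x y ∈ r ∨ ZFSet.pair y x ∈ r) → Ctb N C) →
    ∃ f ∈ N, Fn f δ.toZFSet omZ ∧ ∀ x y n, ZFSet.pair x y ∈ r → ZFSet.pair x n ∈ f → ZFSet.pair y n ∉ f

/-- `X` is an `ω₁`-guessing set in `N`: for `Y ∈ X`, every `A ⊆ Y` with `A ∩ a ∈ X` for all countable `a ∈ X` is
guessed: `A ∩ X = B ∩ X` for some `B ∈ X`. -/
def Guess (N : Set ZFSet.{0}) (X : ZFSet.{0}) : Prop :=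
  ∀ Y ∈ X, ∀ A ∈ N, A ⊆ Y → (∀ a ∈ X, Ctb N a → A ∩ a ∈ X) → ∃ B ∈ X, ∀ x ∈ X, x ∈ A ↔ x ∈ B

/-- `X` is indestructibly `ω₁`-guessing in `N`: it is guessing in `N` and in every generic extension of `N` by a
partial order (an element of `N`, coded by `c`) that preserves `ω₁`. -/
def Indes (N : Set ZFSet.{0}) (δ : Ordinal.{0}) (X : ZFSet.{0}) : Prop :=
  Guess N X ∧ ∀ (Q : Type) [PartialOrder Q] (c : Q → ZFSet.{0}), PosetIn N Q c →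
    (∀ G, GenF N c G → IsOm1 (Ext N c G) δ) → ∀ G, GenF N c G → Guess (Ext N c G) X

/-- `H_θ` of `N`: the sets of `N` of hereditary cardinality `< θ`. -/
def Hth (N : Set ZFSet.{0}) (θ : Ordinal.{0}) : Set ZFSet.{0} :=
  {x | x ∈ N ∧ ∃ t ∈ N, t.IsTransitive ∧ x ⊆ t ∧ ∃ α < θ, Cvr N α.toZFSet t}

/-- `θ` is a regular cardinal in `N`. -/
def RegC (N : Set ZFSet.{0}) (θ : Ordinal.{0}) : Prop :=
  θ.toZFSet ∈ N ∧ ∀ α < θ, ∀ x ∈ N, x ⊆ θ.toZFSet → Cvr N α.toZFSet x → ∃ β < θ, x ⊆ β.toZFSet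

/-- `C` is closed and unbounded in `P_{ω₂}(h)`, in `N`: its members are subsets of `h` of size at most `ω₁`, it
is unbounded, and it contains the unions of its increasing sequences of length `< ω₂`. -/
structure Club (N : Set ZFSet.{0}) (δ : Ordinal.{0}) (h C : ZFSet.{0}) : Prop where
  sub : ∀ x ∈ C, x ⊆ h ∧ Cvr N δ.toZFSet x
  unb : ∀ x ∈ N, x ⊆ h → Cvr N δ.toZFSet x → ∃ y ∈ C, x ⊆ y
  clo : ∀ ξ : Ordinal.{0}, 0 < ξ → Cvr N δ.toZFSet ξ.toZFSet → ∀ f ∈ N, Fn f ξ.toZFSet C →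
    (∀ α β x y, α < β → ZFSet.pair (Ordinal.toZFSet α) x ∈ f → ZFSet.pair (Ordinal.toZFSet β) y ∈ f → x ⊆ y) →
    ∀ u ∈ N, (∀ z, z ∈ u ↔ ∃ x y, ZFSet.pair x y ∈ f ∧ z ∈ y) → u ∈ C

/-- `X` is an elementary substructure of `h` (with `∈`). -/
def ElemSub (X h : ZFSet.{0}) : Prop :=
  ∃ hs : X ⊆ h, ∀ (φ : Fml) (f : ℕ → {x : ZFSet.{0} // x ∈ X}),
    Sat (fun x y : {x : ZFSet.{0} // x ∈ X} => x.1 ∈ y.1) φ f ↔
      Sat (fun x y : {x : ZFSet.{0} // x ∈ h} => x.1 ∈ y.1) φ (fun i => ⟨(f i).1, hs (f i).2⟩)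

/-- `IGMP(ω₂, ω₁)` holds in `N`: for all sufficiently large regular `θ` the set of indestructibly
`ω₁`-guessing elementary substructures `X` of `H_θ` of size at most `ω₁` is stationary in `P_{ω₂}(H_θ)`. -/
def IGMP (N : Set ZFSet.{0}) (δ κ : Ordinal.{0}) : Prop :=
  ∃ θ₀ : Ordinal.{0}, θ₀.toZFSet ∈ N ∧ ∀ θ, θ₀ ≤ θ → κ ≤ θ → RegC N θ →
    ∃ h ∈ N, (∀ x, x ∈ h ↔ x ∈ Hth N θ) ∧ ∀ C ∈ N, Club N δ h C →
      ∃ X ∈ C, ElemSub X h ∧ Indes N δ X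

/-- `κ` is supercompact in `M`, in Magidor's form: for every `η > κ` and `x ∈ V_η` there are `γ < α < κ` and an
elementary embedding `e : V_α → V_η`, `e ∈ M`, which is the identity on `V_γ`, with `e(γ) = κ` and `x` in its range.
(`V_α = Lv M α` is computed in `M`.) -/
structure Sc (M : Set ZFSet.{0}) (κ : Ordinal.{0}) : Prop where
  mem : κ.toZFSet ∈ M
  emb : ∀ η : Ordinal.{0}, κ < η → η.toZFSet ∈ M → ∀ x ∈ Lv M η, ∃ γ α : Ordinal.{0}, γ < α ∧ α < κ ∧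
    ∃ e : ZFSet.{0} → ZFSet.{0}, Elem (Lv M α) (Lv M η) e ∧
      (∃ g ∈ M, ∀ z, z ∈ g ↔ ∃ y ∈ Lv M α, z = ZFSet.pair y (e y)) ∧
      (∀ y ∈ Lv M γ, e y = y) ∧ e γ.toZFSet = κ.toZFSet ∧ ∃ y ∈ Lv M α, e y = x

end Pool.Agent.H7.IG
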