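import Pool.Agent.H7.IG.Tk5

/-!
# IG toolkit 6: Skolem hulls

`Y ∈ N` is closed under finite subsets, `Φ` a definable relation, `A ⊆ Y` countable. There is a countable
`Z ∈ N`, `A ⊆ Z ⊆ Y`, closed under finite subsets, such that for `y ∈ Z`: if `Φ y z` for some `z ∈ Y` then `Φ y z'` for some
`z' ∈ Z`. Proof: choose `f ∈ N`, `f : Y → Y` with `Φ y (f y)` whenever possible (`exists_choice`), define
`Z₀ = A`, `Z_{n+1} = Z_n ∪ f[Z_n] ∪ {finite subsets of Z_n}` by recursion on `ω` (`exists_rec` on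
`(ω : Ordinal).toZFSet = omZ`), `Z = ⋃ Z_n`; all `Z_n` are countable (`Ctb.image`, `Ctb.fin`, induction), so `Z` is
(`Ctb.iUnion` or `ctb_union`). Finite subsets of a set of `N`: `exists_fin` (H52/GC/Fin).
The same with `Cvr N δ.toZFSet` instead of countable.
-/

set_option autoImplicit false
set_option linter.unusedVariables false
set_option linter.unusedSectionVars false
set_option linter.unusedSimpArgs false
set_option linter.unusedTactic false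
set_option linter.unreachableTactic false

namespace Pool.Agent.H7.IG

open Pool.Agent.H17.Omega Pool.Agent.H17.Omega.CTM Pool.Agent.H52.GX Pool.Agent.H52.GC

variable {N : Set ZFSet.{0}} (hN : CTM N)

include hN

/-- Abstract form: `Sm` is a notion of smallness. -/
theorem exists_hull_aux {Sm : ZFSet.{0} → Prop}
    (him : ∀ X X' f : ZFSet.{0}, X ∈ N → X' ∈ N → f ∈ N → Sm X →
      (∀ w ∈ X, ∀ y y' : ZFSet.{0}, ZFSet.pair w y ∈ f → ZFSet.pair w y' ∈ f → y = y') →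
      (∀ y ∈ X', ∃ w ∈ X, ZFSet.pair w y ∈ f) → Sm X')
    (hfin : ∀ X X' : ZFSet.{0}, X ∈ N → X' ∈ N → Sm X → (∀ y ∈ X', y ⊆ X ∧ FinZ y) → Sm X')
    (hun : ∀ r X : ZFSet.{0}, r ∈ N → X ∈ N →
      (∀ n : ℕ, ∃ Y ∈ N, Sm Y ∧ ∀ x ∈ X, ZFSet.pair (natZ n) x ∈ r → x ∈ Y) →
      (∀ x ∈ X, ∃ n : ℕ, ZFSet.pair (natZ n) x ∈ r) → Sm X)
    {Φ : N → N → Prop} (hΦ : hN.Dfn (fun v : Fin 2 → N => Φ (v 0) (v 1))) {Y A : ZFSet.{0}}
    (hY : Y ∈ N) (hYf : ∀ a, FinZ a → a ⊆ Y → a ∈ Y) (hA : A ∈ N) (hAY : A ⊆ Y) (hAc : Sm A) :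
    ∃ Z ∈ N, A ⊆ Z ∧ Z ⊆ Y ∧ Sm Z ∧ (∀ a, FinZ a → a ⊆ Z → a ∈ Z) ∧
      ∀ y z : N, y.1 ∈ Z → z.1 ∈ Y → Φ y z → ∃ z' : N, z'.1 ∈ Z ∧ Φ y z' := by
  classical
  have hemp : (∅ : ZFSet.{0}) ∈ Y := hYf ∅ ⟨∅, fun z => by simp⟩ (ZFSet.empty_subset _)
  -- the Skolem function
  obtain ⟨f, hf, hfn, hfΦ⟩ := exists_choice hN
    (F := fun x y => (∃ z : N, z.1 ∈ (⟨Y, hY⟩ : N).1 ∧ Φ x z) → Φ x y) (by
      (repeat' first
        | exact DT.var _ | exact DT.last | exact DT.const _ | assumption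
        | refine Dfn.pairMem ?_ ?_ ?_ | refine Dfn.isPair ?_ ?_ ?_ | refine Dfn.mem ?_ ?_
        | refine Dfn.eqv ?_ ?_ | refine Dfn.eq ?_ ?_ | refine Dfn.subset ?_ ?_
        | refine Dfn.isEmpty ?_ | refine Dfn.isTrans ?_ | refine Dfn.isOrd ?_ | refine Dfn.isNat ?_
        | refine Dfn.and ?_ ?_ | refine Dfn.or ?_ ?_ | refine Dfn.iff ?_ ?_ | refine Dfn.not ?_
        | refine Dfn.imp ?_ ?_ | refine Dfn.all ?_ | refine Dfn.ex ?_ | exact Dfn.false')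
      all_goals exact Dfn.subst2 hΦ (DT.var _) (DT.var _)) hY hY (by
      intro x _
      by_cases h : ∃ z : N, z.1 ∈ Y ∧ Φ x z
      · obtain ⟨z, hz, hz2⟩ := h
        exact ⟨z, hz, fun _ => hz2⟩
      · exact ⟨⟨∅, hN.empty_mem⟩, hemp, fun h2 => absurd h2 h⟩)
  obtain ⟨Fi, hFi, hFi'⟩ := exists_fin hN hY
  obtain ⟨D, hD, hD'⟩ := hN.exists_pow hY
  obtain ⟨S, hSdef⟩ : ∃ S : N → N → Prop, S = fun x y => ∀ z : N, z.1 ∈ y.1 ↔
      (z.1 ∈ x.1 ∨ (∃ w : N, w.1 ∈ x.1 ∧ ZFSet.pair w.1 z.1 ∈ (⟨f, hf⟩ : N).1) ∨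
        (z.1 ∈ (⟨Fi, hFi⟩ : N).1 ∧ z.1 ⊆ x.1)) := ⟨_, rfl⟩
  have hS : hN.Dfn (fun v : Fin 2 → N => S (v 0) (v 1)) := by
    rw [hSdef]
    (repeat' first
      | exact DT.var _ | exact DT.last | exact DT.const _ | assumption
      | refine Dfn.pairMem ?_ ?_ ?_ | refine Dfn.isPair ?_ ?_ ?_ | refine Dfn.mem ?_ ?_
      | refine Dfn.eqv ?_ ?_ | refine Dfn.eq ?_ ?_ | refine Dfn.subset ?_ ?_
      | refine Dfn.isEmpty ?_ | refine Dfn.isTrans ?_ | refine Dfn.isOrd ?_ | refine Dfn.isNat ?_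
      | refine Dfn.and ?_ ?_ | refine Dfn.or ?_ ?_ | refine Dfn.iff ?_ ?_ | refine Dfn.not ?_
      | refine Dfn.imp ?_ ?_ | refine Dfn.all ?_ | refine Dfn.ex ?_ | exact Dfn.false')
  have hfY : ∀ w z : ZFSet.{0}, ZFSet.pair w z ∈ f → z ∈ Y := by
    intro w z h
    obtain ⟨x, _, y, hy, h2⟩ := hfn.sub _ h
    rw [ZFSet.pair_inj] at h2
    rw [h2.2]
    exact hy
  have hFiY : ∀ z ∈ Fi, z ∈ Y := fun z hz => hYf z ((hFi' z).1 hz).2 ((hFi' z).1 hz).1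
  obtain ⟨g, g0, gD, gS, gM⟩ := hN.exists_omega_rec hS hD (by
    intro x hx
    have hxY := ((hD' _).1 hx).2
    obtain ⟨b, hb, hb'⟩ := hN.exists_sep (P := fun z => (z.1 ∈ x.1 ∨
      (∃ w : N, w.1 ∈ x.1 ∧ ZFSet.pair w.1 z.1 ∈ (⟨f, hf⟩ : N).1) ∨
        (z.1 ∈ (⟨Fi, hFi⟩ : N).1 ∧ z.1 ⊆ x.1))) (by
        (repeat' first
          | exact DT.var _ | exact DT.last | exact DT.const _ | assumption
          | refine Dfn.pairMem ?_ ?_ ?_ | refine Dfn.isPair ?_ ?_ ?_ | refine Dfn.mem ?_ ?_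
          | refine Dfn.eqv ?_ ?_ | refine Dfn.eq ?_ ?_ | refine Dfn.subset ?_ ?_
          | refine Dfn.isEmpty ?_ | refine Dfn.isTrans ?_ | refine Dfn.isOrd ?_ | refine Dfn.isNat ?_
          | refine Dfn.and ?_ ?_ | refine Dfn.or ?_ ?_ | refine Dfn.iff ?_ ?_ | refine Dfn.not ?_
          | refine Dfn.imp ?_ ?_ | refine Dfn.all ?_ | refine Dfn.ex ?_ | exact Dfn.false')) hY
    refine ⟨⟨b, hb⟩, (hD' b).2 ⟨hb, fun z hz => ((hb' z).1 hz).1⟩, ?_⟩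
    rw [hSdef]
    intro z
    change z.1 ∈ b ↔ _
    rw [hb']
    constructor
    · rintro ⟨_, _, h⟩
      exact h
    · intro h
      refine ⟨?_, z.2, h⟩
      rcases h with h | ⟨w, hw, h⟩ | ⟨h, _⟩
      · exact hxY h
      · exact hfY _ _ h
      · exact hFiY _ h) (by
    intro x y y' _ _ _ h1 h2
    rw [hSdef] at h1 h2
    exact Subtype.ext (hN.ext' y.2 y'.2 fun z => (h1 z).trans (h2 z).symm)) ⟨A, hA⟩
    ((hD' A).2 ⟨hA, hAY⟩)
  have gS' : ∀ n, ∀ z : N, z.1 ∈ (g (n + 1)).1 ↔ (z.1 ∈ (g n).1 ∨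
      (∃ w : N, w.1 ∈ (g n).1 ∧ ZFSet.pair w.1 z.1 ∈ f) ∨ (z.1 ∈ Fi ∧ z.1 ⊆ (g n).1)) := by
    intro n
    have h := gS n
    rw [hSdef] at h
    exact h
  have gY : ∀ n, (g n).1 ⊆ Y := fun n => ((hD' _).1 (gD n)).2
  have gmono : ∀ n, (g n).1 ⊆ (g (n + 1)).1 := by
    intro n z hz
    exact (gS' n ⟨z, hN.mem_of_mem (g n).2 hz⟩).2 (Or.inl hz)
  have gmono' : ∀ m n, m ≤ n → (g m).1 ⊆ (g n).1 := by
    intro m n h
    induction h with
    | refl => exact fun z hz => hz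
    | step _ ih => exact fun z hz => gmono _ (ih hz)
  have gSm : ∀ n, Sm (g n).1 := by
    intro n
    induction n with
    | zero => rw [g0]; exact hAc
    | succ n ih =>
      obtain ⟨X1, hX1, hX1'⟩ := hN.exists_sep (P := fun z =>
        ∃ w : N, w.1 ∈ (g n).1 ∧ ZFSet.pair w.1 z.1 ∈ (⟨f, hf⟩ : N).1) (by
          (repeat' first
            | exact DT.var _ | exact DT.last | exact DT.const _ | assumption
            | refine Dfn.pairMem ?_ ?_ ?_ | refine Dfn.isPair ?_ ?_ ?_ | refine Dfn.mem ?_ ?_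
            | refine Dfn.and ?_ ?_ | refine Dfn.or ?_ ?_ | refine Dfn.iff ?_ ?_ | refine Dfn.not ?_
            | refine Dfn.imp ?_ ?_ | refine Dfn.all ?_ | refine Dfn.ex ?_ | exact Dfn.false')) hY
      obtain ⟨X2, hX2, hX2'⟩ := hN.exists_sep (P := fun z => z.1 ⊆ (g n).1) (by
          (repeat' first
            | exact DT.var _ | exact DT.last | exact DT.const _ | assumption
            | refine Dfn.subset ?_ ?_)) hFi
      have s1 : Sm X1 := by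
        refine him (g n).1 X1 f (g n).2 hX1 hf ih ?_ ?_
        · intro w _ y y' h1 h2
          exact (hfn.ap_eq h1).symm.trans (hfn.ap_eq h2)
        · intro y hy
          obtain ⟨_, _, w, hw, h⟩ := (hX1' y).1 hy
          exact ⟨w.1, hw, h⟩
      have s2 : Sm X2 := by
        refine hfin (g n).1 X2 (g n).2 hX2 ih ?_
        intro y hy
        obtain ⟨h1, _, h2⟩ := (hX2' y).1 hy
        exact ⟨h2, ((hFi' y).1 h1).2⟩
      have hr : (ZFSet.prod {natZ 0} (g n).1 ∪ (ZFSet.prod {natZ 1} X1 ∪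
          ZFSet.prod {natZ 2} X2) : ZFSet.{0}) ∈ N :=
        hN.union_mem (hN.prod_mem (hN.singleton_mem (hN.natZ_mem_N _)) (g n).2)
          (hN.union_mem (hN.prod_mem (hN.singleton_mem (hN.natZ_mem_N _)) hX1)
            (hN.prod_mem (hN.singleton_mem (hN.natZ_mem_N _)) hX2))
      have hmem : ∀ (i : ℕ) (x : ZFSet.{0}), ZFSet.pair (natZ i) x ∈
          (ZFSet.prod {natZ 0} (g n).1 ∪ (ZFSet.prod {natZ 1} X1 ∪
          ZFSet.prod {natZ 2} X2) : ZFSet.{0}) ↔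
          (i = 0 ∧ x ∈ (g n).1) ∨ (i = 1 ∧ x ∈ X1) ∨ (i = 2 ∧ x ∈ X2) := by
        intro i x
        simp only [ZFSet.mem_union, ZFSet.pair_mem_prod, ZFSet.mem_singleton, natZ_inj]
      refine hun _ (g (n + 1)).1 hr (g (n + 1)).2 ?_ ?_
      · intro i
        by_cases h1 : i = 1
        · refine ⟨X1, hX1, s1, fun x _ hx => ?_⟩
          rw [hmem] at hx
          rcases hx with h | h | h
          · omega
          · exact h.2
          · omega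
        · by_cases h2 : i = 2
          · refine ⟨X2, hX2, s2, fun x _ hx => ?_⟩
            rw [hmem] at hx
            rcases hx with h | h | h
            · omega
            · omega
            · exact h.2
          · refine ⟨(g n).1, (g n).2, ih, fun x _ hx => ?_⟩
            rw [hmem] at hx
            rcases hx with h | h | h
            · exact h.2
            · omega
            · omega
      · intro x hx
        have hxN := hN.mem_of_mem (g (n + 1)).2 hx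
        have hxY := gY (n + 1) hx
        rcases (gS' n ⟨x, hxN⟩).1 hx with h | ⟨w, hw, h⟩ | ⟨h, h'⟩
        · exact ⟨0, (hmem 0 x).2 (Or.inl ⟨rfl, h⟩)⟩
        · exact ⟨1, (hmem 1 x).2 (Or.inr (Or.inl ⟨rfl, (hX1' x).2 ⟨hxY, hxN, w, hw, h⟩⟩))⟩
        · exact ⟨2, (hmem 2 x).2 (Or.inr (Or.inr ⟨rfl, (hX2' x).2 ⟨h, hxN, h'⟩⟩))⟩
  -- the union
  obtain ⟨Z, hZ, hZ'⟩ := hN.exists_sep (P := fun z => ∃ n X : N,
    ZFSet.pair n.1 X.1 ∈ (⟨_, gM⟩ : N).1 ∧ z.1 ∈ X.1) (by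
      (repeat' first
        | exact DT.var _ | exact DT.last | exact DT.const _ | assumption
        | refine Dfn.pairMem ?_ ?_ ?_ | refine Dfn.isPair ?_ ?_ ?_ | refine Dfn.mem ?_ ?_
        | refine Dfn.and ?_ ?_ | refine Dfn.or ?_ ?_ | refine Dfn.iff ?_ ?_ | refine Dfn.not ?_
        | refine Dfn.imp ?_ ?_ | refine Dfn.all ?_ | refine Dfn.ex ?_ | exact Dfn.false')) hY
  have hZmem : ∀ z, z ∈ Z ↔ ∃ n, z ∈ (g n).1 := by
    intro z
    rw [hZ']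
    constructor
    · rintro ⟨_, _, n, X, h1, h2⟩
      have h1 : ZFSet.pair n.1 X.1 ∈ seqZ fun n => (g n).1 := h1
      obtain ⟨m, hm⟩ := mem_seqZ.1 h1
      rw [ZFSet.pair_inj] at hm
      have h2 : z ∈ X.1 := h2
      rw [hm.2] at h2
      exact ⟨m, h2⟩
    · rintro ⟨n, hn⟩
      exact ⟨gY n hn, hN.mem_of_mem (g n).2 hn, nz hN n, g n, pair_mem_seqZ.2 rfl, hn⟩
  have hZY : Z ⊆ Y := fun z hz => ((hZ' z).1 hz).1
  refine ⟨Z, hZ, ?_, hZY, ?_, ?_, ?_⟩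
  · intro z hz
    exact (hZmem z).2 ⟨0, by rw [g0]; exact hz⟩
  · obtain ⟨r, hr, hr'⟩ := hN.exists_sep (P := fun z => ∃ n x X : N, z.1 = ZFSet.pair n.1 x.1 ∧
      ZFSet.pair n.1 X.1 ∈ (⟨_, gM⟩ : N).1 ∧ x.1 ∈ X.1) (by
      (repeat' first
        | exact DT.var _ | exact DT.last | exact DT.const _ | assumption
        | refine Dfn.pairMem ?_ ?_ ?_ | refine Dfn.isPair ?_ ?_ ?_ | refine Dfn.mem ?_ ?_
        | refine Dfn.and ?_ ?_ | refine Dfn.or ?_ ?_ | refine Dfn.iff ?_ ?_ | refine Dfn.not ?_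
        | refine Dfn.imp ?_ ?_ | refine Dfn.all ?_ | refine Dfn.ex ?_ | exact Dfn.false'))
      (hN.prod_mem hN.omZ_mem hY)
    have hrmem : ∀ (i : ℕ) (x : ZFSet.{0}), ZFSet.pair (natZ i) x ∈ r ↔ x ∈ (g i).1 := by
      intro i x
      rw [hr']
      constructor
      · rintro ⟨_, _, n, x', X, h1, h2, h3⟩
        have h1 : ZFSet.pair (natZ i) x = ZFSet.pair n.1 x'.1 := h1
        have h2 : ZFSet.pair n.1 X.1 ∈ seqZ fun n => (g n).1 := h2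
        have h3 : x'.1 ∈ X.1 := h3
        rw [ZFSet.pair_inj] at h1
        rw [← h1.1, pair_mem_seqZ] at h2
        rw [h1.2, ← h2]
        exact h3
      · intro h
        have hxN := hN.mem_of_mem (g i).2 h
        exact ⟨ZFSet.pair_mem_prod.2 ⟨natZ_mem_omZ i, gY i h⟩,
          hN.pair_mem (hN.natZ_mem_N i) hxN, nz hN i, ⟨x, hxN⟩, g i, rfl,
          pair_mem_seqZ.2 rfl, h⟩
    refine hun r Z hr hZ (fun n => ⟨(g n).1, (g n).2, gSm n, fun x _ hx => (hrmem n x).1 hx⟩) ?_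
    intro x hx
    obtain ⟨n, hn⟩ := (hZmem x).1 hx
    exact ⟨n, (hrmem n x).2 hn⟩
  · intro a ha haZ
    obtain ⟨s, hs⟩ := ha
    have hbd : ∀ t : Finset ZFSet.{0}, (∀ z ∈ t, z ∈ Z) → ∃ n, ∀ z ∈ t, z ∈ (g n).1 := by
      intro t
      induction t using Finset.induction_on with
      | empty => exact fun _ => ⟨0, fun z hz => absurd hz (Finset.notMem_empty z)⟩
      | insert x t _ ih =>
        intro ht
        obtain ⟨n, hn⟩ := ih fun z hz => ht z (Finset.mem_insert_of_mem hz)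
        obtain ⟨m, hm⟩ := (hZmem x).1 (ht x (Finset.mem_insert_self x t))
        refine ⟨max m n, fun z hz => ?_⟩
        rcases Finset.mem_insert.1 hz with rfl | hz
        · exact gmono' _ _ (le_max_left _ _) hm
        · exact gmono' _ _ (le_max_right _ _) (hn z hz)
    obtain ⟨n, hn⟩ := hbd s fun z hz => haZ ((hs z).2 hz)
    have han : a ⊆ (g n).1 := fun z hz => hn z ((hs z).1 hz)
    have haFi : a ∈ Fi := (hFi' a).2 ⟨fun z hz => hZY (haZ hz), s, hs⟩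
    exact (hZmem a).2 ⟨n + 1, (gS' n ⟨a, hN.mem_of_mem hFi haFi⟩).2 (Or.inr (Or.inr ⟨haFi, han⟩))⟩
  · intro y z hy hz hyz
    obtain ⟨n, hn⟩ := (hZmem y.1).1 hy
    obtain ⟨z', hz', hp⟩ := hfn.tot y.1 (hZY hy)
    have hz'N := hN.mem_of_mem hY hz'
    refine ⟨⟨z', hz'N⟩, (hZmem z').2 ⟨n + 1, (gS' n ⟨z', hz'N⟩).2 (Or.inr (Or.inl ⟨y, hn, hp⟩))⟩, ?_⟩
    exact hfΦ y ⟨z', hz'N⟩ hp ⟨z, hz, hyz⟩

theorem exists_hull {Φ : N → N → Prop} (hΦ : hN.Dfn (fun v : Fin 2 → N => Φ (v 0) (v 1))) {Y A : ZFSet.{0}}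
    (hY : Y ∈ N) (hYf : ∀ a, FinZ a → a ⊆ Y → a ∈ Y) (hA : A ∈ N) (hAY : A ⊆ Y) (hAc : Ctb N A) :
    ∃ Z ∈ N, A ⊆ Z ∧ Z ⊆ Y ∧ Ctb N Z ∧ (∀ a, FinZ a → a ⊆ Z → a ∈ Z) ∧
      ∀ y z : N, y.1 ∈ Z → z.1 ∈ Y → Φ y z → ∃ z' : N, z'.1 ∈ Z ∧ Φ y z' := by
  refine exists_hull_aux hN (Sm := Ctb N) ?_ ?_ ?_ hΦ hY hYf hA hAY hAc
  · intro X X' f hX hX' hf h hu hc
    have h1 : Cvr N X X' := ⟨f, hf, hu, hc⟩
    exact (ctb_iff_cvr hN).2 (Cvr.trans hN hN.omZ_mem hX hX' ((ctb_iff_cvr hN).1 h) h1)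
  · intro X X' _ _ h hy
    exact Ctb.fin hN h hy
  · intro r X hr hX h hc
    refine ctb_union hN hN.omZ_mem hr hX (ctb_om hN) ?_ ?_
    · intro i hi
      obtain ⟨n, rfl⟩ := mem_omZ.1 hi
      exact h n
    · intro x hx
      obtain ⟨n, hn⟩ := hc x hx
      exact ⟨natZ n, natZ_mem_omZ n, hn⟩

theorem exists_hull_om1 {δ : Ordinal.{0}} (hδ : IsOm1 N δ) {Φ : N → N → Prop}
    (hΦ : hN.Dfn (fun v : Fin 2 → N => Φ (v 0) (v 1))) {Y A : ZFSet.{0}}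
    (hY : Y ∈ N) (hYf : ∀ a, FinZ a → a ⊆ Y → a ∈ Y) (hA : A ∈ N) (hAY : A ⊆ Y)
    (hAc : Cvr N δ.toZFSet A) :
    ∃ Z ∈ N, A ⊆ Z ∧ Z ⊆ Y ∧ Cvr N δ.toZFSet Z ∧ (∀ a, FinZ a → a ⊆ Z → a ∈ Z) ∧
      ∀ y z : N, y.1 ∈ Z → z.1 ∈ Y → Φ y z → ∃ z' : N, z'.1 ∈ Z ∧ Φ y z' := by
  refine exists_hull_aux hN (Sm := Cvr N δ.toZFSet) ?_ ?_ ?_ hΦ hY hYf hA hAY hAc
  · intro X X' f hX hX' hf h hu hc
    exact Cvr.trans hN hδ.mem hX hX' h ⟨f, hf, hu, hc⟩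
  · intro X X' hX hX' h hy
    exact cvr_fin_om1 hN hδ hX hX' h hy
  · intro r X hr hX h hc
    refine cvr_union_om1 hN hδ hN.omZ_mem hr hX (ctb_cvr_om1 hN hδ (ctb_om hN)) ?_ ?_
    · intro i hi
      obtain ⟨n, rfl⟩ := mem_omZ.1 hi
      exact h n
    · intro x hx
      obtain ⟨n, hn⟩ := hc x hx
      exact ⟨natZ n, natZ_mem_omZ n, hn⟩

end Pool.Agent.H7.IG
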