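import Pool.Agent.H7.IG.Gx0

/-!
# IG: evaluation of names inside a model

In a ctm `N` with `G, τ ∈ N`: `y = vl G τ` iff there is `h ∈ N` which is a function on a transitive set
`t ∈ N` containing `τ` with `h(σ) = {h(ρ) : (ρ, p) ∈ σ, p ∈ G}` for `σ ∈ t` (write it with quantifiers over `N`:
`∀ σ ∈ t, ∀ w, (σ,w) ∈ h → ∀ z, z ∈ w ↔ ∃ ρ p, p ∈ G ∧ (ρ,p) ∈ σ ∧ (ρ,z) ∈ h`), and `(τ, y) ∈ h`; existence of `h`
by `CTM.recursion` (H17/Omega/CtmR; it gives a definable `F : N → N` with `F σ = vl G σ`) + replacement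
(`exists_repl`) on the transitive closure of `τ` (in `N`: e.g. `N ∩ V_o` for `o > rk τ`, `exists_level`).
That such an `h` has the correct values is an induction on the rank.
-/

set_option autoImplicit false
set_option linter.unusedVariables false
set_option linter.unusedSectionVars false
set_option linter.unusedSimpArgs false
set_option linter.unusedTactic false
set_option linter.unreachableTactic false

namespace Pool.Agent.H7.IG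

open Pool.Agent.H17.Omega Pool.Agent.H17.Omega.CTM Pool.Agent.H52.GX Pool.Agent.H52.GC

variable {M : Set ZFSet.{0}} {P G : ZFSet.{0}}

theorem gx2_mem_sUnion {x y z : ZFSet.{0}} (h : ZFSet.pair x y ∈ z) :
    x ∈ ZFSet.sUnion (ZFSet.sUnion z) ∧ y ∈ ZFSet.sUnion (ZFSet.sUnion z) := by
  have h1 : ({x, y} : ZFSet.{0}) ∈ ZFSet.sUnion z := by
    refine ZFSet.mem_sUnion.2 ⟨_, h, ?_⟩
    rw [ZFSet.pair]
    simp
  exact ⟨ZFSet.mem_sUnion.2 ⟨_, h1, by simp⟩, ZFSet.mem_sUnion.2 ⟨_, h1, by simp⟩⟩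

/-- The values of names, as a definable function. -/
theorem gx2_vlF {N : Set ZFSet.{0}} (hN : CTM N) {G : ZFSet.{0}} (hG : G ∈ N) :
    ∃ F : N → N, hN.Dfn (fun v : Fin 2 → N => F (v 0) = v 1) ∧ ∀ x : N, (F x).1 = vl G x.1 := by
  have wf : WellFounded (fun x y : N => ∃ p : N, ZFSet.pair x.1 p.1 ∈ y.1) := by
    refine Subrelation.wf (r := fun x y : N => x.1.rank < y.1.rank) ?_
      (InvImage.wf (fun x : N => x.1.rank) wellFounded_lt)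
    rintro x y ⟨p, hp⟩
    exact rank_fst_lt hp
  refine Exists.elim (recursion (hN := hN) (R := fun x y : N => ∃ p : N, ZFSet.pair x.1 p.1 ∈ y.1)
    (𝒢 := fun x r v => ∀ z : N, z.1 ∈ v.1 ↔ ∃ y : N, r y z ∧ ∃ p : N, p.1 ∈ (⟨G, hG⟩ : N).1 ∧
      ZFSet.pair y.1 p.1 ∈ x.1) ?_ ?_ ?_ wf ?_ ?_) ?_
  · show hN.Dfn (fun v : Fin 2 → N => ∃ p : N, ZFSet.pair (v 0).1 p.1 ∈ (v 1).1)
    (repeat' first
      | exact DT.var _ | exact DT.last | exact DT.const _ | assumption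
      | refine Dfn.pairMem ?_ ?_ ?_ | refine Dfn.ex ?_)
  · show hN.Dfn (fun v : Fin 3 → N => ∀ z : N, z.1 ∈ (v 2).1 ↔ ∃ y : N,
      ((∃ p : N, ZFSet.pair y.1 p.1 ∈ (v 0).1) ∧ ZFSet.pair y.1 z.1 ∈ (v 1).1) ∧
      ∃ p : N, p.1 ∈ (⟨G, hG⟩ : N).1 ∧ ZFSet.pair y.1 p.1 ∈ (v 0).1)
    (repeat' first
      | exact DT.var _ | exact DT.last | exact DT.const _ | assumption
      | refine Dfn.pairMem ?_ ?_ ?_ | refine Dfn.isPair ?_ ?_ ?_ | refine Dfn.mem ?_ ?_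
      | refine Dfn.and ?_ ?_ | refine Dfn.iff ?_ ?_ | refine Dfn.all ?_ | refine Dfn.ex ?_)
  · intro x
    obtain ⟨e, he, hex⟩ := hN.exists_sep (P := fun y => ∃ p : N, ZFSet.pair y.1 p.1 ∈ x.1)
      (by
        (repeat' first
          | exact DT.var _ | exact DT.last | exact DT.const _ | assumption
          | refine Dfn.pairMem ?_ ?_ ?_ | refine Dfn.ex ?_)) (hN.sUnion_mem (hN.sUnion_mem x.2))
    refine ⟨e, he, fun y => ?_⟩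
    rw [hex]
    constructor
    · rintro ⟨_, _, h⟩; exact h
    · rintro ⟨p, hp⟩
      exact ⟨(gx2_mem_sUnion hp).1, y.2, p, hp⟩
  · intro x r v v' h1 h2
    exact Subtype.ext (hN.ext' v.2 v'.2 fun z => (h1 z).trans (h2 z).symm)
  · intro x g hd hu
    have hUM : ZFSet.sUnion (ZFSet.sUnion g.1) ∈ N := hN.sUnion_mem (hN.sUnion_mem g.2)
    have hdf : hN.Dfn (fun v : Fin 1 → N => ∃ y : N,
      ((∃ p : N, ZFSet.pair y.1 p.1 ∈ x.1) ∧ ZFSet.pair y.1 (v 0).1 ∈ g.1) ∧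
      ∃ p : N, p.1 ∈ (⟨G, hG⟩ : N).1 ∧ ZFSet.pair y.1 p.1 ∈ x.1) := by
      (repeat' first
        | exact DT.var _ | exact DT.last | exact DT.const _ | assumption
        | refine Dfn.pairMem ?_ ?_ ?_ | refine Dfn.isPair ?_ ?_ ?_ | refine Dfn.mem ?_ ?_
        | refine Dfn.and ?_ ?_ | refine Dfn.iff ?_ ?_ | refine Dfn.all ?_ | refine Dfn.ex ?_)
    obtain ⟨b, hb, hb'⟩ := hN.exists_sep (P := fun z => ∃ y : N,
      ((∃ p : N, ZFSet.pair y.1 p.1 ∈ x.1) ∧ ZFSet.pair y.1 z.1 ∈ g.1) ∧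
      ∃ p : N, p.1 ∈ (⟨G, hG⟩ : N).1 ∧ ZFSet.pair y.1 p.1 ∈ x.1) hdf hUM
    refine ⟨⟨b, hb⟩, fun z => ?_⟩
    show z.1 ∈ b ↔ _
    rw [hb']
    constructor
    · rintro ⟨_, _, h1⟩; exact h1
    · intro h1
      refine ⟨?_, z.2, h1⟩
      obtain ⟨y, ⟨_, h2⟩, _⟩ := h1
      exact (gx2_mem_sUnion h2).2
  · rintro F ⟨hF, hF'⟩
    refine ⟨F, hF, fun x => ?_⟩
    induction x using wf.induction with
    | _ x ih =>
      ext z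
      rw [mem_vl]
      constructor
      · intro hz
        obtain ⟨y, ⟨⟨q, hq⟩, h1⟩, p, hp, h2⟩ := (hF' x ⟨z, hN.mem_of_mem (F x).2 hz⟩).1 hz
        refine ⟨y.1, p.1, hp, h2, ?_⟩
        rw [← ih y ⟨q, hq⟩, h1]
      · rintro ⟨σ, p, hp, h1, rfl⟩
        have h2 := hN.of_pair_mem (hN.mem_of_mem x.2 h1)
        have h3 : (F ⟨σ, h2.1⟩).1 = vl G σ := ih ⟨σ, h2.1⟩ ⟨⟨p, h2.2⟩, h1⟩
        rw [← h3]
        exact (hF' x (F ⟨σ, h2.1⟩)).2 ⟨⟨σ, h2.1⟩, ⟨⟨⟨p, h2.2⟩, h1⟩, rfl⟩, ⟨p, h2.2⟩, hp, h1⟩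

/-- Values of names are computed in every ctm that contains `G` and the name. -/
theorem vl_mem {N : Set ZFSet.{0}} (hN : CTM N) {G τ : ZFSet.{0}} (hG : G ∈ N) (hτ : τ ∈ N) : vl G τ ∈ N := by
  obtain ⟨F, _, hF⟩ := gx2_vlF hN hG
  rw [← hF ⟨τ, hτ⟩]
  exact (F ⟨τ, hτ⟩).2

/-- Approximations of the evaluation. -/
def Gx2A (N : Set ZFSet.{0}) (G h : N) : Prop :=
  ∀ σ w : N, ZFSet.pair σ.1 w.1 ∈ h.1 →
    (∀ ρ p : N, p.1 ∈ G.1 → ZFSet.pair ρ.1 p.1 ∈ σ.1 → ∃ u : N, ZFSet.pair ρ.1 u.1 ∈ h.1) ∧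
    ∀ z : N, z.1 ∈ w.1 ↔ ∃ ρ p : N, p.1 ∈ G.1 ∧ ZFSet.pair ρ.1 p.1 ∈ σ.1 ∧ ZFSet.pair ρ.1 z.1 ∈ h.1

theorem Gx2A.eq {N : Set ZFSet.{0}} (hN : CTM N) {G h : N} (hh : Gx2A N G h) {σ w : N}
    (hσ : ZFSet.pair σ.1 w.1 ∈ h.1) : w.1 = vl G.1 σ.1 := by
  have key : ∀ α : Ordinal.{0}, ∀ σ w : N, σ.1.rank = α → ZFSet.pair σ.1 w.1 ∈ h.1 →
      w.1 = vl G.1 σ.1 := by
    intro α
    induction α using WellFoundedLT.induction with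
    | ind α ih =>
      intro σ w hα hσ
      obtain ⟨h1, h2⟩ := hh σ w hσ
      ext z
      rw [mem_vl]
      constructor
      · intro hz
        obtain ⟨ρ, p, h3, h4, h5⟩ := (h2 ⟨z, hN.mem_of_mem w.2 hz⟩).1 hz
        exact ⟨ρ.1, p.1, h3, h4, (ih _ (hα ▸ rank_fst_lt h4) ρ _ rfl h5).symm⟩
      · rintro ⟨ρ, p, hp, h4, rfl⟩
        have h5 := hN.of_pair_mem (hN.mem_of_mem σ.2 h4)
        obtain ⟨u, hu⟩ := h1 ⟨ρ, h5.1⟩ ⟨p, h5.2⟩ hp h4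
        have h6 : u.1 = vl G.1 ρ := ih _ (hα ▸ rank_fst_lt h4) ⟨ρ, h5.1⟩ u rfl hu
        rw [← h6]
        exact (h2 u).2 ⟨⟨ρ, h5.1⟩, ⟨p, h5.2⟩, hp, h4, hu⟩
  exact key _ σ w rfl hσ

theorem gx2_exists {N : Set ZFSet.{0}} (hN : CTM N) (G τ : N) :
    ∃ h : N, Gx2A N G h ∧ ∃ w : N, ZFSet.pair τ.1 w.1 ∈ h.1 := by
  obtain ⟨F, hF, hF'⟩ := gx2_vlF hN G.2
  obtain ⟨t, ht, htt, hτt⟩ := hN.exists_transitive τ.2
  have hd : hN.Dfn (fun v : Fin 2 → N => ∃ w : N, F (v 0) = w ∧ (v 1).1 = ZFSet.pair (v 0).1 w.1) := by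
    refine Dfn.ex (Dfn.and ?_ (Dfn.isPair (DT.var _) (DT.var _) (DT.var _)))
    exact Dfn.subst2 (P := fun x y => F x = y) hF (DT.var _) (DT.var _)
  obtain ⟨h, hh, hh'⟩ := hN.exists_repl (F := fun x y => ∃ w : N, F x = w ∧
    y.1 = ZFSet.pair x.1 w.1) hd ht (by
      rintro x _ y y' ⟨w, rfl, h1⟩ ⟨w', rfl, h2⟩
      exact Subtype.ext (h1.trans h2.symm))
  have hmem : ∀ σ w : N, ZFSet.pair σ.1 w.1 ∈ h ↔ σ.1 ∈ t ∧ F σ = w := by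
    intro σ w
    rw [show (ZFSet.pair σ.1 w.1 ∈ h) = ((⟨ZFSet.pair σ.1 w.1, hN.pair_mem σ.2 w.2⟩ : N).1 ∈ h)
      from rfl, hh']
    constructor
    · rintro ⟨x, hx, w', h1, h2⟩
      have h3 : x.1 = σ.1 ∧ w'.1 = w.1 := (ZFSet.pair_inj.1 h2.symm)
      have h4 : x = σ := Subtype.ext h3.1
      have h5 : w' = w := Subtype.ext h3.2
      subst h4 h5
      exact ⟨hx, h1⟩
    · rintro ⟨h1, h2⟩
      exact ⟨σ, h1, w, h2, rfl⟩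
  refine ⟨⟨h, hh⟩, ?_, F τ, (hmem _ _).2 ⟨hτt, rfl⟩⟩
  intro σ w hσ
  obtain ⟨h1, h2⟩ := (hmem _ _).1 hσ
  have hρt : ∀ ρ p : ZFSet.{0}, ZFSet.pair ρ p ∈ σ.1 → ρ ∈ t := by
    intro ρ p hρ
    have h3 : ZFSet.pair ρ p ∈ t := htt _ h1 hρ
    have h4 : ({ρ} : ZFSet.{0}) ∈ ZFSet.pair ρ p := by
      rw [ZFSet.pair]; simp
    have h5 : ({ρ} : ZFSet.{0}) ∈ t := htt _ h3 h4
    exact htt _ h5 (ZFSet.mem_singleton.2 rfl)
  refine ⟨fun ρ p hp hρ => ⟨F ρ, (hmem _ _).2 ⟨hρt _ _ hρ, rfl⟩⟩, fun z => ?_⟩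
  subst h2
  rw [hF' σ, mem_vl]
  constructor
  · rintro ⟨ρ, p, hp, h3, h4⟩
    have h5 := hN.of_pair_mem (hN.mem_of_mem σ.2 h3)
    refine ⟨⟨ρ, h5.1⟩, ⟨p, h5.2⟩, hp, h3, (hmem ⟨ρ, h5.1⟩ z).2 ⟨hρt _ _ h3, ?_⟩⟩
    exact Subtype.ext ((hF' _).trans h4)
  · rintro ⟨ρ, p, hp, h3, h4⟩
    refine ⟨ρ.1, p.1, hp, h3, ?_⟩
    rw [← hF' ρ, ((hmem _ _).1 h4).2]

theorem ud_vl : UD CtmC (fun N (v : Fin 3 → N) => (v 2).1 = vl (v 0).1 (v 1).1) := by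
  have h : UD CtmC (fun N (v : Fin 3 → N) => ∃ h : N, Gx2A N (v 0) h ∧
      ZFSet.pair (v 1).1 (v 2).1 ∈ h.1) := by
    unfold Gx2A
    (repeat' first
      | exact UT.var _ | exact UT.last | assumption
      | refine UD.pairMem ?_ ?_ ?_ | refine UD.isPair ?_ ?_ ?_ | refine UD.mem ?_ ?_
      | refine UD.and ?_ ?_ | refine UD.iff ?_ ?_ | refine UD.imp ?_ ?_
      | refine UD.all ?_ | refine UD.ex ?_)
  refine h.congr fun N hN v => ?_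
  have hN' : CTM N := hN
  constructor
  · rintro ⟨h, hh, h1⟩
    exact hh.eq hN' h1
  · intro h1
    obtain ⟨h, hh, w, hw⟩ := gx2_exists hN' (v 0) (v 1)
    refine ⟨h, hh, ?_⟩
    rw [h1, ← hh.eq hN' hw]
    exact hw

end Pool.Agent.H7.IG
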