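import Pool.Agent.H7.IG.Gx1
import Pool.Agent.H7.IG.Gx2
import Pool.Agent.H7.IG.Gx3

/-!
# IG: generic extensions (collected)
-/

namespace Pool.Agent.H7.IG

open Pool.Agent.H17.Omega Pool.Agent.H17.Omega.CTM Pool.Agent.H52.GX Pool.Agent.H52.GC

variable {M : Set ZFSet.{0}} {P G : ZFSet.{0}}

/-- `M[G]` is the least ctm that contains `M` and `G`. -/
theorem xt_min {N : Set ZFSet.{0}} (hN : CTM N) (hMN : M ⊆ N) (hG : G ∈ N) : Xt M G ⊆ N := by
  rintro _ ⟨τ, hτ, rfl⟩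
  exact vl_mem hN hG (hMN hτ)

end Pool.Agent.H7.IG
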