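import Pool.Agent.H7.IG.Gx
import Pool.Agent.H7.IG.Tk3
import Pool.Agent.H7.IG.Tk4
import Pool.Agent.H7.IG.Tk8

/-!
# IG: ccc forcing has the covering property

Let `x ∈ M[G]` be countable in `M[G]`, `x ⊆ Y ∈ M`. There is `f ∈ M[G]`, a set of pairs, single valued on `ω`, covering
`x` (`ctb_iff_cvr`); let `τ` be a name for it and `p₀ ∈ G` force that `τ` is single valued on `ω` (`Frc.truth` for the uniformly
definable statement `∀ n ∈ ω, ∀ y y', (n, y) ∈ f → (n, y') ∈ f → y = y'`, with `ω` as a ground model argument `.g`).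
In `M` let `E = {(n, p) : n ∈ ω, p ∈ P, p₀ ⊆ p, p` forces `(n, z) ∈ τ` for some `z ∈ Y}` and let `D ⊆ E` be maximal such that for
`(n, p) ≠ (n, p')` in `D` the conditions `p, p'` are incompatible (`exists_max`). For each `n` the section `D_n` is
an antichain, so countable (`Ccc`); `D` is countable (`ctb_union`). For `(n, p) ∈ D` the `z ∈ Y` with `p` forces
`(n, z) ∈ τ` is unique (two values are contradictory below `p ⊇ p₀`); `y := {z : (n, p) ∈ D, p` forces `(n, z) ∈ τ}` is countable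
in `M`. `x ⊆ y`: if `z ∈ x`, `(n, z) ∈ f`, some `q ∈ G`, `p₀ ⊆ q`, forces `(n, z) ∈ τ`; the set of `r` such that `r ⊇ p` for some `(n, p) ∈ D` is
dense below `q` (maximality of `D`: each `r ⊇ q` is compatible with some `p ∈ D_n`), so there is `(n, p) ∈ D` with
`p ∈ G`; `p` forces `(n, z')`, and `z' = z` by single valuedness of `f`.
-/

set_option autoImplicit false
set_option linter.unusedVariables false
set_option linter.unusedSectionVars false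
set_option linter.unusedSimpArgs false
set_option linter.unusedTactic false
set_option linter.unreachableTactic false

namespace Pool.Agent.H7.IG

open Pool.Agent.H17.Omega Pool.Agent.H17.Omega.CTM Pool.Agent.H52.GX Pool.Agent.H52.GC

variable {M : Set ZFSet.{0}} {P G : ZFSet.{0}}

theorem gn1_ud : UD CtmC (fun N (v : Fin 2 → N) => ∀ n : N, n.1 ∈ (v 0).1 → ∀ y y' : N,
    ZFSet.pair n.1 y.1 ∈ (v 1).1 → ZFSet.pair n.1 y'.1 ∈ (v 1).1 → y = y') := by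
  (repeat' first
      | exact UT.var _ | exact UT.last | assumption
      | refine UD.pairMem ?_ ?_ ?_ | refine UD.isPair ?_ ?_ ?_ | refine UD.mem ?_ ?_
      | refine UD.eqv ?_ ?_ | refine UD.eq ?_ ?_ | refine UD.subset ?_ ?_
      | refine UD.isEmpty ?_ | refine UD.isTrans ?_ | refine UD.isOrd ?_ | refine UD.isNat ?_
      | refine UD.isUpair ?_ ?_ ?_ | refine UD.isInsert ?_ ?_ ?_ | refine UD.isUnion ?_ ?_ ?_
      | refine UD.and ?_ ?_ | refine UD.or ?_ ?_ | refine UD.iff ?_ ?_ | refine UD.not ?_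
      | refine UD.imp ?_ ?_ | refine UD.all ?_ | refine UD.ex ?_ | exact UD.false' | exact UD.true'
      | refine UD.ball ?_ ?_ | refine UD.bex ?_ ?_)

theorem gn1_ud_mem : UD CtmC (fun N (v : Fin 3 → N) => ZFSet.pair (v 0).1 (v 1).1 ∈ (v 2).1) := by
  (repeat' first
      | exact UT.var _ | exact UT.last | assumption
      | refine UD.pairMem ?_ ?_ ?_ | refine UD.isPair ?_ ?_ ?_ | refine UD.mem ?_ ?_
      | refine UD.eqv ?_ ?_ | refine UD.eq ?_ ?_ | refine UD.subset ?_ ?_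
      | refine UD.isEmpty ?_ | refine UD.isTrans ?_ | refine UD.isOrd ?_ | refine UD.isNat ?_
      | refine UD.isUpair ?_ ?_ ?_ | refine UD.isInsert ?_ ?_ ?_ | refine UD.isUnion ?_ ?_ ?_
      | refine UD.and ?_ ?_ | refine UD.or ?_ ?_ | refine UD.iff ?_ ?_ | refine UD.not ?_
      | refine UD.imp ?_ ?_ | refine UD.all ?_ | refine UD.ex ?_ | exact UD.false' | exact UD.true'
      | refine UD.ball ?_ ?_ | refine UD.bex ?_ ?_)

theorem Ccc.cov (hM : CTM M) (hP : P ∈ M) (hc : Ccc M P) (hG : Gen M P G) : Cov M (Xt M G) := by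
  intro Y hY x hx hxY hxc
  have hW : CTM (Xt M G) := hG.ctm hM hP
  have hMW : M ⊆ Xt M G := hG.sub_xt hM hP
  have hω := hM.omZ_mem
  obtain ⟨f, ⟨τ, hτ, rfl⟩, hf1, hf2⟩ := (ctb_iff_cvr hW).1 hxc
  -- `p₀` forces single valuedness
  obtain ⟨p₀, hp₀, hF₀⟩ := (Frc.truth gn1_ud hM hP hG (![Ar.g ⟨omZ, hω⟩, Ar.n ⟨τ, hτ⟩])
    (![⟨omZ, hMW hω⟩, ⟨vl G τ, ⟨τ, hτ, rfl⟩⟩] : Fin 2 → Xt M G)
    (by intro i; fin_cases i <;> rfl)).1 (by
      intro n hn y y' h1 h2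
      exact Subtype.ext (hf1 n.1 hn _ _ h1 h2))
  have hp₀P := hG.sub p₀ hp₀
  have hp₀M := hM.mem_of_mem hP hp₀P
  -- abbreviation
  let Fz : M → M → M → Prop := fun p n z =>
    Frc M P (fun N (v : Fin 3 → N) => ZFSet.pair (v 0).1 (v 1).1 ∈ (v 2).1) p.1
      ![Ar.g n, Ar.g z, Ar.n ⟨τ, hτ⟩]
  have hFz : hM.Dfn (fun v : Fin 3 → M => Fz (v 0) (v 1) (v 2)) :=
    Frc.dfn3 gn1_ud_mem hP (DT.var _) (AT.g (DT.var _)) (AT.g (DT.var _)) (AT.n (DT.const _))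
  have huniq : ∀ p n z z' : M, p.1 ∈ P → p₀ ⊆ p.1 → n.1 ∈ omZ → Fz p n z → Fz p n z' → z = z' := by
    intro p n z z' hp hpp hn h1 h2
    obtain ⟨G', hG', hpG'⟩ := exists_gen hM hP hp
    have hMG' : M ⊆ Xt M G' := hG'.sub_xt hM hP
    have hp₀' : p₀ ∈ G' := hG'.up _ hpG' p₀ hp₀P hpp
    have h3 := hF₀ G' hG' hp₀' (![⟨omZ, hMG' hω⟩, ⟨vl G' τ, ⟨τ, hτ, rfl⟩⟩] : Fin 2 → Xt M G')
      (by intro i; fin_cases i <;> rfl)
    have h4 := h1 G' hG' hpG' (![⟨n.1, hMG' n.2⟩, ⟨z.1, hMG' z.2⟩, ⟨vl G' τ, ⟨τ, hτ, rfl⟩⟩] :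
      Fin 3 → Xt M G') (by intro i; fin_cases i <;> rfl)
    have h5 := h2 G' hG' hpG' (![⟨n.1, hMG' n.2⟩, ⟨z'.1, hMG' z'.2⟩, ⟨vl G' τ, ⟨τ, hτ, rfl⟩⟩] :
      Fin 3 → Xt M G') (by intro i; fin_cases i <;> rfl)
    have h6 := h3 ⟨n.1, hMG' n.2⟩ hn ⟨z.1, hMG' z.2⟩ ⟨z'.1, hMG' z'.2⟩ h4 h5
    exact Subtype.ext (congrArg (fun w : Xt M G' => w.1) h6)
  -- the set `E`
  obtain ⟨E, hE, hE'⟩ := hM.exists_sep (P := fun e => ∃ n p z : M, e.1 = ZFSet.pair n.1 p.1 ∧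
    (⟨p₀, hp₀M⟩ : M).1 ⊆ p.1 ∧ z.1 ∈ (⟨Y, hY⟩ : M).1 ∧ Fz p n z) (by
    (repeat' first
      | exact DT.var _ | exact DT.last | exact DT.const _ | assumption
      | refine Dfn.pairMem ?_ ?_ ?_ | refine Dfn.isPair ?_ ?_ ?_ | refine Dfn.mem ?_ ?_
      | refine Dfn.eqv ?_ ?_ | refine Dfn.eq ?_ ?_ | refine Dfn.subset ?_ ?_
      | refine Dfn.isEmpty ?_ | refine Dfn.isTrans ?_ | refine Dfn.isOrd ?_ | refine Dfn.isNat ?_
      | refine Dfn.isUpair ?_ ?_ ?_ | refine Dfn.isInsert ?_ ?_ ?_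
      | refine Dfn.and ?_ ?_ | refine Dfn.or ?_ ?_ | refine Dfn.iff ?_ ?_ | refine Dfn.not ?_
      | refine Dfn.imp ?_ ?_ | refine Dfn.all ?_ | refine Dfn.ex ?_ | exact Dfn.false'
      | refine Dfn.ballZ ?_ ?_ | refine Dfn.bexZ ?_ ?_ | exact Dfn.const _)
    exact Dfn.subst3 hFz (DT.var _) (DT.var _) (DT.var _)) (hM.prod_mem hω hP)
  have hEm : ∀ n p : M, ZFSet.pair n.1 p.1 ∈ E ↔ n.1 ∈ omZ ∧ p.1 ∈ P ∧ p₀ ⊆ p.1 ∧
      ∃ z : M, z.1 ∈ Y ∧ Fz p n z := by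
    intro n p
    rw [hE']
    constructor
    · rintro ⟨h1, _, n', p', z, h2, h3, h4, h5⟩
      rw [ZFSet.pair_mem_prod] at h1
      have h2 : ZFSet.pair n.1 p.1 = ZFSet.pair n'.1 p'.1 := h2
      rw [ZFSet.pair_inj] at h2
      have e1 : n = n' := Subtype.ext h2.1
      have e2 : p = p' := Subtype.ext h2.2
      subst e1 e2
      exact ⟨h1.1, h1.2, h3, z, h4, h5⟩
    · rintro ⟨h1, h2, h3, z, h4, h5⟩
      refine ⟨?_, hM.pair_mem n.2 p.2, n, p, z, rfl, h3, h4, h5⟩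
      rw [ZFSet.pair_mem_prod]
      exact ⟨h1, h2⟩
  -- the maximal set `D`
  obtain ⟨D, hD, hDE, hD1, hD2⟩ := exists_max hM (E := fun e e' => ∀ n p p' : M,
      ((e.1 = ZFSet.pair n.1 p.1 ∧ e'.1 = ZFSet.pair n.1 p'.1) ∨
        (e'.1 = ZFSet.pair n.1 p.1 ∧ e.1 = ZFSet.pair n.1 p'.1)) →
      ∀ q : M, q.1 ∈ (⟨P, hP⟩ : M).1 → ¬ (p.1 ⊆ q.1 ∧ p'.1 ⊆ q.1)) (by
    (repeat' first
      | exact DT.var _ | exact DT.last | exact DT.const _ | assumption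
      | refine Dfn.pairMem ?_ ?_ ?_ | refine Dfn.isPair ?_ ?_ ?_ | refine Dfn.mem ?_ ?_
      | refine Dfn.eqv ?_ ?_ | refine Dfn.eq ?_ ?_ | refine Dfn.subset ?_ ?_
      | refine Dfn.isEmpty ?_ | refine Dfn.isTrans ?_ | refine Dfn.isOrd ?_ | refine Dfn.isNat ?_
      | refine Dfn.isUpair ?_ ?_ ?_ | refine Dfn.isInsert ?_ ?_ ?_
      | refine Dfn.and ?_ ?_ | refine Dfn.or ?_ ?_ | refine Dfn.iff ?_ ?_ | refine Dfn.not ?_
      | refine Dfn.imp ?_ ?_ | refine Dfn.all ?_ | refine Dfn.ex ?_ | exact Dfn.false'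
      | refine Dfn.ballZ ?_ ?_ | refine Dfn.bexZ ?_ ?_ | exact Dfn.const _)) (by
    intro e e' h n p p' h1 q hq h2
    exact h n p p' h1.symm q hq h2) hE
  have hDm : ∀ n p : M, ZFSet.pair n.1 p.1 ∈ D → n.1 ∈ omZ ∧ p.1 ∈ P ∧ p₀ ⊆ p.1 ∧
      ∃ z : M, z.1 ∈ Y ∧ Fz p n z := fun n p h => (hEm n p).1 (hDE h)
  -- sections
  have hsec : ∀ n : M, ∃ A ∈ M, (∀ p : M, p.1 ∈ A ↔ p.1 ∈ P ∧ ZFSet.pair n.1 p.1 ∈ D) ∧ Ctb M A := by
    intro n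
    obtain ⟨A, hA, hA'⟩ := hM.exists_sep (P := fun p => ZFSet.pair n.1 p.1 ∈ (⟨D, hD⟩ : M).1) (by
      (repeat' first
      | exact DT.var _ | exact DT.last | exact DT.const _ | assumption
      | refine Dfn.pairMem ?_ ?_ ?_ | refine Dfn.isPair ?_ ?_ ?_ | refine Dfn.mem ?_ ?_
      | refine Dfn.eqv ?_ ?_ | refine Dfn.eq ?_ ?_ | refine Dfn.subset ?_ ?_
      | refine Dfn.isEmpty ?_ | refine Dfn.isTrans ?_ | refine Dfn.isOrd ?_ | refine Dfn.isNat ?_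
      | refine Dfn.isUpair ?_ ?_ ?_ | refine Dfn.isInsert ?_ ?_ ?_
      | refine Dfn.and ?_ ?_ | refine Dfn.or ?_ ?_ | refine Dfn.iff ?_ ?_ | refine Dfn.not ?_
      | refine Dfn.imp ?_ ?_ | refine Dfn.all ?_ | refine Dfn.ex ?_ | exact Dfn.false'
      | refine Dfn.ballZ ?_ ?_ | refine Dfn.bexZ ?_ ?_ | exact Dfn.const _)) hP
    have hAm : ∀ p : M, p.1 ∈ A ↔ p.1 ∈ P ∧ ZFSet.pair n.1 p.1 ∈ D := fun p => (hA' p.1).trans
      ⟨fun ⟨h1, _, h2⟩ => ⟨h1, h2⟩, fun ⟨h1, h2⟩ => ⟨h1, p.2, h2⟩⟩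
    refine ⟨A, hA, hAm, hc A hA (fun p hp => ((hA' p).1 hp).1) ?_⟩
    intro a ha b hb hab q hq haq hbq
    have haM := hM.mem_of_mem hA ha
    have hbM := hM.mem_of_mem hA hb
    have h1 := ((hAm ⟨a, haM⟩).1 ha).2
    have h2 := ((hAm ⟨b, hbM⟩).1 hb).2
    refine hD1 ⟨_, hM.mem_of_mem hD h1⟩ ⟨_, hM.mem_of_mem hD h2⟩ h1 h2 ?_ n ⟨a, haM⟩ ⟨b, hbM⟩
      (Or.inl ⟨rfl, rfl⟩) ⟨q, hM.mem_of_mem hP hq⟩ hq ⟨haq, hbq⟩
    intro h3
    have h4 : ZFSet.pair n.1 a = ZFSet.pair n.1 b := congrArg Subtype.val h3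
    rw [ZFSet.pair_inj] at h4
    exact hab h4.2
  -- the relation `r`
  obtain ⟨r, hr, hr'⟩ := hM.exists_sep (P := fun e => ∃ n z p : M, e.1 = ZFSet.pair n.1 z.1 ∧
    ZFSet.pair n.1 p.1 ∈ (⟨D, hD⟩ : M).1 ∧ Fz p n z) (by
    (repeat' first
      | exact DT.var _ | exact DT.last | exact DT.const _ | assumption
      | refine Dfn.pairMem ?_ ?_ ?_ | refine Dfn.isPair ?_ ?_ ?_ | refine Dfn.mem ?_ ?_
      | refine Dfn.eqv ?_ ?_ | refine Dfn.eq ?_ ?_ | refine Dfn.subset ?_ ?_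
      | refine Dfn.isEmpty ?_ | refine Dfn.isTrans ?_ | refine Dfn.isOrd ?_ | refine Dfn.isNat ?_
      | refine Dfn.isUpair ?_ ?_ ?_ | refine Dfn.isInsert ?_ ?_ ?_
      | refine Dfn.and ?_ ?_ | refine Dfn.or ?_ ?_ | refine Dfn.iff ?_ ?_ | refine Dfn.not ?_
      | refine Dfn.imp ?_ ?_ | refine Dfn.all ?_ | refine Dfn.ex ?_ | exact Dfn.false'
      | refine Dfn.ballZ ?_ ?_ | refine Dfn.bexZ ?_ ?_ | exact Dfn.const _)
    exact Dfn.subst3 hFz (DT.var _) (DT.var _) (DT.var _)) (hM.prod_mem hω hY)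
  have hrm : ∀ n z : M, ZFSet.pair n.1 z.1 ∈ r ↔ n.1 ∈ omZ ∧ z.1 ∈ Y ∧
      ∃ p : M, ZFSet.pair n.1 p.1 ∈ D ∧ Fz p n z := by
    intro n z
    rw [hr']
    constructor
    · rintro ⟨h1, _, n', z', p, h2, h3, h4⟩
      rw [ZFSet.pair_mem_prod] at h1
      have h2 : ZFSet.pair n.1 z.1 = ZFSet.pair n'.1 z'.1 := h2
      rw [ZFSet.pair_inj] at h2
      have e1 : n = n' := Subtype.ext h2.1
      have e2 : z = z' := Subtype.ext h2.2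
      subst e1 e2
      exact ⟨h1.1, h1.2, p, h3, h4⟩
    · rintro ⟨h1, h2, p, h3, h4⟩
      refine ⟨?_, hM.pair_mem n.2 z.2, n, z, p, rfl, h3, h4⟩
      rw [ZFSet.pair_mem_prod]
      exact ⟨h1, h2⟩
  obtain ⟨y, hy, hy'⟩ := hM.exists_sep (P := fun z => ∃ n : M,
    ZFSet.pair n.1 z.1 ∈ (⟨r, hr⟩ : M).1) (by
    (repeat' first
      | exact DT.var _ | exact DT.last | exact DT.const _ | assumption
      | refine Dfn.pairMem ?_ ?_ ?_ | refine Dfn.isPair ?_ ?_ ?_ | refine Dfn.mem ?_ ?_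
      | refine Dfn.eqv ?_ ?_ | refine Dfn.eq ?_ ?_ | refine Dfn.subset ?_ ?_
      | refine Dfn.isEmpty ?_ | refine Dfn.isTrans ?_ | refine Dfn.isOrd ?_ | refine Dfn.isNat ?_
      | refine Dfn.isUpair ?_ ?_ ?_ | refine Dfn.isInsert ?_ ?_ ?_
      | refine Dfn.and ?_ ?_ | refine Dfn.or ?_ ?_ | refine Dfn.iff ?_ ?_ | refine Dfn.not ?_
      | refine Dfn.imp ?_ ?_ | refine Dfn.all ?_ | refine Dfn.ex ?_ | exact Dfn.false'
      | refine Dfn.ballZ ?_ ?_ | refine Dfn.bexZ ?_ ?_ | exact Dfn.const _)) hY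
  refine ⟨y, hy, fun z hz => ((hy' z).1 hz).1, ?_, ?_⟩
  · -- covering
    intro z hz
    obtain ⟨n, hn, hnz⟩ := hf2 z hz
    have hnM := hM.mem_of_mem hω hn
    have hzM := hM.mem_of_mem hY (hxY hz)
    obtain ⟨q, hq, hqF⟩ := (Frc.truth gn1_ud_mem hM hP hG
      (![Ar.g ⟨n, hnM⟩, Ar.g ⟨z, hzM⟩, Ar.n ⟨τ, hτ⟩])
      (![⟨n, hMW hnM⟩, ⟨z, hMW hzM⟩, ⟨vl G τ, ⟨τ, hτ, rfl⟩⟩] : Fin 3 → Xt M G)
      (by intro i; fin_cases i <;> rfl)).1 hnz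
    obtain ⟨q', hq', hqq', hpq'⟩ := hG.dir q hq p₀ hp₀
    have hq'P := hG.sub _ hq'
    obtain ⟨s, hs, -, p, hnp, hps⟩ := hG.meet hM hP
      (D := fun s => ∃ p : M, ZFSet.pair (⟨n, hnM⟩ : M).1 p.1 ∈ (⟨D, hD⟩ : M).1 ∧ p.1 ⊆ s.1) (by
      (repeat' first
      | exact DT.var _ | exact DT.last | exact DT.const _ | assumption
      | refine Dfn.pairMem ?_ ?_ ?_ | refine Dfn.isPair ?_ ?_ ?_ | refine Dfn.mem ?_ ?_
      | refine Dfn.eqv ?_ ?_ | refine Dfn.eq ?_ ?_ | refine Dfn.subset ?_ ?_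
      | refine Dfn.isEmpty ?_ | refine Dfn.isTrans ?_ | refine Dfn.isOrd ?_ | refine Dfn.isNat ?_
      | refine Dfn.isUpair ?_ ?_ ?_ | refine Dfn.isInsert ?_ ?_ ?_
      | refine Dfn.and ?_ ?_ | refine Dfn.or ?_ ?_ | refine Dfn.iff ?_ ?_ | refine Dfn.not ?_
      | refine Dfn.imp ?_ ?_ | refine Dfn.all ?_ | refine Dfn.ex ?_ | exact Dfn.false'
      | refine Dfn.ballZ ?_ ?_ | refine Dfn.bexZ ?_ ?_ | exact Dfn.const _)) hq' (by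
      intro t ht hqt
      have htM := hM.mem_of_mem hP ht
      have htF : Fz ⟨t, htM⟩ ⟨n, hnM⟩ ⟨z, hzM⟩ := hqF.mono (hG.sub _ hq) (hqq'.trans hqt)
      have htE : ZFSet.pair n t ∈ E := (hEm ⟨n, hnM⟩ ⟨t, htM⟩).2 ⟨hn, ht, hpq'.trans hqt,
        ⟨z, hzM⟩, hxY hz, htF⟩
      by_cases htD : ZFSet.pair n t ∈ D
      · exact ⟨⟨t, htM⟩, ht, fun w hw => hw, ⟨t, htM⟩, htD, fun w hw => hw⟩
      · obtain ⟨e, heD, hne⟩ := hD2 ⟨_, hM.mem_of_mem hE htE⟩ htE htD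
        push Not at hne
        obtain ⟨n', a, b, h1, u, huP, h2, h3⟩ := hne
        rcases h1 with ⟨h1, h4⟩ | ⟨h4, h1⟩
        · have h1 : ZFSet.pair n t = ZFSet.pair n'.1 a.1 := h1
          rw [ZFSet.pair_inj] at h1
          refine ⟨u, huP, h1.2 ▸ h2, b, ?_, h3⟩
          change ZFSet.pair n b.1 ∈ D
          rw [h1.1, ← h4]
          exact heD
        · have h1 : ZFSet.pair n t = ZFSet.pair n'.1 b.1 := h1
          rw [ZFSet.pair_inj] at h1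
          refine ⟨u, huP, h1.2 ▸ h3, a, ?_, h2⟩
          change ZFSet.pair n a.1 ∈ D
          rw [h1.1, ← h4]
          exact heD)
    obtain ⟨-, hpP, hp₀p, z', hz'Y, hFp⟩ := hDm ⟨n, hnM⟩ p hnp
    have hpG : p.1 ∈ G := hG.up _ hs _ hpP hps
    have h5 := hFp G hG hpG (![⟨n, hMW hnM⟩, ⟨z'.1, hMW z'.2⟩, ⟨vl G τ, ⟨τ, hτ, rfl⟩⟩] :
      Fin 3 → Xt M G) (by intro i; fin_cases i <;> rfl)
    have e : z' = ⟨z, hzM⟩ := Subtype.ext (hf1 n hn _ _ h5 hnz)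
    subst e
    exact (hy' z).2 ⟨hxY hz, hzM, ⟨n, hnM⟩, (hrm ⟨n, hnM⟩ ⟨z, hzM⟩).2 ⟨hn, hxY hz, p, hnp, hFp⟩⟩
  · -- countability
    refine ctb_union hM hω hr hy (ctb_om hM) (fun n hn => ?_) (fun z hz => ?_)
    · have hnM := hM.mem_of_mem hω hn
      obtain ⟨A, hA, hAm, hAc⟩ := hsec ⟨n, hnM⟩
      obtain ⟨B, hB, hB'⟩ := hM.exists_sep (P := fun z => ZFSet.pair (⟨n, hnM⟩ : M).1 z.1 ∈
        (⟨r, hr⟩ : M).1) (by
        (repeat' first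
      | exact DT.var _ | exact DT.last | exact DT.const _ | assumption
      | refine Dfn.pairMem ?_ ?_ ?_ | refine Dfn.isPair ?_ ?_ ?_ | refine Dfn.mem ?_ ?_
      | refine Dfn.eqv ?_ ?_ | refine Dfn.eq ?_ ?_ | refine Dfn.subset ?_ ?_
      | refine Dfn.isEmpty ?_ | refine Dfn.isTrans ?_ | refine Dfn.isOrd ?_ | refine Dfn.isNat ?_
      | refine Dfn.isUpair ?_ ?_ ?_ | refine Dfn.isInsert ?_ ?_ ?_
      | refine Dfn.and ?_ ?_ | refine Dfn.or ?_ ?_ | refine Dfn.iff ?_ ?_ | refine Dfn.not ?_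
      | refine Dfn.imp ?_ ?_ | refine Dfn.all ?_ | refine Dfn.ex ?_ | exact Dfn.false'
      | refine Dfn.ballZ ?_ ?_ | refine Dfn.bexZ ?_ ?_ | exact Dfn.const _)) hY
      refine ⟨B, hB, ?_, fun z hz hnz => ?_⟩
      · refine Ctb.image hM hAc hA (F := fun p z => Fz p ⟨n, hnM⟩ z)
          (Dfn.subst3 hFz (DT.var _) (DT.const _) (DT.var _)) ?_ ?_
        · intro p hp z z' h1 h2
          have h3 := hDm ⟨n, hnM⟩ p ((hAm p).1 hp).2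
          exact huniq p ⟨n, hnM⟩ z z' h3.2.1 h3.2.2.1 hn h1 h2
        · intro z hz
          obtain ⟨h1, hzM, h2⟩ := (hB' z).1 hz
          obtain ⟨-, -, p, h3, h4⟩ := (hrm ⟨n, hnM⟩ ⟨z, hzM⟩).1 h2
          exact ⟨p, ⟨z, hzM⟩, (hAm p).2 ⟨(hDm _ _ h3).2.1, h3⟩, rfl, h4⟩
      · exact (hB' z).2 ⟨((hy' z).1 hz).1, hM.mem_of_mem hy hz, hnz⟩
    · obtain ⟨h1, hzM, n, h2⟩ := (hy' z).1 hz
      exact ⟨n.1, ((hrm n ⟨z, hzM⟩).1 h2).1, h2⟩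

end Pool.Agent.H7.IG
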