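import Pool.Agent.H7.IG.LevB

/-!
# IG, Part 4: elementary embeddings and small sets

`Elem.image`: let `f ∈ A` be single valued on `δ` and cover `a`, `f ⊆ prod δ a` (`Lev.cvr` and separation); then `e f` is single valued on `e δ = δ` and covers `e a`,
`e f ⊆ prod δ (e a)`; for `y ∈ e a` let `(ξ, y) ∈ e f`, `ξ < δ`; `ξ = e ξ` and there is `x` with `(ξ, x) ∈ f`, `x ∈ a`; `(ξ, e x) ∈ e f`, so `y = e x`. Conversely `x ∈ a → e x ∈ e a`.
`Elem.image_ctb`: the same with `ω` and `Elem.nat`. `Elem.ctb`: `Lev.ctb` on both sides, and `e omZ = omZ`.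
-/

set_option autoImplicit false
set_option linter.unusedVariables false
set_option linter.unusedSectionVars false
set_option linter.unusedSimpArgs false
set_option linter.unusedTactic false
set_option linter.unreachableTactic false

namespace Pool.Agent.H7.IG

open Pool.Agent.H17.Omega Pool.Agent.H17.Omega.CTM Pool.Agent.H52.GX Pool.Agent.H52.GC

/-- components of pairs in elements of transitive structures -/
theorem levC_snd {N : Set ZFSet.{0}} (hN : Tra N) {f x y : ZFSet.{0}} (hf : f ∈ N)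
    (h : ZFSet.pair x y ∈ f) : y ∈ N := by
  have h1 := hN _ hf _ h
  rw [pair_eq_upair] at h1
  have h2 : ({x, y} : ZFSet.{0}) ∈ N := hN _ h1 _ (by simp)
  exact hN _ h2 _ (by simp)

/-- `f` is single valued on `Y`, uniformly definable -/
theorem levC_ud1 : UD TraC (fun N (v : Fin 2 → N) => ∀ y ∈ (v 1).1, ∀ x x' : N,
    ZFSet.pair y x.1 ∈ (v 0).1 → ZFSet.pair y x'.1 ∈ (v 0).1 → x = x') := by
  (repeat' first
      | exact UT.var _ | exact UT.last | assumption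
      | refine UD.pairMem ?_ ?_ ?_ | refine UD.isPair ?_ ?_ ?_ | refine UD.mem ?_ ?_
      | refine UD.eqv ?_ ?_ | refine UD.eq ?_ ?_ | refine UD.subset ?_ ?_
      | refine UD.isEmpty ?_ | refine UD.isTrans ?_ | refine UD.isOrd ?_ | refine UD.isNat ?_
      | refine UD.isUpair ?_ ?_ ?_ | refine UD.isInsert ?_ ?_ ?_ | refine UD.isUnion ?_ ?_ ?_
      | refine UD.and ?_ ?_ | refine UD.or ?_ ?_ | refine UD.iff ?_ ?_ | refine UD.not ?_
      | refine UD.imp ?_ ?_ | refine UD.all ?_ | refine UD.ex ?_ | exact UD.false' | exact UD.true'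
      | refine UD.ball ?_ ?_ | refine UD.bex ?_ ?_)

theorem levC_ud2 : UD TraC (fun N (v : Fin 3 → N) => ∀ x ∈ (v 2).1, ∃ y ∈ (v 1).1,
    ZFSet.pair y x ∈ (v 0).1) := by
  (repeat' first
      | exact UT.var _ | exact UT.last | assumption
      | refine UD.pairMem ?_ ?_ ?_ | refine UD.isPair ?_ ?_ ?_ | refine UD.mem ?_ ?_
      | refine UD.eqv ?_ ?_ | refine UD.eq ?_ ?_ | refine UD.subset ?_ ?_
      | refine UD.isEmpty ?_ | refine UD.isTrans ?_ | refine UD.isOrd ?_ | refine UD.isNat ?_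
      | refine UD.isUpair ?_ ?_ ?_ | refine UD.isInsert ?_ ?_ ?_ | refine UD.isUnion ?_ ?_ ?_
      | refine UD.and ?_ ?_ | refine UD.or ?_ ?_ | refine UD.iff ?_ ?_ | refine UD.not ?_
      | refine UD.imp ?_ ?_ | refine UD.all ?_ | refine UD.ex ?_ | exact UD.false' | exact UD.true'
      | refine UD.ball ?_ ?_ | refine UD.bex ?_ ?_)

theorem levC_ud3 : UD TraC (fun N (v : Fin 3 → N) => ∃ x ∈ (v 1).1,
    ZFSet.pair (v 0).1 x ∈ (v 2).1) := by
  (repeat' first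
      | exact UT.var _ | exact UT.last | assumption
      | refine UD.pairMem ?_ ?_ ?_ | refine UD.isPair ?_ ?_ ?_ | refine UD.mem ?_ ?_
      | refine UD.eqv ?_ ?_ | refine UD.eq ?_ ?_ | refine UD.subset ?_ ?_
      | refine UD.isEmpty ?_ | refine UD.isTrans ?_ | refine UD.isOrd ?_ | refine UD.isNat ?_
      | refine UD.isUpair ?_ ?_ ?_ | refine UD.isInsert ?_ ?_ ?_ | refine UD.isUnion ?_ ?_ ?_
      | refine UD.and ?_ ?_ | refine UD.or ?_ ?_ | refine UD.iff ?_ ?_ | refine UD.not ?_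
      | refine UD.imp ?_ ?_ | refine UD.all ?_ | refine UD.ex ?_ | exact UD.false' | exact UD.true'
      | refine UD.ball ?_ ?_ | refine UD.bex ?_ ?_)

theorem levC_ud4 : UD TraC (fun N (v : Fin 2 → N) => Cvr N (v 0).1 (v 1).1) := by
  have h : UD TraC (fun N (v : Fin 2 → N) => ∃ f : N, (∀ y ∈ (v 0).1, ∀ x x' : N,
      ZFSet.pair y x.1 ∈ f.1 → ZFSet.pair y x'.1 ∈ f.1 → x = x') ∧
      ∀ x ∈ (v 1).1, ∃ y ∈ (v 0).1, ZFSet.pair y x ∈ f.1) := by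
    (repeat' first
      | exact UT.var _ | exact UT.last | assumption
      | refine UD.pairMem ?_ ?_ ?_ | refine UD.isPair ?_ ?_ ?_ | refine UD.mem ?_ ?_
      | refine UD.eqv ?_ ?_ | refine UD.eq ?_ ?_ | refine UD.subset ?_ ?_
      | refine UD.isEmpty ?_ | refine UD.isTrans ?_ | refine UD.isOrd ?_ | refine UD.isNat ?_
      | refine UD.isUpair ?_ ?_ ?_ | refine UD.isInsert ?_ ?_ ?_ | refine UD.isUnion ?_ ?_ ?_
      | refine UD.and ?_ ?_ | refine UD.or ?_ ?_ | refine UD.iff ?_ ?_ | refine UD.not ?_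
      | refine UD.imp ?_ ?_ | refine UD.all ?_ | refine UD.ex ?_ | exact UD.false' | exact UD.true'
      | refine UD.ball ?_ ?_ | refine UD.bex ?_ ?_)
  refine h.congr fun N hN v => ?_
  have hN' : Tra N := hN
  constructor
  · rintro ⟨f, h1, h2⟩
    refine ⟨f.1, f.2, fun y hy x x' hx hx' => ?_, h2⟩
    exact congrArg Subtype.val (h1 y hy ⟨x, levC_snd hN' f.2 hx⟩ ⟨x', levC_snd hN' f.2 hx'⟩ hx hx')
  · rintro ⟨f, hf, h1, h2⟩
    exact ⟨⟨f, hf⟩, fun y hy x x' hx hx' => Subtype.ext (h1 y hy x.1 x'.1 hx hx'), h2⟩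

section

variable {N N' A B : Set ZFSet.{0}} {e : ZFSet.{0} → ZFSet.{0}} (hN : CTM N) (hN' : CTM N')
  (hA : Lev N A) (hB : Lev N' B) (he : Elem A B e)

include hN hN' hA hB he

theorem levC_image {Y a : ZFSet.{0}} (hY : Y ∈ A) (heY : e Y = Y) (hfix : ∀ y ∈ Y, e y = y)
    (ha : a ∈ A) (hc : Cvr N Y a) : ∀ z, z ∈ e a ↔ ∃ x ∈ a, z = e x := by
  obtain ⟨f, hf, h1, h2⟩ := (Lev.cvr hN hA hY ha).1 hc
  have hAt := hA.tra
  have hBt := hB.tra
  have hne : A.Nonempty := ⟨_, hY⟩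
  have ef : e f ∈ B := he.map _ hf
  have ea : e a ∈ B := he.map _ ha
  have k1 := (Elem.ud he hAt hBt levC_ud1 hne ![⟨f, hf⟩, ⟨Y, hY⟩]).1 (by
    intro y hy x x' hx hx'
    exact Subtype.ext (h1 y hy x.1 x'.1 hx hx'))
  have k2 := (Elem.ud he hAt hBt levC_ud2 hne ![⟨f, hf⟩, ⟨Y, hY⟩, ⟨a, ha⟩]).1 h2
  have k1' : ∀ y ∈ e Y, ∀ x x' : B, ZFSet.pair y x.1 ∈ e f → ZFSet.pair y x'.1 ∈ e f → x = x' := k1
  have k2' : ∀ x ∈ e a, ∃ y ∈ e Y, ZFSet.pair y x ∈ e f := k2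
  rw [heY] at k1' k2'
  intro z
  constructor
  · intro hz
    obtain ⟨y, hy, hyz⟩ := k2' z hz
    have hyA : y ∈ A := hAt _ hY _ hy
    have k3 := (Elem.ud he hAt hBt levC_ud3 hne ![⟨y, hyA⟩, ⟨a, ha⟩, ⟨f, hf⟩]).2 (by
      show ∃ x ∈ e a, ZFSet.pair (e y) x ∈ e f
      rw [hfix y hy]
      exact ⟨z, hz, hyz⟩)
    obtain ⟨x, hx, hyx⟩ : ∃ x ∈ a, ZFSet.pair y x ∈ f := k3
    refine ⟨x, hx, ?_⟩
    have hxA : x ∈ A := hAt _ ha _ hx
    have hpA : ZFSet.pair y x ∈ A := hAt _ hf _ hyx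
    have h3 := (Elem.mem he hAt hBt hpA hf).1 hyx
    rw [Elem.opair he hAt hBt hyA hxA hpA, hfix y hy] at h3
    exact congrArg Subtype.val (k1' y hy ⟨z, hBt _ ea _ hz⟩ ⟨e x, he.map _ hxA⟩ hyz h3)
  · rintro ⟨x, hx, rfl⟩
    exact (Elem.mem he hAt hBt (hAt _ ha _ hx) ha).1 hx

theorem Elem.image {δ : Ordinal.{0}} (hδ : δ.toZFSet ∈ A) (hfix : ∀ ξ ≤ δ, e ξ.toZFSet = ξ.toZFSet)
    {a : ZFSet.{0}} (ha : a ∈ A) (hc : Cvr N δ.toZFSet a) : ∀ z, z ∈ e a ↔ ∃ x ∈ a, z = e x := by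
  refine levC_image hN hN' hA hB he hδ (hfix δ le_rfl) ?_ ha hc
  intro y hy
  obtain ⟨ξ, hξ, rfl⟩ := Ordinal.mem_toZFSet_iff.1 hy
  exact hfix ξ hξ.le

/-- The case of countable sets. -/
theorem Elem.image_ctb {a : ZFSet.{0}} (ha : a ∈ A) (hc : Ctb N a) : ∀ z, z ∈ e a ↔ ∃ x ∈ a, z = e x := by
  refine levC_image hN hN' hA hB he hA.om (Elem.om he hA.tra hB.tra hA.om) ?_ ha
    ((ctb_iff_cvr' hN).1 hc)
  intro y hy
  have hyA : y ∈ A := hA.tra _ hA.om _ hy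
  obtain ⟨n, rfl⟩ := mem_omZ.1 hy
  exact Elem.nat he hA.tra hB.tra n hyA

theorem Elem.ctb {a : ZFSet.{0}} (ha : a ∈ A) : Ctb N a ↔ Ctb N' (e a) := by
  rw [Lev.ctb hN hA ha, Lev.ctb hN' hB (he.map _ ha)]
  have h := Elem.ud he hA.tra hB.tra levC_ud4 ⟨_, ha⟩ ![⟨omZ, hA.om⟩, ⟨a, ha⟩]
  have h' : Cvr A omZ a ↔ Cvr B (e omZ) (e a) := h
  rw [Elem.om he hA.tra hB.tra hA.om] at h'
  exact h'

end

end Pool.Agent.H7.IG
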