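import Pool.Agent.H7.IG.LevA

/-!
# IG, Part 4: elementary embeddings between transitive structures, basic facts

`Elem.ud`: extend the tuple to an assignment `ℕ → A`. The others: apply `Elem.ud` to simple predicates (blocks of UD.lean).
`Elem.om`: `omZ` is uniformly definable in transitive sets (`UD.isNat`): `x = ω` iff `∅ ∈ x`, all elements of `x` are natural numbers and `x` is closed under successors;
if `A` contains `ω` then it contains all natural numbers.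
-/

set_option autoImplicit false
set_option linter.unusedVariables false
set_option linter.unusedSectionVars false
set_option linter.unusedSimpArgs false
set_option linter.unusedTactic false
set_option linter.unreachableTactic false

namespace Pool.Agent.H7.IG

open Pool.Agent.H17.Omega Pool.Agent.H17.Omega.CTM Pool.Agent.H52.GX Pool.Agent.H52.GC

/-- A first-order description of `ω`. -/
theorem eq_omZ_iff {x : ZFSet.{0}} : x = omZ ↔ (∀ z ∈ x, IsNatZ z) ∧ (∃ z ∈ x, z = ∅) ∧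
    ∀ z ∈ x, ∃ w ∈ x, w = insert z z := by
  constructor
  · rintro rfl
    refine ⟨fun z hz => isNatZ_iff.2 (mem_omZ.1 hz), ⟨natZ 0, natZ_mem_omZ 0, rfl⟩, ?_⟩
    intro z hz
    obtain ⟨n, rfl⟩ := mem_omZ.1 hz
    exact ⟨natZ (n + 1), natZ_mem_omZ (n + 1), rfl⟩
  · rintro ⟨h1, ⟨z0, hz0, hz0'⟩, h3⟩
    ext z
    rw [mem_omZ]
    constructor
    · exact fun hz => isNatZ_iff.1 (h1 z hz)
    · rintro ⟨n, rfl⟩
      induction n with
      | zero =>
        rw [hz0'] at hz0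
        exact hz0
      | succ n ih =>
        obtain ⟨w, hw, hw'⟩ := h3 _ ih
        rw [hw'] at hw
        exact hw

theorem ud_om : UD TraC (fun N (v : Fin 1 → N) => (v 0).1 = omZ) := by
  have h : UD TraC (fun N (v : Fin 1 → N) => (∀ z ∈ (v 0).1, IsNatZ z) ∧ (∃ z ∈ (v 0).1, z = ∅) ∧
      ∀ z ∈ (v 0).1, ∃ w ∈ (v 0).1, w = insert z z) := by
    (repeat' first
      | exact UT.var _ | exact UT.last | assumption
      | refine UD.pairMem ?_ ?_ ?_ | refine UD.isPair ?_ ?_ ?_ | refine UD.mem ?_ ?_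
      | refine UD.eqv ?_ ?_ | refine UD.eq ?_ ?_ | refine UD.subset ?_ ?_
      | refine UD.isEmpty ?_ | refine UD.isTrans ?_ | refine UD.isOrd ?_ | refine UD.isNat ?_
      | refine UD.isUpair ?_ ?_ ?_ | refine UD.isInsert ?_ ?_ ?_ | refine UD.isUnion ?_ ?_ ?_
      | refine UD.and ?_ ?_ | refine UD.or ?_ ?_ | refine UD.iff ?_ ?_ | refine UD.not ?_
      | refine UD.imp ?_ ?_ | refine UD.all ?_ | refine UD.ex ?_ | exact UD.false' | exact UD.true'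
      | refine UD.ball ?_ ?_ | refine UD.bex ?_ ?_)
  exact h.congr fun N _ v => eq_omZ_iff.symm

section

variable {A B : Set ZFSet.{0}} {e : ZFSet.{0} → ZFSet.{0}} (he : Elem A B e) (hA : Tra A) (hB : Tra B)

include he hA hB

theorem Elem.ud {n : ℕ} {Ψ : (N : Set ZFSet.{0}) → (Fin n → N) → Prop} (hΨ : UD TraC Ψ) (hne : A.Nonempty)
    (v : Fin n → A) : Ψ A v ↔ Ψ B (fun i => ⟨e (v i).1, he.map _ (v i).2⟩) := by
  classical
  obtain ⟨θ, hθ⟩ := hΨ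
  obtain ⟨a0, ha0⟩ := hne
  let f : ℕ → A := fun i => if h : i < n then v ⟨i, h⟩ else ⟨a0, ha0⟩
  have hf : ∀ i : Fin n, f i = v i := by
    intro i
    simp only [f, dif_pos i.2]
  refine (hθ A hA v f hf).symm.trans ((he.sat θ f).trans (hθ B hB _ _ ?_))
  intro i
  apply Subtype.ext
  show e (f i).1 = e (v i).1
  rw [hf i]

theorem Elem.mem {x y : ZFSet.{0}} (hx : x ∈ A) (hy : y ∈ A) : x ∈ y ↔ e x ∈ e y := by
  have h := he.ud hA hB (Ψ := fun N (v : Fin 2 → N) => (v 0).1 ∈ (v 1).1) (UD.mem (UT.var _) (UT.var _)) ⟨x, hx⟩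
    ![⟨x, hx⟩, ⟨y, hy⟩]
  exact h

theorem Elem.inj {x y : ZFSet.{0}} (hx : x ∈ A) (hy : y ∈ A) (h : e x = e y) : x = y := by
  have h1 := he.ud hA hB (Ψ := fun N (v : Fin 2 → N) => (v 0).1 = (v 1).1) (UD.eqv (UT.var _) (UT.var _)) ⟨x, hx⟩
    ![⟨x, hx⟩, ⟨y, hy⟩]
  exact h1.2 h

theorem Elem.sbs {x y : ZFSet.{0}} (hx : x ∈ A) (hy : y ∈ A) : x ⊆ y ↔ e x ⊆ e y := by
  have h := he.ud hA hB (Ψ := fun N (v : Fin 2 → N) => (v 0).1 ⊆ (v 1).1) (UD.subset (UT.var _) (UT.var _)) ⟨x, hx⟩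
    ![⟨x, hx⟩, ⟨y, hy⟩]
  exact h

theorem Elem.opair {x y : ZFSet.{0}} (hx : x ∈ A) (hy : y ∈ A) (hxy : ZFSet.pair x y ∈ A) :
    e (ZFSet.pair x y) = ZFSet.pair (e x) (e y) := by
  have h := he.ud hA hB (Ψ := fun N (v : Fin 3 → N) => (v 0).1 = ZFSet.pair (v 1).1 (v 2).1)
    (UD.isPair (UT.var _) (UT.var _) (UT.var _)) ⟨x, hx⟩ ![⟨ZFSet.pair x y, hxy⟩, ⟨x, hx⟩, ⟨y, hy⟩]
  exact h.1 rfl

/-- If a pair is in the range, so are its components. -/
theorem Elem.comp {z a b : ZFSet.{0}} (hz : z ∈ A) (h : e z = ZFSet.pair a b) :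
    ∃ x ∈ A, ∃ y ∈ A, z = ZFSet.pair x y ∧ e x = a ∧ e y = b := by
  have hpB : ZFSet.pair a b ∈ B := h ▸ he.map z hz
  have h1 : ({a, b} : ZFSet.{0}) ∈ B := hB _ hpB _ (by
    rw [ZFSet.pair, ZFSet.mem_pair]; exact Or.inr rfl)
  have ha : a ∈ B := hB _ h1 _ (by simp)
  have hb : b ∈ B := hB _ h1 _ (by simp)
  have h2 := he.ud hA hB (Ψ := fun N (v : Fin 1 → N) => ∃ x y : N, (v 0).1 = ZFSet.pair x.1 y.1)
    (by
      refine UD.ex (P := fun N v x => ∃ y : N, (v 0).1 = ZFSet.pair x.1 y.1) ?_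
      refine UD.ex (P := fun N v y => (v 0).1 = ZFSet.pair (v (Fin.last 1)).1 y.1) ?_
      exact UD.isPair (UT.var _) (UT.var _) (UT.var _)) ⟨z, hz⟩ ![⟨z, hz⟩]
  obtain ⟨x, y, hxy⟩ := h2.2 ⟨⟨a, ha⟩, ⟨b, hb⟩, h⟩
  have hxy' : z = ZFSet.pair x.1 y.1 := hxy
  have h3 := he.opair hA hB x.2 y.2 (hxy' ▸ hz)
  rw [← hxy', h, ZFSet.pair_inj] at h3
  exact ⟨x.1, x.2, y.1, y.2, hxy', h3.1.symm, h3.2.symm⟩

theorem Elem.nat (n : ℕ) (hn : natZ n ∈ A) : e (natZ n) = natZ n := by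
  induction n with
  | zero =>
    have h := he.ud hA hB (Ψ := fun N (v : Fin 1 → N) => (v 0).1 = ∅) (UD.isEmpty (UT.var _)) ⟨_, hn⟩
      ![⟨_, hn⟩]
    exact h.1 rfl
  | succ n ih =>
    have hn' : natZ n ∈ A := hA _ hn _ (natZ_mem.2 (Nat.lt_succ_self n))
    have h := he.ud hA hB (Ψ := fun N (v : Fin 2 → N) => (v 0).1 = insert (v 1).1 (v 1).1)
      (UD.isInsert (UT.var _) (UT.var _) (UT.var _)) ⟨_, hn⟩ ![⟨_, hn⟩, ⟨_, hn'⟩]
    have h2 : e (natZ (n + 1)) = insert (e (natZ n)) (e (natZ n)) := h.1 rfl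
    rw [h2, ih hn']
    rfl

theorem Elem.om (h : omZ ∈ A) : e omZ = omZ := by
  have h1 := he.ud hA hB ud_om ⟨_, h⟩ ![⟨_, h⟩]
  exact h1.1 rfl

end

end Pool.Agent.H7.IG
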