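import Pool.Agent.H7.IG.ChkD
import Pool.Agent.H7.IG.LevB
import Pool.Agent.H7.IG.Gx2

/-!
# IG, Part 4: canonical names for ground model elements

`ud_IsChk`: bounded formula (blocks of UD.lean; for `w = (σ, p)` etc. bounded quantifiers).
`IsChk.vl`: `∈`-induction on `x` (for all `τ`), `mem_vl`.
`Elem.om'`: `x = ω` is uniformly definable (`Elem.ud`). `cvr_vl`: compose the covering of `T` with `τ ↦ vl G τ` (definable, `ud_vl`, Gx2; `cvr_of_dfn`, `Cvr.trans`).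

Status: complete (helper26).
-/

set_option autoImplicit false
set_option linter.unusedVariables false
set_option linter.unusedSectionVars false
set_option linter.unusedSimpArgs false
set_option linter.unusedTactic false
set_option linter.unreachableTactic false

namespace Pool.Agent.H7.IG

open Pool.Agent.H17.Omega Pool.Agent.H17.Omega.CTM Pool.Agent.H52.GX Pool.Agent.H52.GC

theorem IsChk.iff {P T K : ZFSet.{0}} : IsChk P T K ↔
    (∀ w ∈ K, ∃ x ∈ T, ∃ τ ∈ T, w = ZFSet.pair x τ) ∧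
    (∀ x ∈ T, ∃ τ ∈ T, ZFSet.pair x τ ∈ K) ∧
    (∀ x ∈ T, ∀ τ ∈ T, ZFSet.pair x τ ∈ K → ∀ w ∈ τ, ∃ y ∈ x, ∃ σ ∈ T, ∃ p ∈ P,
      ZFSet.pair y σ ∈ K ∧ w = ZFSet.pair σ p) ∧
    ∀ x ∈ T, ∀ τ ∈ T, ZFSet.pair x τ ∈ K → ∀ y ∈ x, ∃ σ ∈ T, ZFSet.pair y σ ∈ K ∧
      ∀ p ∈ P, ZFSet.pair σ p ∈ τ :=
  ⟨fun h => ⟨h.1, h.2, h.3, h.4⟩, fun h => ⟨h.1, h.2.1, h.2.2.1, h.2.2.2⟩⟩

theorem ud_IsChk : UD TraC (fun N (v : Fin 3 → N) => IsChk (v 0).1 (v 1).1 (v 2).1) := by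
  simp only [IsChk.iff]
  (repeat' first
      | exact UT.var _ | exact UT.last | assumption
      | refine UD.pairMem ?_ ?_ ?_ | refine UD.isPair ?_ ?_ ?_ | refine UD.mem ?_ ?_
      | refine UD.eqv ?_ ?_ | refine UD.eq ?_ ?_ | refine UD.subset ?_ ?_
      | refine UD.isEmpty ?_ | refine UD.isTrans ?_ | refine UD.isOrd ?_ | refine UD.isNat ?_
      | refine UD.isUpair ?_ ?_ ?_ | refine UD.isInsert ?_ ?_ ?_ | refine UD.isUnion ?_ ?_ ?_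
      | refine UD.and ?_ ?_ | refine UD.or ?_ ?_ | refine UD.iff ?_ ?_ | refine UD.not ?_
      | refine UD.imp ?_ ?_ | refine UD.all ?_ | refine UD.ex ?_ | exact UD.false' | exact UD.true'
      | refine UD.ball ?_ ?_ | refine UD.bex ?_ ?_)

theorem IsChk.vl {P T K : ZFSet.{0}} (h : IsChk P T K) {G : ZFSet.{0}} (hG : ∀ p ∈ G, p ∈ P) (hne : ∃ p, p ∈ G)
    {x τ : ZFSet.{0}} (hx : ZFSet.pair x τ ∈ K) : vl G τ = x := by
  induction x using ZFSet.inductionOn generalizing τ with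
  | _ x ih =>
    obtain ⟨x', hx', τ', hτ', he⟩ := h.sub _ hx
    obtain ⟨rfl, rfl⟩ := ZFSet.pair_inj.1 he
    ext z
    rw [mem_vl]
    constructor
    · rintro ⟨σ, p, hp, h1, rfl⟩
      obtain ⟨y, hy, σ', hσ', p', hp', h2, h3⟩ := h.dn _ hx' _ hτ' hx _ h1
      obtain ⟨rfl, rfl⟩ := ZFSet.pair_inj.1 h3
      rw [ih y hy h2]
      exact hy
    · intro hz
      obtain ⟨σ, hσ, h1, h2⟩ := h.up _ hx' _ hτ' hx z hz
      obtain ⟨p, hp⟩ := hne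
      exact ⟨σ, p, hp, h2 p (hG p hp), ih z hz h1⟩

theorem Elem.om' {A B : Set ZFSet.{0}} {e : ZFSet.{0} → ZFSet.{0}} (he : Elem A B e) (hA : Tra A) (hB : Tra B)
    {x : ZFSet.{0}} (hx : x ∈ A) (h : e x = omZ) : x = omZ := by
  have hom : ∀ y : ZFSet.{0}, ((∃ z ∈ y, z = ∅) ∧ (∀ z ∈ y, IsNatZ z) ∧
      ∀ z ∈ y, ∃ w ∈ y, w = insert z z) ↔ y = omZ := by
    intro y
    constructor
    · rintro ⟨⟨z, hz, rfl⟩, h2, h3⟩
      ext z
      rw [mem_omZ]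
      constructor
      · exact fun hz => isNatZ_iff.1 (h2 z hz)
      · rintro ⟨n, rfl⟩
        induction n with
        | zero => exact hz
        | succ n ih =>
          obtain ⟨w, hw, h4⟩ := h3 _ ih
          rw [h4] at hw
          exact hw
    · rintro rfl
      refine ⟨⟨∅, mem_omZ.2 ⟨0, rfl⟩, rfl⟩, fun z hz => isNatZ_iff.2 (mem_omZ.1 hz), ?_⟩
      intro z hz
      obtain ⟨n, rfl⟩ := mem_omZ.1 hz
      exact ⟨natZ (n + 1), natZ_mem_omZ _, rfl⟩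
  have hud : UD TraC (fun N (v : Fin 1 → N) => (∃ z ∈ (v 0).1, z = ∅) ∧ (∀ z ∈ (v 0).1, IsNatZ z) ∧
      ∀ z ∈ (v 0).1, ∃ w ∈ (v 0).1, w = insert z z) := by
    (repeat' first
      | exact UT.var _ | exact UT.last | assumption
      | refine UD.pairMem ?_ ?_ ?_ | refine UD.isPair ?_ ?_ ?_ | refine UD.mem ?_ ?_
      | refine UD.eqv ?_ ?_ | refine UD.eq ?_ ?_ | refine UD.subset ?_ ?_
      | refine UD.isEmpty ?_ | refine UD.isTrans ?_ | refine UD.isOrd ?_ | refine UD.isNat ?_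
      | refine UD.isUpair ?_ ?_ ?_ | refine UD.isInsert ?_ ?_ ?_ | refine UD.isUnion ?_ ?_ ?_
      | refine UD.and ?_ ?_ | refine UD.or ?_ ?_ | refine UD.iff ?_ ?_ | refine UD.not ?_
      | refine UD.imp ?_ ?_ | refine UD.all ?_ | refine UD.ex ?_ | exact UD.false' | exact UD.true'
      | refine UD.ball ?_ ?_ | refine UD.bex ?_ ?_)
  have h1 := Elem.ud he hA hB hud ⟨x, hx⟩ (fun _ => ⟨x, hx⟩)
  rw [← hom]
  refine h1.2 ?_
  show (∃ z ∈ e x, z = ∅) ∧ (∀ z ∈ e x, IsNatZ z) ∧ ∀ z ∈ e x, ∃ w ∈ e x, w = insert z z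
  rw [hom]
  exact h

theorem cvr_vl {N : Set ZFSet.{0}} (hN : CTM N) {X T G : ZFSet.{0}} (hX : X ∈ N) (hT : T ∈ N) (hG : G ∈ N)
    (hc : Cvr N X T) : ∃ t ∈ N, (∀ x, x ∈ t ↔ x ∈ Tx (El T) G) ∧ Cvr N X t := by
  have hF : hN.Dfn (fun v : Fin 2 → N => (v 1).1 = vl (⟨G, hG⟩ : N).1 (v 0).1) :=
    UD.d3 (P := fun N a b c => c.1 = vl a.1 b.1) (a := fun _ => ⟨G, hG⟩) (b := fun v => v 0)
      (c := fun v => v 1) ud_vl hN (DT.const _) (DT.var 0) (DT.var 1)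
  obtain ⟨t, ht, ht'⟩ := hN.exists_repl (F := fun τ y : N => y.1 = vl G τ.1) hF hT
    (fun x hx y y' h1 h2 => Subtype.ext (h1.trans h2.symm))
  have key : ∀ x, x ∈ t ↔ x ∈ Tx (El T) G := by
    intro x
    constructor
    · intro hx
      obtain ⟨τ, hτ, h1⟩ := (ht' ⟨x, hN.mem_of_mem ht hx⟩).1 hx
      exact ⟨τ.1, hτ, h1⟩
    · rintro ⟨τ, hτ, rfl⟩
      have hτT : τ ∈ T := hτ
      have hτN : τ ∈ N := hN.mem_of_mem hT hτT
      exact (ht' ⟨vl G τ, vl_mem hN hG hτN⟩).2 ⟨⟨τ, hτN⟩, hτT, rfl⟩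
  refine ⟨t, ht, key, Cvr.trans hN hX hT ht hc ?_⟩
  refine cvr_of_dfn hN (F := fun τ y : N => y.1 = vl G τ.1) hF hT ht
    (fun y hy x x' h1 h2 => Subtype.ext (h1.trans h2.symm)) fun x hx => ?_
  obtain ⟨τ, hτ, h1⟩ := (ht' x).1 hx
  exact ⟨τ, hτ, h1⟩

end Pool.Agent.H7.IG
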