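import Pool.Agent.H7.IG.Lev

/-!
# IG, Part 4: basic facts on level-like sets

`Lev_Lv`: `V_ζ` of `N`: ranks. `Lev.prod`: `prod x y ⊆ P(P(x ∪ y))`. `Lev.fin`: insert one by one. `Lev.cvr`: intersect the function with `prod Y X`.
-/

set_option autoImplicit false
set_option linter.unusedVariables false
set_option linter.unusedSectionVars false
set_option linter.unusedSimpArgs false
set_option linter.unusedTactic false
set_option linter.unreachableTactic false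

namespace Pool.Agent.H7.IG

open Pool.Agent.H17.Omega Pool.Agent.H17.Omega.CTM Pool.Agent.H52.GX Pool.Agent.H52.GC

theorem Lev_Lv {N : Set ZFSet.{0}} (hN : CTM N) {ζ : Ordinal.{0}} (hζ : ζ.toZFSet ∈ N)
    (hl : ∀ γ < ζ, Order.succ γ < ζ) (hω : Ordinal.omega0 < ζ) : Lev N (Lv N ζ) := by
  refine ⟨fun x hx => hx.1, ?_, ?_, ?_, ?_, ?_, ?_⟩
  · intro x hx y hy
    exact ⟨hN.mem_of_mem hx.1 hy, (ZFSet.rank_lt_of_mem hy).trans hx.2⟩
  · refine ⟨hN.omZ_mem, lt_of_le_of_lt ?_ hω⟩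
    rw [ZFSet.rank_le_iff]
    intro y hy
    obtain ⟨n, rfl⟩ := mem_omZ.1 hy
    rw [natZ_eq, Ordinal.rank_toZFSet]
    exact Ordinal.natCast_lt_omega0 n
  · intro x hx y hy
    refine ⟨hN.upair_mem hx.1 hy.1, ?_⟩
    rw [ZFSet.rank_pair]
    exact max_lt (hl _ hx.2) (hl _ hy.2)
  · intro x hx
    exact ⟨hN.sUnion_mem hx.1, (ZFSet.rank_sUnion_le x).trans_lt hx.2⟩
  · intro x hx y hy hyx
    exact ⟨hy, (ZFSet.rank_mono hyx).trans_lt hx.2⟩
  · intro x hx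
    obtain ⟨p, hp, hp'⟩ := hN.exists_pow hx.1
    refine ⟨p, ⟨hp, lt_of_le_of_lt ?_ (hl _ hx.2)⟩, hp'⟩
    rw [ZFSet.rank_le_iff]
    intro y hy
    exact Order.lt_succ_of_le (ZFSet.rank_mono ((hp' y).1 hy).2)

section

variable {N T : Set ZFSet.{0}} (hN : CTM N) (h : Lev N T)

include hN h

theorem levA_union {x y : ZFSet.{0}} (hx : x ∈ T) (hy : y ∈ T) : x ∪ y ∈ T := by
  have h1 := h.sun _ (h.pair x hx y hy)
  rwa [show ZFSet.sUnion ({x, y} : ZFSet.{0}) = x ∪ y from by ext z; simp] at h1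

theorem Lev.prod {x y : ZFSet.{0}} (hx : x ∈ T) (hy : y ∈ T) : ZFSet.prod x y ∈ T := by
  have hu : x ∪ y ∈ T := levA_union hN h hx hy
  obtain ⟨p1, hp1, h1⟩ := h.pow _ hu
  obtain ⟨p2, hp2, h2⟩ := h.pow _ hp1
  refine h.sbs p2 hp2 _ (hN.prod_mem (h.sub hx) (h.sub hy)) ?_
  intro z hz
  rw [ZFSet.mem_prod] at hz
  obtain ⟨a, ha, b, hb, rfl⟩ := hz
  have haN : a ∈ N := hN.mem_of_mem (h.sub hx) ha
  have hbN : b ∈ N := hN.mem_of_mem (h.sub hy) hb
  refine (h2 _).2 ⟨hN.pair_mem haN hbN, ?_⟩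
  intro w hw
  rw [pair_eq_upair, ZFSet.mem_pair] at hw
  rcases hw with rfl | rfl
  · refine (h1 _).2 ⟨hN.upair_mem haN haN, ?_⟩
    intro t ht
    rw [ZFSet.mem_pair] at ht
    rcases ht with rfl | rfl <;> exact ZFSet.mem_union.2 (Or.inl ha)
  · refine (h1 _).2 ⟨hN.upair_mem haN hbN, ?_⟩
    intro t ht
    rw [ZFSet.mem_pair] at ht
    rcases ht with rfl | rfl
    · exact ZFSet.mem_union.2 (Or.inl ha)
    · exact ZFSet.mem_union.2 (Or.inr hb)

theorem Lev.opair {x y : ZFSet.{0}} (hx : x ∈ T) (hy : y ∈ T) : ZFSet.pair x y ∈ T := by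
  rw [pair_eq_upair]
  exact h.pair _ (h.pair _ hx _ hx) _ (h.pair _ hx _ hy)

theorem Lev.union {x y : ZFSet.{0}} (hx : x ∈ T) (hy : y ∈ T) : x ∪ y ∈ T :=
  levA_union hN h hx hy

theorem Lev.fin {a : ZFSet.{0}} (ha : FinZ a) (hs : ∀ x ∈ a, x ∈ T) : a ∈ T := by
  classical
  obtain ⟨s, hs'⟩ := ha
  induction s using Finset.induction_on generalizing a with
  | empty =>
    have h0 : a = ∅ := by
      rw [ZFSet.eq_empty]
      intro z hz
      exact absurd ((hs' z).1 hz) (Finset.notMem_empty z)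
    rw [h0]
    exact h.sbs _ h.om _ hN.empty_mem fun z hz => absurd hz (ZFSet.notMem_empty z)
  | insert x s hx ih =>
    have h1 : a = {x, x} ∪ (ZFSet.sep (fun z => z ∈ s) a) := by
      ext z
      rw [ZFSet.mem_union, ZFSet.mem_pair, ZFSet.mem_sep, hs', Finset.mem_insert]
      constructor
      · rintro (h | h)
        · exact Or.inl (Or.inl h)
        · exact Or.inr ⟨Or.inr h, h⟩
      · rintro ((h | h) | ⟨_, h⟩)
        · exact Or.inl h
        · exact Or.inl h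
        · exact Or.inr h
    have hxT : x ∈ T := hs x ((hs' x).2 (Finset.mem_insert_self _ _))
    rw [h1]
    refine levA_union hN h (h.pair _ hxT _ hxT) (ih ?_ ?_)
    · intro z hz
      rw [ZFSet.mem_sep] at hz
      exact hs z hz.1
    · intro z
      rw [ZFSet.mem_sep, hs', Finset.mem_insert]
      exact ⟨fun h => h.2, fun h => ⟨Or.inr h, h⟩⟩

end

/-- A single valued `f` covering `X` by `Y` can be found in the level. -/
theorem Lev.cvr {N T : Set ZFSet.{0}} (hN : CTM N) (h : Lev N T) {Y X : ZFSet.{0}} (hY : Y ∈ T) (hX : X ∈ T) :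
    Cvr N Y X ↔ Cvr T Y X := by
  constructor
  · rintro ⟨f, hf, h1, h2⟩
    have hp := Lev.prod hN h hY hX
    have hfN : ZFSet.sep (fun z => z ∈ f) (ZFSet.prod Y X) ∈ N := by
      refine hN.sep_mem ?_ (h.sub hp)
      show hN.Dfn (fun v : Fin 1 → N => (v 0).1 ∈ (⟨f, hf⟩ : N).1)
      exact Dfn.mem (DT.var _) (DT.const _)
    refine ⟨ZFSet.sep (fun z => z ∈ f) (ZFSet.prod Y X), h.sbs _ hp _ hfN
      (fun z hz => (ZFSet.mem_sep.1 hz).1), ?_, ?_⟩
    · intro y hy x x' hx hx'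
      exact h1 y hy x x' (ZFSet.mem_sep.1 hx).2 (ZFSet.mem_sep.1 hx').2
    · intro x hx
      obtain ⟨y, hy, hyx⟩ := h2 x hx
      exact ⟨y, hy, ZFSet.mem_sep.2 ⟨ZFSet.pair_mem_prod.2 ⟨hy, hx⟩, hyx⟩⟩
  · rintro ⟨f, hf, h1⟩
    exact ⟨f, h.sub hf, h1⟩

theorem Lev.ctb {N T : Set ZFSet.{0}} (hN : CTM N) (h : Lev N T) {X : ZFSet.{0}} (hX : X ∈ T) :
    Ctb N X ↔ Cvr T omZ X := by
  rw [ctb_iff_cvr' hN]
  exact Lev.cvr hN h h.om hX

end Pool.Agent.H7.IG
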