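import Pool.Agent.H7.IG.Gx
import Pool.Agent.H7.IG.LevA

/-!
# IG, Part 4: canonical names for ground model elements, as a relation (definition)

`IsChk P T K`: `K` is a set of pairs `(x, τ)`, `x, τ ∈ T`, total on `T`, where `τ = {(σ, p) : p ∈ P, (y, σ) ∈ K` for some `y ∈ x}` (up to repetitions).
-/

set_option autoImplicit false
set_option linter.unusedVariables false
set_option linter.unusedSectionVars false
set_option linter.unusedSimpArgs false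
set_option linter.unusedTactic false
set_option linter.unreachableTactic false

namespace Pool.Agent.H7.IG

open Pool.Agent.H17.Omega Pool.Agent.H17.Omega.CTM Pool.Agent.H52.GX Pool.Agent.H52.GC

structure IsChk (P T K : ZFSet.{0}) : Prop where
  sub : ∀ w ∈ K, ∃ x ∈ T, ∃ τ ∈ T, w = ZFSet.pair x τ
  tot : ∀ x ∈ T, ∃ τ ∈ T, ZFSet.pair x τ ∈ K
  dn : ∀ x ∈ T, ∀ τ ∈ T, ZFSet.pair x τ ∈ K → ∀ w ∈ τ, ∃ y ∈ x, ∃ σ ∈ T, ∃ p ∈ P, ZFSet.pair y σ ∈ K ∧ w = ZFSet.pair σ p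
  up : ∀ x ∈ T, ∀ τ ∈ T, ZFSet.pair x τ ∈ K → ∀ y ∈ x, ∃ σ ∈ T, ZFSet.pair y σ ∈ K ∧ ∀ p ∈ P, ZFSet.pair σ p ∈ τ

end Pool.Agent.H7.IG
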