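import Pool.Agent.H7.IG.Gx
import Pool.Agent.H7.IG.Tk1

/-!
# IG: forcing relations for predicates that are definable with parameters in `M[G]`

Let `Φ` be a binary predicate on `W = M[G]` that is definable over `W` with parameters (`hW.Dfn`). Then there is a
ternary predicate `F p x y` (`p` forces `Φ(x, y)`, for ground model elements `x, y`), definable over `M`.
Proof: `hW.Dfn` gives a formula `θ`; only finitely many variables occur in it (`Fml.bd`), so `θ` uses finitely many
parameters `c : Fin m → W` (values of `hW.enum`); after renaming variables (`Fml.ren`, `Sat.ren`, `Sat.congr`) one gets a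
formula `θ'` such that `Φ x y ↔ Sat θ' (x, y, c)`; let `Ψ N v := Sat (SMem N) θ' (v extended by, e.g., v 0)`, `UD CtmC Ψ`
by definition (or work directly with `Fc.dfn`, `truth` of H52/GX and the bridge `exists_bridge`). Choose names for the
parameters and use `Frc.truth`, `Frc.dfn`, `Frc.mono`. `F p x y := p ∈ P ∧ Frc M P Ψ p (x, y, names)`.
-/

set_option autoImplicit false
set_option linter.unusedVariables false
set_option linter.unusedSectionVars false
set_option linter.unusedSimpArgs false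
set_option linter.unusedTactic false
set_option linter.unreachableTactic false

namespace Pool.Agent.H7.IG

open Pool.Agent.H17.Omega Pool.Agent.H17.Omega.CTM Pool.Agent.H52.GX Pool.Agent.H52.GC

variable {M : Set ZFSet.{0}} {P G : ZFSet.{0}}

/-- Forcing relation for a definable predicate with any number of arguments. -/
theorem gx4_exists_frcN {n : ℕ} (hM : CTM M) (hP : P ∈ M) (hG : Gen M P G) (hW : CTM (Xt M G))
    {Φ : (Fin n → Xt M G) → Prop} (hΦ : hW.Dfn Φ) :
    ∃ F : M → (Fin n → M) → Prop,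
      hM.Dfn (fun v : Fin (n + 1) → M => F (v 0) (fun i => v i.succ)) ∧ (∀ p x, F p x → p.1 ∈ P) ∧
      (∀ p q x, F p x → q.1 ∈ P → p.1 ⊆ q.1 → F q x) ∧
      ∀ (x : Fin n → M) (x' : Fin n → Xt M G), (∀ i, (x' i).1 = (x i).1) →
        (Φ x' ↔ ∃ p : M, p.1 ∈ G ∧ F p x) := by
  classical
  obtain ⟨θ, hθ⟩ := hΦ
  -- names of the parameters
  have hτ : ∀ j, ∃ τ : M, vl G τ.1 = (hW.enum j).1 := by
    intro j
    obtain ⟨τ, hτ, h⟩ := (hW.enum j).2
    exact ⟨⟨τ, hτ⟩, h⟩
  choose τ hτ using hτ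
  -- the predicate
  let Ψ : (N : Set ZFSet.{0}) → (Fin (θ.bd + 1) → N) → Prop := fun N w => Sat (SMem N) θ (extN (w 0) w)
  have hΨ : UD CtmC Ψ := by
    refine ⟨θ, fun N hN w f hf => Sat.congr fun i hi => ?_⟩
    have h1 : i < θ.bd + 1 := Nat.lt_succ_of_lt hi
    have h2 := extN_lt (w 0) w ⟨i, h1⟩
    exact (hf ⟨i, h1⟩).trans h2.symm
  let b : Fin (θ.bd + 1) → (Fin n → M) → Ar M := fun k x =>
    if h : ∃ i : Fin n, pos i = (k : ℕ) then Ar.g (x h.choose)
    else if h : ∃ j, (k : ℕ) = 2 * j + 3 then Ar.n (τ h.choose) else Ar.n (τ 0)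
  have hb : ∀ k, AT (hM := hM) (fun v : Fin (n + 1) → M => b k (fun i => v i.succ)) := by
    intro k
    by_cases h1 : ∃ i : Fin n, pos i = (k : ℕ)
    · have h2 : (fun v : Fin (n + 1) → M => b k (fun i => v i.succ)) =
          fun v => Ar.g (v h1.choose.succ) := by
        funext v
        exact dif_pos h1
      rw [h2]
      exact AT.g (DT.var _)
    · by_cases h3 : ∃ j, (k : ℕ) = 2 * j + 3
      · have h2 : (fun v : Fin (n + 1) → M => b k (fun i => v i.succ)) =
            fun v => Ar.n (τ h3.choose) := by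
          funext v
          exact (dif_neg h1).trans (dif_pos h3)
        rw [h2]
        exact AT.n (DT.const _)
      · have h2 : (fun v : Fin (n + 1) → M => b k (fun i => v i.succ)) =
            fun v => Ar.n (τ 0) := by
          funext v
          exact (dif_neg h1).trans (dif_neg h3)
        rw [h2]
        exact AT.n (DT.const _)
  refine ⟨fun p x => p.1 ∈ P ∧ Frc M P Ψ p.1 (fun k => b k x), ?_, fun p x h => h.1,
    fun p q x h hq hpq => ⟨hq, h.2.mono h.1 hpq⟩, ?_⟩
  · refine Dfn.and (Dfn.mem (t := fun _ => (⟨P, hP⟩ : M)) (DT.var 0) (DT.const _)) ?_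
    exact Frc.dfn hΨ hP (s := fun v : Fin (n + 1) → M => v 0) (DT.var 0)
      (a := fun k v => b k (fun i => v i.succ)) hb
  · intro x x' hx
    -- the assignment
    let f : ℕ → Xt M G := fun k =>
      if h : ∃ i : Fin n, pos i = k then x' h.choose
      else if h : ∃ j, k = 2 * j + 3 then hW.enum h.choose else hW.enum 0
    have hf : hW.Compat x' f := by
      constructor
      · intro i
        have h1 : ∃ i' : Fin n, pos i' = pos i := ⟨i, rfl⟩
        have h2 : f (pos i) = x' h1.choose := dif_pos h1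
        have h3 : h1.choose = i := Fin.ext (pos_inj h1.choose_spec)
        rw [h2, h3]
      · intro j
        have h1 : ¬ ∃ i' : Fin n, pos i' = 2 * j + 3 := fun ⟨i, hi⟩ => pos_ne_param _ _ hi
        have h2 : ∃ j', 2 * j + 3 = 2 * j' + 3 := ⟨j, rfl⟩
        have h3 : f (2 * j + 3) = hW.enum h2.choose := (dif_neg h1).trans (dif_pos h2)
        have h4 : h2.choose = j := by
          have := h2.choose_spec
          omega
        rw [h3, h4]
    let w : Fin (θ.bd + 1) → Xt M G := fun k => f k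
    have hw : ∀ k, (w k).1 = (b k x).v G := by
      intro k
      by_cases h1 : ∃ i : Fin n, pos i = (k : ℕ)
      · have h2 : w k = x' h1.choose := dif_pos h1
        have h3 : b k x = Ar.g (x h1.choose) := dif_pos h1
        rw [h2, h3]
        exact hx _
      · by_cases h4 : ∃ j, (k : ℕ) = 2 * j + 3
        · have h2 : w k = hW.enum h4.choose := (dif_neg h1).trans (dif_pos h4)
          have h3 : b k x = Ar.n (τ h4.choose) := (dif_neg h1).trans (dif_pos h4)
          rw [h2, h3]
          exact (hτ _).symm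
        · have h2 : w k = hW.enum 0 := (dif_neg h1).trans (dif_neg h4)
          have h3 : b k x = Ar.n (τ 0) := (dif_neg h1).trans (dif_neg h4)
          rw [h2, h3]
          exact (hτ _).symm
    have h1 : Φ x' ↔ Ψ (Xt M G) w := by
      rw [← hθ x' f hf]
      refine Sat.congr fun i hi => ?_
      have h1 : i < θ.bd + 1 := Nat.lt_succ_of_lt hi
      exact (extN_lt (w 0) w ⟨i, h1⟩).symm
    rw [h1, Frc.truth hΨ hM hP hG (fun k => b k x) w hw]
    constructor
    · rintro ⟨p, hp, h2⟩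
      exact ⟨⟨p, hM.trans _ hP _ (hG.sub p hp)⟩, hp, hG.sub p hp, h2⟩
    · rintro ⟨p, hp, -, h2⟩
      exact ⟨p.1, hp, h2⟩

theorem exists_frc1 (hM : CTM M) (hP : P ∈ M) (hG : Gen M P G) (hW : CTM (Xt M G)) {Φ : Xt M G → Prop}
    (hΦ : hW.Dfn (fun v : Fin 1 → Xt M G => Φ (v 0))) :
    ∃ F : M → M → Prop, hM.Dfn (fun v : Fin 2 → M => F (v 0) (v 1)) ∧ (∀ p x, F p x → p.1 ∈ P) ∧
      (∀ p q x, F p x → q.1 ∈ P → p.1 ⊆ q.1 → F q x) ∧
      ∀ (x : M) (x' : Xt M G), x'.1 = x.1 → (Φ x' ↔ ∃ p : M, p.1 ∈ G ∧ F p x) := by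
  obtain ⟨F, h1, h2, h3, h4⟩ := gx4_exists_frcN hM hP hG hW hΦ
  refine ⟨fun p x => F p ![x], h1.congr fun v => ?_, fun p x h => h2 _ _ h,
    fun p q x h hq hpq => h3 _ _ _ h hq hpq, fun x x' hx => ?_⟩
  · have h5 : (fun i : Fin 1 => v i.succ) = ![v 1] := by
      funext i
      fin_cases i
      rfl
    rw [h5]
  · exact h4 ![x] ![x'] (by intro i; fin_cases i; exact hx)

theorem exists_frc2 (hM : CTM M) (hP : P ∈ M) (hG : Gen M P G) (hW : CTM (Xt M G))
    {Φ : Xt M G → Xt M G → Prop} (hΦ : hW.Dfn (fun v : Fin 2 → Xt M G => Φ (v 0) (v 1))) :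
    ∃ F : M → M → M → Prop, hM.Dfn (fun v : Fin 3 → M => F (v 0) (v 1) (v 2)) ∧
      (∀ p x y, F p x y → p.1 ∈ P) ∧ (∀ p q x y, F p x y → q.1 ∈ P → p.1 ⊆ q.1 → F q x y) ∧
      ∀ (x y : M) (x' y' : Xt M G), x'.1 = x.1 → y'.1 = y.1 → (Φ x' y' ↔ ∃ p : M, p.1 ∈ G ∧ F p x y) := by
  obtain ⟨F, h1, h2, h3, h4⟩ := gx4_exists_frcN hM hP hG hW hΦ
  refine ⟨fun p x y => F p ![x, y], h1.congr fun v => ?_, fun p x y h => h2 _ _ h,
    fun p q x y h hq hpq => h3 _ _ _ h hq hpq, fun x y x' y' hx hy => ?_⟩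
  · have h5 : (fun i : Fin 2 => v i.succ) = ![v 1, v 2] := by
      funext i
      fin_cases i <;> rfl
    rw [h5]
  · exact h4 ![x, y] ![x', y'] (by intro i; fin_cases i; exacts [hx, hy])

end Pool.Agent.H7.IG
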