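import Pool.Agent.H7.IG.ChkD
import Pool.Agent.H7.IG.Gx4
import Pool.Agent.H7.IG.Tk8

/-!
# IG, Part 4: existence of the relation of canonical names

`exists_Chk`: the function `F : M → M`, `F x = {(F y, p) : y ∈ x, p ∈ P}` is definable (copy the proof of `exists_check` in H52/GX/Names with `recursion`; keep the recursion
equation); `ζ` from `exists_closed` (CtmV, see SideS0.lean for its use) for `Φ x y :↔ F x = y` above the ranks of `z`, `P` and `ω` (closed under `F`: `x ∈ V_ζ → F x ∈ V_ζ`);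
`T = V_ζ` (`exists_Lv`), `K = {(x, F x) : x ∈ T}` by replacement.
-/

set_option autoImplicit false
set_option linter.unusedVariables false
set_option linter.unusedSectionVars false
set_option linter.unusedSimpArgs false
set_option linter.unusedTactic false
set_option linter.unreachableTactic false

namespace Pool.Agent.H7.IG

open Pool.Agent.H17.Omega Pool.Agent.H17.Omega.CTM Pool.Agent.H52.GX Pool.Agent.H52.GC

/-- A limit level of `M` above `x0` closed under a definable relation, above `ω`. -/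
theorem chke_closed {M : Set ZFSet.{0}} (hM : CTM M) {Φ : M → M → Prop}
    (hΦ : hM.Dfn (fun v : Fin 2 → M => Φ (v 0) (v 1))) (htot : ∀ z, ∃ w, Φ z w) (x0 : M) :
    ∃ ζ : Ordinal.{0}, ζ.toZFSet ∈ M ∧ (∀ γ < ζ, Order.succ γ < ζ) ∧ Ordinal.omega0 < ζ ∧ x0.1.rank < ζ ∧
      ∀ z : M, z.1.rank < ζ → ∃ w : M, w.1.rank < ζ ∧ Φ z w := by
  obtain ⟨η, hη, hxη, hlim, _⟩ := hM.exists_closed (Φ := fun _ _ : M => True)
    (Dfn.congr (fun v => ⟨fun _ => trivial, fun _ => trivial⟩) (Dfn.const True)) (fun z => ⟨z, trivial⟩) x0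
  obtain ⟨ζ, hζ, hxζ, hlimζ, hcl⟩ := hM.exists_closed (Φ := Φ) hΦ htot
    ⟨ZFSet.pair x0.1 η.toZFSet, hM.pair_mem x0.2 hη⟩
  have hpr : ∀ a b : ZFSet.{0}, a.rank < (ZFSet.pair a b).rank ∧ b.rank < (ZFSet.pair a b).rank := by
    intro a b
    have h1 : ({a, b} : ZFSet.{0}) ∈ ZFSet.pair a b := by
      rw [ZFSet.pair]
      exact ZFSet.mem_pair.2 (Or.inr rfl)
    have h2 := ZFSet.rank_lt_of_mem h1
    exact ⟨(ZFSet.rank_lt_of_mem (ZFSet.mem_pair.2 (Or.inl rfl))).trans h2,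
      (ZFSet.rank_lt_of_mem (ZFSet.mem_pair.2 (Or.inr rfl))).trans h2⟩
  have hη1 : η < ζ := by
    have h1 := (hpr x0.1 η.toZFSet).2.trans hxζ
    rwa [Ordinal.rank_toZFSet] at h1
  have hω : Ordinal.omega0 ≤ η := by
    rw [Ordinal.omega0_le]
    intro n
    induction n with
    | zero => simp
    | succ n ih =>
      have h0 : 0 < η := lt_of_le_of_lt zero_le hxη
      have key : ∀ m : ℕ, (m : Ordinal.{0}) < η := by
        intro m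
        induction m with
        | zero => simpa using h0
        | succ m ihm =>
          have := hlim _ ihm
          simpa using this
      exact (key (n + 1)).le
  exact ⟨ζ, hζ, hlimζ, lt_of_le_of_lt hω hη1, (hpr x0.1 η.toZFSet).1.trans hxζ, hcl⟩

/-- The recursion for canonical names. -/
theorem chke_rec {M : Set ZFSet.{0}} (hM : CTM M) {P : ZFSet.{0}} (hP : P ∈ M) :
    ∃ F : M → M, hM.Dfn (fun v : Fin 2 → M => F (v 0) = v 1) ∧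
    ∀ x z : M, z.1 ∈ (F x).1 ↔ ∃ y w : M, (y.1 ∈ x.1 ∧ F y = w) ∧ ∃ p : M, p.1 ∈ P ∧ z.1 = ZFSet.pair w.1 p.1 := by
  refine Exists.elim (recursion (hN := hM) (R := fun x y : M => x.1 ∈ y.1) (𝒢 := fun x r v =>
    ∀ z : M, z.1 ∈ v.1 ↔ ∃ y w, r y w ∧ ∃ p : M, p.1 ∈ (⟨P, hP⟩ : M).1 ∧ z.1 = ZFSet.pair w.1 p.1)
    (Dfn.mem (DT.var _) (DT.var _)) ?_
    (fun x => ⟨x.1, x.2, fun y => Iff.rfl⟩) mem_membership_wf ?_ ?_) ?_
  · show hM.Dfn (fun v : Fin 3 → M => ∀ z : M, z.1 ∈ (v 2).1 ↔ ∃ y w : M,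
      (y.1 ∈ (v 0).1 ∧ ZFSet.pair y.1 w.1 ∈ (v 1).1) ∧ ∃ p : M, p.1 ∈ (⟨P, hP⟩ : M).1 ∧
      z.1 = ZFSet.pair w.1 p.1)
    (repeat' first
        | exact DT.var _ | exact DT.last | exact DT.const _ | assumption
        | refine Dfn.pairMem ?_ ?_ ?_ | refine Dfn.isPair ?_ ?_ ?_ | refine Dfn.mem ?_ ?_
        | refine Dfn.eqv ?_ ?_ | refine Dfn.eq ?_ ?_ | refine Dfn.subset ?_ ?_
        | refine Dfn.isEmpty ?_ | refine Dfn.isTrans ?_ | refine Dfn.isOrd ?_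
        | refine Dfn.isNat ?_ | refine Dfn.and ?_ ?_ | refine Dfn.or ?_ ?_ | refine Dfn.iff ?_ ?_
        | refine Dfn.not ?_ | refine Dfn.imp ?_ ?_ | refine Dfn.all ?_ | refine Dfn.ex ?_
        | exact Dfn.false')
  · intro x r v v' h1 h2
    exact Subtype.ext (hM.ext' v.2 v'.2 fun z => (h1 z).trans (h2 z).symm)
  · intro x g hd hu
    have hUM : ZFSet.sUnion (ZFSet.sUnion g.1) ∈ M := hM.sUnion_mem (hM.sUnion_mem g.2)
    have hdf : hM.Dfn (fun v : Fin 1 → M => ∃ y w : M,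
      (y.1 ∈ x.1 ∧ ZFSet.pair y.1 w.1 ∈ g.1) ∧ ∃ p : M, p.1 ∈ (⟨P, hP⟩ : M).1 ∧
      (v 0).1 = ZFSet.pair w.1 p.1) := by
      (repeat' first
          | exact DT.var _ | exact DT.last | exact DT.const _ | assumption
          | refine Dfn.pairMem ?_ ?_ ?_ | refine Dfn.isPair ?_ ?_ ?_ | refine Dfn.mem ?_ ?_
          | refine Dfn.eqv ?_ ?_ | refine Dfn.eq ?_ ?_ | refine Dfn.subset ?_ ?_
          | refine Dfn.isEmpty ?_ | refine Dfn.isTrans ?_ | refine Dfn.isOrd ?_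
          | refine Dfn.isNat ?_ | refine Dfn.and ?_ ?_ | refine Dfn.or ?_ ?_
          | refine Dfn.iff ?_ ?_ | refine Dfn.not ?_ | refine Dfn.imp ?_ ?_ | refine Dfn.all ?_
          | refine Dfn.ex ?_ | exact Dfn.false')
    obtain ⟨b, hb, hb'⟩ := hM.exists_sep (P := fun z => ∃ y w : M,
      (y.1 ∈ x.1 ∧ ZFSet.pair y.1 w.1 ∈ g.1) ∧ ∃ p : M, p.1 ∈ (⟨P, hP⟩ : M).1 ∧
      z.1 = ZFSet.pair w.1 p.1) hdf (hM.prod_mem hUM hP)
    refine ⟨⟨b, hb⟩, fun z => ?_⟩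
    show z.1 ∈ b ↔ _
    rw [hb']
    constructor
    · rintro ⟨_, _, h1⟩; exact h1
    · intro h1
      refine ⟨?_, z.2, h1⟩
      obtain ⟨y, w, ⟨h2, h3⟩, p, h4, h5⟩ := h1
      rw [h5, ZFSet.pair_mem_prod]
      exact ⟨(mem_sUnion_sUnion_pair h3).2, h4⟩
  · intro F hF
    exact ⟨F, hF.1, fun x z => hF.2 x z⟩

theorem exists_Chk {M : Set ZFSet.{0}} (hM : CTM M) {P : ZFSet.{0}} (hP : P ∈ M) (z : M) :
    ∃ ζ : Ordinal.{0}, ζ.toZFSet ∈ M ∧ (∀ γ < ζ, Order.succ γ < ζ) ∧ Ordinal.omega0 < ζ ∧ P.rank < ζ ∧ z.1.rank < ζ ∧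
      ∃ T ∈ M, (∀ x, x ∈ T ↔ x ∈ Lv M ζ) ∧ ∃ K ∈ M, IsChk P T K := by
  obtain ⟨F, hF, hF2⟩ := chke_rec hM hP
  obtain ⟨ζ, hζ, hlim, hω, hxζ, hcl⟩ := chke_closed hM (Φ := fun x y => F x = y) hF (fun x => ⟨F x, rfl⟩)
    ⟨ZFSet.pair P z.1, hM.pair_mem hP z.2⟩
  have hpr : ∀ a b : ZFSet.{0}, a.rank < (ZFSet.pair a b).rank ∧ b.rank < (ZFSet.pair a b).rank := by
    intro a b
    have h1 : ({a, b} : ZFSet.{0}) ∈ ZFSet.pair a b := by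
      rw [ZFSet.pair]
      exact ZFSet.mem_pair.2 (Or.inr rfl)
    have h2 := ZFSet.rank_lt_of_mem h1
    exact ⟨(ZFSet.rank_lt_of_mem (ZFSet.mem_pair.2 (Or.inl rfl))).trans h2,
      (ZFSet.rank_lt_of_mem (ZFSet.mem_pair.2 (Or.inr rfl))).trans h2⟩
  have hFr : ∀ x : M, x.1.rank < ζ → (F x).1.rank < ζ := by
    intro x hx
    obtain ⟨w, hw, hw2⟩ := hcl x hx
    have hw3 : F x = w := hw2
    rw [hw3]
    exact hw
  obtain ⟨T, hT, hT'⟩ := exists_Lv hM hζ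
  obtain ⟨K, hK, hK'⟩ := hM.exists_repl (F := fun x y => ∃ w : M, F x = w ∧ y.1 = ZFSet.pair x.1 w.1)
    (by
      refine Dfn.ex (Dfn.and (Dfn.subst2 (P := fun x y => F x = y) hF (DT.var _) (DT.var _)) ?_)
      (repeat' first
          | exact DT.var _ | exact DT.last | exact DT.const _ | assumption
          | refine Dfn.pairMem ?_ ?_ ?_ | refine Dfn.isPair ?_ ?_ ?_ | refine Dfn.mem ?_ ?_
          | refine Dfn.eqv ?_ ?_ | refine Dfn.eq ?_ ?_)) hT (by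
      rintro x hx y y' ⟨w, rfl, h1⟩ ⟨w', rfl, h2⟩
      exact Subtype.ext (h1.trans h2.symm))
  have hmK : ∀ x τ : ZFSet.{0}, ZFSet.pair x τ ∈ K ↔ ∃ hx : x ∈ M, x ∈ T ∧ τ = (F ⟨x, hx⟩).1 := by
    intro x τ
    constructor
    · intro h
      obtain ⟨x', h1, w, h2, h3⟩ := (hK' ⟨_, hM.mem_of_mem hK h⟩).1 h
      have h3' : ZFSet.pair x τ = ZFSet.pair x'.1 w.1 := h3
      rw [ZFSet.pair_inj] at h3'
      obtain ⟨rfl, rfl⟩ := h3'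
      exact ⟨x'.2, h1, by rw [← h2]⟩
    · rintro ⟨hx, h1, rfl⟩
      exact (hK' ⟨_, hM.pair_mem hx (F ⟨x, hx⟩).2⟩).2 ⟨⟨x, hx⟩, h1, _, rfl, rfl⟩
  have hFT : ∀ (x : ZFSet.{0}) (hx : x ∈ M), x ∈ T → (F ⟨x, hx⟩).1 ∈ T := by
    intro x hx h
    exact (hT' _).2 ⟨(F ⟨x, hx⟩).2, hFr ⟨x, hx⟩ ((hT' x).1 h).2⟩
  have htr : ∀ x ∈ T, ∀ y ∈ x, y ∈ T := by
    intro x hx y hy
    have h1 := (hT' x).1 hx
    exact (hT' y).2 ⟨hM.mem_of_mem h1.1 hy, (ZFSet.rank_lt_of_mem hy).trans h1.2⟩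
  refine ⟨ζ, hζ, hlim, hω, (hpr P z.1).1.trans hxζ, (hpr P z.1).2.trans hxζ, T, hT, hT', K, hK, ?_, ?_, ?_, ?_⟩
  · intro w hw
    obtain ⟨x', h1, w', h2, h3⟩ := (hK' ⟨_, hM.mem_of_mem hK hw⟩).1 hw
    refine ⟨x'.1, h1, w'.1, ?_, h3⟩
    rw [← h2]
    exact hFT x'.1 x'.2 h1
  · intro x hx
    have hxM := hM.mem_of_mem hT hx
    exact ⟨(F ⟨x, hxM⟩).1, hFT x hxM hx, (hmK _ _).2 ⟨hxM, hx, rfl⟩⟩
  · intro x hx τ hτ h w hw
    obtain ⟨hxM, _, rfl⟩ := (hmK _ _).1 h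
    obtain ⟨y, w', ⟨h1, h2⟩, p, h3, h4⟩ := (hF2 ⟨x, hxM⟩ ⟨w, hM.mem_of_mem (F ⟨x, hxM⟩).2 hw⟩).1 hw
    subst h2
    have hyT : y.1 ∈ T := htr x hx y.1 h1
    exact ⟨y.1, h1, (F y).1, hFT y.1 y.2 hyT, p.1, h3, (hmK _ _).2 ⟨y.2, hyT, rfl⟩, h4⟩
  · intro x hx τ hτ h y hy
    obtain ⟨hxM, _, rfl⟩ := (hmK _ _).1 h
    have hyT : y ∈ T := htr x hx y hy
    have hyM := hM.mem_of_mem hT hyT
    refine ⟨(F ⟨y, hyM⟩).1, hFT y hyM hyT, (hmK _ _).2 ⟨hyM, hyT, rfl⟩, ?_⟩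
    intro p hp
    have hpM := hM.mem_of_mem hP hp
    exact (hF2 ⟨x, hxM⟩ ⟨_, hM.pair_mem (F ⟨y, hyM⟩).2 hpM⟩).2
      ⟨⟨y, hyM⟩, _, ⟨hy, rfl⟩, ⟨p, hpM⟩, hp, rfl⟩

end Pool.Agent.H7.IG
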