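import Mathlib
import Pool.Agent.H52.GC.Fin

/-!
# IG: side conditions with nodes of two types, definitions

Pure combinatorics of finite sets; no model is involved. `Sm` is the class of small nodes (sets),
`Tr` the class of transitive nodes (ordinals, as nodes they are the von Neumann ordinals `o.toZFSet`).
-/

set_option autoImplicit false
set_option linter.unusedVariables false

namespace Pool.Agent.H7.IG

open Pool.Agent.H52.GC

/-- `x ∩ V_o`. -/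
noncomputable def ct (o : Ordinal.{0}) (x : ZFSet.{0}) : ZFSet.{0} := ZFSet.sep (fun y => y.rank < o) x

theorem mem_ct {o : Ordinal.{0}} {x y : ZFSet.{0}} : y ∈ ct o x ↔ y ∈ x ∧ y.rank < o := by
  rw [ct, ZFSet.mem_sep]

theorem ct_sub {o : Ordinal.{0}} {x : ZFSet.{0}} : ct o x ⊆ x := fun y hy => (mem_ct.1 hy).1

theorem ct_ct {o o' : Ordinal.{0}} (h : o ≤ o') (x : ZFSet.{0}) : ct o (ct o' x) = ct o x := by
  ext y
  simp only [mem_ct]
  exact ⟨fun hy => ⟨hy.1.1, hy.2⟩, fun hy => ⟨⟨hy.1, hy.2.trans_le h⟩, hy.2⟩⟩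

/-- Axioms for the nodes. -/
structure NS (Sm : ZFSet.{0} → Prop) (Tr : Ordinal.{0} → Prop) : Prop where
  /-- `N ∩ V_o` is a small node -/
  cut : ∀ N o, Sm N → Tr o → o.toZFSet ∈ N → Sm (ct o N)
  /-- small nodes in a small node are subsets -/
  sub : ∀ N N', Sm N → Sm N' → N ∈ N' → N ⊆ N'
  /-- closure under cuts -/
  cutmem : ∀ N N' o, Sm N → Sm N' → Tr o → N ∈ N' → o.toZFSet ∈ N' → ct o N ∈ N'
  /-- the rank of a small node is not in `Tr` -/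
  rk : ∀ N, Sm N → ¬ Tr N.rank
  rkcut : ∀ N o, Sm N → Tr o → (ct o N).rank < o

variable (Sm : ZFSet.{0} → Prop) (Tr : Ordinal.{0} → Prop)

/-- `s` is a condition. -/
structure Cd (s : ZFSet.{0}) : Prop where
  fin : FinZ s
  node : ∀ Q ∈ s, Sm Q ∨ ∃ o, Tr o ∧ Q = o.toZFSet
  c1 : ∀ Q ∈ s, ∀ Q' ∈ s, Q.rank = Q'.rank → Q = Q'
  c2 : ∀ N ∈ s, Sm N → ∀ Q ∈ s, Q.rank < N.rank → Q ∈ N ∨
    ∃ o, Tr o ∧ o.toZFSet ∈ s ∧ o.toZFSet ∈ N ∧ (ct o N).rank ≤ Q.rank ∧ Q.rank < o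
  c3 : ∀ N ∈ s, Sm N → ∀ o, Tr o → o.toZFSet ∈ s → o.toZFSet ∈ N → ct o N ∈ s

end Pool.Agent.H7.IG
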