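import Pool.Agent.H7.IG.Cond

/-!
# IG: side conditions, the easy lemmas

`Cd Sm Tr s` = `s` is a condition. Write `N_o` for `ct o N`. Note `(o.toZFSet).rank = o`
(`Ordinal.rank_toZFSet` or prove it), so `o` can be read off from the node `o.toZFSet`.

`cond_cut` (`s ∩ V_o` is a condition, any `o`): (C2) the witness `δ` of `s` for `N, Q ∈ s ∩ V_o` satisfies
`δ ∈ N`, so `δ < rk N < o`. (C3) `rk(N_δ) ≤ rk N < o`.

`cond_inter` (`s ∩ N` is a condition for `N ∈ s` small): (C2) for `N', Q ∈ s ∩ N`: the witness `o` is in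
`N' ⊆ N` (`NS.sub`). (C3) `N'_o ∈ N` by `NS.cutmem`.

`cond_top`: add a transitive node of rank larger than all ranks in `s`.
-/


set_option autoImplicit false
set_option linter.unusedVariables false

namespace Pool.Agent.H7.IG

open Pool.Agent.H52.GC

variable {Sm : ZFSet.{0} → Prop} {Tr : Ordinal.{0} → Prop}

theorem condA_rank_lt {a : Ordinal.{0}} {X : ZFSet.{0}} (ha : a.toZFSet ∈ X) : a < X.rank := by
  have h1 := ZFSet.rank_lt_of_mem ha
  rwa [Ordinal.rank_toZFSet] at h1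

theorem finZ_union {s t : ZFSet.{0}} (hs : FinZ s) (ht : FinZ t) : FinZ (s ∪ t) := by
  classical
  obtain ⟨a, ha⟩ := hs
  obtain ⟨b, hb⟩ := ht
  refine ⟨a ∪ b, fun z => ?_⟩
  rw [ZFSet.mem_union, Finset.mem_union, ha, hb]

theorem finZ_insert {s x : ZFSet.{0}} (hs : FinZ s) : FinZ (insert x s) := by
  classical
  obtain ⟨a, ha⟩ := hs
  refine ⟨insert x a, fun z => ?_⟩
  rw [ZFSet.mem_insert_iff, Finset.mem_insert, ha]

theorem finZ_subset {s t : ZFSet.{0}} (hs : FinZ s) (h : t ⊆ s) : FinZ t := by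
  classical
  obtain ⟨a, ha⟩ := hs
  refine ⟨a.filter (fun z => z ∈ t), fun z => ?_⟩
  rw [Finset.mem_filter]
  exact ⟨fun hz => ⟨(ha z).1 (h hz), hz⟩, fun hz => hz.2⟩

theorem cond_empty : Cd Sm Tr ∅ := by
  refine ⟨⟨∅, fun z => ?_⟩, fun Q hQ => ?_, fun Q hQ => ?_, fun N hN => ?_, fun N hN => ?_⟩
  · exact ⟨fun h => absurd h (ZFSet.notMem_empty z), fun h => absurd h (Finset.notMem_empty z)⟩
  all_goals exact absurd (by assumption) (ZFSet.notMem_empty _)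

theorem cond_cut (h : NS Sm Tr) {s : ZFSet.{0}} (hs : Cd Sm Tr s) (o : Ordinal.{0}) : Cd Sm Tr (ct o s) := by
  refine ⟨finZ_subset hs.fin ct_sub, fun Q hQ => hs.node Q (ct_sub hQ),
    fun Q hQ Q' hQ' => hs.c1 Q (ct_sub hQ) Q' (ct_sub hQ'), ?_, ?_⟩
  · intro N hN hSm Q hQ hr
    rcases hs.c2 N (ct_sub hN) hSm Q (ct_sub hQ) hr with h1 | ⟨o', h1, h2, h3, h4, h5⟩
    · exact Or.inl h1
    · refine Or.inr ⟨o', h1, mem_ct.2 ⟨h2, ?_⟩, h3, h4, h5⟩
      rw [Ordinal.rank_toZFSet]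
      exact (condA_rank_lt h3).trans (mem_ct.1 hN).2
  · intro N hN hSm o' ho' ho's ho'N
    refine mem_ct.2 ⟨hs.c3 N (ct_sub hN) hSm o' ho' (ct_sub ho's) ho'N, ?_⟩
    exact (ZFSet.rank_mono ct_sub).trans_lt (mem_ct.1 hN).2

theorem cond_inter (h : NS Sm Tr) {s N : ZFSet.{0}} (hs : Cd Sm Tr s) (hN : N ∈ s) (hSm : Sm N) :
    Cd Sm Tr (s ∩ N) := by
  have hl : ∀ {Q : ZFSet.{0}}, Q ∈ s ∩ N → Q ∈ s := fun hQ => (ZFSet.mem_inter.1 hQ).1
  have hrr : ∀ {Q : ZFSet.{0}}, Q ∈ s ∩ N → Q ∈ N := fun hQ => (ZFSet.mem_inter.1 hQ).2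
  refine ⟨finZ_subset hs.fin (fun Q hQ => hl hQ), fun Q hQ => hs.node Q (hl hQ),
    fun Q hQ Q' hQ' => hs.c1 Q (hl hQ) Q' (hl hQ'), ?_, ?_⟩
  · intro N' hN' hSm' Q hQ hr
    rcases hs.c2 N' (hl hN') hSm' Q (hl hQ) hr with h1 | ⟨o', h1, h2, h3, h4, h5⟩
    · exact Or.inl h1
    · exact Or.inr ⟨o', h1, ZFSet.mem_inter.2 ⟨h2, h.sub N' N hSm' hSm (hrr hN') h3⟩, h3, h4, h5⟩
  · intro N' hN' hSm' o' ho' ho's ho'N
    exact ZFSet.mem_inter.2 ⟨hs.c3 N' (hl hN') hSm' o' ho' (hl ho's) ho'N,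
      h.cutmem N' N o' hSm' hSm ho' (hrr hN') (hrr ho's)⟩

theorem cond_top (h : NS Sm Tr) {s : ZFSet.{0}} (hs : Cd Sm Tr s) {o : Ordinal.{0}} (ho : Tr o)
    (hr : ∀ Q ∈ s, Q.rank < o) : Cd Sm Tr (insert o.toZFSet s) := by
  have rk : ∀ a : Ordinal.{0}, a.toZFSet.rank = a := Ordinal.rank_toZFSet
  have hsm : ∀ N ∈ insert o.toZFSet s, Sm N → N ∈ s := by
    intro N hN hSm
    rcases ZFSet.mem_insert_iff.1 hN with h1 | h1
    · exact absurd (by rw [h1, rk]; exact ho) (h.rk N hSm)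
    · exact h1
  refine ⟨finZ_insert hs.fin, ?_, ?_, ?_, ?_⟩
  · intro Q hQ
    rcases ZFSet.mem_insert_iff.1 hQ with h1 | h1
    · exact Or.inr ⟨o, ho, h1⟩
    · exact hs.node Q h1
  · intro Q hQ Q' hQ' he
    rcases ZFSet.mem_insert_iff.1 hQ with h1 | h1 <;> rcases ZFSet.mem_insert_iff.1 hQ' with h2 | h2
    · rw [h1, h2]
    · have h3 := hr Q' h2
      rw [← he, h1, rk] at h3
      exact absurd h3 (lt_irrefl _)
    · have h3 := hr Q h1
      rw [he, h2, rk] at h3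
      exact absurd h3 (lt_irrefl _)
    · exact hs.c1 Q h1 Q' h2 he
  · intro N hN hSm Q hQ hlt
    have hNs := hsm N hN hSm
    rcases ZFSet.mem_insert_iff.1 hQ with h1 | h1
    · have h3 := hr N hNs
      rw [h1, rk] at hlt
      exact absurd (hlt.trans h3) (lt_irrefl _)
    · rcases hs.c2 N hNs hSm Q h1 hlt with h2 | ⟨o', h2, h3, h4⟩
      · exact Or.inl h2
      · exact Or.inr ⟨o', h2, ZFSet.mem_insert_iff.2 (Or.inr h3), h4⟩
  · intro N hN hSm o' ho' ho's ho'N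
    have hNs := hsm N hN hSm
    refine ZFSet.mem_insert_iff.2 (Or.inr ?_)
    rcases ZFSet.mem_insert_iff.1 ho's with h1 | h1
    · have h3 := hr N hNs
      have h4 := condA_rank_lt ho'N
      have h5 : o' = o := by rw [← rk o', h1, rk]
      rw [h5] at h4
      exact absurd (h4.trans h3) (lt_irrefl _)
    · exact hs.c3 N hNs hSm o' ho' h1 ho'N

end Pool.Agent.H7.IG
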