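import Pool.Agent.H7.IG.CondA

/-!
# IG: side conditions, Lemma A

`cond_A` (Lemma A): `o ∈ s`, `t` a condition, all ranks in `t` are `< o`, `s ∩ V_o ⊆ t`. Then `s ∪ t` is a
condition. (C1) members of `s` not in `t` have rank `≥ o`. (C2) for `N ∈ s`, `N ∉ t`, `Q ∈ t`, `Q ∉ s`:
`rk N ≥ o`, so `rk N > o` (`NS.rk`, small node). Apply (C2) of `s` to `N` and the node `o.toZFSet`.
  (a) `o ∈ N`: `N'' := N_o ∈ s` by (C3), rank `< o` (`NS.rkcut`), so `N'' ∈ t`. If `rk Q ≥ rk N''` then `o` is a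
  witness for `(N, Q)`. Otherwise (C2) of `t` for `(N'', Q)`: `Q ∈ N'' ⊆ N`, or a witness `o' ∈ t ∩ N''`,
  `o' < o`, with `N''_{o'} = N_{o'}` (`ct_ct`).
  (b) `o₁ ∈ s ∩ N` with `rk N_{o₁} ≤ o < o₁`: `N'' := N_{o₁} ∈ s`, its rank is `≠ o` so `< o`, so `N'' ∈ t`. If
  `rk Q ≥ rk N''`: `o₁` is a witness. Otherwise as in (a) with `N''`.
  `N ∈ t` implies `Q ∈ t` for `rk Q < rk N` (as `rk Q < o`). `Q ∈ s`, `N ∈ s`: (C2) of `s`.
  (C3) for `N ∈ s`, `N ∉ t`, `o' ∈ t`, `o' ∉ s`, `o' ∈ N`: with `N''` as in (a) or (b) (`o' ∈ N''` because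
  `o' < o`), `N''_{o'} = N_{o'} ∈ t`. If `N ∈ t` and `o' ∈ s`, `o' ∈ N`: `o' < rk N < o`, so `o' ∈ t`.
-/

set_option autoImplicit false
set_option linter.unusedVariables false

namespace Pool.Agent.H7.IG

open Pool.Agent.H52.GC

variable {Sm : ZFSet.{0} → Prop} {Tr : Ordinal.{0} → Prop}

/-- a small node `N ∈ s` of rank at least `o`, `o` a transitive node of `s`, has a cut in `s` of rank
below `o`. -/
theorem cond_A_cut (h : NS Sm Tr) {s : ZFSet.{0}} (hs : Cd Sm Tr s) {o : Ordinal.{0}}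
    (ho : Tr o) (hos : o.toZFSet ∈ s) {N : ZFSet.{0}} (hN : N ∈ s) (hSm : Sm N) (hr : o ≤ N.rank) :
    ∃ o₂, Tr o₂ ∧ o₂.toZFSet ∈ s ∧ o₂.toZFSet ∈ N ∧ o ≤ o₂ ∧ (ct o₂ N).rank < o ∧ ct o₂ N ∈ s := by
  have hne : o ≠ N.rank := fun he => h.rk N hSm (he ▸ ho)
  have hlt : o.toZFSet.rank < N.rank := by
    rw [Ordinal.rank_toZFSet]; exact lt_of_le_of_ne hr hne
  rcases hs.c2 N hN hSm _ hos hlt with h1 | ⟨o₁, h1, h2, h3, h4, h5⟩
  · exact ⟨o, ho, hos, h1, le_rfl, h.rkcut N o hSm ho, hs.c3 N hN hSm o ho hos h1⟩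
  · rw [Ordinal.rank_toZFSet] at h4 h5
    refine ⟨o₁, h1, h2, h3, h5.le, lt_of_le_of_ne h4 ?_, hs.c3 N hN hSm o₁ h1 h2 h3⟩
    intro he
    exact h.rk _ (h.cut N o₁ hSm h1 h3) (he ▸ ho)

/-- Lemma A. -/
theorem cond_A (h : NS Sm Tr) {s t : ZFSet.{0}} (hs : Cd Sm Tr s) (ht : Cd Sm Tr t) {o : Ordinal.{0}}
    (ho : Tr o) (hos : o.toZFSet ∈ s) (htr : ∀ Q ∈ t, Q.rank < o) (hst : ct o s ⊆ t) :
    Cd Sm Tr (s ∪ t) := by
  have hF : ∀ Q ∈ s ∪ t, Q.rank < o → Q ∈ t := by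
    intro Q hQ hr
    rcases ZFSet.mem_union.1 hQ with h1 | h1
    · exact hst (mem_ct.2 ⟨h1, hr⟩)
    · exact h1
  have hu : ∀ {Q}, Q ∈ t → Q ∈ s ∪ t := fun hQ => ZFSet.mem_union.2 (Or.inr hQ)
  have hv : ∀ {Q}, Q ∈ s → Q ∈ s ∪ t := fun hQ => ZFSet.mem_union.2 (Or.inl hQ)
  have c2t : ∀ N ∈ t, Sm N → ∀ Q ∈ s ∪ t, Q.rank < N.rank → Q ∈ N ∨
      ∃ o', Tr o' ∧ o'.toZFSet ∈ t ∧ o'.toZFSet ∈ N ∧ (ct o' N).rank ≤ Q.rank ∧ Q.rank < o' :=
    fun N hN hSm Q hQ hr => ht.c2 N hN hSm Q (hF Q hQ (hr.trans (htr N hN))) hr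
  refine ⟨finZ_union hs.fin ht.fin, ?_, ?_, ?_, ?_⟩
  · intro Q hQ
    rcases ZFSet.mem_union.1 hQ with h1 | h1
    · exact hs.node Q h1
    · exact ht.node Q h1
  · intro Q hQ Q' hQ' hr
    by_cases hlt : Q.rank < o
    · exact ht.c1 Q (hF Q hQ hlt) Q' (hF Q' hQ' (hr ▸ hlt)) hr
    · have h1 : Q ∈ s := (ZFSet.mem_union.1 hQ).resolve_right fun h => hlt (htr Q h)
      have h2 : Q' ∈ s := (ZFSet.mem_union.1 hQ').resolve_right fun h => hlt (hr ▸ htr Q' h)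
      exact hs.c1 Q h1 Q' h2 hr
  · intro N hN hSm Q hQ hr
    by_cases hlt : N.rank < o
    · rcases c2t N (hF N hN hlt) hSm Q hQ hr with h1 | ⟨o', h1, h2, h3⟩
      · exact Or.inl h1
      · exact Or.inr ⟨o', h1, hu h2, h3⟩
    · have hNs : N ∈ s := (ZFSet.mem_union.1 hN).resolve_right fun h => hlt (htr N h)
      rcases ZFSet.mem_union.1 hQ with hQs | hQt
      · rcases hs.c2 N hNs hSm Q hQs hr with h1 | ⟨o', h1, h2, h3⟩
        · exact Or.inl h1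
        · exact Or.inr ⟨o', h1, hv h2, h3⟩
      · obtain ⟨o₂, h1, h2, h3, h4, h5, h6⟩ := cond_A_cut h hs ho hos hNs hSm (not_lt.1 hlt)
        have h7 : ct o₂ N ∈ t := hF _ (hv h6) h5
        by_cases h8 : (ct o₂ N).rank ≤ Q.rank
        · exact Or.inr ⟨o₂, h1, hv h2, h3, h8, (htr Q hQt).trans_le h4⟩
        · rcases c2t _ h7 (h.cut N o₂ hSm h1 h3) Q hQ (not_le.1 h8) with h9 | ⟨o', k1, k2, k3, k4, k5⟩
          · exact Or.inl (ct_sub h9)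
          · have hle : o' ≤ o₂ := by
              have := htr _ k2
              rw [Ordinal.rank_toZFSet] at this
              exact this.le.trans h4
            rw [ct_ct hle] at k4
            exact Or.inr ⟨o', k1, hu k2, ct_sub k3, k4, k5⟩
  · intro N hN hSm o' ho' ho's ho'N
    by_cases hlt : N.rank < o
    · have h1 : o'.toZFSet ∈ t := hF _ ho's ((ZFSet.rank_lt_of_mem ho'N).trans hlt)
      exact hu (ht.c3 N (hF N hN hlt) hSm o' ho' h1 ho'N)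
    · have hNs : N ∈ s := (ZFSet.mem_union.1 hN).resolve_right fun h => hlt (htr N h)
      rcases ZFSet.mem_union.1 ho's with h1 | h1
      · exact hv (hs.c3 N hNs hSm o' ho' h1 ho'N)
      · obtain ⟨o₂, k1, k2, k3, k4, k5, k6⟩ := cond_A_cut h hs ho hos hNs hSm (not_lt.1 hlt)
        have k7 : ct o₂ N ∈ t := hF _ (hv k6) k5
        have k8 : o'.toZFSet.rank < o₂ := (htr _ h1).trans_le k4
        have k9 : o'.toZFSet ∈ ct o₂ N := mem_ct.2 ⟨ho'N, k8⟩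
        have k10 := ht.c3 _ k7 (h.cut N o₂ hSm k1 k3) o' ho' h1 k9
        rw [Ordinal.rank_toZFSet] at k8
        rw [ct_ct k8.le] at k10
        exact hu k10

end Pool.Agent.H7.IG
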