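import Pool.Agent.H7.IG.Cond

/-!
# IG: side conditions, claims for Lemma B

`N ∈ s` small, `s`, `t` conditions, `t ⊆ N`, `s ∩ N ⊆ t` (`N_o = ct o N = N ∩ V_o`).
`(o.toZFSet).rank = o`, so `o` can be read off from the node `o.toZFSet`.

Claim E (`claim_E`). `N' ∈ s` small, `Q ∈ t`, `rk Q < rk N'` `⇒ Q ∈ N'` or there is a transitive node
`γ ∈ s ∪ t`, `γ ∈ N'`, `rk N'_γ ≤ rk Q < γ`. Induction on `rk N'`.
 1. `rk N' < rk N`. (i) `N' ∈ N`: (C2) of `t`. (ii) `δ ∈ s ∩ N`, `rk N_δ ≤ rk N' < δ`: `Q ∈ N_δ` as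
  `rk Q < rk N' < δ`. If `N_δ = N'`: done. Otherwise (C2) for `(N', N_δ)`: `N_δ ∈ N'`: `Q ∈ N_δ ⊆ N'`. Or
  `δ' ∈ s ∩ N'`, `rk N'_{δ'} ≤ rk N_δ < δ'`: `N'' := N'_{δ'} ∈ s`; `rk Q < rk N_δ < δ'`. If `rk Q ≥ rk N''`: witness
  `δ'`. Otherwise induction for `N''` (`rk N'' < rk N'`).
 2. `N' = N`: `Q ∈ N`.
 3. `rk N' > rk N`: (C2) for `(N', N)`: `N ∈ N'`: `Q ∈ N ⊆ N'`. Or `δ ∈ s ∩ N'`, `rk N'_δ ≤ rk N < δ`,
  `rk Q < rk N < δ`: if `rk Q ≥ rk N'_δ` witness `δ`, otherwise induction for `N'_δ`.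

-/

set_option autoImplicit false
set_option linter.unusedVariables false

namespace Pool.Agent.H7.IG

open Pool.Agent.H52.GC

variable {Sm : ZFSet.{0} → Prop} {Tr : Ordinal.{0} → Prop}

/-- the conclusion of Claim E passes from `N'_δ` to `N'` -/
theorem claimE_up {s t N' Q : ZFSet.{0}} {δ : Ordinal.{0}}
    (hc : Q ∈ ct δ N' ∨ ∃ o, Tr o ∧ (o.toZFSet ∈ s ∨ o.toZFSet ∈ t) ∧ o.toZFSet ∈ ct δ N' ∧
      (ct o (ct δ N')).rank ≤ Q.rank ∧ Q.rank < o) :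
    Q ∈ N' ∨ ∃ o, Tr o ∧ (o.toZFSet ∈ s ∨ o.toZFSet ∈ t) ∧ o.toZFSet ∈ N' ∧ (ct o N').rank ≤ Q.rank ∧
      Q.rank < o := by
  rcases hc with h1 | ⟨o, h1, h2, h3, h4, h5⟩
  · exact Or.inl (ct_sub h1)
  · have h6 := (mem_ct.1 h3).2
    rw [Ordinal.rank_toZFSet] at h6
    rw [ct_ct h6.le] at h4
    exact Or.inr ⟨o, h1, h2, ct_sub h3, h4, h5⟩

theorem claim_E (h : NS Sm Tr) {s t N : ZFSet.{0}} (hs : Cd Sm Tr s) (ht : Cd Sm Tr t) (hN : N ∈ s)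
    (hSm : Sm N) (htN : t ⊆ N) (hst : ∀ Q ∈ s, Q ∈ N → Q ∈ t) {N' Q : ZFSet.{0}} (hN' : N' ∈ s)
    (hSm' : Sm N') (hQ : Q ∈ t) (hr : Q.rank < N'.rank) :
    Q ∈ N' ∨ ∃ o, Tr o ∧ (o.toZFSet ∈ s ∨ o.toZFSet ∈ t) ∧ o.toZFSet ∈ N' ∧ (ct o N').rank ≤ Q.rank ∧
      Q.rank < o := by
  have hQN : Q ∈ N := htN hQ
  -- the induction
  have key : ∀ α : Ordinal.{0}, ∀ N' : ZFSet.{0}, N'.rank = α → N' ∈ s → Sm N' → Q.rank < N'.rank →
      (Q ∈ N' ∨ ∃ o, Tr o ∧ (o.toZFSet ∈ s ∨ o.toZFSet ∈ t) ∧ o.toZFSet ∈ N' ∧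
        (ct o N').rank ≤ Q.rank ∧ Q.rank < o) := by
    intro α
    induction α using WellFoundedLT.induction with
    | ind α ih =>
      intro N' hα hN' hSm' hr
      -- the use of the induction
      have step : ∀ δ : Ordinal.{0}, Tr δ → δ.toZFSet ∈ s → δ.toZFSet ∈ N' →
          (ct δ N').rank < N'.rank → Q.rank < δ →
          (Q ∈ N' ∨ ∃ o, Tr o ∧ (o.toZFSet ∈ s ∨ o.toZFSet ∈ t) ∧ o.toZFSet ∈ N' ∧
            (ct o N').rank ≤ Q.rank ∧ Q.rank < o) := by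
        intro δ hδ hδs hδN' hlt hQδ
        rcases le_or_gt (ct δ N').rank Q.rank with h1 | h1
        · exact Or.inr ⟨δ, hδ, Or.inl hδs, hδN', h1, hQδ⟩
        · exact claimE_up (ih _ (by rw [← hα]; exact hlt) (ct δ N') rfl
            (hs.c3 N' hN' hSm' δ hδ hδs hδN') (h.cut N' δ hSm' hδ hδN') h1)
      rcases lt_trichotomy N'.rank N.rank with hlt | heq | hgt
      · rcases hs.c2 N hN hSm N' hN' hlt with h1 | ⟨δ, hδ, hδs, hδN, h1, h2⟩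
        · rcases ht.c2 N' (hst N' hN' h1) hSm' Q hQ hr with h2 | ⟨o, h2, h3, h4, h5, h6⟩
          · exact Or.inl h2
          · exact Or.inr ⟨o, h2, Or.inr h3, h4, h5, h6⟩
        · have hQδ : Q ∈ ct δ N := mem_ct.2 ⟨hQN, hr.trans h2⟩
          have hδs' : ct δ N ∈ s := hs.c3 N hN hSm δ hδ hδs hδN
          have hSmδ : Sm (ct δ N) := h.cut N δ hSm hδ hδN
          rcases eq_or_lt_of_le h1 with h3 | h3
          · left
            rw [← hs.c1 _ hδs' _ hN' h3]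
            exact hQδ
          · rcases hs.c2 N' hN' hSm' _ hδs' h3 with h4 | ⟨δ', hδ', hδ's, hδ'N, h4, h5⟩
            · exact Or.inl (h.sub _ N' hSmδ hSm' h4 hQδ)
            · exact step δ' hδ' hδ's hδ'N (h4.trans_lt h3) ((ZFSet.rank_lt_of_mem hQδ).trans h5)
      · left
        rw [hs.c1 _ hN' _ hN heq]
        exact hQN
      · rcases hs.c2 N' hN' hSm' N hN hgt with h1 | ⟨δ, hδ, hδs, hδN', h1, h2⟩
        · exact Or.inl (h.sub N N' hSm hSm' h1 hQN)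
        · exact step δ hδ hδs hδN' (h1.trans_lt hgt) ((ZFSet.rank_lt_of_mem hQN).trans h2)
  exact key _ N' rfl hN' hSm' hr

end Pool.Agent.H7.IG
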