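import Pool.Agent.H7.IG.Cond

/-!
# IG: side conditions, claims for Lemma B

`N ∈ s` small, `s`, `t` conditions, `t ⊆ N`, `s ∩ N ⊆ t` (`N_o = ct o N = N ∩ V_o`).
`(o.toZFSet).rank = o`, so `o` can be read off from the node `o.toZFSet`.

Claim F (`claim_F`). `N' ∈ t` small, `Q ∈ s`, `Q ∉ t`, `rk Q < rk N'` `⇒` there is a transitive node `γ ∈ t`,
`γ ∈ N'`, `rk N'_γ ≤ rk Q < γ`. Proof: `Q ∉ N` (otherwise `Q ∈ t`), `rk N' < rk N`, so (C2) for `(N, Q)` gives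
`δ ∈ s ∩ N`, `rk N_δ ≤ rk Q < δ`; `δ ∈ t`. `rk N' > δ`: otherwise `rk N' < δ`, `N' ∈ N_δ`,
`rk N' < rk N_δ ≤ rk Q`. (C2) of `t` for `N'` and the node `δ`: (a) `δ ∈ N'`: `N'_δ ∈ N` (`NS.cutmem`), so
`N'_δ ∈ N_δ`, `rk N'_δ < rk N_δ ≤ rk Q < δ`. (b) `δ' ∈ t ∩ N'`, `rk N'_{δ'} ≤ δ < δ'`: `N'' := N'_{δ'} ∈ t` has rank
`< δ` and is in `N`, so `N'' ∈ N_δ`, `rk N'' < rk N_δ ≤ rk Q < δ < δ'`.

Claim H (`claim_H`). `γ ∈ t` transitive node, `γ ∉ s`: no member of `s ∪ t` has rank in `[rk N_γ, γ)`.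
For `Q ∈ t` with `rk Q < γ`: `Q ∈ N_γ`. For `Q ∈ s` with `rk N_γ ≤ rk Q < γ`: `Q ∉ N` (otherwise `Q ∈ N_γ`);
(C2) for `(N, Q)` (`rk Q < γ < rk N`): `δ ∈ s ∩ N`, `rk N_δ ≤ rk Q < δ`; `δ ≠ γ`; if `δ < γ` then `δ ∈ N_γ`,
`δ < rk N_γ ≤ rk Q`, contradiction; if `δ > γ` then `γ ∈ N_δ`, `γ < rk N_δ ≤ rk Q < γ`, contradiction.
-/

set_option autoImplicit false
set_option linter.unusedVariables false

namespace Pool.Agent.H7.IG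

open Pool.Agent.H52.GC

variable {Sm : ZFSet.{0} → Prop} {Tr : Ordinal.{0} → Prop}

theorem cF_nr {o : Ordinal.{0}} {x : ZFSet.{0}} (h : o.toZFSet ∈ x) : o < x.rank := by
  have h1 := ZFSet.rank_lt_of_mem h
  rwa [Ordinal.rank_toZFSet] at h1

theorem cF_mem {o o' : Ordinal.{0}} {x : ZFSet.{0}} (h : o.toZFSet ∈ x) (h' : o < o') :
    o.toZFSet ∈ ct o' x := mem_ct.2 ⟨h, by rw [Ordinal.rank_toZFSet]; exact h'⟩

theorem claim_F (h : NS Sm Tr) {s t N : ZFSet.{0}} (hs : Cd Sm Tr s) (ht : Cd Sm Tr t) (hN : N ∈ s)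
    (hSm : Sm N) (htN : t ⊆ N) (hst : ∀ Q ∈ s, Q ∈ N → Q ∈ t) {N' Q : ZFSet.{0}} (hN' : N' ∈ t)
    (hSm' : Sm N') (hQ : Q ∈ s) (hQt : Q ∉ t) (hr : Q.rank < N'.rank) :
    ∃ o, Tr o ∧ o.toZFSet ∈ t ∧ o.toZFSet ∈ N' ∧ (ct o N').rank ≤ Q.rank ∧ Q.rank < o := by
  have hQN : Q ∉ N := fun h1 => hQt (hst Q hQ h1)
  have hN'N : N' ∈ N := htN hN'
  have hrN : N'.rank < N.rank := ZFSet.rank_lt_of_mem hN'N
  rcases hs.c2 N hN hSm Q hQ (hr.trans hrN) with h1 | ⟨δ, hδ, hδs, hδN, h2, h3⟩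
  · exact absurd h1 hQN
  · have hδt : δ.toZFSet ∈ t := hst _ hδs hδN
    have hδr : δ < N'.rank := by
      rcases lt_trichotomy N'.rank δ with h4 | h4 | h4
      · have h5 : N' ∈ ct δ N := mem_ct.2 ⟨hN'N, h4⟩
        exact absurd (((ZFSet.rank_lt_of_mem h5).trans_le h2).trans hr) (lt_irrefl _)
      · exact absurd (h4 ▸ hδ) (h.rk N' hSm')
      · exact h4
    rcases ht.c2 N' hN' hSm' _ hδt (by rw [Ordinal.rank_toZFSet]; exact hδr) with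
      h4 | ⟨δ', hδ', hδt', hδN', h5, h6⟩
    · have h7 : ct δ N' ∈ N := h.cutmem N' N δ hSm' hSm hδ hN'N hδN
      have h8 : ct δ N' ∈ ct δ N := mem_ct.2 ⟨h7, h.rkcut N' δ hSm' hδ⟩
      exact ⟨δ, hδ, hδt, h4, (ZFSet.rank_lt_of_mem h8).le.trans h2, h3⟩
    · rw [Ordinal.rank_toZFSet] at h5 h6
      have h7 : ct δ' N' ∈ N := h.cutmem N' N δ' hSm' hSm hδ' hN'N (htN hδt')
      have h8 : Sm (ct δ' N') := h.cut N' δ' hSm' hδ' hδN'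
      have h9 : (ct δ' N').rank < δ := by
        refine lt_of_le_of_ne h5 fun h10 => ?_
        exact h.rk _ h8 (h10 ▸ hδ)
      have h10 : ct δ' N' ∈ ct δ N := mem_ct.2 ⟨h7, h9⟩
      exact ⟨δ', hδ', hδt', hδN', (ZFSet.rank_lt_of_mem h10).le.trans h2, h3.trans h6⟩

theorem claim_H (h : NS Sm Tr) {s t N : ZFSet.{0}} (hs : Cd Sm Tr s) (ht : Cd Sm Tr t) (hN : N ∈ s)
    (hSm : Sm N) (htN : t ⊆ N) (hst : ∀ Q ∈ s, Q ∈ N → Q ∈ t) {γ : Ordinal.{0}} (hγ : Tr γ)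
    (hγt : γ.toZFSet ∈ t) (hγs : γ.toZFSet ∉ s) {Q : ZFSet.{0}} (hQ : Q ∈ s ∨ Q ∈ t) :
    Q.rank < (ct γ N).rank ∨ γ ≤ Q.rank := by
  by_contra hc
  push Not at hc
  obtain ⟨hc1, hc2⟩ := hc
  have hγN : γ.toZFSet ∈ N := htN hγt
  have hQN : Q ∉ N := fun h1 =>
    absurd (ZFSet.rank_lt_of_mem (mem_ct.2 ⟨h1, hc2⟩)) (not_lt.2 hc1)
  rcases hQ with hQ | hQ
  · rcases hs.c2 N hN hSm Q hQ (hc2.trans (cF_nr hγN)) with h1 | ⟨δ, hδ, hδs, hδN, h2, h3⟩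
    · exact hQN h1
    · rcases lt_trichotomy δ γ with h4 | h4 | h4
      · exact absurd (((cF_nr (cF_mem hδN h4)).trans_le hc1).trans h3) (lt_irrefl _)
      · exact hγs (h4 ▸ hδs)
      · exact absurd (((cF_nr (cF_mem hγN h4)).trans_le h2).trans hc2) (lt_irrefl _)
  · exact hQN (htN hQ)

end Pool.Agent.H7.IG
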