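import Pool.Agent.H7.IG.Cond

/-!
# IG: side conditions, claims for Lemma B

`N ∈ s` small, `s`, `t` conditions, `t ⊆ N`, `s ∩ N ⊆ t` (`N_o = ct o N = N ∩ V_o`).
`(o.toZFSet).rank = o`, so `o` can be read off from the node `o.toZFSet`.

Claim G (`claim_G`). `N₁, N₂ ∈ s` small, `γ ∈ N₁ ∩ N₂`, `Tr γ` `⇒` `(N₁)_γ = (N₂)_γ` or one is an element of the
other. Induction on the pair of ranks, wlog `rk N₁ < rk N₂`: (C2) for `(N₂, N₁)`: `N₁ ∈ N₂`: `(N₁)_γ ∈ N₂`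
(`NS.cutmem`) of rank `< γ`. Or `δ ∈ s ∩ N₂`, `rk (N₂)_δ ≤ rk N₁ < δ`: `N₃ := (N₂)_δ ∈ s`, `γ < rk N₁ < δ`, so
`γ ∈ N₃`, `(N₃)_γ = (N₂)_γ`; `rk N₃ = rk N₁` gives `N₃ = N₁`; otherwise induction for `(N₃, N₁)` (the maximum of the
ranks decreases).

-/

set_option autoImplicit false
set_option linter.unusedVariables false

namespace Pool.Agent.H7.IG

open Pool.Agent.H52.GC

variable {Sm : ZFSet.{0} → Prop} {Tr : Ordinal.{0} → Prop}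

theorem claim_G_aux (h : NS Sm Tr) {s : ZFSet.{0}} (hs : Cd Sm Tr s) {γ : Ordinal.{0}} (hγ : Tr γ)
    (o : Ordinal.{0}) : ∀ N₁ ∈ s, Sm N₁ → ∀ N₂ ∈ s, Sm N₂ → γ.toZFSet ∈ N₁ → γ.toZFSet ∈ N₂ →
      N₂.rank = o → N₁.rank < N₂.rank →
      ct γ N₁ = ct γ N₂ ∨ ct γ N₁ ∈ ct γ N₂ ∨ ct γ N₂ ∈ ct γ N₁ := by
  have rk : ∀ a : Ordinal.{0}, a.toZFSet.rank = a := Ordinal.rank_toZFSet
  induction o using WellFoundedLT.induction with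
  | _ o ih =>
    intro N₁ h1 hSm1 N₂ h2 hSm2 hγ1 hγ2 ho hlt
    rcases hs.c2 N₂ h2 hSm2 N₁ h1 hlt with hmem | ⟨δ, hδ, hδs, hδN, hle, hlt2⟩
    · right
      left
      exact mem_ct.2 ⟨h.cutmem N₁ N₂ γ hSm1 hSm2 hγ hmem hγ2, h.rkcut N₁ γ hSm1 hγ⟩
    · have hγlt : γ < N₁.rank := by
        have := ZFSet.rank_lt_of_mem hγ1
        rwa [rk] at this
      have hγδ : γ < δ := hγlt.trans hlt2
      have h3 : ct δ N₂ ∈ s := hs.c3 N₂ h2 hSm2 δ hδ hδs hδN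
      have hSm3 : Sm (ct δ N₂) := h.cut N₂ δ hSm2 hδ hδN
      have hγ3 : γ.toZFSet ∈ ct δ N₂ := mem_ct.2 ⟨hγ2, by rwa [rk]⟩
      have hcc : ct γ (ct δ N₂) = ct γ N₂ := ct_ct hγδ.le N₂
      rcases hle.lt_or_eq with hlt3 | heq
      · have h4 := ih N₁.rank (ho ▸ hlt) (ct δ N₂) h3 hSm3 N₁ h1 hSm1 hγ3 hγ1 rfl hlt3
        rw [hcc] at h4
        rcases h4 with h4 | h4 | h4
        · exact Or.inl h4.symm
        · exact Or.inr (Or.inr h4)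
        · exact Or.inr (Or.inl h4)
      · left
        rw [← hcc, hs.c1 _ h3 _ h1 heq]

theorem claim_G (h : NS Sm Tr) {s : ZFSet.{0}} (hs : Cd Sm Tr s) {N₁ N₂ : ZFSet.{0}} (h1 : N₁ ∈ s)
    (hSm1 : Sm N₁) (h2 : N₂ ∈ s) (hSm2 : Sm N₂) {γ : Ordinal.{0}} (hγ : Tr γ) (hγ1 : γ.toZFSet ∈ N₁)
    (hγ2 : γ.toZFSet ∈ N₂) : ct γ N₁ = ct γ N₂ ∨ ct γ N₁ ∈ ct γ N₂ ∨ ct γ N₂ ∈ ct γ N₁ := by
  rcases lt_trichotomy N₁.rank N₂.rank with hlt | heq | hgt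
  · exact claim_G_aux h hs hγ _ N₁ h1 hSm1 N₂ h2 hSm2 hγ1 hγ2 rfl hlt
  · rw [hs.c1 _ h1 _ h2 heq]
    exact Or.inl rfl
  · rcases claim_G_aux h hs hγ _ N₂ h2 hSm2 N₁ h1 hSm1 hγ2 hγ1 rfl hgt with h4 | h4 | h4
    · exact Or.inl h4.symm
    · exact Or.inr (Or.inr h4)
    · exact Or.inr (Or.inl h4)

end Pool.Agent.H7.IG
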