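import Pool.Agent.H7.IG.CondD
import Pool.Agent.H7.IG.CondE
import Pool.Agent.H7.IG.CondF
import Pool.Agent.H7.IG.CondG

/-!
# IG: side conditions, claims D-H (collected)
-/
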