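import Pool.Agent.H7.IG.CondB

/-!
# IG: side conditions, Lemma B

`N ∈ s` small, `s`, `t` conditions, `t ⊆ N`, `s ∩ N ⊆ t`. Then
`u = s ∪ t ∪ {N'_γ : N' ∈ s small, γ ∈ t transitive node, γ ∈ N'}` is a condition (`N_o = ct o N`).

Proof, from the claims D-H of `CondB`. Let `R` be the third part. If `γ ∈ s` then `N'_γ ∈ s` (C3); if
`N'_γ ∈ t` it is not new. A NEW element of `R` is `N'_γ ∉ s ∪ t`; then `γ ∉ s`, and `N_γ ⊆ N'` by Claim D, so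
`rk N_γ ≤ rk N'_γ < γ`. By Claim H no member of `s ∪ t` has rank in `I_γ := [rk N_γ, γ)`. For new nodes over
`γ' < γ`: `γ' ∈ N_γ` (`γ' ∈ t ⊆ N`), so `I_{γ'}` is below `rk N_γ`.

(C1): `Q ∈ s`, `Q ∉ t`, `Q' ∈ t`, `Q' ∉ s` of the same rank: `Q ∉ N`, `rk Q < rk N`, (C2) for `(N, Q)`:
`δ ∈ s ∩ N`, `rk N_δ ≤ rk Q = rk Q' < δ`; but `Q' ∈ N_δ`: contradiction. New elements have ranks in `I_γ`, so differ
from the ranks of `s ∪ t` and of new elements over `γ' ≠ γ`; over the same `γ` use Claim G.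
(C2), pairs `(N', Q)`, `rk Q < rk N'`:
* both in `s`, or both in `t`: (C2). `N' ∈ s`, `Q ∈ t`: Claim E. `N' ∈ t`, `Q ∈ s ∖ t`: Claim F.
* `N' ∈ s`, `Q = (N₁)_γ` new: `rk N' > γ` (rank not in `I_γ`, larger than `rk Q ≥ rk N_γ`, not `γ` by `NS.rk`). Claim E
  for `N'` and the node `γ`: (a) `γ ∈ N'`: Claim G for `N₁, N'`: `N'_γ = Q` or `N'_γ ∈ Q`: witness `γ`; `Q ∈ N'_γ`: then
  `Q ∈ N'`. (b) `δ ∈ (s ∪ t) ∩ N'`, `rk N'_δ ≤ γ < δ`. If `δ ∈ s` then `N'_δ ∈ s`, rank not in `I_γ`, not `γ`, so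
  `rk N'_δ < rk N_γ ≤ rk Q < γ < δ`: witness `δ`. If `δ ∈ t`: by Claim D `N'_δ ∈ t` (same argument) or `N_δ ⊆ N'`,
  then `γ ∈ N_δ ⊆ N'`: case (a).
* `N' ∈ t`, `Q = (N₁)_γ` new: `rk N' > γ`. (C2) of `t` for `N'` and `γ`: (a) `γ ∈ N'`: `N'_γ ∈ N` (`NS.cutmem`),
  `N'_γ ∈ N_γ`, so `rk N'_γ < rk N_γ ≤ rk Q < γ`: witness `γ`. (b) `δ ∈ t ∩ N'`, `rk N'_δ ≤ γ < δ`: `N'_δ ∈ t`, rank not
  in `I_γ`, not `γ`, so `< rk N_γ ≤ rk Q`: witness `δ`.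
* `N' = (N₁)_γ` new, `Q ∈ t`: `rk Q < rk N' < γ`, so `Q ∈ N_γ ⊆ N₁`, `Q ∈ (N₁)_γ = N'`.
* `N' = (N₁)_γ` new, `Q ∈ s`: `rk Q < γ < rk N₁`; (C2) of `s` for `(N₁, Q)`: `Q ∈ N₁`: `Q ∈ N'`. Or `δ ∈ s ∩ N₁`,
  `rk (N₁)_δ ≤ rk Q < δ`: `δ ≠ γ` as `γ ∉ s`. If `δ < γ`: `δ ∈ N'`, `N'_δ = (N₁)_δ`: witness `δ`. If `δ > γ`:
  `γ ∈ (N₁)_δ`, `γ < rk (N₁)_δ ≤ rk Q`, contradiction.
* `N' = (N₁)_γ`, `Q = (N₂)_{γ'}` both new: `γ' ≤ γ`. `γ' = γ`: Claim G gives `Q ∈ N'` (the other cases contradict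
  `rk Q < rk N'`). `γ' < γ`: `γ' ∈ N_γ ⊆ N₁`, so `γ' ∈ N'`; Claim G for `N₁, N₂` at `γ'`: `(N₁)_{γ'} = Q` or
  `(N₁)_{γ'} ∈ Q`: witness `γ'` (`N'_{γ'} = (N₁)_{γ'}`); or `Q ∈ (N₁)_{γ'} ⊆ N'`.
(C3): `N' ∈ s`: `γ ∈ s` (C3), `γ ∈ t`: `N'_γ ∈ R`. `N' ∈ t`, `γ ∈ s ∪ t`, `γ ∈ N' ⊆ N` (`NS.sub`): `γ ∈ t`; (C3) of `t`.
`N' = (N₁)_δ ∈ R`, `γ ∈ N'`: `γ < δ`, `γ ∈ N₁`, `N'_γ = (N₁)_γ ∈ s ∪ R`.
-/

set_option autoImplicit false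
set_option linter.unusedVariables false

namespace Pool.Agent.H7.IG

open Pool.Agent.H52.GC

variable {Sm : ZFSet.{0} → Prop} {Tr : Ordinal.{0} → Prop}

theorem exists_zf (F : Finset ZFSet.{0}) : ∃ u : ZFSet.{0}, ∀ z, z ∈ u ↔ z ∈ F := by
  classical
  induction F using Finset.induction_on with
  | empty => exact ⟨∅, fun z => by simp⟩
  | insert x F hx ih =>
    obtain ⟨u, hu⟩ := ih
    exact ⟨insert x u, fun z => by rw [ZFSet.mem_insert_iff, hu, Finset.mem_insert]⟩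

/-- A new element of the third part. -/
structure Nw (Sm : ZFSet.{0} → Prop) (Tr : Ordinal.{0} → Prop) (s t N Q N₁ : ZFSet.{0})
    (γ : Ordinal.{0}) : Prop where
  h1 : N₁ ∈ s
  sm : Sm N₁
  tr : Tr γ
  gt : γ.toZFSet ∈ t
  gN : γ.toZFSet ∈ N₁
  eq : Q = ct γ N₁
  gs : γ.toZFSet ∉ s
  sub : ct γ N ⊆ N₁
  lo : (ct γ N).rank ≤ Q.rank
  hi : Q.rank < γ
  smQ : Sm Q

theorem rk_lt {o : Ordinal.{0}} {N : ZFSet.{0}} (h : o.toZFSet ∈ N) : o < N.rank := by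
  have := ZFSet.rank_lt_of_mem h
  rwa [Ordinal.rank_toZFSet] at this

theorem mem_ct_ord {o δ : Ordinal.{0}} {N : ZFSet.{0}} (h : o.toZFSet ∈ N) (h2 : o < δ) :
    o.toZFSet ∈ ct δ N := by
  rw [mem_ct, Ordinal.rank_toZFSet]
  exact ⟨h, h2⟩

theorem new_or (h : NS Sm Tr) {s t N : ZFSet.{0}} (hs : Cd Sm Tr s) (ht : Cd Sm Tr t) (hN : N ∈ s)
    (hSm : Sm N) (htN : t ⊆ N) (hst : ∀ Q ∈ s, Q ∈ N → Q ∈ t) {Q : ZFSet.{0}}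
    (hQ : Q ∈ s ∨ Q ∈ t ∨
      ∃ N' ∈ s, Sm N' ∧ ∃ o, Tr o ∧ o.toZFSet ∈ t ∧ o.toZFSet ∈ N' ∧ Q = ct o N') :
    Q ∈ s ∨ Q ∈ t ∨ ∃ N₁ γ, Nw Sm Tr s t N Q N₁ γ := by
  by_cases hQs : Q ∈ s
  · exact Or.inl hQs
  by_cases hQt : Q ∈ t
  · exact Or.inr (Or.inl hQt)
  rcases hQ with hQ | hQ | ⟨N₁, h1, sm, γ, tr, gt, gN, eq⟩
  · exact Or.inl hQ
  · exact Or.inr (Or.inl hQ)
  refine Or.inr (Or.inr ⟨N₁, γ, ?_⟩)
  have gs : γ.toZFSet ∉ s := fun hg => hQs (eq ▸ hs.c3 N₁ h1 sm γ tr hg gN)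
  have sub : ct γ N ⊆ N₁ := by
    rcases claim_D h hs ht hN hSm htN hst h1 sm tr gN gt with hd | hd
    · exact absurd (eq ▸ hd) hQt
    · exact hd
  refine ⟨h1, sm, tr, gt, gN, eq, gs, sub, ?_, ?_, ?_⟩
  · rw [eq]
    refine ZFSet.rank_mono fun y hy => mem_ct.2 ⟨sub hy, (mem_ct.1 hy).2⟩
  · rw [eq]
    exact h.rkcut N₁ γ sm tr
  · rw [eq]
    exact h.cut N₁ γ sm tr gN

/-- `N' ∈ s` small, `Q` new. -/
theorem c2_s_new (h : NS Sm Tr) {s t N : ZFSet.{0}} (hs : Cd Sm Tr s) (ht : Cd Sm Tr t) (hN : N ∈ s)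
    (hSm : Sm N) (htN : t ⊆ N) (hst : ∀ Q ∈ s, Q ∈ N → Q ∈ t) {N' Q N₁ : ZFSet.{0}}
    {γ : Ordinal.{0}} (hN' : N' ∈ s) (hSm' : Sm N') (hQ : Nw Sm Tr s t N Q N₁ γ)
    (hr : Q.rank < N'.rank) :
    Q ∈ N' ∨ ∃ o, Tr o ∧ (o.toZFSet ∈ s ∨ o.toZFSet ∈ t) ∧ o.toZFSet ∈ N' ∧
      (ct o N').rank ≤ Q.rank ∧ Q.rank < o := by
  have hH := fun {Q' : ZFSet.{0}} (hQ' : Q' ∈ s ∨ Q' ∈ t) =>
    claim_H h hs ht hN hSm htN hst hQ.tr hQ.gt hQ.gs hQ'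
  have hγN' : γ < N'.rank := by
    rcases hH (Or.inl hN') with h1 | h1
    · exact absurd (h1.trans_le hQ.lo) (not_lt.2 hr.le)
    · rcases h1.lt_or_eq with h2 | h2
      · exact h2
      · exact absurd (h2 ▸ hQ.tr) (h.rk N' hSm')
  have hA : γ.toZFSet ∈ N' → Q ∈ N' ∨ ∃ o, Tr o ∧ (o.toZFSet ∈ s ∨ o.toZFSet ∈ t) ∧ o.toZFSet ∈ N' ∧
      (ct o N').rank ≤ Q.rank ∧ Q.rank < o := by
    intro hg
    rcases claim_G h hs hQ.h1 hQ.sm hN' hSm' hQ.tr hQ.gN hg with h1 | h1 | h1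
    · refine Or.inr ⟨γ, hQ.tr, Or.inr hQ.gt, hg, ?_, hQ.hi⟩
      rw [← h1, ← hQ.eq]
    · refine Or.inl ?_
      rw [hQ.eq]
      exact ct_sub h1
    · refine Or.inr ⟨γ, hQ.tr, Or.inr hQ.gt, hg, ?_, hQ.hi⟩
      rw [← hQ.eq] at h1
      exact (ZFSet.rank_lt_of_mem h1).le
  have hE := claim_E h hs ht hN hSm htN hst hN' hSm' (Q := γ.toZFSet) hQ.gt
    (by rw [Ordinal.rank_toZFSet]; exact hγN')
  rw [Ordinal.rank_toZFSet] at hE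
  rcases hE with hE | ⟨δ, hδ, hδst, hδN', h1, h2⟩
  · exact hA hE
  have hB : (ct δ N' ∈ s ∨ ct δ N' ∈ t) → Q ∈ N' ∨ ∃ o, Tr o ∧ (o.toZFSet ∈ s ∨ o.toZFSet ∈ t) ∧
      o.toZFSet ∈ N' ∧ (ct o N').rank ≤ Q.rank ∧ Q.rank < o := by
    intro h3
    refine Or.inr ⟨δ, hδ, hδst, hδN', ?_, hQ.hi.trans h2⟩
    rcases hH h3 with h4 | h4
    · exact (h4.trans_le hQ.lo).le
    · have h5 : (ct δ N').rank = γ := le_antisymm h1 h4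
      exact absurd (h5 ▸ hQ.tr) (h.rk _ (h.cut N' δ hSm' hδ hδN'))
  rcases hδst with h3 | h3
  · exact hB (Or.inl (hs.c3 N' hN' hSm' δ hδ h3 hδN'))
  · rcases claim_D h hs ht hN hSm htN hst hN' hSm' hδ hδN' h3 with h4 | h4
    · exact hB (Or.inr h4)
    · exact hA (h4 (mem_ct_ord (htN hQ.gt) h2))

/-- `N' ∈ t` small, `Q` new. -/
theorem c2_t_new (h : NS Sm Tr) {s t N : ZFSet.{0}} (hs : Cd Sm Tr s) (ht : Cd Sm Tr t) (hN : N ∈ s)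
    (hSm : Sm N) (htN : t ⊆ N) (hst : ∀ Q ∈ s, Q ∈ N → Q ∈ t) {N' Q N₁ : ZFSet.{0}}
    {γ : Ordinal.{0}} (hN' : N' ∈ t) (hSm' : Sm N') (hQ : Nw Sm Tr s t N Q N₁ γ)
    (hr : Q.rank < N'.rank) :
    ∃ o, Tr o ∧ o.toZFSet ∈ t ∧ o.toZFSet ∈ N' ∧ (ct o N').rank ≤ Q.rank ∧ Q.rank < o := by
  have hH := fun {Q' : ZFSet.{0}} (hQ' : Q' ∈ s ∨ Q' ∈ t) =>
    claim_H h hs ht hN hSm htN hst hQ.tr hQ.gt hQ.gs hQ'
  have hγN' : γ < N'.rank := by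
    rcases hH (Or.inr hN') with h1 | h1
    · exact absurd (h1.trans_le hQ.lo) (not_lt.2 hr.le)
    · rcases h1.lt_or_eq with h2 | h2
      · exact h2
      · exact absurd (h2 ▸ hQ.tr) (h.rk N' hSm')
  have hE := ht.c2 N' hN' hSm' γ.toZFSet hQ.gt (by rw [Ordinal.rank_toZFSet]; exact hγN')
  rw [Ordinal.rank_toZFSet] at hE
  rcases hE with hg | ⟨δ, hδ, hδt, hδN', h1, h2⟩
  · refine ⟨γ, hQ.tr, hQ.gt, hg, ?_, hQ.hi⟩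
    have h1 : ct γ N' ∈ N := h.cutmem N' N γ hSm' hSm hQ.tr (htN hN') (htN hQ.gt)
    have h2 : ct γ N' ∈ ct γ N := mem_ct.2 ⟨h1, h.rkcut N' γ hSm' hQ.tr⟩
    exact ((ZFSet.rank_lt_of_mem h2).trans_le hQ.lo).le
  · refine ⟨δ, hδ, hδt, hδN', ?_, hQ.hi.trans h2⟩
    rcases hH (Or.inr (ht.c3 N' hN' hSm' δ hδ hδt hδN')) with h4 | h4
    · exact (h4.trans_le hQ.lo).le
    · have h5 : (ct δ N').rank = γ := le_antisymm h1 h4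
      exact absurd (h5 ▸ hQ.tr) (h.rk _ (h.cut N' δ hSm' hδ hδN'))

/-- `N'` new, `Q ∈ s`. -/
theorem c2_new_s (h : NS Sm Tr) {s t N : ZFSet.{0}} (hs : Cd Sm Tr s) {N' Q N₁ : ZFSet.{0}}
    {γ : Ordinal.{0}} (hN' : Nw Sm Tr s t N N' N₁ γ) (hQ : Q ∈ s) (hr : Q.rank < N'.rank) :
    Q ∈ N' ∨ ∃ o, Tr o ∧ o.toZFSet ∈ s ∧ o.toZFSet ∈ N' ∧
      (ct o N').rank ≤ Q.rank ∧ Q.rank < o := by
  have hγ1 : γ < N₁.rank := rk_lt hN'.gN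
  have hQγ : Q.rank < γ := hr.trans hN'.hi
  rcases hs.c2 N₁ hN'.h1 hN'.sm Q hQ (hQγ.trans hγ1) with h1 | ⟨δ, hδ, hδs, hδN, h1, h2⟩
  · refine Or.inl ?_
    rw [hN'.eq]
    exact mem_ct.2 ⟨h1, hQγ⟩
  · rcases lt_trichotomy δ γ with h3 | h3 | h3
    · refine Or.inr ⟨δ, hδ, hδs, ?_, ?_, h2⟩
      · rw [hN'.eq]
        exact mem_ct_ord hδN h3
      · rw [hN'.eq, ct_ct h3.le]
        exact h1
    · exact absurd (h3 ▸ hδs) hN'.gs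
    · have h4 := rk_lt (mem_ct_ord hN'.gN h3)
      exact absurd (h4.trans_le (h1.trans hQγ.le)) (lt_irrefl _)

/-- Both new. -/
theorem c2_new_new (h : NS Sm Tr) {s t N : ZFSet.{0}} (hs : Cd Sm Tr s) (htN : t ⊆ N)
    {N' Q N₁ N₂ : ZFSet.{0}} {γ γ' : Ordinal.{0}} (hN' : Nw Sm Tr s t N N' N₁ γ)
    (hQ : Nw Sm Tr s t N Q N₂ γ') (hr : Q.rank < N'.rank) :
    Q ∈ N' ∨ ∃ o, Tr o ∧ o.toZFSet ∈ t ∧ o.toZFSet ∈ N' ∧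
      (ct o N').rank ≤ Q.rank ∧ Q.rank < o := by
  rcases lt_trichotomy γ' γ with h3 | h3 | h3
  · have h4 : γ'.toZFSet ∈ N₁ := hN'.sub (mem_ct_ord (htN hQ.gt) h3)
    have h5 : γ'.toZFSet ∈ N' := by
      rw [hN'.eq]
      exact mem_ct_ord h4 h3
    have h6 : ct γ' N' = ct γ' N₁ := by rw [hN'.eq, ct_ct h3.le]
    rcases claim_G h hs hN'.h1 hN'.sm hQ.h1 hQ.sm hQ.tr h4 hQ.gN with h7 | h7 | h7
    · refine Or.inr ⟨γ', hQ.tr, hQ.gt, h5, ?_, hQ.hi⟩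
      rw [h6, h7, ← hQ.eq]
    · refine Or.inr ⟨γ', hQ.tr, hQ.gt, h5, ?_, hQ.hi⟩
      rw [h6]
      rw [← hQ.eq] at h7
      exact (ZFSet.rank_lt_of_mem h7).le
    · refine Or.inl ?_
      rw [hN'.eq, mem_ct]
      rw [← hQ.eq] at h7
      exact ⟨ct_sub h7, hQ.hi.trans h3⟩
  · subst h3
    rcases claim_G h hs hN'.h1 hN'.sm hQ.h1 hQ.sm hQ.tr hN'.gN hQ.gN with h7 | h7 | h7
    · rw [← hQ.eq, ← hN'.eq] at h7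
      rw [h7] at hr
      exact absurd hr (lt_irrefl _)
    · rw [← hQ.eq, ← hN'.eq] at h7
      exact absurd (ZFSet.rank_lt_of_mem h7) (not_lt.2 hr.le)
    · rw [← hQ.eq, ← hN'.eq] at h7
      exact Or.inl h7
  · have h4 := rk_lt (mem_ct_ord (htN hN'.gt) h3)
    exact absurd ((h4.trans_le hQ.lo).trans (hr.trans hN'.hi)) (lt_irrefl _)

theorem c1_st (h : NS Sm Tr) {s t N : ZFSet.{0}} (hs : Cd Sm Tr s) (ht : Cd Sm Tr t) (hN : N ∈ s)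
    (hSm : Sm N) (htN : t ⊆ N) (hst : ∀ Q ∈ s, Q ∈ N → Q ∈ t) {Q Q' : ZFSet.{0}} (hQ : Q ∈ s)
    (hQ' : Q' ∈ t) (hr : Q.rank = Q'.rank) : Q = Q' := by
  by_cases hQt : Q ∈ t
  · exact ht.c1 Q hQt Q' hQ' hr
  have hQN : Q ∉ N := fun h1 => hQt (hst Q hQ h1)
  have h1 : Q.rank < N.rank := by
    rw [hr]
    exact ZFSet.rank_lt_of_mem (htN hQ')
  rcases hs.c2 N hN hSm Q hQ h1 with h2 | ⟨δ, hδ, hδs, hδN, h2, h3⟩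
  · exact absurd h2 hQN
  · have h4 : Q' ∈ ct δ N := mem_ct.2 ⟨htN hQ', hr ▸ h3⟩
    have h5 := ZFSet.rank_lt_of_mem h4
    rw [← hr] at h5
    exact absurd (h5.trans_le h2) (lt_irrefl _)

theorem c1_new (h : NS Sm Tr) {s t N : ZFSet.{0}} (hs : Cd Sm Tr s) (ht : Cd Sm Tr t) (hN : N ∈ s)
    (hSm : Sm N) (htN : t ⊆ N) (hst : ∀ Q ∈ s, Q ∈ N → Q ∈ t) {Q Q' N₁ : ZFSet.{0}}
    {γ : Ordinal.{0}} (hQ : Nw Sm Tr s t N Q N₁ γ) (hQ' : Q' ∈ s ∨ Q' ∈ t)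
    (hr : Q.rank = Q'.rank) : False := by
  rcases claim_H h hs ht hN hSm htN hst hQ.tr hQ.gt hQ.gs hQ' with h1 | h1
  · exact absurd (h1.trans_le hQ.lo) (by rw [hr]; exact lt_irrefl _)
  · exact absurd (hQ.hi.trans_le h1) (by rw [hr]; exact lt_irrefl _)

theorem c1_new_new (h : NS Sm Tr) {s t N : ZFSet.{0}} (hs : Cd Sm Tr s) (htN : t ⊆ N)
    {Q Q' N₁ N₂ : ZFSet.{0}} {γ γ' : Ordinal.{0}} (hQ : Nw Sm Tr s t N Q N₁ γ)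
    (hQ' : Nw Sm Tr s t N Q' N₂ γ') (hr : Q.rank = Q'.rank) : Q = Q' := by
  rcases lt_trichotomy γ' γ with h3 | h3 | h3
  · have h4 := rk_lt (mem_ct_ord (htN hQ'.gt) h3)
    have h5 := h4.trans_le hQ.lo
    rw [hr] at h5
    exact absurd (h5.trans hQ'.hi) (lt_irrefl _)
  · subst h3
    rcases claim_G h hs hQ.h1 hQ.sm hQ'.h1 hQ'.sm hQ.tr hQ.gN hQ'.gN with h7 | h7 | h7
    · rw [hQ.eq, hQ'.eq, h7]
    · rw [← hQ.eq, ← hQ'.eq] at h7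
      exact absurd (ZFSet.rank_lt_of_mem h7) (by rw [hr]; exact lt_irrefl _)
    · rw [← hQ.eq, ← hQ'.eq] at h7
      exact absurd (ZFSet.rank_lt_of_mem h7) (by rw [hr]; exact lt_irrefl _)
  · have h4 := rk_lt (mem_ct_ord (htN hQ.gt) h3)
    have h5 := h4.trans_le hQ'.lo
    rw [← hr] at h5
    exact absurd (h5.trans hQ.hi) (lt_irrefl _)

/-- Lemma B. -/
theorem cond_B (h : NS Sm Tr) {s t N : ZFSet.{0}} (hs : Cd Sm Tr s) (ht : Cd Sm Tr t) (hN : N ∈ s)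
    (hSm : Sm N) (htN : t ⊆ N) (hst : ∀ Q ∈ s, Q ∈ N → Q ∈ t) :
    ∃ u, Cd Sm Tr u ∧ ∀ Q, Q ∈ u ↔ Q ∈ s ∨ Q ∈ t ∨
      ∃ N' ∈ s, Sm N' ∧ ∃ o, Tr o ∧ o.toZFSet ∈ t ∧ o.toZFSet ∈ N' ∧ Q = ct o N' := by
  classical
  obtain ⟨Fs, hFs⟩ := hs.fin
  obtain ⟨Ft, hFt⟩ := ht.fin
  have hfin : {Q : ZFSet.{0} | Q ∈ s ∨ Q ∈ t ∨
      ∃ N' ∈ s, Sm N' ∧ ∃ o, Tr o ∧ o.toZFSet ∈ t ∧ o.toZFSet ∈ N' ∧ Q = ct o N'}.Finite := by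
    refine Set.Finite.subset
      ((Fs ∪ Ft) ∪ (Fs ×ˢ Ft).image (fun a => ct a.2.rank a.1)).finite_toSet ?_
    rintro Q (hQ | hQ | ⟨N', h1, h2, o, h3, h4, h5, h6⟩)
    · simp only [Finset.coe_union, Set.mem_union, Finset.mem_coe]
      exact Or.inl (Or.inl ((hFs Q).1 hQ))
    · simp only [Finset.coe_union, Set.mem_union, Finset.mem_coe]
      exact Or.inl (Or.inr ((hFt Q).1 hQ))
    · rw [Finset.mem_coe, Finset.mem_union, Finset.mem_image]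
      refine Or.inr ⟨(N', o.toZFSet), ?_, ?_⟩
      · rw [Finset.mem_product]
        exact ⟨(hFs _).1 h1, (hFt _).1 h4⟩
      · simp only [Ordinal.rank_toZFSet]
        exact h6.symm
  obtain ⟨u, hu⟩ := exists_zf hfin.toFinset
  have hu' : ∀ Q, Q ∈ u ↔ Q ∈ s ∨ Q ∈ t ∨
      ∃ N' ∈ s, Sm N' ∧ ∃ o, Tr o ∧ o.toZFSet ∈ t ∧ o.toZFSet ∈ N' ∧ Q = ct o N' := by
    intro Q
    rw [hu, Set.Finite.mem_toFinset]
    rfl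
  have hsu : ∀ {Q}, Q ∈ s → Q ∈ u := fun {Q} hQ => (hu' Q).2 (Or.inl hQ)
  have htu : ∀ {Q}, Q ∈ t → Q ∈ u := fun {Q} hQ => (hu' Q).2 (Or.inr (Or.inl hQ))
  have hnew : ∀ {Q}, Q ∈ u → Q ∈ s ∨ Q ∈ t ∨ ∃ N₁ γ, Nw Sm Tr s t N Q N₁ γ := fun {Q} hQ =>
    new_or h hs ht hN hSm htN hst ((hu' Q).1 hQ)
  refine ⟨u, ⟨⟨hfin.toFinset, hu⟩, ?_, ?_, ?_, ?_⟩, hu'⟩
  · intro Q hQ
    rcases (hu' Q).1 hQ with h1 | h1 | ⟨N', h1, h2, o, h3, h4, h5, h6⟩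
    · exact hs.node Q h1
    · exact ht.node Q h1
    · left
      rw [h6]
      exact h.cut N' o h2 h3 h5
  · intro Q hQ Q' hQ' hr
    rcases hnew hQ with h1 | h1 | ⟨N₁, γ, h1⟩ <;> rcases hnew hQ' with h2 | h2 | ⟨N₂, γ', h2⟩
    · exact hs.c1 Q h1 Q' h2 hr
    · exact c1_st h hs ht hN hSm htN hst h1 h2 hr
    · exact (c1_new h hs ht hN hSm htN hst h2 (Or.inl h1) hr.symm).elim
    · exact (c1_st h hs ht hN hSm htN hst h2 h1 hr.symm).symm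
    · exact ht.c1 Q h1 Q' h2 hr
    · exact (c1_new h hs ht hN hSm htN hst h2 (Or.inr h1) hr.symm).elim
    · exact (c1_new h hs ht hN hSm htN hst h1 (Or.inl h2) hr).elim
    · exact (c1_new h hs ht hN hSm htN hst h1 (Or.inr h2) hr).elim
    · exact c1_new_new h hs htN h1 h2 hr
  · intro N' hN' hSm' Q hQ hr
    rcases hnew hN' with h1 | h1 | ⟨N₁, γ, h1⟩ <;> rcases hnew hQ with h2 | h2 | ⟨N₂, γ', h2⟩
    · rcases hs.c2 N' h1 hSm' Q h2 hr with h3 | ⟨o, h3, h4, h5⟩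
      · exact Or.inl h3
      · exact Or.inr ⟨o, h3, hsu h4, h5⟩
    · rcases claim_E h hs ht hN hSm htN hst h1 hSm' h2 hr with h3 | ⟨o, h3, h4 | h4, h5⟩
      · exact Or.inl h3
      · exact Or.inr ⟨o, h3, hsu h4, h5⟩
      · exact Or.inr ⟨o, h3, htu h4, h5⟩
    · rcases c2_s_new h hs ht hN hSm htN hst h1 hSm' h2 hr with h3 | ⟨o, h3, h4 | h4, h5⟩
      · exact Or.inl h3
      · exact Or.inr ⟨o, h3, hsu h4, h5⟩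
      · exact Or.inr ⟨o, h3, htu h4, h5⟩
    · by_cases hQt : Q ∈ t
      · rcases ht.c2 N' h1 hSm' Q hQt hr with h3 | ⟨o, h3, h4, h5⟩
        · exact Or.inl h3
        · exact Or.inr ⟨o, h3, htu h4, h5⟩
      · obtain ⟨o, h3, h4, h5⟩ := claim_F h hs ht hN hSm htN hst h1 hSm' h2 hQt hr
        exact Or.inr ⟨o, h3, htu h4, h5⟩
    · rcases ht.c2 N' h1 hSm' Q h2 hr with h3 | ⟨o, h3, h4, h5⟩
      · exact Or.inl h3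
      · exact Or.inr ⟨o, h3, htu h4, h5⟩
    · obtain ⟨o, h3, h4, h5⟩ := c2_t_new h hs ht hN hSm htN hst h1 hSm' h2 hr
      exact Or.inr ⟨o, h3, htu h4, h5⟩
    · rcases c2_new_s h hs h1 h2 hr with h3 | ⟨o, h3, h4, h5⟩
      · exact Or.inl h3
      · exact Or.inr ⟨o, h3, hsu h4, h5⟩
    · refine Or.inl ?_
      have h3 : Q ∈ ct γ N := mem_ct.2 ⟨htN h2, hr.trans h1.hi⟩
      rw [h1.eq]
      exact mem_ct.2 ⟨h1.sub h3, hr.trans h1.hi⟩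
    · rcases c2_new_new h hs htN h1 h2 hr with h3 | ⟨o, h3, h4, h5⟩
      · exact Or.inl h3
      · exact Or.inr ⟨o, h3, htu h4, h5⟩
  · intro N' hN' hSm' o ho hou hoN'
    have host : o.toZFSet ∈ s ∨ o.toZFSet ∈ t := by
      rcases hnew hou with h1 | h1 | ⟨N₁, γ, h1⟩
      · exact Or.inl h1
      · exact Or.inr h1
      · have h2 := h.rk _ h1.smQ
        rw [Ordinal.rank_toZFSet] at h2
        exact absurd ho h2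
    rcases hnew hN' with h1 | h1 | ⟨N₁, γ, h1⟩
    · rcases host with h2 | h2
      · exact hsu (hs.c3 N' h1 hSm' o ho h2 hoN')
      · exact (hu' _).2 (Or.inr (Or.inr ⟨N', h1, hSm', o, ho, h2, hoN', rfl⟩))
    · have h2 : o.toZFSet ∈ N := h.sub N' N hSm' hSm (htN h1) hoN'
      have h3 : o.toZFSet ∈ t := by
        rcases host with h3 | h3
        · exact hst _ h3 h2
        · exact h3
      exact htu (ht.c3 N' h1 hSm' o ho h3 hoN')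
    · rw [h1.eq, mem_ct, Ordinal.rank_toZFSet] at hoN'
      rw [h1.eq, ct_ct hoN'.2.le]
      rcases host with h2 | h2
      · exact hsu (hs.c3 N₁ h1.h1 h1.sm o ho h2 hoN'.1)
      · exact (hu' _).2 (Or.inr (Or.inr ⟨N₁, h1.h1, h1.sm, o, ho, h2, hoN'.1, rfl⟩))

end Pool.Agent.H7.IG
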