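import Pool.Agent.H7.IG.Cond

/-!
# IG: side conditions, claims for Lemma B

`N ∈ s` small, `s`, `t` conditions, `t ⊆ N`, `s ∩ N ⊆ t` (`N_o = ct o N = N ∩ V_o`).
`(o.toZFSet).rank = o`, so `o` can be read off from the node `o.toZFSet`.

Claim D (`claim_D`). `N' ∈ s` small, `γ ∈ N' ∩ N`, `γ ∈ t` transitive node `⇒ N'_γ ∈ t ∨ N_γ ⊆ N'`.
Proof by induction on `rk N'`.
 1. `rk N' < rk N`. (C2) of `s` for `(N, N')`. (i) `N' ∈ N`: `N' ∈ t`, `γ ∈ t ∩ N'`, so `N'_γ ∈ t` by (C3).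
  (ii) `δ ∈ s ∩ N`, `rk N_δ ≤ rk N' < δ`: `γ < rk N' < δ`, so `γ ∈ N_δ`, `N_δ ∈ s` (C3). If `rk N_δ = rk N'` then
  `N_δ = N'` (C1) and `N_γ = (N_δ)_γ ⊆ N'`. Otherwise (C2) for `(N', N_δ)`: `N_δ ∈ N'`, then `N_γ ⊆ N_δ ⊆ N'`
  (`NS.sub`); or `δ' ∈ s ∩ N'`, `rk N'_{δ'} ≤ rk N_δ < δ'`: `N'' := N'_{δ'} ∈ s`, `rk N'' ≤ rk N_δ < rk N'`,
  `γ < rk N_δ < δ'` so `γ ∈ N''`; induction for `N''`: `N''_γ = N'_γ` (`ct_ct`) and `N'' ⊆ N'`.
 2. `rk N' = rk N`: `N' = N`.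
 3. `rk N' > rk N`: (C2) for `(N', N)`: `N ∈ N'`, then `N_γ ⊆ N ⊆ N'`; or `δ ∈ s ∩ N'`, `rk N'_δ ≤ rk N < δ`:
  `N'' := N'_δ ∈ s`, `γ < rk N < δ`, so `γ ∈ N''`; induction.

-/

set_option autoImplicit false
set_option linter.unusedVariables false

namespace Pool.Agent.H7.IG

open Pool.Agent.H52.GC

variable {Sm : ZFSet.{0} → Prop} {Tr : Ordinal.{0} → Prop}

theorem cD_rank_lt {x y : ZFSet.{0}} (h : x ∈ y) : x.rank < y.rank := ZFSet.rank_lt_of_mem h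

theorem cD_ct_mono {o o' : Ordinal.{0}} (h : o ≤ o') (x : ZFSet.{0}) : ct o x ⊆ ct o' x :=
  fun _ hy => mem_ct.2 ⟨(mem_ct.1 hy).1, (mem_ct.1 hy).2.trans_le h⟩

theorem claim_D_aux (h : NS Sm Tr) {s t N : ZFSet.{0}} (hs : Cd Sm Tr s) (ht : Cd Sm Tr t)
    (hN : N ∈ s) (hSm : Sm N) (htN : t ⊆ N) (hst : ∀ Q ∈ s, Q ∈ N → Q ∈ t)
    {γ : Ordinal.{0}} (hγ : Tr γ) (hγt : γ.toZFSet ∈ t) (r : Ordinal.{0}) :
    ∀ N' : ZFSet.{0}, N'.rank = r → N' ∈ s → Sm N' → γ.toZFSet ∈ N' →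
      ct γ N' ∈ t ∨ ct γ N ⊆ N' := by
  induction r using WellFoundedLT.induction with
  | ind r ih =>
    intro N' hr hN' hSm' hγN'
    have hγN : γ.toZFSet ∈ N := htN hγt
    have rγ : γ.toZFSet.rank = γ := Ordinal.rank_toZFSet γ
    -- the step to `N'' = ct δ N'`
    have key : ∀ δ : Ordinal.{0}, Tr δ → δ.toZFSet ∈ s → δ.toZFSet ∈ N' → γ < δ →
        (ct δ N').rank < N'.rank → ct γ N' ∈ t ∨ ct γ N ⊆ N' := by
      intro δ hδ hδs hδN' hγδ hrk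
      have h1 : ct δ N' ∈ s := hs.c3 N' hN' hSm' δ hδ hδs hδN'
      have h2 : Sm (ct δ N') := h.cut N' δ hSm' hδ hδN'
      have h3 : γ.toZFSet ∈ ct δ N' := mem_ct.2 ⟨hγN', by rw [rγ]; exact hγδ⟩
      rcases ih _ (hr ▸ hrk) (ct δ N') rfl h1 h2 h3 with h4 | h4
      · left
        rwa [ct_ct hγδ.le] at h4
      · right
        exact fun y hy => ct_sub (h4 hy)
    rcases lt_trichotomy N'.rank N.rank with hlt | heq | hgt
    · rcases hs.c2 N hN hSm N' hN' hlt with h1 | ⟨δ, hδ, hδs, hδN, h2, h3⟩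
      · left
        exact ht.c3 N' (hst N' hN' h1) hSm' γ hγ hγt hγN'
      · have hγN'r : γ < N'.rank := by
          have := cD_rank_lt hγN'
          rwa [rγ] at this
        have hγδ : γ < δ := hγN'r.trans h3
        have h4 : γ.toZFSet ∈ ct δ N := mem_ct.2 ⟨hγN, by rw [rγ]; exact hγδ⟩
        have h5 : ct δ N ∈ s := hs.c3 N hN hSm δ hδ hδs hδN
        have h6 : Sm (ct δ N) := h.cut N δ hSm hδ hδN
        have h7 : γ < (ct δ N).rank := by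
          have := cD_rank_lt h4
          rwa [rγ] at this
        rcases eq_or_lt_of_le h2 with h8 | h8
        · have h9 : ct δ N = N' := hs.c1 _ h5 _ hN' h8
          right
          rw [← h9]
          exact cD_ct_mono hγδ.le N
        · rcases hs.c2 N' hN' hSm' (ct δ N) h5 h8 with h9 | ⟨δ', hδ', hδs', hδN', h10, h11⟩
          · right
            exact fun y hy => h.sub _ _ h6 hSm' h9 (cD_ct_mono hγδ.le N hy)
          · exact key δ' hδ' hδs' hδN' (h7.trans h11) (h10.trans_lt h8)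
    · right
      rw [hs.c1 N' hN' N hN heq]
      exact ct_sub
    · rcases hs.c2 N' hN' hSm' N hN hgt with h1 | ⟨δ, hδ, hδs, hδN', h2, h3⟩
      · right
        exact fun y hy => h.sub _ _ hSm hSm' h1 (ct_sub hy)
      · have h7 : γ < N.rank := by
          have := cD_rank_lt hγN
          rwa [rγ] at this
        exact key δ hδ hδs hδN' (h7.trans h3) (h2.trans_lt hgt)

theorem claim_D (h : NS Sm Tr) {s t N : ZFSet.{0}} (hs : Cd Sm Tr s) (ht : Cd Sm Tr t) (hN : N ∈ s)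
    (hSm : Sm N) (htN : t ⊆ N) (hst : ∀ Q ∈ s, Q ∈ N → Q ∈ t) {N' : ZFSet.{0}} (hN' : N' ∈ s)
    (hSm' : Sm N') {γ : Ordinal.{0}} (hγ : Tr γ) (hγN' : γ.toZFSet ∈ N') (hγt : γ.toZFSet ∈ t) :
    ct γ N' ∈ t ∨ ct γ N ⊆ N' :=
  claim_D_aux h hs ht hN hSm htN hst hγ hγt _ N' rfl hN' hSm' hγN'

end Pool.Agent.H7.IG
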