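import Pool.Agent.H7.IG.Cond

/-!
# IG: side conditions, Lemma M

`p` a condition, `p ⊆ N`, `N` small. Then `p ∪ {N} ∪ {N_o : o ∈ p transitive}` is a condition
(`N_o = ct o N = N ∩ V_o`).

Proof. Facts: (F1) for `Q ∈ p`: `rk Q < rk N`; if `rk Q < o` then `Q ∈ N_o`, so `rk Q < rk N_o`; and
`rk N_o < o` (`NS.rkcut`). (F2) if `o < o'` are in `p` then `o ∈ N_{o'}`, so `rk N_o < o < rk N_{o'}`.
(C1) follows from (F1), (F2). 
(C2), pairs `(N', Q)` with `rk Q < rk N'`:
* `N' ∈ p`, `Q ∈ p`: (C2) of `p`.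
* `N' ∈ p`, `Q = N_o`: `rk N' > o` (otherwise `rk N' < o` (not equal by `NS.rk`), so `N' ∈ N_o = Q`, `rk N' < rk Q`).
  (C2) of `p` for `N'` and the node `o`: (a) `o ∈ N'`: `N'_o ∈ N` by `NS.cutmem` (`N' ∈ N`, `o ∈ N`), so
  `N'_o ∈ N_o = Q` (rank `< o`), hence `rk N'_o < rk Q < o`: witness `o`. (b) `δ ∈ p ∩ N'`, `rk N'_δ ≤ o < δ`:
  `N'_δ ∈ p` (C3), its rank is `≠ o`, so `< o`; `N'_δ ∈ p ⊆ N`, so `N'_δ ∈ N_o = Q` and `rk N'_δ < rk Q < δ`:
  witness `δ`.
* `N' = N`: `Q ∈ p ⊆ N`, or `Q = N_o`: witness `o`.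
* `N' = N_δ`: `Q ∈ p`: `Q ∈ N_δ`. `Q = N_o`: then `o < δ` by (F1), (F2), `o ∈ N_δ`, `(N_δ)_o = N_o = Q`:
  witness `o`. `Q = N` is impossible.
(C3) `N' ∈ p`: (C3) of `p`. `N' = N`: by construction. `N' = N_δ`, `o ∈ N_δ`: `(N_δ)_o = N_o`.
-/

set_option autoImplicit false
set_option linter.unusedVariables false

namespace Pool.Agent.H7.IG

open Pool.Agent.H52.GC

variable {Sm : ZFSet.{0} → Prop} {Tr : Ordinal.{0} → Prop}

theorem cM_ofFinset (t : Finset ZFSet.{0}) : ∃ u : ZFSet.{0}, ∀ z, z ∈ u ↔ z ∈ t := by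
  classical
  induction t using Finset.induction_on with
  | empty => exact ⟨∅, fun z => by simp⟩
  | insert a t _ ih =>
    obtain ⟨u, hu⟩ := ih
    exact ⟨insert a u, fun z => by rw [ZFSet.mem_insert_iff, Finset.mem_insert, hu]⟩

theorem cM_rank {o o' : Ordinal.{0}} {N : ZFSet.{0}} (h : o < o') (hN : o.toZFSet ∈ N) :
    o.toZFSet ∈ ct o' N := by
  rw [mem_ct, Ordinal.rank_toZFSet]
  exact ⟨hN, h⟩

/-- Lemma M. -/
theorem cond_M (h : NS Sm Tr) {p N : ZFSet.{0}} (hp : Cd Sm Tr p) (hN : Sm N) (hpN : p ⊆ N) :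
    ∃ u, Cd Sm Tr u ∧ ∀ Q, Q ∈ u ↔ Q ∈ p ∨ Q = N ∨ ∃ o, Tr o ∧ o.toZFSet ∈ p ∧ Q = ct o N := by
  classical
  -- the set
  obtain ⟨s, hs⟩ := hp.fin
  obtain ⟨u, hu⟩ := cM_ofFinset (insert N s ∪
    (s.filter (fun Q => ∃ o, Tr o ∧ Q = o.toZFSet)).image (fun Q => ct Q.rank N))
  have mu : ∀ Q, Q ∈ u ↔ Q ∈ p ∨ Q = N ∨ ∃ o, Tr o ∧ o.toZFSet ∈ p ∧ Q = ct o N := by
    intro Q
    rw [hu, Finset.mem_union, Finset.mem_insert, Finset.mem_image]
    constructor
    · rintro ((h1 | h1) | ⟨R, hR, h1⟩)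
      · exact Or.inr (Or.inl h1)
      · exact Or.inl ((hs Q).2 h1)
      · rw [Finset.mem_filter] at hR
        obtain ⟨hR1, o, ho, hRo⟩ := hR
        refine Or.inr (Or.inr ⟨o, ho, ?_, ?_⟩)
        · rw [← hRo]
          exact (hs R).2 hR1
        · rw [← h1, hRo, Ordinal.rank_toZFSet]
    · rintro (h1 | h1 | ⟨o, ho, h1, h2⟩)
      · exact Or.inl (Or.inr ((hs Q).1 h1))
      · exact Or.inl (Or.inl h1)
      · refine Or.inr ⟨o.toZFSet, ?_, ?_⟩
        · rw [Finset.mem_filter]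
          exact ⟨(hs _).1 h1, o, ho, rfl⟩
        · rw [Ordinal.rank_toZFSet, h2]
  refine ⟨u, ?_, mu⟩
  -- facts
  have rN : ∀ Q ∈ p, Q.rank < N.rank := fun Q hQ => ZFSet.rank_lt_of_mem (hpN hQ)
  have rc : ∀ o, Tr o → (ct o N).rank < o := fun o ho => h.rkcut N o hN ho
  have sc : ∀ o, Tr o → o.toZFSet ∈ p → Sm (ct o N) := fun o ho h1 => h.cut N o hN ho (hpN h1)
  have oN : ∀ o : Ordinal.{0}, o.toZFSet ∈ p → o < N.rank := by
    intro o h1
    have h2 := rN _ h1
    rwa [Ordinal.rank_toZFSet] at h2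
  have mc : ∀ Q ∈ p, ∀ o, Q.rank < o → Q ∈ ct o N := fun Q hQ o h1 => mem_ct.2 ⟨hpN hQ, h1⟩
  have rmc : ∀ Q ∈ p, ∀ o, Q.rank < o → Q.rank < (ct o N).rank :=
    fun Q hQ o h1 => ZFSet.rank_lt_of_mem (mc Q hQ o h1)
  have F2 : ∀ o o' : Ordinal.{0}, Tr o → o.toZFSet ∈ p → o < o' → (ct o N).rank < (ct o' N).rank := by
    intro o o' ho h1 h2
    have h3 := rmc _ h1 o' (by rwa [Ordinal.rank_toZFSet])
    rw [Ordinal.rank_toZFSet] at h3
    exact (rc o ho).trans h3
  have smu : ∀ o : Ordinal.{0}, Tr o → o.toZFSet ∈ u → o.toZFSet ∈ p := by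
    intro o ho h1
    rcases (mu _).1 h1 with h2 | h2 | ⟨o', ho', h2, h3⟩
    · exact h2
    · exfalso
      apply h.rk N hN
      rw [← h2, Ordinal.rank_toZFSet]
      exact ho
    · exfalso
      apply h.rk _ (sc o' ho' h2)
      rw [← h3, Ordinal.rank_toZFSet]
      exact ho
  constructor
  · exact ⟨_, hu⟩
  · intro Q hQ
    rcases (mu _).1 hQ with h1 | h1 | ⟨o, ho, h1, h2⟩
    · exact hp.node Q h1
    · rw [h1]
      exact Or.inl hN
    · rw [h2]
      exact Or.inl (sc o ho h1)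
  · -- c1
    have key : ∀ Q ∈ p, ∀ o, Tr o → o.toZFSet ∈ p → Q.rank ≠ (ct o N).rank := by
      intro Q hQ o ho h1 h2
      have h3 := rmc Q hQ o (by rw [h2]; exact rc o ho)
      exact h3.ne h2
    intro Q hQ Q' hQ' hr
    rcases (mu _).1 hQ with h1 | h1 | ⟨o, ho, h1, h2⟩
    · rcases (mu _).1 hQ' with h1' | h1' | ⟨o', ho', h1', h2'⟩
      · exact hp.c1 Q h1 Q' h1' hr
      · exfalso
        rw [h1'] at hr
        exact (rN Q h1).ne hr
      · exfalso
        rw [h2'] at hr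
        exact key Q h1 o' ho' h1' hr
    · rcases (mu _).1 hQ' with h1' | h1' | ⟨o', ho', h1', h2'⟩
      · exfalso
        rw [h1] at hr
        exact (rN Q' h1').ne hr.symm
      · rw [h1, h1']
      · exfalso
        rw [h1, h2'] at hr
        exact ((rc o' ho').trans (oN o' h1')).ne hr.symm
    · rcases (mu _).1 hQ' with h1' | h1' | ⟨o', ho', h1', h2'⟩
      · exfalso
        rw [h2] at hr
        exact key Q' h1' o ho h1 hr.symm
      · exfalso
        rw [h1', h2] at hr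
        exact ((rc o ho).trans (oN o h1)).ne hr
      · rcases lt_trichotomy o o' with h3 | h3 | h3
        · exfalso
          rw [h2, h2'] at hr
          exact (F2 o o' ho h1 h3).ne hr
        · rw [h2, h2', h3]
        · exfalso
          rw [h2, h2'] at hr
          exact (F2 o' o ho' h1' h3).ne hr.symm
  · -- c2
    intro N' hN' sN' Q hQ hr
    rcases (mu _).1 hN' with h1 | h1 | ⟨δ, hδ, h1, h2⟩
    · rcases (mu _).1 hQ with h1' | h1' | ⟨o, ho, h1', h2'⟩
      · rcases hp.c2 N' h1 sN' Q h1' hr with h3 | ⟨o, ho, h4, h5⟩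
        · exact Or.inl h3
        · exact Or.inr ⟨o, ho, (mu _).2 (Or.inl h4), h5⟩
      · exfalso
        rw [h1'] at hr
        exact absurd (rN N' h1) (not_lt.2 hr.le)
      · have ho' : o < N'.rank := by
          rcases lt_trichotomy N'.rank o with h3 | h3 | h3
          · exfalso
            have h4 := rmc N' h1 o h3
            rw [h2'] at hr
            exact absurd h4 (not_lt.2 hr.le)
          · exfalso
            apply h.rk N' sN'
            rw [h3]
            exact ho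
          · exact h3
        rcases hp.c2 N' h1 sN' _ h1' (by rwa [Ordinal.rank_toZFSet]) with h3 | ⟨ε, hε, h4, h5, h6, h7⟩
        · right
          have h4 : ct o N' ∈ ct o N :=
            mem_ct.2 ⟨h.cutmem N' N o sN' hN ho (hpN h1) (hpN h1'), h.rkcut N' o sN' ho⟩
          refine ⟨o, ho, (mu _).2 (Or.inl h1'), h3, ?_, ?_⟩
          · rw [h2']
            exact (ZFSet.rank_lt_of_mem h4).le
          · rw [h2']
            exact rc o ho
        · right
          rw [Ordinal.rank_toZFSet] at h6 h7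
          have h8 : ct ε N' ∈ p := hp.c3 N' h1 sN' ε hε h4 h5
          have h9 : (ct ε N').rank < o := by
            rcases h6.lt_or_eq with h9 | h9
            · exact h9
            · exfalso
              apply h.rk _ (h.cut N' ε sN' hε h5)
              rw [h9]
              exact ho
          refine ⟨ε, hε, (mu _).2 (Or.inl h4), h5, ?_, ?_⟩
          · rw [h2']
            exact (rmc _ h8 o h9).le
          · rw [h2']
            exact (rc o ho).trans h7
    · subst h1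
      rcases (mu _).1 hQ with h1' | h1' | ⟨o, ho, h1', h2'⟩
      · exact Or.inl (hpN h1')
      · exfalso
        rw [h1'] at hr
        exact lt_irrefl _ hr
      · right
        refine ⟨o, ho, (mu _).2 (Or.inl h1'), hpN h1', ?_, ?_⟩
        · rw [h2']
        · rw [h2']
          exact rc o ho
    · rcases (mu _).1 hQ with h1' | h1' | ⟨o, ho, h1', h2'⟩
      · left
        rw [h2] at hr ⊢
        exact mc Q h1' δ (hr.trans (rc δ hδ))
      · exfalso
        rw [h1', h2] at hr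
        exact absurd ((rc δ hδ).trans (oN δ h1)) (not_lt.2 hr.le)
      · have h3 : o < δ := by
          rcases lt_trichotomy o δ with h4 | h4 | h4
          · exact h4
          · exfalso
            rw [h2', h2, h4] at hr
            exact lt_irrefl _ hr
          · exfalso
            rw [h2', h2] at hr
            exact absurd (F2 δ o hδ h1 h4) (not_lt.2 hr.le)
        right
        refine ⟨o, ho, (mu _).2 (Or.inl h1'), ?_, ?_, ?_⟩
        · rw [h2]
          exact cM_rank h3 (hpN h1')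
        · rw [h2, h2', ct_ct h3.le]
        · rw [h2']
          exact rc o ho
  · -- c3
    intro N' hN' sN' o ho hou hoN'
    have hop := smu o ho hou
    rcases (mu _).1 hN' with h1 | h1 | ⟨δ, hδ, h1, h2⟩
    · exact (mu _).2 (Or.inl (hp.c3 N' h1 sN' o ho hop hoN'))
    · rw [h1]
      exact (mu _).2 (Or.inr (Or.inr ⟨o, ho, hop, rfl⟩))
    · rw [h2] at hoN' ⊢
      have h3 : o < δ := by
        have h4 := (mem_ct.1 hoN').2
        rwa [Ordinal.rank_toZFSet] at h4
      rw [ct_ct h3.le]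
      exact (mu _).2 (Or.inr (Or.inr ⟨o, ho, hop, rfl⟩))

end Pool.Agent.H7.IG
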