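import Pool.Agent.H7.IG.Cond

/-!
# IG: side conditions, the part of the amalgam below a transitive node
-/

set_option autoImplicit false
set_option linter.unusedVariables false

namespace Pool.Agent.H7.IG

open Pool.Agent.H52.GC

variable {Sm : ZFSet.{0} → Prop} {Tr : Ordinal.{0} → Prop}

/-- The part of `u` below a transitive node `o ∈ s ∩ N` is contained in every condition that contains
`s ∩ V_o` and `t ∩ V_o`. Proof: let `N'_δ ∈ V_o` with `N' ∈ s` small, `δ ∈ t ∩ N'`. If `N' ∈ V_o` then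
`δ < rk N' < o` and (C3) of `q` applies. Otherwise `rk N' > o`; (C2) of `s` for `(N', o)`: (a) `o ∈ N'`:
`N'_o ∈ s ∩ V_o ⊆ q`; if `δ < o`: `δ ∈ N'_o`, so `N'_δ = (N'_o)_δ ∈ q` (`δ ∈ t ∩ V_o ⊆ q`). `δ = o`: `N'_o ∈ q`. `δ > o`:
`o ∈ N'_δ`, so the rank of `N'_δ` is `> o`, contradiction. (b) `o' ∈ s ∩ N'`, `rk N'_{o'} ≤ o < o'`: `N'_{o'} ∈ s` of
rank `< o`, so in `q`. If `δ < o'`: `δ ∈ N'_{o'}`, so `δ < o`, `δ ∈ q` and `N'_δ = (N'_{o'})_δ ∈ q`. `δ = o'`: in `q`. `δ > o'`: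
`o' ∈ N'_δ`, rank `> o' > o`, contradiction. -/
theorem cond_B_below (h : NS Sm Tr) {s t N : ZFSet.{0}} (hs : Cd Sm Tr s) (ht : Cd Sm Tr t) (hN : N ∈ s)
    (hSm : Sm N) (htN : t ⊆ N) (hst : ∀ Q ∈ s, Q ∈ N → Q ∈ t) {o : Ordinal.{0}} (ho : Tr o)
    (hos : o.toZFSet ∈ s) {q : ZFSet.{0}} (hq : Cd Sm Tr q) (hsq : ct o s ⊆ q) (htq : ct o t ⊆ q)
    {N' : ZFSet.{0}} (hN' : N' ∈ s) (hSm' : Sm N') {δ : Ordinal.{0}} (hδ : Tr δ) (hδt : δ.toZFSet ∈ t)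
    (hδN' : δ.toZFSet ∈ N') (hr : (ct δ N').rank < o) : ct δ N' ∈ q := by
  have rk : ∀ a : Ordinal.{0}, a.toZFSet.rank = a := Ordinal.rank_toZFSet
  have lt_of : ∀ {a : Ordinal.{0}} {X : ZFSet.{0}}, a.toZFSet ∈ X → a < X.rank := by
    intro a X ha
    have := ZFSet.rank_lt_of_mem ha
    rwa [rk] at this
  rcases lt_or_ge N'.rank o with hlt | hge
  · -- `N'` is below `o`
    have hδo : δ < o := (lt_of hδN').trans hlt
    exact hq.c3 N' (hsq (mem_ct.2 ⟨hN', hlt⟩)) hSm' δ hδ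
      (htq (mem_ct.2 ⟨hδt, by rwa [rk]⟩)) hδN'
  · have hne : o ≠ N'.rank := fun he => h.rk N' hSm' (he ▸ ho)
    have hgt : o.toZFSet.rank < N'.rank := by
      rw [rk]; exact lt_of_le_of_ne hge hne
    rcases hs.c2 N' hN' hSm' _ hos hgt with ha | ⟨o', ho', hos', hoN', h1, h2⟩
    · -- (a)
      have hin : ct o N' ∈ q :=
        hsq (mem_ct.2 ⟨hs.c3 N' hN' hSm' o ho hos ha, h.rkcut N' o hSm' ho⟩)
      rcases lt_trichotomy δ o with hlt | heq | hgt'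
      · have h3 := hq.c3 (ct o N') hin (h.cut N' o hSm' ho ha) δ hδ
          (htq (mem_ct.2 ⟨hδt, by rwa [rk]⟩)) (mem_ct.2 ⟨hδN', by rwa [rk]⟩)
        rwa [ct_ct hlt.le] at h3
      · rw [heq]; exact hin
      · exact absurd (lt_of (mem_ct.2 ⟨ha, by rwa [rk]⟩ : o.toZFSet ∈ ct δ N')) (not_lt.2 hr.le)
    · -- (b)
      rw [rk] at h1 h2
      have hin0 : ct o' N' ∈ s := hs.c3 N' hN' hSm' o' ho' hos' hoN'
      have hsm0 : Sm (ct o' N') := h.cut N' o' hSm' ho' hoN'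
      have hlt0 : (ct o' N').rank < o :=
        lt_of_le_of_ne h1 fun he => h.rk _ hsm0 (he ▸ ho)
      have hin : ct o' N' ∈ q := hsq (mem_ct.2 ⟨hin0, hlt0⟩)
      rcases lt_trichotomy δ o' with hlt | heq | hgt'
      · have hmem : δ.toZFSet ∈ ct o' N' := mem_ct.2 ⟨hδN', by rwa [rk]⟩
        have h3 := hq.c3 (ct o' N') hin hsm0 δ hδ
          (htq (mem_ct.2 ⟨hδt, by rw [rk]; exact (lt_of hmem).trans hlt0⟩)) hmem
        rwa [ct_ct hlt.le] at h3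
      · rw [heq]; exact hin
      · exact absurd (lt_of (mem_ct.2 ⟨hoN', by rwa [rk]⟩ : o'.toZFSet ∈ ct δ N'))
          (not_lt.2 (hr.le.trans h2.le))

end Pool.Agent.H7.IG
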