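import Pool.Agent.H7.IG.Gx4
import Pool.Agent.H7.IG.Tk1
import Pool.Agent.H7.IG.Tk4
import Pool.Agent.H7.IG.Tk5
import Pool.Agent.H7.IG.Tk8

/-!
# IG, Part 4: the covering property for intermediate models

`Cov.low`: `x ∈ W` countable in `W` is countable in `N` (`ctb_up`).
`Cov.mid`: let `Y ∈ W`, `x ∈ N` countable in `N`, `x ⊆ Y`. Enumerate `Y` in `W` by an ordinal `μ` (`exists_enum`): injective `f ∈ W` of `μ` onto `Y`; `μ ∈ M` by `hord`. `x' := {ξ < μ : f ξ ∈ x} ∈ N` is countable in `N`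
(image of `x` under the inverse of `f`); `Cov M N`: `x' ⊆ y' ∈ M`, `y' ⊆ μ`, countable in `M`, so in `W`; `y := {f ξ : ξ ∈ y'} ∈ W` is countable in `W`, contained in `Y`, and contains `x`.
-/

set_option autoImplicit false
set_option linter.unusedVariables false
set_option linter.unusedSectionVars false
set_option linter.unusedSimpArgs false
set_option linter.unusedTactic false
set_option linter.unreachableTactic false

namespace Pool.Agent.H7.IG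

open Pool.Agent.H17.Omega Pool.Agent.H17.Omega.CTM Pool.Agent.H52.GX Pool.Agent.H52.GC

variable {M W N : Set ZFSet.{0}}

theorem Cov.low (hMW : M ⊆ W) (hWN : W ⊆ N) (h : Cov M N) : Cov M W :=
  fun Y hY x hx hxY hc => h Y hY x (hWN hx) hxY (ctb_up hWN hc)

theorem Cov.mid (hM : CTM M) (hW : CTM W) (hN : CTM N) (hMW : M ⊆ W) (hWN : W ⊆ N)
    (hord : ∀ o : Ordinal.{0}, o.toZFSet ∈ W → o.toZFSet ∈ M) (h : Cov M N) : Cov W N := by
  classical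
  intro Y hY x hx hxY hxc
  obtain ⟨μ, hμ, f, hf, ⟨hff, hfo⟩, hfi⟩ := exists_enum hW hY
  have hμM : μ.toZFSet ∈ M := hord _ hμ
  obtain ⟨x', hx', hx'm⟩ := hN.exists_sep (P := fun ξ => ∃ z : N, z.1 ∈ (⟨x, hx⟩ : N).1 ∧
    ZFSet.pair ξ.1 z.1 ∈ (⟨f, hWN hf⟩ : N).1) (by
    (repeat' first
      | exact DT.var _ | exact DT.last | exact DT.const _ | assumption
      | refine Dfn.pairMem ?_ ?_ ?_ | refine Dfn.isPair ?_ ?_ ?_ | refine Dfn.mem ?_ ?_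
      | refine Dfn.eqv ?_ ?_ | refine Dfn.eq ?_ ?_ | refine Dfn.subset ?_ ?_
      | refine Dfn.isEmpty ?_ | refine Dfn.isTrans ?_ | refine Dfn.isOrd ?_ | refine Dfn.isNat ?_
      | refine Dfn.isUpair ?_ ?_ ?_ | refine Dfn.isInsert ?_ ?_ ?_
      | refine Dfn.and ?_ ?_ | refine Dfn.or ?_ ?_ | refine Dfn.iff ?_ ?_ | refine Dfn.not ?_
      | refine Dfn.imp ?_ ?_ | refine Dfn.all ?_ | refine Dfn.ex ?_ | exact Dfn.false'
      | refine Dfn.ballZ ?_ ?_ | refine Dfn.bexZ ?_ ?_ | exact Dfn.const _)) (hWN hμ)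
  have hx'c : Ctb N x' := by
    refine Ctb.image hN hxc hx (F := fun z ξ => ZFSet.pair ξ.1 z.1 ∈ (⟨f, hWN hf⟩ : N).1) (by
      (repeat' first
      | exact DT.var _ | exact DT.last | exact DT.const _ | assumption
      | refine Dfn.pairMem ?_ ?_ ?_ | refine Dfn.isPair ?_ ?_ ?_ | refine Dfn.mem ?_ ?_
      | refine Dfn.eqv ?_ ?_ | refine Dfn.eq ?_ ?_ | refine Dfn.subset ?_ ?_
      | refine Dfn.isEmpty ?_ | refine Dfn.isTrans ?_ | refine Dfn.isOrd ?_ | refine Dfn.isNat ?_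
      | refine Dfn.isUpair ?_ ?_ ?_ | refine Dfn.isInsert ?_ ?_ ?_
      | refine Dfn.and ?_ ?_ | refine Dfn.or ?_ ?_ | refine Dfn.iff ?_ ?_ | refine Dfn.not ?_
      | refine Dfn.imp ?_ ?_ | refine Dfn.all ?_ | refine Dfn.ex ?_ | exact Dfn.false'
      | refine Dfn.ballZ ?_ ?_ | refine Dfn.bexZ ?_ ?_ | exact Dfn.const _)) ?_ ?_
    · intro z _ ξ ξ' h1 h2
      exact Subtype.ext (hfi _ _ _ h1 h2)
    · intro ξ hξ
      obtain ⟨_, hξN, z, h1, h2⟩ := (hx'm ξ).1 hξ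
      exact ⟨z, ⟨ξ, hξN⟩, h1, rfl, h2⟩
  obtain ⟨y', hy', hy'μ, hxy', hy'c⟩ := h _ hμM x' hx' (fun z hz => ((hx'm z).1 hz).1) hx'c
  obtain ⟨y, hy, hym⟩ := hW.exists_sep (P := fun w => ∃ ξ : W, ξ.1 ∈ (⟨y', hMW hy'⟩ : W).1 ∧
    ZFSet.pair ξ.1 w.1 ∈ (⟨f, hf⟩ : W).1) (by
    (repeat' first
      | exact DT.var _ | exact DT.last | exact DT.const _ | assumption
      | refine Dfn.pairMem ?_ ?_ ?_ | refine Dfn.isPair ?_ ?_ ?_ | refine Dfn.mem ?_ ?_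
      | refine Dfn.eqv ?_ ?_ | refine Dfn.eq ?_ ?_ | refine Dfn.subset ?_ ?_
      | refine Dfn.isEmpty ?_ | refine Dfn.isTrans ?_ | refine Dfn.isOrd ?_ | refine Dfn.isNat ?_
      | refine Dfn.isUpair ?_ ?_ ?_ | refine Dfn.isInsert ?_ ?_ ?_
      | refine Dfn.and ?_ ?_ | refine Dfn.or ?_ ?_ | refine Dfn.iff ?_ ?_ | refine Dfn.not ?_
      | refine Dfn.imp ?_ ?_ | refine Dfn.all ?_ | refine Dfn.ex ?_ | exact Dfn.false'
      | refine Dfn.ballZ ?_ ?_ | refine Dfn.bexZ ?_ ?_ | exact Dfn.const _)) hY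
  refine ⟨y, hy, fun z hz => ((hym z).1 hz).1, fun w hw => ?_, ?_⟩
  · obtain ⟨ξ, hξ, hξw⟩ := hfo w (hxY hw)
    have hξW := hW.mem_of_mem hμ hξ
    have hwW := hW.mem_of_mem hY (hxY hw)
    have h1 : ξ ∈ x' := (hx'm ξ).2 ⟨hξ, hWN hξW, ⟨w, hWN hwW⟩, hw, hξw⟩
    exact (hym w).2 ⟨hxY hw, hwW, ⟨ξ, hξW⟩, hxy' h1, hξw⟩
  · refine Ctb.image hW (ctb_up hMW hy'c) (hMW hy') (F := fun ξ w => ZFSet.pair ξ.1 w.1 ∈ (⟨f, hf⟩ : W).1) (by
      (repeat' first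
      | exact DT.var _ | exact DT.last | exact DT.const _ | assumption
      | refine Dfn.pairMem ?_ ?_ ?_ | refine Dfn.isPair ?_ ?_ ?_ | refine Dfn.mem ?_ ?_
      | refine Dfn.eqv ?_ ?_ | refine Dfn.eq ?_ ?_ | refine Dfn.subset ?_ ?_
      | refine Dfn.isEmpty ?_ | refine Dfn.isTrans ?_ | refine Dfn.isOrd ?_ | refine Dfn.isNat ?_
      | refine Dfn.isUpair ?_ ?_ ?_ | refine Dfn.isInsert ?_ ?_ ?_
      | refine Dfn.and ?_ ?_ | refine Dfn.or ?_ ?_ | refine Dfn.iff ?_ ?_ | refine Dfn.not ?_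
      | refine Dfn.imp ?_ ?_ | refine Dfn.all ?_ | refine Dfn.ex ?_ | exact Dfn.false'
      | refine Dfn.ballZ ?_ ?_ | refine Dfn.bexZ ?_ ?_ | exact Dfn.const _)) ?_ ?_
    · intro ξ _ w w' h1 h2
      exact Subtype.ext ((hff.ap_eq h1).symm.trans (hff.ap_eq h2))
    · intro w hw
      obtain ⟨_, hwW, ξ, h1, h2⟩ := (hym w).1 hw
      exact ⟨ξ, ⟨w, hwW⟩, h1, rfl, h2⟩

end Pool.Agent.H7.IG
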