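import Pool.Agent.H7.IG.Gn1
import Pool.Agent.H7.IG.Tk5
import Pool.Agent.H7.IG.Gx4

/-!
# IG: ccc forcing preserves the size `ω₁` and `ω₂`

`Ccc.fcov`: `f = vl G τ`; some `p₀ ∈ G` forces that `τ` is single valued on `Y` with values in `Z` (`Frc.truth`, `Y`, `Z` as ground model arguments). `r :=` the set of
the `(y, z) ∈ prod Y Z` such that some `p ∈ P`, `p₀ ⊆ p`, forces `(y, z) ∈ τ` (separation, `Frc.dfn`). For fixed `y` choose such `p_z` for every `z` with `(y, z) ∈ r`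
(`exists_choice`): for `z ≠ z'` the conditions `p_z, p_z'` are incompatible (a common extension, in a generic filter, would force two values), so `z ↦ p_z` is injective and
its image is an antichain, countable by `Ccc`; the section is countable.
`Ccc.cvr_om1`: `f` covers `X` in `M[G]`; `fcov` with `Y = δ`, `Z = X`; `cvr_union_om1` in `M`.
`Ccc.om2`: `IsOm1` by `Ccc.cov` and `Cov.om1` (Tk8); uncovered by `Ccc.cvr_om1`; `Cvr M δ α → Cvr M[G] δ α` trivial.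
-/

set_option autoImplicit false
set_option linter.unusedVariables false
set_option linter.unusedSectionVars false
set_option linter.unusedSimpArgs false
set_option linter.unusedTactic false
set_option linter.unreachableTactic false

namespace Pool.Agent.H7.IG

open Pool.Agent.H17.Omega Pool.Agent.H17.Omega.CTM Pool.Agent.H52.GX Pool.Agent.H52.GC

variable {M : Set ZFSet.{0}} {P G : ZFSet.{0}}

theorem gn1b_ud : UD CtmC (fun N (v : Fin 3 → N) => ∀ y ∈ (v 0).1, ∀ z ∈ (v 1).1, ∀ z' ∈ (v 1).1,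
    ZFSet.pair y z ∈ (v 2).1 → ZFSet.pair y z' ∈ (v 2).1 → z = z') := by
  (repeat' first
      | exact UT.var _ | exact UT.last | assumption
      | refine UD.pairMem ?_ ?_ ?_ | refine UD.isPair ?_ ?_ ?_ | refine UD.mem ?_ ?_
      | refine UD.eqv ?_ ?_ | refine UD.eq ?_ ?_ | refine UD.subset ?_ ?_
      | refine UD.isEmpty ?_ | refine UD.isTrans ?_ | refine UD.isOrd ?_ | refine UD.isNat ?_
      | refine UD.isUpair ?_ ?_ ?_ | refine UD.isInsert ?_ ?_ ?_ | refine UD.isUnion ?_ ?_ ?_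
      | refine UD.and ?_ ?_ | refine UD.or ?_ ?_ | refine UD.iff ?_ ?_ | refine UD.not ?_
      | refine UD.imp ?_ ?_ | refine UD.all ?_ | refine UD.ex ?_ | exact UD.false' | exact UD.true'
      | refine UD.ball ?_ ?_ | refine UD.bex ?_ ?_)

theorem Ccc.fcov (hM : CTM M) (hP : P ∈ M) (hc : Ccc M P) (hG : Gen M P G) {Y Z f : ZFSet.{0}} (hY : Y ∈ M)
    (hZ : Z ∈ M) (hf : f ∈ Xt M G)
    (hu : ∀ y ∈ Y, ∀ z ∈ Z, ∀ z' ∈ Z, ZFSet.pair y z ∈ f → ZFSet.pair y z' ∈ f → z = z') :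
    ∃ r ∈ M, (∀ y ∈ Y, ∃ S ∈ M, Ctb M S ∧ S ⊆ Z ∧ ∀ z, ZFSet.pair y z ∈ r → z ∈ S) ∧
      ∀ y ∈ Y, ∀ z ∈ Z, ZFSet.pair y z ∈ f → ZFSet.pair y z ∈ r := by
  have hW : CTM (Xt M G) := hG.ctm hM hP
  have hMW : M ⊆ Xt M G := hG.sub_xt hM hP
  obtain ⟨τ, hτ, rfl⟩ := hf
  obtain ⟨p₀, hp₀, hF₀⟩ := (Frc.truth gn1b_ud hM hP hG (![Ar.g ⟨Y, hY⟩, Ar.g ⟨Z, hZ⟩, Ar.n ⟨τ, hτ⟩])
    (![⟨Y, hMW hY⟩, ⟨Z, hMW hZ⟩, ⟨vl G τ, ⟨τ, hτ, rfl⟩⟩] : Fin 3 → Xt M G)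
    (by intro i; fin_cases i <;> rfl)).1 hu
  have hp₀P := hG.sub p₀ hp₀
  have hp₀M := hM.mem_of_mem hP hp₀P
  let Fz : M → M → M → Prop := fun p n z =>
    Frc M P (fun N (v : Fin 3 → N) => ZFSet.pair (v 0).1 (v 1).1 ∈ (v 2).1) p.1
      ![Ar.g n, Ar.g z, Ar.n ⟨τ, hτ⟩]
  have hFz : hM.Dfn (fun v : Fin 3 → M => Fz (v 0) (v 1) (v 2)) :=
    Frc.dfn3 gn1_ud_mem hP (DT.var _) (AT.g (DT.var _)) (AT.g (DT.var _)) (AT.n (DT.const _))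
  have huniq : ∀ p y z z' : M, p.1 ∈ P → p₀ ⊆ p.1 → y.1 ∈ Y → z.1 ∈ Z → z'.1 ∈ Z → Fz p y z →
      Fz p y z' → z = z' := by
    intro p y z z' hp hpp hy hz hz' h1 h2
    obtain ⟨G', hG', hpG'⟩ := exists_gen hM hP hp
    have hMG' : M ⊆ Xt M G' := hG'.sub_xt hM hP
    have hp₀' : p₀ ∈ G' := hG'.up _ hpG' p₀ hp₀P hpp
    have h3 := hF₀ G' hG' hp₀' (![⟨Y, hMG' hY⟩, ⟨Z, hMG' hZ⟩, ⟨vl G' τ, ⟨τ, hτ, rfl⟩⟩] :
      Fin 3 → Xt M G') (by intro i; fin_cases i <;> rfl)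
    have h4 := h1 G' hG' hpG' (![⟨y.1, hMG' y.2⟩, ⟨z.1, hMG' z.2⟩, ⟨vl G' τ, ⟨τ, hτ, rfl⟩⟩] :
      Fin 3 → Xt M G') (by intro i; fin_cases i <;> rfl)
    have h5 := h2 G' hG' hpG' (![⟨y.1, hMG' y.2⟩, ⟨z'.1, hMG' z'.2⟩, ⟨vl G' τ, ⟨τ, hτ, rfl⟩⟩] :
      Fin 3 → Xt M G') (by intro i; fin_cases i <;> rfl)
    exact Subtype.ext (h3 y.1 hy z.1 hz z'.1 hz' h4 h5)
  obtain ⟨r, hr, hr'⟩ := hM.exists_sep (P := fun e => ∃ y z p : M, e.1 = ZFSet.pair y.1 z.1 ∧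
    p.1 ∈ (⟨P, hP⟩ : M).1 ∧ (⟨p₀, hp₀M⟩ : M).1 ⊆ p.1 ∧ Fz p y z) (by
    (repeat' first
      | exact DT.var _ | exact DT.last | exact DT.const _ | assumption
      | refine Dfn.pairMem ?_ ?_ ?_ | refine Dfn.isPair ?_ ?_ ?_ | refine Dfn.mem ?_ ?_
      | refine Dfn.eqv ?_ ?_ | refine Dfn.eq ?_ ?_ | refine Dfn.subset ?_ ?_
      | refine Dfn.isEmpty ?_ | refine Dfn.isTrans ?_ | refine Dfn.isOrd ?_ | refine Dfn.isNat ?_
      | refine Dfn.isUpair ?_ ?_ ?_ | refine Dfn.isInsert ?_ ?_ ?_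
      | refine Dfn.and ?_ ?_ | refine Dfn.or ?_ ?_ | refine Dfn.iff ?_ ?_ | refine Dfn.not ?_
      | refine Dfn.imp ?_ ?_ | refine Dfn.all ?_ | refine Dfn.ex ?_ | exact Dfn.false'
      | refine Dfn.ballZ ?_ ?_ | refine Dfn.bexZ ?_ ?_ | exact Dfn.const _)
    exact Dfn.subst3 hFz (DT.var _) (DT.var _) (DT.var _)) (hM.prod_mem hY hZ)
  have hrm : ∀ y z : M, ZFSet.pair y.1 z.1 ∈ r ↔ y.1 ∈ Y ∧ z.1 ∈ Z ∧
      ∃ p : M, p.1 ∈ P ∧ p₀ ⊆ p.1 ∧ Fz p y z := by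
    intro n z
    rw [hr']
    constructor
    · rintro ⟨h1, _, n', z', p, h2, h3, h4⟩
      rw [ZFSet.pair_mem_prod] at h1
      have h2 : ZFSet.pair n.1 z.1 = ZFSet.pair n'.1 z'.1 := h2
      rw [ZFSet.pair_inj] at h2
      have e1 : n = n' := Subtype.ext h2.1
      have e2 : z = z' := Subtype.ext h2.2
      subst e1 e2
      exact ⟨h1.1, h1.2, p, h3, h4⟩
    · rintro ⟨h1, h2, p, h3, h4⟩
      refine ⟨?_, hM.pair_mem n.2 z.2, n, z, p, rfl, h3, h4⟩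
      rw [ZFSet.pair_mem_prod]
      exact ⟨h1, h2⟩
  refine ⟨r, hr, fun y hy => ?_, fun y hy z hz hyz => ?_⟩
  · have hyM := hM.mem_of_mem hY hy
    obtain ⟨S, hS, hS'⟩ := hM.exists_sep (P := fun z => ZFSet.pair (⟨y, hyM⟩ : M).1 z.1 ∈
      (⟨r, hr⟩ : M).1) (by
      (repeat' first
      | exact DT.var _ | exact DT.last | exact DT.const _ | assumption
      | refine Dfn.pairMem ?_ ?_ ?_ | refine Dfn.isPair ?_ ?_ ?_ | refine Dfn.mem ?_ ?_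
      | refine Dfn.eqv ?_ ?_ | refine Dfn.eq ?_ ?_ | refine Dfn.subset ?_ ?_
      | refine Dfn.isEmpty ?_ | refine Dfn.isTrans ?_ | refine Dfn.isOrd ?_ | refine Dfn.isNat ?_
      | refine Dfn.isUpair ?_ ?_ ?_ | refine Dfn.isInsert ?_ ?_ ?_
      | refine Dfn.and ?_ ?_ | refine Dfn.or ?_ ?_ | refine Dfn.iff ?_ ?_ | refine Dfn.not ?_
      | refine Dfn.imp ?_ ?_ | refine Dfn.all ?_ | refine Dfn.ex ?_ | exact Dfn.false'
      | refine Dfn.ballZ ?_ ?_ | refine Dfn.bexZ ?_ ?_ | exact Dfn.const _)) hZ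
    have hSm : ∀ z : M, z.1 ∈ S ↔ z.1 ∈ Z ∧ ZFSet.pair y z.1 ∈ r := fun z => (hS' z.1).trans
      ⟨fun ⟨h1, _, h2⟩ => ⟨h1, h2⟩, fun ⟨h1, h2⟩ => ⟨h1, z.2, h2⟩⟩
    refine ⟨S, hS, ?_, fun z hz => ((hS' z).1 hz).1, fun z hz => ?_⟩
    · obtain ⟨c, hcM, hcf, hc'⟩ := exists_choice hM (F := fun z p => p.1 ∈ (⟨P, hP⟩ : M).1 ∧
        (⟨p₀, hp₀M⟩ : M).1 ⊆ p.1 ∧ Fz p ⟨y, hyM⟩ z) (by
        (repeat' first
      | exact DT.var _ | exact DT.last | exact DT.const _ | assumption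
      | refine Dfn.pairMem ?_ ?_ ?_ | refine Dfn.isPair ?_ ?_ ?_ | refine Dfn.mem ?_ ?_
      | refine Dfn.eqv ?_ ?_ | refine Dfn.eq ?_ ?_ | refine Dfn.subset ?_ ?_
      | refine Dfn.isEmpty ?_ | refine Dfn.isTrans ?_ | refine Dfn.isOrd ?_ | refine Dfn.isNat ?_
      | refine Dfn.isUpair ?_ ?_ ?_ | refine Dfn.isInsert ?_ ?_ ?_
      | refine Dfn.and ?_ ?_ | refine Dfn.or ?_ ?_ | refine Dfn.iff ?_ ?_ | refine Dfn.not ?_
      | refine Dfn.imp ?_ ?_ | refine Dfn.all ?_ | refine Dfn.ex ?_ | exact Dfn.false'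
      | refine Dfn.ballZ ?_ ?_ | refine Dfn.bexZ ?_ ?_ | exact Dfn.const _)
        exact Dfn.subst3 hFz (DT.var _) (DT.const _) (DT.var _)) hS hP (by
        intro z hz
        obtain ⟨-, -, p, h1, h2⟩ := (hrm ⟨y, hyM⟩ z).1 ((hSm z).1 hz).2
        exact ⟨p, h1, h1, h2⟩)
      obtain ⟨A, hA, hA'⟩ := hM.exists_sep (P := fun p => ∃ z : M, ZFSet.pair z.1 p.1 ∈
        (⟨c, hcM⟩ : M).1) (by
        (repeat' first
      | exact DT.var _ | exact DT.last | exact DT.const _ | assumption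
      | refine Dfn.pairMem ?_ ?_ ?_ | refine Dfn.isPair ?_ ?_ ?_ | refine Dfn.mem ?_ ?_
      | refine Dfn.eqv ?_ ?_ | refine Dfn.eq ?_ ?_ | refine Dfn.subset ?_ ?_
      | refine Dfn.isEmpty ?_ | refine Dfn.isTrans ?_ | refine Dfn.isOrd ?_ | refine Dfn.isNat ?_
      | refine Dfn.isUpair ?_ ?_ ?_ | refine Dfn.isInsert ?_ ?_ ?_
      | refine Dfn.and ?_ ?_ | refine Dfn.or ?_ ?_ | refine Dfn.iff ?_ ?_ | refine Dfn.not ?_
      | refine Dfn.imp ?_ ?_ | refine Dfn.all ?_ | refine Dfn.ex ?_ | exact Dfn.false'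
      | refine Dfn.ballZ ?_ ?_ | refine Dfn.bexZ ?_ ?_ | exact Dfn.const _)) hP
      have hAc : Ctb M A := by
        refine hc A hA (fun p hp => ((hA' p).1 hp).1) fun a ha b hb hab q hq haq hbq => ?_
        obtain ⟨haP, haM, z, hza⟩ := (hA' a).1 ha
        obtain ⟨hbP, hbM, z', hzb⟩ := (hA' b).1 hb
        have hza : ZFSet.pair z.1 a ∈ c := hza
        have hzb : ZFSet.pair z'.1 b ∈ c := hzb
        have h1 := hc' z ⟨a, haM⟩ hza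
        have h2 := hc' z' ⟨b, hbM⟩ hzb
        have hqM := hM.mem_of_mem hP hq
        obtain ⟨x1, hx1, y1, hy1, h3⟩ := hcf.sub _ hza
        obtain ⟨x2, hx2, y2, hy2, h4⟩ := hcf.sub _ hzb
        rw [ZFSet.pair_inj] at h3 h4
        have hzZ := ((hSm z).1 (h3.1 ▸ hx1)).1
        have hz'Z := ((hSm z').1 (h4.1 ▸ hx2)).1
        have e := huniq ⟨q, hqM⟩ ⟨y, hyM⟩ z z' hq (fun w hw => haq (h1.2.1 hw)) hy hzZ hz'Z
          (h1.2.2.mono haP haq) (h2.2.2.mono hbP hbq)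
        subst e
        exact hab ((hcf.ap_eq hza).symm.trans (hcf.ap_eq hzb))
      refine Ctb.image hM hAc hA (F := fun p z => ZFSet.pair z.1 p.1 ∈ (⟨c, hcM⟩ : M).1) (by
        (repeat' first
      | exact DT.var _ | exact DT.last | exact DT.const _ | assumption
      | refine Dfn.pairMem ?_ ?_ ?_ | refine Dfn.isPair ?_ ?_ ?_ | refine Dfn.mem ?_ ?_
      | refine Dfn.eqv ?_ ?_ | refine Dfn.eq ?_ ?_ | refine Dfn.subset ?_ ?_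
      | refine Dfn.isEmpty ?_ | refine Dfn.isTrans ?_ | refine Dfn.isOrd ?_ | refine Dfn.isNat ?_
      | refine Dfn.isUpair ?_ ?_ ?_ | refine Dfn.isInsert ?_ ?_ ?_
      | refine Dfn.and ?_ ?_ | refine Dfn.or ?_ ?_ | refine Dfn.iff ?_ ?_ | refine Dfn.not ?_
      | refine Dfn.imp ?_ ?_ | refine Dfn.all ?_ | refine Dfn.ex ?_ | exact Dfn.false'
      | refine Dfn.ballZ ?_ ?_ | refine Dfn.bexZ ?_ ?_ | exact Dfn.const _)) ?_ ?_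
      · intro p hp z z' h1 h2
        have h1 : ZFSet.pair z.1 p.1 ∈ c := h1
        have h2 : ZFSet.pair z'.1 p.1 ∈ c := h2
        have h3 := hc' z p h1
        have h4 := hc' z' p h2
        obtain ⟨x1, hx1, y1, hy1, h5⟩ := hcf.sub _ h1
        obtain ⟨x2, hx2, y2, hy2, h6⟩ := hcf.sub _ h2
        rw [ZFSet.pair_inj] at h5 h6
        exact huniq p ⟨y, hyM⟩ z z' h3.1 h3.2.1 hy ((hSm z).1 (h5.1 ▸ hx1)).1
          ((hSm z').1 (h6.1 ▸ hx2)).1 h3.2.2 h4.2.2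
      · intro z hz
        have hzM := hM.mem_of_mem hS hz
        obtain ⟨p, hp, hzp⟩ := hcf.tot z hz
        have hpM := hM.mem_of_mem hP hp
        exact ⟨⟨p, hpM⟩, ⟨z, hzM⟩, (hA' p).2 ⟨hp, hpM, ⟨z, hzM⟩, hzp⟩, rfl, hzp⟩
    · have hzM := (hM.of_pair_mem (hM.mem_of_mem hr hz)).2
      exact (hSm ⟨z, hzM⟩).2 ⟨((hrm ⟨y, hyM⟩ ⟨z, hzM⟩).1 hz).2.1, hz⟩
  · have hyM := hM.mem_of_mem hY hy
    have hzM := hM.mem_of_mem hZ hz
    obtain ⟨q, hq, hqF⟩ := (Frc.truth gn1_ud_mem hM hP hG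
      (![Ar.g ⟨y, hyM⟩, Ar.g ⟨z, hzM⟩, Ar.n ⟨τ, hτ⟩])
      (![⟨y, hMW hyM⟩, ⟨z, hMW hzM⟩, ⟨vl G τ, ⟨τ, hτ, rfl⟩⟩] : Fin 3 → Xt M G)
      (by intro i; fin_cases i <;> rfl)).1 hyz
    obtain ⟨q', hq', h1, h2⟩ := hG.dir q hq p₀ hp₀
    have hq'P := hG.sub _ hq'
    have hq'M := hM.mem_of_mem hP hq'P
    exact (hrm ⟨y, hyM⟩ ⟨z, hzM⟩).2 ⟨hy, hz, ⟨q', hq'M⟩, hq'P, h2, hqF.mono (hG.sub _ hq) h1⟩

theorem Ccc.cvr_om1 (hM : CTM M) (hP : P ∈ M) (hc : Ccc M P) (hG : Gen M P G) {δ : Ordinal.{0}} (hδ : IsOm1 M δ)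
    {X : ZFSet.{0}} (hX : X ∈ M) (h : Cvr (Xt M G) δ.toZFSet X) : Cvr M δ.toZFSet X := by
  obtain ⟨f, hf, h1, h2⟩ := h
  obtain ⟨r, hr, h3, h4⟩ := Ccc.fcov hM hP hc hG hδ.mem hX hf
    (fun y hy z _ z' _ hz hz' => h1 y hy z z' hz hz')
  refine cvr_union_om1 hM hδ hδ.mem hr hX (cvr_of_subset hM hδ.mem (fun z hz => hz))
    (fun i hi => ?_) (fun x hx => ?_)
  · obtain ⟨S, hS, hSc, -, hS'⟩ := h3 i hi
    exact ⟨S, hS, ctb_cvr_om1 hM hδ hSc, fun x _ hx => hS' x hx⟩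
  · obtain ⟨y, hy, hyx⟩ := h2 x hx
    exact ⟨y, hy, h4 y hy x hx hyx⟩

theorem Ccc.om2 (hM : CTM M) (hP : P ∈ M) (hc : Ccc M P) (hG : Gen M P G) {δ κ : Ordinal.{0}}
    (h : IsOm2 M δ κ) : IsOm2 (Xt M G) δ κ := by
  have hMW : M ⊆ Xt M G := hG.sub_xt hM hP
  refine ⟨Cov.om1 hMW (Ccc.cov hM hP hc hG) h.om1, hMW h.mem,
    fun h1 => h.unc (Ccc.cvr_om1 hM hP hc hG h.om1 h.mem h1), fun α hα => ?_⟩
  obtain ⟨f, hf, h1⟩ := h.cvr α hα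
  exact ⟨f, hMW hf, h1⟩

end Pool.Agent.H7.IG
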