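import Pool.Agent.H7.IG.ItA
import Pool.Agent.H7.IG.ItU
import Pool.Agent.H19.IG.Main

/-!
# IG, Part 2: the main theorem on the iteration

`N` is a ctm, `δ = ω₁` of `N`, `κ` any ordinal of `N`. Plan. `Λ` an ordinal of `N` of cofinality `> δ` and, in `N`, a map `B`
of `Λ` onto the set of all candidates for names (subsets of size `≤ δ` of `(δ × δ) × 𝓕`) such that every candidate is
`B(β)` for unboundedly many `β < Λ`, and such that the number of the `β` with `B(β) = R` is not covered by `κ` (for the
candidates `R`). E.g. `Λ = μ · κ'` where `μ` is in bijection with a large power set `P(κ'')` (`κ'' ≥ κ, δ`; then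
`|Λ^δ| = |Λ|`) and `κ' ≥ ω₂` is regular.
`Q` is defined by recursion on `β ≤ Λ` (`exists_rec`): given `Q_β`, `R_β := B(β)` if `B(β)` is a set of `((z, y), p')` with `p' ∈ Q_β` and
`Q_{β+1}` computed with `B(β)` is ccc in `N`; otherwise `R_β := ∅` (then every finite set has a lower bound: trivial
coordinate). Limits: unions.
ccc of all `Q_β` by induction: successor by construction (for `R_β = ∅`: Delta-system on the last coordinate or
pigeonhole), limit by the Delta-system lemma for the domains, `IsIt.amalg`-style.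
`MA1`: given a ccc `(P, ≤)` and `D` in `N[H]`: pass to a subposet of size `≤ δ` (`exists_hull_om1`: closed under witnesses of
density and of compatibility; still ccc), transport it to `δ`: `π : δ → P'` onto, `R = {(z, y) : π z ≰ π y}`. `R` and `D` have
names of size `≤ δ` (ccc), so they are in `N[H_β]`, `β < Λ` (`H_β = {p ∈ H : Dm p β}`). Some `h ∈ H_β` forces over
`Q_β` that `C(R) = {F ⊆ δ finite : F has a lower bound}` is ccc (it is ccc in `N[H_β]` because it is in `N[H]` and `ω₁` is
preserved). Let `R* = {((z, y), p) : p ⊇ h, p forces (z, y) ∈ R}` (restricted to size `≤ δ`); then `Q_β * R*` is ccc: below `h` by the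
choice of `h` (if `(q_ξ, F_ξ)` is an uncountable antichain, some condition forces uncountably many `q_ξ` into `H_β`), and
conditions incompatible with `h` make the coordinate trivial. Choose a later stage `β' ≥ β` with `B(β') = R*`. Then
`g_{β'}` meets every dense set in `N[H_{β'}]`; `{π y : y ∈ g_{β'}}` generates the filter.
`BigC`: the relation `R_c` on `δ` coding Cohen forcing is `B(β)` for more than `κ` many `β`; these stages add different reals,
and a map of `κ` onto the reals gives by the ccc a covering of this set of `β`'s by `κ × ω` in `N`.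
-/

set_option autoImplicit false
set_option linter.unusedVariables false
set_option linter.unusedSectionVars false
set_option linter.unusedSimpArgs false
set_option linter.unusedTactic false
set_option linter.unreachableTactic false

namespace Pool.Agent.H7.IG

open Pool.Agent.H17.Omega Pool.Agent.H17.Omega.CTM Pool.Agent.H52.GX Pool.Agent.H52.GC

theorem exists_iteration {N : Set ZFSet.{0}} (hN : CTM N) {δ : Ordinal.{0}} (hδ : IsOm1 N δ) {κ : Ordinal.{0}}
    (hκ : κ.toZFSet ∈ N) :
    ∃ (Λ : Ordinal.{0}) (𝓡 Q 𝓕 : ZFSet.{0}), Λ.toZFSet ∈ N ∧ 𝓡 ∈ N ∧ Q ∈ N ∧ 𝓕 ∈ N ∧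
      FinSub δ.toZFSet Λ.toZFSet 𝓕 ∧ IsIt δ.toZFSet Λ.toZFSet 𝓡 Q 𝓕 ∧ SmallNm N δ.toZFSet Λ.toZFSet 𝓡 ∧
      ∅ ∈ Q ∧ Ccc N Q ∧ ∀ H, Gen N Q H → MA1 (Xt N H) δ ∧ BigC (Xt N H) κ :=
  exists_iteration' hN hδ hκ

end Pool.Agent.H7.IG
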