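import Pool.Agent.H7.IG.Gx
import Pool.Agent.H7.IG.Tk4
import Pool.Agent.H7.IG.Tk5
import Pool.Agent.H7.IG.Tk8

/-!
# IG: projections (definitions)

`Prj P P₀ B`: intersection with `B` is a projection of the poset `P` onto `P₀`. For a filter `G` on `P`,
`Gb G B = {p ∩ B : p ∈ G}`; for a filter `G₀` on `P₀` the quotient is `Quo P B G₀ = {p ∈ P : p ∩ B ∈ G₀}`.
-/

set_option autoImplicit false
set_option linter.unusedVariables false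
set_option linter.unusedSectionVars false
set_option linter.unusedSimpArgs false
set_option linter.unusedTactic false
set_option linter.unreachableTactic false

namespace Pool.Agent.H7.IG

open Pool.Agent.H17.Omega Pool.Agent.H17.Omega.CTM Pool.Agent.H52.GX Pool.Agent.H52.GC

structure Prj (P P₀ B : ZFSet.{0}) : Prop where
  down : ∀ p ∈ P, p ∩ B ∈ P₀
  sub : ∀ r ∈ P₀, r ⊆ B
  amal : ∀ p ∈ P, ∀ r ∈ P₀, p ∩ B ⊆ r → p ∪ r ∈ P
  lift : ∀ p ∈ P, ∀ r ∈ P₀, r ⊆ p ∩ B → ∃ p' ∈ P, p' ⊆ p ∧ p' ∩ B = r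

/-- `{p ∩ B : p ∈ G}`. -/
noncomputable def Gb (G B : ZFSet.{0}) : ZFSet.{0} :=
  ZFSet.sep (fun r => ∃ p ∈ G, r = p ∩ B) (ZFSet.powerset B)

theorem mem_Gb {G B r : ZFSet.{0}} : r ∈ Gb G B ↔ ∃ p ∈ G, r = p ∩ B := by
  rw [Gb, ZFSet.mem_sep, ZFSet.mem_powerset]
  constructor
  · exact fun h => h.2
  · rintro ⟨p, hp, rfl⟩
    exact ⟨fun z hz => (ZFSet.mem_inter.1 hz).2, p, hp, rfl⟩

/-- The quotient `P / G₀`. -/
noncomputable def Quo (P B G₀ : ZFSet.{0}) : ZFSet.{0} := ZFSet.sep (fun p => p ∩ B ∈ G₀) P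

theorem mem_Quo {P B G₀ p : ZFSet.{0}} : p ∈ Quo P B G₀ ↔ p ∈ P ∧ p ∩ B ∈ G₀ := by
  rw [Quo, ZFSet.mem_sep]

theorem Quo_mem {N : Set ZFSet.{0}} (hN : CTM N) {P B G₀ : ZFSet.{0}} (hP : P ∈ N) (hB : B ∈ N)
    (hG : G₀ ∈ N) : Quo P B G₀ ∈ N := by
  refine hN.sep_mem (Dfn.congr (P := fun v : Fin 1 → N => ∃ r ∈ (⟨G₀, hG⟩ : N).1,
    (∀ z ∈ r, z ∈ (v 0).1 ∧ z ∈ (⟨B, hB⟩ : N).1) ∧ ∀ z ∈ (v 0).1, z ∈ (⟨B, hB⟩ : N).1 → z ∈ r) ?_ ?_) hP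
  · intro v
    have key : ∀ p r : ZFSet.{0}, ((∀ z ∈ r, z ∈ p ∧ z ∈ B) ∧ ∀ z ∈ p, z ∈ B → z ∈ r) ↔
        r = p ∩ B := by
      intro p r
      constructor
      · rintro ⟨h1, h2⟩
        ext z
        rw [ZFSet.mem_inter]
        exact ⟨h1 z, fun h => h2 z h.1 h.2⟩
      · rintro rfl
        exact ⟨fun z hz => ZFSet.mem_inter.1 hz, fun z h1 h2 => ZFSet.mem_inter.2 ⟨h1, h2⟩⟩
    constructor
    · rintro ⟨r, hr, h⟩
      rw [← (key (v 0).1 r).1 h]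
      exact hr
    · intro h
      exact ⟨_, h, (key (v 0).1 _).2 rfl⟩
  · (repeat' first
      | exact DT.var _ | exact DT.last | exact DT.const _ | assumption
      | refine Dfn.mem ?_ ?_ | refine Dfn.eqv ?_ ?_ | refine Dfn.eq ?_ ?_ | refine Dfn.subset ?_ ?_
      | refine Dfn.and ?_ ?_ | refine Dfn.or ?_ ?_ | refine Dfn.iff ?_ ?_ | refine Dfn.not ?_
      | refine Dfn.imp ?_ ?_ | refine Dfn.all ?_ | refine Dfn.ex ?_
      | refine Dfn.ballZ ?_ ?_ | refine Dfn.bexZ ?_ ?_)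

end Pool.Agent.H7.IG
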