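import Pool.Agent.H7.IG.ItA
import Pool.Agent.H7.IG.PrjD

/-!
# IG, Part 4: restriction of the iteration to a set of coordinates that is closed under the names

`IsIt.restrict`: show by induction on `β ≤ Λ` that for all `p ∈ Q` with `Dm p β`: `rs p A ∈ Q`. `rs p A` is in `𝓕`. Use `q_iff` for `rs p A`: let `γ ∈ dom (rs p A)`, so `γ ∈ A`, `γ < β`. `p₀ := rs (rs p A) γ = rs (rs p γ) A ∈ Q`
(`IsIt.down` and the induction hypothesis). Let `q ∈ Q`, `Dm q γ`, `p₀ ⊆ q`. `q_A := rs q A ∈ Q` (IH), `p₀ ⊆ q_A`. By `IsIt.amalg` for `rs p γ`, `q_A` and `A`, `u := rs p γ ∪ q_A ∈ Q`, `Dm u γ`, `rs p γ ⊆ u`. By `q_iff` for `p` at `γ` (its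
witness `p₀'` is contained in `rs p γ`) there are `q' ∈ Q`, `Dm q' γ`, `u ⊆ q'`, `z ∈ δ` with `LbF γ p q' z`. `q'_A := rs q' A ∈ Q` (IH), `q_A ⊆ q'_A`. Claim: `LbF γ p q'_A z`: let `y ∈ δ`, `(γ, y) ∈ p`, `p' ∈ Q`, `R4 γ z y p'`,
`r ∈ Q`, `Dm r γ`, `q'_A ⊆ r`, `p' ⊆ r`. `r_A := rs r A ∈ Q` (IH) contains `q'_A` and `p'` (`hn`: `Dm p' A`). By `IsIt.amalg` for `q'`, `r_A`: `q' ∪ r_A ∈ Q`; it contains `q'` and `p'`: contradiction to `LbF γ p q' z`.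
Finally `q'' := q ∪ q'_A ∈ Q` (`IsIt.amalg` for `q`, `q'_A`: `(ξ, x) ∈ q`, `ξ ∈ A` is in `q_A ⊆ q'_A`), `Dm q'' γ`, `q ⊆ q''` and `LbF γ (rs p A) q'' z`.
`IsIt.prj`: `p ∩ prod A δ = rs p A` for `p ∈ Q`; `lift` with `p' = r`.
-/

set_option autoImplicit false
set_option linter.unusedVariables false
set_option linter.unusedSectionVars false
set_option linter.unusedSimpArgs false
set_option linter.unusedTactic false
set_option linter.unreachableTactic false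

namespace Pool.Agent.H7.IG

open Pool.Agent.H17.Omega Pool.Agent.H17.Omega.CTM Pool.Agent.H52.GX Pool.Agent.H52.GC

/-- The conditions with domain contained in `A`. -/
noncomputable def QA (δ Q A : ZFSet.{0}) : ZFSet.{0} := ZFSet.sep (fun p => Dm δ p A) Q

theorem mem_QA {δ Q A p : ZFSet.{0}} : p ∈ QA δ Q A ↔ p ∈ Q ∧ Dm δ p A := by
  rw [QA, ZFSet.mem_sep]

variable {δ Λ : Ordinal.{0}} {𝓡 Q 𝓕 A : ZFSet.{0}}

theorem itR_dm_rs (hF : FinSub δ.toZFSet Λ.toZFSet 𝓕) {p : ZFSet.{0}} (hp : p ∈ 𝓕) {B : ZFSet.{0}} :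
    Dm δ.toZFSet (rs p B) B := by
  intro z hz
  obtain ⟨ξ, hξ, y, hy, rfl⟩ := ((hF p).1 hp).2 z (itA_rs_sub hz)
  exact ⟨ξ, (pair_mem_rs.1 hz).1, y, hy, rfl⟩

theorem itR_dm_sub {δ p q A : ZFSet.{0}} (h : Dm δ p A) (hs : q ⊆ p) : Dm δ q A :=
  fun z hz => h z (hs hz)

theorem itR_dm_union {δ p q A : ZFSet.{0}} (h : Dm δ p A) (h' : Dm δ q A) : Dm δ (p ∪ q) A := by
  intro z hz
  rcases ZFSet.mem_union.1 hz with h1 | h1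
  · exact h z h1
  · exact h' z h1

theorem itR_key (h : IsIt δ.toZFSet Λ.toZFSet 𝓡 Q 𝓕) (hF : FinSub δ.toZFSet Λ.toZFSet 𝓕)
    (hn : ∀ β ∈ A, ∀ z y p', R4 𝓡 β z y p' → Dm δ.toZFSet p' A) (β : Ordinal.{0}) (hβ : β ≤ Λ) :
    ∀ p ∈ Q, Dm δ.toZFSet p β.toZFSet → rs p A ∈ Q := by
  induction β using WellFoundedLT.induction with
  | ind β ih =>
    intro p hp hpβ
    have hpF := h.q_sub p hp
    rw [h.q_iff _ (itA_F hF hpF itA_rs_sub)]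
    rintro γ hγ ⟨x, hx, hγx⟩
    rw [pair_mem_rs] at hγx
    obtain ⟨hγA, hγx⟩ := hγx
    obtain ⟨γ₁, hγ₁, x₁, hx₁, he⟩ := hpβ _ hγx
    rw [ZFSet.pair_inj] at he
    rw [← he.1] at hγ₁
    obtain ⟨γ', hγ', rfl⟩ := Ordinal.mem_toZFSet_iff.1 hγ₁
    have ih := ih γ' hγ' (hγ'.le.trans hβ)
    have hpγ : rs p γ'.toZFSet ∈ Q := h.down hF hp (hγ'.le.trans hβ)
    have hpγd : Dm δ.toZFSet (rs p γ'.toZFSet) γ'.toZFSet := itR_dm_rs hF hpF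
    refine ⟨rs (rs p γ'.toZFSet) A, ih _ hpγ hpγd, fun z hz => ?_, itR_dm_sub hpγd itA_rs_sub,
      fun z hz h6 => ?_, fun q hq h6 h7 => ?_⟩
    · obtain ⟨ξ, hξ, y, hy, rfl⟩ := hpγd z (itA_rs_sub hz)
      rw [pair_mem_rs] at hz ⊢
      exact ⟨hz.1, (pair_mem_rs.1 hz.2).2⟩
    · obtain ⟨ξ, hξ, y, hy, rfl⟩ := h6
      rw [pair_mem_rs] at hz ⊢
      exact ⟨hz.1, pair_mem_rs.2 ⟨hξ, hz.2⟩⟩
    · have hqF := h.q_sub q hq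
      have hqA := ih q hq h6
      have hqAd : Dm δ.toZFSet (rs q A) A := itR_dm_rs hF hqF
      have hu : rs p γ'.toZFSet ∪ rs q A ∈ Q := by
        refine h.amalg hF hpγ hqA hqAd fun ξ hξ y hy => ?_
        rw [pair_mem_rs]
        exact ⟨hξ, h7 (pair_mem_rs.2 ⟨hξ, hy⟩)⟩
      have hud : Dm δ.toZFSet (rs p γ'.toZFSet ∪ rs q A) γ'.toZFSet :=
        itR_dm_union hpγd (itR_dm_sub h6 itA_rs_sub)
      obtain ⟨p₀, a1, a2, a3, a4, a5⟩ := (h.q_iff p hpF).1 hp _ hγ ⟨x, hx, hγx⟩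
      have a6 : p₀ ⊆ rs p γ'.toZFSet ∪ rs q A := by
        intro z hz
        obtain ⟨ξ, hξ, y, hy, rfl⟩ := a3 z hz
        exact ZFSet.mem_union.2 (Or.inl (pair_mem_rs.2 ⟨hξ, a2 hz⟩))
      obtain ⟨q', b1, b2, b3, z, hz, b4⟩ := a5 _ hu hud a6
      have hq'F := h.q_sub q' b1
      have hq'A := ih q' b1 b2
      have hq'Ad : Dm δ.toZFSet (rs q' A) A := itR_dm_rs hF hq'F
      refine ⟨q ∪ rs q' A, ?_, itR_dm_union h6 (itR_dm_sub b2 itA_rs_sub),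
        fun w hw => ZFSet.mem_union.2 (Or.inl hw), z, hz, ?_⟩
      · refine h.amalg hF hq hq'A hq'Ad fun ξ hξ y hy => ?_
        rw [pair_mem_rs]
        exact ⟨hξ, b3 (ZFSet.mem_union.2 (Or.inr (pair_mem_rs.2 ⟨hξ, hy⟩)))⟩
      · intro y hy c1 p' hp' c2 r hr c3 c4 c5
        have hrF := h.q_sub r hr
        have hrA := ih r hr c3
        have hrAd : Dm δ.toZFSet (rs r A) A := itR_dm_rs hF hrF
        have hv : q' ∪ rs r A ∈ Q := by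
          refine h.amalg hF b1 hrA hrAd fun ξ hξ y hy => ?_
          rw [pair_mem_rs]
          exact ⟨hξ, c4 (ZFSet.mem_union.2 (Or.inr (pair_mem_rs.2 ⟨hξ, hy⟩)))⟩
        refine b4 y hy (pair_mem_rs.1 c1).2 p' hp' c2 _ hv
          (itR_dm_union b2 (itR_dm_sub c3 itA_rs_sub)) (fun w hw => ZFSet.mem_union.2 (Or.inl hw)) ?_
        intro w hw
        obtain ⟨ξ, hξ, v, hv', rfl⟩ := hn _ hγA z y p' c2 w hw
        exact ZFSet.mem_union.2 (Or.inr (pair_mem_rs.2 ⟨hξ, c5 hw⟩))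

theorem IsIt.restrict (h : IsIt δ.toZFSet Λ.toZFSet 𝓡 Q 𝓕) (hF : FinSub δ.toZFSet Λ.toZFSet 𝓕)
    (hA : A ⊆ Λ.toZFSet) (hn : ∀ β ∈ A, ∀ z y p', R4 𝓡 β z y p' → Dm δ.toZFSet p' A) {p : ZFSet.{0}} (hp : p ∈ Q) :
    rs p A ∈ Q :=
  itR_key h hF hn Λ le_rfl p hp ((hF p).1 (h.q_sub p hp)).2

theorem IsIt.inter_eq (h : IsIt δ.toZFSet Λ.toZFSet 𝓡 Q 𝓕) (hF : FinSub δ.toZFSet Λ.toZFSet 𝓕) {p : ZFSet.{0}} (hp : p ∈ Q) :
    p ∩ ZFSet.prod A δ.toZFSet = rs p A := by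
  ext z
  rw [ZFSet.mem_inter]
  constructor
  · rintro ⟨h1, h2⟩
    obtain ⟨ξ, hξ, y, hy, rfl⟩ := ((hF p).1 (h.q_sub p hp)).2 z h1
    rw [ZFSet.pair_mem_prod] at h2
    exact pair_mem_rs.2 ⟨h2.1, h1⟩
  · intro h1
    obtain ⟨ξ, hξ, y, hy, rfl⟩ := ((hF p).1 (h.q_sub p hp)).2 z (itA_rs_sub h1)
    rw [pair_mem_rs] at h1
    exact ⟨h1.2, ZFSet.pair_mem_prod.2 ⟨h1.1, hy⟩⟩

theorem IsIt.prj (h : IsIt δ.toZFSet Λ.toZFSet 𝓡 Q 𝓕) (hF : FinSub δ.toZFSet Λ.toZFSet 𝓕)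
    (hA : A ⊆ Λ.toZFSet) (hn : ∀ β ∈ A, ∀ z y p', R4 𝓡 β z y p' → Dm δ.toZFSet p' A) :
    Prj Q (QA δ.toZFSet Q A) (ZFSet.prod A δ.toZFSet) := by
  have hsub : ∀ r ∈ QA δ.toZFSet Q A, r ⊆ ZFSet.prod A δ.toZFSet := by
    intro r hr z hz
    obtain ⟨ξ, hξ, y, hy, rfl⟩ := (mem_QA.1 hr).2 z hz
    exact ZFSet.pair_mem_prod.2 ⟨hξ, hy⟩
  refine ⟨fun p hp => ?_, hsub, fun p hp r hr hpr => ?_, fun p hp r hr hpr => ?_⟩
  · rw [h.inter_eq hF hp]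
    exact mem_QA.2 ⟨h.restrict hF hA hn hp, itR_dm_rs hF (h.q_sub p hp)⟩
  · refine h.amalg hF hp (mem_QA.1 hr).1 (mem_QA.1 hr).2 fun β hβ x hx => hpr ?_
    rw [h.inter_eq hF hp]
    exact pair_mem_rs.2 ⟨hβ, hx⟩
  · refine ⟨r, (mem_QA.1 hr).1, fun z hz => (ZFSet.mem_inter.1 (hpr hz)).1, ?_⟩
    ext z
    rw [ZFSet.mem_inter]
    exact ⟨fun hz => hz.1, fun hz => ⟨hz, hsub r hr hz⟩⟩

end Pool.Agent.H7.IG
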