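import Pool.Agent.H7.IG.Gx
import Pool.Agent.H7.IG.Stat
import Pool.Agent.H7.IG.Tk3
import Pool.Agent.H7.IG.Tk6
import Pool.Agent.H7.IG.Tk7
import Pool.Agent.H7.IG.Tk8

/-!
# IG, Part 3: strongly generic conditions and the approximation property (interface)

`M ⊆ W` are ctms, `S ∈ W` a poset (a set of sets ordered by reverse inclusion) whose elements are in `M`.

* `SG Z S s₀ s*`: `s*` is a strongly generic condition for `Z` below `s₀`: for every `s' ∈ S`, `s* ⊆ s'`, there is a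
  residue `r ∈ Z ∩ S` with `s₀ ⊆ r ⊆ s'` such that every `t ∈ Z ∩ S` with `r ⊆ t` is compatible with `s'`.
* `SPR M W S`: for every `Y ∈ M` containing `S` and closed under finite subsets, every relation `Φ` definable over
  `W` (with parameters) and every `s₀ ∈ S` there are `Z ∈ M`, countable in `M`, `Z ⊆ Y`, closed under finite
  subsets and under `Φ` (in the sense of Skolem functions), and `s* ∈ S`, `s₀ ⊆ s*`, `s₀ ∈ Z` with `SG Z S s₀ s*`.
* `AP W N`: the `ω₁`-approximation property for sets of ordinals.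
-/

set_option autoImplicit false
set_option linter.unusedVariables false
set_option linter.unusedSectionVars false
set_option linter.unusedSimpArgs false
set_option linter.unusedTactic false
set_option linter.unreachableTactic false

namespace Pool.Agent.H7.IG

open Pool.Agent.H17.Omega Pool.Agent.H17.Omega.CTM Pool.Agent.H52.GX Pool.Agent.H52.GC

/-- Strongly generic conditions. -/
def SG (Z S s₀ s : ZFSet.{0}) : Prop :=
  ∀ s' ∈ S, s ⊆ s' → ∃ r ∈ Z, r ∈ S ∧ s₀ ⊆ r ∧ r ⊆ s' ∧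
    ∀ t ∈ Z, t ∈ S → r ⊆ t → ∃ u ∈ S, s' ⊆ u ∧ t ⊆ u

/-- Strongly proper over `W`, with hulls from `M`. -/
def SPR (M W : Set ZFSet.{0}) (S : ZFSet.{0}) : Prop :=
  ∀ (hW : CTM W) (Y : ZFSet.{0}), Y ∈ M → S ⊆ Y → (∀ a, FinZ a → a ⊆ Y → a ∈ Y) →
    ∀ Φ : W → W → Prop, hW.Dfn (fun v : Fin 2 → W => Φ (v 0) (v 1)) → ∀ s₀ ∈ S,
      ∃ Z ∈ M, Z ⊆ Y ∧ Ctb M Z ∧ (∀ a, FinZ a → a ⊆ Z → a ∈ Z) ∧ s₀ ∈ Z ∧
        (∀ y z : W, y.1 ∈ Z → z.1 ∈ Y → Φ y z → ∃ z' : W, z'.1 ∈ Z ∧ Φ y z') ∧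
        ∃ s ∈ S, s₀ ⊆ s ∧ SG Z S s₀ s

/-- `(W, N)` has the `ω₁`-approximation property, for sets of ordinals. -/
def AP (W N : Set ZFSet.{0}) : Prop :=
  ∀ μ : Ordinal.{0}, μ.toZFSet ∈ W → ∀ b ∈ N, b ⊆ μ.toZFSet →
    (∀ a ∈ W, a ⊆ μ.toZFSet → Ctb W a → b ∩ a ∈ W) → b ∈ W

end Pool.Agent.H7.IG
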