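import Pool.Agent.H7.IG.LevA

/-!
# IG, Part 4: forced equality of names as a set (definitions)

`IsE N P T E`: `E` is the set of all `(p, (σ, τ))`, `p ∈ P`, `σ, τ ∈ T`, such that `p` forces `σ = τ` (over `N`).
`RecE P T E`: the recursive characterization of this relation (bounded quantifiers, no reference to `N`).
-/

set_option autoImplicit false
set_option linter.unusedVariables false
set_option linter.unusedSectionVars false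
set_option linter.unusedSimpArgs false
set_option linter.unusedTactic false
set_option linter.unreachableTactic false

namespace Pool.Agent.H7.IG

open Pool.Agent.H17.Omega Pool.Agent.H17.Omega.CTM Pool.Agent.H52.GX Pool.Agent.H52.GC

/-- A set of names that contains the names occurring in its elements. -/
def NmCl (T : ZFSet.{0}) : Prop := ∀ τ ∈ T, ∀ σ p, ZFSet.pair σ p ∈ τ → σ ∈ T

/-- `(p, (σ, τ)) ∈ E`. -/
def E3 (E p σ τ : ZFSet.{0}) : Prop := ZFSet.pair p (ZFSet.pair σ τ) ∈ E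

structure IsE (N : Set ZFSet.{0}) (P T E : ZFSet.{0}) : Prop where
  sub : ∀ w ∈ E, ∃ p ∈ P, ∃ σ ∈ T, ∃ τ ∈ T, w = ZFSet.pair p (ZFSet.pair σ τ)
  iff : ∀ p ∈ P, ∀ σ ∈ T, ∀ τ ∈ T, E3 E p σ τ ↔ ∀ G, Gen N P G → p ∈ G → vl G σ = vl G τ

/-- The recursion clause for forced equality (`q ⊇ p` is stronger). -/
def RecE (P T E : ZFSet.{0}) : Prop :=
  (∀ w ∈ E, ∃ p ∈ P, ∃ σ ∈ T, ∃ τ ∈ T, w = ZFSet.pair p (ZFSet.pair σ τ)) ∧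
  ∀ p ∈ P, ∀ σ ∈ T, ∀ τ ∈ T, E3 E p σ τ ↔
    (∀ ρ ∈ T, ∀ r ∈ P, ZFSet.pair ρ r ∈ σ → ∀ q ∈ P, p ⊆ q → r ⊆ q →
      ∃ q' ∈ P, q ⊆ q' ∧ ∃ π ∈ T, ∃ s ∈ P, ZFSet.pair π s ∈ τ ∧ s ⊆ q' ∧ E3 E q' ρ π) ∧
    (∀ π ∈ T, ∀ s ∈ P, ZFSet.pair π s ∈ τ → ∀ q ∈ P, p ⊆ q → s ⊆ q →
      ∃ q' ∈ P, q ⊆ q' ∧ ∃ ρ ∈ T, ∃ r ∈ P, ZFSet.pair ρ r ∈ σ ∧ r ⊆ q' ∧ E3 E q' ρ π)

end Pool.Agent.H7.IG
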