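import Pool.Agent.H7.IG.Lev
import Pool.Agent.H7.IG.ChkD
import Pool.Agent.H7.IG.LiftD
import Pool.Agent.H7.IG.ItR
import Pool.Agent.H7.IG.KeyD

/-!
# IG, Part 4: lifted embeddings (definitions)

`LE W N A B δ γ κ e`: `W ⊆ N` are ctms, `A` level-like in `W`, `B` level-like in `N`, `e : A → B` elementary with graph in `N`, the identity on the
ordinals `< γ`, `e γ = κ`, `δ = ω₁ < γ < κ`.
`BLP N δ κ`: every set of `N` is in the range of such an embedding with small domain, such that `(W, N)` has the covering and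
approximation properties.
-/

set_option autoImplicit false
set_option linter.unusedVariables false
set_option linter.unusedSectionVars false
set_option linter.unusedSimpArgs false
set_option linter.unusedTactic false
set_option linter.unreachableTactic false

namespace Pool.Agent.H7.IG

open Pool.Agent.H17.Omega Pool.Agent.H17.Omega.CTM Pool.Agent.H52.GX Pool.Agent.H52.GC

structure LE (W N A B : Set ZFSet.{0}) (δ γ κ : Ordinal.{0}) (e : ZFSet.{0} → ZFSet.{0}) : Prop where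
  hW : CTM W
  hN : CTM N
  sub : W ⊆ N
  om1 : IsOm1 W δ
  om1' : IsOm1 N δ
  lt : δ < γ
  lt' : γ < κ
  lev : Lev W A
  lev' : Lev N B
  el : Elem A B e
  gr : ∃ g ∈ N, ∀ z, z ∈ g ↔ ∃ y ∈ A, z = ZFSet.pair y (e y)
  mem : γ.toZFSet ∈ A
  fix : ∀ ξ < γ, e ξ.toZFSet = ξ.toZFSet
  crit : e γ.toZFSet = κ.toZFSet

/-- The set `a` is the domain, of size at most `δ` in `N`. -/
def Sml (N A : Set ZFSet.{0}) (δ : Ordinal.{0}) : Prop :=
  ∃ a ∈ N, (∀ x, x ∈ a ↔ x ∈ A) ∧ Cvr N δ.toZFSet a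

def BLP (N : Set ZFSet.{0}) (δ κ : Ordinal.{0}) : Prop :=
  ∀ y ∈ N, ∃ (W A B : Set ZFSet.{0}) (γ : Ordinal.{0}) (e : ZFSet.{0} → ZFSet.{0}), LE W N A B δ γ κ e ∧
    Sml N A δ ∧ Cov W N ∧ AP W N ∧ ∃ x ∈ A, e x = y

variable {W N A B : Set ZFSet.{0}} {δ γ κ : Ordinal.{0}} {e : ZFSet.{0} → ZFSet.{0}}

theorem LE.traA (h : LE W N A B δ γ κ e) : Tra A := h.lev.tra

theorem LE.traB (h : LE W N A B δ γ κ e) : Tra B := h.lev'.tra

theorem LE.memδ (h : LE W N A B δ γ κ e) : δ.toZFSet ∈ A :=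
  h.lev.tra _ h.mem _ (Ordinal.toZFSet_mem_toZFSet_iff.2 h.lt)

theorem LE.fix' (h : LE W N A B δ γ κ e) : ∀ ξ ≤ δ, e ξ.toZFSet = ξ.toZFSet :=
  fun ξ hξ => h.fix ξ (hξ.trans_lt h.lt)

end Pool.Agent.H7.IG
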