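import Pool.Agent.H7.IG.SideHa
import Pool.Agent.H7.IG.Tk7

/-!
# IG, Part 1: hulls and small nodes

`exists_Z`: apply `exists_hull` to `Φ'` which codes by pairs `(i, y)` (`i ∈ ω` a natural number `natZ i`): `Φ`; the elements of
countable sets (`(x, n) ↦` the `n`-th element of `x` in an enumeration chosen in `M`, `exists_choice`); the cuts
`(x, o) ↦ ct o x`; the components of pairs. `Y = V_η` with `η` limit is closed under all this. (Inputs `(i, y)` with `y ∈ Z` are in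
`Z` because `Z` is closed under finite subsets: `∅, {∅}, ...` natural numbers, pairs.)
`node_of_Z`: `ct o Z` is a small node for every `o ≤ κ` with `UCof M o` (and `o ∈ M`): `Z` is countable so `rk (ct o Z) < o`.
-/

set_option autoImplicit false
set_option linter.unusedVariables false
set_option linter.unusedSectionVars false
set_option linter.unusedSimpArgs false
set_option linter.unusedTactic false
set_option linter.unreachableTactic false

namespace Pool.Agent.H7.IG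

open Pool.Agent.H17.Omega Pool.Agent.H17.Omega.CTM Pool.Agent.H52.GX Pool.Agent.H52.GC

variable {M : Set ZFSet.{0}} (hM : CTM M) (κ : Ordinal.{0})

include hM

theorem node_of_Z {Z : ZFSet.{0}} (hZ : ZC M κ Z) {o : Ordinal.{0}} (ho : o.toZFSet ∈ M) (hoκ : o ≤ κ)
    (hu : UCof M o) : SmN M κ (ct o Z) ∧ (ct o Z).rank < o := by
  have hr := ucof_ct hM hZ.mem hZ.ctb hu
  refine ⟨⟨ct_mem hM hZ.mem o, hr.trans_le hoκ, hZ.ctb.mono ct_sub, ?_, ?_, ?_⟩, hr⟩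
  · intro x hx hxc y hy
    have hx' := mem_ct.1 hx
    exact mem_ct.2 ⟨hZ.sub x hx'.1 hxc hy, (ZFSet.rank_lt_of_mem hy).trans hx'.2⟩
  · intro x hx o' ho' ho'N
    have hx' := mem_ct.1 hx
    exact mem_ct.2 ⟨hZ.cut x hx'.1 o' ho' (ct_sub ho'N), (ZFSet.rank_mono ct_sub).trans_lt hx'.2⟩
  · intro a ha haN
    exact mem_ct.2 ⟨hZ.fin a ha fun z hz => ct_sub (haN hz), ucof_fin hM hu hZ.mem ha haN⟩

/-- Adding the node `ct o Z` to a condition `p ∈ Z` contained in `V_o` (Lemma M). -/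
theorem add_node {P : ZFSet.{0}} (hP : IsPK M κ P) {Z : ZFSet.{0}} (hZ : ZC M κ Z) {o : Ordinal.{0}}
    (ho : o.toZFSet ∈ M) (hoκ : o ≤ κ) (hu : UCof M o) {p : ZFSet.{0}} (hp : p ∈ P) (hpZ : p ∈ Z)
    (hpo : ∀ Q ∈ p, Q.rank < o) :
    ∃ u ∈ P, p ⊆ u ∧ ct o Z ∈ u ∧ (∀ Q ∈ u, Q.rank < o) ∧
      ∀ o', TrO M κ o' → o'.toZFSet ∈ p → ct o' (ct o Z) ∈ u := by
  obtain ⟨hN, hr⟩ := node_of_Z hM κ hZ ho hoκ hu
  have hcd := (hP.2 p).1 hp
  have hpN : p ⊆ ct o Z := fun z hz =>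
    mem_ct.2 ⟨hZ.sub p hpZ (tk7_fin_ctb hM (hM.mem_of_mem hP.1 hp) hcd.fin) hz, hpo z hz⟩
  obtain ⟨u, hu1, hu2⟩ := cond_M (ns_node hM κ) hcd hN hpN
  refine ⟨u, (hP.2 u).2 hu1, fun z hz => (hu2 z).2 (Or.inl hz), (hu2 _).2 (Or.inr (Or.inl rfl)), ?_, ?_⟩
  · intro Q hQ
    rcases (hu2 Q).1 hQ with h | rfl | ⟨o', _, _, rfl⟩
    · exact hpo Q h
    · exact hr
    · exact (ZFSet.rank_mono ct_sub).trans_lt hr
  · intro o' ho' ho'p
    exact (hu2 _).2 (Or.inr (Or.inr ⟨o', ho', ho'p, rfl⟩))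

end Pool.Agent.H7.IG
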