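import Pool.Agent.H7.IG.SideHa

/-!
# IG, Part 1: hulls and small nodes

`exists_Z`: apply `exists_hull` to `Φ'` which codes by pairs `(i, y)` (`i ∈ ω` a natural number `natZ i`): `Φ`; the elements of
countable sets (`(x, n) ↦` the `n`-th element of `x` in an enumeration chosen in `M`, `exists_choice`); the cuts
`(x, o) ↦ ct o x`; the components of pairs. `Y = V_η` with `η` limit is closed under all this. (Inputs `(i, y)` with `y ∈ Z` are in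
`Z` because `Z` is closed under finite subsets: `∅, {∅}, ...` natural numbers, pairs.)
`node_of_Z`: `ct o Z` is a small node for every `o ≤ κ` with `UCof M o` (and `o ∈ M`): `Z` is countable so `rk (ct o Z) < o`.
-/

set_option autoImplicit false
set_option linter.unusedVariables false
set_option linter.unusedSectionVars false
set_option linter.unusedSimpArgs false
set_option linter.unusedTactic false
set_option linter.unreachableTactic false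

namespace Pool.Agent.H7.IG

open Pool.Agent.H17.Omega Pool.Agent.H17.Omega.CTM Pool.Agent.H52.GX Pool.Agent.H52.GC

variable {M : Set ZFSet.{0}} (hM : CTM M) (κ : Ordinal.{0})

include hM

theorem dfn_ZC (hκ : κ.toZFSet ∈ M) : hM.Dfn (fun v : Fin 1 → M => ZC M κ (v 0).1) := by
  have hd : hM.Dfn (fun v : Fin 1 → M => Ctb M (v 0).1 ∧
      (∀ x : M, x.1 ∈ (v 0).1 → Ctb M x.1 → x.1 ⊆ (v 0).1) ∧
      (∀ x : M, x.1 ∈ (v 0).1 → ∀ t : M, (∃ o, TrO M κ o ∧ t.1 = o.toZFSet) → t.1 ∈ (v 0).1 →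
        ∃ c : M, (∃ o : Ordinal.{0}, t.1 = o.toZFSet ∧ c.1 = ct o x.1) ∧ c.1 ∈ (v 0).1) ∧
      ∀ a : M, FinZ a.1 → a.1 ⊆ (v 0).1 → a.1 ∈ (v 0).1) := by
    refine Dfn.and (dfn_Ctb hM (DT.var _)) (Dfn.and
      (Dfn.all (Dfn.imp ?_ (Dfn.imp (dfn_Ctb hM (DT.var _)) ?_))) (Dfn.and (Dfn.all (Dfn.imp ?_ (Dfn.all
      (Dfn.imp (Dfn.subst1 (P := fun t : M => ∃ o, TrO M κ o ∧ t.1 = o.toZFSet) (dfn_TrO hM κ hκ) (DT.var _))
      (Dfn.imp ?_ (Dfn.ex (Dfn.and (Dfn.subst3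
        (P := fun t x c : M => ∃ o : Ordinal.{0}, t.1 = o.toZFSet ∧ c.1 = ct o x.1) (dfn_ct hM) (DT.var _)
        (DT.var _) (DT.var _)) ?_))))))) (Dfn.all (Dfn.imp
      (Dfn.subst1 (P := fun a : M => FinZ a.1) (dfn_finZ hM) (DT.var _)) (Dfn.imp ?_ ?_)))))
    all_goals
      (repeat' first
        | exact DT.var _ | exact DT.last | exact DT.const _ | assumption
        | refine Dfn.mem ?_ ?_ | refine Dfn.subset ?_ ?_)
  refine hd.congr fun v => ?_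
  constructor
  · rintro ⟨h2, h3, h4, h5⟩
    refine ⟨(v 0).2, h2, ?_, ?_, ?_⟩
    · intro x hx hc
      exact h3 ⟨x, hM.mem_of_mem (v 0).2 hx⟩ hx hc
    · intro x hx o ho hov
      obtain ⟨c, ⟨o', h6, h7⟩, h8⟩ := h4 ⟨x, hM.mem_of_mem (v 0).2 hx⟩ hx ⟨o.toZFSet, ho.1⟩ ⟨o, ho, rfl⟩ hov
      rw [toZFSet_inj.1 h6, ← h7]
      exact h8
    · intro a ha hav
      exact h5 ⟨a, ha.mem (X := a) hM (fun z hz => hM.mem_of_mem (v 0).2 (hav hz))⟩ ha hav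
  · intro h
    refine ⟨h.ctb, fun x hx hc => h.sub x.1 hx hc, ?_, fun a ha hav => h.fin a.1 ha hav⟩
    rintro x hx t ⟨o, ho, hto⟩ htv
    have h6 : ct o x.1 ∈ (v 0).1 := h.cut x.1 hx o ho (by rw [← hto]; exact htv)
    exact ⟨⟨ct o x.1, hM.mem_of_mem (v 0).2 h6⟩, ⟨o, hto, rfl⟩, h6⟩

theorem dfn_PhC {Φ : M → M → Prop} (hΦ : hM.Dfn (fun v : Fin 2 → M => Φ (v 0) (v 1))) :
    hM.Dfn (fun v : Fin 2 → M => PhC Φ (v 0).1 (v 1).1) := by
  show hM.Dfn (fun v : Fin 2 → M => ∀ y z : M, y.1 ∈ (v 1).1 → z.1 ∈ (v 0).1 → Φ y z →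
    ∃ z' : M, z'.1 ∈ (v 1).1 ∧ z'.1 ∈ (v 0).1 ∧ Φ y z')
  refine Dfn.all (Dfn.all (Dfn.imp (Dfn.mem (DT.var _) (DT.var _)) (Dfn.imp (Dfn.mem (DT.var _) (DT.var _))
    (Dfn.imp (Dfn.subst2 hΦ (DT.var _) (DT.var _)) (Dfn.ex (Dfn.and (Dfn.mem (DT.var _) (DT.var _))
    (Dfn.and (Dfn.mem (DT.var _) (DT.var _)) (Dfn.subst2 hΦ (DT.var _) (DT.var _)))))))))

end Pool.Agent.H7.IG
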