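import Pool.Agent.H7.IG.SideH
import Pool.Agent.H7.IG.KeyD

/-!
# IG, Part 1: the poset is strongly proper over `M`

`SPR M M P`: given `Y`, `Φ`, `s₀` take a limit ordinal `η > κ` of `M` with `Y ⊆ Y' = V_η` (`exists_Lv`) and `Z'` from `exists_Z` for
`Φ'(y, z) :↔ z ∈ Y ∧ Φ(y, z)` and `A = {s₀}`. `Z := Z' ∩ Y`. `N := ct κ Z'` is a small node (`UCof M κ`), `s₀ ⊆ N` (finite sets are
countable; `s₀ ∈ Z'`, its members have rank `< κ`). `s := ` the condition of `add_node` (`o = κ`). `SG Z P s₀ s`: for `s' ⊇ s` in `P`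
let `r = s' ∩ N` (`cond_inter`); `r ∈ Z'` (finite subset), `r ∈ P ⊆ Y`. For `t ∈ Z ∩ P`, `r ⊆ t`: `t ⊆ Z'` (finite), so `t ⊆ N`; `cond_B` for
`s', N, t`.
-/

set_option autoImplicit false
set_option linter.unusedVariables false
set_option linter.unusedSectionVars false
set_option linter.unusedSimpArgs false
set_option linter.unusedTactic false
set_option linter.unreachableTactic false

namespace Pool.Agent.H7.IG

open Pool.Agent.H17.Omega Pool.Agent.H17.Omega.CTM Pool.Agent.H52.GX Pool.Agent.H52.GC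

theorem side_spr0 {M : Set ZFSet.{0}} (hM : CTM M) {κ : Ordinal.{0}} (hκ : κ.toZFSet ∈ M) (hu : UCof M κ)
    {P : ZFSet.{0}} (hP : IsPK M κ P) : SPR M M P := by
  intro hW Y hY hPY hYfin Φ hΦ s₀ hs₀
  have hs₀Y := hPY hs₀
  have hs₀M := hM.mem_of_mem hY hs₀Y
  have hNS := ns_node hM κ
  -- the ranks of the members of a condition
  have hrk : ∀ s ∈ P, ∀ Q ∈ s, Q.rank < κ := by
    intro s hs Q hQ
    rcases ((hP.2 s).1 hs).node Q hQ with h1 | ⟨o, h1, rfl⟩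
    · exact h1.rk
    · rw [Ordinal.rank_toZFSet]
      exact h1.2.1
  have hctb : ∀ s ∈ P, Ctb M s := by
    intro s hs
    exact tk7_fin_ctb hM (hM.mem_of_mem hP.1 hs) ((hP.2 s).1 hs).fin
  -- a limit level
  obtain ⟨η, hη, hxη, hlim, _⟩ := hM.exists_closed (Φ := fun _ _ : M => True)
    (Dfn.congr (fun v => ⟨fun _ => trivial, fun _ => trivial⟩) (Dfn.const True)) (fun z => ⟨z, trivial⟩)
    ⟨ZFSet.pair Y κ.toZFSet, hM.pair_mem hY hκ⟩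
  have hpr : ∀ a b : ZFSet.{0}, a.rank < (ZFSet.pair a b).rank ∧ b.rank < (ZFSet.pair a b).rank := by
    intro a b
    have h1 : ({a, b} : ZFSet.{0}) ∈ ZFSet.pair a b := by
      rw [ZFSet.pair]
      exact ZFSet.mem_pair.2 (Or.inr rfl)
    have h2 := ZFSet.rank_lt_of_mem h1
    exact ⟨(ZFSet.rank_lt_of_mem (ZFSet.mem_pair.2 (Or.inl rfl))).trans h2,
      (ZFSet.rank_lt_of_mem (ZFSet.mem_pair.2 (Or.inr rfl))).trans h2⟩
  have hYη : Y.rank < η := (hpr Y κ.toZFSet).1.trans hxη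
  have hκη : κ < η := by
    have h1 := (hpr Y κ.toZFSet).2.trans hxη
    rwa [Ordinal.rank_toZFSet] at h1
  obtain ⟨Y', hY'M, hY'⟩ := exists_Lv hM hη
  have hYY' : Y ⊆ Y' := fun z hz => (hY' z).2 ⟨hM.mem_of_mem hY hz, (ZFSet.rank_lt_of_mem hz).trans hYη⟩
  have hfs₀ : FinZ ({s₀} : ZFSet.{0}) := ⟨{s₀}, fun z => by simp⟩
  obtain ⟨Z', hZC, hAZ, hZY, hPh⟩ := exists_Z hM κ hκ hη hlim hκη
    (Φ := fun y z => z.1 ∈ (⟨Y, hY⟩ : M).1 ∧ Φ y z) (Dfn.and (Dfn.mem (DT.var _) (DT.const _)) hΦ)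
    hY' hY'M (A := {s₀}) (hM.singleton_mem hs₀M) (by
      intro z hz
      rw [ZFSet.mem_singleton] at hz
      rw [hz]
      exact hYY' hs₀Y) (tk7_fin_ctb hM (hM.singleton_mem hs₀M) hfs₀)
  have hs₀Z : s₀ ∈ Z' := hAZ (ZFSet.mem_singleton.2 rfl)
  obtain ⟨Z, hZM, hZ⟩ := hM.exists_sep (P := fun z => z.1 ∈ (⟨Y, hY⟩ : M).1) (Dfn.mem (DT.var _) (DT.const _))
    hZC.mem
  have hZ' : ∀ z, z ∈ Z ↔ z ∈ Z' ∧ z ∈ Y := by
    intro z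
    rw [hZ]
    exact and_congr_right fun h1 => ⟨fun ⟨_, h2⟩ => h2, fun h2 => ⟨hM.mem_of_mem hZC.mem h1, h2⟩⟩
  -- the node
  obtain ⟨hSm, hNrk⟩ := node_of_Z hM κ hZC hκ le_rfl hu
  obtain ⟨u, huP, hs₀u, hNu, _, _⟩ := add_node hM κ hP hZC hκ le_rfl hu hs₀ hs₀Z (hrk s₀ hs₀)
  have hsubN : ∀ s ∈ P, s ∈ Z' → s ⊆ ct κ Z' := by
    intro s hs hsZ z hz
    exact mem_ct.2 ⟨hZC.sub s hsZ (hctb s hs) hz, hrk s hs z hz⟩
  refine ⟨Z, hZM, fun z hz => ((hZ' z).1 hz).2, hZC.ctb.mono fun z hz => ((hZ' z).1 hz).1, ?_,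
    (hZ' _).2 ⟨hs₀Z, hs₀Y⟩, ?_, u, huP, hs₀u, ?_⟩
  · intro a ha haZ
    exact (hZ' a).2 ⟨hZC.fin a ha fun z hz => ((hZ' z).1 (haZ hz)).1,
      hYfin a ha fun z hz => ((hZ' z).1 (haZ hz)).2⟩
  · intro y z hy hz hyz
    obtain ⟨z', h1, h2, h3, h4⟩ := hPh y z ((hZ' _).1 hy).1 (hYY' hz) ⟨hz, hyz⟩
    exact ⟨z', (hZ' _).2 ⟨h1, h3⟩, h4⟩
  · intro s' hs' hus'
    have hcd := (hP.2 s').1 hs'
    have hNs' := hus' hNu
    have hr := cond_inter hNS hcd hNs' hSm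
    have hrP : s' ∩ ct κ Z' ∈ P := (hP.2 _).2 hr
    have hrZ : s' ∩ ct κ Z' ∈ Z' := hZC.fin _ hr.fin fun z hz => ct_sub (ZFSet.mem_inter.1 hz).2
    refine ⟨s' ∩ ct κ Z', (hZ' _).2 ⟨hrZ, hPY hrP⟩, hrP, ?_, fun z hz => (ZFSet.mem_inter.1 hz).1, ?_⟩
    · intro z hz
      exact ZFSet.mem_inter.2 ⟨hus' (hs₀u hz), hsubN s₀ hs₀ hs₀Z hz⟩
    · intro t ht htP hrt
      obtain ⟨w, hw, hw'⟩ := cond_B hNS hcd ((hP.2 t).1 htP) hNs' hSm (hsubN t htP ((hZ' _).1 ht).1)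
        (fun Q hQ hQN => hrt (ZFSet.mem_inter.2 ⟨hQ, hQN⟩))
      exact ⟨w, (hP.2 w).2 hw, fun z hz => (hw' z).2 (Or.inl hz), fun z hz => (hw' z).2 (Or.inr (Or.inl hz))⟩

end Pool.Agent.H7.IG
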