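import Pool.Agent.H7.IG.SideC
import Pool.Agent.H7.IG.SideH
import Pool.Agent.H7.IG.Gx
import Pool.Agent.H95.KT.Cov
import Pool.Agent.H7.IG.SideS0

/-!
# IG, Part 1: `κ` becomes `ω₂`: levels below `κ` have size `ω₁` in `M[G]`

`M[G] = M₀`; `Cov M M₀` (`SPR.cov`, `side_spr0`), so `ω₁` is `δ` in `M₀`. Let `α < κ`. The set of the `s ∈ P` such that for some
`α' ≥ α`, `α' + δ` and `α' + δ + δ` are members of `s` is dense (`cond_top` twice, `α'` larger than all ranks in `s`; `tr_add`), so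
(definable over `M`) there are `o₁ = α' + δ`, `o₂ = o₁ + δ` in some `s₁ ∈ G`. Let `𝒩 ∈ M₀` be the set of the small nodes `N` with
`o₁ ∈ N`, `rk N < o₂` that are members of some `s ∈ G`. (i) For `N, N' ∈ 𝒩`, `rk N < rk N'`: `N ∈ N'`, by (C2) in a common `s ∈ G`,
`s₁ ⊆ s`: a witness `o` would satisfy `o₁ < rk N < o < rk N' < o₂` (`no_tr`). Same rank: equal (C1). (ii) Every `x ∈ V_{o₂}` of `M`
is in some `N ∈ 𝒩`: density below `s₁`: given `s ⊇ s₁` let `p = ct o₂ s`, `Z` from `exists_Z` with `p, x ∈ Z`, `u` from `add_node` for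
`o = o₂`; `s ∪ u ∈ P` by Lemma A. (iii) `𝒩` has size `≤ δ` in `M₀`: otherwise (or if it is uncountable) take an injective
`f : δ → 𝒩` in `M₀` (`exists_inj_om1`). Every `N ∈ 𝒩` satisfies `N = f ξ` or `N ∈ f ξ` for some `ξ` (otherwise all `f ξ ∈ N`, and `N` is
countable, contradiction). So `𝒩 ⊆ ⋃_ξ (f ξ ∪ {f ξ})`: `cvr_union_om1`. (iv) `V_{o₂} ⊆ ⋃ 𝒩`: `cvr_union_om1`.
-/

set_option autoImplicit false
set_option linter.unusedVariables false
set_option linter.unusedSectionVars false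
set_option linter.unusedSimpArgs false
set_option linter.unusedTactic false
set_option linter.unreachableTactic false

namespace Pool.Agent.H7.IG

open Pool.Agent.H17.Omega Pool.Agent.H17.Omega.CTM Pool.Agent.H52.GX Pool.Agent.H52.GC

/-- Adding an element to a countable set. -/
theorem sideA_insert {N : Set ZFSet.{0}} (hN : CTM N) {a X : ZFSet.{0}} (ha : a ∈ N) (hX : Ctb N X) :
    Ctb N (insert a X) := by
  obtain ⟨f, hf, hf'⟩ := hX
  have h2 : seqZ (fun n => match n with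
      | 0 => a
      | n + 1 => f n) ∈ N := by
    refine seqZ_mem_of_dfn hN (F := fun n y => (n.1 = ∅ ∧ y = ⟨_, ha⟩) ∨
      ∃ m : N, n.1 = insert m.1 m.1 ∧ ZFSet.pair m.1 y.1 ∈ (⟨_, hf⟩ : N).1) ?_ ?_ ?_
    · (repeat' first
          | exact DT.var _ | exact DT.last | exact DT.const _ | assumption
          | refine Dfn.pairMem ?_ ?_ ?_ | refine Dfn.isPair ?_ ?_ ?_ | refine Dfn.mem ?_ ?_
          | refine Dfn.eqv ?_ ?_ | refine Dfn.eq ?_ ?_ | refine Dfn.subset ?_ ?_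
          | refine Dfn.isEmpty ?_ | refine Dfn.isTrans ?_ | refine Dfn.isOrd ?_
          | refine Dfn.isNat ?_ | refine Dfn.and ?_ ?_ | refine Dfn.or ?_ ?_
          | refine Dfn.iff ?_ ?_ | refine Dfn.not ?_ | refine Dfn.imp ?_ ?_ | refine Dfn.all ?_
          | refine Dfn.ex ?_ | exact Dfn.false')
      exact Dfn.isInsert (DT.var _) (DT.var _) (DT.var _)
    · intro n y
      cases n with
      | zero =>
        constructor
        · rintro (⟨_, rfl⟩ | ⟨m, h3, _⟩)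
          · rfl
          · exfalso
            have h4 : (∅ : ZFSet.{0}) = insert m.1 m.1 := h3
            have h5 : m.1 ∈ (∅ : ZFSet.{0}) := by rw [h4]; exact ZFSet.mem_insert _ _
            exact ZFSet.notMem_empty _ h5
        · intro h3
          exact Or.inl ⟨rfl, Subtype.ext h3⟩
      | succ n =>
        constructor
        · rintro (⟨h3, _⟩ | ⟨m, h3, h4⟩)
          · exfalso
            have h4 : natZ.{0} (n + 1) = ∅ := h3
            have h5 : natZ.{0} n ∈ natZ.{0} (n + 1) := natZ_mem.2 (Nat.lt_succ_self n)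
            rw [h4] at h5
            exact ZFSet.notMem_empty _ h5
          · have h5 : m.1 = natZ n := by
              have h6 : natZ.{0} (n + 1) = insert m.1 m.1 := h3
              have h7 : m.1 ∈ natZ.{0} (n + 1) := by rw [h6]; exact ZFSet.mem_insert _ _
              obtain ⟨k, hk, hk'⟩ := mem_natZ.1 h7
              have h8 : natZ n ∈ natZ.{0} (n + 1) := natZ_mem.2 (Nat.lt_succ_self n)
              rw [h6, ZFSet.mem_insert_iff] at h8
              rcases h8 with h8 | h8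
              · exact h8.symm
              · exfalso
                rw [hk', natZ_mem] at h8
                omega
            rw [h5] at h4
            exact pair_mem_seqZ.1 h4
        · intro h3
          exact Or.inr ⟨nz hN n, rfl, pair_mem_seqZ.2 h3⟩
    · intro n
      cases n with
      | zero => exact ha
      | succ n => exact hN.seqZ_val hf n
  refine ⟨_, h2, ?_⟩
  intro x hx
  rw [ZFSet.mem_insert_iff] at hx
  rcases hx with rfl | hx
  · exact ⟨0, rfl⟩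
  · obtain ⟨n, hn⟩ := hf' x hx
    exact ⟨n + 1, hn⟩

/-- An injective image of `ω₁` is not countable. -/
theorem sideA_unc {N : Set ZFSet.{0}} (hN : CTM N) {δ : Ordinal.{0}} (hδ : IsOm1 N δ) {X Y f : ZFSet.{0}}
    (hX : X ∈ N) (hf : f ∈ N) (hfn : Fn f δ.toZFSet Y)
    (hinj : ∀ x x' y : ZFSet.{0}, ZFSet.pair x y ∈ f → ZFSet.pair x' y ∈ f → x = x')
    (h : ∀ i ∈ δ.toZFSet, ap f i ∈ X) : ¬ Ctb N X := by
  intro hc
  apply hδ.unc
  rw [ctb_iff_cvr' hN] at hc ⊢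
  refine Cvr.trans hN hN.omZ_mem hX hδ.mem hc ?_
  refine cvr_of_dfn hN (F := fun y x => ZFSet.pair x.1 y.1 ∈ (⟨f, hf⟩ : N).1)
    (Dfn.pairMem (DT.var _) (DT.var _) (DT.const _)) hX hδ.mem ?_ ?_
  · intro y hy x x' h1 h2
    exact Subtype.ext (hinj _ _ _ h1 h2)
  · intro x hx
    exact ⟨⟨ap f x.1, hN.mem_of_mem hX (h _ hx)⟩, h _ hx, (hfn.ap_mem hx).2⟩

/-- A set whose elements are linearly ordered by membership and countable is of size at most `ω₁`. -/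
theorem sideA_chain {N : Set ZFSet.{0}} (hN : CTM N) {δ : Ordinal.{0}} (hδ : IsOm1 N δ) {X : ZFSet.{0}}
    (hX : X ∈ N) (hc : ∀ x ∈ X, Ctb N x) (hl : ∀ x ∈ X, ∀ y ∈ X, x = y ∨ x ∈ y ∨ y ∈ x) :
    Cvr N δ.toZFSet X := by
  by_cases h : Ctb N X
  · exact ctb_cvr_om1 hN hδ h
  obtain ⟨f, hf, hfn, hinj⟩ := exists_inj_om1 hN hδ hX h
  obtain ⟨r, hr, hr'⟩ := hN.exists_sep (P := fun z => ∃ x y y' : N, z.1 = ZFSet.pair x.1 y.1 ∧
      ZFSet.pair x.1 y'.1 ∈ (⟨f, hf⟩ : N).1 ∧ (y = y' ∨ y.1 ∈ y'.1)) (by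
        (repeat' first
          | exact DT.var _ | exact DT.last | exact DT.const _ | assumption
          | refine Dfn.pairMem ?_ ?_ ?_ | refine Dfn.isPair ?_ ?_ ?_ | refine Dfn.mem ?_ ?_
          | refine Dfn.eqv ?_ ?_ | refine Dfn.eq ?_ ?_ | refine Dfn.subset ?_ ?_
          | refine Dfn.and ?_ ?_ | refine Dfn.or ?_ ?_ | refine Dfn.iff ?_ ?_ | refine Dfn.not ?_
          | refine Dfn.imp ?_ ?_ | refine Dfn.all ?_ | refine Dfn.ex ?_ | exact Dfn.false'))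
      (hN.prod_mem hδ.mem hX)
  have hrm : ∀ x y, ZFSet.pair x y ∈ r ↔ x ∈ δ.toZFSet ∧ y ∈ X ∧ ∃ y', ZFSet.pair x y' ∈ f ∧ (y = y' ∨ y ∈ y') := by
    intro x y
    rw [hr', ZFSet.pair_mem_prod]
    constructor
    · rintro ⟨h1, _, x', y', y'', h2, h3, h4⟩
      have h5 := ZFSet.pair_injective h2
      obtain ⟨h6, h7⟩ := h5
      refine ⟨h1.1, h1.2, y''.1, by rw [h6]; exact h3, ?_⟩
      rcases h4 with h4 | h4
      · left; rw [h7, h4]
      · right; rw [h7]; exact h4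
    · rintro ⟨h1, h2, y', h3, h4⟩
      have hx : x ∈ N := hN.mem_of_mem hδ.mem h1
      have hy : y ∈ N := hN.mem_of_mem hX h2
      have hy' : y' ∈ N := (hN.of_pair_mem (hN.mem_of_mem hf h3)).2
      refine ⟨⟨h1, h2⟩, hN.pair_mem hx hy, ⟨x, hx⟩, ⟨y, hy⟩, ⟨y', hy'⟩, rfl, h3, ?_⟩
      rcases h4 with h4 | h4
      · exact Or.inl (Subtype.ext h4)
      · exact Or.inr h4
  refine cvr_union_om1 hN hδ hδ.mem hr hX (cvr_of_subset hN hδ.mem (fun x hx => hx)) ?_ ?_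
  · intro i hi
    obtain ⟨h1, h2⟩ := hfn.ap_mem hi
    have h3 : ap f i ∈ N := hN.mem_of_mem hX h1
    refine ⟨insert (ap f i) (ap f i), hN.insert_mem h3 h3,
      ctb_cvr_om1 hN hδ (sideA_insert hN h3 (hc _ h1)), ?_⟩
    intro x hx hix
    obtain ⟨_, _, y', h4, h5⟩ := (hrm _ _).1 hix
    have h6 : ap f i = y' := hfn.ap_eq h4
    rw [ZFSet.mem_insert_iff, h6]
    exact h5
  · intro x hx
    by_contra hcon
    push Not at hcon
    have h1 : ∀ i ∈ δ.toZFSet, ap f i ∈ x := by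
      intro i hi
      obtain ⟨h2, h3⟩ := hfn.ap_mem hi
      rcases hl x hx _ h2 with h4 | h4 | h4
      · exact (hcon i hi ((hrm _ _).2 ⟨hi, hx, _, h3, Or.inl h4⟩)).elim
      · exact (hcon i hi ((hrm _ _).2 ⟨hi, hx, _, h3, Or.inr h4⟩)).elim
      · exact h4
    exact sideA_unc hN hδ (hN.mem_of_mem hX hx) hf hfn hinj h1 (hc x hx)

theorem side_small {M : Set ZFSet.{0}} (hM : CTM M) {κ : Ordinal.{0}} (hκ : Inac M κ) {P G : ZFSet.{0}}
    (hP : IsPK M κ P) (hG : Gen M P G) {δ : Ordinal.{0}} (hδ : IsOm1 M δ) {α : Ordinal.{0}} (hα : α < κ)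
    {K : ZFSet.{0}} (hK : ∀ x, x ∈ K ↔ x ∈ Lv M α) : Cvr (Xt M G) δ.toZFSet K := by
  have rk : ∀ a : Ordinal.{0}, a.toZFSet.rank = a := Ordinal.rank_toZFSet
  have hns := ns_node hM κ
  have hW : CTM (Xt M G) := hG.ctm hM hP.1
  have hMW : M ⊆ Xt M G := hG.sub_xt hM hP.1
  have hGW : G ∈ Xt M G := hG.mem_xt hM hP.1
  have hu : UCof M κ := Inac.ucof hM hκ
  have hPM : ∀ s ∈ P, s ∈ M := fun s hs => hM.mem_of_mem hP.1 hs
  have hαM : α.toZFSet ∈ M := hM.toZFSet_mem_of_le hα.le hκ.mem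
  have hcov : Cov M (Xt M G) :=
    Pool.Agent.H95.KT.cov hM hM (fun x hx => hx) (fun o ho => ho) hP.1 ⟨P, hP.1, fun x hx => hx⟩ (side_spr0 hM hκ.mem hu hP) hG
  have hδW : IsOm1 (Xt M G) δ := Cov.om1 hMW hcov hδ
  have hTr : hM.Dfn (fun v : Fin 1 → M => ∃ o, TrO M κ o ∧ (v 0).1 = o.toZFSet) := dfn_TrO hM κ hκ.mem
  -- ranks of conditions
  have hrkc : ∀ s ∈ P, s.rank < κ := by
    intro s hs
    have hc := (hP.2 s).1 hs
    have h1 : s ∈ Lv M κ := by
      refine finZ_mem_Lv hM hκ.lim hu.1 hc.fin fun x hx => ⟨hM.mem_of_mem (hPM s hs) hx, ?_⟩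
      rcases hc.node x hx with h2 | ⟨o, ho, rfl⟩
      · exact h2.rk
      · rw [rk]; exact ho.2.1
    exact h1.2
  -- Step 1
  obtain ⟨s₁, hs₁G, o₁, o₂, ho₁, ho₂, ho₁s, ho₂s, hαo, ho12, hno⟩ : ∃ s₁ ∈ G, ∃ o₁ o₂ : Ordinal.{0},
      TrO M κ o₁ ∧ TrO M κ o₂ ∧ o₁.toZFSet ∈ s₁ ∧ o₂.toZFSet ∈ s₁ ∧ α < o₁ ∧ o₁ < o₂ ∧
        ∀ o, TrO M κ o → o₁ < o → o < o₂ → False := by
    obtain ⟨p, hp⟩ := hG.ne
    obtain ⟨q, hq, hpq, x, y, hx, hy, ⟨o₁, ho₁, hxo⟩, ⟨o₂, ho₂, hyo⟩, h1, h2, h3⟩ := hG.meet hM hP.1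
      (D := fun q => ∃ x y : M, x.1 ∈ q.1 ∧ y.1 ∈ q.1 ∧ (∃ o, TrO M κ o ∧ x.1 = o.toZFSet) ∧
        (∃ o, TrO M κ o ∧ y.1 = o.toZFSet) ∧ (⟨α.toZFSet, hαM⟩ : M).1 ∈ x.1 ∧ x.1 ∈ y.1 ∧
        ∀ z : M, (∃ o, TrO M κ o ∧ z.1 = o.toZFSet) → ¬ (x.1 ∈ z.1 ∧ z.1 ∈ y.1)) (by
        refine Dfn.ex (Dfn.ex ?_)
        refine Dfn.and (Dfn.mem (DT.var _) (DT.var _)) (Dfn.and (Dfn.mem (DT.var _) (DT.var _)) ?_)
        refine Dfn.and (Dfn.subst1 (P := fun x => ∃ o, TrO M κ o ∧ x.1 = o.toZFSet) hTr (DT.var _)) ?_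
        refine Dfn.and (Dfn.subst1 (P := fun x => ∃ o, TrO M κ o ∧ x.1 = o.toZFSet) hTr (DT.var _)) ?_
        refine Dfn.and (Dfn.mem (DT.const _) (DT.var _)) (Dfn.and (Dfn.mem (DT.var _) (DT.var _)) ?_)
        refine Dfn.all (Dfn.imp ?_ (Dfn.not (Dfn.and (Dfn.mem (DT.var _) (DT.var _))
          (Dfn.mem (DT.var _) (DT.var _)))))
        exact Dfn.subst1 (P := fun x => ∃ o, TrO M κ o ∧ x.1 = o.toZFSet) hTr (DT.var _)) hp (by
        intro r hr hpr
        have hrc := (hP.2 r).1 hr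
        have hm : max α r.rank < κ := max_lt hα (hrkc r hr)
        have ho₁ := tr_add hM hκ hδ hm
        have ho₂ := tr_add hM hκ hδ ho₁.2.1
        have hδ0 : 0 < δ := by
          have := IsOm1.omega_lt hM hδ 0
          simpa using this
        have hlt1 : max α r.rank < max α r.rank + δ := by
          conv_lhs => rw [← add_zero (max α r.rank)]
          exact (add_lt_add_iff_left _).2 hδ0
        have hlt2 : max α r.rank + δ < max α r.rank + δ + δ := by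
          conv_lhs => rw [← add_zero (max α r.rank + δ)]
          exact (add_lt_add_iff_left _).2 hδ0
        have hc1 := cond_top hns hrc ho₁ fun Q hQ =>
          ((ZFSet.rank_lt_of_mem hQ).trans_le (le_max_right _ _)).trans hlt1
        have hc2 := cond_top hns hc1 ho₂ fun Q hQ => by
          rcases ZFSet.mem_insert_iff.1 hQ with rfl | hQ
          · rw [rk]; exact hlt2
          · exact (((ZFSet.rank_lt_of_mem hQ).trans_le (le_max_right _ _)).trans hlt1).trans hlt2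
        have hq := (hP.2 _).2 hc2
        refine ⟨⟨_, hPM _ hq⟩, hq, fun z hz => ZFSet.mem_insert_iff.2 (Or.inr (ZFSet.mem_insert_iff.2
          (Or.inr hz))), ⟨_, ho₁.1⟩, ⟨_, ho₂.1⟩, ZFSet.mem_insert_iff.2 (Or.inr (ZFSet.mem_insert _ _)),
          ZFSet.mem_insert _ _, ⟨_, ho₁, rfl⟩, ⟨_, ho₂, rfl⟩, ?_, ?_, ?_⟩
        · exact Ordinal.toZFSet_mem_toZFSet_iff.2 ((le_max_left _ _).trans_lt hlt1)
        · exact Ordinal.toZFSet_mem_toZFSet_iff.2 hlt2
        · rintro z ⟨o, ho, hz⟩ ⟨h1, h2⟩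
          rw [hz] at h1 h2
          exact no_tr hM hκ hδ ho₁.1 (Ordinal.toZFSet_mem_toZFSet_iff.1 h1)
            (Ordinal.toZFSet_mem_toZFSet_iff.1 h2) ho)
    rw [hxo] at hx h1 h2
    rw [hyo] at hy h2
    refine ⟨q.1, hq, o₁, o₂, ho₁, ho₂, hx, hy, Ordinal.toZFSet_mem_toZFSet_iff.1 h1,
      Ordinal.toZFSet_mem_toZFSet_iff.1 h2, ?_⟩
    intro o ho h4 h5
    refine h3 ⟨_, ho.1⟩ ⟨o, ho, rfl⟩ ⟨?_, ?_⟩
    · rw [hxo]; exact Ordinal.toZFSet_mem_toZFSet_iff.2 h4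
    · rw [hyo]; exact Ordinal.toZFSet_mem_toZFSet_iff.2 h5
  -- the set of nodes
  obtain ⟨K₂, hK₂, hK₂'⟩ := exists_Lv hM ho₂.1
  obtain ⟨S, hS, hS'⟩ := hM.exists_sep (P := fun x => SmN M κ x.1 ∧ (⟨o₁.toZFSet, ho₁.1⟩ : M).1 ∈ x.1)
    (Dfn.and (dfn_SmN hM κ hκ.mem) (Dfn.mem (DT.const _) (DT.var _))) hK₂
  have hSm : ∀ x, x ∈ S ↔ SmN M κ x ∧ o₁.toZFSet ∈ x ∧ x.rank < o₂ := by
    intro x
    rw [hS', hK₂']
    constructor
    · rintro ⟨h1, _, h2, h3⟩
      exact ⟨h2, h3, h1.2⟩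
    · rintro ⟨h1, h2, h3⟩
      exact ⟨⟨h1.mem, h3⟩, h1.mem, h1, h2⟩
  obtain ⟨X, hX, hX'⟩ := hW.exists_sep (P := fun x => x.1 ∈ (⟨S, hMW hS⟩ : Xt M G).1)
    (Dfn.mem (DT.var _) (DT.const _)) (hW.sUnion_mem hGW)
  have hXm : ∀ x, x ∈ X ↔ x ∈ S ∧ ∃ s ∈ G, x ∈ s := by
    intro x
    rw [hX', ZFSet.mem_sUnion]
    constructor
    · rintro ⟨⟨s, h1, h2⟩, _, h3⟩
      exact ⟨h3, s, h1, h2⟩
    · rintro ⟨h1, s, h2, h3⟩
      exact ⟨⟨s, h2, h3⟩, hMW (hM.mem_of_mem hS h1), h1⟩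
  have hXc : ∀ x ∈ X, Ctb (Xt M G) x := fun x hx => ctb_up hMW ((hSm x).1 ((hXm x).1 hx).1).1.ctb
  have hlin : ∀ x ∈ X, ∀ y ∈ X, x = y ∨ x ∈ y ∨ y ∈ x := by
    have key : ∀ x ∈ X, ∀ y ∈ X, x.rank < y.rank → x ∈ y := by
      intro x hx y hy hlt
      obtain ⟨hxS, s, hs, hxs⟩ := (hXm x).1 hx
      obtain ⟨hyS, t, ht, hyt⟩ := (hXm y).1 hy
      obtain ⟨hx1, hx2, hx3⟩ := (hSm x).1 hxS
      obtain ⟨hy1, hy2, hy3⟩ := (hSm y).1 hyS
      obtain ⟨u, hu, hsu, htu⟩ := hG.dir s hs t ht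
      have hcu := (hP.2 u).1 (hG.sub u hu)
      rcases hcu.c2 y (htu hyt) hy1 x (hsu hxs) hlt with h1 | ⟨o, ho, h1, h2, h3, h4⟩
      · exact h1
      · exfalso
        refine hno o ho ?_ ?_
        · have h5 := ZFSet.rank_lt_of_mem hx2
          rw [rk] at h5
          exact h5.trans h4
        · have h5 := ZFSet.rank_lt_of_mem h2
          rw [rk] at h5
          exact h5.trans hy3
    intro x hx y hy
    rcases lt_trichotomy x.rank y.rank with h1 | h1 | h1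
    · exact Or.inr (Or.inl (key x hx y hy h1))
    · left
      obtain ⟨hxS, s, hs, hxs⟩ := (hXm x).1 hx
      obtain ⟨hyS, t, ht, hyt⟩ := (hXm y).1 hy
      obtain ⟨u, hu, hsu, htu⟩ := hG.dir s hs t ht
      exact ((hP.2 u).1 (hG.sub u hu)).c1 x (hsu hxs) y (htu hyt) h1
    · exact Or.inr (Or.inr (key y hy x hx h1))
  have hXδ : Cvr (Xt M G) δ.toZFSet X := sideA_chain hW hδW hX hXc hlin
  -- every element of the level is in some node
  have hcovx : ∀ x ∈ M, x.rank < o₂ → ∃ N ∈ X, x ∈ N := by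
    intro x hxM hxo
    obtain ⟨q, hq, _, N, hN1, hN2, hN3⟩ := hG.meet hM hP.1
      (D := fun q => ∃ N : M, N.1 ∈ q.1 ∧ N.1 ∈ (⟨S, hS⟩ : M).1 ∧ (⟨x, hxM⟩ : M).1 ∈ N.1) (by
        refine Dfn.ex (Dfn.and (Dfn.mem (DT.var _) (DT.var _)) (Dfn.and (Dfn.mem (DT.var _) (DT.const _))
          (Dfn.mem (DT.const _) (DT.var _))))) hs₁G (by
        intro r hr hsr
        have hrc := (hP.2 r).1 hr
        have hpc : Cd (SmN M κ) (TrO M κ) (ct o₂ r) := cond_cut hns hrc o₂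
        have hp : ct o₂ r ∈ P := (hP.2 _).2 hpc
        have hpM := hPM _ hp
        obtain ⟨η, hη, hκη, hlim, _⟩ := hM.exists_closed (Φ := fun _ _ => True) (Dfn.const True)
          (fun z => ⟨z, trivial⟩) ⟨κ.toZFSet, hκ.mem⟩
        have hκη' : κ < η := by
          have h1 : κ.toZFSet.rank < η := hκη
          rwa [rk] at h1
        obtain ⟨Y, hYM, hY⟩ := exists_Lv hM hη
        have hA : ({ct o₂ r, x} : ZFSet.{0}) ∈ M := hM.upair_mem hpM hxM
        have hAY : ({ct o₂ r, x} : ZFSet.{0}) ⊆ Y := by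
          intro z hz
          rw [ZFSet.mem_pair] at hz
          rcases hz with rfl | rfl
          · exact (hY _).2 ⟨hpM, (hrkc _ hp).trans hκη'⟩
          · exact (hY _).2 ⟨hxM, (hxo.trans ho₂.2.1).trans hκη'⟩
        have hAc : Ctb M ({ct o₂ r, x} : ZFSet.{0}) := by
          have h0 : Ctb M (∅ : ZFSet.{0}) := by
            obtain ⟨f, hf, _⟩ := ctb_om hM
            exact ⟨f, hf, fun x hx => (ZFSet.notMem_empty _ hx).elim⟩
          refine (sideA_insert hM hpM (sideA_insert hM hxM h0)).mono ?_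
          intro z hz
          rw [ZFSet.mem_pair] at hz
          rw [ZFSet.mem_insert_iff, ZFSet.mem_insert_iff]
          rcases hz with hz | hz
          · exact Or.inl hz
          · exact Or.inr (Or.inl hz)
        obtain ⟨Z, hZ, hAZ, hZY, _⟩ := exists_Z hM κ hκ.mem hη hlim hκη' (Φ := fun _ _ => False)
          Dfn.false' hY hYM hA hAY hAc
        have hpZ : ct o₂ r ∈ Z := hAZ (ZFSet.mem_pair.2 (Or.inl rfl))
        have hxZ : x ∈ Z := hAZ (ZFSet.mem_pair.2 (Or.inr rfl))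
        obtain ⟨hN, hNr⟩ := node_of_Z hM κ hZ ho₂.1 ho₂.2.1.le ho₂.2.2
        obtain ⟨u, huP, hpu, hNu, hur, _⟩ := add_node hM κ hP hZ ho₂.1 ho₂.2.1.le ho₂.2.2 hp hpZ
          (fun Q hQ => (mem_ct.1 hQ).2)
        have hpsub : ct o₂ r ⊆ Z := by
          refine hZ.sub _ hpZ ?_
          have h1 : ∀ y ∈ ({ct o₂ r} : ZFSet.{0}), y ⊆ ct o₂ r ∧ FinZ y := by
            intro y hy
            rw [ZFSet.mem_singleton] at hy
            subst hy
            exact ⟨fun z hz => hz, hpc.fin⟩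
          have hfin : ∀ (s : Finset ZFSet.{0}) (a : ZFSet.{0}), (∀ z, z ∈ a ↔ z ∈ s) → (∀ z ∈ a, z ∈ M) →
              Ctb M a := by
            classical
            intro s
            induction s using Finset.induction_on with
            | empty =>
              intro a ha _
              obtain ⟨f, hf, _⟩ := ctb_om hM
              exact ⟨f, hf, fun x hx => absurd ((ha x).1 hx) (Finset.notMem_empty _)⟩
            | insert b s hb ih =>
              intro a ha haM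
              have hbM : b ∈ M := haM b ((ha b).2 (Finset.mem_insert_self _ _))
              have h2 := ih (ZFSet.sep (fun z => z ∈ s) a) (fun z => by
                rw [ZFSet.mem_sep]
                exact ⟨fun h => h.2, fun h => ⟨(ha z).2 (Finset.mem_insert_of_mem h), h⟩⟩)
                (fun z hz => haM z (ZFSet.mem_sep.1 hz).1)
              refine (sideA_insert hM hbM h2).mono ?_
              intro z hz
              rw [ZFSet.mem_insert_iff, ZFSet.mem_sep]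
              rcases Finset.mem_insert.1 ((ha z).1 hz) with h3 | h3
              · exact Or.inl h3
              · exact Or.inr ⟨hz, h3⟩
          obtain ⟨s, hs⟩ := hpc.fin
          exact hfin s _ hs fun z hz => hM.mem_of_mem hpM hz
        have hq : Cd (SmN M κ) (TrO M κ) (r ∪ u) :=
          cond_A hns hrc ((hP.2 u).1 huP) ho₂ (hsr ho₂s) hur hpu
        have hqP := (hP.2 _).2 hq
        refine ⟨⟨_, hPM _ hqP⟩, hqP, fun z hz => ZFSet.mem_union.2 (Or.inl hz), ⟨ct o₂ Z, hN.mem⟩,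
          ZFSet.mem_union.2 (Or.inr hNu), ?_, ?_⟩
        · refine (hSm _).2 ⟨hN, mem_ct.2 ⟨hpsub (mem_ct.2 ⟨hsr ho₁s, ?_⟩), ?_⟩, hNr⟩
          · rw [rk]; exact ho12
          · rw [rk]; exact ho12
        · exact mem_ct.2 ⟨hxZ, hxo⟩)
    exact ⟨N.1, (hXm _).2 ⟨hN2, q.1, hq, hN1⟩, hN3⟩
  -- the level is covered
  have hKM : K ∈ M := by
    obtain ⟨K', hK1, hK2⟩ := exists_Lv hM hαM
    have : K = K' := by
      ext z
      rw [hK, hK2]
    rw [this]; exact hK1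
  have hKW := hMW hKM
  obtain ⟨r, hr, hr'⟩ := hW.exists_sep (P := fun z => ∃ N x : Xt M G, z.1 = ZFSet.pair N.1 x.1 ∧ x.1 ∈ N.1) (by
      refine Dfn.ex (Dfn.ex (Dfn.and (Dfn.isPair (DT.var _) (DT.var _) (DT.var _))
        (Dfn.mem (DT.var _) (DT.var _))))) (hW.prod_mem hX hKW)
  have hrm : ∀ N x, ZFSet.pair N x ∈ r ↔ N ∈ X ∧ x ∈ K ∧ x ∈ N := by
    intro N x
    rw [hr', ZFSet.pair_mem_prod]
    constructor
    · rintro ⟨h1, _, N', x', h2, h3⟩
      obtain ⟨h4, h5⟩ := ZFSet.pair_injective h2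
      exact ⟨h1.1, h1.2, by rw [h4, h5]; exact h3⟩
    · rintro ⟨h1, h2, h3⟩
      have hN := hW.mem_of_mem hX h1
      have hx := hW.mem_of_mem hKW h2
      exact ⟨⟨h1, h2⟩, hW.pair_mem hN hx, ⟨N, hN⟩, ⟨x, hx⟩, rfl, h3⟩
  refine cvr_union_om1 hW hδW hX hr hKW hXδ ?_ ?_
  · intro N hN
    exact ⟨N, hW.mem_of_mem hX hN, ctb_cvr_om1 hW hδW (hXc N hN), fun x _ hx => ((hrm _ _).1 hx).2.2⟩
  · intro x hx
    have h1 := (hK x).1 hx
    obtain ⟨N, hN, hxN⟩ := hcovx x h1.1 (h1.2.trans (hαo.trans ho12))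
    exact ⟨N, hN, (hrm _ _).2 ⟨hN, hx, hxN⟩⟩

end Pool.Agent.H7.IG
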