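import Pool.Agent.H7.IG.Gx

/-!
# IG: cones and isomorphic posets
-/

set_option autoImplicit false
set_option linter.unusedVariables false
set_option linter.unusedSectionVars false
set_option linter.unusedSimpArgs false
set_option linter.unusedTactic false
set_option linter.unreachableTactic false

namespace Pool.Agent.H7.IG

open Pool.Agent.H17.Omega Pool.Agent.H17.Omega.CTM Pool.Agent.H52.GX Pool.Agent.H52.GC

variable {M : Set ZFSet.{0}} {P G : ZFSet.{0}}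

/-- The part of a generic filter below a condition is generic for the cone. -/
theorem Gen.cone (hM : CTM M) (hP : P ∈ M) (hG : Gen M P G) {p₀ : ZFSet.{0}} (hp : p₀ ∈ G) :
    ZFSet.sep (fun p => p₀ ⊆ p) P ∈ M ∧
      Gen M (ZFSet.sep (fun p => p₀ ⊆ p) P) (ZFSet.sep (fun p => p₀ ⊆ p) G) ∧
      Xt M (ZFSet.sep (fun p => p₀ ⊆ p) G) = Xt M G := by
  have hp₀P := hG.sub p₀ hp
  have hp₀M := hM.mem_of_mem hP hp₀P
  have hW : CTM (Xt M G) := hG.ctm hM hP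
  have hMW : M ⊆ Xt M G := hG.sub_xt hM hP
  have h1 : ZFSet.sep (fun p => p₀ ⊆ p) P ∈ M := by
    refine hM.sep_mem ?_ hP
    show hM.Dfn (fun v : Fin 1 → M => (⟨p₀, hp₀M⟩ : M).1 ⊆ (v 0).1)
    (repeat' first
      | exact DT.var _ | exact DT.last | exact DT.const _ | assumption
      | refine Dfn.pairMem ?_ ?_ ?_ | refine Dfn.isPair ?_ ?_ ?_ | refine Dfn.mem ?_ ?_
      | refine Dfn.eqv ?_ ?_ | refine Dfn.eq ?_ ?_ | refine Dfn.subset ?_ ?_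
      | refine Dfn.isEmpty ?_ | refine Dfn.isTrans ?_ | refine Dfn.isOrd ?_ | refine Dfn.isNat ?_
      | refine Dfn.isUpair ?_ ?_ ?_ | refine Dfn.isInsert ?_ ?_ ?_
      | refine Dfn.and ?_ ?_ | refine Dfn.or ?_ ?_ | refine Dfn.iff ?_ ?_ | refine Dfn.not ?_
      | refine Dfn.imp ?_ ?_ | refine Dfn.all ?_ | refine Dfn.ex ?_ | exact Dfn.false'
      | refine Dfn.ballZ ?_ ?_ | refine Dfn.bexZ ?_ ?_ | exact Dfn.const _)
  have h2 : Gen M (ZFSet.sep (fun p => p₀ ⊆ p) P) (ZFSet.sep (fun p => p₀ ⊆ p) G) := by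
    refine ⟨fun p hp => ?_, ⟨p₀, ZFSet.mem_sep.2 ⟨hp, fun z hz => hz⟩⟩, fun p hp q hq hqp => ?_,
      fun p hp q hq => ?_, fun D hD h => ?_⟩
    · rw [ZFSet.mem_sep] at hp ⊢
      exact ⟨hG.sub _ hp.1, hp.2⟩
    · rw [ZFSet.mem_sep] at hp hq ⊢
      exact ⟨hG.up _ hp.1 _ hq.1 hqp, hq.2⟩
    · rw [ZFSet.mem_sep] at hp hq
      obtain ⟨r, hr, h1, h2⟩ := hG.dir _ hp.1 _ hq.1
      exact ⟨r, ZFSet.mem_sep.2 ⟨hr, fun z hz => h1 (hp.2 hz)⟩, h1, h2⟩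
    · obtain ⟨q, hq, hpq, hqD⟩ := hG.meet hM hP (D := fun q => q.1 ∈ (⟨D, hD⟩ : M).1) (by
        (repeat' first
      | exact DT.var _ | exact DT.last | exact DT.const _ | assumption
      | refine Dfn.pairMem ?_ ?_ ?_ | refine Dfn.isPair ?_ ?_ ?_ | refine Dfn.mem ?_ ?_
      | refine Dfn.eqv ?_ ?_ | refine Dfn.eq ?_ ?_ | refine Dfn.subset ?_ ?_
      | refine Dfn.isEmpty ?_ | refine Dfn.isTrans ?_ | refine Dfn.isOrd ?_ | refine Dfn.isNat ?_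
      | refine Dfn.isUpair ?_ ?_ ?_ | refine Dfn.isInsert ?_ ?_ ?_
      | refine Dfn.and ?_ ?_ | refine Dfn.or ?_ ?_ | refine Dfn.iff ?_ ?_ | refine Dfn.not ?_
      | refine Dfn.imp ?_ ?_ | refine Dfn.all ?_ | refine Dfn.ex ?_ | exact Dfn.false'
      | refine Dfn.ballZ ?_ ?_ | refine Dfn.bexZ ?_ ?_ | exact Dfn.const _)) hp (by
        intro r hr hpr
        obtain ⟨q, hq, hrq, hqD⟩ := h r (ZFSet.mem_sep.2 ⟨hr, hpr⟩)
        rw [ZFSet.mem_sep] at hq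
        exact ⟨⟨q, hM.mem_of_mem hP hq.1⟩, hq.1, hrq, hqD⟩)
      exact ⟨q.1, ZFSet.mem_sep.2 ⟨hq, hpq⟩, hqD⟩
  refine ⟨h1, h2, ?_⟩
  have hW' : CTM (Xt M (ZFSet.sep (fun p => p₀ ⊆ p) G)) := h2.ctm hM h1
  have hMW' := h2.sub_xt hM h1
  have hG' := h2.mem_xt hM h1
  apply Set.Subset.antisymm
  · refine xt_min hW hMW ?_
    refine hW.sep_mem ?_ (hG.mem_xt hM hP)
    show hW.Dfn (fun v : Fin 1 → Xt M G => (⟨p₀, hMW hp₀M⟩ : Xt M G).1 ⊆ (v 0).1)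
    (repeat' first
      | exact DT.var _ | exact DT.last | exact DT.const _ | assumption
      | refine Dfn.pairMem ?_ ?_ ?_ | refine Dfn.isPair ?_ ?_ ?_ | refine Dfn.mem ?_ ?_
      | refine Dfn.eqv ?_ ?_ | refine Dfn.eq ?_ ?_ | refine Dfn.subset ?_ ?_
      | refine Dfn.isEmpty ?_ | refine Dfn.isTrans ?_ | refine Dfn.isOrd ?_ | refine Dfn.isNat ?_
      | refine Dfn.isUpair ?_ ?_ ?_ | refine Dfn.isInsert ?_ ?_ ?_
      | refine Dfn.and ?_ ?_ | refine Dfn.or ?_ ?_ | refine Dfn.iff ?_ ?_ | refine Dfn.not ?_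
      | refine Dfn.imp ?_ ?_ | refine Dfn.all ?_ | refine Dfn.ex ?_ | exact Dfn.false'
      | refine Dfn.ballZ ?_ ?_ | refine Dfn.bexZ ?_ ?_ | exact Dfn.const _)
  · refine xt_min hW' hMW' ?_
    have h3 : G = ZFSet.sep (fun q => ∃ p ∈ (⟨_, hG'⟩ : Xt M (ZFSet.sep (fun p => p₀ ⊆ p) G)).1,
        q ⊆ p) P := by
      ext q
      rw [ZFSet.mem_sep]
      constructor
      · intro hq
        obtain ⟨r, hr, h1, h2⟩ := hG.dir _ hq _ hp
        exact ⟨hG.sub _ hq, r, ZFSet.mem_sep.2 ⟨hr, h2⟩, h1⟩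
      · rintro ⟨hq, p, hp', hqp⟩
        exact hG.up p (ZFSet.mem_sep.1 hp').1 q hq hqp
    have h4 : ZFSet.sep (fun q => ∃ p ∈ (⟨_, hG'⟩ : Xt M (ZFSet.sep (fun p => p₀ ⊆ p) G)).1,
        q ⊆ p) P ∈ Xt M (ZFSet.sep (fun p => p₀ ⊆ p) G) := by
      refine hW'.sep_mem ?_ (hMW' hP)
      (repeat' first
      | exact DT.var _ | exact DT.last | exact DT.const _ | assumption
      | refine Dfn.pairMem ?_ ?_ ?_ | refine Dfn.isPair ?_ ?_ ?_ | refine Dfn.mem ?_ ?_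
      | refine Dfn.eqv ?_ ?_ | refine Dfn.eq ?_ ?_ | refine Dfn.subset ?_ ?_
      | refine Dfn.isEmpty ?_ | refine Dfn.isTrans ?_ | refine Dfn.isOrd ?_ | refine Dfn.isNat ?_
      | refine Dfn.isUpair ?_ ?_ ?_ | refine Dfn.isInsert ?_ ?_ ?_
      | refine Dfn.and ?_ ?_ | refine Dfn.or ?_ ?_ | refine Dfn.iff ?_ ?_ | refine Dfn.not ?_
      | refine Dfn.imp ?_ ?_ | refine Dfn.all ?_ | refine Dfn.ex ?_ | exact Dfn.false'
      | refine Dfn.ballZ ?_ ?_ | refine Dfn.bexZ ?_ ?_ | exact Dfn.const _)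
    rw [← h3] at h4
    exact h4

/-- Transport along an isomorphism `i ∈ M` of posets `P' → P`. -/
theorem Gen.iso (hM : CTM M) {P' i : ZFSet.{0}} (hP : P ∈ M) (hP' : P' ∈ M) (hi : i ∈ M) (hfn : Onto i P' P)
    (hord : ∀ p ∈ P', ∀ q ∈ P', p ⊆ q ↔ ap i p ⊆ ap i q) (hG : Gen M P G) :
    Gen M P' (ZFSet.sep (fun p => ap i p ∈ G) P') ∧ Xt M (ZFSet.sep (fun p => ap i p ∈ G) P') = Xt M G := by
  have hW : CTM (Xt M G) := hG.ctm hM hP
  have hMW : M ⊆ Xt M G := hG.sub_xt hM hP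
  have hsurj : ∀ p ∈ P, ∃ p' ∈ P', ap i p' = p := by
    intro p hp
    obtain ⟨p', hp', h⟩ := hfn.2 p hp
    exact ⟨p', hp', hfn.1.ap_eq h⟩
  have h2 : Gen M P' (ZFSet.sep (fun p => ap i p ∈ G) P') := by
    refine ⟨fun p hp => (ZFSet.mem_sep.1 hp).1, ?_, fun p hp q hq hqp => ?_, fun p hp q hq => ?_,
      fun D hD h => ?_⟩
    · obtain ⟨p, hp⟩ := hG.ne
      obtain ⟨p', hp', rfl⟩ := hsurj p (hG.sub _ hp)
      exact ⟨p', ZFSet.mem_sep.2 ⟨hp', hp⟩⟩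
    · rw [ZFSet.mem_sep] at hp ⊢
      exact ⟨hq, hG.up _ hp.2 _ (hfn.1.ap_mem hq).1 ((hord q hq p hp.1).1 hqp)⟩
    · rw [ZFSet.mem_sep] at hp hq
      obtain ⟨r, hr, h1, h2⟩ := hG.dir _ hp.2 _ hq.2
      obtain ⟨r', hr', rfl⟩ := hsurj r (hG.sub _ hr)
      exact ⟨r', ZFSet.mem_sep.2 ⟨hr', hr⟩, (hord p hp.1 r' hr').2 h1, (hord q hq.1 r' hr').2 h2⟩
    · obtain ⟨D2, hD2, hD2'⟩ := hM.exists_sep (P := fun q => ∃ p : M, p.1 ∈ (⟨D, hD⟩ : M).1 ∧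
        p.1 ∈ (⟨P', hP'⟩ : M).1 ∧ ZFSet.pair p.1 q.1 ∈ (⟨i, hi⟩ : M).1) (by
        (repeat' first
      | exact DT.var _ | exact DT.last | exact DT.const _ | assumption
      | refine Dfn.pairMem ?_ ?_ ?_ | refine Dfn.isPair ?_ ?_ ?_ | refine Dfn.mem ?_ ?_
      | refine Dfn.eqv ?_ ?_ | refine Dfn.eq ?_ ?_ | refine Dfn.subset ?_ ?_
      | refine Dfn.isEmpty ?_ | refine Dfn.isTrans ?_ | refine Dfn.isOrd ?_ | refine Dfn.isNat ?_
      | refine Dfn.isUpair ?_ ?_ ?_ | refine Dfn.isInsert ?_ ?_ ?_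
      | refine Dfn.and ?_ ?_ | refine Dfn.or ?_ ?_ | refine Dfn.iff ?_ ?_ | refine Dfn.not ?_
      | refine Dfn.imp ?_ ?_ | refine Dfn.all ?_ | refine Dfn.ex ?_ | exact Dfn.false'
      | refine Dfn.ballZ ?_ ?_ | refine Dfn.bexZ ?_ ?_ | exact Dfn.const _)) hP
      obtain ⟨p, hpG, hpD⟩ := hG.gen D2 hD2 (by
        intro p hp
        obtain ⟨p', hp', rfl⟩ := hsurj p hp
        obtain ⟨q', hq', hpq, hqD⟩ := h p' hp'
        have h3 := hfn.1.ap_mem hq'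
        exact ⟨ap i q', h3.1, (hord p' hp' q' hq').1 hpq, (hD2' _).2 ⟨h3.1, hM.mem_of_mem hP h3.1,
          ⟨q', hM.mem_of_mem hP' hq'⟩, hqD, hq', h3.2⟩⟩)
      obtain ⟨_, _, p', h3, h4, h5⟩ := (hD2' _).1 hpD
      refine ⟨p'.1, ZFSet.mem_sep.2 ⟨h4, ?_⟩, h3⟩
      rw [hfn.1.ap_eq h5]
      exact hpG
  refine ⟨h2, ?_⟩
  have hW' := h2.ctm hM hP'
  have hMW' := h2.sub_xt hM hP'
  have hG' := h2.mem_xt hM hP'
  have hap : ∀ p ∈ P', (ap i p ∈ G ↔ ∃ q ∈ G, ZFSet.pair p q ∈ i) := by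
    intro p hp
    constructor
    · intro h
      exact ⟨_, h, (hfn.1.ap_mem hp).2⟩
    · rintro ⟨q, hq, h⟩
      rw [hfn.1.ap_eq h]
      exact hq
  apply Set.Subset.antisymm
  · refine xt_min hW hMW ?_
    have h3 : ZFSet.sep (fun p => ap i p ∈ G) P' = ZFSet.sep (fun p => ∃ q ∈
        (⟨G, hG.mem_xt hM hP⟩ : Xt M G).1, ZFSet.pair p q ∈ (⟨i, hMW hi⟩ : Xt M G).1) P' := by
      ext p
      rw [ZFSet.mem_sep, ZFSet.mem_sep]
      exact and_congr_right fun hp => hap p hp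
    rw [h3]
    refine hW.sep_mem ?_ (hMW hP')
    (repeat' first
      | exact DT.var _ | exact DT.last | exact DT.const _ | assumption
      | refine Dfn.pairMem ?_ ?_ ?_ | refine Dfn.isPair ?_ ?_ ?_ | refine Dfn.mem ?_ ?_
      | refine Dfn.eqv ?_ ?_ | refine Dfn.eq ?_ ?_ | refine Dfn.subset ?_ ?_
      | refine Dfn.isEmpty ?_ | refine Dfn.isTrans ?_ | refine Dfn.isOrd ?_ | refine Dfn.isNat ?_
      | refine Dfn.isUpair ?_ ?_ ?_ | refine Dfn.isInsert ?_ ?_ ?_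
      | refine Dfn.and ?_ ?_ | refine Dfn.or ?_ ?_ | refine Dfn.iff ?_ ?_ | refine Dfn.not ?_
      | refine Dfn.imp ?_ ?_ | refine Dfn.all ?_ | refine Dfn.ex ?_ | exact Dfn.false'
      | refine Dfn.ballZ ?_ ?_ | refine Dfn.bexZ ?_ ?_ | exact Dfn.const _)
  · refine xt_min hW' hMW' ?_
    have hm : ∀ p, p ∈ (⟨_, hG'⟩ : Xt M (ZFSet.sep (fun p => ap i p ∈ G) P')).1 ↔
        p ∈ P' ∧ ap i p ∈ G := fun p => ZFSet.mem_sep (p := fun p => ap i p ∈ G)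
    have h3 : G = ZFSet.sep (fun q => ∃ p ∈
        (⟨_, hG'⟩ : Xt M (ZFSet.sep (fun p => ap i p ∈ G) P')).1, ZFSet.pair p q ∈
        (⟨i, hMW' hi⟩ : Xt M (ZFSet.sep (fun p => ap i p ∈ G) P')).1) P := by
      ext q
      rw [ZFSet.mem_sep]
      constructor
      · intro hq
        obtain ⟨p', hp', h⟩ := hfn.2 q (hG.sub _ hq)
        refine ⟨hG.sub _ hq, p', (hm p').2 ⟨hp', ?_⟩, h⟩
        rw [hfn.1.ap_eq h]
        exact hq
      · rintro ⟨hq, p, hp', h⟩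
        have h4 := ((hm p).1 hp').2
        rwa [hfn.1.ap_eq h] at h4
    have h4 : ZFSet.sep (fun q => ∃ p ∈
        (⟨_, hG'⟩ : Xt M (ZFSet.sep (fun p => ap i p ∈ G) P')).1, ZFSet.pair p q ∈
        (⟨i, hMW' hi⟩ : Xt M (ZFSet.sep (fun p => ap i p ∈ G) P')).1) P ∈
        Xt M (ZFSet.sep (fun p => ap i p ∈ G) P') := by
      refine hW'.sep_mem ?_ (hMW' hP)
      (repeat' first
      | exact DT.var _ | exact DT.last | exact DT.const _ | assumption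
      | refine Dfn.pairMem ?_ ?_ ?_ | refine Dfn.isPair ?_ ?_ ?_ | refine Dfn.mem ?_ ?_
      | refine Dfn.eqv ?_ ?_ | refine Dfn.eq ?_ ?_ | refine Dfn.subset ?_ ?_
      | refine Dfn.isEmpty ?_ | refine Dfn.isTrans ?_ | refine Dfn.isOrd ?_ | refine Dfn.isNat ?_
      | refine Dfn.isUpair ?_ ?_ ?_ | refine Dfn.isInsert ?_ ?_ ?_
      | refine Dfn.and ?_ ?_ | refine Dfn.or ?_ ?_ | refine Dfn.iff ?_ ?_ | refine Dfn.not ?_
      | refine Dfn.imp ?_ ?_ | refine Dfn.all ?_ | refine Dfn.ex ?_ | exact Dfn.false'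
      | refine Dfn.ballZ ?_ ?_ | refine Dfn.bexZ ?_ ?_ | exact Dfn.const _)
    rw [← h3] at h4
    exact h4

end Pool.Agent.H7.IG
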