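import Pool.Agent.H7.IG.SidePa
import Pool.Agent.H7.IG.Gn3

/-!
# IG, Part 1: cutting at a transitive node is a projection

`B` is `V_o` of `M`. `Pg P o` = conditions containing `o`; `Po P o` = conditions contained in `V_o`.
`down`: `p ∩ B = ct o p` (`p ⊆ M`), `cond_cut`. `amal`: Lemma A (`cond_A`). `lift`: `p' = insert o.toZFSet r` (`cond_top`).
-/

set_option autoImplicit false
set_option linter.unusedVariables false
set_option linter.unusedSectionVars false
set_option linter.unusedSimpArgs false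
set_option linter.unusedTactic false
set_option linter.unreachableTactic false

namespace Pool.Agent.H7.IG

open Pool.Agent.H17.Omega Pool.Agent.H17.Omega.CTM Pool.Agent.H52.GX Pool.Agent.H52.GC

variable {M : Set ZFSet.{0}} (hM : CTM M) {κ : Ordinal.{0}}

include hM

/-- For a generic filter `G` with `o.toZFSet ∈ ⋃ G`, `Pg G o` is generic for `Pg P o` (`Gen.cone` for the condition
`{o.toZFSet}`), with the same extension. -/
theorem side_cone {P G : ZFSet.{0}} (hP : IsPK M κ P) (hG : Gen M P G) {o : Ordinal.{0}} (ho : TrO M κ o)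
    (hoG : ∃ s ∈ G, o.toZFSet ∈ s) : Gen M (Pg P o) (Pg G o) ∧ Xt M (Pg G o) = Xt M G := by
  have hmem : ∀ s : ZFSet.{0}, insert o.toZFSet ∅ ⊆ s ↔ o.toZFSet ∈ s := by
    intro s
    constructor
    · exact fun h => h (ZFSet.mem_insert_iff.2 (Or.inl rfl))
    · intro h z hz
      rcases ZFSet.mem_insert_iff.1 hz with h1 | h1
      · rw [h1]; exact h
      · exact absurd h1 (ZFSet.notMem_empty z)
  have hsing : (insert o.toZFSet ∅ : ZFSet.{0}) ∈ P :=
    (hP.2 _).2 (cond_top (ns_node hM κ) cond_empty ho (fun Q hQ => absurd hQ (ZFSet.notMem_empty Q)))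
  have hsG : (insert o.toZFSet ∅ : ZFSet.{0}) ∈ G := by
    obtain ⟨s, hs, hos⟩ := hoG
    exact hG.up s hs _ hsing ((hmem s).2 hos)
  have hPg : ∀ X : ZFSet.{0}, Pg X o = ZFSet.sep (fun p => insert o.toZFSet ∅ ⊆ p) X := by
    intro X
    ext s
    rw [mem_Pg, ZFSet.mem_sep, hmem]
  obtain ⟨h1, h2, h3⟩ := Gen.cone hM hP.1 hG hsG
  rw [hPg P, hPg G]
  exact ⟨h2, h3⟩

/-- The generic filter below `o`: `{s ∈ G : s ⊆ V_o}`. -/
theorem side_Gb {P G : ZFSet.{0}} (hP : IsPK M κ P) (hG : Gen M P G) {o : Ordinal.{0}} (ho : TrO M κ o)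
    (hoG : ∃ s ∈ G, o.toZFSet ∈ s) {B : ZFSet.{0}} (hB : ∀ x, x ∈ B ↔ x ∈ Lv M o) :
    Gb (Pg G o) B = Po G o := by
  have hNS : NS (SmN M κ) (TrO M κ) := ns_node hM κ
  have rk : ∀ a : Ordinal.{0}, a.toZFSet.rank = a := Ordinal.rank_toZFSet
  ext r
  rw [mem_Gb, mem_Po]
  constructor
  · rintro ⟨p, hp, rfl⟩
    obtain ⟨hpG, hop⟩ := mem_Pg.1 hp
    have hpP := hG.sub p hpG
    rw [inter_eq_ct hM hP hB hpP]
    exact ⟨hG.up p hpG _ ((hP.2 _).2 (cond_cut hNS ((hP.2 p).1 hpP) o)) ct_sub,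
      fun Q hQ => (mem_ct.1 hQ).2⟩
  · rintro ⟨hrG, hr⟩
    obtain ⟨s, hs, hos⟩ := hoG
    obtain ⟨t, ht, hrt, hst⟩ := hG.dir r hrG s hs
    have hrP := hG.sub r hrG
    have hp' : insert o.toZFSet r ∈ P := (hP.2 _).2 (cond_top hNS ((hP.2 r).1 hrP) ho hr)
    have hp'G : insert o.toZFSet r ∈ G := by
      refine hG.up t ht _ hp' ?_
      intro z hz
      rcases ZFSet.mem_insert_iff.1 hz with h1 | h1
      · rw [h1]; exact hst hos
      · exact hrt h1
    refine ⟨insert o.toZFSet r, mem_Pg.2 ⟨hp'G, ZFSet.mem_insert_iff.2 (Or.inl rfl)⟩, ?_⟩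
    rw [inter_eq_ct hM hP hB hp']
    ext z
    rw [mem_ct, ZFSet.mem_insert_iff]
    constructor
    · exact fun hz => ⟨Or.inr hz, hr z hz⟩
    · rintro ⟨h1 | h1, h2⟩
      · rw [h1, rk] at h2
        exact absurd h2 (lt_irrefl _)
      · exact h1

end Pool.Agent.H7.IG
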