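import Pool.Agent.H7.IG.SideC
import Pool.Agent.H7.IG.SideP
import Pool.Agent.H7.IG.SideH
import Pool.Agent.H7.IG.Gx

/-!
# IG, Part 1: `κ` is not collapsed to `ω₁`

Suppose `f ∈ M[G]` is single valued on `δ` and covers `κ`; `f = vl G τ`, `s₀ ∈ G` forces that `τ` is single valued on `δ`. For
`s ∈ P`, `ξ ∈ δ`, `β ∈ κ` let `F s ξ β` say that `s` forces `(ξ, β) ∈ τ` (definable over `M`, `Frc.dfn3`). `Φ ((s, ξ)) ((t, β))`: `s ⊆ t ∈ P`,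
`F t ξ β`. The set of the `s ∈ P` that contain `s₀` and a node `o` which is closed under `Φ` as in `exists_tr_closed` and with
`rk s₀ < o` is dense below `s₀` and definable. So there is such `o` with `o.toZFSet ∈ s ∈ G`. `o ∈ κ` is covered: `(ξ, o) ∈ f`, `ξ ∈ δ`; some
`t ∈ G`, `s ⊆ t`, forces `(ξ, o) ∈ τ`. `ct o t ∈ P` has rank `< o` (it is finite with members of rank `< o`); by closure (witness `(t, o)`) there
are `t'`, `β'` of rank `< o` with `ct o t ⊆ t' ∈ P`, `F t' ξ β'`. `t ∪ t' ∈ P` by Lemma A; it forces `(ξ, o), (ξ, β') ∈ τ`, `β' ≠ o`, and contains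
`s₀` (`s₀ ⊆ ct o t`): contradiction (take a generic filter containing it).
-/

set_option autoImplicit false
set_option linter.unusedVariables false
set_option linter.unusedSectionVars false
set_option linter.unusedSimpArgs false
set_option linter.unusedTactic false
set_option linter.unreachableTactic false

namespace Pool.Agent.H7.IG

open Pool.Agent.H17.Omega Pool.Agent.H17.Omega.CTM Pool.Agent.H52.GX Pool.Agent.H52.GC

theorem sideB_ud : UD CtmC (fun N (v : Fin 2 → N) => ∀ n : N, n.1 ∈ (v 0).1 → ∀ y y' : N,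
    ZFSet.pair n.1 y.1 ∈ (v 1).1 → ZFSet.pair n.1 y'.1 ∈ (v 1).1 → y = y') := by
  (repeat' first
      | exact UT.var _ | exact UT.last | assumption
      | refine UD.pairMem ?_ ?_ ?_ | refine UD.isPair ?_ ?_ ?_ | refine UD.mem ?_ ?_
      | refine UD.eqv ?_ ?_ | refine UD.eq ?_ ?_ | refine UD.subset ?_ ?_
      | refine UD.isEmpty ?_ | refine UD.isTrans ?_ | refine UD.isOrd ?_ | refine UD.isNat ?_
      | refine UD.isUpair ?_ ?_ ?_ | refine UD.isInsert ?_ ?_ ?_ | refine UD.isUnion ?_ ?_ ?_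
      | refine UD.and ?_ ?_ | refine UD.or ?_ ?_ | refine UD.iff ?_ ?_ | refine UD.not ?_
      | refine UD.imp ?_ ?_ | refine UD.all ?_ | refine UD.ex ?_ | exact UD.false' | exact UD.true'
      | refine UD.ball ?_ ?_ | refine UD.bex ?_ ?_)

theorem sideB_ud_mem : UD CtmC (fun N (v : Fin 3 → N) => ZFSet.pair (v 0).1 (v 1).1 ∈ (v 2).1) := by
  (repeat' first
      | exact UT.var _ | exact UT.last | assumption
      | refine UD.pairMem ?_ ?_ ?_ | refine UD.isPair ?_ ?_ ?_ | refine UD.mem ?_ ?_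
      | refine UD.eqv ?_ ?_ | refine UD.eq ?_ ?_ | refine UD.subset ?_ ?_
      | refine UD.isEmpty ?_ | refine UD.isTrans ?_ | refine UD.isOrd ?_ | refine UD.isNat ?_
      | refine UD.isUpair ?_ ?_ ?_ | refine UD.isInsert ?_ ?_ ?_ | refine UD.isUnion ?_ ?_ ?_
      | refine UD.and ?_ ?_ | refine UD.or ?_ ?_ | refine UD.iff ?_ ?_ | refine UD.not ?_
      | refine UD.imp ?_ ?_ | refine UD.all ?_ | refine UD.ex ?_ | exact UD.false' | exact UD.true'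
      | refine UD.ball ?_ ?_ | refine UD.bex ?_ ?_)

/-- conditions have rank below `κ` -/
theorem sideB_rank {M : Set ZFSet.{0}} (hM : CTM M) {κ : Ordinal.{0}} (hκ : Inac M κ) {s : ZFSet.{0}}
    (hs : Cd (SmN M κ) (TrO M κ) s) (hsM : s ∈ M) : s.rank < κ := by
  obtain ⟨δ, hδ, -⟩ := hκ.om
  refine (finZ_mem_Lv hM hκ.lim (lt_of_le_of_lt (bot_le : (0 : Ordinal.{0}) ≤ δ) hδ) hs.fin fun Q hQ => ?_).2
  refine ⟨hM.mem_of_mem hsM hQ, ?_⟩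
  rcases hs.node Q hQ with h | ⟨o, ho, rfl⟩
  · exact h.rk
  · rw [Ordinal.rank_toZFSet]
    exact ho.2.1

theorem side_unc {M : Set ZFSet.{0}} (hM : CTM M) {κ : Ordinal.{0}} (hκ : Inac M κ) {P G : ZFSet.{0}}
    (hP : IsPK M κ P) (hG : Gen M P G) {δ : Ordinal.{0}} (hδ : IsOm1 M δ) :
    ¬ Cvr (Xt M G) δ.toZFSet κ.toZFSet := by
  rintro ⟨f, ⟨τ, hτ, rfl⟩, hf1, hf2⟩
  have hPM := hP.1
  have hW : CTM (Xt M G) := hG.ctm hM hPM
  have hMW : M ⊆ Xt M G := hG.sub_xt hM hPM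
  have hns := ns_node hM κ
  have hδM := hδ.mem
  have hκM := hκ.mem
  obtain ⟨s₀, hs₀, hF₀⟩ := (Frc.truth sideB_ud hM hPM hG (![Ar.g ⟨δ.toZFSet, hδM⟩, Ar.n ⟨τ, hτ⟩])
    (![⟨δ.toZFSet, hMW hδM⟩, ⟨vl G τ, ⟨τ, hτ, rfl⟩⟩] : Fin 2 → Xt M G)
    (by intro i; fin_cases i <;> rfl)).1 (by
      intro n hn y y' h1 h2
      exact Subtype.ext (hf1 n.1 hn _ _ h1 h2))
  have hs₀P := hG.sub s₀ hs₀
  have hs₀M := hM.mem_of_mem hPM hs₀P
  let Fz : M → M → M → Prop := fun p n z =>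
    Frc M P (fun N (v : Fin 3 → N) => ZFSet.pair (v 0).1 (v 1).1 ∈ (v 2).1) p.1
      ![Ar.g n, Ar.g z, Ar.n ⟨τ, hτ⟩]
  have hFz : hM.Dfn (fun v : Fin 3 → M => Fz (v 0) (v 1) (v 2)) :=
    Frc.dfn3 sideB_ud_mem hPM (DT.var _) (AT.g (DT.var _)) (AT.g (DT.var _)) (AT.n (DT.const _))
  have huniq : ∀ p n z z' : M, p.1 ∈ P → s₀ ⊆ p.1 → n.1 ∈ δ.toZFSet → Fz p n z → Fz p n z' →
      z = z' := by
    intro p n z z' hp hpp hn h1 h2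
    obtain ⟨G', hG', hpG'⟩ := exists_gen hM hPM hp
    have hMG' : M ⊆ Xt M G' := hG'.sub_xt hM hPM
    have hp₀' : s₀ ∈ G' := hG'.up _ hpG' s₀ hs₀P hpp
    have h3 := hF₀ G' hG' hp₀' (![⟨δ.toZFSet, hMG' hδM⟩, ⟨vl G' τ, ⟨τ, hτ, rfl⟩⟩] : Fin 2 → Xt M G')
      (by intro i; fin_cases i <;> rfl)
    have h4 := h1 G' hG' hpG' (![⟨n.1, hMG' n.2⟩, ⟨z.1, hMG' z.2⟩, ⟨vl G' τ, ⟨τ, hτ, rfl⟩⟩] :
      Fin 3 → Xt M G') (by intro i; fin_cases i <;> rfl)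
    have h5 := h2 G' hG' hpG' (![⟨n.1, hMG' n.2⟩, ⟨z'.1, hMG' z'.2⟩, ⟨vl G' τ, ⟨τ, hτ, rfl⟩⟩] :
      Fin 3 → Xt M G') (by intro i; fin_cases i <;> rfl)
    have h6 := h3 ⟨n.1, hMG' n.2⟩ hn ⟨z.1, hMG' z.2⟩ ⟨z'.1, hMG' z'.2⟩ h4 h5
    exact Subtype.ext (congrArg (fun w : Xt M G' => w.1) h6)
  -- the relation
  let Φ : M → M → Prop := fun z w => ∃ s ξ t β : M, z.1 = ZFSet.pair s.1 ξ.1 ∧
    w.1 = ZFSet.pair t.1 β.1 ∧ s.1 ⊆ t.1 ∧ t.1 ∈ (⟨P, hPM⟩ : M).1 ∧ Fz t ξ β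
  have hΦ : hM.Dfn (fun v : Fin 2 → M => Φ (v 0) (v 1)) := by
    (repeat' first
      | exact DT.var _ | exact DT.last | exact DT.const _ | assumption
      | refine Dfn.pairMem ?_ ?_ ?_ | refine Dfn.isPair ?_ ?_ ?_ | refine Dfn.mem ?_ ?_
      | refine Dfn.eqv ?_ ?_ | refine Dfn.eq ?_ ?_ | refine Dfn.subset ?_ ?_
      | refine Dfn.isEmpty ?_ | refine Dfn.isTrans ?_ | refine Dfn.isOrd ?_ | refine Dfn.isNat ?_
      | refine Dfn.isUpair ?_ ?_ ?_ | refine Dfn.isInsert ?_ ?_ ?_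
      | refine Dfn.and ?_ ?_ | refine Dfn.or ?_ ?_ | refine Dfn.iff ?_ ?_ | refine Dfn.not ?_
      | refine Dfn.imp ?_ ?_ | refine Dfn.all ?_ | refine Dfn.ex ?_ | exact Dfn.false'
      | refine Dfn.ballZ ?_ ?_ | refine Dfn.bexZ ?_ ?_ | exact Dfn.const _)
    exact Dfn.subst3 hFz (DT.var _) (DT.var _) (DT.var _)
  -- closed nodes
  have hrk := dfn_rank hM
  have htr := dfn_TrO hM κ hκM
  obtain ⟨q, hqG, hs₀q, x, hxq, ⟨o, ho, hxo⟩, hcl⟩ := hG.meet hM hPM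
    (D := fun q => ∃ x : M, x.1 ∈ q.1 ∧ (∃ o, TrO M κ o ∧ x.1 = o.toZFSet) ∧
      ∀ z w rz rw' : M, rz.1 = z.1.rank.toZFSet → rw'.1 = w.1.rank.toZFSet → rz.1 ∈ x.1 →
        rw'.1 ∈ (⟨κ.toZFSet, hκM⟩ : M).1 → Φ z w →
        ∃ w' rw'' : M, rw''.1 = w'.1.rank.toZFSet ∧ rw''.1 ∈ x.1 ∧ Φ z w') (by
    (repeat' first
      | exact DT.var _ | exact DT.last | exact DT.const _ | assumption
      | refine Dfn.pairMem ?_ ?_ ?_ | refine Dfn.isPair ?_ ?_ ?_ | refine Dfn.mem ?_ ?_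
      | refine Dfn.eqv ?_ ?_ | refine Dfn.eq ?_ ?_ | refine Dfn.subset ?_ ?_
      | refine Dfn.isEmpty ?_ | refine Dfn.isTrans ?_ | refine Dfn.isOrd ?_ | refine Dfn.isNat ?_
      | refine Dfn.isUpair ?_ ?_ ?_ | refine Dfn.isInsert ?_ ?_ ?_
      | refine Dfn.and ?_ ?_ | refine Dfn.or ?_ ?_ | refine Dfn.iff ?_ ?_ | refine Dfn.not ?_
      | refine Dfn.imp ?_ ?_ | refine Dfn.all ?_ | refine Dfn.ex ?_ | exact Dfn.false'
      | refine Dfn.ballZ ?_ ?_ | refine Dfn.bexZ ?_ ?_ | exact Dfn.const _)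
    all_goals first
      | exact Dfn.subst1 (P := fun x => ∃ o, TrO M κ o ∧ x.1 = o.toZFSet) htr (DT.var _)
      | exact Dfn.subst2 (P := fun x y => y.1 = x.1.rank.toZFSet) hrk (DT.var _) (DT.var _)
      | exact Dfn.subst3 hFz (DT.var _) (DT.var _) (DT.var _)) hs₀ (by
    intro r hr hs₀r
    have hrM := hM.mem_of_mem hPM hr
    have hrc := (hP.2 r).1 hr
    obtain ⟨o, ho, hro, hcl⟩ := exists_tr_closed hM hκ hΦ (sideB_rank hM hκ hrc hrM)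
    have hq := cond_top hns hrc ho (fun Q hQ => (ZFSet.rank_lt_of_mem hQ).trans hro)
    have hqP := (hP.2 _).2 hq
    refine ⟨⟨_, hM.mem_of_mem hPM hqP⟩, hqP, fun z hz => ZFSet.mem_insert_of_mem _ hz,
      ⟨o.toZFSet, ho.1⟩, ZFSet.mem_insert _ _, ⟨o, ho, rfl⟩, ?_⟩
    intro z w rz rw' h1 h2 h3 h4 h5
    rw [h1] at h3
    rw [h2] at h4
    obtain ⟨w', h6, h7⟩ := hcl z w (Ordinal.toZFSet_mem_toZFSet_iff.1 h3)
      (Ordinal.toZFSet_mem_toZFSet_iff.1 h4) h5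
    exact ⟨w', ⟨_, hM.rank_mem w'.2⟩, rfl, Ordinal.toZFSet_mem_toZFSet_iff.2 h6, h7⟩)
  
  have hqP := hG.sub _ hqG
  -- the value `o`
  obtain ⟨ξ, hξ, hξo⟩ := hf2 o.toZFSet (Ordinal.toZFSet_mem_toZFSet_iff.2 ho.2.1)
  have hξM := hM.mem_of_mem hδM hξ
  obtain ⟨t₀, ht₀, hF⟩ := (Frc.truth sideB_ud_mem hM hPM hG
    (![Ar.g ⟨ξ, hξM⟩, Ar.g ⟨o.toZFSet, ho.1⟩, Ar.n ⟨τ, hτ⟩])
    (![⟨ξ, hMW hξM⟩, ⟨o.toZFSet, hMW ho.1⟩, ⟨vl G τ, ⟨τ, hτ, rfl⟩⟩] : Fin 3 → Xt M G)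
    (by intro i; fin_cases i <;> rfl)).1 hξo
  obtain ⟨t, ht, ht₀t, hqt⟩ := hG.dir t₀ ht₀ _ hqG
  have htP := hG.sub t ht
  have htM := hM.mem_of_mem hPM htP
  have htc := (hP.2 t).1 htP
  have hFt : Fz ⟨t, htM⟩ ⟨ξ, hξM⟩ ⟨o.toZFSet, ho.1⟩ := hF.mono (hG.sub _ ht₀) ht₀t
  have hot : o.toZFSet ∈ t := hqt (hxo ▸ hxq)
  -- rank of the cut
  have holim := ho.2.2.2.1
  have hco : (ct o t).rank < o := by
    refine (finZ_mem_Lv hM holim ho.2.2.1 (finZ_subset htc.fin ct_sub) fun Q hQ => ?_).2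
    exact ⟨hM.mem_of_mem htM (ct_sub hQ), (mem_ct.1 hQ).2⟩
  have hcP : ct o t ∈ P := (hP.2 _).2 (cond_cut hns htc o)
  have hcM := hM.mem_of_mem hPM hcP
  obtain ⟨β, hβ, hβξ⟩ := Ordinal.mem_toZFSet_iff.1 hξ
  have hβo : β < o := by
    by_contra hcon
    push Not at hcon
    have h1 := ho.2.2.2.2 o.toZFSet ho.1 ((hδ.ctb β hβ).mono
      (Ordinal.toZFSet_subset_toZFSet_iff.2 hcon)) (fun y hy => by
        have := ZFSet.rank_lt_of_mem hy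
        rwa [Ordinal.rank_toZFSet] at this)
    rw [Ordinal.rank_toZFSet] at h1
    exact lt_irrefl _ h1
  have hξr : ξ.rank < o := by rw [← hβξ, Ordinal.rank_toZFSet]; exact hβo
  have hzM : ZFSet.pair (ct o t) ξ ∈ M := hM.pair_mem hcM hξM
  have hwM : ZFSet.pair t o.toZFSet ∈ M := hM.pair_mem htM ho.1
  have htκ := sideB_rank hM hκ htc htM
  obtain ⟨w', rw'', h1, h2, s, ξ', t', β', h3, h4, h5, h6, h7⟩ := hcl ⟨_, hzM⟩ ⟨_, hwM⟩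
    ⟨_, hM.rank_mem hzM⟩ ⟨_, hM.rank_mem hwM⟩ rfl rfl (by
      rw [hxo]
      exact Ordinal.toZFSet_mem_toZFSet_iff.2 (rank_pair_lt holim hco hξr)) (by
      refine Ordinal.toZFSet_mem_toZFSet_iff.2 (rank_pair_lt hκ.lim htκ ?_)
      rw [Ordinal.rank_toZFSet]
      exact ho.2.1)
    ⟨⟨_, hcM⟩, ⟨ξ, hξM⟩, ⟨t, htM⟩, ⟨o.toZFSet, ho.1⟩, rfl, rfl, ct_sub, htP, hFt⟩
  have h3 : ZFSet.pair (ct o t) ξ = ZFSet.pair s.1 ξ'.1 := h3
  rw [ZFSet.pair_inj] at h3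
  have e : (⟨ξ, hξM⟩ : M) = ξ' := Subtype.ext h3.2
  subst e
  rw [h1, hxo] at h2
  have hw'o := Ordinal.toZFSet_mem_toZFSet_iff.1 h2
  rw [h4] at hw'o
  have h8 := rank_lt_pair t'.1 β'.1
  have ht'o : t'.1.rank < o := h8.1.trans hw'o
  have hβ'o : β'.1.rank < o := h8.2.trans hw'o
  have hct : ct o t ⊆ t'.1 := by rw [h3.1]; exact h5
  have huc := cond_A hns htc ((hP.2 _).1 h6) ho hot
    (fun Q hQ => (ZFSet.rank_lt_of_mem hQ).trans ht'o) hct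
  have huP := (hP.2 _).2 huc
  have huM := hM.mem_of_mem hPM huP
  have htu : t ⊆ t ∪ t'.1 := fun z hz => ZFSet.mem_union.2 (Or.inl hz)
  have ht'u : t'.1 ⊆ t ∪ t'.1 := fun z hz => ZFSet.mem_union.2 (Or.inr hz)
  have h9 := huniq ⟨_, huM⟩ ⟨ξ, hξM⟩ ⟨o.toZFSet, ho.1⟩ β' huP
    (fun z hz => htu (hqt (hs₀q hz))) hξ (hFt.mono htP htu) (h7.mono h6 ht'u)
  rw [← h9] at hβ'o
  have hβ'o : o.toZFSet.rank < o := hβ'o
  rw [Ordinal.rank_toZFSet] at hβ'o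
  exact lt_irrefl _ hβ'o

end Pool.Agent.H7.IG
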