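import Pool.Agent.H7.IG.SideNa
import Pool.Agent.H7.IG.Tk4

/-!
# IG, Part 1: the nodes satisfy the axioms `NS`; definability; the poset is a set of `M`

`ns_node`: `cut`: elements of a countable `x ∈ ct o N` have rank `< rk x < o`; `ct o' x` has rank `≤ rk x`; finite subsets of
`ct o N` have rank `< o` (limit). `rk`, `rkcut`: `N` (`ct o N`) is countable with elements of rank `< rk N` (`< o`) and `UCof`.
Definability over `M`: the rank function of `M` is definable (`exists_rankF`), `Ctb` is (`ud_Ctb`), ordinals `o` are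
represented by `o.toZFSet` (`isOrd`; an ordinal set `x` is `x.rank.toZFSet`); `FinZ`: `∃ n ∈ ω, ∃ f, f` maps `n` onto `x`
(for `x ∈ M`).
`exists_PK`: `P` is separated from the finite subsets (`exists_fin`) of `V_κ` of `M` (`exists_Lv`).
-/

set_option autoImplicit false
set_option linter.unusedVariables false
set_option linter.unusedSectionVars false
set_option linter.unusedSimpArgs false
set_option linter.unusedTactic false
set_option linter.unreachableTactic false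

namespace Pool.Agent.H7.IG

open Pool.Agent.H17.Omega Pool.Agent.H17.Omega.CTM Pool.Agent.H52.GX Pool.Agent.H52.GC

variable {M : Set ZFSet.{0}} (hM : CTM M) (κ : Ordinal.{0})

include hM

/-- The rank of `x` is at most the ordinal `y`, etc.: the relation `y = rk x` is definable. -/
theorem dfn_rank : hM.Dfn (fun v : Fin 2 → M => (v 1).1 = (v 0).1.rank.toZFSet) := by
  obtain ⟨F, hF, hF'⟩ := hM.exists_rankF
  refine hF.congr fun v => ?_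
  constructor
  · intro h
    rw [← hF', h]
  · intro h
    exact Subtype.ext ((hF' _).trans h.symm)

theorem dfn_finZ : hM.Dfn (fun v : Fin 1 → M => FinZ (v 0).1) := by
  have hd : hM.Dfn (fun v : Fin 1 → M => ∀ K : M, (∃ e ∈ K.1, e = ∅) →
      (∀ b ∈ K.1, ∀ z ∈ (v 0).1, ∃ c ∈ K.1, c = insert z b) → (v 0).1 ∈ K.1) := by
    (repeat' first
      | exact DT.var _ | exact DT.last | exact DT.const _ | assumption
      | refine Dfn.mem ?_ ?_ | refine Dfn.isInsert ?_ ?_ ?_ | refine Dfn.isEmpty ?_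
      | refine Dfn.imp ?_ ?_ | refine Dfn.all ?_ | refine Dfn.ballZ ?_ ?_ | refine Dfn.bexZ ?_ ?_)
  refine hd.congr fun v => ?_
  constructor
  · intro h
    obtain ⟨Fi, hFi, hFi'⟩ := exists_fin hM (v 0).2
    refine ((hFi' _).1 (h ⟨Fi, hFi⟩ ⟨∅, (hFi' _).2 ⟨fun z hz => absurd hz (ZFSet.notMem_empty z), ∅, fun z =>
      ⟨fun hz => absurd hz (ZFSet.notMem_empty z), fun hz => absurd hz (Finset.notMem_empty z)⟩⟩, rfl⟩
      ?_)).2
    intro b hb z hz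
    obtain ⟨h1, h2⟩ := (hFi' b).1 hb
    refine ⟨insert z b, (hFi' _).2 ⟨?_, finZ_insert h2⟩, rfl⟩
    intro y hy
    rcases ZFSet.mem_insert_iff.1 hy with rfl | hy
    · exact hz
    · exact h1 hy
  · classical
    rintro ⟨s, hs⟩ K ⟨e, heK, rfl⟩ hK
    have key : ∀ t : Finset ZFSet.{0}, t ⊆ s → ∀ b : ZFSet.{0}, (∀ z, z ∈ b ↔ z ∈ t) → b ∈ K.1 := by
      intro t
      induction t using Finset.induction_on with
      | empty =>
        intro _ b hb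
        have : b = ∅ := by
          rw [ZFSet.eq_empty]
          intro z hz
          exact absurd ((hb z).1 hz) (Finset.notMem_empty z)
        rw [this]
        exact heK
      | insert x t hx ih =>
        intro hts b hb
        have h1 : b = insert x (ZFSet.sep (fun z => z ∈ t) b) := by
          ext z
          rw [ZFSet.mem_insert_iff, ZFSet.mem_sep, hb, Finset.mem_insert]
          constructor
          · rintro (h | h)
            · exact Or.inl h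
            · exact Or.inr ⟨Or.inr h, h⟩
          · rintro (h | ⟨_, h⟩)
            · exact Or.inl h
            · exact Or.inr h
        have h2 : ZFSet.sep (fun z => z ∈ t) b ∈ K.1 := by
          refine ih (fun z hz => hts (Finset.mem_insert_of_mem hz)) _ (fun z => ?_)
          rw [ZFSet.mem_sep, hb, Finset.mem_insert]
          exact ⟨fun h => h.2, fun h => ⟨Or.inr h, h⟩⟩
        obtain ⟨c, hc, rfl⟩ := hK _ h2 x ((hs x).2 (hts (Finset.mem_insert_self _ _)))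
        rw [h1]
        exact hc
    exact key s (fun z hz => hz) _ hs

omit hM in
theorem nb_ord_eq {x : ZFSet.{0}} (h : x.IsOrdinal) : x = x.rank.toZFSet := h.toZFSet_rank_eq.symm

theorem nb_rank_mem {o : Ordinal.{0}} {x : M} {t : M} (ht : t.1 = o.toZFSet) :
    (∃ r : M, r.1 = x.1.rank.toZFSet ∧ r.1 ∈ t.1) ↔ x.1.rank < o := by
  rw [ht]
  constructor
  · rintro ⟨r, h1, h2⟩
    rw [h1, Ordinal.toZFSet_mem_toZFSet_iff] at h2
    exact h2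
  · intro h
    exact ⟨⟨x.1.rank.toZFSet, hM.rank_mem x.2⟩, rfl, Ordinal.toZFSet_mem_toZFSet_iff.2 h⟩

theorem dfn_rank_mem {k : ℕ} {s t : (Fin k → M) → M} (hs : hM.DT s) (ht : hM.DT t) :
    hM.Dfn (fun v => ∃ r : M, r.1 = (s v).1.rank.toZFSet ∧ r.1 ∈ (t v).1) := by
  refine Dfn.ex (Dfn.and (Dfn.subst2 (P := fun a b : M => b.1 = a.1.rank.toZFSet) (dfn_rank hM) hs.lift
    (DT.var _)) (Dfn.mem (DT.var _) ht.lift))

theorem dfn_Ctb {k : ℕ} {s : (Fin k → M) → M} (hs : hM.DT s) : hM.Dfn (fun v => Ctb M (s v).1) :=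
  UD.d1 (P := fun N x => Ctb N x.1) ud_Ctb (show M ∈ CtmC from hM) hs

theorem dfn_TrO (hκ : κ.toZFSet ∈ M) :
    hM.Dfn (fun v : Fin 1 → M => ∃ o, TrO M κ o ∧ (v 0).1 = o.toZFSet) := by
  have hd : hM.Dfn (fun v : Fin 1 → M => (v 0).1 ∈ (⟨κ.toZFSet, hκ⟩ : M).1 ∧ ¬ (v 0).1 = ∅ ∧
      (∀ γ ∈ (v 0).1, ∃ δ ∈ (v 0).1, δ = insert γ γ) ∧
      ∀ c : M, Ctb M c.1 → (∀ y : M, y.1 ∈ c.1 → ∃ r : M, r.1 = y.1.rank.toZFSet ∧ r.1 ∈ (v 0).1) →
        ∃ r : M, r.1 = c.1.rank.toZFSet ∧ r.1 ∈ (v 0).1) := by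
    refine Dfn.and ?_ (Dfn.and ?_ (Dfn.and ?_ (Dfn.all (Dfn.imp (dfn_Ctb hM (DT.var _)) (Dfn.imp
      (Dfn.all (Dfn.imp ?_ (dfn_rank_mem hM (DT.var _) (DT.var _)))) (dfn_rank_mem hM (DT.var _) (DT.var _)))))))
    all_goals
      (repeat' first
        | exact DT.var _ | exact DT.last | exact DT.const _ | assumption
        | refine Dfn.mem ?_ ?_ | refine Dfn.isInsert ?_ ?_ ?_ | refine Dfn.isEmpty ?_ | refine Dfn.not ?_
        | refine Dfn.imp ?_ ?_ | refine Dfn.all ?_ | refine Dfn.ballZ ?_ ?_ | refine Dfn.bexZ ?_ ?_)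
  refine hd.congr fun v => ?_
  constructor
  · rintro ⟨h1, h2, h3, h4⟩
    obtain ⟨o, ho, ho'⟩ := Ordinal.mem_toZFSet_iff.1 h1
    have hv : (v 0).1 = o.toZFSet := ho'.symm
    refine ⟨o, ⟨by rw [ho']; exact (v 0).2, ho, ?_, ?_, ?_⟩, hv⟩
    · rw [pos_iff_ne_zero]
      rintro rfl
      exact h2 (by rw [hv, Ordinal.toZFSet_zero])
    · intro γ hγ
      obtain ⟨δ, hδ, h5⟩ := h3 γ.toZFSet (by rw [hv]; exact Ordinal.toZFSet_mem_toZFSet_iff.2 hγ)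
      rw [← Ordinal.toZFSet_succ] at h5
      rw [h5, hv, Ordinal.toZFSet_mem_toZFSet_iff] at hδ
      exact hδ
    · intro x hx hc hy
      exact (nb_rank_mem hM (x := ⟨x, hx⟩) hv).1 (h4 ⟨x, hx⟩ hc (fun y hyx =>
        (nb_rank_mem hM hv).2 (hy y.1 hyx)))
  · rintro ⟨o, ⟨h1, h2, h3, h4, h5⟩, hv⟩
    refine ⟨by rw [hv]; exact Ordinal.toZFSet_mem_toZFSet_iff.2 h2, ?_, ?_, ?_⟩
    · intro h6
      rw [hv, ← Ordinal.toZFSet_zero] at h6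
      exact absurd (toZFSet_inj.1 h6) h3.ne'
    · intro γ hγ
      rw [hv] at hγ
      obtain ⟨a, ha, rfl⟩ := Ordinal.mem_toZFSet_iff.1 hγ
      refine ⟨(Order.succ a).toZFSet, ?_, Ordinal.toZFSet_succ a⟩
      rw [hv]
      exact Ordinal.toZFSet_mem_toZFSet_iff.2 (h4 a ha)
    · intro c hc hy
      refine (nb_rank_mem hM hv).2 (h5 c.1 c.2 hc (fun y hyc => ?_))
      exact (nb_rank_mem hM (x := ⟨y, hM.mem_of_mem c.2 hyc⟩) hv).1 (hy ⟨y, hM.mem_of_mem c.2 hyc⟩ hyc)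

theorem dfn_ct : hM.Dfn (fun v : Fin 3 → M => ∃ o : Ordinal.{0}, (v 0).1 = o.toZFSet ∧ (v 2).1 = ct o (v 1).1) := by
  have hd : hM.Dfn (fun v : Fin 3 → M => (v 0).1.IsOrdinal ∧ ∀ z : M, z.1 ∈ (v 2).1 ↔
      z.1 ∈ (v 1).1 ∧ ∃ r : M, r.1 = z.1.rank.toZFSet ∧ r.1 ∈ (v 0).1) :=
    Dfn.and (Dfn.isOrd (DT.var _)) (Dfn.all (Dfn.iff (Dfn.mem (DT.var _) (DT.var _))
      (Dfn.and (Dfn.mem (DT.var _) (DT.var _)) (dfn_rank_mem hM (DT.var _) (DT.var _)))))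
  refine hd.congr fun v => ?_
  constructor
  · rintro ⟨h1, h2⟩
    have hv := nb_ord_eq h1
    refine ⟨(v 0).1.rank, hv, ?_⟩
    ext z
    rw [mem_ct]
    constructor
    · intro hz
      have hzM := hM.mem_of_mem (v 2).2 hz
      obtain ⟨h3, h4⟩ := (h2 ⟨z, hzM⟩).1 hz
      exact ⟨h3, (nb_rank_mem hM hv).1 h4⟩
    · rintro ⟨h3, h4⟩
      have hzM := hM.mem_of_mem (v 1).2 h3
      exact (h2 ⟨z, hzM⟩).2 ⟨h3, (nb_rank_mem hM hv).2 h4⟩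
  · rintro ⟨o, h1, h2⟩
    refine ⟨by rw [h1]; exact ZFSet.isOrdinal_toZFSet o, fun z => ?_⟩
    rw [h2, mem_ct, nb_rank_mem hM h1]

theorem dfn_SmN (hκ : κ.toZFSet ∈ M) : hM.Dfn (fun v : Fin 1 → M => SmN M κ (v 0).1) := by
  have hd : hM.Dfn (fun v : Fin 1 → M => (∃ r : M, r.1 = (v 0).1.rank.toZFSet ∧ r.1 ∈ (⟨κ.toZFSet, hκ⟩ : M).1) ∧
      Ctb M (v 0).1 ∧ (∀ x : M, x.1 ∈ (v 0).1 → Ctb M x.1 → x.1 ⊆ (v 0).1) ∧
      (∀ x : M, x.1 ∈ (v 0).1 → ∀ t : M, (∃ o, TrO M κ o ∧ t.1 = o.toZFSet) → t.1 ∈ (v 0).1 →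
        ∃ c : M, (∃ o : Ordinal.{0}, t.1 = o.toZFSet ∧ c.1 = ct o x.1) ∧ c.1 ∈ (v 0).1) ∧
      ∀ a : M, FinZ a.1 → a.1 ⊆ (v 0).1 → a.1 ∈ (v 0).1) := by
    refine Dfn.and (dfn_rank_mem hM (DT.var _) (DT.const _)) (Dfn.and (dfn_Ctb hM (DT.var _)) (Dfn.and
      (Dfn.all (Dfn.imp ?_ (Dfn.imp (dfn_Ctb hM (DT.var _)) ?_))) (Dfn.and (Dfn.all (Dfn.imp ?_ (Dfn.all
      (Dfn.imp (Dfn.subst1 (P := fun t : M => ∃ o, TrO M κ o ∧ t.1 = o.toZFSet) (dfn_TrO hM κ hκ) (DT.var _))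
      (Dfn.imp ?_ (Dfn.ex (Dfn.and (Dfn.subst3
        (P := fun t x c : M => ∃ o : Ordinal.{0}, t.1 = o.toZFSet ∧ c.1 = ct o x.1) (dfn_ct hM) (DT.var _)
        (DT.var _) (DT.var _)) ?_))))))) (Dfn.all (Dfn.imp
      (Dfn.subst1 (P := fun a : M => FinZ a.1) (dfn_finZ hM) (DT.var _)) (Dfn.imp ?_ ?_))))))
    all_goals
      (repeat' first
        | exact DT.var _ | exact DT.last | exact DT.const _ | assumption
        | refine Dfn.mem ?_ ?_ | refine Dfn.subset ?_ ?_)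
  refine hd.congr fun v => ?_
  constructor
  · rintro ⟨h1, h2, h3, h4, h5⟩
    refine ⟨(v 0).2, (nb_rank_mem hM rfl).1 h1, h2, ?_, ?_, ?_⟩
    · intro x hx hc
      exact h3 ⟨x, hM.mem_of_mem (v 0).2 hx⟩ hx hc
    · intro x hx o ho hov
      obtain ⟨c, ⟨o', h6, h7⟩, h8⟩ := h4 ⟨x, hM.mem_of_mem (v 0).2 hx⟩ hx ⟨o.toZFSet, ho.1⟩ ⟨o, ho, rfl⟩ hov
      rw [toZFSet_inj.1 h6, ← h7]
      exact h8
    · intro a ha hav
      exact h5 ⟨a, ha.mem (X := a) hM (fun z hz => hM.mem_of_mem (v 0).2 (hav hz))⟩ ha hav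
  · intro h
    refine ⟨(nb_rank_mem hM rfl).2 h.rk, h.ctb, fun x hx hc => h.sub x.1 hx hc, ?_, fun a ha hav => h.fin a.1 ha hav⟩
    rintro x hx t ⟨o, ho, hto⟩ htv
    have h6 : ct o x.1 ∈ (v 0).1 := h.cut x.1 hx o ho (by rw [← hto]; exact htv)
    exact ⟨⟨ct o x.1, hM.mem_of_mem (v 0).2 h6⟩, ⟨o, hto, rfl⟩, h6⟩

/-- Conditions are definable. -/
theorem dfn_Cd (hκ : κ.toZFSet ∈ M) : hM.Dfn (fun v : Fin 1 → M => Cd (SmN M κ) (TrO M κ) (v 0).1) := by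
  let TR : M → Prop := fun t => ∃ o, TrO M κ o ∧ t.1 = o.toZFSet
  let CT : M → M → M → Prop := fun t x c => ∃ o : Ordinal.{0}, t.1 = o.toZFSet ∧ c.1 = ct o x.1
  let RK : M → M → Prop := fun a b => b.1 = a.1.rank.toZFSet
  let SM : M → Prop := fun x => SmN M κ x.1
  have hTR : hM.Dfn (fun v : Fin 1 → M => TR (v 0)) := dfn_TrO hM κ hκ
  have hCT : hM.Dfn (fun v : Fin 3 → M => CT (v 0) (v 1) (v 2)) := dfn_ct hM
  have hRK : hM.Dfn (fun v : Fin 2 → M => RK (v 0) (v 1)) := dfn_rank hM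
  have hSM : hM.Dfn (fun v : Fin 1 → M => SM (v 0)) := dfn_SmN hM κ hκ
  have hd : hM.Dfn (fun v : Fin 1 → M => FinZ (v 0).1 ∧
      (∀ Q : M, Q.1 ∈ (v 0).1 → SM Q ∨ TR Q) ∧
      (∀ Q : M, Q.1 ∈ (v 0).1 → ∀ Q' : M, Q'.1 ∈ (v 0).1 → (∃ r : M, RK Q r ∧ RK Q' r) → Q = Q') ∧
      (∀ N : M, N.1 ∈ (v 0).1 → SM N → ∀ Q : M, Q.1 ∈ (v 0).1 → (∃ a b : M, RK Q a ∧ RK N b ∧ a.1 ∈ b.1) →
        Q.1 ∈ N.1 ∨ ∃ t : M, TR t ∧ t.1 ∈ (v 0).1 ∧ t.1 ∈ N.1 ∧ ∃ c a b : M, CT t N c ∧ RK c a ∧ RK Q b ∧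
          a.1 ⊆ b.1 ∧ b.1 ∈ t.1) ∧
      ∀ N : M, N.1 ∈ (v 0).1 → SM N → ∀ t : M, TR t → t.1 ∈ (v 0).1 → t.1 ∈ N.1 →
        ∃ c : M, CT t N c ∧ c.1 ∈ (v 0).1) := by
    refine Dfn.and (dfn_finZ hM) ?_
    (repeat' first
      | exact DT.var _ | exact DT.last | exact DT.const _ | assumption
      | refine Dfn.mem ?_ ?_ | refine Dfn.eq ?_ ?_ | refine Dfn.subset ?_ ?_
      | exact Dfn.subst1 hTR (DT.var _) | exact Dfn.subst1 hSM (DT.var _)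
      | exact Dfn.subst2 hRK (DT.var _) (DT.var _) | exact Dfn.subst3 hCT (DT.var _) (DT.var _) (DT.var _)
      | refine Dfn.and ?_ ?_ | refine Dfn.or ?_ ?_ | refine Dfn.imp ?_ ?_ | refine Dfn.all ?_
      | refine Dfn.ex ?_)
  refine hd.congr fun v => ?_
  have hel : ∀ z ∈ (v 0).1, z ∈ M := fun z hz => hM.mem_of_mem (v 0).2 hz
  constructor
  · rintro ⟨h0, h1, h2, h3, h4⟩
    refine ⟨h0, ?_, ?_, ?_, ?_⟩
    · intro Q hQ
      exact h1 ⟨Q, hel Q hQ⟩ hQ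
    · intro Q hQ Q' hQ' hr
      exact congrArg Subtype.val (h2 ⟨Q, hel Q hQ⟩ hQ ⟨Q', hel Q' hQ'⟩ hQ'
        ⟨⟨Q.rank.toZFSet, hM.rank_mem (hel Q hQ)⟩, rfl, by
          show Q.rank.toZFSet = Q'.rank.toZFSet
          rw [hr]⟩)
    · intro N hN hSm Q hQ hr
      rcases h3 ⟨N, hel N hN⟩ hN hSm ⟨Q, hel Q hQ⟩ hQ ⟨⟨Q.rank.toZFSet, hM.rank_mem (hel Q hQ)⟩,
        ⟨N.rank.toZFSet, hM.rank_mem (hel N hN)⟩, rfl, rfl, Ordinal.toZFSet_mem_toZFSet_iff.2 hr⟩ with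
        h5 | ⟨t, ⟨o, ho, hto⟩, h6, h7, c, a, b, ⟨o', h8, h9⟩, h10, h11, h12, h13⟩
      · exact Or.inl h5
      · have hoo : o' = o := toZFSet_inj.1 (h8.symm.trans hto)
        subst hoo
        rw [hto] at h6 h7 h13
        have h10' : a.1 = c.1.rank.toZFSet := h10
        have h11' : b.1 = Q.rank.toZFSet := h11
        rw [h10', h11', h9, Ordinal.toZFSet_subset_toZFSet_iff] at h12
        rw [h11', Ordinal.toZFSet_mem_toZFSet_iff] at h13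
        exact Or.inr ⟨o', ho, h6, h7, h12, h13⟩
    · intro N hN hSm o ho hos hoN
      obtain ⟨c, ⟨o', h8, h9⟩, h10⟩ := h4 ⟨N, hel N hN⟩ hN hSm ⟨o.toZFSet, ho.1⟩ ⟨o, ho, rfl⟩ hos hoN
      have hoo : o = o' := toZFSet_inj.1 h8
      subst hoo
      rw [h9] at h10
      exact h10
  · rintro ⟨h0, h1, h2, h3, h4⟩
    refine ⟨h0, fun Q hQ => h1 Q.1 hQ, ?_, ?_, ?_⟩
    · rintro Q hQ Q' hQ' ⟨r, hr, hr'⟩
      exact Subtype.ext (h2 Q.1 hQ Q'.1 hQ' (toZFSet_inj.1 (Eq.trans (Eq.symm hr) hr')))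
    · rintro N hN hSm Q hQ ⟨a, b, ha, hb, hab⟩
      have ha' : a.1 = Q.1.rank.toZFSet := ha
      have hb' : b.1 = N.1.rank.toZFSet := hb
      rw [ha', hb', Ordinal.toZFSet_mem_toZFSet_iff] at hab
      rcases h3 N.1 hN hSm Q.1 hQ hab with h5 | ⟨o, ho, h6, h7, h8, h9⟩
      · exact Or.inl h5
      · have hcM : ct o N.1 ∈ M := ct_mem hM N.2 o
        exact Or.inr ⟨⟨o.toZFSet, ho.1⟩, ⟨o, ho, rfl⟩, h6, h7, ⟨ct o N.1, hcM⟩,
          ⟨_, hM.rank_mem hcM⟩, ⟨_, hM.rank_mem Q.2⟩, ⟨o, rfl, rfl⟩, rfl, rfl,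
          Ordinal.toZFSet_subset_toZFSet_iff.2 h8, Ordinal.toZFSet_mem_toZFSet_iff.2 h9⟩
    · rintro N hN hSm t ⟨o, ho, hto⟩ hts htN
      rw [hto] at hts htN
      exact ⟨⟨ct o N.1, ct_mem hM N.2 o⟩, ⟨o, hto, rfl⟩, h4 N.1 hN hSm o ho hts htN⟩

theorem exists_PK (hκ : κ.toZFSet ∈ M) : ∃ P, IsPK M κ P := by
  obtain ⟨K, hK, hK'⟩ := exists_Lv hM hκ
  obtain ⟨Fi, hFi, hFi'⟩ := exists_fin hM hK
  refine ⟨ZFSet.sep (fun s => Cd (SmN M κ) (TrO M κ) s) Fi, hM.sep_mem (dfn_Cd hM κ hκ) hFi, fun s => ?_⟩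
  rw [ZFSet.mem_sep]
  refine ⟨fun h => h.2, fun h => ⟨(hFi' s).2 ⟨fun Q hQ => (hK' Q).2 ?_, h.fin⟩, h⟩⟩
  rcases h.node Q hQ with h1 | ⟨o, h1, rfl⟩
  · exact ⟨h1.mem, h1.rk⟩
  · exact ⟨h1.1, by rw [Ordinal.rank_toZFSet]; exact h1.2.1⟩

end Pool.Agent.H7.IG
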