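import Pool.Agent.H7.IG.SideD
import Pool.Agent.H7.IG.Tk2
import Pool.Agent.H7.IG.Tk5
import Pool.Agent.H7.IG.SideN

/-!
# IG, Part 1: inaccessible `κ`, transitive nodes closed under functions

`exists_tr_closed`: recursion of length `δ = ω₁` (`exists_rec` / `exists_dep` with values in `κ`): `o_ξ < κ` increasing such that for
`z` of rank `< sup_{η<ξ} o_η` with a witness `w` of rank `< κ` there is one of rank `< o_ξ` (bounds exist because `V_α` has size `< κ` and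
`κ` is regular, `Inac.str`, `Inac.reg`); `o = sup o_ξ` has cofinality `ω₁`: `UCof M o`.
`tr_add`: `α + δ` is a transitive node for `α < κ`.
-/

set_option autoImplicit false
set_option linter.unusedVariables false
set_option linter.unusedSectionVars false
set_option linter.unusedSimpArgs false
set_option linter.unusedTactic false
set_option linter.unreachableTactic false

namespace Pool.Agent.H7.IG

open Pool.Agent.H17.Omega Pool.Agent.H17.Omega.CTM Pool.Agent.H52.GX Pool.Agent.H52.GC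

variable {M : Set ZFSet.{0}} (hM : CTM M) {κ : Ordinal.{0}} (hκ : Inac M κ)

theorem ca_mem_add {α ξ : Ordinal.{0}} {z : ZFSet.{0}} : z ∈ (α + ξ).toZFSet ↔
    z ∈ α.toZFSet ∨ ∃ η < ξ, z = (α + η).toZFSet := by
  rw [Ordinal.mem_toZFSet_iff, Ordinal.mem_toZFSet_iff]
  constructor
  · rintro ⟨γ, hγ, rfl⟩
    rcases lt_or_ge γ α with h | h
    · exact Or.inl ⟨γ, h, rfl⟩
    · refine Or.inr ⟨γ - α, ?_, by rw [Ordinal.add_sub_cancel_of_le h]⟩
      rw [← Ordinal.add_sub_cancel_of_le h] at hγ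
      exact (add_lt_add_iff_left α).1 hγ
  · rintro (⟨γ, hγ, rfl⟩ | ⟨η, hη, rfl⟩)
    · exact ⟨γ, hγ.trans_le le_self_add, rfl⟩
    · exact ⟨α + η, (add_lt_add_iff_left α).2 hη, rfl⟩

include hM in
/-- Ordinal addition inside the model. -/
theorem ca_addfn {α : Ordinal.{0}} (hα : α.toZFSet ∈ M) {δ : Ordinal.{0}} (hδ : δ.toZFSet ∈ M) :
    ∃ g ∈ M, ∀ z, z ∈ g ↔ ∃ ξ < δ, z = ZFSet.pair ξ.toZFSet (α + ξ).toZFSet := by
  let a : M := ⟨α.toZFSet, hα⟩
  let Φ : M → M → Prop := fun g y => ∀ z : M, z.1 ∈ y.1 ↔ (z.1 ∈ a.1 ∨ ∃ x : M, ZFSet.pair x.1 z.1 ∈ g.1)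
  have hΦ : hM.Dfn (fun v : Fin 2 → M => Φ (v 0) (v 1)) := by
    (repeat' first
      | exact DT.var _ | exact DT.last | exact DT.const _ | assumption
      | refine Dfn.pairMem ?_ ?_ ?_ | refine Dfn.isPair ?_ ?_ ?_ | refine Dfn.mem ?_ ?_
      | refine Dfn.and ?_ ?_ | refine Dfn.or ?_ ?_ | refine Dfn.iff ?_ ?_ | refine Dfn.not ?_
      | refine Dfn.imp ?_ ?_ | refine Dfn.all ?_ | refine Dfn.ex ?_)
  obtain ⟨g, hg, hgΦ⟩ := exists_rec hM hΦ hδ (by
    intro β hβ g hg _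
    obtain ⟨y, hy, hy'⟩ := hM.exists_sep (P := fun z => z.1 ∈ a.1 ∨ ∃ x : M, ZFSet.pair x.1 z.1 ∈ g.1)
      (by
        (repeat' first
          | exact DT.var _ | exact DT.last | exact DT.const _ | assumption
          | refine Dfn.pairMem ?_ ?_ ?_ | refine Dfn.mem ?_ ?_
          | refine Dfn.and ?_ ?_ | refine Dfn.or ?_ ?_ | refine Dfn.ex ?_))
      (hM.union_mem hα (hM.sUnion_mem (hM.sUnion_mem g.2)))
    refine ⟨⟨y, hy⟩, fun z => ?_, fun y' hy'' => ?_⟩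
    · show z.1 ∈ y ↔ _
      rw [hy']
      constructor
      · rintro ⟨_, _, h⟩
        exact h
      · intro h
        refine ⟨ZFSet.mem_union.2 ?_, z.2, h⟩
        rcases h with h | ⟨x, h⟩
        · exact Or.inl h
        · exact Or.inr (mem_sUnion_sUnion_pair h).2
    · apply Subtype.ext
      refine hM.ext' y'.2 hy fun z => ?_
      rw [hy'' z, hy']
      constructor
      · intro h
        refine ⟨ZFSet.mem_union.2 ?_, z.2, h⟩
        rcases h with h | ⟨x, h⟩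
        · exact Or.inl h
        · exact Or.inr (mem_sUnion_sUnion_pair h).2
      · rintro ⟨_, _, h⟩
        exact h)
  have key : ∀ ξ : Ordinal.{0}, ξ < δ → ZFSet.pair ξ.toZFSet (α + ξ).toZFSet ∈ g.1 := by
    intro ξ
    induction ξ using WellFoundedLT.induction with
    | _ ξ ih =>
      intro hξ
      obtain ⟨y, hy⟩ := hg.tot ξ.toZFSet (Ordinal.toZFSet_mem_toZFSet_iff.2 hξ)
      have hyM : y ∈ M := (hM.of_pair_mem (hM.mem_of_mem g.2 hy)).2
      have hξM : ξ.toZFSet ∈ M := hM.toZFSet_mem_of_le hξ.le hδ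
      have h1 := hgΦ ξ hξ ⟨_, rs_mem hM g.2 hξM⟩ ⟨y, hyM⟩ rfl hy
      have h2 : y = (α + ξ).toZFSet := by
        ext z
        rw [ca_mem_add]
        constructor
        · intro hz
          rcases (h1 ⟨z, hM.mem_of_mem hyM hz⟩).1 hz with h | ⟨x, hx⟩
          · exact Or.inl h
          · have hx' : ZFSet.pair x.1 z ∈ rs g.1 ξ.toZFSet := hx
            rw [pair_mem_rs] at hx'
            obtain ⟨η, hη, hηx⟩ := Ordinal.mem_toZFSet_iff.1 hx'.1
            refine Or.inr ⟨η, hη, ?_⟩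
            have h3 := ih η hη (hη.trans hξ)
            rw [hηx] at h3
            exact hg.uni _ _ _ hx'.2 h3
        · rintro (h | ⟨η, hη, rfl⟩)
          · exact (h1 ⟨z, hM.mem_of_mem hα h⟩).2 (Or.inl h)
          · have h3 := ih η hη (hη.trans hξ)
            have h4 := hM.of_pair_mem (hM.mem_of_mem g.2 h3)
            refine (h1 ⟨_, h4.2⟩).2 (Or.inr ⟨⟨_, h4.1⟩, ?_⟩)
            show ZFSet.pair η.toZFSet (α + η).toZFSet ∈ rs g.1 ξ.toZFSet
            rw [pair_mem_rs]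
            exact ⟨Ordinal.toZFSet_mem_toZFSet_iff.2 hη, h3⟩
      rwa [h2] at hy
  refine ⟨g.1, g.2, fun z => ⟨fun hz => ?_, ?_⟩⟩
  · obtain ⟨x, hx, y, rfl⟩ := hg.sub z hz
    obtain ⟨ξ, hξ, rfl⟩ := Ordinal.mem_toZFSet_iff.1 hx
    exact ⟨ξ, hξ, by rw [hg.uni _ _ _ hz (key ξ hξ)]⟩
  · rintro ⟨ξ, hξ, rfl⟩
    exact key ξ hξ

include hM in
theorem ca_add_mem {α : Ordinal.{0}} (hα : α.toZFSet ∈ M) {δ : Ordinal.{0}} (hδ : δ.toZFSet ∈ M) :
    (α + δ).toZFSet ∈ M := by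
  obtain ⟨g, hg, hg'⟩ := ca_addfn hM hα hδ
  have h1 : ∀ z, z ∈ (α + δ).toZFSet → z ∈ α.toZFSet ∪ ZFSet.sUnion (ZFSet.sUnion g) := by
    intro z hz
    rw [ZFSet.mem_union]
    rcases ca_mem_add.1 hz with h | ⟨η, hη, rfl⟩
    · exact Or.inl h
    · exact Or.inr (mem_sUnion_sUnion_pair ((hg' _).2 ⟨η, hη, rfl⟩)).2
  obtain ⟨y, hy, hy'⟩ := hM.exists_sep (P := fun z => z.1 ∈ (⟨_, hα⟩ : M).1 ∨
      ∃ x : M, ZFSet.pair x.1 z.1 ∈ (⟨g, hg⟩ : M).1)
    (by
      (repeat' first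
        | exact DT.var _ | exact DT.last | exact DT.const _ | assumption
        | refine Dfn.pairMem ?_ ?_ ?_ | refine Dfn.mem ?_ ?_
        | refine Dfn.and ?_ ?_ | refine Dfn.or ?_ ?_ | refine Dfn.ex ?_))
    (hM.union_mem hα (hM.sUnion_mem (hM.sUnion_mem hg)))
  have h2 : (α + δ).toZFSet = y := by
    ext z
    rw [hy']
    constructor
    · intro hz
      have h3 := h1 z hz
      have h3' : z ∈ M := by
        rcases ZFSet.mem_union.1 h3 with h | h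
        · exact hM.mem_of_mem hα h
        · exact hM.mem_of_mem (hM.sUnion_mem (hM.sUnion_mem hg)) h
      refine ⟨h3, h3', ?_⟩
      rcases ca_mem_add.1 hz with h | ⟨η, hη, rfl⟩
      · exact Or.inl h
      · have h4 := (hg' _).2 ⟨η, hη, rfl⟩
        exact Or.inr ⟨⟨_, (hM.of_pair_mem (hM.mem_of_mem hg h4)).1⟩, h4⟩
    · rintro ⟨_, _, h | ⟨x, hx⟩⟩
      · exact ca_mem_add.2 (Or.inl h)
      · obtain ⟨ξ, hξ, h⟩ := (hg' _).1 hx
        rw [ZFSet.pair_inj] at h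
        exact ca_mem_add.2 (Or.inr ⟨ξ, hξ, h.2⟩)
  rw [h2]
  exact hy

include hM in
/-- Countable sets of sets of rank `< o` whose ranks are bounded. -/
theorem ca_ranks {x : ZFSet.{0}} (hx : x ∈ M) : ∃ R ∈ M, ∀ z, z ∈ R ↔ ∃ y ∈ x, z = y.rank.toZFSet := by
  obtain ⟨b, hb, hb'⟩ := hM.exists_repl (F := fun a b : M => b.1 = a.1.rank.toZFSet) (dfn_rank hM) hx
    (by
      intro y _ r r' h1 h2
      exact Subtype.ext (h1.trans h2.symm))
  refine ⟨b, hb, fun z => ⟨fun hz => ?_, ?_⟩⟩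
  · obtain ⟨y, hy, h⟩ := (hb' ⟨z, hM.mem_of_mem hb hz⟩).1 hz
    exact ⟨y.1, hy, h⟩
  · rintro ⟨y, hy, rfl⟩
    exact (hb' ⟨_, hM.rank_mem (hM.mem_of_mem hx hy)⟩).2 ⟨⟨y, hM.mem_of_mem hx hy⟩, hy, rfl⟩

include hM in
theorem ca_ranks_ctb {x R : ZFSet.{0}} (hx : x ∈ M) (hR : R ∈ M) (h : ∀ z, z ∈ R ↔ ∃ y ∈ x, z = y.rank.toZFSet)
    (hc : Ctb M x) : Ctb M R := by
  refine Ctb.image hM hc hx (F := fun a b : M => b.1 = a.1.rank.toZFSet) (dfn_rank hM)
    (fun y _ r r' h1 h2 => Subtype.ext (h1.trans h2.symm)) fun z hz => ?_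
  obtain ⟨y, hy, rfl⟩ := (h z).1 hz
  exact ⟨⟨y, hM.mem_of_mem hx hy⟩, ⟨_, hM.mem_of_mem hR hz⟩, hy, rfl, rfl⟩

include hM in
theorem ca_om1_unique {δ δ' : Ordinal.{0}} (h : IsOm1 M δ) (h' : IsOm1 M δ') : δ = δ' := by
  rcases lt_trichotomy δ δ' with h1 | h1 | h1
  · exact absurd (h'.ctb δ h1) h.unc
  · exact h1
  · exact absurd (h.ctb δ' h1) h'.unc

include hM hκ

theorem Inac.ucof : UCof M κ := by
  obtain ⟨δ, hδκ, hδ⟩ := hκ.om
  refine ⟨zero_le.trans_lt hδκ, hκ.lim, fun x hx hc hr => ?_⟩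
  obtain ⟨R, hR, hR'⟩ := ca_ranks hM hx
  obtain ⟨β, hβ, hRβ⟩ := hκ.reg.2 δ hδκ R hR (by
    intro z hz
    obtain ⟨y, hy, rfl⟩ := (hR' z).1 hz
    exact Ordinal.toZFSet_mem_toZFSet_iff.2 (hr y hy)) (ctb_cvr_om1 hM hδ (ca_ranks_ctb hM hx hR hR' hc))
  refine lt_of_le_of_lt (ZFSet.rank_le_iff.2 fun y hy => ?_) hβ
  exact Ordinal.toZFSet_mem_toZFSet_iff.1 (hRβ ((hR' _).2 ⟨y, hy, rfl⟩))

theorem tr_add {δ : Ordinal.{0}} (hδ : IsOm1 M δ) {α : Ordinal.{0}} (hα : α < κ) : TrO M κ (α + δ) := by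
  have hαM : α.toZFSet ∈ M := hM.toZFSet_mem_of_le hα.le hκ.mem
  obtain ⟨g, hg, hg'⟩ := ca_addfn hM hαM hδ.mem
  have hδκ : δ < κ := by
    obtain ⟨δ', hδ'κ, hδ'⟩ := hκ.om
    rwa [ca_om1_unique hM hδ hδ']
  have hguni : ∀ x y y' : ZFSet.{0}, ZFSet.pair x y ∈ g → ZFSet.pair x y' ∈ g → y = y' := by
    intro x y y' h1 h2
    obtain ⟨ξ, _, h3⟩ := (hg' _).1 h1
    obtain ⟨ξ', _, h4⟩ := (hg' _).1 h2
    rw [ZFSet.pair_inj] at h3 h4
    have h5 := Ordinal.toZFSet_injective (h3.1.symm.trans h4.1)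
    rw [h3.2, h4.2, h5]
  have hpos : (0 : Ordinal.{0}) < δ := by exact_mod_cast hδ.omega_lt hM 0
  have hlt : α + δ < κ := by
    by_contra hcon
    rw [not_lt] at hcon
    obtain ⟨x, hx, hx'⟩ := hM.exists_sep (P := fun z => ∃ a : M, ZFSet.pair a.1 z.1 ∈ (⟨g, hg⟩ : M).1)
      (by
        (repeat' first
          | exact DT.var _ | exact DT.last | exact DT.const _ | assumption
          | refine Dfn.pairMem ?_ ?_ ?_ | refine Dfn.ex ?_)) hκ.mem
    obtain ⟨β, hβ, hxβ⟩ := hκ.reg.2 δ hδκ x hx (fun z hz => ((hx' z).1 hz).1) ⟨g, hg,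
      fun y _ z z' h1 h2 => hguni y z z' h1 h2, fun z hz => by
        obtain ⟨_, _, a, ha⟩ := (hx' z).1 hz
        obtain ⟨ξ, hξ, h3⟩ := (hg' _).1 ha
        rw [ZFSet.pair_inj] at h3
        exact ⟨a.1, by rw [h3.1]; exact Ordinal.toZFSet_mem_toZFSet_iff.2 hξ, ha⟩⟩
    have h1 : max β α < κ := max_lt hβ hα
    have h2 : α + (max β α - α) = max β α := Ordinal.add_sub_cancel_of_le (le_max_right _ _)
    have h3 : max β α - α < δ := by
      have h4 : α + (max β α - α) < α + δ := by rw [h2]; exact h1.trans_le hcon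
      exact (add_lt_add_iff_left α).1 h4
    have h4 : ZFSet.pair (max β α - α).toZFSet (max β α).toZFSet ∈ g := by
      have := (hg' _).2 ⟨max β α - α, h3, rfl⟩
      rwa [h2] at this
    have h5 : (max β α).toZFSet ∈ x := by
      have h6 := hM.of_pair_mem (hM.mem_of_mem hg h4)
      exact (hx' _).2 ⟨Ordinal.toZFSet_mem_toZFSet_iff.2 h1, h6.2, ⟨_, h6.1⟩, h4⟩
    exact absurd (Ordinal.toZFSet_mem_toZFSet_iff.1 (hxβ h5)) (not_lt.2 (le_max_left _ _))
  refine ⟨ca_add_mem hM hαM hδ.mem, hlt, hpos.trans_le (by simp), fun γ hγ => ?_, fun x hx hc hr => ?_⟩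
  · rcases lt_or_ge γ α with h | h
    · exact (Order.succ_le_of_lt h).trans_lt (lt_add_of_pos_right α hpos)
    · have h2 : α + (γ - α) = γ := Ordinal.add_sub_cancel_of_le h
      have h3 : γ - α < δ := by
        rw [← h2] at hγ
        exact (add_lt_add_iff_left α).1 hγ
      have h4 := hδ.succ_lt hM h3
      calc Order.succ γ = α + (γ - α + 1) := by
            rw [← add_assoc, h2, Order.succ_eq_add_one]
        _ < α + δ := (add_lt_add_iff_left α).2 h4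
  · obtain ⟨R, hR, hR'⟩ := ca_ranks hM hx
    obtain ⟨β, hβ, hβ'⟩ := hδ.bdd hM hR (ca_ranks_ctb hM hx hR hR' hc)
      (F := fun a b : M => ZFSet.pair b.1 a.1 ∈ (⟨g, hg⟩ : M).1) (by
        (repeat' first
          | exact DT.var _ | exact DT.last | exact DT.const _ | assumption
          | refine Dfn.pairMem ?_ ?_ ?_)) (by
        intro a _ b b' h1 h2
        obtain ⟨ξ, _, h3⟩ := (hg' _).1 h1
        obtain ⟨ξ', _, h4⟩ := (hg' _).1 h2
        rw [ZFSet.pair_inj] at h3 h4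
        have h5 := Ordinal.toZFSet_injective (h3.2.symm.trans h4.2)
        have h6 : ξ = ξ' := (add_right_inj α).1 h5
        exact Subtype.ext (by rw [h3.1, h4.1, h6]))
    have h7 : x.rank ≤ α + (β + 1) := by
      refine ZFSet.rank_le_iff.2 fun y hy => ?_
      rcases lt_or_ge y.rank α with h | h
      · exact h.trans_le le_self_add
      · have h2 : α + (y.rank - α) = y.rank := Ordinal.add_sub_cancel_of_le h
        have h3 : y.rank - α < δ := by
          have h4 : α + (y.rank - α) < α + δ := by rw [h2]; exact hr y hy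
          exact (add_lt_add_iff_left α).1 h4
        have h4 : ZFSet.pair (y.rank - α).toZFSet y.rank.toZFSet ∈ g := by
          have := (hg' _).2 ⟨y.rank - α, h3, rfl⟩
          rwa [h2] at this
        have h5 := hM.of_pair_mem (hM.mem_of_mem hg h4)
        have h6 := hβ' ⟨y.rank.toZFSet, h5.2⟩ ((hR' _).2 ⟨y, hy, rfl⟩) ⟨_, h5.1⟩ h4 _ h3 rfl
        rw [← h2]
        exact (add_lt_add_iff_left α).2 (Order.lt_add_one_iff.2 h6)
    exact h7.trans_lt ((add_lt_add_iff_left α).2 (hδ.succ_lt hM hβ))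

/-- There are no transitive nodes strictly between `o` and `o + δ`. -/
theorem no_tr {δ : Ordinal.{0}} (hδ : IsOm1 M δ) {o o' : Ordinal.{0}} (ho : o.toZFSet ∈ M) (h1 : o < o')
    (h2 : o' < o + δ) : ¬ TrO M κ o' := by
  rintro ⟨hmem, _, _, _, hcof⟩
  obtain ⟨g, hg, hg'⟩ := ca_addfn hM ho hδ.mem
  have h3 : o + (o' - o) = o' := Ordinal.add_sub_cancel_of_le h1.le
  have h4 : o' - o < δ := by
    rw [← h3] at h2
    exact (add_lt_add_iff_left o).1 h2
  obtain ⟨x, hx, hx'⟩ := hM.exists_sep (P := fun z => ¬ z.1 ∈ (⟨_, ho⟩ : M).1)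
    (Dfn.not (Dfn.mem (DT.var _) (DT.const _))) hmem
  have hxm : ∀ z, z ∈ x ↔ ∃ γ, o ≤ γ ∧ γ < o' ∧ z = γ.toZFSet := by
    intro z
    rw [hx']
    constructor
    · rintro ⟨h5, _, h6⟩
      obtain ⟨γ, hγ, rfl⟩ := Ordinal.mem_toZFSet_iff.1 h5
      exact ⟨γ, not_lt.1 fun h => h6 (Ordinal.toZFSet_mem_toZFSet_iff.2 h), hγ, rfl⟩
    · rintro ⟨γ, h5, h6, rfl⟩
      exact ⟨Ordinal.toZFSet_mem_toZFSet_iff.2 h6, hM.toZFSet_mem_of_le h6.le hmem,
        fun h => absurd (Ordinal.toZFSet_mem_toZFSet_iff.1 h) (not_lt.2 h5)⟩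
  have hctb : Ctb M x := by
    refine Ctb.image hM (hδ.ctb _ h4) (hM.toZFSet_mem_of_le h4.le hδ.mem)
      (F := fun a b : M => ZFSet.pair a.1 b.1 ∈ (⟨g, hg⟩ : M).1) (by
        (repeat' first
          | exact DT.var _ | exact DT.last | exact DT.const _ | assumption
          | refine Dfn.pairMem ?_ ?_ ?_)) ?_ ?_
    · intro a _ b b' h5 h6
      obtain ⟨ξ, _, h7⟩ := (hg' _).1 h5
      obtain ⟨ξ', _, h8⟩ := (hg' _).1 h6
      rw [ZFSet.pair_inj] at h7 h8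
      have h9 := Ordinal.toZFSet_injective (h7.1.symm.trans h8.1)
      exact Subtype.ext (by rw [h7.2, h8.2, h9])
    · intro z hz
      obtain ⟨γ, h5, h6, rfl⟩ := (hxm z).1 hz
      have h7 : o + (γ - o) = γ := Ordinal.add_sub_cancel_of_le h5
      have h8 : γ - o < o' - o := by
        have h9 : o + (γ - o) < o + (o' - o) := by rw [h7, h3]; exact h6
        exact (add_lt_add_iff_left o).1 h9
      have h9 : ZFSet.pair (γ - o).toZFSet γ.toZFSet ∈ g := by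
        have := (hg' _).2 ⟨γ - o, h8.trans h4, rfl⟩
        rwa [h7] at this
      have h10 := hM.of_pair_mem (hM.mem_of_mem hg h9)
      exact ⟨⟨_, h10.1⟩, ⟨_, h10.2⟩, Ordinal.toZFSet_mem_toZFSet_iff.2 h8, rfl, h9⟩
  have hr : x.rank < o' := hcof x hx hctb fun z hz => by
    obtain ⟨γ, h5, h6, rfl⟩ := (hxm z).1 hz
    rwa [Ordinal.rank_toZFSet]
  have h5 : max x.rank o < o' := max_lt hr h1
  have h6 : (max x.rank o).toZFSet ∈ x := (hxm _).2 ⟨_, le_max_right _ _, h5, rfl⟩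
  have h7 := ZFSet.rank_lt_of_mem h6
  rw [Ordinal.rank_toZFSet] at h7
  exact absurd h7 (not_lt.2 (le_max_left _ _))

end Pool.Agent.H7.IG
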