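import Pool.Agent.H7.IG.Gx

/-!
# IG: the product lemma

`P, Q ∈ M`; `G` is `P`-generic over `M`, `H` is `Q`-generic over `M[G]`. Then `H` is `Q`-generic over `M` (trivial: `M ⊆ M[G]`), and
`G` is `P`-generic over `M[H]`: let `D ∈ M[H]` be dense in `P`, `D = vl H τ`, and let `q₀ ∈ H` force over `M` that `τ` is dense in `P`
(`Frc.truth`; `P` is a ground model argument). In `M[G]` let `E = {q ∈ Q : q₀ ⊆ q, there is p ∈ G` such that `q` forces `p ∈ τ}`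
(definable over `M[G]`? the forcing relation of `M` is definable over `M`; so first form in `M` the set
`T = {(q, p) : q ∈ Q, p ∈ P, Frc M Q ... q (p ∈ τ)} ∈ M`; then `E = {q ∈ Q : ∃ p ∈ G, (q, p) ∈ T} ∈ M[G]`). `E` is dense below `q₀`:
let `q ⊇ q₀`; in `M` the set `D_q = {p ∈ P : some q' ⊇ q has (q', p) ∈ T}` is dense in `P` (let `p ∈ P`; take a `Q`-generic `H' ∋ q` over `M`,
`exists_gen`; `vl H' τ` is dense, so some `p' ⊇ p` is in it, forced by some `q' ∈ H'`, and `q' ∪ q ⊆ q'' ∈ H'`), so `G` meets `D_q`.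
Hence `H` meets `E` (`Gen.meet` over `M[G]`): `q ∈ H`, `p ∈ G`, `(q, p) ∈ T`, so `p ∈ D`.
The equality of the extensions: minimality (`xt_min`) in both directions.
-/

set_option autoImplicit false
set_option linter.unusedVariables false
set_option linter.unusedSectionVars false
set_option linter.unusedSimpArgs false
set_option linter.unusedTactic false
set_option linter.unreachableTactic false

namespace Pool.Agent.H7.IG

open Pool.Agent.H17.Omega Pool.Agent.H17.Omega.CTM Pool.Agent.H52.GX Pool.Agent.H52.GC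

variable {M : Set ZFSet.{0}} {P Q G H : ZFSet.{0}}

/-- density of the value of a name -/
theorem gn2_ud : UD CtmC (fun N (v : Fin 2 → N) => ∀ p ∈ (v 0).1, ∃ q ∈ (v 0).1, p ⊆ q ∧ q ∈ (v 1).1) := by
  have h : UD CtmC (fun N (v : Fin 2 → N) => ∀ p : N, p.1 ∈ (v 0).1 → ∃ q : N, q.1 ∈ (v 0).1 ∧
      p.1 ⊆ q.1 ∧ q.1 ∈ (v 1).1) := by
    (repeat' first
      | exact UT.var _ | exact UT.last | assumption
      | refine UD.pairMem ?_ ?_ ?_ | refine UD.isPair ?_ ?_ ?_ | refine UD.mem ?_ ?_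
      | refine UD.eqv ?_ ?_ | refine UD.eq ?_ ?_ | refine UD.subset ?_ ?_
      | refine UD.isEmpty ?_ | refine UD.isTrans ?_ | refine UD.isOrd ?_ | refine UD.isNat ?_
      | refine UD.isUpair ?_ ?_ ?_ | refine UD.isInsert ?_ ?_ ?_ | refine UD.isUnion ?_ ?_ ?_
      | refine UD.and ?_ ?_ | refine UD.or ?_ ?_ | refine UD.iff ?_ ?_ | refine UD.not ?_
      | refine UD.imp ?_ ?_ | refine UD.all ?_ | refine UD.ex ?_ | exact UD.false' | exact UD.true'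
      | refine UD.ball ?_ ?_ | refine UD.bex ?_ ?_)
  refine h.congr fun N hN v => ?_
  have hN' : CTM N := hN
  constructor
  · intro h p hp
    obtain ⟨q, h1, h2, h3⟩ := h ⟨p, hN'.mem_of_mem (v 0).2 hp⟩ hp
    exact ⟨q.1, h1, h2, h3⟩
  · intro h p hp
    obtain ⟨q, h1, h2, h3⟩ := h p.1 hp
    exact ⟨⟨q, hN'.mem_of_mem (v 0).2 h1⟩, h1, h2, h3⟩

theorem gn2_ud_mem : UD CtmC (fun N (v : Fin 2 → N) => (v 0).1 ∈ (v 1).1) := by
  (repeat' first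
      | exact UT.var _ | exact UT.last | assumption
      | refine UD.pairMem ?_ ?_ ?_ | refine UD.isPair ?_ ?_ ?_ | refine UD.mem ?_ ?_
      | refine UD.eqv ?_ ?_ | refine UD.eq ?_ ?_ | refine UD.subset ?_ ?_
      | refine UD.isEmpty ?_ | refine UD.isTrans ?_ | refine UD.isOrd ?_ | refine UD.isNat ?_
      | refine UD.isUpair ?_ ?_ ?_ | refine UD.isInsert ?_ ?_ ?_ | refine UD.isUnion ?_ ?_ ?_
      | refine UD.and ?_ ?_ | refine UD.or ?_ ?_ | refine UD.iff ?_ ?_ | refine UD.not ?_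
      | refine UD.imp ?_ ?_ | refine UD.all ?_ | refine UD.ex ?_ | exact UD.false' | exact UD.true'
      | refine UD.ball ?_ ?_ | refine UD.bex ?_ ?_)

/-- a filter that is generic over the larger model is generic over the smaller one -/
theorem Gen.of_xt (hM : CTM M) (hP : P ∈ M) (hG : Gen M P G) (hH : Gen (Xt M G) Q H) : Gen M Q H :=
  ⟨hH.sub, hH.ne, hH.up, hH.dir, fun D hD h => hH.gen D (hG.sub_xt hM hP hD) h⟩

theorem Gen.prod_gen (hM : CTM M) (hP : P ∈ M) (hQ : Q ∈ M) (hG : Gen M P G) (hH : Gen (Xt M G) Q H) :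
    Gen (Xt M H) P G := by
  have hW : CTM (Xt M G) := hG.ctm hM hP
  have hMW : M ⊆ Xt M G := hG.sub_xt hM hP
  have hGW : G ∈ Xt M G := hG.mem_xt hM hP
  have hHM : Gen M Q H := Gen.of_xt hM hP hG hH
  refine ⟨hG.sub, hG.ne, hG.up, hG.dir, ?_⟩
  rintro D ⟨τ, hτ, rfl⟩ hD
  -- `q₀` forces density
  have hMH : M ⊆ Xt M H := hHM.sub_xt hM hQ
  obtain ⟨q₀, hq₀, hF⟩ := (Frc.truth gn2_ud hM hQ hHM (![Ar.g ⟨P, hP⟩, Ar.n ⟨τ, hτ⟩])
    (![⟨P, hMH hP⟩, ⟨vl H τ, ⟨τ, hτ, rfl⟩⟩] : Fin 2 → Xt M H)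
    (by intro i; fin_cases i <;> rfl)).1 hD
  have hq₀Q := hHM.sub q₀ hq₀
  -- the set `T`
  obtain ⟨T, hT, hT'⟩ := hM.exists_sep (P := fun z => ∃ q p : M, z.1 = ZFSet.pair q.1 p.1 ∧
    Frc M Q (fun N (v : Fin 2 → N) => (v 0).1 ∈ (v 1).1) q.1 ![Ar.g p, Ar.n ⟨τ, hτ⟩]) (by
    (repeat' first
      | exact DT.var _ | exact DT.last | exact DT.const _ | assumption
      | refine Dfn.pairMem ?_ ?_ ?_ | refine Dfn.isPair ?_ ?_ ?_ | refine Dfn.mem ?_ ?_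
      | refine Dfn.eqv ?_ ?_ | refine Dfn.eq ?_ ?_ | refine Dfn.subset ?_ ?_
      | refine Dfn.isEmpty ?_ | refine Dfn.isTrans ?_ | refine Dfn.isOrd ?_ | refine Dfn.isNat ?_
      | refine Dfn.isUpair ?_ ?_ ?_ | refine Dfn.isInsert ?_ ?_ ?_
      | refine Dfn.and ?_ ?_ | refine Dfn.or ?_ ?_ | refine Dfn.iff ?_ ?_ | refine Dfn.not ?_
      | refine Dfn.imp ?_ ?_ | refine Dfn.all ?_ | refine Dfn.ex ?_ | exact Dfn.false'
      | refine Dfn.ballZ ?_ ?_ | refine Dfn.bexZ ?_ ?_ | exact Dfn.const _)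
    exact Frc.dfn2 gn2_ud_mem hQ (DT.var _) (AT.g (DT.var _)) (AT.n (DT.const _)))
    (hM.prod_mem hQ hP)
  have hTm : ∀ q p : M, ZFSet.pair q.1 p.1 ∈ T ↔ q.1 ∈ Q ∧ p.1 ∈ P ∧
      Frc M Q (fun N (v : Fin 2 → N) => (v 0).1 ∈ (v 1).1) q.1 ![Ar.g p, Ar.n ⟨τ, hτ⟩] := by
    intro q p
    rw [hT']
    constructor
    · rintro ⟨h1, _, q', p', h2, h3⟩
      rw [ZFSet.pair_mem_prod] at h1
      have h2 : ZFSet.pair q.1 p.1 = ZFSet.pair q'.1 p'.1 := h2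
      rw [ZFSet.pair_inj] at h2
      have e1 : q = q' := Subtype.ext h2.1
      have e2 : p = p' := Subtype.ext h2.2
      subst e1 e2
      exact ⟨h1.1, h1.2, h3⟩
    · rintro ⟨h1, h2, h3⟩
      refine ⟨?_, hM.pair_mem q.2 p.2, q, p, rfl, h3⟩
      rw [ZFSet.pair_mem_prod]
      exact ⟨h1, h2⟩
  obtain ⟨q, hqH, -, p, hpG, hqp⟩ := hH.meet hW (hMW hQ)
    (D := fun q => ∃ p : Xt M G, p.1 ∈ (⟨G, hGW⟩ : Xt M G).1 ∧
      ZFSet.pair q.1 p.1 ∈ (⟨T, hMW hT⟩ : Xt M G).1) (by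
    (repeat' first
      | exact DT.var _ | exact DT.last | exact DT.const _ | assumption
      | refine Dfn.pairMem ?_ ?_ ?_ | refine Dfn.isPair ?_ ?_ ?_ | refine Dfn.mem ?_ ?_
      | refine Dfn.eqv ?_ ?_ | refine Dfn.eq ?_ ?_ | refine Dfn.subset ?_ ?_
      | refine Dfn.isEmpty ?_ | refine Dfn.isTrans ?_ | refine Dfn.isOrd ?_ | refine Dfn.isNat ?_
      | refine Dfn.isUpair ?_ ?_ ?_ | refine Dfn.isInsert ?_ ?_ ?_
      | refine Dfn.and ?_ ?_ | refine Dfn.or ?_ ?_ | refine Dfn.iff ?_ ?_ | refine Dfn.not ?_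
      | refine Dfn.imp ?_ ?_ | refine Dfn.all ?_ | refine Dfn.ex ?_ | exact Dfn.false'
      | refine Dfn.ballZ ?_ ?_ | refine Dfn.bexZ ?_ ?_ | exact Dfn.const _)) hq₀ (by
    intro r hr hqr
    have hrM := hM.mem_of_mem hQ hr
    obtain ⟨p₀, hp₀⟩ := hG.ne
    obtain ⟨p, hpG, -, q', hq'Q, hrq', hq'p⟩ := hG.meet hM hP
      (D := fun p => ∃ q' : M, q'.1 ∈ (⟨Q, hQ⟩ : M).1 ∧ (⟨r, hrM⟩ : M).1 ⊆ q'.1 ∧
        ZFSet.pair q'.1 p.1 ∈ (⟨T, hT⟩ : M).1) (by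
      (repeat' first
      | exact DT.var _ | exact DT.last | exact DT.const _ | assumption
      | refine Dfn.pairMem ?_ ?_ ?_ | refine Dfn.isPair ?_ ?_ ?_ | refine Dfn.mem ?_ ?_
      | refine Dfn.eqv ?_ ?_ | refine Dfn.eq ?_ ?_ | refine Dfn.subset ?_ ?_
      | refine Dfn.isEmpty ?_ | refine Dfn.isTrans ?_ | refine Dfn.isOrd ?_ | refine Dfn.isNat ?_
      | refine Dfn.isUpair ?_ ?_ ?_ | refine Dfn.isInsert ?_ ?_ ?_
      | refine Dfn.and ?_ ?_ | refine Dfn.or ?_ ?_ | refine Dfn.iff ?_ ?_ | refine Dfn.not ?_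
      | refine Dfn.imp ?_ ?_ | refine Dfn.all ?_ | refine Dfn.ex ?_ | exact Dfn.false'
      | refine Dfn.ballZ ?_ ?_ | refine Dfn.bexZ ?_ ?_ | exact Dfn.const _)) hp₀ (by
      intro p hp _
      obtain ⟨H', hH', hrH'⟩ := exists_gen hM hQ hr
      have hMH' : M ⊆ Xt M H' := hH'.sub_xt hM hQ
      have hq₀' : q₀ ∈ H' := hH'.up r hrH' q₀ hq₀Q hqr
      have hd := hF H' hH' hq₀' (![⟨P, hMH' hP⟩, ⟨vl H' τ, ⟨τ, hτ, rfl⟩⟩] : Fin 2 → Xt M H')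
        (by intro i; fin_cases i <;> rfl)
      obtain ⟨p', hp'P, hpp', hp'D⟩ := hd p hp
      have hp'M : p' ∈ M := hM.mem_of_mem hP hp'P
      obtain ⟨q', hq', hF'⟩ := (Frc.truth gn2_ud_mem hM hQ hH' (![Ar.g ⟨p', hp'M⟩, Ar.n ⟨τ, hτ⟩])
        (![⟨p', hMH' hp'M⟩, ⟨vl H' τ, ⟨τ, hτ, rfl⟩⟩] : Fin 2 → Xt M H')
        (by intro i; fin_cases i <;> rfl)).1 hp'D
      obtain ⟨q'', hq'', h1, h2⟩ := hH'.dir q' hq' r hrH'
      have hq''Q := hH'.sub _ hq''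
      have hq''M := hM.mem_of_mem hQ hq''Q
      refine ⟨⟨p', hp'M⟩, hp'P, hpp', ⟨q'', hq''M⟩, hq''Q, h2, ?_⟩
      exact (hTm ⟨q'', hq''M⟩ ⟨p', hp'M⟩).2 ⟨hq''Q, hp'P, hF'.mono (hH'.sub _ hq') h1⟩)
    refine ⟨⟨q'.1, hMW q'.2⟩, hq'Q, hrq', ⟨p.1, hMW p.2⟩, hpG, hq'p⟩)
  have hpP : p.1 ∈ P := hG.sub _ hpG
  have hqQ : q.1 ∈ Q := hH.sub _ hqH
  have hpM : p.1 ∈ M := hM.mem_of_mem hP hpP
  have hqM : q.1 ∈ M := hM.mem_of_mem hQ hqQ
  have h3 := ((hTm ⟨q.1, hqM⟩ ⟨p.1, hpM⟩).1 hqp).2.2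
  exact ⟨p.1, hpG, h3 H hHM hqH (![⟨p.1, hMH hpM⟩, ⟨vl H τ, ⟨τ, hτ, rfl⟩⟩] : Fin 2 → Xt M H)
    (by intro i; fin_cases i <;> rfl)⟩

theorem Gen.prod (hM : CTM M) (hP : P ∈ M) (hQ : Q ∈ M) (hG : Gen M P G) (hH : Gen (Xt M G) Q H) :
    Gen M Q H ∧ Gen (Xt M H) P G ∧ Xt (Xt M H) G = Xt (Xt M G) H := by
  have hW : CTM (Xt M G) := hG.ctm hM hP
  have hMW : M ⊆ Xt M G := hG.sub_xt hM hP
  have hGW : G ∈ Xt M G := hG.mem_xt hM hP
  have hHM : Gen M Q H := Gen.of_xt hM hP hG hH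
  have hMH : M ⊆ Xt M H := hHM.sub_xt hM hQ
  have hHH : H ∈ Xt M H := hHM.mem_xt hM hQ
  have hWH : CTM (Xt M H) := hHM.ctm hM hQ
  have hG' := Gen.prod_gen hM hP hQ hG hH
  refine ⟨hHM, hG', ?_⟩
  have h1 : CTM (Xt (Xt M G) H) := hH.ctm hW (hMW hQ)
  have h2 : CTM (Xt (Xt M H) G) := hG'.ctm hWH (hMH hP)
  have h3 : Xt M G ⊆ Xt (Xt M G) H := hH.sub_xt hW (hMW hQ)
  have h4 : Xt M H ⊆ Xt (Xt M H) G := hG'.sub_xt hWH (hMH hP)
  apply Set.Subset.antisymm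
  · exact xt_min h1 (xt_min h1 (hMW.trans h3) (hH.mem_xt hW (hMW hQ))) (h3 hGW)
  · exact xt_min h2 (xt_min h2 (hMH.trans h4) (hG'.mem_xt hWH (hMH hP))) (h4 hHH)

end Pool.Agent.H7.IG
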