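import Pool.Agent.H7.IG.KeyD
import Pool.Agent.H7.IG.Gx4

/-!
# IG, Part 3: strong properness is preserved by ccc extensions
-/

set_option autoImplicit false
set_option linter.unusedVariables false
set_option linter.unusedSectionVars false
set_option linter.unusedSimpArgs false
set_option linter.unusedTactic false
set_option linter.unreachableTactic false

namespace Pool.Agent.H7.IG

open Pool.Agent.H17.Omega Pool.Agent.H17.Omega.CTM Pool.Agent.H52.GX Pool.Agent.H52.GC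

variable {M W : Set ZFSet.{0}} {S G : ZFSet.{0}}

/-- Natural numbers are in every set closed under finite subsets. -/
theorem keyCcc_nat {Z : ZFSet.{0}} (hZ : ∀ a, FinZ a → a ⊆ Z → a ∈ Z) (n : ℕ) : natZ n ∈ Z := by
  classical
  induction n using Nat.strong_induction_on with
  | _ n ih =>
    refine hZ _ ⟨(Finset.range n).image natZ, fun z => ?_⟩ fun z hz => ?_
    · rw [mem_natZ, Finset.mem_image]
      exact ⟨fun ⟨m, hm, e⟩ => ⟨m, Finset.mem_range.2 hm, e.symm⟩,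
        fun ⟨m, hm, e⟩ => ⟨m, Finset.mem_range.1 hm, e.symm⟩⟩
    · obtain ⟨m, hm, rfl⟩ := mem_natZ.1 hz
      exact ih m hm

/-- Sets closed under finite subsets are closed under pairs. -/
theorem keyCcc_pair {Z x y : ZFSet.{0}} (hZ : ∀ a, FinZ a → a ⊆ Z → a ∈ Z) (hx : x ∈ Z) (hy : y ∈ Z) :
    ZFSet.pair x y ∈ Z := by
  classical
  have h2 : ∀ a b : ZFSet.{0}, a ∈ Z → b ∈ Z → ({a, b} : ZFSet.{0}) ∈ Z := by
    intro a b ha hb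
    refine hZ _ ⟨{a, b}, fun z => by simp⟩ fun z hz => ?_
    rw [ZFSet.mem_pair] at hz
    rcases hz with rfl | rfl
    · exact ha
    · exact hb
  have h1 : ({x} : ZFSet.{0}) ∈ Z := by
    refine hZ _ ⟨{x}, fun z => by simp⟩ fun z hz => ?_
    rw [ZFSet.mem_singleton] at hz
    exact hz ▸ hx
  rw [ZFSet.pair]
  exact h2 _ _ h1 (h2 _ _ hx hy)

/-- `SPR` is preserved by ccc extensions. Proof: let `Φ` be definable over `M₁[H]`, by a formula with parameters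
that have names; `Frc`: `q` forces `Φ(y, z)` for ground model elements `y, z ∈ Y`. In `M₁` choose for every `y ∈ Y` a
maximal antichain `A_y` in `{q ∈ Q : q` forces `Φ(y, z)` for some `z ∈ Y}` (`exists_maxac`); it is countable; choose
`z_q` for `q ∈ A_y`, and an enumeration of `{z_q : q ∈ A_y}` by `ω` (`exists_choice`). `Φ₁ x z`: `x = (y, n)` and `z` is the
`n`-th element. If `Z` is closed under `Φ₁` (and finite subsets, so pairs with natural numbers) then it is closed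
under `Φ`: if `Φ(y, z)` with `z ∈ Y` then some `q ∈ H` forces it and `H` meets `A_y` (density below `q`). -/
theorem SPR.ccc {M₁ : Set ZFSet.{0}} {Q H : ZFSet.{0}} (hM : CTM M) (hM₁ : CTM M₁) (hMM : M ⊆ M₁)
    (hQ : Q ∈ M₁) (hc : Ccc M₁ Q) (hH : Gen M₁ Q H) (hS : S ∈ M₁) (hSPR : SPR M M₁ S) :
    SPR M (Xt M₁ H) S := by
  classical
  intro hW Y hYM hSY hYf Φ hΦ s₀ hs₀
  have hY : Y ∈ M₁ := hMM hYM
  have hω := hM₁.omZ_mem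
  have hMW : M₁ ⊆ Xt M₁ H := hH.sub_xt hM₁ hQ
  obtain ⟨F, hF, hFQ, hFm, hFt⟩ := exists_frc2 hM₁ hQ hH hW hΦ
  -- the set `E`
  obtain ⟨E, hE, hE'⟩ := hM₁.exists_sep (P := fun e => ∃ y p z : M₁, e.1 = ZFSet.pair y.1 p.1 ∧
    z.1 ∈ (⟨Y, hY⟩ : M₁).1 ∧ F p y z) (by
    (repeat' first
      | exact DT.var _ | exact DT.last | exact DT.const _ | assumption
      | refine Dfn.pairMem ?_ ?_ ?_ | refine Dfn.isPair ?_ ?_ ?_ | refine Dfn.mem ?_ ?_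
      | refine Dfn.eqv ?_ ?_ | refine Dfn.eq ?_ ?_ | refine Dfn.subset ?_ ?_
      | refine Dfn.isEmpty ?_ | refine Dfn.isTrans ?_ | refine Dfn.isOrd ?_ | refine Dfn.isNat ?_
      | refine Dfn.isUpair ?_ ?_ ?_ | refine Dfn.isInsert ?_ ?_ ?_
      | refine Dfn.and ?_ ?_ | refine Dfn.or ?_ ?_ | refine Dfn.iff ?_ ?_ | refine Dfn.not ?_
      | refine Dfn.imp ?_ ?_ | refine Dfn.all ?_ | refine Dfn.ex ?_ | exact Dfn.false'
      | refine Dfn.ballZ ?_ ?_ | refine Dfn.bexZ ?_ ?_ | exact Dfn.const _)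
    exact Dfn.subst3 hF (DT.var _) (DT.var _) (DT.var _)) (hM₁.prod_mem hY hQ)
  have hEm : ∀ y p : M₁, ZFSet.pair y.1 p.1 ∈ E ↔ y.1 ∈ Y ∧ p.1 ∈ Q ∧
      ∃ z : M₁, z.1 ∈ Y ∧ F p y z := by
    intro n p
    rw [hE']
    constructor
    · rintro ⟨h1, _, n', p', z, h2, h4, h5⟩
      rw [ZFSet.pair_mem_prod] at h1
      have h2 : ZFSet.pair n.1 p.1 = ZFSet.pair n'.1 p'.1 := h2
      rw [ZFSet.pair_inj] at h2
      have e1 : n = n' := Subtype.ext h2.1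
      have e2 : p = p' := Subtype.ext h2.2
      subst e1 e2
      exact ⟨h1.1, h1.2, z, h4, h5⟩
    · rintro ⟨h1, h2, z, h4, h5⟩
      refine ⟨?_, hM₁.pair_mem n.2 p.2, n, p, z, rfl, h4, h5⟩
      rw [ZFSet.pair_mem_prod]
      exact ⟨h1, h2⟩
  -- the maximal set `D`
  obtain ⟨D, hD, hDE, hD1, hD2⟩ := exists_max hM₁ (E := fun e e' => ∀ n p p' : M₁,
      ((e.1 = ZFSet.pair n.1 p.1 ∧ e'.1 = ZFSet.pair n.1 p'.1) ∨
        (e'.1 = ZFSet.pair n.1 p.1 ∧ e.1 = ZFSet.pair n.1 p'.1)) →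
      ∀ q : M₁, q.1 ∈ (⟨Q, hQ⟩ : M₁).1 → ¬ (p.1 ⊆ q.1 ∧ p'.1 ⊆ q.1)) (by
    (repeat' first
      | exact DT.var _ | exact DT.last | exact DT.const _ | assumption
      | refine Dfn.pairMem ?_ ?_ ?_ | refine Dfn.isPair ?_ ?_ ?_ | refine Dfn.mem ?_ ?_
      | refine Dfn.eqv ?_ ?_ | refine Dfn.eq ?_ ?_ | refine Dfn.subset ?_ ?_
      | refine Dfn.isEmpty ?_ | refine Dfn.isTrans ?_ | refine Dfn.isOrd ?_ | refine Dfn.isNat ?_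
      | refine Dfn.isUpair ?_ ?_ ?_ | refine Dfn.isInsert ?_ ?_ ?_
      | refine Dfn.and ?_ ?_ | refine Dfn.or ?_ ?_ | refine Dfn.iff ?_ ?_ | refine Dfn.not ?_
      | refine Dfn.imp ?_ ?_ | refine Dfn.all ?_ | refine Dfn.ex ?_ | exact Dfn.false'
      | refine Dfn.ballZ ?_ ?_ | refine Dfn.bexZ ?_ ?_ | exact Dfn.const _)) (by
    intro e e' h n p p' h1 q hq h2
    exact h n p p' h1.symm q hq h2) hE
  have hDm : ∀ y p : M₁, ZFSet.pair y.1 p.1 ∈ D → y.1 ∈ Y ∧ p.1 ∈ Q ∧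
      ∃ z : M₁, z.1 ∈ Y ∧ F p y z := fun y p h => (hEm y p).1 (hDE h)
  -- the choice function `g`
  obtain ⟨g, hg, hgf, hgF⟩ := exists_choice hM₁ (F := fun e z => ∀ y p : M₁, e.1 = ZFSet.pair y.1 p.1 →
    F p y z) (by
    (repeat' first
      | exact DT.var _ | exact DT.last | exact DT.const _ | assumption
      | refine Dfn.pairMem ?_ ?_ ?_ | refine Dfn.isPair ?_ ?_ ?_ | refine Dfn.mem ?_ ?_
      | refine Dfn.eqv ?_ ?_ | refine Dfn.eq ?_ ?_ | refine Dfn.subset ?_ ?_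
      | refine Dfn.isEmpty ?_ | refine Dfn.isTrans ?_ | refine Dfn.isOrd ?_ | refine Dfn.isNat ?_
      | refine Dfn.isUpair ?_ ?_ ?_ | refine Dfn.isInsert ?_ ?_ ?_
      | refine Dfn.and ?_ ?_ | refine Dfn.or ?_ ?_ | refine Dfn.iff ?_ ?_ | refine Dfn.not ?_
      | refine Dfn.imp ?_ ?_ | refine Dfn.all ?_ | refine Dfn.ex ?_ | exact Dfn.false'
      | refine Dfn.ballZ ?_ ?_ | refine Dfn.bexZ ?_ ?_ | exact Dfn.const _)
    exact Dfn.subst3 hF (DT.var _) (DT.var _) (DT.var _)) hD hY (by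
    intro e he
    obtain ⟨_, _, y, p, z, h1, h2, h3⟩ := (hE' e.1).1 (hDE he)
    refine ⟨z, h2, fun y' p' h4 => ?_⟩
    have h5 : ZFSet.pair y.1 p.1 = ZFSet.pair y'.1 p'.1 := h1.symm.trans h4
    rw [ZFSet.pair_inj] at h5
    have e1 : y = y' := Subtype.ext h5.1
    have e2 : p = p' := Subtype.ext h5.2
    subst e1 e2
    exact h3)
  -- the value sets
  have hval : ∀ y : M₁, y.1 ∈ Y → ∃ A ∈ M₁, (∀ z : M₁, z.1 ∈ A ↔ z.1 ∈ Y ∧ ∃ p : M₁,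
      ZFSet.pair (ZFSet.pair y.1 p.1) z.1 ∈ g) ∧ Ctb M₁ A := by
    intro y hy
    obtain ⟨A, hA, hA'⟩ := hM₁.exists_sep (P := fun p => ZFSet.pair y.1 p.1 ∈ (⟨D, hD⟩ : M₁).1) (by
      (repeat' first
      | exact DT.var _ | exact DT.last | exact DT.const _ | assumption
      | refine Dfn.pairMem ?_ ?_ ?_ | refine Dfn.isPair ?_ ?_ ?_ | refine Dfn.mem ?_ ?_
      | refine Dfn.eqv ?_ ?_ | refine Dfn.eq ?_ ?_ | refine Dfn.subset ?_ ?_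
      | refine Dfn.isEmpty ?_ | refine Dfn.isTrans ?_ | refine Dfn.isOrd ?_ | refine Dfn.isNat ?_
      | refine Dfn.isUpair ?_ ?_ ?_ | refine Dfn.isInsert ?_ ?_ ?_
      | refine Dfn.and ?_ ?_ | refine Dfn.or ?_ ?_ | refine Dfn.iff ?_ ?_ | refine Dfn.not ?_
      | refine Dfn.imp ?_ ?_ | refine Dfn.all ?_ | refine Dfn.ex ?_ | exact Dfn.false'
      | refine Dfn.ballZ ?_ ?_ | refine Dfn.bexZ ?_ ?_ | exact Dfn.const _)) hQ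
    have hAm : ∀ p : M₁, p.1 ∈ A ↔ p.1 ∈ Q ∧ ZFSet.pair y.1 p.1 ∈ D := fun p => (hA' p.1).trans
      ⟨fun ⟨h1, _, h2⟩ => ⟨h1, h2⟩, fun ⟨h1, h2⟩ => ⟨h1, p.2, h2⟩⟩
    have hAc : Ctb M₁ A := by
      refine hc A hA (fun p hp => ((hA' p).1 hp).1) ?_
      intro a ha b hb hab q hq haq hbq
      have haM := hM₁.mem_of_mem hA ha
      have hbM := hM₁.mem_of_mem hA hb
      have h1 := ((hAm ⟨a, haM⟩).1 ha).2
      have h2 := ((hAm ⟨b, hbM⟩).1 hb).2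
      refine hD1 ⟨_, hM₁.mem_of_mem hD h1⟩ ⟨_, hM₁.mem_of_mem hD h2⟩ h1 h2 ?_ y ⟨a, haM⟩ ⟨b, hbM⟩
        (Or.inl ⟨rfl, rfl⟩) ⟨q, hM₁.mem_of_mem hQ hq⟩ hq ⟨haq, hbq⟩
      intro h3
      have h4 : ZFSet.pair y.1 a = ZFSet.pair y.1 b := congrArg Subtype.val h3
      rw [ZFSet.pair_inj] at h4
      exact hab h4.2
    obtain ⟨B, hB, hB'⟩ := hM₁.exists_sep (P := fun z => ∃ p e : M₁, e.1 = ZFSet.pair y.1 p.1 ∧
      ZFSet.pair e.1 z.1 ∈ (⟨g, hg⟩ : M₁).1) (by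
      (repeat' first
      | exact DT.var _ | exact DT.last | exact DT.const _ | assumption
      | refine Dfn.pairMem ?_ ?_ ?_ | refine Dfn.isPair ?_ ?_ ?_ | refine Dfn.mem ?_ ?_
      | refine Dfn.eqv ?_ ?_ | refine Dfn.eq ?_ ?_ | refine Dfn.subset ?_ ?_
      | refine Dfn.isEmpty ?_ | refine Dfn.isTrans ?_ | refine Dfn.isOrd ?_ | refine Dfn.isNat ?_
      | refine Dfn.isUpair ?_ ?_ ?_ | refine Dfn.isInsert ?_ ?_ ?_
      | refine Dfn.and ?_ ?_ | refine Dfn.or ?_ ?_ | refine Dfn.iff ?_ ?_ | refine Dfn.not ?_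
      | refine Dfn.imp ?_ ?_ | refine Dfn.all ?_ | refine Dfn.ex ?_ | exact Dfn.false'
      | refine Dfn.ballZ ?_ ?_ | refine Dfn.bexZ ?_ ?_ | exact Dfn.const _)) hY
    refine ⟨B, hB, fun z => ?_, ?_⟩
    · rw [hB']
      constructor
      · rintro ⟨h1, _, p, e, h2, h3⟩
        have h2 : e.1 = ZFSet.pair y.1 p.1 := h2
        have h3 : ZFSet.pair e.1 z.1 ∈ g := h3
        rw [h2] at h3
        exact ⟨h1, p, h3⟩
      · rintro ⟨h1, p, h2⟩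
        exact ⟨h1, z.2, p, ⟨_, hM₁.pair_mem y.2 p.2⟩, rfl, h2⟩
    · refine Ctb.image hM₁ hAc hA (F := fun p z => ∃ e : M₁, e.1 = ZFSet.pair y.1 p.1 ∧
        ZFSet.pair e.1 z.1 ∈ (⟨g, hg⟩ : M₁).1) (by
        (repeat' first
      | exact DT.var _ | exact DT.last | exact DT.const _ | assumption
      | refine Dfn.pairMem ?_ ?_ ?_ | refine Dfn.isPair ?_ ?_ ?_ | refine Dfn.mem ?_ ?_
      | refine Dfn.eqv ?_ ?_ | refine Dfn.eq ?_ ?_ | refine Dfn.subset ?_ ?_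
      | refine Dfn.isEmpty ?_ | refine Dfn.isTrans ?_ | refine Dfn.isOrd ?_ | refine Dfn.isNat ?_
      | refine Dfn.isUpair ?_ ?_ ?_ | refine Dfn.isInsert ?_ ?_ ?_
      | refine Dfn.and ?_ ?_ | refine Dfn.or ?_ ?_ | refine Dfn.iff ?_ ?_ | refine Dfn.not ?_
      | refine Dfn.imp ?_ ?_ | refine Dfn.all ?_ | refine Dfn.ex ?_ | exact Dfn.false'
      | refine Dfn.ballZ ?_ ?_ | refine Dfn.bexZ ?_ ?_ | exact Dfn.const _)) ?_ ?_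
      · rintro p hp z z' ⟨e, h1, h2⟩ ⟨e', h1', h2'⟩
        have h2 : ZFSet.pair e.1 z.1 ∈ g := h2
        have h2' : ZFSet.pair e'.1 z'.1 ∈ g := h2'
        rw [h1] at h2
        rw [h1'] at h2'
        exact Subtype.ext ((hgf.ap_eq h2).symm.trans (hgf.ap_eq h2'))
      · intro z hz
        obtain ⟨h1, hzM, p, e, h2, h3⟩ := (hB' z).1 hz
        have h3' : ZFSet.pair (ZFSet.pair y.1 p.1) z ∈ g := by
          rw [← h2]; exact h3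
        obtain ⟨x', hx', z', hz', h4⟩ := hgf.sub _ h3'
        rw [ZFSet.pair_inj] at h4
        have h5 : ZFSet.pair y.1 p.1 ∈ D := h4.1 ▸ hx'
        exact ⟨p, ⟨z, hzM⟩, (hAm p).2 ⟨(hDm _ _ h5).2.1, h5⟩, rfl, e, h2, h3⟩
  -- the choice of enumerations
  obtain ⟨P, hP, hP'⟩ := hM₁.exists_pow (hM₁.prod_mem hω hY)
  obtain ⟨c, hcM, hcf, hcF⟩ := exists_choice hM₁ (F := fun y f =>
    (∀ n z z' : M₁, ZFSet.pair n.1 z.1 ∈ f.1 → ZFSet.pair n.1 z'.1 ∈ f.1 → z = z') ∧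
    ∀ z e p : M₁, e.1 = ZFSet.pair y.1 p.1 → ZFSet.pair e.1 z.1 ∈ (⟨g, hg⟩ : M₁).1 →
      ∃ n : M₁, n.1 ∈ (⟨omZ, hω⟩ : M₁).1 ∧ ZFSet.pair n.1 z.1 ∈ f.1) (by
    (repeat' first
      | exact DT.var _ | exact DT.last | exact DT.const _ | assumption
      | refine Dfn.pairMem ?_ ?_ ?_ | refine Dfn.isPair ?_ ?_ ?_ | refine Dfn.mem ?_ ?_
      | refine Dfn.eqv ?_ ?_ | refine Dfn.eq ?_ ?_ | refine Dfn.subset ?_ ?_
      | refine Dfn.isEmpty ?_ | refine Dfn.isTrans ?_ | refine Dfn.isOrd ?_ | refine Dfn.isNat ?_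
      | refine Dfn.isUpair ?_ ?_ ?_ | refine Dfn.isInsert ?_ ?_ ?_
      | refine Dfn.and ?_ ?_ | refine Dfn.or ?_ ?_ | refine Dfn.iff ?_ ?_ | refine Dfn.not ?_
      | refine Dfn.imp ?_ ?_ | refine Dfn.all ?_ | refine Dfn.ex ?_ | exact Dfn.false'
      | refine Dfn.ballZ ?_ ?_ | refine Dfn.bexZ ?_ ?_ | exact Dfn.const _)) hY hP (by
    intro y hy
    obtain ⟨A, hA, hAm, hAc⟩ := hval y hy
    obtain ⟨f, hf, hf1, hf2⟩ := (ctb_iff_cvr hM₁).1 hAc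
    obtain ⟨f', hf', hf''⟩ := hM₁.exists_sep (P := fun e => e.1 ∈ (⟨f, hf⟩ : M₁).1) (by
      (repeat' first
      | exact DT.var _ | exact DT.last | exact DT.const _ | assumption
      | refine Dfn.pairMem ?_ ?_ ?_ | refine Dfn.isPair ?_ ?_ ?_ | refine Dfn.mem ?_ ?_
      | refine Dfn.eqv ?_ ?_ | refine Dfn.eq ?_ ?_ | refine Dfn.subset ?_ ?_
      | refine Dfn.isEmpty ?_ | refine Dfn.isTrans ?_ | refine Dfn.isOrd ?_ | refine Dfn.isNat ?_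
      | refine Dfn.isUpair ?_ ?_ ?_ | refine Dfn.isInsert ?_ ?_ ?_
      | refine Dfn.and ?_ ?_ | refine Dfn.or ?_ ?_ | refine Dfn.iff ?_ ?_ | refine Dfn.not ?_
      | refine Dfn.imp ?_ ?_ | refine Dfn.all ?_ | refine Dfn.ex ?_ | exact Dfn.false'
      | refine Dfn.ballZ ?_ ?_ | refine Dfn.bexZ ?_ ?_ | exact Dfn.const _)) (hM₁.prod_mem hω hY)
    have hf3 : ∀ n z : M₁, ZFSet.pair n.1 z.1 ∈ f' ↔ n.1 ∈ omZ ∧ z.1 ∈ Y ∧ ZFSet.pair n.1 z.1 ∈ f := by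
      intro n z
      rw [hf'']
      constructor
      · rintro ⟨h1, _, h2⟩
        rw [ZFSet.pair_mem_prod] at h1
        exact ⟨h1.1, h1.2, h2⟩
      · rintro ⟨h1, h2, h3⟩
        exact ⟨by rw [ZFSet.pair_mem_prod]; exact ⟨h1, h2⟩, hM₁.pair_mem n.2 z.2, h3⟩
    refine ⟨⟨f', hf'⟩, (hP' _).2 ⟨hf', fun e he => ((hf'' e).1 he).1⟩, fun n z z' h1 h2 => ?_,
      fun z e p h1 h2 => ?_⟩
    · have h1 := (hf3 n z).1 h1
      have h2 := (hf3 n z').1 h2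
      exact Subtype.ext (hf1 n.1 h1.1 _ _ h1.2.2 h2.2.2)
    · have h2 : ZFSet.pair e.1 z.1 ∈ g := h2
      have h2' := h2
      rw [h1] at h2'
      obtain ⟨x', hx', z', hz', h4⟩ := hgf.sub _ h2
      rw [ZFSet.pair_inj] at h4
      have hzY : z.1 ∈ Y := h4.2 ▸ hz'
      have hzA : z.1 ∈ A := (hAm z).2 ⟨hzY, p, h2'⟩
      obtain ⟨n, hn, hnz⟩ := hf2 z.1 hzA
      exact ⟨⟨n, hM₁.mem_of_mem hω hn⟩, hn, (hf3 ⟨n, hM₁.mem_of_mem hω hn⟩ z).2 ⟨hn, hzY, hnz⟩⟩)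
  -- apply strong properness in `M₁`
  obtain ⟨Z, hZM, hZY, hZc, hZf, hsZ, hZΦ, s, hsS, hss, hSG⟩ := hSPR hM₁ Y hYM hSY hYf
    (fun x z => ∃ y n f : M₁, x.1 = ZFSet.pair y.1 n.1 ∧ ZFSet.pair y.1 f.1 ∈ (⟨c, hcM⟩ : M₁).1 ∧
      ZFSet.pair n.1 z.1 ∈ f.1) (by
    (repeat' first
      | exact DT.var _ | exact DT.last | exact DT.const _ | assumption
      | refine Dfn.pairMem ?_ ?_ ?_ | refine Dfn.isPair ?_ ?_ ?_ | refine Dfn.mem ?_ ?_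
      | refine Dfn.eqv ?_ ?_ | refine Dfn.eq ?_ ?_ | refine Dfn.subset ?_ ?_
      | refine Dfn.isEmpty ?_ | refine Dfn.isTrans ?_ | refine Dfn.isOrd ?_ | refine Dfn.isNat ?_
      | refine Dfn.isUpair ?_ ?_ ?_ | refine Dfn.isInsert ?_ ?_ ?_
      | refine Dfn.and ?_ ?_ | refine Dfn.or ?_ ?_ | refine Dfn.iff ?_ ?_ | refine Dfn.not ?_
      | refine Dfn.imp ?_ ?_ | refine Dfn.all ?_ | refine Dfn.ex ?_ | exact Dfn.false'
      | refine Dfn.ballZ ?_ ?_ | refine Dfn.bexZ ?_ ?_ | exact Dfn.const _)) s₀ hs₀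
  refine ⟨Z, hZM, hZY, hZc, hZf, hsZ, ?_, s, hsS, hss, hSG⟩
  intro y' z' hy hz hΦyz
  have hyM : y'.1 ∈ M₁ := hM₁.mem_of_mem (hMM hZM) hy
  have hzM : z'.1 ∈ M₁ := hM₁.mem_of_mem hY hz
  obtain ⟨q, hqH, hqF⟩ := (hFt ⟨y'.1, hyM⟩ ⟨z'.1, hzM⟩ y' z' rfl rfl).1 hΦyz
  have hqQ : q.1 ∈ Q := hH.sub _ hqH
  obtain ⟨t, ht, -, p, hyp, hpt⟩ := hH.meet hM₁ hQ
    (D := fun s => ∃ p : M₁, ZFSet.pair (⟨y'.1, hyM⟩ : M₁).1 p.1 ∈ (⟨D, hD⟩ : M₁).1 ∧ p.1 ⊆ s.1) (by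
      (repeat' first
      | exact DT.var _ | exact DT.last | exact DT.const _ | assumption
      | refine Dfn.pairMem ?_ ?_ ?_ | refine Dfn.isPair ?_ ?_ ?_ | refine Dfn.mem ?_ ?_
      | refine Dfn.eqv ?_ ?_ | refine Dfn.eq ?_ ?_ | refine Dfn.subset ?_ ?_
      | refine Dfn.isEmpty ?_ | refine Dfn.isTrans ?_ | refine Dfn.isOrd ?_ | refine Dfn.isNat ?_
      | refine Dfn.isUpair ?_ ?_ ?_ | refine Dfn.isInsert ?_ ?_ ?_
      | refine Dfn.and ?_ ?_ | refine Dfn.or ?_ ?_ | refine Dfn.iff ?_ ?_ | refine Dfn.not ?_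
      | refine Dfn.imp ?_ ?_ | refine Dfn.all ?_ | refine Dfn.ex ?_ | exact Dfn.false'
      | refine Dfn.ballZ ?_ ?_ | refine Dfn.bexZ ?_ ?_ | exact Dfn.const _)) hqH (by
    intro t ht hqt
    have htM := hM₁.mem_of_mem hQ ht
    have htF : F ⟨t, htM⟩ ⟨y'.1, hyM⟩ ⟨z'.1, hzM⟩ := hFm q ⟨t, htM⟩ _ _ hqF ht hqt
    have htE : ZFSet.pair y'.1 t ∈ E := (hEm ⟨y'.1, hyM⟩ ⟨t, htM⟩).2 ⟨hZY hy, ht,
      ⟨z'.1, hzM⟩, hz, htF⟩
    by_cases htD : ZFSet.pair y'.1 t ∈ D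
    · exact ⟨⟨t, htM⟩, ht, fun w hw => hw, ⟨t, htM⟩, htD, fun w hw => hw⟩
    · obtain ⟨e, heD, hne⟩ := hD2 ⟨_, hM₁.mem_of_mem hE htE⟩ htE htD
      push Not at hne
      obtain ⟨n', a, b, h1, u, huP, h2, h3⟩ := hne
      rcases h1 with ⟨h1, h4⟩ | ⟨h4, h1⟩
      · have h1 : ZFSet.pair y'.1 t = ZFSet.pair n'.1 a.1 := h1
        rw [ZFSet.pair_inj] at h1
        refine ⟨u, huP, h1.2 ▸ h2, b, ?_, h3⟩
        change ZFSet.pair y'.1 b.1 ∈ D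
        rw [h1.1, ← h4]
        exact heD
      · have h1 : ZFSet.pair y'.1 t = ZFSet.pair n'.1 b.1 := h1
        rw [ZFSet.pair_inj] at h1
        refine ⟨u, huP, h1.2 ▸ h3, a, ?_, h2⟩
        change ZFSet.pair y'.1 a.1 ∈ D
        rw [h1.1, ← h4]
        exact heD)
  have hypD : ZFSet.pair y'.1 p.1 ∈ D := hyp
  have hpQ : p.1 ∈ Q := (hDm ⟨y'.1, hyM⟩ p hypD).2.1
  have hpH : p.1 ∈ H := hH.up _ ht _ hpQ hpt
  -- the value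
  obtain ⟨w, hwY, hw⟩ := hgf.tot _ hypD
  have hwM : w ∈ M₁ := hM₁.mem_of_mem hY hwY
  have hpair : ZFSet.pair y'.1 p.1 ∈ M₁ := hM₁.mem_of_mem hD hypD
  have hFw : F p ⟨y'.1, hyM⟩ ⟨w, hwM⟩ := hgF ⟨_, hpair⟩ ⟨w, hwM⟩ hw ⟨y'.1, hyM⟩ p rfl
  have hΦw : Φ y' ⟨w, hMW hwM⟩ := (hFt ⟨y'.1, hyM⟩ ⟨w, hwM⟩ y' ⟨w, hMW hwM⟩ rfl rfl).2 ⟨p, hpH, hFw⟩
  refine ⟨⟨w, hMW hwM⟩, ?_, hΦw⟩
  obtain ⟨f, hfP, hyf⟩ := hcf.tot _ (hZY hy)
  have hfM : f ∈ M₁ := hM₁.mem_of_mem hP hfP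
  obtain ⟨hf1, hf2⟩ := hcF ⟨y'.1, hyM⟩ ⟨f, hfM⟩ hyf
  obtain ⟨n, hn, hnw⟩ := hf2 ⟨w, hwM⟩ ⟨_, hpair⟩ p rfl hw
  have hn : n.1 ∈ omZ := hn
  obtain ⟨k, hk⟩ := mem_omZ.1 hn
  have hnZ : n.1 ∈ Z := hk ▸ keyCcc_nat hZf k
  obtain ⟨w', hw'Z, y₁, n₁, f₁, h1, h2, h3⟩ := hZΦ ⟨ZFSet.pair y'.1 n.1, hM₁.pair_mem hyM n.2⟩ ⟨w, hwM⟩
    (keyCcc_pair hZf hy hnZ) hwY ⟨⟨y'.1, hyM⟩, n, ⟨f, hfM⟩, rfl, hyf, hnw⟩
  have h1 : ZFSet.pair y'.1 n.1 = ZFSet.pair y₁.1 n₁.1 := h1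
  rw [ZFSet.pair_inj] at h1
  have h2 : ZFSet.pair y₁.1 f₁.1 ∈ c := h2
  have e1 : n = n₁ := Subtype.ext h1.2
  have e2 : (⟨f, hfM⟩ : M₁) = f₁ := by
    refine Subtype.ext ?_
    have h4 := hcf.ap_eq hyf
    rw [← h1.1] at h2
    exact h4.symm.trans (hcf.ap_eq h2)
  subst e1 e2
  have e3 := hf1 n ⟨w, hwM⟩ w' hnw h3
  have e4 : w = w'.1 := congrArg Subtype.val e3
  show w ∈ Z
  rw [e4]
  exact hw'Z

end Pool.Agent.H7.IG
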