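import Pool.Agent.H7.IG.PrjD

/-!
# IG: projections, genericity

`Prj.gen₀`: directed and upwards closed: `mem_Gb`, `Prj.lift`. Let `D ∈ M` be dense in `P₀`. `{p ∈ P : p ∩ B ∈ D}` is dense in `P`: for
`p ∈ P` take `r ∈ D`, `p ∩ B ⊆ r`; `p ∪ r ∈ P` and `(p ∪ r) ∩ B = r` (`Prj.sub`).
`Prj.quo`: let `D ∈ M[G₀]` be dense in `Quo P B G₀`, `D = vl G₀ τ`, `r₀ ∈ G₀` forces this over `M` (uniformly definable statement about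
`τ`, `P`, `B` (ground) and the generic filter: `G₀` has a name; or: `p ∩ B ∈ G₀` can be expressed with a name of `G₀`:
`exists γ : M, ∀ G', Gen M P₀ G' → vl G' γ = G'`, from check names), `r₀ = p₀ ∩ B`, `p₀ ∈ G`. Let `E = {p ∈ P : ∃ d ∈ P, d ⊆ p, p ∩ B` forces
`d ∈ τ}`, definable over `M`. It is dense below `p₀`: let `p ⊇ p₀`, take a `P₀`-generic `G₀' ∋ p ∩ B` over `M` (`exists_gen`); `r₀ ∈ G₀'`
(`r₀ ⊆ p ∩ B`); `p ∈ Quo P B G₀'`, so there is `d ⊇ p` in `vl G₀' τ`, `d ∈ P`, `d ∩ B ∈ G₀'`; some `r ∈ G₀'` forces `d ∈ τ`, wlog `d ∩ B ⊆ r`;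
`d ∪ r ∈ P`, `(d ∪ r) ∩ B = r`, so `d ∪ r ∈ E`. So there is `p ∈ G ∩ E`, with `d`: `p ∩ B ∈ G₀` forces `d ∈ τ`, so `d ∈ D`, and `d ⊆ p`,
`d ∈ P` imply `d ∈ G`.
`Prj.xt`: `G₀ ∈ M[G]` (separation), `xt_min` in both directions.
-/

set_option autoImplicit false
set_option linter.unusedVariables false
set_option linter.unusedSectionVars false
set_option linter.unusedSimpArgs false
set_option linter.unusedTactic false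
set_option linter.unreachableTactic false

namespace Pool.Agent.H7.IG

open Pool.Agent.H17.Omega Pool.Agent.H17.Omega.CTM Pool.Agent.H52.GX Pool.Agent.H52.GC

variable {M : Set ZFSet.{0}} {P P₀ B G : ZFSet.{0}}

/-- A name for the generic filter. -/
theorem exists_gname (hM : CTM M) (hP : P ∈ M) : ∃ γ : M, ∀ G, Gen M P G → vl G γ.1 = G := by
  obtain ⟨Q, _, c, hQ, hcP, hle, hev, hgen⟩ := exists_bridge hM hP
  obtain ⟨P', R, h⟩ := hQ.exists_PR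
  obtain ⟨F, hF, hF'⟩ := exists_check hM h
  obtain ⟨b, hb, hb'⟩ := hM.exists_repl (F := fun x y => ∃ w : M, F x = w ∧ y.1 = ZFSet.pair w.1 x.1)
    (by
      refine Dfn.ex (Dfn.and (Dfn.subst2 (P := fun x y => F x = y) hF (DT.var _) (DT.var _)) ?_)
      (repeat' first
          | exact DT.var _ | exact DT.last | exact DT.const _ | assumption
          | refine Dfn.pairMem ?_ ?_ ?_ | refine Dfn.isPair ?_ ?_ ?_ | refine Dfn.mem ?_ ?_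
          | refine Dfn.eqv ?_ ?_ | refine Dfn.eq ?_ ?_ | refine Dfn.subset ?_ ?_
          | refine Dfn.and ?_ ?_ | refine Dfn.or ?_ ?_)) hP (by
      rintro x hx y y' ⟨w, rfl, h1⟩ ⟨w', rfl, h2⟩
      exact Subtype.ext (h1.trans h2.symm))
  refine ⟨⟨b, hb⟩, fun G hG => ?_⟩
  have hchk : ∀ x : M, vl G (F x).1 = x.1 := by
    intro x
    rw [← hev G hG.sub]
    refine hF' x _ ?_
    obtain ⟨p, hp⟩ := hG.ne
    obtain ⟨q, rfl⟩ := (hcP p).1 (hG.sub p hp)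
    exact ⟨q, hp⟩
  ext z
  rw [mem_vl]
  constructor
  · rintro ⟨σ, p, hp, h1, rfl⟩
    obtain ⟨x, h3, w, rfl, h4⟩ := (hb' ⟨_, hM.mem_of_mem hb h1⟩).1 h1
    rw [ZFSet.pair_inj] at h4
    rw [h4.1, hchk, ← h4.2]
    exact hp
  · intro hz
    have hzM : z ∈ M := hM.mem_of_mem hP (hG.sub z hz)
    refine ⟨(F ⟨z, hzM⟩).1, z, hz, ?_, hchk ⟨z, hzM⟩⟩
    exact (hb' ⟨_, hM.pair_mem (F ⟨z, hzM⟩).2 hzM⟩).2 ⟨⟨z, hzM⟩, hG.sub z hz, _, rfl, rfl⟩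

theorem inter_union_of {p r B : ZFSet.{0}} (h : p ∩ B ⊆ r) (hr : r ⊆ B) : (p ∪ r) ∩ B = r := by
  ext z
  rw [ZFSet.mem_inter, ZFSet.mem_union]
  constructor
  · rintro ⟨h1 | h1, h2⟩
    · exact h (ZFSet.mem_inter.2 ⟨h1, h2⟩)
    · exact h1
  · intro h1
    exact ⟨Or.inr h1, hr h1⟩

theorem inter_mono {p q B : ZFSet.{0}} (h : p ⊆ q) : p ∩ B ⊆ q ∩ B := by
  intro z hz
  rw [ZFSet.mem_inter] at hz ⊢
  exact ⟨h hz.1, hz.2⟩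

theorem Prj.gen₀ (h : Prj P P₀ B) (hM : CTM M) (hP : P ∈ M) (hP₀ : P₀ ∈ M) (hB : B ∈ M) (hG : Gen M P G) :
    Gen M P₀ (Gb G B) := by
  refine ⟨?_, ?_, ?_, ?_, ?_⟩
  · intro r hr
    obtain ⟨p, hp, rfl⟩ := mem_Gb.1 hr
    exact h.down p (hG.sub p hp)
  · obtain ⟨p, hp⟩ := hG.ne
    exact ⟨_, mem_Gb.2 ⟨p, hp, rfl⟩⟩
  · intro r hr q hq hqr
    obtain ⟨p, hp, rfl⟩ := mem_Gb.1 hr
    obtain ⟨p', hp', h1, h2⟩ := h.lift p (hG.sub p hp) q hq hqr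
    exact mem_Gb.2 ⟨p', hG.up p hp p' hp' h1, h2.symm⟩
  · intro r hr s hs
    obtain ⟨p, hp, rfl⟩ := mem_Gb.1 hr
    obtain ⟨q, hq, rfl⟩ := mem_Gb.1 hs
    obtain ⟨t, ht, h1, h2⟩ := hG.dir p hp q hq
    exact ⟨_, mem_Gb.2 ⟨t, ht, rfl⟩, inter_mono h1, inter_mono h2⟩
  · intro D hD hd
    obtain ⟨p, hp, hpD⟩ := hG.gen (Quo P B D) (Quo_mem hM hP hB hD) (by
      intro p hp
      obtain ⟨r, hr, h1, h2⟩ := hd (p ∩ B) (h.down p hp)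
      refine ⟨p ∪ r, h.amal p hp r hr h1, fun z hz => ZFSet.mem_union.2 (Or.inl hz), mem_Quo.2
        ⟨h.amal p hp r hr h1, ?_⟩⟩
      rw [inter_union_of h1 (h.sub r hr)]
      exact h2)
    exact ⟨p ∩ B, mem_Gb.2 ⟨p, hp, rfl⟩, (mem_Quo.1 hpD).2⟩

/-- `r = p ∩ B`, written with bounded quantifiers. -/
theorem eq_inter_iff {p B r : ZFSet.{0}} :
    r = p ∩ B ↔ (∀ z ∈ r, z ∈ p ∧ z ∈ B) ∧ ∀ z ∈ p, z ∈ B → z ∈ r := by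
  constructor
  · rintro rfl
    exact ⟨fun z hz => ZFSet.mem_inter.1 hz, fun z h1 h2 => ZFSet.mem_inter.2 ⟨h1, h2⟩⟩
  · rintro ⟨h1, h2⟩
    ext z
    rw [ZFSet.mem_inter]
    exact ⟨h1 z, fun h => h2 z h.1 h.2⟩

/-- `D` is dense in the quotient. -/
def DnsQ (D P B G₀ : ZFSet.{0}) : Prop :=
  ∀ p ∈ P, (∃ r ∈ G₀, (∀ z ∈ r, z ∈ p ∧ z ∈ B) ∧ ∀ z ∈ p, z ∈ B → z ∈ r) →
    ∃ q ∈ P, (∃ r ∈ G₀, (∀ z ∈ r, z ∈ q ∧ z ∈ B) ∧ ∀ z ∈ q, z ∈ B → z ∈ r) ∧ p ⊆ q ∧ q ∈ D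

theorem ud_DnsQ : UD CtmC (fun N (v : Fin 4 → N) => DnsQ (v 0).1 (v 1).1 (v 2).1 (v 3).1) := by
  unfold DnsQ
  (repeat' first
      | exact UT.var _ | exact UT.last | assumption
      | refine UD.pairMem ?_ ?_ ?_ | refine UD.isPair ?_ ?_ ?_ | refine UD.mem ?_ ?_
      | refine UD.eqv ?_ ?_ | refine UD.eq ?_ ?_ | refine UD.subset ?_ ?_
      | refine UD.isEmpty ?_ | refine UD.isTrans ?_ | refine UD.isOrd ?_ | refine UD.isNat ?_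
      | refine UD.isUpair ?_ ?_ ?_ | refine UD.isInsert ?_ ?_ ?_ | refine UD.isUnion ?_ ?_ ?_
      | refine UD.and ?_ ?_ | refine UD.or ?_ ?_ | refine UD.iff ?_ ?_ | refine UD.not ?_
      | refine UD.imp ?_ ?_ | refine UD.all ?_ | refine UD.ex ?_ | exact UD.false' | exact UD.true'
      | refine UD.ball ?_ ?_ | refine UD.bex ?_ ?_)

theorem dnsQ_iff {D P B G₀ : ZFSet.{0}} : DnsQ D P B G₀ ↔
    ∀ p ∈ P, p ∩ B ∈ G₀ → ∃ q ∈ P, q ∩ B ∈ G₀ ∧ p ⊆ q ∧ q ∈ D := by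
  have key : ∀ p, (∃ r ∈ G₀, (∀ z ∈ r, z ∈ p ∧ z ∈ B) ∧ ∀ z ∈ p, z ∈ B → z ∈ r) ↔ p ∩ B ∈ G₀ := by
    intro p
    constructor
    · rintro ⟨r, hr, h⟩
      rw [← eq_inter_iff.2 h]
      exact hr
    · intro h
      exact ⟨_, h, eq_inter_iff.1 rfl⟩
  unfold DnsQ
  simp only [key]

theorem ud_mem2 : UD CtmC (fun N (v : Fin 2 → N) => (v 0).1 ∈ (v 1).1) :=
  UD.mem (UT.var _) (UT.var _)

theorem Prj.quo (h : Prj P P₀ B) (hM : CTM M) (hP : P ∈ M) (hP₀ : P₀ ∈ M) (hB : B ∈ M) (hG : Gen M P G) :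
    Gen (Xt M (Gb G B)) (Quo P B (Gb G B)) G := by
  have hG₀ := h.gen₀ hM hP hP₀ hB hG
  refine ⟨?_, hG.ne, ?_, hG.dir, ?_⟩
  · intro p hp
    exact mem_Quo.2 ⟨hG.sub p hp, mem_Gb.2 ⟨p, hp, rfl⟩⟩
  · intro p hp q hq hqp
    exact hG.up p hp q (mem_Quo.1 hq).1 hqp
  · rintro D ⟨τ, hτ, rfl⟩ hd
    obtain ⟨γ, hγ⟩ := exists_gname hM hP₀
    -- the arguments
    let a : Fin 4 → Ar M := ![.n ⟨τ, hτ⟩, .g ⟨P, hP⟩, .g ⟨B, hB⟩, .n γ]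
    have hval : ∀ G', Gen M P₀ G' → ∀ i, (a i).v G' ∈ Xt M G' := by
      intro G' hG' i
      have hsub := hG'.sub_xt hM hP₀
      fin_cases i
      · exact ⟨τ, hτ, rfl⟩
      · exact hsub hP
      · exact hsub hB
      · exact ⟨γ.1, γ.2, rfl⟩
    have hdense : DnsQ (vl (Gb G B) τ) P B (Gb G B) := by
      rw [dnsQ_iff]
      intro p hp hpG
      obtain ⟨q, hq, h1, h2⟩ := hd p (mem_Quo.2 ⟨hp, hpG⟩)
      exact ⟨q, (mem_Quo.1 hq).1, (mem_Quo.1 hq).2, h1, h2⟩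
    obtain ⟨r₀, hr₀, hfrc⟩ := (Frc.truth ud_DnsQ hM hP₀ hG₀ a (fun i => ⟨(a i).v (Gb G B), hval _ hG₀ i⟩)
      (fun i => rfl)).1 (by
        change DnsQ (vl (Gb G B) τ) P B (vl (Gb G B) γ.1)
        rw [hγ _ hG₀]
        exact hdense)
    obtain ⟨p₀, hp₀, rfl⟩ := mem_Gb.1 hr₀
    -- the dense set
    let E : M → Prop := fun p => ∃ d : M, d.1 ∈ (⟨P, hP⟩ : M).1 ∧ d.1 ⊆ p.1 ∧ ∃ r : M,
      ((∀ z ∈ r.1, z ∈ p.1 ∧ z ∈ (⟨B, hB⟩ : M).1) ∧ ∀ z ∈ p.1, z ∈ (⟨B, hB⟩ : M).1 → z ∈ r.1) ∧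
      Frc M P₀ (fun N (v : Fin 2 → N) => (v 0).1 ∈ (v 1).1) r.1 ![.g d, .n (⟨τ, hτ⟩ : M)]
    have hE : hM.Dfn (fun v : Fin 1 → M => E (v 0)) := by
      show hM.Dfn (fun v : Fin 1 → M => ∃ d : M, d.1 ∈ (⟨P, hP⟩ : M).1 ∧ d.1 ⊆ (v 0).1 ∧ ∃ r : M,
        ((∀ z ∈ r.1, z ∈ (v 0).1 ∧ z ∈ (⟨B, hB⟩ : M).1) ∧
          ∀ z ∈ (v 0).1, z ∈ (⟨B, hB⟩ : M).1 → z ∈ r.1) ∧
        Frc M P₀ (fun N (v : Fin 2 → N) => (v 0).1 ∈ (v 1).1) r.1 ![.g d, .n (⟨τ, hτ⟩ : M)])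
      refine Dfn.ex (Dfn.and ?_ (Dfn.and ?_ (Dfn.ex (Dfn.and ?_ (Frc.dfn2 ud_mem2 hP₀ (DT.var _)
        (AT.g (DT.var _)) (AT.n (DT.const _)))))))
      all_goals
      (repeat' first
        | exact DT.var _ | exact DT.last | exact DT.const _ | assumption
        | refine Dfn.pairMem ?_ ?_ ?_ | refine Dfn.isPair ?_ ?_ ?_ | refine Dfn.mem ?_ ?_
        | refine Dfn.eqv ?_ ?_ | refine Dfn.eq ?_ ?_ | refine Dfn.subset ?_ ?_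
        | refine Dfn.and ?_ ?_ | refine Dfn.or ?_ ?_ | refine Dfn.iff ?_ ?_ | refine Dfn.not ?_
        | refine Dfn.imp ?_ ?_ | refine Dfn.all ?_ | refine Dfn.ex ?_
        | refine Dfn.ballZ ?_ ?_ | refine Dfn.bexZ ?_ ?_)
    obtain ⟨q, hqG, hpq, d, hdP, hdq, r, hr, hf⟩ := hG.meet hM hP hE hp₀ (by
      intro p hp hpp
      obtain ⟨G', hG', hpG'⟩ := exists_gen hM hP₀ (h.down p hp)
      have hr₀' : p₀ ∩ B ∈ G' :=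
        hG'.up _ hpG' _ (h.down p₀ (hG.sub p₀ hp₀)) (inter_mono hpp)
      have h1 := hfrc G' hG' hr₀' (fun i => ⟨(a i).v G', hval _ hG' i⟩) (fun i => rfl)
      have h2 : DnsQ (vl G' τ) P B (vl G' γ.1) := h1
      rw [hγ _ hG', dnsQ_iff] at h2
      obtain ⟨d, hdP, hdG, hpd, hdτ⟩ := h2 p hp hpG'
      have hdM : d ∈ M := hM.mem_of_mem hP hdP
      obtain ⟨r, hr, hrf⟩ := (Frc.truth ud_mem2 hM hP₀ hG' ![.g ⟨d, hdM⟩, .n (⟨τ, hτ⟩ : M)]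
        ![⟨d, hG'.sub_xt hM hP₀ hdM⟩, ⟨vl G' τ, τ, hτ, rfl⟩] (by
          intro i
          fin_cases i <;> rfl)).1 hdτ
      obtain ⟨s, hs, h3, h4⟩ := hG'.dir _ hdG _ hr
      have hsP := hG'.sub s hs
      have hu : d ∪ s ∈ P := h.amal d hdP s hsP h3
      have huM : d ∪ s ∈ M := hM.mem_of_mem hP hu
      have hds : d ⊆ d ∪ s := fun z hz => ZFSet.mem_union.2 (Or.inl hz)
      refine ⟨⟨d ∪ s, huM⟩, hu, fun z hz => hds (hpd hz), ⟨d, hdM⟩, hdP, hds,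
        ⟨s, hM.mem_of_mem hP₀ hsP⟩, ?_, hrf.mono (hG'.sub r hr) h4⟩
      exact eq_inter_iff.1 (inter_union_of h3 (h.sub s hsP)).symm)
    have hrB : r.1 = q.1 ∩ B := eq_inter_iff.2 hr
    have hrG : r.1 ∈ Gb G B := by
      rw [hrB]
      exact mem_Gb.2 ⟨q.1, hqG, rfl⟩
    refine ⟨d.1, hG.up q.1 hqG d.1 hdP hdq, ?_⟩
    exact hf _ hG₀ hrG ![⟨d.1, hG₀.sub_xt hM hP₀ d.2⟩, ⟨vl (Gb G B) τ, τ, hτ, rfl⟩] (by
      intro i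
      fin_cases i <;> rfl)

theorem Gb_mem {N : Set ZFSet.{0}} (hN : CTM N) (hG : G ∈ N) (hB : B ∈ N) : Gb G B ∈ N := by
  obtain ⟨b, hb, hb'⟩ := hN.exists_repl (F := fun p r : N => (∀ z ∈ r.1, z ∈ p.1 ∧ z ∈ (⟨B, hB⟩ : N).1) ∧
      ∀ z ∈ p.1, z ∈ (⟨B, hB⟩ : N).1 → z ∈ r.1) (by
      (repeat' first
        | exact DT.var _ | exact DT.last | exact DT.const _ | assumption
        | refine Dfn.pairMem ?_ ?_ ?_ | refine Dfn.isPair ?_ ?_ ?_ | refine Dfn.mem ?_ ?_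
        | refine Dfn.eqv ?_ ?_ | refine Dfn.eq ?_ ?_ | refine Dfn.subset ?_ ?_
        | refine Dfn.and ?_ ?_ | refine Dfn.or ?_ ?_ | refine Dfn.iff ?_ ?_ | refine Dfn.not ?_
        | refine Dfn.imp ?_ ?_ | refine Dfn.all ?_ | refine Dfn.ex ?_
        | refine Dfn.ballZ ?_ ?_ | refine Dfn.bexZ ?_ ?_)) hG (by
      intro p hp r r' h1 h2
      exact Subtype.ext ((eq_inter_iff.2 h1).trans (eq_inter_iff.2 h2).symm))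
  have h1 : ∀ p ∈ N, p ∩ B ∈ N := by
    intro p hp
    have : p ∩ B = ZFSet.sep (fun z => z ∈ (⟨B, hB⟩ : N).1) p := by
      ext z
      rw [ZFSet.mem_inter, ZFSet.mem_sep]
    rw [this]
    exact hN.sep_mem (Dfn.mem (DT.var _) (DT.const _)) hp
  have h2 : Gb G B = b := by
    ext r
    rw [mem_Gb]
    constructor
    · rintro ⟨p, hp, rfl⟩
      have hpN := hN.mem_of_mem hG hp
      exact (hb' ⟨_, h1 p hpN⟩).2 ⟨⟨p, hpN⟩, hp, eq_inter_iff.1 rfl⟩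
    · intro hr
      obtain ⟨p, hp, h3⟩ := (hb' ⟨r, hN.mem_of_mem hb hr⟩).1 hr
      exact ⟨p.1, hp, eq_inter_iff.2 h3⟩
  rw [h2]
  exact hb

theorem Prj.xt (h : Prj P P₀ B) (hM : CTM M) (hP : P ∈ M) (hP₀ : P₀ ∈ M) (hB : B ∈ M) (hG : Gen M P G) :
    Xt (Xt M (Gb G B)) G = Xt M G := by
  have hG₀ := h.gen₀ hM hP hP₀ hB hG
  have hGq := h.quo hM hP hP₀ hB hG
  have hN := hG.ctm hM hP
  have hN₀ := hG₀.ctm hM hP₀
  have hMN := hG.sub_xt hM hP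
  have hMN₀ := hG₀.sub_xt hM hP₀
  have hQN : Quo P B (Gb G B) ∈ Xt M (Gb G B) := Quo_mem hN₀ (hMN₀ hP) (hMN₀ hB) (hG₀.mem_xt hM hP₀)
  have hG1 := hG.mem_xt hM hP
  apply Set.Subset.antisymm
  · exact xt_min hN (xt_min hN hMN (Gb_mem hN hG1 (hMN hB))) hG1
  · exact xt_min (hGq.ctm hN₀ hQN) (fun x hx => hGq.sub_xt hN₀ hQN (hMN₀ hx)) (hGq.mem_xt hN₀ hQN)

end Pool.Agent.H7.IG
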