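import Pool.Agent.H7.IG.LEj
import Pool.Agent.H7.IG.Prj1
import Pool.Agent.H7.IG.Gn3

/-!
# IG, Part 4: lifted embeddings and the iteration: the generic filter of the preimage

`ItE.rng`: ← `ItE.img`. → let `p' ∈ Q'`, `Dm δ p' D`; `p' ∈ 𝓕'` is finite; `p := {(β, x) ∈ Λ × δ : (e β, x) ∈ p'}` is finite (`e` is injective on `Λ`), in `A` (`Lev.fin`), in `𝓕` (`ItE.fin`) and `e p = p'` (`ItE.img`); `p ∈ Q` by `Elem.mem`.
`ItE.main`: `D` from `exists_D`, `B₀ = prod D δ`, `Q₀ = QA δ Q' D` (in `N` by separation); `Prj` by `IsIt.prj` with `ItE.nm`. `G₀ := Gb H' B₀` is `Q₀`-generic over `N` (`Prj.gen₀`). The graph `i` of `e` on `Q` is in `N` (`LE.gr`), maps `Q` onto `Q₀` (`rng`) and is an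
isomorphism (`Elem.sbs`). `Gen.iso` (Gn3; `P' := Q`, `P := Q₀`): `H := {p ∈ Q : ap i p ∈ G₀}` is `Q`-generic over `N` with the same extension. For `p ∈ Q`: `e p ∈ G₀ ↔ e p ∈ H'`: → `e p = q ∩ B₀ ⊆ q ∈ H'`, `e p ∈ Q'`, `Gen.up`; ← `e p ⊆ B₀`.
`H ∈ Xt N H'`: `Gb H' B₀ ∈ Xt N H'` (`Gb_mem`), so by minimality `Xt N (Gb H' B₀) ⊆ Xt N H'` and `H ∈ Xt N H` (`Gen.mem_xt`).
`ItE.genW`: a filter generic over `N` is generic over `W ⊆ N`.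
-/

set_option autoImplicit false
set_option linter.unusedVariables false
set_option linter.unusedSectionVars false
set_option linter.unusedSimpArgs false
set_option linter.unusedTactic false
set_option linter.unreachableTactic false

namespace Pool.Agent.H7.IG

open Pool.Agent.H17.Omega Pool.Agent.H17.Omega.CTM Pool.Agent.H52.GX Pool.Agent.H52.GC

variable {W N A B : Set ZFSet.{0}} {δ γ κ : Ordinal.{0}} {e : ZFSet.{0} → ZFSet.{0}}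
  {Λ Λ' : Ordinal.{0}} {𝓡 Q 𝓕 𝓡' Q' 𝓕' : ZFSet.{0}}

theorem ItE.rng (h : ItE W N A B δ γ κ Λ Λ' 𝓡 Q 𝓕 𝓡' Q' 𝓕' e) {D : ZFSet.{0}} (hD : IsD Λ e D) (p' : ZFSet.{0}) :
    p' ∈ QA δ.toZFSet Q' D ↔ ∃ p ∈ Q, e p = p' := by
  classical
  have hA := h.le.lev.tra
  have hB := h.le.lev'.tra
  constructor
  · intro hp'
    obtain ⟨hp'Q, hp'D⟩ := mem_QA.1 hp'
    obtain ⟨hfin, _⟩ := (h.fin' p').1 (h.it'.q_sub _ hp'Q)
    let P : ZFSet.{0} := ZFSet.sep (fun z => ∃ β ∈ Λ.toZFSet, ∃ x ∈ δ.toZFSet, z = ZFSet.pair β x ∧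
      ZFSet.pair (e β) x ∈ p') (ZFSet.prod Λ.toZFSet δ.toZFSet)
    have hP : ∀ z, z ∈ P ↔ ∃ β ∈ Λ.toZFSet, ∃ x ∈ δ.toZFSet, z = ZFSet.pair β x ∧
        ZFSet.pair (e β) x ∈ p' := by
      intro z
      rw [ZFSet.mem_sep]
      constructor
      · exact fun h => h.2
      · rintro ⟨β, hβ, x, hx, rfl, h1⟩
        exact ⟨ZFSet.pair_mem_prod.2 ⟨hβ, hx⟩, β, hβ, x, hx, rfl, h1⟩
    have hPf : FinZ P := by
      obtain ⟨s, hs⟩ := hfin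
      have hfs : Set.Finite {z | z ∈ P} := by
        refine Set.Finite.of_finite_image (f := fun z => if hz : ∃ β ∈ Λ.toZFSet, ∃ x ∈ δ.toZFSet,
          z = ZFSet.pair β x ∧ ZFSet.pair (e β) x ∈ p' then
            ZFSet.pair (e hz.choose) hz.choose_spec.2.choose else ∅) ?_ ?_
        · refine (Finset.finite_toSet s).subset ?_
          rintro _ ⟨z, hz, rfl⟩
          have hz' := (hP z).1 hz
          simp only [dif_pos hz']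
          exact (hs _).1 hz'.choose_spec.2.choose_spec.2.2
        · intro z hz w hw hzw
          have hz' := (hP z).1 hz
          have hw' := (hP w).1 hw
          simp only [dif_pos hz', dif_pos hw'] at hzw
          rw [ZFSet.pair_inj] at hzw
          have h1 : hz'.choose = hw'.choose := Elem.inj h.le.el hA hB
            (hA _ h.mΛ _ hz'.choose_spec.1) (hA _ h.mΛ _ hw'.choose_spec.1) hzw.1
          rw [hz'.choose_spec.2.choose_spec.2.1, hw'.choose_spec.2.choose_spec.2.1, hzw.2, h1]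
      exact ⟨hfs.toFinset, fun z => by rw [Set.Finite.mem_toFinset]; exact Iff.rfl⟩
    have hPd : Dm δ.toZFSet P Λ.toZFSet := by
      intro z hz
      obtain ⟨β, hβ, x, hx, rfl, _⟩ := (hP z).1 hz
      exact ⟨β, hβ, x, hx, rfl⟩
    have hPF : P ∈ 𝓕 := (h.fin P).2 ⟨hPf, hPd⟩
    have hPA : P ∈ A := hA _ h.mF _ hPF
    have heP : e P = p' := by
      ext z
      rw [h.img hPF]
      constructor
      · rintro ⟨β, hβ, x, hx, h1, rfl⟩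
        obtain ⟨β₁, _, x₁, _, h2, h3⟩ := (hP _).1 h1
        rw [ZFSet.pair_inj] at h2
        rw [h2.1, h2.2]
        exact h3
      · intro hz
        obtain ⟨b, hb, x, hx, rfl⟩ := hp'D z hz
        obtain ⟨β, hβ, rfl⟩ := (hD b).1 hb
        exact ⟨β, hβ, x, hx, (hP _).2 ⟨β, hβ, x, hx, rfl, hz⟩, rfl⟩
    refine ⟨P, ?_, heP⟩
    rw [Elem.mem h.le.el hA hB hPA h.mQ, heP, h.eQ]
    exact hp'Q
  · rintro ⟨p, hp, rfl⟩
    have hpA : p ∈ A := hA _ h.mQ _ hp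
    refine mem_QA.2 ⟨?_, fun z hz => ?_⟩
    · rw [← h.eQ]
      exact (Elem.mem h.le.el hA hB hpA h.mQ).1 hp
    · obtain ⟨β, hβ, x, hx, _, rfl⟩ := (h.img (h.it.q_sub _ hp) z).1 hz
      exact ⟨e β, (hD _).2 ⟨β, hβ, rfl⟩, x, hx, rfl⟩

theorem ItE.main (h : ItE W N A B δ γ κ Λ Λ' 𝓡 Q 𝓕 𝓡' Q' 𝓕' e) (hQN : Q' ∈ N) {H' : ZFSet.{0}} (hH' : Gen N Q' H') :
    ∃ B₀ ∈ N, ∃ Q₀ ∈ N, Q₀ ⊆ Q' ∧ Prj Q' Q₀ B₀ ∧ ∃ H, (∀ p ∈ Q, p ∈ H ↔ e p ∈ H') ∧ Gen N Q H ∧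
      Xt N H = Xt N (Gb H' B₀) ∧ H ∈ Xt N H' := by
  classical
  have hN := h.le.hN
  have hA := h.le.lev.tra
  have hB := h.le.lev'.tra
  obtain ⟨D, hD, hDΛ, hDD⟩ := h.exists_D
  have hδN : δ.toZFSet ∈ N := h.le.om1'.mem
  have hB₀ : ZFSet.prod D δ.toZFSet ∈ N := hN.prod_mem hD hδN
  have hQ₀ : QA δ.toZFSet Q' D ∈ N := by
    rw [QA]
    refine hN.sep_mem ?_ hQN
    unfold Dm
    show hN.Dfn (fun v : Fin 1 → N => ∀ z ∈ (v 0).1, ∃ β ∈ (⟨D, hD⟩ : N).1, ∃ x ∈ (⟨_, hδN⟩ : N).1,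
      z = ZFSet.pair β x)
    (repeat' first
      | exact DT.var _ | exact DT.last | exact DT.const _ | assumption
      | refine Dfn.pairMem ?_ ?_ ?_ | refine Dfn.isPair ?_ ?_ ?_ | refine Dfn.mem ?_ ?_
      | refine Dfn.eqv ?_ ?_ | refine Dfn.eq ?_ ?_ | refine Dfn.subset ?_ ?_
      | refine Dfn.isEmpty ?_ | refine Dfn.isTrans ?_ | refine Dfn.isOrd ?_ | refine Dfn.isNat ?_
      | refine Dfn.isUpair ?_ ?_ ?_ | refine Dfn.isInsert ?_ ?_ ?_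
      | refine Dfn.and ?_ ?_ | refine Dfn.or ?_ ?_ | refine Dfn.iff ?_ ?_ | refine Dfn.not ?_
      | refine Dfn.imp ?_ ?_ | refine Dfn.all ?_ | refine Dfn.ex ?_ | exact Dfn.false'
      | refine Dfn.ballZ ?_ ?_ | refine Dfn.bexZ ?_ ?_ | exact Dfn.const _)
  have hprj : Prj Q' (QA δ.toZFSet Q' D) (ZFSet.prod D δ.toZFSet) :=
    h.it'.prj h.fin' hDΛ (h.nm hDD)
  have hG₀ : Gen N (QA δ.toZFSet Q' D) (Gb H' (ZFSet.prod D δ.toZFSet)) :=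
    hprj.gen₀ hN hQN hQ₀ hB₀ hH'
  have hQ : Q ∈ N := h.le.sub (h.le.lev.sub h.mQ)
  obtain ⟨g, hg, hg'⟩ := h.le.gr
  obtain ⟨i, hi, hi'⟩ := hN.exists_sep (P := fun z => z.1 ∈ (⟨g, hg⟩ : N).1) (by
    (repeat' first
      | exact DT.var _ | exact DT.last | exact DT.const _ | assumption
      | refine Dfn.pairMem ?_ ?_ ?_ | refine Dfn.isPair ?_ ?_ ?_ | refine Dfn.mem ?_ ?_
      | refine Dfn.eqv ?_ ?_ | refine Dfn.eq ?_ ?_ | refine Dfn.subset ?_ ?_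
      | refine Dfn.isEmpty ?_ | refine Dfn.isTrans ?_ | refine Dfn.isOrd ?_ | refine Dfn.isNat ?_
      | refine Dfn.isUpair ?_ ?_ ?_ | refine Dfn.isInsert ?_ ?_ ?_
      | refine Dfn.and ?_ ?_ | refine Dfn.or ?_ ?_ | refine Dfn.iff ?_ ?_ | refine Dfn.not ?_
      | refine Dfn.imp ?_ ?_ | refine Dfn.all ?_ | refine Dfn.ex ?_ | exact Dfn.false'
      | refine Dfn.ballZ ?_ ?_ | refine Dfn.bexZ ?_ ?_ | exact Dfn.const _)) (hN.prod_mem hQ hQ₀)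
  have him : ∀ p y : ZFSet.{0}, ZFSet.pair p y ∈ i ↔ p ∈ Q ∧ y = e p := by
    intro p y
    rw [hi']
    constructor
    · rintro ⟨h1, _, h2⟩
      rw [ZFSet.pair_mem_prod] at h1
      obtain ⟨w, _, h3⟩ := (hg' _).1 h2
      have h3 : ZFSet.pair p y = ZFSet.pair w (e w) := h3
      rw [ZFSet.pair_inj] at h3
      exact ⟨h1.1, by rw [h3.2, h3.1]⟩
    · rintro ⟨h1, rfl⟩
      have h2 : e p ∈ QA δ.toZFSet Q' D := (h.rng hDD _).2 ⟨p, h1, rfl⟩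
      refine ⟨ZFSet.pair_mem_prod.2 ⟨h1, h2⟩, hN.pair_mem (hN.mem_of_mem hQ h1) (hN.mem_of_mem hQ₀ h2), ?_⟩
      exact (hg' _).2 ⟨p, hA _ h.mQ _ h1, rfl⟩
  have hfn : Onto i Q (QA δ.toZFSet Q' D) := by
    refine ⟨⟨fun z hz => ?_, fun p hp => ?_, fun p _ y _ y' _ h1 h2 => ?_⟩, fun y hy => ?_⟩
    · have h1 := ((hi' z).1 hz).1
      rw [ZFSet.mem_prod] at h1
      obtain ⟨p, hp, y, hy, rfl⟩ := h1
      exact ⟨p, hp, y, hy, rfl⟩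
    · exact ⟨e p, (h.rng hDD _).2 ⟨p, hp, rfl⟩, (him _ _).2 ⟨hp, rfl⟩⟩
    · rw [((him _ _).1 h1).2, ((him _ _).1 h2).2]
    · obtain ⟨p, hp, rfl⟩ := (h.rng hDD _).1 hy
      exact ⟨p, hp, (him _ _).2 ⟨hp, rfl⟩⟩
  have hap : ∀ p ∈ Q, ap i p = e p := fun p hp => hfn.1.ap_eq ((him _ _).2 ⟨hp, rfl⟩)
  have hord : ∀ p ∈ Q, ∀ q ∈ Q, p ⊆ q ↔ ap i p ⊆ ap i q := by
    intro p hp q hq
    rw [hap p hp, hap q hq]
    exact Elem.sbs h.le.el hA hB (hA _ h.mQ _ hp) (hA _ h.mQ _ hq)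
  obtain ⟨h1, h2⟩ := Gen.iso hN hQ₀ hQ hi hfn hord hG₀
  refine ⟨_, hB₀, _, hQ₀, fun p hp => (mem_QA.1 hp).1, hprj, _, fun p hp => ?_, h1, h2, ?_⟩
  · rw [ZFSet.mem_sep, hap p hp, mem_Gb]
    have h3 : e p ∈ QA δ.toZFSet Q' D := (h.rng hDD _).2 ⟨p, hp, rfl⟩
    constructor
    · rintro ⟨_, q, hq, h4⟩
      refine hH'.up q hq _ (mem_QA.1 h3).1 ?_
      rw [h4]
      exact fun z hz => (ZFSet.mem_inter.1 hz).1
    · intro h4
      refine ⟨hp, e p, h4, ?_⟩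
      ext z
      rw [ZFSet.mem_inter]
      exact ⟨fun hz => ⟨hz, hprj.sub _ h3 hz⟩, fun hz => hz.1⟩
  · have hX : CTM (Xt N H') := hH'.ctm hN hQN
    have hNX : N ⊆ Xt N H' := hH'.sub_xt hN hQN
    have h5 : Gb H' (ZFSet.prod D δ.toZFSet) ∈ Xt N H' := Gb_mem hX (hH'.mem_xt hN hQN) (hNX hB₀)
    have h6 := xt_min hX hNX h5
    have h7 := h1.mem_xt hN hQ
    rw [h2] at h7
    exact h6 h7

theorem Gen.of_sub {M N : Set ZFSet.{0}} (hMN : M ⊆ N) {P G : ZFSet.{0}} (hG : Gen N P G) : Gen M P G :=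
  ⟨hG.sub, hG.ne, hG.up, hG.dir, fun D hD h => hG.gen D (hMN hD) h⟩

end Pool.Agent.H7.IG
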