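import Pool.Agent.H7.IG.Prj1

/-!
# IG: projections, the quotient is ccc

`P₀ ⊆ P`, `P` ccc in `M`. Then `P₀` is ccc in `M` (conditions of `P₀` that are compatible in `P` are compatible in `P₀`:
intersect with `B`). Let `A ∈ M[G₀]` be an antichain of `Quo P B G₀` that is uncountable in `M[G₀]`, `f : δ → A` injective in
`M[G₀]` (`exists_inj_om1`), `f = vl G₀ τ`; `r₀ ∈ G₀` forces over `M` that `τ` is an injective function from `δ` to `Quo P B G₀` with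
pairwise incompatible values. In `M` choose (`exists_choice`) for `ξ < δ` a pair `(r_ξ, p_ξ)`: `r_ξ ∈ P₀`, `r₀ ⊆ r_ξ`, `p_ξ ∈ P`,
`p_ξ ∩ B ⊆ r_ξ`, `r_ξ` forces `(ξ, p_ξ) ∈ τ` (exists: take a generic `G₀' ∋ r₀`, `p_ξ` the value, `p_ξ ∩ B ∈ G₀'`). `q_ξ = p_ξ ∪ r_ξ ∈ P`. For `ξ ≠ η`
these are incompatible in `P`: if `q ∈ P` contains both, take a generic `G₀' ∋ q ∩ B`; then `q ∈ Quo P B G₀'` extends the values
`p_ξ, p_η` of `vl G₀' τ` at `ξ, η`: contradiction. So `ξ ↦ q_ξ` is injective and `{q_ξ}` is an uncountable antichain of `M`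
(`δ` is not countable in `M`).
-/

set_option autoImplicit false
set_option linter.unusedVariables false
set_option linter.unusedSectionVars false
set_option linter.unusedSimpArgs false
set_option linter.unusedTactic false
set_option linter.unreachableTactic false

namespace Pool.Agent.H7.IG

open Pool.Agent.H17.Omega Pool.Agent.H17.Omega.CTM Pool.Agent.H52.GX Pool.Agent.H52.GC

variable {M : Set ZFSet.{0}} {P P₀ B G : ZFSet.{0}}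

/-- `v 0` is an antichain of the quotient of `v 1` by the filter `v 3` (projection: intersection with `v 2`). -/
def AcQ (N : Set ZFSet.{0}) (v : Fin 4 → N) : Prop :=
  (∀ a : N, a.1 ∈ (v 0).1 → a.1 ∈ (v 1).1 ∧ ∃ s : N, s.1 ∈ (v 3).1 ∧
    ∀ z : N, z.1 ∈ s.1 ↔ z.1 ∈ a.1 ∧ z.1 ∈ (v 2).1) ∧
  ∀ a : N, a.1 ∈ (v 0).1 → ∀ b : N, b.1 ∈ (v 0).1 → ¬ a = b → ∀ q : N, q.1 ∈ (v 1).1 →
    (∃ s : N, s.1 ∈ (v 3).1 ∧ ∀ z : N, z.1 ∈ s.1 ↔ z.1 ∈ q.1 ∧ z.1 ∈ (v 2).1) → a.1 ⊆ q.1 → ¬ b.1 ⊆ q.1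

theorem ud_AcQ : UD CtmC (fun N (v : Fin 4 → N) => AcQ N v) := by
  unfold AcQ
  (repeat' first
      | exact UT.var _ | exact UT.last | assumption
      | refine UD.pairMem ?_ ?_ ?_ | refine UD.isPair ?_ ?_ ?_ | refine UD.mem ?_ ?_
      | refine UD.eqv ?_ ?_ | refine UD.eq ?_ ?_ | refine UD.subset ?_ ?_
      | refine UD.isEmpty ?_ | refine UD.isTrans ?_ | refine UD.isOrd ?_ | refine UD.isNat ?_
      | refine UD.isUpair ?_ ?_ ?_ | refine UD.isInsert ?_ ?_ ?_ | refine UD.isUnion ?_ ?_ ?_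
      | refine UD.and ?_ ?_ | refine UD.or ?_ ?_ | refine UD.iff ?_ ?_ | refine UD.not ?_
      | refine UD.imp ?_ ?_ | refine UD.all ?_ | refine UD.ex ?_ | exact UD.false' | exact UD.true'
      | refine UD.ball ?_ ?_ | refine UD.bex ?_ ?_)

theorem ud_memb : UD CtmC (fun N (v : Fin 2 → N) => (v 0).1 ∈ (v 1).1) := UD.mem (UT.var _) (UT.var _)

theorem Prj.ccc (h : Prj P P₀ B) (hM : CTM M) (hP : P ∈ M) (hP₀ : P₀ ∈ M) (hB : B ∈ M) (hPP : P₀ ⊆ P)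
    (hc : Ccc M P) (hG : Gen M P G) : Ccc (Xt M (Gb G B)) (Quo P B (Gb G B)) := by
  have hG₀ := h.gen₀ hM hP hP₀ hB hG
  generalize Gb G B = G₀ at hG₀ ⊢
  have hN := hG₀.ctm hM hP₀
  have hMN := hG₀.sub_xt hM hP₀
  obtain ⟨γ, hγ⟩ := exists_gname hM hP₀
  intro A hA hAQ hac
  obtain ⟨τ, hτ, hτA⟩ := hA
  have hA : A ∈ Xt M G₀ := ⟨τ, hτ, hτA⟩
  -- a condition forcing that the name is an antichain of the quotient
  obtain ⟨r₀, hr₀, hfr⟩ : ∃ r₀ ∈ G₀, Frc M P₀ AcQ r₀ ![.n ⟨τ, hτ⟩, .g ⟨P, hP⟩, .g ⟨B, hB⟩, .n γ] := by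
    refine (Frc.truth ud_AcQ hM hP₀ hG₀ ![.n ⟨τ, hτ⟩, .g ⟨P, hP⟩, .g ⟨B, hB⟩, .n γ]
      ![⟨A, hA⟩, ⟨P, hMN hP⟩, ⟨B, hMN hB⟩, ⟨G₀, hG₀.mem_xt hM hP₀⟩] ?_).1 ?_
    · intro i
      fin_cases i
      · exact hτA.symm
      · rfl
      · rfl
      · exact (hγ G₀ hG₀).symm
    · refine ⟨fun a ha => ?_, fun a ha b hb hab q hq hs haq hbq => ?_⟩
      · have h1 := mem_Quo.1 (hAQ ha)
        exact ⟨h1.1, ⟨_, hN.mem_of_mem (hG₀.mem_xt hM hP₀) h1.2⟩, h1.2, fun z => ZFSet.mem_inter⟩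
      · obtain ⟨s, hs, hs'⟩ := hs
        have e : q.1 ∩ B = s.1 := by
          refine ZFSet.ext fun z => ?_
          rw [ZFSet.mem_inter]
          constructor
          · rintro ⟨h1, h2⟩
            exact (hs' ⟨z, hN.mem_of_mem q.2 h1⟩).2 ⟨h1, h2⟩
          · intro h1
            exact (hs' ⟨z, hN.mem_of_mem s.2 h1⟩).1 h1
        exact hac a.1 ha b.1 hb (fun h1 => hab (Subtype.ext h1)) q.1
          (mem_Quo.2 ⟨hq, by rw [e]; exact hs⟩) haq hbq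
  have hr₀M : r₀ ∈ M := hM.mem_of_mem hP₀ (hG₀.sub _ hr₀)
  -- the relation used for the choice
  let F : M → M → Prop := fun p q => ∃ r : M, r.1 ∈ (⟨P₀, hP₀⟩ : M).1 ∧ (⟨r₀, hr₀M⟩ : M).1 ⊆ r.1 ∧
    (∀ z : M, z.1 ∈ p.1 → z.1 ∈ (⟨B, hB⟩ : M).1 → z.1 ∈ r.1) ∧
    (∀ z : M, z.1 ∈ q.1 ↔ z.1 ∈ p.1 ∨ z.1 ∈ r.1) ∧
    Frc M P₀ (fun N (v : Fin 2 → N) => (v 0).1 ∈ (v 1).1) r.1 ![.g p, .n ⟨τ, hτ⟩]
  have hF : hM.Dfn (fun v : Fin 2 → M => F (v 0) (v 1)) := by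
    refine Dfn.ex (Dfn.and ?_ (Dfn.and ?_ (Dfn.and ?_ (Dfn.and ?_ ?_))))
    · exact Dfn.mem (DT.var _) (DT.const _)
    · exact Dfn.subset (DT.const _) (DT.var _)
    · exact Dfn.all (Dfn.imp (Dfn.mem (DT.var _) (DT.var _)) (Dfn.imp (Dfn.mem (DT.var _) (DT.const _))
        (Dfn.mem (DT.var _) (DT.var _))))
    · exact Dfn.all (Dfn.iff (Dfn.mem (DT.var _) (DT.var _)) (Dfn.or (Dfn.mem (DT.var _) (DT.var _))
        (Dfn.mem (DT.var _) (DT.var _))))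
    · exact Frc.dfn2 ud_memb hP₀ (DT.var _) (AT.g (DT.var _)) (AT.n (DT.const _))
  -- properties of the relation
  have hFP : ∀ p q : M, p.1 ∈ P → F p q → ∃ r ∈ P₀, r₀ ⊆ r ∧ p.1 ∩ B ⊆ r ∧ q.1 = p.1 ∪ r ∧
      q.1 ∈ P ∧ q.1 ∩ B = r ∧
      Frc M P₀ (fun N (v : Fin 2 → N) => (v 0).1 ∈ (v 1).1) r ![.g p, .n ⟨τ, hτ⟩] := by
    rintro p q hp ⟨r, h1, h2, h3, h4, h5⟩
    have h3' : p.1 ∩ B ⊆ r.1 := by
      intro z hz
      rw [ZFSet.mem_inter] at hz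
      exact h3 ⟨z, hM.mem_of_mem p.2 hz.1⟩ hz.1 hz.2
    have h4' : q.1 = p.1 ∪ r.1 := by
      refine hM.ext' q.2 (hM.union_mem p.2 r.2) fun z => ?_
      rw [h4, ZFSet.mem_union]
    refine ⟨r.1, h1, h2, h3', h4', by rw [h4']; exact h.amal p.1 hp r.1 h1 h3', ?_, h5⟩
    rw [h4']
    refine ZFSet.ext fun z => ?_
    rw [ZFSet.mem_inter, ZFSet.mem_union]
    constructor
    · rintro ⟨h6 | h6, h7⟩
      · exact h3' (ZFSet.mem_inter.2 ⟨h6, h7⟩)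
      · exact h6
    · intro h6
      exact ⟨Or.inr h6, h.sub r.1 h1 h6⟩
  have hinc : ∀ p q p' q' : M, p.1 ∈ P → p'.1 ∈ P → F p q → F p' q' → p ≠ p' →
      ∀ s ∈ P, q.1 ⊆ s → ¬ q'.1 ⊆ s := by
    intro p q p' q' hp hp' hpq hpq' hne s hs h1 h2
    obtain ⟨r, hr, hr0, hpr, hq, hqP, hqB, hfq⟩ := hFP p q hp hpq
    obtain ⟨r', hr', hr0', hpr', hq', hqP', hqB', hfq'⟩ := hFP p' q' hp' hpq'
    obtain ⟨K, hK, hsK⟩ := exists_gen hM hP₀ (h.down s hs)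
    have hrK : r ∈ K := by
      refine hK.up _ hsK _ hr ?_
      rw [← hqB]
      intro z hz
      rw [ZFSet.mem_inter] at hz ⊢
      exact ⟨h1 hz.1, hz.2⟩
    have hrK' : r' ∈ K := by
      refine hK.up _ hsK _ hr' ?_
      rw [← hqB']
      intro z hz
      rw [ZFSet.mem_inter] at hz ⊢
      exact ⟨h2 hz.1, hz.2⟩
    have hr0K : r₀ ∈ K := hK.up _ hrK _ (hG₀.sub _ hr₀) hr0
    have hNK := hK.ctm hM hP₀
    have hMK := hK.sub_xt hM hP₀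
    have hvτ : vl K τ ∈ Xt M K := ⟨τ, hτ, rfl⟩
    have hKN := hK.mem_xt hM hP₀
    have h3 := hfr K hK hr0K ![⟨vl K τ, hvτ⟩, ⟨P, hMK hP⟩, ⟨B, hMK hB⟩, ⟨K, hKN⟩] (by
      intro i
      fin_cases i
      · rfl
      · rfl
      · rfl
      · exact (hγ K hK).symm)
    have h4 : p.1 ∈ vl K τ := hfq K hK hrK ![⟨p.1, hMK p.2⟩, ⟨vl K τ, hvτ⟩] (by
      intro i
      fin_cases i <;> rfl)
    have h5 : p'.1 ∈ vl K τ := hfq' K hK hrK' ![⟨p'.1, hMK p'.2⟩, ⟨vl K τ, hvτ⟩] (by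
      intro i
      fin_cases i <;> rfl)
    refine h3.2 ⟨p.1, hMK p.2⟩ h4 ⟨p'.1, hMK p'.2⟩ h5 (fun e => hne (Subtype.ext (congrArg (fun x : Xt M K => x.1) e)))
      ⟨s, hMK (hM.mem_of_mem hP hs)⟩ hs ⟨⟨_, hNK.mem_of_mem hKN hsK⟩, hsK, fun z => ZFSet.mem_inter⟩ ?_ ?_
    · intro z hz
      refine h1 ?_
      rw [hq]
      exact ZFSet.mem_union.2 (Or.inl hz)
    · intro z hz
      refine h2 ?_
      rw [hq']
      exact ZFSet.mem_union.2 (Or.inl hz)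
  -- the set of all possible elements of the antichain
  obtain ⟨As, hAs, hAs'⟩ := hM.exists_sep (P := fun p => ∃ q : M, F p q) (Dfn.ex (Dfn.subst2 (P := F) hF
    (DT.var _) (DT.var _))) hP
  obtain ⟨f, hf, hfn, hf'⟩ := exists_choice hM hF hAs hP (fun p hp => by
    obtain ⟨hpP, _, q, hq⟩ := (hAs' _).1 hp
    obtain ⟨r, hr, hr0, hpr, hq1, hqP, hqB, hfq⟩ := hFP p q hpP hq
    exact ⟨q, hqP, hq⟩)
  have hAsP : ∀ p ∈ As, p ∈ P := fun p hp => ((hAs' p).1 hp).1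
  -- the range of the choice function
  obtain ⟨E, hE, hE'⟩ := hM.exists_sep (P := fun q => ∃ p : M, ZFSet.pair p.1 q.1 ∈ (⟨f, hf⟩ : M).1) (by
    (repeat' first
      | exact DT.var _ | exact DT.last | exact DT.const _ | assumption
      | refine Dfn.pairMem ?_ ?_ ?_ | refine Dfn.isPair ?_ ?_ ?_ | refine Dfn.mem ?_ ?_
      | refine Dfn.eqv ?_ ?_ | refine Dfn.eq ?_ ?_ | refine Dfn.subset ?_ ?_
      | refine Dfn.isEmpty ?_ | refine Dfn.isTrans ?_ | refine Dfn.isOrd ?_ | refine Dfn.isNat ?_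
      | refine Dfn.isUpair ?_ ?_ ?_ | refine Dfn.isInsert ?_ ?_ ?_
      | refine Dfn.and ?_ ?_ | refine Dfn.or ?_ ?_ | refine Dfn.iff ?_ ?_ | refine Dfn.not ?_
      | refine Dfn.imp ?_ ?_ | refine Dfn.all ?_ | refine Dfn.ex ?_ | exact Dfn.false'
      | refine Dfn.ballZ ?_ ?_ | refine Dfn.bexZ ?_ ?_ | exact Dfn.const _)) hP
  have hpair : ∀ p q : ZFSet.{0}, ZFSet.pair p q ∈ f → p ∈ As ∧ q ∈ P := by
    intro p q hpq
    obtain ⟨p', hp', q', hq', e⟩ := hfn.sub _ hpq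
    rw [ZFSet.pair_inj] at e
    exact ⟨e.1 ▸ hp', e.2 ▸ hq'⟩
  have hEc : Ctb M E := by
    refine hc E hE (fun q hq => ((hE' q).1 hq).1) ?_
    intro q hq q' hq' hne s hs h1 h2
    obtain ⟨_, hqM, p, hp⟩ := (hE' q).1 hq
    obtain ⟨_, hqM', p', hp'⟩ := (hE' q').1 hq'
    have hp : ZFSet.pair p.1 q ∈ f := hp
    have hp' : ZFSet.pair p'.1 q' ∈ f := hp'
    have hpp : p ≠ p' := by
      rintro rfl
      exact hne (hfn.uni p.1 (hpair _ _ hp).1 q (hpair _ _ hp).2 q' (hpair _ _ hp').2 hp hp')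
    exact hinc p ⟨q, hqM⟩ p' ⟨q', hqM'⟩ (hAsP _ (hpair _ _ hp).1) (hAsP _ (hpair _ _ hp').1)
      (hf' p ⟨q, hqM⟩ hp) (hf' p' ⟨q', hqM'⟩ hp') hpp s hs h1 h2
  have hAc : Ctb M As := by
    refine Ctb.image hM hEc hE (F := fun q p => ZFSet.pair p.1 q.1 ∈ (⟨f, hf⟩ : M).1) (by
    (repeat' first
      | exact DT.var _ | exact DT.last | exact DT.const _ | assumption
      | refine Dfn.pairMem ?_ ?_ ?_ | refine Dfn.isPair ?_ ?_ ?_ | refine Dfn.mem ?_ ?_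
      | refine Dfn.eqv ?_ ?_ | refine Dfn.eq ?_ ?_ | refine Dfn.subset ?_ ?_
      | refine Dfn.isEmpty ?_ | refine Dfn.isTrans ?_ | refine Dfn.isOrd ?_ | refine Dfn.isNat ?_
      | refine Dfn.isUpair ?_ ?_ ?_ | refine Dfn.isInsert ?_ ?_ ?_
      | refine Dfn.and ?_ ?_ | refine Dfn.or ?_ ?_ | refine Dfn.iff ?_ ?_ | refine Dfn.not ?_
      | refine Dfn.imp ?_ ?_ | refine Dfn.all ?_ | refine Dfn.ex ?_ | exact Dfn.false'
      | refine Dfn.ballZ ?_ ?_ | refine Dfn.bexZ ?_ ?_ | exact Dfn.const _)) ?_ ?_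
    · intro q hq p p' hp hp'
      by_contra hpp
      have h1 := hpair _ _ hp
      have h2 := hpair _ _ hp'
      exact hinc p q p' q (hAsP _ h1.1) (hAsP _ h2.1) (hf' p q hp) (hf' p' q hp') hpp q.1 h1.2
        (fun z hz => hz) (fun z hz => hz)
    · intro p hp
      obtain ⟨q, hq, hpq⟩ := hfn.tot p hp
      have hqM := hM.mem_of_mem hP hq
      have hpM := hM.mem_of_mem hAs hp
      exact ⟨⟨q, hqM⟩, ⟨p, hpM⟩, (hE' q).2 ⟨hq, hqM, ⟨p, hpM⟩, hpq⟩, rfl, hpq⟩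
  have hAsub : A ⊆ As := by
    intro p hp
    have h1 := mem_Quo.1 (hAQ hp)
    have hpM := hM.mem_of_mem hP h1.1
    obtain ⟨r1, hr1, hf1⟩ := (Frc.truth ud_memb hM hP₀ hG₀ ![.g ⟨p, hpM⟩, .n ⟨τ, hτ⟩]
      ![⟨p, hMN hpM⟩, ⟨A, hA⟩] (by
        intro i
        fin_cases i
        · rfl
        · exact hτA.symm)).1 hp
    obtain ⟨r2, hr2, h2, h3⟩ := hG₀.dir _ hr₀ _ hr1
    obtain ⟨r3, hr3, h4, h5⟩ := hG₀.dir _ hr2 _ h1.2
    have hr3P := hG₀.sub _ hr3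
    have hr3M := hM.mem_of_mem hP₀ hr3P
    have hUM := hM.union_mem hpM hr3M
    refine (hAs' p).2 ⟨h1.1, hpM, ⟨p ∪ r3, hUM⟩, ⟨r3, hr3M⟩, hr3P, fun z hz => h4 (h2 hz), ?_, ?_, ?_⟩
    · intro z hz hzB
      exact h5 (ZFSet.mem_inter.2 ⟨hz, hzB⟩)
    · intro z
      exact ZFSet.mem_union
    · exact Frc.mono hf1 (hG₀.sub _ hr1) (fun z hz => h4 (h3 hz))
  obtain ⟨g, hg, hg'⟩ := hAc.mono hAsub
  exact ⟨g, hMN hg, hg'⟩

end Pool.Agent.H7.IG
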