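import Pool.Agent.H7.IG.SideH
import Pool.Agent.H7.IG.SideP
import Pool.Agent.H7.IG.KeyD
import Pool.Agent.H7.IG.Gx4

/-!
# IG, Part 1: the tail of the side condition poset is strongly proper over `M[G_o]`

`G_o` is `Po P o`-generic over `M`, `W = M[G_o]`, `S = Quo (Pg P o) B G_o = {s ∈ P : o ∈ s, s ∩ V_o ∈ G_o}`. Let `Y ∈ M`, `S ⊆ Y`, `Φ` definable over
`W`, `s₀ ∈ S`. `exists_frc2` gives `F` definable over `M` with `Φ y z ↔ ∃ p ∈ G_o, F p y z` for `y, z ∈ M`.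
`Y' = V_η` of `M`, `η > κ` a limit, `Y ⊆ Y'`. `Φ'` codes (with pairs `(i, y)`): components of pairs, and
`(t, y) ↦ (t', z)`: `t ∈ Po P o`, `t ⊆ t' ∈ Po P o`, `z ∈ Y`, `F t' y z`.
`D := {q ∈ Po P o : ∃ s ∈ P, ∃ Z', ZC M κ Z', PhC Φ' Y' Z', Z' ⊆ Y', s₀ ∈ Z', s₀ ⊆ s, ct κ Z' ∈ s, ct o (ct κ Z') ∈ s, ct o s = q}` is
definable over `M` (`dfn_ZC`, `dfn_PhC`) and dense below `ct o s₀`: given `q ⊇ ct o s₀` in `Po P o`, `p := s₀ ∪ q ∈ P` (Lemma A); take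
`Z'` with `p, s₀ ∈ Z'` and `s ⊇ p` from `add_node` (`o := κ`); `ct o s ⊇ q`. So (`Gen.meet`) there are `s`, `Z'` with `ct o s ∈ G_o`,
so `s ∈ S`. `Z := Z' ∩ Y`, `N := ct κ Z'`, `N_o := ct o N = ct o Z' ∈ ct o s`.
`SG Z S s₀ s`: let `s' ∈ S`, `s ⊆ s'`. `r := s' ∩ N ∈ P` (`cond_inter`), `r ∈ Z'`; `o ∈ r` (`o ∈ s₀ ⊆ N`), `ct o r ⊆ ct o s' ∈ G_o`, so `r ∈ S ⊆ Y`. For
`t ∈ Z ∩ S`, `r ⊆ t`: `t ⊆ N`; `cond_B` gives `u ∈ P` containing `s' ∪ t`; `ct o u` is contained in a common extension `q ∈ G_o` of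
`ct o s'` and `ct o t` by `cond_B_below` (CondX), so `ct o u ∈ G_o`, `u ∈ S`.
`Φ`-closure: let `y ∈ Z`, `z₀ ∈ Y`, `Φ y z₀`; `p ∈ G_o`, `F p y z₀`, wlog `ct o s ⊆ p`. The set of the `q ∈ Po P o` such that some
`t' ∈ Z'`, `t' ⊆ q`, `t' ∈ Po P o`, `z ∈ Z'`, `z ∈ Y` have `F t' y z` is dense below `p`: given `q ⊇ p`, `N_o ∈ q`; `r := q ∩ N_o ∈ Z'`; by `Φ'` (witness
`(q, z₀)`) there is `(t', z) ∈ Z'`, `r ⊆ t'`, `F t' y z`; `t' ⊆ Z' ∩ V_o = N_o`; `cond_B` for `q, N_o, t'` gives a condition in `Po P o`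
(all its members have rank `< o`) containing `q ∪ t'`. So there are such `q ∈ G_o`, so `t' ∈ G_o` and `Φ y z` with `z ∈ Z`.
-/

set_option autoImplicit false
set_option linter.unusedVariables false
set_option linter.unusedSectionVars false
set_option linter.unusedSimpArgs false
set_option linter.unusedTactic false
set_option linter.unreachableTactic false

namespace Pool.Agent.H7.IG

open Pool.Agent.H17.Omega Pool.Agent.H17.Omega.CTM Pool.Agent.H52.GX Pool.Agent.H52.GC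

theorem s1_finZ_ctb {M : Set ZFSet.{0}} (hM : CTM M) {x : ZFSet.{0}} (hx : FinZ x) (hxM : ∀ z ∈ x, z ∈ M) :
    Ctb M x := by
  classical
  obtain ⟨s, hs⟩ := hx
  obtain ⟨f, hf⟩ := exists_zf (Finset.univ.image
    (fun i : Fin s.card => ZFSet.pair (natZ (i : ℕ)) (s.equivFin.symm i).1))
  have hf' : ∀ z, z ∈ f ↔ ∃ i : Fin s.card, ZFSet.pair (natZ (i : ℕ)) (s.equivFin.symm i).1 = z := by
    intro z
    rw [hf, Finset.mem_image]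
    simp
  rw [ctb_iff_cvr hM]
  refine ⟨f, FinZ.mem hM (X := f) ⟨_, hf⟩ ?_, ?_, ?_⟩
  · intro z hz
    obtain ⟨i, rfl⟩ := (hf' z).1 hz
    exact hM.pair_mem (hM.natZ_mem_N _) (hxM _ ((hs _).2 (s.equivFin.symm i).2))
  · intro y _ a a' h1 h2
    obtain ⟨i, hi⟩ := (hf' _).1 h1
    obtain ⟨j, hj⟩ := (hf' _).1 h2
    rw [ZFSet.pair_inj] at hi hj
    have hij : (i : ℕ) = j := natZ_inj.1 (hi.1.trans hj.1.symm)
    have : i = j := Fin.ext hij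
    subst this
    exact hi.2.symm.trans hj.2
  · intro z hz
    refine ⟨natZ (s.equivFin ⟨z, (hs z).1 hz⟩ : ℕ), natZ_mem_omZ _, (hf' _).2 ⟨s.equivFin ⟨z, (hs z).1 hz⟩, ?_⟩⟩
    rw [Equiv.symm_apply_apply]

/-- `y = x ∩ V_a` for the ordinal `a`. -/
def CT1 {M : Set ZFSet.{0}} (a x y : M) : Prop := ∃ o : Ordinal.{0}, a.1 = o.toZFSet ∧ y.1 = ct o x.1

theorem CT1.iff {M : Set ZFSet.{0}} {o : Ordinal.{0}} {h : o.toZFSet ∈ M} {x y : M} :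
    CT1 ⟨o.toZFSet, h⟩ x y ↔ y.1 = ct o x.1 := by
  constructor
  · rintro ⟨o', h1, h2⟩
    rw [toZFSet_inj.1 h1]
    exact h2
  · intro h2
    exact ⟨o, rfl, h2⟩

theorem side_spr1 {M : Set ZFSet.{0}} (hM : CTM M) {κ : Ordinal.{0}} (hκ : κ.toZFSet ∈ M) (hu : UCof M κ)
    {P : ZFSet.{0}} (hP : IsPK M κ P) {o : Ordinal.{0}} (ho : TrO M κ o) {B : ZFSet.{0}}
    (hB : ∀ x, x ∈ B ↔ x ∈ Lv M o) {Go : ZFSet.{0}} (hG : Gen M (Po P o) Go) :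
    SPR M (Xt M Go) (Quo (Pg P o) B Go) := by
  classical
  have hNS := ns_node hM κ
  have hoM : o.toZFSet ∈ M := ho.1
  have hoκ : o < κ := ho.2.1
  have huo : UCof M o := ho.2.2
  have hPoM : Po P o ∈ M := Po_mem hM hP hoM
  have hPM : P ∈ M := hP.1
  have hCd : ∀ s ∈ P, Cd (SmN M κ) (TrO M κ) s := fun s hs => (hP.2 s).1 hs
  have hcut : ∀ s ∈ P, ct o s ∈ Po P o := fun s hs =>
    mem_Po.2 ⟨(hP.2 _).2 (cond_cut hNS (hCd s hs) o), fun Q hQ => (mem_ct.1 hQ).2⟩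
  have hPoP : ∀ s ∈ Po P o, s ∈ P := fun s hs => (mem_Po.1 hs).1
  have hrkP : ∀ s ∈ P, ∀ Q ∈ s, Q.rank < κ := by
    intro s hs Q hQ
    rcases (hCd s hs).node Q hQ with h1 | ⟨o', h1, rfl⟩
    · exact h1.rk
    · rw [Ordinal.rank_toZFSet]
      exact h1.2.1
  have hPel : ∀ s ∈ P, s ∈ M := fun s hs => hM.mem_of_mem hPM hs
  have hfc : ∀ s ∈ P, Ctb M s := fun s hs =>
    s1_finZ_ctb hM (hCd s hs).fin (fun z hz => hM.mem_of_mem (hPel s hs) hz)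
  have memS : ∀ s, s ∈ Quo (Pg P o) B Go ↔ s ∈ P ∧ o.toZFSet ∈ s ∧ ct o s ∈ Go := by
    intro s
    rw [mem_Quo, mem_Pg]
    constructor
    · rintro ⟨⟨h1, h2⟩, h3⟩
      rw [inter_eq_ct hM hP hB h1] at h3
      exact ⟨h1, h2, h3⟩
    · rintro ⟨h1, h2, h3⟩
      rw [inter_eq_ct hM hP hB h1]
      exact ⟨⟨h1, h2⟩, h3⟩
  intro hW Y hYM hSY hYfin Φ hΦ s₀ hs₀
  obtain ⟨hs₀P, hos₀, hcs₀⟩ := (memS s₀).1 hs₀
  have hs₀M : s₀ ∈ M := hPel s₀ hs₀P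
  obtain ⟨F, hFd, hFP, hFmono, hFtr⟩ := exists_frc2 hM hPoM hG hW hΦ
  -- the level
  obtain ⟨η, hηM, hxη, hηlim, -⟩ := exists_closed hM (Φ := fun _ _ => True) (Dfn.const True)
    (fun z => ⟨z, trivial⟩) ⟨{κ.toZFSet, Y}, hM.upair_mem hκ hYM⟩
  have hκη : κ < η := by
    have h1 : κ.toZFSet.rank < ({κ.toZFSet, Y} : ZFSet.{0}).rank :=
      ZFSet.rank_lt_of_mem (ZFSet.mem_pair.2 (Or.inl rfl))
    rw [Ordinal.rank_toZFSet] at h1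
    exact h1.trans hxη
  have hYη : Y.rank < η := by
    have h1 : Y.rank < ({κ.toZFSet, Y} : ZFSet.{0}).rank :=
      ZFSet.rank_lt_of_mem (ZFSet.mem_pair.2 (Or.inr rfl))
    exact h1.trans hxη
  obtain ⟨Y', hY'M, hY'⟩ := exists_Lv hM hηM
  have hPY' : ∀ s ∈ P, s ∈ Y' := by
    intro s hs
    refine (hY' s).2 ⟨hPel s hs, lt_of_le_of_lt ?_ hκη⟩
    rw [ZFSet.rank_le_iff]
    exact fun y hy => hrkP s hs y hy
  have hYY' : ∀ y ∈ Y, y ∈ Y' := fun y hy =>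
    (hY' y).2 ⟨hM.mem_of_mem hYM hy, (ZFSet.rank_lt_of_mem hy).trans hYη⟩
  have hpairY' : ∀ x y, x ∈ Y' → y ∈ Y' → ZFSet.pair x y ∈ Y' := by
    intro x y hx hy
    have h1 := (hY' x).1 hx
    have h2 := (hY' y).1 hy
    have hup : ∀ a b : ZFSet.{0}, a.rank < η → b.rank < η → ({a, b} : ZFSet.{0}).rank < η := by
      intro a b ha hb
      have h3 : max a.rank b.rank < η := max_lt ha hb
      refine lt_of_le_of_lt ?_ (hηlim _ h3)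
      rw [ZFSet.rank_le_iff]
      intro z hz
      rcases ZFSet.mem_pair.1 hz with rfl | rfl
      · exact Order.lt_succ_of_le (le_max_left _ _)
      · exact Order.lt_succ_of_le (le_max_right _ _)
    refine (hY' _).2 ⟨hM.pair_mem h1.1 h2.1, ?_⟩
    rw [pair_eq_upair]
    exact hup _ _ (hup _ _ h1.2 h1.2) (hup _ _ h1.2 h2.2)
  -- the relation
  let Φ' : M → M → Prop := fun u w => ∃ t y t' z : M, u.1 = ZFSet.pair t.1 y.1 ∧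
    w.1 = ZFSet.pair t'.1 z.1 ∧ t'.1 ∈ (⟨Po P o, hPoM⟩ : M).1 ∧ t.1 ⊆ t'.1 ∧ z.1 ∈ (⟨Y, hYM⟩ : M).1 ∧ F t' y z
  have hΦ'd : hM.Dfn (fun v : Fin 2 → M => Φ' (v 0) (v 1)) := by
    show hM.Dfn (fun v : Fin 2 → M => ∃ t y t' z : M, (v 0).1 = ZFSet.pair t.1 y.1 ∧
      (v 1).1 = ZFSet.pair t'.1 z.1 ∧ t'.1 ∈ (⟨Po P o, hPoM⟩ : M).1 ∧ t.1 ⊆ t'.1 ∧
      z.1 ∈ (⟨Y, hYM⟩ : M).1 ∧ F t' y z)
    refine Dfn.ex (Dfn.ex (Dfn.ex (Dfn.ex (Dfn.and ?_ (Dfn.and ?_ (Dfn.and ?_ (Dfn.and ?_ (Dfn.and ?_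
      (Dfn.subst3 (P := fun a b c => F a b c) hFd (DT.var _) (DT.var _) (DT.var _))))))))))
    all_goals
      (repeat' first
        | exact DT.var _ | exact DT.last | exact DT.const _ | assumption
        | refine Dfn.pairMem ?_ ?_ ?_ | refine Dfn.isPair ?_ ?_ ?_ | refine Dfn.mem ?_ ?_
        | refine Dfn.eqv ?_ ?_ | refine Dfn.eq ?_ ?_ | refine Dfn.subset ?_ ?_)
  -- the dense set
  let κ' : M := ⟨κ.toZFSet, hκ⟩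
  let o' : M := ⟨o.toZFSet, hoM⟩
  let P' : M := ⟨P, hPM⟩
  let Y1 : M := ⟨Y', hY'M⟩
  let s1 : M := ⟨s₀, hs₀M⟩
  let D : M → Prop := fun q => ∃ s Z N N' : M, s.1 ∈ P'.1 ∧ ZC M κ Z.1 ∧ PhC Φ' Y1.1 Z.1 ∧ Z.1 ⊆ Y1.1 ∧
    s1.1 ∈ Z.1 ∧ s1.1 ⊆ s.1 ∧ CT1 κ' Z N ∧ N.1 ∈ s.1 ∧ CT1 o' N N' ∧ N'.1 ∈ s.1 ∧ CT1 o' s q
  have hCTd : hM.Dfn (fun v : Fin 3 → M => CT1 (v 0) (v 1) (v 2)) := dfn_ct hM
  have hDd : hM.Dfn (fun v : Fin 1 → M => D (v 0)) := by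
    show hM.Dfn (fun v : Fin 1 → M => ∃ s Z N N' : M, s.1 ∈ P'.1 ∧ ZC M κ Z.1 ∧ PhC Φ' Y1.1 Z.1 ∧
      Z.1 ⊆ Y1.1 ∧ s1.1 ∈ Z.1 ∧ s1.1 ⊆ s.1 ∧ CT1 κ' Z N ∧ N.1 ∈ s.1 ∧ CT1 o' N N' ∧ N'.1 ∈ s.1 ∧
      CT1 o' s (v 0))
    refine Dfn.ex (Dfn.ex (Dfn.ex (Dfn.ex (Dfn.and ?_ (Dfn.and
      (Dfn.subst1 (P := fun z : M => ZC M κ z.1) (dfn_ZC hM κ hκ) (DT.var _)) (Dfn.and
      (Dfn.subst2 (P := fun y z : M => PhC Φ' y.1 z.1) (dfn_PhC hM hΦ'd) (DT.const _) (DT.var _))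
      (Dfn.and ?_ (Dfn.and ?_ (Dfn.and ?_ (Dfn.and
      (Dfn.subst3 (P := fun a b c => CT1 a b c) hCTd (DT.const _) (DT.var _) (DT.var _)) (Dfn.and ?_ (Dfn.and
      (Dfn.subst3 (P := fun a b c => CT1 a b c) hCTd (DT.const _) (DT.var _) (DT.var _)) (Dfn.and ?_
      (Dfn.subst3 (P := fun a b c => CT1 a b c) hCTd (DT.const _) (DT.var _) (DT.var _)))))))))))))))
    all_goals
      (repeat' first
        | exact DT.var _ | exact DT.last | exact DT.const _ | assumption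
        | refine Dfn.mem ?_ ?_ | refine Dfn.subset ?_ ?_)
  obtain ⟨q, hqG, hsq, s, Z', N, N', hsP, hZC, hPh, hZY, hs₀Z, hs₀s, hN, hNs, hN', hN's, hq⟩ :=
    hG.meet hM hPoM hDd hcs₀ (by
      intro r hr hsr
      have hrP := hPoP r hr
      have hpC : Cd (SmN M κ) (TrO M κ) (s₀ ∪ r) :=
        cond_A hNS (hCd s₀ hs₀P) (hCd r hrP) ho hos₀ (mem_Po.1 hr).2 hsr
      have hpP : s₀ ∪ r ∈ P := (hP.2 _).2 hpC
      have hA : ({s₀ ∪ r, s₀} : ZFSet.{0}) ∈ M := hM.upair_mem (hPel _ hpP) hs₀M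
      obtain ⟨Z, hZC, hAZ, hZY, hPh⟩ := exists_Z hM κ hκ hηM hηlim hκη hΦ'd hY' hY'M hA (by
        intro z hz
        rcases ZFSet.mem_pair.1 hz with rfl | rfl
        · exact hPY' _ hpP
        · exact hPY' _ hs₀P) (s1_finZ_ctb hM ⟨{s₀ ∪ r, s₀}, fun z => by
          rw [ZFSet.mem_pair, Finset.mem_insert, Finset.mem_singleton]⟩
          (fun z hz => hM.mem_of_mem hA hz))
      have hpZ : s₀ ∪ r ∈ Z := hAZ (ZFSet.mem_pair.2 (Or.inl rfl))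
      have hsZ : s₀ ∈ Z := hAZ (ZFSet.mem_pair.2 (Or.inr rfl))
      obtain ⟨u, huP, hpu, hNu, -, hcu⟩ := add_node hM κ hP hZC hκ le_rfl hu hpP hpZ (hrkP _ hpP)
      have hs₀u : s₀ ⊆ u := fun z hz => hpu (ZFSet.mem_union.2 (Or.inl hz))
      have hNou : ct o (ct κ Z) ∈ u := hcu o ho (ZFSet.mem_union.2 (Or.inl hos₀))
      refine ⟨⟨ct o u, ct_mem hM (hPel u huP) o⟩, hcut u huP, ?_, ⟨u, hPel u huP⟩, ⟨Z, hZC.mem⟩,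
        ⟨ct κ Z, ct_mem hM hZC.mem κ⟩, ⟨ct o (ct κ Z), ct_mem hM (ct_mem hM hZC.mem κ) o⟩, huP, hZC, hPh,
        hZY, hsZ, hs₀u, CT1.iff.2 rfl, hNu, CT1.iff.2 rfl, hNou, CT1.iff.2 rfl⟩
      intro z hz
      exact mem_ct.2 ⟨hpu (ZFSet.mem_union.2 (Or.inr hz)), (mem_Po.1 hr).2 z hz⟩)
  rw [CT1.iff] at hN hN' hq
  have hNoZ : N'.1 = ct o Z'.1 := by rw [hN', hN, ct_ct hoκ.le]
  obtain ⟨hSmN, -⟩ := node_of_Z hM κ hZC hκ le_rfl hu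
  obtain ⟨hSmNo, hNork⟩ := node_of_Z hM κ hZC hoM hoκ.le huo
  rw [← hN] at hSmN
  rw [← hNoZ] at hSmNo hNork
  have hNsubZ : N.1 ⊆ Z'.1 := by rw [hN]; exact ct_sub
  have hN'subZ : N'.1 ⊆ Z'.1 := by rw [hNoZ]; exact ct_sub
  have hos : o.toZFSet ∈ s.1 := hs₀s hos₀
  have hsS : s.1 ∈ Quo (Pg P o) B Go := (memS _).2 ⟨hsP, hos, by rw [← hq]; exact hqG⟩
  have hfinZ : ∀ t ∈ P, t ∈ Z'.1 → t ⊆ Z'.1 := fun t ht htZ => hZC.sub t htZ (hfc t ht)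
  have hfinN : ∀ t ∈ P, t ∈ Z'.1 → t ⊆ N.1 := by
    intro t ht htZ z hz
    rw [hN]
    exact mem_ct.2 ⟨hfinZ t ht htZ hz, hrkP t ht z hz⟩
  -- the hull
  have hZM : ZFSet.sep (fun z => z ∈ (⟨Y, hYM⟩ : M).1) Z'.1 ∈ M :=
    hM.sep_mem (Dfn.mem (DT.var _) (DT.const _)) Z'.2
  have memZ : ∀ z, z ∈ ZFSet.sep (fun z => z ∈ (⟨Y, hYM⟩ : M).1) Z'.1 ↔ z ∈ Z'.1 ∧ z ∈ Y :=
    fun z => ZFSet.mem_sep
  refine ⟨ZFSet.sep (fun z => z ∈ (⟨Y, hYM⟩ : M).1) Z'.1, hZM, fun z hz => ((memZ z).1 hz).2,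
    hZC.ctb.mono (fun z hz => ((memZ z).1 hz).1), ?_, (memZ _).2 ⟨hs₀Z, hSY hs₀⟩, ?_, s.1, hsS, hs₀s, ?_⟩
  · intro a ha haZ
    exact (memZ _).2 ⟨hZC.fin a ha (fun z hz => ((memZ z).1 (haZ hz)).1),
      hYfin a ha (fun z hz => ((memZ z).1 (haZ hz)).2)⟩
  · -- closure under `Φ`
    intro y z₀ hy hz₀ hΦyz
    obtain ⟨hyZ, hyY⟩ := (memZ _).1 hy
    have hyM : y.1 ∈ M := hM.mem_of_mem hYM hyY
    have hz₀M : z₀.1 ∈ M := hM.mem_of_mem hYM hz₀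
    obtain ⟨p, hpG, hFp⟩ := (hFtr ⟨y.1, hyM⟩ ⟨z₀.1, hz₀M⟩ y z₀ rfl rfl).1 hΦyz
    obtain ⟨p', hp'G, hpp', hqp'⟩ := hG.dir p.1 hpG q.1 hqG
    have hp'M : p' ∈ M := hM.mem_of_mem hPoM (hG.sub p' hp'G)
    let Zc : M := Z'
    let E : M → Prop := fun q' => ∃ t' z : M, t'.1 ∈ Zc.1 ∧ z.1 ∈ Zc.1 ∧ t'.1 ⊆ q'.1 ∧
      t'.1 ∈ (⟨Po P o, hPoM⟩ : M).1 ∧ z.1 ∈ (⟨Y, hYM⟩ : M).1 ∧ F t' ⟨y.1, hyM⟩ z
    have hEd : hM.Dfn (fun v : Fin 1 → M => E (v 0)) := by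
      show hM.Dfn (fun v : Fin 1 → M => ∃ t' z : M, t'.1 ∈ Zc.1 ∧ z.1 ∈ Zc.1 ∧ t'.1 ⊆ (v 0).1 ∧
        t'.1 ∈ (⟨Po P o, hPoM⟩ : M).1 ∧ z.1 ∈ (⟨Y, hYM⟩ : M).1 ∧ F t' ⟨y.1, hyM⟩ z)
      refine Dfn.ex (Dfn.ex (Dfn.and ?_ (Dfn.and ?_ (Dfn.and ?_ (Dfn.and ?_ (Dfn.and ?_
        (Dfn.subst3 (P := fun a b c => F a b c) hFd (DT.var _) (DT.const _) (DT.var _))))))))
      all_goals
        (repeat' first
          | exact DT.var _ | exact DT.last | exact DT.const _ | assumption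
          | refine Dfn.mem ?_ ?_ | refine Dfn.subset ?_ ?_)
    obtain ⟨q'', hq''G, -, t', z, ht'Z, hzZ, ht'q, ht'P, hzY, hFt⟩ := hG.meet hM hPoM hEd hp'G (by
      intro q' hq' hpq'
      have hq'P := hPoP q' hq'
      have hq'C := hCd q' hq'P
      have hNoq : N'.1 ∈ q' := hpq' (hqp' (by
        rw [hq]
        exact mem_ct.2 ⟨hN's, hNork⟩))
      -- the input
      have hrZ : q' ∩ N'.1 ∈ Z'.1 := by
        refine hZC.fin _ (finZ_subset hq'C.fin (fun z hz => (ZFSet.mem_inter.1 hz).1)) ?_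
        intro z hz
        exact hN'subZ (ZFSet.mem_inter.1 hz).2
      have hrM : q' ∩ N'.1 ∈ M := hM.mem_of_mem Z'.2 hrZ
      have hfin2 : ∀ a b : ZFSet.{0}, a ∈ Z'.1 → b ∈ Z'.1 → ({a, b} : ZFSet.{0}) ∈ Z'.1 := by
        intro a b ha hb
        refine hZC.fin _ ⟨{a, b}, fun z => by
          rw [ZFSet.mem_pair, Finset.mem_insert, Finset.mem_singleton]⟩ ?_
        intro z hz
        rcases ZFSet.mem_pair.1 hz with rfl | rfl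
        · exact ha
        · exact hb
      have huZ : ZFSet.pair (q' ∩ N'.1) y.1 ∈ Z'.1 := by
        rw [pair_eq_upair]
        exact hfin2 _ _ (hfin2 _ _ hrZ hrZ) (hfin2 _ _ hrZ hyZ)
      have hq'M : q' ∈ M := hPel q' hq'P
      have hw0 : ZFSet.pair q' z₀.1 ∈ Y' := hpairY' _ _ (hPY' q' hq'P) (hYY' _ hz₀)
      have hFq' : F ⟨q', hq'M⟩ ⟨y.1, hyM⟩ ⟨z₀.1, hz₀M⟩ :=
        hFmono p ⟨q', hq'M⟩ _ _ hFp hq' (fun z hz => hpq' (hpp' hz))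
      obtain ⟨w, hwZ, -, t, y1, t', z, e1, e2, h1, h2, h3, h4⟩ := hPh
        ⟨ZFSet.pair (q' ∩ N'.1) y.1, hM.pair_mem hrM hyM⟩ ⟨ZFSet.pair q' z₀.1, hM.pair_mem hq'M hz₀M⟩
        huZ hw0 ⟨⟨q' ∩ N'.1, hrM⟩, ⟨y.1, hyM⟩, ⟨q', hq'M⟩, ⟨z₀.1, hz₀M⟩, rfl, rfl, hq',
          (fun z hz => (ZFSet.mem_inter.1 hz).1), hz₀, hFq'⟩
      have e1' : q' ∩ N'.1 = t.1 ∧ y.1 = y1.1 := ZFSet.pair_inj.1 e1
      have hy1 : y1 = ⟨y.1, hyM⟩ := Subtype.ext e1'.2.symm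
      rw [hy1] at h4
      rw [← e1'.1] at h2
      -- the components of `w` are in `Z'`
      have hfinsub : ∀ x ∈ Z'.1, FinZ x → x ⊆ Z'.1 := fun x hx hf =>
        hZC.sub x hx (s1_finZ_ctb hM hf (fun z hz => hM.mem_of_mem (hM.mem_of_mem Z'.2 hx) hz))
      have hfp : ∀ a b : ZFSet.{0}, FinZ ({a, b} : ZFSet.{0}) := fun a b => ⟨{a, b}, fun z => by
        rw [ZFSet.mem_pair, Finset.mem_insert, Finset.mem_singleton]⟩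
      have hwe : w.1 = {{t'.1, t'.1}, {t'.1, z.1}} := by rw [e2, pair_eq_upair]
      have hw2 : ({t'.1, z.1} : ZFSet.{0}) ∈ Z'.1 := by
        refine hfinsub w.1 hwZ (by rw [hwe]; exact hfp _ _) ?_
        rw [hwe]
        exact ZFSet.mem_pair.2 (Or.inr rfl)
      have ht'Z : t'.1 ∈ Z'.1 := hfinsub _ hw2 (hfp _ _) (ZFSet.mem_pair.2 (Or.inl rfl))
      have hzZ : z.1 ∈ Z'.1 := hfinsub _ hw2 (hfp _ _) (ZFSet.mem_pair.2 (Or.inr rfl))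
      have ht'P := hPoP t'.1 h1
      have ht'N : t'.1 ⊆ N'.1 := by
        intro x hx
        rw [hNoZ]
        exact mem_ct.2 ⟨hfinZ t'.1 ht'P ht'Z hx, (mem_Po.1 h1).2 x hx⟩
      obtain ⟨u, huC, hu'⟩ := cond_B hNS hq'C (hCd t'.1 ht'P) hNoq hSmNo ht'N
        (fun Q hQ hQN => h2 (ZFSet.mem_inter.2 ⟨hQ, hQN⟩))
      have huP : u ∈ P := (hP.2 _).2 huC
      have hrku : ∀ Q ∈ u, Q.rank < o := by
        intro Q hQ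
        rcases (hu' Q).1 hQ with h5 | h5 | ⟨N₁, h5, -, δ, -, -, -, rfl⟩
        · exact (mem_Po.1 hq').2 Q h5
        · exact (mem_Po.1 h1).2 Q h5
        · exact (ZFSet.rank_mono ct_sub).trans_lt ((mem_Po.1 hq').2 N₁ h5)
      refine ⟨⟨u, hPel u huP⟩, mem_Po.2 ⟨huP, hrku⟩, fun Q hQ => (hu' Q).2 (Or.inl hQ), t', z, ht'Z, hzZ,
        fun Q hQ => (hu' Q).2 (Or.inr (Or.inl hQ)), h1, h3, h4⟩)
    have ht'G : t'.1 ∈ Go := hG.up q''.1 hq''G t'.1 ht'P ht'q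
    have hzW : z.1 ∈ Xt M Go := hG.sub_xt hM hPoM z.2
    exact ⟨⟨z.1, hzW⟩, (memZ _).2 ⟨hzZ, hzY⟩,
      (hFtr ⟨y.1, hyM⟩ z y ⟨z.1, hzW⟩ rfl rfl).2 ⟨t', ht'G, hFt⟩⟩
  · -- strong genericity
    intro s' hs' hss'
    obtain ⟨hs'P, hos', hcs'⟩ := (memS s').1 hs'
    have hNs' : N.1 ∈ s' := hss' hNs
    have hrC : Cd (SmN M κ) (TrO M κ) (s' ∩ N.1) := cond_inter hNS (hCd s' hs'P) hNs' hSmN
    have hrP : s' ∩ N.1 ∈ P := (hP.2 _).2 hrC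
    have hrZ : s' ∩ N.1 ∈ Z'.1 :=
      hZC.fin _ hrC.fin (fun z hz => hNsubZ (ZFSet.mem_inter.1 hz).2)
    have hs₀r : s₀ ⊆ s' ∩ N.1 := fun z hz =>
      ZFSet.mem_inter.2 ⟨hss' (hs₀s hz), hfinN s₀ hs₀P hs₀Z hz⟩
    have hcr : ct o (s' ∩ N.1) ∈ Go := by
      refine hG.up _ hcs' _ (hcut _ hrP) ?_
      intro z hz
      have h1 := mem_ct.1 hz
      exact mem_ct.2 ⟨(ZFSet.mem_inter.1 h1.1).1, h1.2⟩
    have hrS : s' ∩ N.1 ∈ Quo (Pg P o) B Go := (memS _).2 ⟨hrP, hs₀r hos₀, hcr⟩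
    refine ⟨s' ∩ N.1, (memZ _).2 ⟨hrZ, hSY hrS⟩, hrS, hs₀r, fun z hz => (ZFSet.mem_inter.1 hz).1, ?_⟩
    intro t htZ htS hrt
    obtain ⟨htP, hot, hctt⟩ := (memS t).1 htS
    have htN : t ⊆ N.1 := hfinN t htP ((memZ _).1 htZ).1
    have hst : ∀ Q ∈ s', Q ∈ N.1 → Q ∈ t := fun Q hQ hQN => hrt (ZFSet.mem_inter.2 ⟨hQ, hQN⟩)
    obtain ⟨u, huC, hu'⟩ := cond_B hNS (hCd s' hs'P) (hCd t htP) hNs' hSmN htN hst
    have huP : u ∈ P := (hP.2 _).2 huC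
    have hsu : s' ⊆ u := fun Q hQ => (hu' Q).2 (Or.inl hQ)
    have htu : t ⊆ u := fun Q hQ => (hu' Q).2 (Or.inr (Or.inl hQ))
    obtain ⟨q1, hq1G, h1, h2⟩ := hG.dir _ hcs' _ hctt
    have hq1C : Cd (SmN M κ) (TrO M κ) q1 := hCd q1 (hPoP q1 (hG.sub q1 hq1G))
    have hcu : ct o u ∈ Go := by
      refine hG.up q1 hq1G _ (hcut u huP) ?_
      intro Q hQ
      obtain ⟨hQu, hQr⟩ := mem_ct.1 hQ
      rcases (hu' Q).1 hQu with h5 | h5 | ⟨N₁, h5, h6, δ, h7, h8, h9, rfl⟩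
      · exact h1 (mem_ct.2 ⟨h5, hQr⟩)
      · exact h2 (mem_ct.2 ⟨h5, hQr⟩)
      · exact cond_B_below hNS (hCd s' hs'P) (hCd t htP) hNs' hSmN htN hst ho hos' hq1C h1 h2 h5 h6 h7 h8
          h9 hQr
    exact ⟨u, (memS _).2 ⟨huP, hsu hos', hcu⟩, hsu, htu⟩

end Pool.Agent.H7.IG
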