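import Pool.Agent.H95.SC.S6
import Pool.Agent.H95.LB.Blp
import Pool.Agent.H88.IG.MaSp
import Pool.Agent.H19.IG6.Main
import Pool.Agent.H7.IG.It
import Pool.Agent.H7.IG.Gn1b
import Pool.Agent.H7.IG.SideA
import Pool.Agent.H7.IG.SideB
import Pool.Agent.H7.IG.SideS0
import Pool.Agent.H7.IG.SideCa
import Pool.Agent.H95.KT.Cov
import Pool.Agent.H7.IG.LED

/-!
# IG: the final assembly
-/

set_option autoImplicit false
set_option linter.unusedVariables false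
set_option linter.unusedSectionVars false
set_option linter.unusedSimpArgs false
set_option linter.unusedTactic false
set_option linter.unreachableTactic false

namespace Pool.Agent.H7.IG

open Pool.Agent.H17.Omega Pool.Agent.H17.Omega.CTM Pool.Agent.H52.GX Pool.Agent.H52.GC

/-- The first extension: `κ` becomes `ω₂`. -/
theorem side_om2 {M : Set ZFSet.{0}} (hM : CTM M) {κ : Ordinal.{0}} (hκ : Inac M κ) {P G : ZFSet.{0}}
    (hP : IsPK M κ P) (hG : Gen M P G) {δ : Ordinal.{0}} (hδ : IsOm1 M δ) : IsOm2 (Xt M G) δ κ := by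
  have hMN : M ⊆ Xt M G := hG.sub_xt hM hP.1
  have hcov : Cov M (Xt M G) := Pool.Agent.H95.KT.cov hM hM (fun x hx => hx) (fun o ho => ho) hP.1
    ⟨P, hP.1, fun x hx => hx⟩ (side_spr0 hM hκ.mem (Inac.ucof hM hκ) hP) hG
  refine ⟨hcov.om1 hMN hδ, hMN hκ.mem, side_unc hM hκ hP hG hδ, fun α hα => ?_⟩
  have hαM : α.toZFSet ∈ M := hM.toZFSet_mem_of_le hα.le hκ.mem
  obtain ⟨K, hK, hK'⟩ := exists_Lv hM hαM
  refine (side_small hM hκ hP hG hδ hα hK').mono fun x hx => ?_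
  obtain ⟨ξ, hξ, rfl⟩ := Ordinal.mem_toZFSet_iff.1 hx
  refine (hK' _).2 ⟨hM.mem_of_mem hαM hx, ?_⟩
  rwa [Ordinal.rank_toZFSet]

theorem BigC.mono {N : Set ZFSet.{0}} {κ μ : Ordinal.{0}} (h : BigC N μ) (hκ : κ ≤ μ) : BigC N κ := by
  intro f hf hf'
  obtain ⟨r, hr, hrs, h1⟩ := h f hf hf'
  refine ⟨r, hr, hrs, fun x hx => h1 x ?_⟩
  obtain ⟨ξ, hξ, rfl⟩ := Ordinal.mem_toZFSet_iff.1 hx
  exact Ordinal.toZFSet_mem_toZFSet_iff.2 (hξ.trans_le hκ)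

/-- THE MAIN THEOREM: consistency of `IGMP(ω₂, ω₁) + MA_{ω₁} + 2^ω > ω₂`. -/
theorem igmp_ma_large {M : Set ZFSet.{0}} (hM : CTM M) {κ : Ordinal.{0}} (h : Sc M κ) {μ : Ordinal.{0}}
    (hμ : μ.toZFSet ∈ M) : ∃ N : Set ZFSet.{0}, M ⊆ N ∧ CTM N ∧ ∃ δ : Ordinal.{0}, IsOm2 N δ κ ∧ MA1 N δ ∧
      BigC N κ ∧ BigC N μ ∧ IGMP N δ κ := by
  have hκ : Inac M κ := Pool.Agent.H95.SC.sc_inac hM h
  obtain ⟨δ, hδκ, hδ⟩ := hκ.om
  obtain ⟨P, hP⟩ := exists_PK hM κ hκ.mem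
  obtain ⟨G, hG, hGs⟩ := Pool.Agent.H95.SC.sc_gen hM h hP
  have hN0 : CTM (Xt M G) := hG.ctm hM hP.1
  have hMN0 : M ⊆ Xt M G := hG.sub_xt hM hP.1
  have h20 : IsOm2 (Xt M G) δ κ := side_om2 hM hκ hP hG hδ
  have hmax : (max κ μ).toZFSet ∈ Xt M G := by
    rcases le_total κ μ with h1 | h1
    · rw [max_eq_right h1]; exact hMN0 hμ
    · rw [max_eq_left h1]; exact hMN0 hκ.mem
  obtain ⟨Λ, 𝓡, Q, 𝓕, hΛ, h𝓡, hQ, h𝓕, hfin, hit, hsn, hem, hc, hH⟩ := exists_iteration hN0 h20.om1 hmax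
  obtain ⟨H, hHG, -⟩ := exists_gen hN0 hQ hem
  obtain ⟨hMA, hBC⟩ := hH H hHG
  have hN : CTM (Xt (Xt M G) H) := hHG.ctm hN0 hQ
  have h2 : IsOm2 (Xt (Xt M G) H) δ κ := hc.om2 hN0 hQ hHG h20
  have hSP : SP (Xt (Xt M G) H) δ := Pool.Agent.H88.IG.ma_sp hN h2.om1 hMA
  exact ⟨Xt (Xt M G) H, fun x hx => hHG.sub_xt hN0 hQ (hMN0 hx), hN, δ, h2, hMA, hBC.mono (le_max_left _ _),
    hBC.mono (le_max_right _ _), Pool.Agent.H19.IG6.igmp_of_blp hN h2 hSP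
      (Pool.Agent.H95.LB.blp hM h hP hG hGs hδ hΛ h𝓡 hQ h𝓕 hfin hit hsn hc hHG hSP)⟩

end Pool.Agent.H7.IG
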