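import Pool.Agent.H7.IG.Defs

/-!
# IG: bridge between the set-coded posets (families of sets, reverse inclusion) and H52/GX

Proof plan. Given `P ∈ M` let `Q := Shrink {p // p ∈ P}` with `c q := ((equivShrink _).symm q).1` and the order
`p ≤ q :↔ c q ⊆ c p` (antisymmetric: `c` is injective); `PosetIn M Q c`: the order relation is in `M` by
separation (`CTM.exists_sep`/`sep_mem`, tactic `dfn`) from `ZFSet.prod P P` (`CTM.prod_mem`).
`ev c {q | c q ∈ G} τ = vl G τ` for `G ⊆ P` by induction on the rank of `τ` (`mem_ev`, `mem_vl`,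
`rank_fst_lt`). Then `Gen M P G ↔ GenF M c {q | c q ∈ G}` is a translation of the definitions.
-/

set_option autoImplicit false
set_option linter.unusedVariables false
set_option linter.unusedSectionVars false
set_option linter.unusedSimpArgs false
set_option linter.unusedTactic false
set_option linter.unreachableTactic false

namespace Pool.Agent.H7.IG

open Pool.Agent.H17.Omega Pool.Agent.H17.Omega.CTM Pool.Agent.H52.GX Pool.Agent.H52.GC

variable {M : Set ZFSet.{0}} {P G : ZFSet.{0}}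

/-- the order relation is in the model -/
theorem gx0_order (hM : CTM M) (hP : P ∈ M) :
    ZFSet.sep (fun z => ∃ x ∈ P, ∃ y ∈ P, z = ZFSet.pair x y ∧ y ⊆ x) (ZFSet.prod P P) ∈ M := by
  refine hM.sep_mem ?_ (hM.prod_mem hP hP)
  show hM.Dfn (fun v : Fin 1 → M => ∃ x ∈ (⟨P, hP⟩ : M).1, ∃ y ∈ (⟨P, hP⟩ : M).1,
    (v 0).1 = ZFSet.pair x y ∧ y ⊆ x)
  (repeat' first
      | exact DT.var _ | exact DT.last | exact DT.const _ | assumption
      | refine Dfn.pairMem ?_ ?_ ?_ | refine Dfn.isPair ?_ ?_ ?_ | refine Dfn.mem ?_ ?_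
      | refine Dfn.eqv ?_ ?_ | refine Dfn.eq ?_ ?_ | refine Dfn.subset ?_ ?_
      | refine Dfn.isEmpty ?_ | refine Dfn.isTrans ?_ | refine Dfn.isOrd ?_ | refine Dfn.isNat ?_
      | refine Dfn.and ?_ ?_ | refine Dfn.or ?_ ?_ | refine Dfn.iff ?_ ?_ | refine Dfn.not ?_
      | refine Dfn.imp ?_ ?_ | refine Dfn.all ?_ | refine Dfn.ex ?_ | exact Dfn.false'
      | refine Dfn.ballZ ?_ ?_ | refine Dfn.bexZ ?_ ?_)

theorem exists_bridge (hM : CTM M) (hP : P ∈ M) :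
    ∃ (Q : Type) (_ : PartialOrder Q) (c : Q → ZFSet.{0}), PosetIn M Q c ∧ (∀ z, z ∈ P ↔ ∃ q, z = c q) ∧
      (∀ p q : Q, p ≤ q ↔ c q ⊆ c p) ∧ (∀ G, (∀ p ∈ G, p ∈ P) → ∀ τ, ev c {q | c q ∈ G} τ = vl G τ) ∧
      ∀ G, (∀ p ∈ G, p ∈ P) → (Gen M P G ↔ GenF M c {q | c q ∈ G}) := by
  obtain ⟨Q, ⟨e⟩⟩ : ∃ Q : Type, Nonempty ({p : ZFSet.{0} // p ∈ P} ≃ Q) :=
    ⟨Shrink.{0} _, ⟨equivShrink _⟩⟩
  let c : Q → ZFSet.{0} := fun q => (e.symm q).1
  have hc : Function.Injective c := fun a b h => e.symm.injective (Subtype.ext h)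
  have hcP : ∀ z, z ∈ P ↔ ∃ q, z = c q := by
    intro z
    constructor
    · intro hz
      refine ⟨e ⟨z, hz⟩, ?_⟩
      change z = (e.symm _).1
      rw [Equiv.symm_apply_apply]
    · rintro ⟨q, rfl⟩
      exact (e.symm q).2
  let inst : PartialOrder Q :=
    { le := fun p q => c q ⊆ c p
      le_refl := fun p x hx => hx
      le_trans := fun p q r h1 h2 x hx => h1 (h2 hx)
      le_antisymm := fun p q h1 h2 => hc (ZFSet.ext fun z => ⟨fun hz => h2 hz, fun hz => h1 hz⟩) }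
  have hle : ∀ p q : Q, p ≤ q ↔ c q ⊆ c p := fun p q => Iff.rfl
  refine ⟨Q, inst, c, ⟨hc, ⟨P, hP, hcP⟩, ⟨_, gx0_order hM hP, fun z => ?_⟩⟩, hcP, hle, ?_, ?_⟩
  · rw [ZFSet.mem_sep, ZFSet.mem_prod]
    constructor
    · rintro ⟨-, x, hx, y, hy, rfl, hxy⟩
      obtain ⟨p, rfl⟩ := (hcP x).1 hx
      obtain ⟨q, rfl⟩ := (hcP y).1 hy
      exact ⟨p, q, hxy, rfl⟩
    · rintro ⟨p, q, hpq, rfl⟩
      have h1 := (hcP _).2 ⟨p, rfl⟩
      have h2 := (hcP _).2 ⟨q, rfl⟩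
      exact ⟨⟨_, h1, _, h2, rfl⟩, _, h1, _, h2, rfl, hpq⟩
  · intro G hG
    have key : ∀ α : Ordinal.{0}, ∀ τ : ZFSet.{0}, τ.rank = α → ev c {q | c q ∈ G} τ = vl G τ := by
      intro α
      induction α using WellFoundedLT.induction with
      | ind α ih =>
        intro τ hτ
        ext z
        rw [mem_ev, mem_vl]
        constructor
        · rintro ⟨σ, p, h1, h2, h3⟩
          exact ⟨σ, c p, h2, h1, by rw [← h3, ih _ (hτ ▸ rank_fst_lt h1) σ rfl]⟩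
        · rintro ⟨σ, p, hp, h1, h3⟩
          obtain ⟨q, rfl⟩ := (hcP p).1 (hG p hp)
          exact ⟨σ, q, h1, hp, by rw [← h3, ih _ (hτ ▸ rank_fst_lt h1) σ rfl]⟩
    exact fun τ => key _ τ rfl
  · intro G hG
    constructor
    · intro h
      refine ⟨?_, ?_, ?_, ?_⟩
      · obtain ⟨p, hp⟩ := h.ne
        obtain ⟨q, rfl⟩ := (hcP p).1 (hG p hp)
        exact ⟨q, hp⟩
      · intro p hp q hpq
        exact h.up _ hp _ ((hcP _).2 ⟨q, rfl⟩) hpq
      · intro p hp q hq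
        obtain ⟨r, hr, h1, h2⟩ := h.dir _ hp _ hq
        obtain ⟨r, rfl⟩ := (hcP r).1 (hG r hr)
        exact ⟨r, hr, h1, h2⟩
      · intro D hD hd
        obtain ⟨p, hp, hpD⟩ := h.gen D hD (fun p hp => by
          obtain ⟨q, rfl⟩ := (hcP p).1 hp
          obtain ⟨r, hr, hrD⟩ := hd q
          exact ⟨c r, (hcP _).2 ⟨r, rfl⟩, hr, hrD⟩)
        obtain ⟨q, rfl⟩ := (hcP p).1 (hG p hp)
        exact ⟨q, hp, hpD⟩
    · intro h
      refine ⟨hG, ?_, ?_, ?_, ?_⟩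
      · obtain ⟨p, hp⟩ := h.ne
        exact ⟨c p, hp⟩
      · intro p hp q hq hqp
        obtain ⟨p, rfl⟩ := (hcP p).1 (hG p hp)
        obtain ⟨q, rfl⟩ := (hcP q).1 hq
        exact h.up p hp q hqp
      · intro p hp q hq
        obtain ⟨p, rfl⟩ := (hcP p).1 (hG p hp)
        obtain ⟨q, rfl⟩ := (hcP q).1 (hG q hq)
        obtain ⟨r, hr, h1, h2⟩ := h.dir p hp q hq
        exact ⟨c r, hr, h1, h2⟩
      · intro D hD hd
        obtain ⟨p, hp, hpD⟩ := h.gen D hD (fun p => by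
          obtain ⟨r, hr, h1, h2⟩ := hd (c p) ((hcP _).2 ⟨p, rfl⟩)
          obtain ⟨r, rfl⟩ := (hcP r).1 hr
          exact ⟨r, h1, h2⟩)
        exact ⟨c p, hp, hpD⟩

end Pool.Agent.H7.IG
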