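import Pool.Agent.H7.IG.Gx0

/-!
# IG: generic extensions by families of sets ordered by reverse inclusion

With the bridge (`exists_bridge`): `Xt M G = Ext M c G'` for `G' = {q | c q ∈ G}`, so `exists_gen` is
`exists_genF` (H52/GX/Ev; given `G'` put `G := sep (fun z => ∃ q ∈ G', z = c q) P`), `Gen.ctm` is `ctm_Ext`,
`Gen.sub_xt` is `subset_Ext`, `Gen.mem_xt` is `gset_mem`, `Gen.ord` is `toZFSet_mem_Ext`, `Gen.meet` is
`GenF.gen_dfn` (for the definable set `{q : p ⊆ q ∧ D q}`).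
-/

set_option autoImplicit false
set_option linter.unusedVariables false
set_option linter.unusedSectionVars false
set_option linter.unusedSimpArgs false
set_option linter.unusedTactic false
set_option linter.unreachableTactic false

namespace Pool.Agent.H7.IG

open Pool.Agent.H17.Omega Pool.Agent.H17.Omega.CTM Pool.Agent.H52.GX Pool.Agent.H52.GC

variable {M : Set ZFSet.{0}} {P G : ZFSet.{0}}

/-- The bridge at a generic filter. -/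
theorem gx1_bridge (hM : CTM M) (hP : P ∈ M) (hG : Gen M P G) :
    ∃ (Q : Type) (_ : PartialOrder Q) (c : Q → ZFSet.{0}), PosetIn M Q c ∧ (∀ z, z ∈ P ↔ ∃ q, z = c q) ∧
      (∀ p q : Q, p ≤ q ↔ c q ⊆ c p) ∧ Xt M G = Ext M c {q | c q ∈ G} ∧ GenF M c {q | c q ∈ G} := by
  obtain ⟨Q, iQ, c, hQ, hPc, hle, hev, hgen⟩ := exists_bridge hM hP
  refine ⟨Q, iQ, c, hQ, hPc, hle, ?_, (hgen G hG.sub).1 hG⟩
  change vl G '' M = ev c {q | c q ∈ G} '' M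
  exact Set.image_congr fun τ _ => (hev G hG.sub τ).symm

theorem exists_gen (hM : CTM M) (hP : P ∈ M) {p : ZFSet.{0}} (hp : p ∈ P) : ∃ G, Gen M P G ∧ p ∈ G := by
  obtain ⟨Q, iQ, c, hQ, hPc, hle, hev, hgen⟩ := exists_bridge hM hP
  obtain ⟨q, rfl⟩ := (hPc p).1 hp
  obtain ⟨G', hG', hq⟩ := exists_genF hM.countable c q
  have hmem : ∀ z, z ∈ ZFSet.sep (fun z => ∃ q ∈ G', z = c q) P ↔ z ∈ P ∧ ∃ q ∈ G', z = c q :=
    fun z => ZFSet.mem_sep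
  have hset : {q | c q ∈ ZFSet.sep (fun z => ∃ q ∈ G', z = c q) P} = G' := by
    ext r
    rw [Set.mem_setOf_eq, hmem]
    constructor
    · rintro ⟨_, r', hr', h⟩
      rw [hQ.inj h]
      exact hr'
    · exact fun hr => ⟨(hPc _).2 ⟨r, rfl⟩, r, hr, rfl⟩
  refine ⟨ZFSet.sep (fun z => ∃ q ∈ G', z = c q) P, ?_, (hmem _).2 ⟨hp, q, hq, rfl⟩⟩
  refine (hgen _ fun z hz => ((hmem z).1 hz).1).2 ?_
  rw [hset]
  exact hG'

namespace Gen

theorem ctm (hG : Gen M P G) (hM : CTM M) (hP : P ∈ M) : CTM (Xt M G) := by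
  obtain ⟨Q, iQ, c, hQ, hPc, hle, hX, hF⟩ := gx1_bridge hM hP hG
  rw [hX]
  exact ctm_Ext hM hQ hF

theorem sub_xt (hG : Gen M P G) (hM : CTM M) (hP : P ∈ M) : M ⊆ Xt M G := by
  obtain ⟨Q, iQ, c, hQ, hPc, hle, hX, hF⟩ := gx1_bridge hM hP hG
  rw [hX]
  exact subset_Ext hM hQ hF.ne

theorem mem_xt (hG : Gen M P G) (hM : CTM M) (hP : P ∈ M) : G ∈ Xt M G := by
  obtain ⟨Q, iQ, c, hQ, hPc, hle, hX, hF⟩ := gx1_bridge hM hP hG
  rw [hX]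
  obtain ⟨g, hg, hg'⟩ := gset_mem hM hQ hF.ne
  have h1 : g = G := by
    ext z
    rw [hg']
    constructor
    · rintro ⟨p, hp, rfl⟩
      exact hp
    · intro hz
      obtain ⟨q, rfl⟩ := (hPc z).1 (hG.sub z hz)
      exact ⟨q, hz, rfl⟩
  rw [← h1]
  rw [h1] at hg ⊢
  exact hg

/-- Same ordinals. -/
theorem ord (hG : Gen M P G) (hM : CTM M) (hP : P ∈ M) {o : Ordinal.{0}} : o.toZFSet ∈ Xt M G ↔ o.toZFSet ∈ M := by
  obtain ⟨Q, iQ, c, hQ, hPc, hle, hX, hF⟩ := gx1_bridge hM hP hG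
  rw [hX]
  exact toZFSet_mem_Ext hM hQ hF.ne

/-- Genericity for sets that are definable over `M` and dense below a condition of `G`. -/
theorem meet (hG : Gen M P G) (hM : CTM M) (hP : P ∈ M) {D : M → Prop}
    (hD : hM.Dfn (fun v : Fin 1 → M => D (v 0))) {p : ZFSet.{0}} (hp : p ∈ G)
    (h : ∀ r ∈ P, p ⊆ r → ∃ q : M, q.1 ∈ P ∧ r ⊆ q.1 ∧ D q) : ∃ q : M, q.1 ∈ G ∧ p ⊆ q.1 ∧ D q := by
  obtain ⟨Q, iQ, c, hQ, hPc, hle, hX, hF⟩ := gx1_bridge hM hP hG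
  have hpP := hG.sub p hp
  have hpM : p ∈ M := hM.mem_of_mem hP hpP
  obtain ⟨p0, hp0⟩ := (hPc p).1 hpP
  have hdf : hM.Dfn (fun v : Fin 1 → M => (⟨p, hpM⟩ : M).1 ⊆ (v 0).1 ∧ D (v 0)) :=
    Dfn.and (Dfn.subset (DT.const _) (DT.var _)) hD
  obtain ⟨q, hq, hqD⟩ := hF.gen_dfn hM hQ (D := fun z => (⟨p, hpM⟩ : M).1 ⊆ z.1 ∧ D z) hdf (p := p0)
    (by rw [Set.mem_setOf_eq, ← hp0]; exact hp) (by
      intro r hr
      have hr' : p ⊆ c r := by rw [hp0]; exact (hle _ _).1 hr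
      obtain ⟨q, hqP, hrq, hDq⟩ := h (c r) ((hPc _).2 ⟨r, rfl⟩) hr'
      obtain ⟨q0, hq0⟩ := (hPc _).1 hqP
      refine ⟨q0, (hle _ _).2 (by rw [← hq0]; exact hrq), fun z hz => ?_⟩
      have hzq : z = q := Subtype.ext (hz.trans hq0.symm)
      rw [hzq]
      exact ⟨fun x hx => hrq (hr' hx), hDq⟩)
  have hqG : c q ∈ G := hq
  have hqM : c q ∈ M := hM.mem_of_mem hP (hG.sub _ hqG)
  obtain ⟨h1, h2⟩ := hqD ⟨c q, hqM⟩ rfl
  exact ⟨⟨c q, hqM⟩, hqG, h1, h2⟩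

end Gen

end Pool.Agent.H7.IG
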