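import Pool.Agent.H7.IG.Gx
import Pool.Agent.H7.IG.Stat
import Pool.Agent.H7.IG.Tk3
import Pool.Agent.H7.IG.Tk6
import Pool.Agent.H7.IG.Tk7
import Pool.Agent.H7.IG.Tk8

/-!
# IG, Part 2: finite support iteration for Martin's axiom (definitions)

Conditions are finite subsets `p` of `Λ × δ` (`δ = ω₁`), ordered by reverse inclusion; `p(β) = {x : (β, x) ∈ p}`;
`p|A = rs p A` (Tk2); `Dm p A`: the domain of `p` is contained in `A`. `Q_β = {q ∈ Q : Dm q β}`.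
The names: `𝓡` is a set of quadruples `((β, z), (y, p'))`; the name `R_β = {((z, y), p')}` denotes (over the
extension by `Q_β`) the set of the pairs `(z, y)` such that `z` is NOT below `y`. Stage `β` adds a set
`g_β = ⋃ {p(β) : p ∈ H} ⊆ δ` all of whose finite subsets `F` have a lower bound: some `z < δ` with `(z, y) ∉ R_β[H]` for
all `y ∈ F`.
`IsIt δ Λ 𝓡 Q 𝓕` (all quantifiers are bounded): `𝓕` is the set of the finite subsets of `Λ × δ`; a `p ∈ 𝓕` is a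
condition iff for all `β` in its domain `p|β ∈ Q` and `p|β` forces that `p(β)` has a lower bound: for all `q ∈ Q_β`,
`p|β ⊆ q`, there are `q' ∈ Q_β`, `q ⊆ q'`, and `z < δ` such that for `y ∈ p(β)` every `p'` with `((β, z), (y, p')) ∈ 𝓡` is
incompatible with `q'` in `Q_β`.
-/

set_option autoImplicit false
set_option linter.unusedVariables false
set_option linter.unusedSectionVars false
set_option linter.unusedSimpArgs false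
set_option linter.unusedTactic false
set_option linter.unreachableTactic false

namespace Pool.Agent.H7.IG

open Pool.Agent.H17.Omega Pool.Agent.H17.Omega.CTM Pool.Agent.H52.GX Pool.Agent.H52.GC

/-- The domain of `p` is contained in `A` (for `p ⊆ Λ × δ`). -/
def Dm (δ p A : ZFSet.{0}) : Prop := ∀ z ∈ p, ∃ β ∈ A, ∃ x ∈ δ, z = ZFSet.pair β x

/-- `((β, z), (y, p)) ∈ 𝓡`. -/
def R4 (𝓡 β z y p : ZFSet.{0}) : Prop := ZFSet.pair (ZFSet.pair β z) (ZFSet.pair y p) ∈ 𝓡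

/-- `q'` forces that `z` is a lower bound of `p(β)`. -/
def LbF (δ 𝓡 Q β p q' z : ZFSet.{0}) : Prop :=
  ∀ y ∈ δ, ZFSet.pair β y ∈ p → ∀ p' ∈ Q, R4 𝓡 β z y p' → ∀ r ∈ Q, Dm δ r β → q' ⊆ r → ¬ p' ⊆ r

/-- The finite support iteration given by the names `𝓡`. -/
structure IsIt (δ Λ 𝓡 Q 𝓕 : ZFSet.{0}) : Prop where
  q_sub : ∀ p ∈ Q, p ∈ 𝓕
  q_iff : ∀ p ∈ 𝓕, p ∈ Q ↔ ∀ β ∈ Λ, (∃ x ∈ δ, ZFSet.pair β x ∈ p) →
    ∃ p₀ ∈ Q, p₀ ⊆ p ∧ Dm δ p₀ β ∧ (∀ z ∈ p, (∃ γ ∈ β, ∃ x ∈ δ, z = ZFSet.pair γ x) → z ∈ p₀) ∧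
      ∀ q ∈ Q, Dm δ q β → p₀ ⊆ q → ∃ q' ∈ Q, Dm δ q' β ∧ q ⊆ q' ∧ ∃ z ∈ δ, LbF δ 𝓡 Q β p q' z
  nm : ∀ w ∈ 𝓡, ∃ β ∈ Λ, ∃ z ∈ δ, ∃ y ∈ δ, ∃ p ∈ Q, Dm δ p β ∧
    w = ZFSet.pair (ZFSet.pair β z) (ZFSet.pair y p)

/-- `𝓕` is the set of all finite subsets of `Λ × δ`. -/
def FinSub (δ Λ 𝓕 : ZFSet.{0}) : Prop := ∀ p, p ∈ 𝓕 ↔ FinZ p ∧ Dm δ p Λ

/-- The names have size at most `ω₁`. -/
def SmallNm (N : Set ZFSet.{0}) (δ Λ 𝓡 : ZFSet.{0}) : Prop :=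
  ∀ β ∈ Λ, ∃ Y ∈ N, Cvr N δ Y ∧ ∀ z y p, R4 𝓡 β z y p → ZFSet.pair (ZFSet.pair β z) (ZFSet.pair y p) ∈ Y

end Pool.Agent.H7.IG
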