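import Pool.Agent.H7.IG.LEiD
import Pool.Agent.H7.IG.LevC
import Pool.Agent.H7.IG.Tk7

/-!
# IG, Part 4: lifted embeddings and the iteration: basic facts

`LE.ord`: `IsOrd` is uniformly definable (`UD.isOrd`, `Elem.ud`). `LE.fin_image`: finite sets of `W` are countable in `W` (`tk7_fin_ctb`), `Elem.image_ctb`. `LE.fin_iff`: → `e p` is the image of `p`; ← `e` is injective on `p`
and maps `p` into `e p`.
`ItE.fin`: `p ∈ 𝓕 ↔ e p ∈ 𝓕' ↔ FinZ (e p) ∧ Dm δ (e p) Λ' ↔ FinZ p ∧ Dm δ p Λ` for `p ∈ A` (`ud_Dm`, `e δ = δ` by `LE.fix'`); a finite subset of `Λ × δ` is in `A` (`Lev.fin`, `Lev.opair`). `ItE.it`: `ud_IsIt`.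
`ItE.img`: `e (β, x) = (e β, e x)`, `e x = x` for `x ∈ δ`. `ItE.ccc`: let `S ∈ W` be an antichain of `Q`; `S ∈ A` (`Lev.sbs`), `e S ⊆ Q'` is an antichain (being an antichain of `Q` is a bounded formula in `(S, Q)`,
`Elem.ud`), so `Ctb N (e S)`, so `Ctb W S` (`Elem.ctb`).
-/

set_option autoImplicit false
set_option linter.unusedVariables false
set_option linter.unusedSectionVars false
set_option linter.unusedSimpArgs false
set_option linter.unusedTactic false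
set_option linter.unreachableTactic false

namespace Pool.Agent.H7.IG

open Pool.Agent.H17.Omega Pool.Agent.H17.Omega.CTM Pool.Agent.H52.GX Pool.Agent.H52.GC

variable {W N A B : Set ZFSet.{0}} {δ γ κ : Ordinal.{0}} {e : ZFSet.{0} → ZFSet.{0}}

theorem LE.ord (h : LE W N A B δ γ κ e) {l : ZFSet.{0}} (hl : l ∈ A) {Λ' : Ordinal.{0}} (he : e l = Λ'.toZFSet) :
    ∃ Λ : Ordinal.{0}, l = Λ.toZFSet := by
  have hud : UD TraC (fun N (v : Fin 1 → N) => (v 0).1.IsOrdinal) := by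
    (repeat' first
      | exact UT.var _ | exact UT.last | assumption
      | refine UD.pairMem ?_ ?_ ?_ | refine UD.isPair ?_ ?_ ?_ | refine UD.mem ?_ ?_
      | refine UD.eqv ?_ ?_ | refine UD.eq ?_ ?_ | refine UD.subset ?_ ?_
      | refine UD.isEmpty ?_ | refine UD.isTrans ?_ | refine UD.isOrd ?_ | refine UD.isNat ?_
      | refine UD.isUpair ?_ ?_ ?_ | refine UD.isInsert ?_ ?_ ?_ | refine UD.isUnion ?_ ?_ ?_
      | refine UD.and ?_ ?_ | refine UD.or ?_ ?_ | refine UD.iff ?_ ?_ | refine UD.not ?_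
      | refine UD.imp ?_ ?_ | refine UD.all ?_ | refine UD.ex ?_ | exact UD.false' | exact UD.true'
      | refine UD.ball ?_ ?_ | refine UD.bex ?_ ?_)
  have h1 := (Elem.ud h.el h.traA h.traB hud ⟨_, hl⟩ ![⟨l, hl⟩]).2 (by
    show (e l).IsOrdinal
    rw [he]
    exact ZFSet.isOrdinal_toZFSet _)
  have h2 : l.IsOrdinal := h1
  exact ⟨l.rank, h2.toZFSet_rank_eq.symm⟩

theorem LE.fin_image (h : LE W N A B δ γ κ e) {p : ZFSet.{0}} (hp : p ∈ A) (hf : FinZ p) :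
    ∀ z, z ∈ e p ↔ ∃ x ∈ p, z = e x :=
  Elem.image_ctb h.hW h.hN h.lev h.lev' h.el hp (tk7_fin_ctb h.hW (h.lev.sub hp) hf)

theorem LE.fin_iff (h : LE W N A B δ γ κ e) {p : ZFSet.{0}} (hp : p ∈ A) : FinZ p ↔ FinZ (e p) := by
  classical
  constructor
  · intro hf
    have h1 := h.fin_image hp hf
    obtain ⟨s, hs⟩ := hf
    refine ⟨s.image e, fun z => ?_⟩
    rw [h1, Finset.mem_image]
    constructor
    · rintro ⟨x, hx, rfl⟩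
      exact ⟨x, (hs x).1 hx, rfl⟩
    · rintro ⟨x, hx, rfl⟩
      exact ⟨x, (hs x).2 hx, rfl⟩
  · rintro ⟨s, hs⟩
    have h1 : {x : ZFSet.{0} | x ∈ p}.Finite := by
      refine Set.Finite.of_injOn (f := e) (t := (s : Set ZFSet.{0})) ?_ ?_ s.finite_toSet
      · intro x hx
        have hx : x ∈ p := hx
        exact (hs _).1 ((Elem.mem h.el h.traA h.traB (h.traA _ hp _ hx) hp).1 hx)
      · intro x hx y hy hxy
        have hx : x ∈ p := hx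
        have hy : y ∈ p := hy
        exact Elem.inj h.el h.traA h.traB (h.traA _ hp _ hx) (h.traA _ hp _ hy) hxy
    refine ⟨h1.toFinset, fun z => ?_⟩
    rw [Set.Finite.mem_toFinset]
    rfl

variable {Λ Λ' : Ordinal.{0}} {𝓡 Q 𝓕 𝓡' Q' 𝓕' : ZFSet.{0}}

theorem ItE.fin (h : ItE W N A B δ γ κ Λ Λ' 𝓡 Q 𝓕 𝓡' Q' 𝓕' e) : FinSub δ.toZFSet Λ.toZFSet 𝓕 := by
  have hle := h.le
  have hdm : ∀ {p : ZFSet.{0}}, p ∈ A → (Dm δ.toZFSet p Λ.toZFSet ↔ Dm δ.toZFSet (e p) Λ'.toZFSet) := by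
    intro p hp
    have h1 := Elem.ud hle.el hle.traA hle.traB ud_Dm ⟨_, hp⟩ ![⟨_, hle.memδ⟩, ⟨p, hp⟩, ⟨_, h.mΛ⟩]
    have h2 : Dm δ.toZFSet p Λ.toZFSet ↔ Dm (e δ.toZFSet) (e p) (e Λ.toZFSet) := h1
    rwa [hle.fix' δ le_rfl, h.eΛ] at h2
  intro p
  constructor
  · intro hp
    have hpA : p ∈ A := hle.traA _ h.mF _ hp
    have h1 := (Elem.mem hle.el hle.traA hle.traB hpA h.mF).1 hp
    rw [h.eF] at h1
    obtain ⟨h2, h3⟩ := (h.fin' _).1 h1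
    exact ⟨(hle.fin_iff hpA).2 h2, (hdm hpA).2 h3⟩
  · rintro ⟨h1, h2⟩
    have hpA : p ∈ A := by
      refine Lev.fin hle.hW hle.lev h1 fun x hx => ?_
      obtain ⟨β, hβ, y, hy, rfl⟩ := h2 x hx
      exact Lev.opair hle.hW hle.lev (hle.traA _ h.mΛ _ hβ) (hle.traA _ hle.memδ _ hy)
    refine (Elem.mem hle.el hle.traA hle.traB hpA h.mF).2 ?_
    rw [h.eF]
    exact (h.fin' _).2 ⟨(hle.fin_iff hpA).1 h1, (hdm hpA).1 h2⟩

theorem ItE.it (h : ItE W N A B δ γ κ Λ Λ' 𝓡 Q 𝓕 𝓡' Q' 𝓕' e) : IsIt δ.toZFSet Λ.toZFSet 𝓡 Q 𝓕 := by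
  have hle := h.le
  have h1 := Elem.ud hle.el hle.traA hle.traB ud_IsIt ⟨_, hle.memδ⟩
    ![⟨_, hle.memδ⟩, ⟨_, h.mΛ⟩, ⟨_, h.mR⟩, ⟨_, h.mQ⟩, ⟨_, h.mF⟩]
  have h2 : IsIt δ.toZFSet Λ.toZFSet 𝓡 Q 𝓕 ↔ IsIt (e δ.toZFSet) (e Λ.toZFSet) (e 𝓡) (e Q) (e 𝓕) := h1
  rw [h2, hle.fix' δ le_rfl, h.eΛ, h.eR, h.eQ, h.eF]
  exact h.it'

theorem ItE.ccc (h : ItE W N A B δ γ κ Λ Λ' 𝓡 Q 𝓕 𝓡' Q' 𝓕' e) : Ccc W Q := by
  have hle := h.le
  intro S hS hSQ hanti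
  have hSA : S ∈ A := hle.lev.sbs _ h.mQ _ hS hSQ
  have hud : UD TraC (fun N (v : Fin 2 → N) => ∀ a ∈ (v 0).1, ∀ b ∈ (v 0).1, ¬ a = b → ∀ q ∈ (v 1).1,
      a ⊆ q → ¬ b ⊆ q) := by
    (repeat' first
      | exact UT.var _ | exact UT.last | assumption
      | refine UD.pairMem ?_ ?_ ?_ | refine UD.isPair ?_ ?_ ?_ | refine UD.mem ?_ ?_
      | refine UD.eqv ?_ ?_ | refine UD.eq ?_ ?_ | refine UD.subset ?_ ?_
      | refine UD.isEmpty ?_ | refine UD.isTrans ?_ | refine UD.isOrd ?_ | refine UD.isNat ?_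
      | refine UD.isUpair ?_ ?_ ?_ | refine UD.isInsert ?_ ?_ ?_ | refine UD.isUnion ?_ ?_ ?_
      | refine UD.and ?_ ?_ | refine UD.or ?_ ?_ | refine UD.iff ?_ ?_ | refine UD.not ?_
      | refine UD.imp ?_ ?_ | refine UD.all ?_ | refine UD.ex ?_ | exact UD.false' | exact UD.true'
      | refine UD.ball ?_ ?_ | refine UD.bex ?_ ?_)
  have h1 := (Elem.ud hle.el hle.traA hle.traB hud ⟨_, hSA⟩ ![⟨S, hSA⟩, ⟨Q, h.mQ⟩]).1 hanti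
  have h2 : ∀ a ∈ e S, ∀ b ∈ e S, ¬ a = b → ∀ q ∈ e Q, a ⊆ q → ¬ b ⊆ q := h1
  rw [h.eQ] at h2
  have h3 : e S ⊆ Q' := by
    rw [← h.eQ]
    exact (Elem.sbs hle.el hle.traA hle.traB hSA h.mQ).1 hSQ
  have h4 : Ctb N (e S) := h.ccc' _ (hle.lev'.sub (hle.el.map _ hSA)) h3 h2
  exact (Elem.ctb hle.hW hle.hN hle.lev hle.lev' hle.el hSA).2 h4

/-- The image of a finite set of pairs. -/
theorem ItE.img (h : ItE W N A B δ γ κ Λ Λ' 𝓡 Q 𝓕 𝓡' Q' 𝓕' e) {p : ZFSet.{0}} (hp : p ∈ 𝓕) :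
    ∀ z, z ∈ e p ↔ ∃ β ∈ Λ.toZFSet, ∃ x ∈ δ.toZFSet, ZFSet.pair β x ∈ p ∧ z = ZFSet.pair (e β) x := by
  have hle := h.le
  have hpA : p ∈ A := hle.traA _ h.mF _ hp
  obtain ⟨h1, h2⟩ := (h.fin p).1 hp
  have hpair : ∀ β ∈ Λ.toZFSet, ∀ x ∈ δ.toZFSet, e (ZFSet.pair β x) = ZFSet.pair (e β) x := by
    intro β hβ x hx
    have hβA := hle.traA _ h.mΛ _ hβ
    have hxA := hle.traA _ hle.memδ _ hx
    rw [Elem.opair hle.el hle.traA hle.traB hβA hxA (Lev.opair hle.hW hle.lev hβA hxA)]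
    obtain ⟨ξ, hξ, rfl⟩ := Ordinal.mem_toZFSet_iff.1 hx
    rw [hle.fix' ξ hξ.le]
  intro z
  rw [hle.fin_image hpA h1]
  constructor
  · rintro ⟨w, hw, rfl⟩
    obtain ⟨β, hβ, x, hx, rfl⟩ := h2 w hw
    exact ⟨β, hβ, x, hx, hw, hpair β hβ x hx⟩
  · rintro ⟨β, hβ, x, hx, hw, rfl⟩
    exact ⟨_, hw, (hpair β hβ x hx).symm⟩

end Pool.Agent.H7.IG
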