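import Pool.Agent.H7.IG.LED
import Pool.Agent.H7.IG.ItU

/-!
# IG, Part 4: lifted embeddings and the iteration (definitions)

`ItE`: unprimed objects are in `A`, the primed ones are their images: `Q'` is the finite support iteration in `N`.
-/

set_option autoImplicit false
set_option linter.unusedVariables false
set_option linter.unusedSectionVars false
set_option linter.unusedSimpArgs false
set_option linter.unusedTactic false
set_option linter.unreachableTactic false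

namespace Pool.Agent.H7.IG

open Pool.Agent.H17.Omega Pool.Agent.H17.Omega.CTM Pool.Agent.H52.GX Pool.Agent.H52.GC

structure ItE (W N A B : Set ZFSet.{0}) (δ γ κ Λ Λ' : Ordinal.{0}) (𝓡 Q 𝓕 𝓡' Q' 𝓕' : ZFSet.{0})
    (e : ZFSet.{0} → ZFSet.{0}) : Prop where
  le : LE W N A B δ γ κ e
  mΛ : Λ.toZFSet ∈ A
  mR : 𝓡 ∈ A
  mQ : Q ∈ A
  mF : 𝓕 ∈ A
  eΛ : e Λ.toZFSet = Λ'.toZFSet
  eR : e 𝓡 = 𝓡'
  eQ : e Q = Q'
  eF : e 𝓕 = 𝓕'
  fin' : FinSub δ.toZFSet Λ'.toZFSet 𝓕'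
  it' : IsIt δ.toZFSet Λ'.toZFSet 𝓡' Q' 𝓕'
  sn' : SmallNm N δ.toZFSet Λ'.toZFSet 𝓡'
  ccc' : Ccc N Q'

/-- `D` is the image of `Λ`. -/
def IsD (Λ : Ordinal.{0}) (e : ZFSet.{0} → ZFSet.{0}) (D : ZFSet.{0}) : Prop :=
  ∀ z, z ∈ D ↔ ∃ β ∈ Λ.toZFSet, z = e β

end Pool.Agent.H7.IG
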