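import Pool.Agent.H7.IG.LEi

/-!
# IG, Part 4: lifted embeddings and the iteration: the names in the range

`exists_D`: from the graph of `e` (`LE.gr`) by separation/replacement. `ItE.nm`: let `β' ∈ D`, `β' = e β`. `𝓡_β := {w ∈ 𝓡 : w = ((β, z), (y, p))` for some `z, y, p}` is in `A` (`Lev.sbs`; it is in `W` by separation), `𝓡'_β' ∈ B` similarly, and
`e 𝓡_β = 𝓡'_β'` (`Elem.ud` for the predicate `r = {w ∈ R : w = ((β, ..), (..))}`). `𝓡'_β'` is covered by `δ` in `N` (`sn'`, `Cvr.mono`), so in `B` (`Lev.cvr`), so `𝓡_β` is covered by `δ` in `A` (the predicate `Cvr A δ r` of the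
structure `A` is `UD TraC` by its definition; `e δ = δ`), so in `W`. By `Elem.image`, `𝓡'_β' = {e w : w ∈ 𝓡_β}`. So if `R4 𝓡' β' z y p'` then `((β', z), (y, p')) = e w`, `w ∈ 𝓡`; by `nm` of `ItE.it`, `w = ((β₁, z₁), (y₁, p))` with
`p ∈ Q ⊆ 𝓕`; so `p' = e p` (`Elem.opair`) and by `ItE.img` all elements of `p'` are pairs `(e β₂, x)`, `β₂ ∈ Λ`, `x ∈ δ`: `Dm δ p' D`.
-/

set_option autoImplicit false
set_option linter.unusedVariables false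
set_option linter.unusedSectionVars false
set_option linter.unusedSimpArgs false
set_option linter.unusedTactic false
set_option linter.unreachableTactic false

namespace Pool.Agent.H7.IG

open Pool.Agent.H17.Omega Pool.Agent.H17.Omega.CTM Pool.Agent.H52.GX Pool.Agent.H52.GC

variable {W N A B : Set ZFSet.{0}} {δ γ κ : Ordinal.{0}} {e : ZFSet.{0} → ZFSet.{0}}
  {Λ Λ' : Ordinal.{0}} {𝓡 Q 𝓕 𝓡' Q' 𝓕' : ZFSet.{0}}

theorem ItE.exists_D (h : ItE W N A B δ γ κ Λ Λ' 𝓡 Q 𝓕 𝓡' Q' 𝓕' e) : ∃ D ∈ N, D ⊆ Λ'.toZFSet ∧ IsD Λ e D := by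
  have hN := h.le.hN
  obtain ⟨g, hg, hg'⟩ := h.le.gr
  have hΛN : Λ.toZFSet ∈ N := h.le.sub (h.le.lev.sub h.mΛ)
  have hΛ'B : Λ'.toZFSet ∈ B := h.eΛ ▸ h.le.el.map _ h.mΛ
  have hΛ'N : Λ'.toZFSet ∈ N := h.le.lev'.sub hΛ'B
  obtain ⟨D, hD, hD'⟩ := hN.exists_sep (P := fun z => ∃ β : N, β.1 ∈ (⟨_, hΛN⟩ : N).1 ∧
    ZFSet.pair β.1 z.1 ∈ (⟨g, hg⟩ : N).1) (by
    (repeat' first
      | exact DT.var _ | exact DT.last | exact DT.const _ | assumption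
      | refine Dfn.pairMem ?_ ?_ ?_ | refine Dfn.isPair ?_ ?_ ?_ | refine Dfn.mem ?_ ?_
      | refine Dfn.eqv ?_ ?_ | refine Dfn.eq ?_ ?_ | refine Dfn.subset ?_ ?_
      | refine Dfn.isEmpty ?_ | refine Dfn.isTrans ?_ | refine Dfn.isOrd ?_ | refine Dfn.isNat ?_
      | refine Dfn.isUpair ?_ ?_ ?_ | refine Dfn.isInsert ?_ ?_ ?_
      | refine Dfn.and ?_ ?_ | refine Dfn.or ?_ ?_ | refine Dfn.iff ?_ ?_ | refine Dfn.not ?_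
      | refine Dfn.imp ?_ ?_ | refine Dfn.all ?_ | refine Dfn.ex ?_ | exact Dfn.false'
      | refine Dfn.ballZ ?_ ?_ | refine Dfn.bexZ ?_ ?_ | exact Dfn.const _)) hΛ'N
  refine ⟨D, hD, fun z hz => ((hD' z).1 hz).1, fun z => ?_⟩
  rw [hD']
  constructor
  · rintro ⟨_, _, β, h1, h2⟩
    obtain ⟨y, hy, h3⟩ := (hg' _).1 h2
    rw [ZFSet.pair_inj] at h3
    exact ⟨β.1, h1, by rw [h3.1]; exact h3.2⟩
  · rintro ⟨β, h1, rfl⟩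
    have hβA : β ∈ A := h.le.lev.tra _ h.mΛ _ h1
    have h2 : e β ∈ Λ'.toZFSet := by
      rw [← h.eΛ]
      exact (Elem.mem h.le.el h.le.lev.tra h.le.lev'.tra hβA h.mΛ).1 h1
    exact ⟨h2, hN.mem_of_mem hΛ'N h2, ⟨β, hN.mem_of_mem hΛN h1⟩, h1, (hg' _).2 ⟨β, hβA, rfl⟩⟩

/-- The definition of the part of the names for one coordinate. -/
theorem leJ_ud : UD TraC (fun N (v : Fin 3 → N) => ∀ w : N, w.1 ∈ (v 0).1 ↔ w.1 ∈ (v 1).1 ∧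
    ∃ z y p s t : N, s.1 = ZFSet.pair (v 2).1 z.1 ∧ t.1 = ZFSet.pair y.1 p.1 ∧ w.1 = ZFSet.pair s.1 t.1) := by
  (repeat' first
      | exact UT.var _ | exact UT.last | assumption
      | refine UD.pairMem ?_ ?_ ?_ | refine UD.isPair ?_ ?_ ?_ | refine UD.mem ?_ ?_
      | refine UD.eqv ?_ ?_ | refine UD.eq ?_ ?_ | refine UD.subset ?_ ?_
      | refine UD.isEmpty ?_ | refine UD.isTrans ?_ | refine UD.isOrd ?_ | refine UD.isNat ?_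
      | refine UD.isUpair ?_ ?_ ?_ | refine UD.isInsert ?_ ?_ ?_ | refine UD.isUnion ?_ ?_ ?_
      | refine UD.and ?_ ?_ | refine UD.or ?_ ?_ | refine UD.iff ?_ ?_ | refine UD.not ?_
      | refine UD.imp ?_ ?_ | refine UD.all ?_ | refine UD.ex ?_ | exact UD.false' | exact UD.true'
      | refine UD.ball ?_ ?_ | refine UD.bex ?_ ?_)

theorem ItE.nm (h : ItE W N A B δ γ κ Λ Λ' 𝓡 Q 𝓕 𝓡' Q' 𝓕' e) {D : ZFSet.{0}} (hD : IsD Λ e D) :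
    ∀ β ∈ D, ∀ z y p, R4 𝓡' β z y p → Dm δ.toZFSet p D := by
  intro β' hβ' z y p hR
  have hN := h.le.hN
  have hW := h.le.hW
  have hA := h.le.lev.tra
  have hB := h.le.lev'.tra
  obtain ⟨β, hβ, rfl⟩ := (hD _).1 hβ'
  have hβA : β ∈ A := hA _ h.mΛ _ hβ
  have hne : A.Nonempty := ⟨_, hβA⟩
  have hβW : β ∈ W := h.le.lev.sub hβA
  have hRW : 𝓡 ∈ W := h.le.lev.sub h.mR
  have hR'B : 𝓡' ∈ B := h.eR ▸ h.le.el.map _ h.mR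
  obtain ⟨r, hr, hr'⟩ := hW.exists_sep (P := fun w => ∃ z y p s t : W, s.1 = ZFSet.pair (⟨β, hβW⟩ : W).1 z.1 ∧
    t.1 = ZFSet.pair y.1 p.1 ∧ w.1 = ZFSet.pair s.1 t.1) (by
    (repeat' first
      | exact DT.var _ | exact DT.last | exact DT.const _ | assumption
      | refine Dfn.pairMem ?_ ?_ ?_ | refine Dfn.isPair ?_ ?_ ?_ | refine Dfn.mem ?_ ?_
      | refine Dfn.eqv ?_ ?_ | refine Dfn.eq ?_ ?_ | refine Dfn.subset ?_ ?_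
      | refine Dfn.isEmpty ?_ | refine Dfn.isTrans ?_ | refine Dfn.isOrd ?_ | refine Dfn.isNat ?_
      | refine Dfn.isUpair ?_ ?_ ?_ | refine Dfn.isInsert ?_ ?_ ?_
      | refine Dfn.and ?_ ?_ | refine Dfn.or ?_ ?_ | refine Dfn.iff ?_ ?_ | refine Dfn.not ?_
      | refine Dfn.imp ?_ ?_ | refine Dfn.all ?_ | refine Dfn.ex ?_ | exact Dfn.false'
      | refine Dfn.ballZ ?_ ?_ | refine Dfn.bexZ ?_ ?_ | exact Dfn.const _)) hRW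
  have hrA : r ∈ A := h.le.lev.sbs _ h.mR _ hr fun w hw => ((hr' w).1 hw).1
  have erB : e r ∈ B := h.le.el.map _ hrA
  have k1 := (Elem.ud h.le.el hA hB leJ_ud hne ![⟨r, hrA⟩, ⟨𝓡, h.mR⟩, ⟨β, hβA⟩]).1 (by
    intro w
    show w.1 ∈ r ↔ w.1 ∈ 𝓡 ∧ ∃ z y p s t : A, s.1 = ZFSet.pair β z.1 ∧ t.1 = ZFSet.pair y.1 p.1 ∧
      w.1 = ZFSet.pair s.1 t.1
    rw [hr']
    constructor
    · rintro ⟨h1, _, z, y, p, s, t, h2, h3, h4⟩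
      have h4 : w.1 = ZFSet.pair s.1 t.1 := h4
      have hwA := w.2
      have h5 := hwA
      rw [h4] at h5
      obtain ⟨h6, h7⟩ := pairMem_tra hA h5
      have h8 := h6
      rw [h2] at h8
      have h9 := h7
      rw [h3] at h9
      exact ⟨h1, ⟨z.1, (pairMem_tra hA h8).2⟩, ⟨y.1, (pairMem_tra hA h9).1⟩, ⟨p.1, (pairMem_tra hA h9).2⟩,
        ⟨s.1, h6⟩, ⟨t.1, h7⟩, h2, h3, h4⟩
    · rintro ⟨h1, z, y, p, s, t, h2, h3, h4⟩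
      exact ⟨h1, h.le.lev.sub w.2, ⟨z.1, h.le.lev.sub z.2⟩, ⟨y.1, h.le.lev.sub y.2⟩, ⟨p.1, h.le.lev.sub p.2⟩,
        ⟨s.1, h.le.lev.sub s.2⟩, ⟨t.1, h.le.lev.sub t.2⟩, h2, h3, h4⟩)
  have k2 : ∀ w : B, w.1 ∈ e r ↔ w.1 ∈ 𝓡' ∧ ∃ z y p s t : B, s.1 = ZFSet.pair (e β) z.1 ∧
      t.1 = ZFSet.pair y.1 p.1 ∧ w.1 = ZFSet.pair s.1 t.1 := by
    have k3 : ∀ w : B, w.1 ∈ e r ↔ w.1 ∈ e 𝓡 ∧ ∃ z y p s t : B, s.1 = ZFSet.pair (e β) z.1 ∧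
      t.1 = ZFSet.pair y.1 p.1 ∧ w.1 = ZFSet.pair s.1 t.1 := k1
    rw [h.eR] at k3
    exact k3
  -- `e r` is small
  have heβ : e β ∈ Λ'.toZFSet := by
    rw [← h.eΛ]
    exact (Elem.mem h.le.el hA hB hβA h.mΛ).1 hβ
  obtain ⟨Y, hY, hYc, hY'⟩ := h.sn' _ heβ
  have c1 : Cvr N δ.toZFSet (e r) := by
    refine hYc.mono fun w hw => ?_
    obtain ⟨h1, z, y, p, s, t, h2, h3, h4⟩ := (k2 ⟨w, hB _ erB _ hw⟩).1 hw
    have h4 : w = ZFSet.pair s.1 t.1 := h4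
    rw [h2, h3] at h4
    rw [h4]
    refine hY' _ _ _ ?_
    show ZFSet.pair (ZFSet.pair (e β) z.1) (ZFSet.pair y.1 p.1) ∈ 𝓡'
    rw [← h4]
    exact h1
  have hδA := h.le.memδ
  have eδ : e δ.toZFSet = δ.toZFSet := h.le.fix' δ le_rfl
  have hδB : δ.toZFSet ∈ B := eδ ▸ h.le.el.map _ hδA
  have c2 : Cvr B δ.toZFSet (e r) := (Lev.cvr hN h.le.lev' hδB erB).1 c1
  have c3 : Cvr A δ.toZFSet r := by
    have := (Elem.ud h.le.el hA hB levC_ud4 hne ![⟨_, hδA⟩, ⟨r, hrA⟩]).2 (by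
      show Cvr B (e δ.toZFSet) (e r)
      rw [eδ]
      exact c2)
    exact this
  have c4 : Cvr W δ.toZFSet r := (Lev.cvr hW h.le.lev hδA hrA).2 c3
  have him := Elem.image hW hN h.le.lev h.le.lev' h.le.el hδA h.le.fix' hrA c4
  -- the quadruple is an image
  have hR : ZFSet.pair (ZFSet.pair (e β) z) (ZFSet.pair y p) ∈ 𝓡' := hR
  have hwB := hB _ hR'B _ hR
  obtain ⟨hsB, htB⟩ := pairMem_tra hB hwB
  have h1 : ZFSet.pair (ZFSet.pair (e β) z) (ZFSet.pair y p) ∈ e r :=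
    (k2 ⟨_, hwB⟩).2 ⟨hR, ⟨z, (pairMem_tra hB hsB).2⟩, ⟨y, (pairMem_tra hB htB).1⟩,
      ⟨p, (pairMem_tra hB htB).2⟩, ⟨_, hsB⟩, ⟨_, htB⟩, rfl, rfl, rfl⟩
  obtain ⟨w, hw, hwe⟩ := (him _).1 h1
  have hwR : w ∈ 𝓡 := ((hr' w).1 hw).1
  obtain ⟨β₁, _, z₁, _, y₁, _, p₁, hp₁, _, h2⟩ := h.it.nm w hwR
  have hwA : w ∈ A := hA _ h.mR _ hwR
  rw [h2] at hwA hwe
  obtain ⟨hs, ht⟩ := pairMem_tra hA hwA
  rw [Elem.opair h.le.el hA hB hs ht hwA, Elem.opair h.le.el hA hB (pairMem_tra hA hs).1 (pairMem_tra hA hs).2 hs,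
    Elem.opair h.le.el hA hB (pairMem_tra hA ht).1 (pairMem_tra hA ht).2 ht, ZFSet.pair_inj, ZFSet.pair_inj,
    ZFSet.pair_inj] at hwe
  obtain ⟨_, _, h3⟩ := hwe
  subst h3
  intro u hu
  obtain ⟨β₂, hβ₂, x, hx, _, rfl⟩ := (h.img (h.it.q_sub _ hp₁) u).1 hu
  exact ⟨e β₂, (hD _).2 ⟨β₂, hβ₂, rfl⟩, x, hx, rfl⟩

end Pool.Agent.H7.IG
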