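import Pool.Agent.H7.IG.LevC

/-!
# IG, Part 4: pulling back properties along an elementary embedding

`Lev.pull`: every clause of `Lev N (El t)` is a statement about `t` in the structure `A`: subsets in `N` of elements of `A` are in `A`, so
`sbs`: `∀ x ∈ t, ∀ y : A, y ⊆ x → y ∈ t`; `pow`: `∀ x ∈ t, ∃ p ∈ t, ∀ z : A, z ∈ p ↔ z ⊆ x`; and `om`: `e omZ = omZ`. `Elem.ud` with a `UD TraC` predicate.
`SP.pull`: `SP N δ` is equivalent to a statement about `δ` in the structure `A`: `r, C, f, p` are subsets of `prod δ δ`, `δ`, `prod δ ω` and so in `A`; `Ctb N C ↔ Cvr A omZ C` (`Lev.ctb`).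
The same for `N'`, `B`; the statement is `UD TraC` in the variables `(δ, ω)`, `e δ = δ`, `e omZ = omZ`.
-/

set_option autoImplicit false
set_option linter.unusedVariables false
set_option linter.unusedSectionVars false
set_option linter.unusedSimpArgs false
set_option linter.unusedTactic false
set_option linter.unreachableTactic false

namespace Pool.Agent.H7.IG

open Pool.Agent.H17.Omega Pool.Agent.H17.Omega.CTM Pool.Agent.H52.GX Pool.Agent.H52.GC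

/-- `Lev` as a statement in the structure. -/
def levPa (N : Set ZFSet.{0}) (v : Fin 1 → N) : Prop :=
  (∀ x ∈ (v 0).1, ∀ y ∈ x, y ∈ (v 0).1) ∧
  (∀ x ∈ (v 0).1, ∀ y ∈ (v 0).1, ∃ z ∈ (v 0).1, z = ({x, y} : ZFSet.{0})) ∧
  (∀ x ∈ (v 0).1, ∃ z ∈ (v 0).1, (∀ w ∈ z, ∃ u ∈ x, w ∈ u) ∧ ∀ u ∈ x, ∀ w ∈ u, w ∈ z) ∧
  (∀ x ∈ (v 0).1, ∀ y : N, y.1 ⊆ x → y.1 ∈ (v 0).1) ∧
  (∀ x ∈ (v 0).1, ∃ p ∈ (v 0).1, ∀ z : N, z.1 ∈ p ↔ z.1 ⊆ x)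

theorem levPa_ud : UD TraC levPa := by
  unfold levPa
  (repeat' first
      | exact UT.var _ | exact UT.last | assumption
      | refine UD.pairMem ?_ ?_ ?_ | refine UD.isPair ?_ ?_ ?_ | refine UD.mem ?_ ?_
      | refine UD.eqv ?_ ?_ | refine UD.eq ?_ ?_ | refine UD.subset ?_ ?_
      | refine UD.isUpair ?_ ?_ ?_
      | refine UD.and ?_ ?_ | refine UD.or ?_ ?_ | refine UD.iff ?_ ?_ | refine UD.not ?_
      | refine UD.imp ?_ ?_ | refine UD.all ?_ | refine UD.ex ?_ | exact UD.false' | exact UD.true'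
      | refine UD.ball ?_ ?_ | refine UD.bex ?_ ?_)

/-- `SP` as a statement in the structure. -/
def levPs (N : Set ZFSet.{0}) (v : Fin 2 → N) : Prop :=
  ∀ r : N, ((∀ z ∈ r.1, ∃ x ∈ (v 0).1, ∃ y ∈ (v 0).1, z = ZFSet.pair x y) ∧
    (∀ x ∈ (v 0).1, ¬ ZFSet.pair x x ∈ r.1) ∧
    (∀ x ∈ (v 0).1, ∀ y ∈ (v 0).1, ∀ z ∈ (v 0).1, ZFSet.pair x y ∈ r.1 → ZFSet.pair y z ∈ r.1 → ZFSet.pair x z ∈ r.1) ∧
    (∀ x ∈ (v 0).1, ∀ y ∈ (v 0).1, ∀ z ∈ (v 0).1, ZFSet.pair x z ∈ r.1 → ZFSet.pair y z ∈ r.1 →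
      x = y ∨ ZFSet.pair x y ∈ r.1 ∨ ZFSet.pair y x ∈ r.1) ∧
    (∀ z ∈ (v 0).1, ∀ p : N, (∀ x ∈ p.1, ZFSet.pair x z ∈ r.1) → ∃ f : N,
      (∀ y ∈ (v 1).1, ∀ x x' : N, ZFSet.pair y x.1 ∈ f.1 → ZFSet.pair y x'.1 ∈ f.1 → x.1 = x'.1) ∧
      ∀ x ∈ p.1, ∃ y ∈ (v 1).1, ZFSet.pair y x ∈ f.1)) →
  (∀ C : N, C.1 ⊆ (v 0).1 → (∀ x ∈ C.1, ∀ y ∈ C.1, x = y ∨ ZFSet.pair x y ∈ r.1 ∨ ZFSet.pair y x ∈ r.1) → ∃ f : N,
      (∀ y ∈ (v 1).1, ∀ x x' : N, ZFSet.pair y x.1 ∈ f.1 → ZFSet.pair y x'.1 ∈ f.1 → x.1 = x'.1) ∧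
      ∀ x ∈ C.1, ∃ y ∈ (v 1).1, ZFSet.pair y x ∈ f.1) →
  ∃ f : N, ((∀ z ∈ f.1, ∃ x ∈ (v 0).1, ∃ y ∈ (v 1).1, z = ZFSet.pair x y) ∧
    (∀ x ∈ (v 0).1, ∃ y ∈ (v 1).1, ZFSet.pair x y ∈ f.1) ∧
    ∀ x ∈ (v 0).1, ∀ y ∈ (v 1).1, ∀ y' ∈ (v 1).1, ZFSet.pair x y ∈ f.1 → ZFSet.pair x y' ∈ f.1 → y = y') ∧
    ∀ x ∈ (v 0).1, ∀ y ∈ (v 0).1, ∀ n ∈ (v 1).1, ZFSet.pair x y ∈ r.1 → ZFSet.pair x n ∈ f.1 → ¬ ZFSet.pair y n ∈ f.1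

theorem levPs_ud : UD TraC levPs := by
  unfold levPs
  (repeat' first
      | exact UT.var _ | exact UT.last | assumption
      | refine UD.pairMem ?_ ?_ ?_ | refine UD.isPair ?_ ?_ ?_ | refine UD.mem ?_ ?_
      | refine UD.eqv ?_ ?_ | refine UD.eq ?_ ?_ | refine UD.subset ?_ ?_
      | refine UD.isUpair ?_ ?_ ?_
      | refine UD.and ?_ ?_ | refine UD.or ?_ ?_ | refine UD.iff ?_ ?_ | refine UD.not ?_
      | refine UD.imp ?_ ?_ | refine UD.all ?_ | refine UD.ex ?_ | exact UD.false' | exact UD.true'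
      | refine UD.ball ?_ ?_ | refine UD.bex ?_ ?_)

theorem levP_snd {A : Set ZFSet.{0}} (hA : Tra A) {x y f : ZFSet.{0}} (hf : f ∈ A) (h : ZFSet.pair x y ∈ f) :
    x ∈ A ∧ y ∈ A := by
  have h1 : ZFSet.pair x y ∈ A := hA _ hf _ h
  rw [pair_eq_upair] at h1
  have h2 : ({x, y} : ZFSet.{0}) ∈ A := hA _ h1 _ (by simp)
  exact ⟨hA _ h2 _ (by simp), hA _ h2 _ (by simp)⟩

theorem levP_cvr {A : Set ZFSet.{0}} (hA : Tra A) {W C : ZFSet.{0}} : Cvr A W C ↔ ∃ f : A,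
      (∀ y ∈ W, ∀ x x' : A, ZFSet.pair y x.1 ∈ f.1 → ZFSet.pair y x'.1 ∈ f.1 → x.1 = x'.1) ∧
      ∀ x ∈ C, ∃ y ∈ W, ZFSet.pair y x ∈ f.1 := by
  constructor
  · rintro ⟨f, hf, h1, h2⟩
    exact ⟨⟨f, hf⟩, fun y hy x x' h3 h4 => h1 y hy x.1 x'.1 h3 h4, h2⟩
  · rintro ⟨f, h1, h2⟩
    exact ⟨f.1, f.2, fun y hy x x' h3 h4 => h1 y hy ⟨x, (levP_snd hA f.2 h3).2⟩ ⟨x', (levP_snd hA f.2 h4).2⟩ h3 h4, h2⟩

theorem levPa_iff {N A : Set ZFSet.{0}} (hN : CTM N) (hA : Lev N A) {t : ZFSet.{0}} (ht : t ∈ A) :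
    Lev N (El t) ↔ omZ ∈ t ∧ levPa A (fun _ => ⟨t, ht⟩) := by
  constructor
  · intro h
    refine ⟨h.om, h.tra, fun x hx y hy => ⟨_, h.pair x hx y hy, rfl⟩, ?_, ?_, ?_⟩
    · intro x hx
      exact ⟨_, h.sun x hx, fun w hw => ZFSet.mem_sUnion.1 hw, fun u hu w hw => ZFSet.mem_sUnion.2 ⟨u, hu, hw⟩⟩
    · intro x hx y hyx
      exact h.sbs x hx y.1 (hA.sub y.2) hyx
    · intro x hx
      obtain ⟨p, hp, hp'⟩ := h.pow x hx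
      exact ⟨p, hp, fun z => (hp' z.1).trans ⟨fun h => h.2, fun h => ⟨hA.sub z.2, h⟩⟩⟩
  · rintro ⟨h0, h1, h2, h3, h4, h5⟩
    have htA : ∀ x ∈ t, x ∈ A := fun x hx => hA.tra _ ht _ hx
    refine ⟨fun x hx => hA.sub (htA x hx), h1, h0, ?_, ?_, ?_, ?_⟩
    · intro x hx y hy
      obtain ⟨z, hz, h⟩ := h2 x hx y hy
      exact h ▸ hz
    · intro x hx
      obtain ⟨z, hz, h6, h7⟩ := h3 x hx
      have e : ZFSet.sUnion x = z := by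
        ext w
        rw [ZFSet.mem_sUnion]
        exact ⟨fun ⟨u, hu, hw⟩ => h7 u hu w hw, fun hw => h6 w hw⟩
      exact e ▸ hz
    · intro x hx y hy hyx
      exact h4 x hx ⟨y, hA.sbs x (htA x hx) y hy hyx⟩ hyx
    · intro x hx
      obtain ⟨p, hp, hp'⟩ := h5 x hx
      refine ⟨p, hp, fun z => ⟨fun hz => ?_, fun hz => ?_⟩⟩
      · have hzA : z ∈ A := hA.tra _ (htA p hp) _ hz
        exact ⟨hA.sub hzA, (hp' ⟨z, hzA⟩).1 hz⟩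
      · exact (hp' ⟨z, hA.sbs x (htA x hx) z hz.1 hz.2⟩).2 hz.2

theorem levPs_iff {N A : Set ZFSet.{0}} (hN : CTM N) (hA : Lev N A) {δ : Ordinal.{0}} (hδ : δ.toZFSet ∈ A) :
    SP N δ ↔ levPs A ![⟨δ.toZFSet, hδ⟩, ⟨omZ, hA.om⟩] := by
  have hctb : ∀ {X : ZFSet.{0}}, X ∈ A → (Ctb N X ↔ ∃ f : A,
      (∀ y ∈ omZ, ∀ x x' : A, ZFSet.pair y x.1 ∈ f.1 → ZFSet.pair y x'.1 ∈ f.1 → x.1 = x'.1) ∧
      ∀ x ∈ X, ∃ y ∈ omZ, ZFSet.pair y x ∈ f.1) := fun hX => (Lev.ctb hN hA hX).trans (levP_cvr hA.tra)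
  have hdd := Lev.prod hN hA hδ hδ
  have hdo := Lev.prod hN hA hδ hA.om
  constructor
  · intro h r hr hC
    obtain ⟨r1, r2, r3, r4, r5⟩ := hr
    have hrm : ∀ {x y : ZFSet.{0}}, ZFSet.pair x y ∈ r.1 → x ∈ δ.toZFSet ∧ y ∈ δ.toZFSet := by
      intro x y hxy
      obtain ⟨x', hx', y', hy', h'⟩ := r1 _ hxy
      rw [ZFSet.pair_inj] at h'
      exact ⟨h'.1 ▸ hx', h'.2 ▸ hy'⟩
    have hT : TreeO N δ r.1 := by
      refine ⟨r1, ?_, ?_, ?_, ?_⟩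
      · intro x hx
        exact r2 x (hrm hx).1 hx
      · intro x y z h1 h2
        exact r3 x (hrm h1).1 y (hrm h1).2 z (hrm h2).2 h1 h2
      · intro x y z h1 h2
        exact r4 x (hrm h1).1 y (hrm h2).1 z (hrm h2).2 h1 h2
      · intro z hz p hp hpz
        have hpA : p ∈ A := hA.sbs _ hδ p hp (fun x hx => (hrm (hpz x hx)).1)
        exact (hctb hpA).2 (r5 z hz ⟨p, hpA⟩ hpz)
    obtain ⟨f, hf, hfn, h1⟩ := h r.1 (hA.sub r.2) hT (by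
      intro C hC' hCs hch
      have hCA : C ∈ A := hA.sbs _ hδ C hC' hCs
      exact (hctb hCA).2 (hC ⟨C, hCA⟩ hCs hch))
    have hfA : f ∈ A := by
      refine hA.sbs _ hdo f hf fun z hz => ?_
      obtain ⟨x, hx, y, hy, rfl⟩ := hfn.sub z hz
      exact ZFSet.pair_mem_prod.2 ⟨hx, hy⟩
    exact ⟨⟨f, hfA⟩, ⟨hfn.sub, hfn.tot, hfn.uni⟩, fun x _ y _ n _ h2 h3 => h1 x y n h2 h3⟩
  · intro h r hr hT hC
    have hrA : r ∈ A := by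
      refine hA.sbs _ hdd r hr fun z hz => ?_
      obtain ⟨x, hx, y, hy, rfl⟩ := hT.sub z hz
      exact ZFSet.pair_mem_prod.2 ⟨hx, hy⟩
    obtain ⟨f, hfn, h1⟩ := h ⟨r, hrA⟩ ⟨hT.sub, fun x _ => hT.irrefl x, fun x _ y _ z _ => hT.trans x y z,
      fun x _ y _ z _ => hT.tree x y z, fun z hz p hpz => (hctb p.2).1 (hT.ctb z hz p.1 (hA.sub p.2) hpz)⟩
      (fun C hCs hch => (hctb C.2).1 (hC C.1 (hA.sub C.2) hCs hch))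
    have hF : Fn f.1 δ.toZFSet omZ := ⟨hfn.1, hfn.2.1, hfn.2.2⟩
    refine ⟨f.1, hA.sub f.2, hF, fun x y n h2 h3 => ?_⟩
    obtain ⟨x', hx', n', hn', h'⟩ := hF.sub _ h3
    obtain ⟨x'', hx'', y'', hy'', h''⟩ := hT.sub _ h2
    rw [ZFSet.pair_inj] at h' h''
    obtain ⟨rfl, rfl⟩ := h'
    obtain ⟨_, rfl⟩ := h''
    exact h1 x hx' y hy'' n hn' h2 h3

section

variable {N N' A B : Set ZFSet.{0}} {e : ZFSet.{0} → ZFSet.{0}} (hN : CTM N) (hN' : CTM N')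
  (hA : Lev N A) (hB : Lev N' B) (he : Elem A B e)

include hN hN' hA hB he

theorem Lev.pull {t : ZFSet.{0}} (ht : t ∈ A) (h : Lev N' (El (e t))) : Lev N (El t) := by
  have h1 := (levPa_iff hN' hB (he.map t ht)).1 h
  refine (levPa_iff hN hA ht).2 ⟨?_, ?_⟩
  · rw [he.mem hA.tra hB.tra hA.om ht, he.om hA.tra hB.tra hA.om]
    exact h1.1
  · exact (he.ud hA.tra hB.tra levPa_ud ⟨_, hA.om⟩ (fun _ => ⟨t, ht⟩)).2 h1.2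

/-- `SP` is pulled back. -/
theorem SP.pull {δ : Ordinal.{0}} (hδ : IsOm1 N δ) (hδ' : IsOm1 N' δ) (hδA : δ.toZFSet ∈ A)
    (hfix : ∀ ξ ≤ δ, e ξ.toZFSet = ξ.toZFSet) (h : SP N' δ) : SP N δ := by
  have e1 : e δ.toZFSet = δ.toZFSet := hfix δ le_rfl
  have e2 : e omZ = omZ := he.om hA.tra hB.tra hA.om
  have hδB : δ.toZFSet ∈ B := e1 ▸ he.map _ hδA
  have h1 := (levPs_iff hN' hB hδB).1 h
  refine (levPs_iff hN hA hδA).2 ((he.ud hA.tra hB.tra levPs_ud ⟨_, hA.om⟩ _).2 ?_)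
  have e3 : (fun i : Fin 2 => (⟨e ((![⟨δ.toZFSet, hδA⟩, ⟨omZ, hA.om⟩] : Fin 2 → A) i).1,
      he.map _ ((![⟨δ.toZFSet, hδA⟩, ⟨omZ, hA.om⟩] : Fin 2 → A) i).2⟩ : B)) =
      ![⟨δ.toZFSet, hδB⟩, ⟨omZ, hB.om⟩] := by
    funext i
    fin_cases i
    · exact Subtype.ext e1
    · exact Subtype.ext e2
  rw [e3]
  exact h1

end

end Pool.Agent.H7.IG
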