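import Pool.Agent.H7.IG.LevA
import Pool.Agent.H7.IG.Gx4

/-!
# IG, Part 4: the generic extension of a level-like set

`T` level-like in `N`, `P ∈ T`, `G` generic: `Tx T G = {vl G τ : τ ∈ T}` is level-like in `N[G]`. Subsets: if `y ∈ N[G]`, `y ⊆ vl G τ`, `y = vl G σ`
then `y = vl G σ'` for `σ' = {(ρ, p) : ρ ∈ dom τ, p ∈ P, p` forces `ρ ∈ σ` and `ρ ∈ τ} ∈ N` (separation with `Frc.dfn2`, `Frc.truth2` of Gx4), a subset of `prod (⋃⋃τ) P ∈ T`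
(`dom τ ⊆ ⋃⋃τ`). Power set: the name `{(σ', p) : σ' ∈ N, σ' ⊆ prod (⋃⋃τ) P, p ∈ P}` evaluates to a set that contains all subsets in `N[G]` of `vl G τ`;
take the subset of those that are subsets of `vl G τ` (in `N[G]` by separation, in `Tx T G` by the previous point). Pairs: the name `{(σ, s₀), (τ, s₀)}`, `s₀ ∈ G`;
union: the name `{(ρ, p) : ∃ (σ, q) ∈ τ, (ρ, r) ∈ σ, q ⊆ p, r ⊆ p}`, a subset of a product of iterated unions of `τ` with `P`. `ω`: hypothesis `hom`.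
-/

set_option autoImplicit false
set_option linter.unusedVariables false
set_option linter.unusedSectionVars false
set_option linter.unusedSimpArgs false
set_option linter.unusedTactic false
set_option linter.unreachableTactic false

namespace Pool.Agent.H7.IG

open Pool.Agent.H17.Omega Pool.Agent.H17.Omega.CTM Pool.Agent.H52.GX Pool.Agent.H52.GC

theorem levX_ud : UD CtmC (fun N (v : Fin 2 → N) => (v 0).1 ∈ (v 1).1) := by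
  (repeat' first
      | exact UT.var _ | exact UT.last | assumption
      | refine UD.pairMem ?_ ?_ ?_ | refine UD.isPair ?_ ?_ ?_ | refine UD.mem ?_ ?_
      | refine UD.eqv ?_ ?_ | refine UD.eq ?_ ?_ | refine UD.subset ?_ ?_
      | refine UD.isEmpty ?_ | refine UD.isTrans ?_ | refine UD.isOrd ?_ | refine UD.isNat ?_
      | refine UD.isUpair ?_ ?_ ?_ | refine UD.isInsert ?_ ?_ ?_ | refine UD.isUnion ?_ ?_ ?_
      | refine UD.and ?_ ?_ | refine UD.or ?_ ?_ | refine UD.iff ?_ ?_ | refine UD.not ?_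
      | refine UD.imp ?_ ?_ | refine UD.all ?_ | refine UD.ex ?_ | exact UD.false' | exact UD.true'
      | refine UD.ball ?_ ?_ | refine UD.bex ?_ ?_)

/-- subsets of the value of a name have names that are subsets of a fixed set -/
theorem levX_sub {N : Set ZFSet.{0}} (hN : CTM N) {P G : ZFSet.{0}} (hP : P ∈ N)
    (hG : Gen N P G) {τ y : ZFSet.{0}} (hτ : τ ∈ N) (hy : y ∈ Xt N G) (hyx : y ⊆ vl G τ) :
    ∃ σ' ∈ N, σ' ⊆ ZFSet.prod (ZFSet.sUnion (ZFSet.sUnion τ)) P ∧ vl G σ' = y := by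
  obtain ⟨σ, hσ, rfl⟩ := hy
  have hU := hN.sUnion_mem (hN.sUnion_mem hτ)
  have hNX : N ⊆ Xt N G := hG.sub_xt hN hP
  obtain ⟨S, hS, hS'⟩ := hN.exists_sep (P := fun z => ∃ ρ p : N, z.1 = ZFSet.pair ρ.1 p.1 ∧
    Frc N P (fun N (v : Fin 2 → N) => (v 0).1 ∈ (v 1).1) p.1 ![Ar.n ρ, Ar.n ⟨σ, hσ⟩]) (by
    (repeat' first
      | exact DT.var _ | exact DT.last | exact DT.const _ | assumption
      | refine Dfn.pairMem ?_ ?_ ?_ | refine Dfn.isPair ?_ ?_ ?_ | refine Dfn.mem ?_ ?_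
      | refine Dfn.eqv ?_ ?_ | refine Dfn.eq ?_ ?_ | refine Dfn.subset ?_ ?_
      | refine Dfn.isEmpty ?_ | refine Dfn.isTrans ?_ | refine Dfn.isOrd ?_ | refine Dfn.isNat ?_
      | refine Dfn.isUpair ?_ ?_ ?_ | refine Dfn.isInsert ?_ ?_ ?_
      | refine Dfn.and ?_ ?_ | refine Dfn.or ?_ ?_ | refine Dfn.iff ?_ ?_ | refine Dfn.not ?_
      | refine Dfn.imp ?_ ?_ | refine Dfn.all ?_ | refine Dfn.ex ?_ | exact Dfn.false'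
      | refine Dfn.ballZ ?_ ?_ | refine Dfn.bexZ ?_ ?_ | exact Dfn.const _)
    exact Frc.dfn2 levX_ud hP (DT.var _) (AT.n (DT.var _)) (AT.n (DT.const _)))
    (hN.prod_mem hU hP)
  refine ⟨S, hS, fun z hz => ((hS' z).1 hz).1, ?_⟩
  ext z
  rw [mem_vl]
  constructor
  · rintro ⟨ρ, p, hp, h1, rfl⟩
    obtain ⟨_, _, ρ', p', h2, h3⟩ := (hS' _).1 h1
    have h2 : ZFSet.pair ρ p = ZFSet.pair ρ'.1 p'.1 := h2
    rw [ZFSet.pair_inj] at h2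
    have h4 := h3 G hG (h2.2 ▸ hp) (![⟨vl G ρ'.1, ⟨ρ'.1, ρ'.2, rfl⟩⟩, ⟨vl G σ, ⟨σ, hσ, rfl⟩⟩] :
      Fin 2 → Xt N G) (by intro i; fin_cases i <;> rfl)
    rw [h2.1]
    exact h4
  · intro hz
    obtain ⟨ρ, p, hp, h1, h2⟩ := mem_vl.1 (hyx hz)
    have hρτ := (mem_sUnion_sUnion_pair h1).1
    have hρN := hN.mem_of_mem hU hρτ
    obtain ⟨q, hq, h3⟩ := (Frc.truth levX_ud hN hP hG (![Ar.n ⟨ρ, hρN⟩, Ar.n ⟨σ, hσ⟩])
      (![⟨vl G ρ, ⟨ρ, hρN, rfl⟩⟩, ⟨vl G σ, ⟨σ, hσ, rfl⟩⟩] : Fin 2 → Xt N G)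
      (by intro i; fin_cases i <;> rfl)).1 (by
        change vl G ρ ∈ vl G σ
        rw [h2]
        exact hz)
    have hqP := hG.sub _ hq
    have hqN := hN.mem_of_mem hP hqP
    refine ⟨ρ, q, hq, (hS' _).2 ⟨?_, hN.pair_mem hρN hqN, ⟨ρ, hρN⟩, ⟨q, hqN⟩, rfl, h3⟩, h2⟩
    rw [ZFSet.pair_mem_prod]
    exact ⟨hρτ, hqP⟩

theorem Lev.ext {N T : Set ZFSet.{0}} (hN : CTM N) (h : Lev N T) {P G : ZFSet.{0}} (hP : P ∈ T)
    (hG : Gen N P G) (hom : ∃ ν ∈ T, vl G ν = omZ) : Lev (Xt N G) (Tx T G) := by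
  have hPN := h.sub hP
  have hW : CTM (Xt N G) := hG.ctm hN hPN
  have htr : ∀ x ∈ T, ∀ y ∈ x, y ∈ T := h.tra
  have hpr : ∀ {a b}, ZFSet.pair a b ∈ T → a ∈ T ∧ b ∈ T := by
    intro a b hab
    have h1 : ({a, b} : ZFSet.{0}) ∈ T := htr _ hab _ (by
      rw [ZFSet.pair, ZFSet.mem_pair]; exact Or.inr rfl)
    exact ⟨htr _ h1 _ (by simp), htr _ h1 _ (by simp)⟩
  have hsbs : ∀ x ∈ Tx T G, ∀ y ∈ Xt N G, y ⊆ x → y ∈ Tx T G := by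
    rintro x ⟨τ, hτ, rfl⟩ y hy hyx
    obtain ⟨σ', h1, h2, h3⟩ := levX_sub hN hPN hG (h.sub hτ) hy hyx
    exact ⟨σ', h.sbs _ (Lev.prod hN h (h.sun _ (h.sun _ hτ)) hP) _ h1 h2, h3.symm⟩
  obtain ⟨s₀, hs₀⟩ := hG.ne
  have hs₀P := hG.sub _ hs₀
  have hs₀T := htr _ hP _ hs₀P
  refine ⟨?_, ?_, ?_, ?_, ?_, hsbs, ?_⟩
  · rintro x ⟨τ, hτ, rfl⟩
    exact ⟨τ, h.sub hτ, rfl⟩
  · rintro x ⟨τ, hτ, rfl⟩ y hy
    obtain ⟨σ, p, hp, h1, rfl⟩ := mem_vl.1 hy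
    exact ⟨σ, (hpr (htr _ hτ _ h1)).1, rfl⟩
  · obtain ⟨ν, h1, h2⟩ := hom
    exact ⟨ν, h1, h2.symm⟩
  · rintro x ⟨σ, hσ, rfl⟩ y ⟨τ, hτ, rfl⟩
    refine ⟨{ZFSet.pair σ s₀, ZFSet.pair τ s₀}, h.pair _ (Lev.opair hN h hσ hs₀T) _
      (Lev.opair hN h hτ hs₀T), ?_⟩
    ext z
    rw [mem_vl, ZFSet.mem_pair]
    constructor
    · rintro (rfl | rfl)
      · exact ⟨σ, s₀, hs₀, by simp, rfl⟩
      · exact ⟨τ, s₀, hs₀, by simp, rfl⟩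
    · rintro ⟨ρ, p, hp, h1, rfl⟩
      rw [ZFSet.mem_pair, ZFSet.pair_inj, ZFSet.pair_inj] at h1
      rcases h1 with ⟨rfl, -⟩ | ⟨rfl, -⟩
      · exact Or.inl rfl
      · exact Or.inr rfl
  · rintro x ⟨τ, hτ, rfl⟩
    have hτN := h.sub hτ
    have hD : ZFSet.sUnion (ZFSet.sUnion (ZFSet.sUnion (ZFSet.sUnion (ZFSet.sUnion τ)))) ∈ T :=
      h.sun _ (h.sun _ (h.sun _ (h.sun _ (h.sun _ hτ))))
    obtain ⟨S, hS, hS'⟩ := hN.exists_sep (P := fun z => ∃ ρ p σ q r : N, z.1 = ZFSet.pair ρ.1 p.1 ∧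
      ZFSet.pair σ.1 q.1 ∈ (⟨τ, hτN⟩ : N).1 ∧ ZFSet.pair ρ.1 r.1 ∈ σ.1 ∧ q.1 ∈ (⟨P, hPN⟩ : N).1 ∧
      r.1 ∈ (⟨P, hPN⟩ : N).1 ∧ q.1 ⊆ p.1 ∧ r.1 ⊆ p.1) (by
      (repeat' first
      | exact DT.var _ | exact DT.last | exact DT.const _ | assumption
      | refine Dfn.pairMem ?_ ?_ ?_ | refine Dfn.isPair ?_ ?_ ?_ | refine Dfn.mem ?_ ?_
      | refine Dfn.eqv ?_ ?_ | refine Dfn.eq ?_ ?_ | refine Dfn.subset ?_ ?_
      | refine Dfn.isEmpty ?_ | refine Dfn.isTrans ?_ | refine Dfn.isOrd ?_ | refine Dfn.isNat ?_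
      | refine Dfn.isUpair ?_ ?_ ?_ | refine Dfn.isInsert ?_ ?_ ?_
      | refine Dfn.and ?_ ?_ | refine Dfn.or ?_ ?_ | refine Dfn.iff ?_ ?_ | refine Dfn.not ?_
      | refine Dfn.imp ?_ ?_ | refine Dfn.all ?_ | refine Dfn.ex ?_ | exact Dfn.false'
      | refine Dfn.ballZ ?_ ?_ | refine Dfn.bexZ ?_ ?_ | exact Dfn.const _)) (hN.prod_mem (h.sub hD) hPN)
    refine ⟨S, h.sbs _ (Lev.prod hN h hD hP) _ hS (fun z hz => ((hS' z).1 hz).1), ?_⟩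
    ext z
    rw [mem_vl, ZFSet.mem_sUnion]
    constructor
    · rintro ⟨y, hy, hz⟩
      obtain ⟨σ, q, hq, h1, rfl⟩ := mem_vl.1 hy
      obtain ⟨ρ, r, hr, h2, rfl⟩ := mem_vl.1 hz
      obtain ⟨p, hp, h3, h4⟩ := hG.dir q hq r hr
      have hσ := (mem_sUnion_sUnion_pair h1).1
      have h5 : ZFSet.pair ρ r ∈ ZFSet.sUnion (ZFSet.sUnion (ZFSet.sUnion τ)) :=
        ZFSet.mem_sUnion.2 ⟨σ, hσ, h2⟩
      have hρ := (mem_sUnion_sUnion_pair h5).1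
      have hpP := hG.sub _ hp
      have hσN := hN.mem_of_mem (hN.sUnion_mem (hN.sUnion_mem hτN)) hσ
      have hρN := hN.mem_of_mem (h.sub hD) hρ
      have hpN := hN.mem_of_mem hPN hpP
      have hqP := hG.sub _ hq
      have hrP := hG.sub _ hr
      refine ⟨ρ, p, hp, (hS' _).2 ⟨?_, hN.pair_mem hρN hpN, ⟨ρ, hρN⟩, ⟨p, hpN⟩, ⟨σ, hσN⟩,
        ⟨q, hN.mem_of_mem hPN hqP⟩, ⟨r, hN.mem_of_mem hPN hrP⟩, rfl, h1, h2, hqP, hrP, h3, h4⟩, rfl⟩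
      rw [ZFSet.pair_mem_prod]
      exact ⟨hρ, hpP⟩
    · rintro ⟨ρ, p, hp, h1, rfl⟩
      obtain ⟨_, _, ρ', p', σ, q, r, h2, h3, h4, h5, h6, h7, h8⟩ := (hS' _).1 h1
      have h2 : ZFSet.pair ρ p = ZFSet.pair ρ'.1 p'.1 := h2
      rw [ZFSet.pair_inj] at h2
      have hq : q.1 ∈ G := hG.up p hp _ h5 (h2.2 ▸ h7)
      have hr : r.1 ∈ G := hG.up p hp _ h6 (h2.2 ▸ h8)
      refine ⟨vl G σ.1, mem_vl.2 ⟨σ.1, q.1, hq, h3, rfl⟩, mem_vl.2 ⟨ρ, r.1, hr, ?_, rfl⟩⟩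
      rw [h2.1]
      exact h4
  · rintro x ⟨τ, hτ, rfl⟩
    have hτN := h.sub hτ
    have hD := Lev.prod hN h (h.sun _ (h.sun _ hτ)) hP
    obtain ⟨Pw, hPw, hPw'⟩ := h.pow _ hD
    have hπ := Lev.prod hN h hPw hP
    have hπX : vl G (ZFSet.prod Pw P) ∈ Tx T G := ⟨_, hπ, rfl⟩
    have hπW : vl G (ZFSet.prod Pw P) ∈ Xt N G := ⟨_, h.sub hπ, rfl⟩
    have hxW : vl G τ ∈ Xt N G := ⟨τ, hτN, rfl⟩
    obtain ⟨S, hS, hS'⟩ := hW.exists_sep (P := fun z => z.1 ⊆ (⟨vl G τ, hxW⟩ : Xt N G).1) (by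
      (repeat' first
      | exact DT.var _ | exact DT.last | exact DT.const _ | assumption
      | refine Dfn.pairMem ?_ ?_ ?_ | refine Dfn.isPair ?_ ?_ ?_ | refine Dfn.mem ?_ ?_
      | refine Dfn.eqv ?_ ?_ | refine Dfn.eq ?_ ?_ | refine Dfn.subset ?_ ?_
      | refine Dfn.isEmpty ?_ | refine Dfn.isTrans ?_ | refine Dfn.isOrd ?_ | refine Dfn.isNat ?_
      | refine Dfn.isUpair ?_ ?_ ?_ | refine Dfn.isInsert ?_ ?_ ?_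
      | refine Dfn.and ?_ ?_ | refine Dfn.or ?_ ?_ | refine Dfn.iff ?_ ?_ | refine Dfn.not ?_
      | refine Dfn.imp ?_ ?_ | refine Dfn.all ?_ | refine Dfn.ex ?_ | exact Dfn.false'
      | refine Dfn.ballZ ?_ ?_ | refine Dfn.bexZ ?_ ?_ | exact Dfn.const _)) hπW
    refine ⟨S, hsbs _ hπX _ hS (fun z hz => ((hS' z).1 hz).1), fun z => ?_⟩
    constructor
    · intro hz
      obtain ⟨h1, h2, h3⟩ := (hS' z).1 hz
      exact ⟨h2, h3⟩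
    · rintro ⟨h1, h2⟩
      refine (hS' z).2 ⟨?_, h1, h2⟩
      obtain ⟨σ', h3, h4, rfl⟩ := levX_sub hN hPN hG hτN h1 h2
      refine mem_vl.2 ⟨σ', s₀, hs₀, ?_, rfl⟩
      rw [ZFSet.pair_mem_prod]
      exact ⟨(hPw' _).2 ⟨h3, h4⟩, hs₀P⟩

end Pool.Agent.H7.IG
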