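import Pool.Agent.H7.IG.Lift

/-!
# IG, Part 4: the graph of the lifted embedding, the set of values

`lift_graph`: `vl` is definable (`ud_vl`, Gx2), replacement/separation in `N` from the graph of `e` on `T` (`exists_fn`-like tools of Tk1); the values `vl G τ` for `τ ∈ T`, `T, G ∈ N` are in `N`.
`Tx_mem`: the name `prod T P`.
-/

set_option autoImplicit false
set_option linter.unusedVariables false
set_option linter.unusedSectionVars false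
set_option linter.unusedSimpArgs false
set_option linter.unusedTactic false
set_option linter.unreachableTactic false

namespace Pool.Agent.H7.IG

open Pool.Agent.H17.Omega Pool.Agent.H17.Omega.CTM Pool.Agent.H52.GX Pool.Agent.H52.GC

variable {A B N N' : Set ZFSet.{0}} {e : ZFSet.{0} → ZFSet.{0}}

/-- The graph of the lifted embedding is in every model that contains the graph of `e` on `T` and the generic
filters (definability of `vl`: `ud_vl`; replacement). -/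
theorem lift_graph {e e' : ZFSet.{0} → ZFSet.{0}} {T G G' : ZFSet.{0}} (hN : CTM N) (hT : T ∈ N)
    (hGN : G ∈ N) (hGN' : G' ∈ N) (h : ∀ τ ∈ T, e' (vl G τ) = vl G' (e τ)) (heT : ∀ τ ∈ T, e τ ∈ N)
    (hg : ∃ g ∈ N, ∀ z, z ∈ g ↔ ∃ y ∈ El T, z = ZFSet.pair y (e y)) :
    ∃ g ∈ N, ∀ z, z ∈ g ↔ ∃ y ∈ Tx (El T) G, z = ZFSet.pair y (e' y) := by
  obtain ⟨g, hgN, hg⟩ := hg
  have hd : hN.Dfn (fun v : Fin 2 → N => ∃ τ σ x y : N, (v 0).1 = ZFSet.pair τ.1 σ.1 ∧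
      x.1 = vl (⟨G, hGN⟩ : N).1 τ.1 ∧ y.1 = vl (⟨G', hGN'⟩ : N).1 σ.1 ∧
      (v 1).1 = ZFSet.pair x.1 y.1) := by
    refine Dfn.ex (Dfn.ex (Dfn.ex (Dfn.ex (Dfn.and ?_ (Dfn.and ?_ (Dfn.and ?_ ?_))))))
    · exact Dfn.isPair (DT.var _) (DT.var _) (DT.var _)
    · exact UD.d3 (P := fun N a b c => c.1 = vl a.1 b.1) ud_vl hN (DT.const _) (DT.var _) (DT.var _)
    · exact UD.d3 (P := fun N a b c => c.1 = vl a.1 b.1) ud_vl hN (DT.const _) (DT.var _) (DT.var _)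
    · exact Dfn.isPair (DT.var _) (DT.var _) (DT.var _)
  obtain ⟨b, hb, hb'⟩ := hN.exists_repl (F := fun w z => ∃ τ σ x y : N, w.1 = ZFSet.pair τ.1 σ.1 ∧
      x.1 = vl (⟨G, hGN⟩ : N).1 τ.1 ∧ y.1 = vl (⟨G', hGN'⟩ : N).1 σ.1 ∧
      z.1 = ZFSet.pair x.1 y.1) hd hgN (by
    rintro w _ z z' ⟨τ, σ, x, y, h1, h2, h3, h4⟩ ⟨τ', σ', x', y', h1', h2', h3', h4'⟩
    rw [h1, ZFSet.pair_inj] at h1'
    exact Subtype.ext (by rw [h4, h4', h2, h2', h3, h3', h1'.1, h1'.2]))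
  refine ⟨b, hb, fun z => ?_⟩
  constructor
  · intro hz
    have hzN : z ∈ N := hN.mem_of_mem hb hz
    obtain ⟨w, hw, τ, σ, x, y, h1, h2, h3, h4⟩ := (hb' ⟨z, hzN⟩).1 hz
    obtain ⟨y₀, hy₀, h5⟩ := (hg w.1).1 hw
    rw [h1, ZFSet.pair_inj] at h5
    refine ⟨vl G y₀, ⟨y₀, hy₀, rfl⟩, ?_⟩
    rw [h y₀ hy₀]
    have h4' : z = ZFSet.pair x.1 y.1 := h4
    rw [h4', h2, h3, h5.1, h5.2]
  · rintro ⟨y, ⟨τ, hτ, rfl⟩, rfl⟩
    have hτN : τ ∈ N := hN.mem_of_mem hT hτ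
    have h1 : vl G τ ∈ N := vl_mem hN hGN hτN
    have h2 : vl G' (e τ) ∈ N := vl_mem hN hGN' (heT τ hτ)
    rw [h τ hτ]
    refine (hb' ⟨_, hN.pair_mem h1 h2⟩).2 ⟨⟨_, hN.pair_mem hτN (heT τ hτ)⟩,
      (hg _).2 ⟨τ, hτ, rfl⟩, ⟨τ, hτN⟩, ⟨e τ, heT τ hτ⟩, ⟨_, h1⟩, ⟨_, h2⟩, rfl, rfl, rfl, rfl⟩

/-- The set of the values of the names in `T` is a set of the extension. -/
theorem Tx_mem {P T G : ZFSet.{0}} (hN : CTM N) (hP : P ∈ N) (hT : T ∈ N) (hG : Gen N P G) :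
    ∃ t ∈ Xt N G, ∀ x, x ∈ t ↔ x ∈ Tx (El T) G := by
  refine ⟨vl G (ZFSet.prod T P), ⟨_, hN.prod_mem hT hP, rfl⟩, fun x => ?_⟩
  rw [mem_vl]
  constructor
  · rintro ⟨σ, p, hp, h1, rfl⟩
    rw [ZFSet.pair_mem_prod] at h1
    exact ⟨σ, h1.1, rfl⟩
  · rintro ⟨σ, hσ, rfl⟩
    obtain ⟨p, hp⟩ := hG.ne
    exact ⟨σ, p, hp, ZFSet.pair_mem_prod.2 ⟨hσ, hG.sub p hp⟩, rfl⟩

end Pool.Agent.H7.IG
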