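import Pool.Agent.H7.IG.LED
import Pool.Agent.H7.IG.LevX
import Pool.Agent.H7.IG.LevP
import Pool.Agent.H7.IG.LiftG
import Pool.Agent.H7.IG.Chk

/-!
# IG, Part 4: lifting an embedding to a generic extension

`P, T, K, E ∈ A` are mapped to `P', T', K', E'`. `P, T ∈ W` (`lev.sub`), `P', T' ∈ N`. `Lev W (El T)` by `Lev.pull`. `P ∈ T`, `γ ∈ T` by `Elem.mem`. `NmCl T`, `NmCl T'` from transitivity of `T`, `T'`
(components of a pair in a transitive set are in it, `pairMem_tra`). `lift` gives `e'` and `Elem`. `IsChk P T K` by `Elem.ud` and `ud_IsChk`; so for `x ∈ T` there is `τ ∈ T`, `(x, τ) ∈ K`, `vl H τ = x`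
(`IsChk.vl`), `(e x, e τ) ∈ K'` (`Elem.mem`, `Elem.opair`), `vl H' (e τ) = e x`; so `e' x = e x`. For `x = ω` (`omZ ∈ T`, `T'`) this gives the hypothesis `hom` of `Lev.ext`, which is applied on
both sides. `Xt W H ⊆ Xt N H'` by minimality (`Gen.min` or similar in Gx: the least ctm containing `W` and `H`). `gr`: `lift_graph` in the model `Xt N H'`; the graph of `e` on `T` by separation from `h.gr`.
`fix`, `crit`: `ξ ∈ T` for `ξ ≤ γ` by transitivity and `e' ξ = e ξ`.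

Status: complete (helper69).
-/

set_option autoImplicit false
set_option linter.unusedVariables false
set_option linter.unusedSectionVars false
set_option linter.unusedSimpArgs false
set_option linter.unusedTactic false
set_option linter.unreachableTactic false

namespace Pool.Agent.H7.IG

open Pool.Agent.H17.Omega Pool.Agent.H17.Omega.CTM Pool.Agent.H52.GX Pool.Agent.H52.GC

variable {W N A B : Set ZFSet.{0}} {δ γ κ : Ordinal.{0}} {e : ZFSet.{0} → ZFSet.{0}}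

/-- first components of pairs in elements of elements of a transitive set -/
theorem lex_nmcl {T : ZFSet.{0}} (hT : Tra (El T)) : NmCl T := by
  intro τ hτ σ p h
  have h1 : ZFSet.pair σ p ∈ T := hT _ hτ _ h
  rw [pair_eq_upair] at h1
  have h2 : ({σ, p} : ZFSet.{0}) ∈ T := hT _ h1 _ (by simp)
  exact hT _ h2 _ (by simp)

/-- the graph of `e` on a set is a set of the model -/
theorem lex_graph {N A : Set ZFSet.{0}} (hN : CTM N) {e : ZFSet.{0} → ZFSet.{0}} {T : ZFSet.{0}}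
    (hTN : T ∈ N) (hTA : ∀ x ∈ T, x ∈ A) (hg : ∃ g ∈ N, ∀ z, z ∈ g ↔ ∃ y ∈ A, z = ZFSet.pair y (e y)) :
    ∃ g ∈ N, ∀ z, z ∈ g ↔ ∃ y ∈ El T, z = ZFSet.pair y (e y) := by
  obtain ⟨g, hgN, hg⟩ := hg
  obtain ⟨s, hs, hs'⟩ := hN.exists_sep (P := fun z => ∃ y w : N, z.1 = ZFSet.pair y.1 w.1 ∧
    y.1 ∈ (⟨T, hTN⟩ : N).1) (by
    (repeat' first
      | exact DT.var _ | exact DT.last | exact DT.const _ | assumption
      | refine Dfn.pairMem ?_ ?_ ?_ | refine Dfn.isPair ?_ ?_ ?_ | refine Dfn.mem ?_ ?_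
      | refine Dfn.and ?_ ?_ | refine Dfn.ex ?_)) hgN
  refine ⟨s, hs, fun z => ?_⟩
  constructor
  · intro hz
    obtain ⟨h1, h2, y, w, h3, h4⟩ := (hs' z).1 hz
    obtain ⟨y', hy', h5⟩ := (hg z).1 h1
    have h3 : z = ZFSet.pair y.1 w.1 := h3
    have h6 : y' = y.1 := (ZFSet.pair_inj.1 (h5.symm.trans h3)).1
    refine ⟨y', ?_, h5⟩
    rw [h6]
    exact h4
  · rintro ⟨y, hy, rfl⟩
    have h1 : ZFSet.pair y (e y) ∈ g := (hg _).2 ⟨y, hTA y hy, rfl⟩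
    have h2 : ZFSet.pair y (e y) ∈ N := hN.mem_of_mem hgN h1
    have h3 : y ∈ N := hN.mem_of_mem hTN hy
    have h4 : e y ∈ N := by
      have h5 := h2
      rw [pair_eq_upair] at h5
      have h6 : ({y, e y} : ZFSet.{0}) ∈ N := hN.mem_of_mem h5 (by simp)
      exact hN.mem_of_mem h6 (by simp)
    exact (hs' _).2 ⟨h1, h2, ⟨y, h3⟩, ⟨e y, h4⟩, rfl, hy⟩

theorem LE.lift (h : LE W N A B δ γ κ e) {P T K E P' T' K' E' : ZFSet.{0}} (hP : P ∈ A) (hT : T ∈ A) (hK : K ∈ A)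
    (hE : E ∈ A) (eP : e P = P') (eT : e T = T') (eK : e K = K') (eE : e E = E') (hTl : Lev N (El T'))
    (hPT : P' ∈ T') (hκT : κ.toZFSet ∈ T') (hK' : IsChk P' T' K') (hE' : IsE N P' T' E') {H H' : ZFSet.{0}}
    (hH : Gen W P H) (hH' : Gen N P' H') (hHN : H ∈ Xt N H') (hHH : ∀ p ∈ P, p ∈ H ↔ e p ∈ H')
    (hδ : IsOm1 (Xt W H) δ) (hδ' : IsOm1 (Xt N H') δ) :
    ∃ e' : ZFSet.{0} → ZFSet.{0}, LE (Xt W H) (Xt N H') (Tx (El T) H) (Tx (El T') H') δ γ κ e' ∧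
      (∀ τ ∈ T, e' (vl H τ) = vl H' (e τ)) ∧ ∀ x ∈ T, x ∈ Tx (El T) H ∧ e' x = e x := by
  subst eP eT eK eE
  have hA : Tra A := h.lev.tra
  have hB : Tra B := h.lev'.tra
  have he : Elem A B e := h.el
  have hPW : P ∈ W := h.lev.sub hP
  have hTW : T ∈ W := h.lev.sub hT
  have hPN : e P ∈ N := h.lev'.sub (he.map _ hP)
  have hTN : e T ∈ N := h.lev'.sub (he.map _ hT)
  have hTl0 : Lev W (El T) := Lev.pull h.hW h.hN h.lev h.lev' h.el hT hTl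
  have hPT0 : P ∈ T := (he.mem hA hB hP hT).2 hPT
  have hγT : γ.toZFSet ∈ T := (he.mem hA hB h.mem hT).2 (by rw [h.crit]; exact hκT)
  have hTA : ∀ x ∈ T, x ∈ A := fun x hx => hA _ hT _ hx
  obtain ⟨e', h1, hel⟩ := Pool.Agent.H7.IG.lift hA hB he h.hW h.hN hP hT hE hPW hTW hPN hTN
    (lex_nmcl hTl0.tra) (lex_nmcl hTl.tra) hE' hH hH' hHH
  have hChk : IsChk P T K := by
    have h2 := Elem.ud he hA hB ud_IsChk ⟨P, hP⟩ ![⟨P, hP⟩, ⟨T, hT⟩, ⟨K, hK⟩]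
    exact h2.2 hK'
  have hval : ∀ x ∈ T, ∃ τ ∈ T, vl H τ = x ∧ vl H' (e τ) = e x := by
    intro x hx
    obtain ⟨τ, hτ, h2⟩ := hChk.tot x hx
    refine ⟨τ, hτ, hChk.vl hH.sub hH.ne h2, ?_⟩
    have h3 : ZFSet.pair x τ ∈ A := hA _ hK _ h2
    have h4 := (he.mem hA hB h3 hK).1 h2
    rw [he.opair hA hB (hTA x hx) (hTA τ hτ) h3] at h4
    exact hK'.vl hH'.sub hH'.ne h4
  have hres : ∀ x ∈ T, x ∈ Tx (El T) H ∧ e' x = e x := by
    intro x hx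
    obtain ⟨τ, hτ, h2, h3⟩ := hval x hx
    refine ⟨⟨τ, hτ, h2.symm⟩, ?_⟩
    rw [← h3, ← h1 τ hτ, h2]
  have hcN : CTM (Xt N H') := hH'.ctm h.hN hPN
  have hsub : N ⊆ Xt N H' := hH'.sub_xt h.hN hPN
  refine ⟨e', ⟨hH.ctm h.hW hPW, hcN, xt_min hcN (h.sub.trans hsub) hHN, hδ, hδ', h.lt, h.lt', ?_, ?_, hel, ?_,
    (hres _ hγT).1, ?_, ?_⟩, h1, hres⟩
  · obtain ⟨ν, hν, h2, -⟩ := hval omZ hTl0.om
    exact Lev.ext h.hW hTl0 hPT0 hH ⟨ν, hν, h2⟩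
  · obtain ⟨ν, hν, h2⟩ := hK'.tot omZ hTl.om
    exact Lev.ext h.hN hTl hPT hH' ⟨ν, hν, hK'.vl hH'.sub hH'.ne h2⟩
  · obtain ⟨g, hg, hg'⟩ := lex_graph h.hN (h.sub hTW) hTA h.gr
    exact lift_graph hcN (hsub (h.sub hTW)) hHN (hH'.mem_xt h.hN hPN) h1
      (fun τ hτ => hsub (h.lev'.sub (he.map _ (hTA τ hτ)))) ⟨g, hsub hg, hg'⟩
  · intro ξ hξ
    have h2 : ξ.toZFSet ∈ T := hTl0.tra _ hγT _ (Ordinal.toZFSet_mem_toZFSet_iff.2 hξ)
    rw [(hres _ h2).2]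
    exact h.fix ξ hξ
  · rw [(hres _ hγT).2]
    exact h.crit

end Pool.Agent.H7.IG
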