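import Pool.Agent.H7.IG.Gx
import Pool.Agent.H7.IG.Stat
import Pool.Agent.H7.IG.Tk1
import Pool.Agent.H7.IG.Tk8

/-!
# IG, Part 4: level-like sets of a model, elementary embeddings between them (definitions)

`Lev N T`: `T` is a transitive set (class) of sets of `N`, closed under subsets (in `N`), pairs, unions and
power sets (of `N`), containing `ω`: for example `V_ζ` of `N` for limits `ζ > ω` of `N`.
`Tx T G = {vl G τ : τ ∈ T}`.
-/

set_option autoImplicit false
set_option linter.unusedVariables false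
set_option linter.unusedSectionVars false
set_option linter.unusedSimpArgs false
set_option linter.unusedTactic false
set_option linter.unreachableTactic false

namespace Pool.Agent.H7.IG

open Pool.Agent.H17.Omega Pool.Agent.H17.Omega.CTM Pool.Agent.H52.GX Pool.Agent.H52.GC

structure Lev (N T : Set ZFSet.{0}) : Prop where
  sub : T ⊆ N
  tra : Tra T
  om : omZ ∈ T
  pair : ∀ x ∈ T, ∀ y ∈ T, ({x, y} : ZFSet.{0}) ∈ T
  sun : ∀ x ∈ T, ZFSet.sUnion x ∈ T
  sbs : ∀ x ∈ T, ∀ y ∈ N, y ⊆ x → y ∈ T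
  pow : ∀ x ∈ T, ∃ p ∈ T, ∀ z, z ∈ p ↔ z ∈ N ∧ z ⊆ x

/-- The elements of a set, as a `Set`. -/
def El (t : ZFSet.{0}) : Set ZFSet.{0} := {x | x ∈ t}

/-- The values of the names in `T`. -/
def Tx (T : Set ZFSet.{0}) (G : ZFSet.{0}) : Set ZFSet.{0} := {x | ∃ τ ∈ T, x = vl G τ}

/-- A data structure for the embeddings of `Sc`. -/
structure Emb (M : Set ZFSet.{0}) (κ η γ α : Ordinal.{0}) (e : ZFSet.{0} → ZFSet.{0}) : Prop where
  lt : γ < α
  lt' : α < κ
  el : Elem (Lv M α) (Lv M η) e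
  gr : ∃ g ∈ M, ∀ z, z ∈ g ↔ ∃ y ∈ Lv M α, z = ZFSet.pair y (e y)
  fix : ∀ y ∈ Lv M γ, e y = y
  crit : e γ.toZFSet = κ.toZFSet

end Pool.Agent.H7.IG
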