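import Pool.Agent.H7.IG.LiftT
import Pool.Agent.H7.IG.LevB

/-!
# IG, Part 4: lifting an elementary embedding to generic extensions

`e : A → B` elementary, `A, B` transitive, `P, T, E ∈ A`; `e E` is the relation of forced equality for `(N', e P, e T)`; `T` is closed
(`NmCl`). Then `RecE (e P) (e T) (e E)` (`IsE.rec'`), so `RecE P T E` (`Elem.ud`, `ud_RecE`), so `E` is the relation of forced
equality for `(N, P, T)` (`RecE.isE`). `Rf P T E φ p f ↔ Rf (e P) (e T) (e E) φ (e p) (e ∘ f)` by `Rf.sat` (both in `A` and in `B`) and `Elem.sat`, for `p ∈ P`, `f i ∈ T`.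
Truth lemma `Rf.truth` on both sides. So for `f : ℕ → T`: `Tx T G ⊨ φ(vl G ∘ f)` → `Rf φ p f` for some `p ∈ G` → `Rf φ (e p) (e ∘ f)`, `e p ∈ G'` →
`Tx (e T) G' ⊨ φ(vl G' ∘ e ∘ f)`; for the converse use the negation (`imp φ bot`). Define `e' x := vl G' (e τ)` for some `τ ∈ T` with `x = vl G τ` (choice), `∅` otherwise;
it does not depend on `τ`: the case of the formula `eq 0 1`.
-/

set_option autoImplicit false
set_option linter.unusedVariables false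
set_option linter.unusedSectionVars false
set_option linter.unusedSimpArgs false
set_option linter.unusedTactic false
set_option linter.unreachableTactic false

namespace Pool.Agent.H7.IG

open Pool.Agent.H17.Omega Pool.Agent.H17.Omega.CTM Pool.Agent.H52.GX Pool.Agent.H52.GC

variable {A B N N' : Set ZFSet.{0}} {e : ZFSet.{0} → ZFSet.{0}}

theorem lift_rf (hA : Tra A) (hB : Tra B) (he : Elem A B e) {P T E : ZFSet.{0}} (hPA : P ∈ A) (hTA : T ∈ A)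
    (hEA : E ∈ A) (φ : Fml) {p : ZFSet.{0}} (hp : p ∈ P) (f : ℕ → ZFSet.{0}) (hf : ∀ i, f i ∈ T) :
    Rf P T E φ p f ↔ Rf (e P) (e T) (e E) φ (e p) (fun i => e (f i)) := by
  obtain ⟨θ, hθ⟩ := Rf.sat φ
  let g : ℕ → A := fun n => match n with
    | 0 => ⟨P, hPA⟩
    | 1 => ⟨T, hTA⟩
    | 2 => ⟨E, hEA⟩
    | 3 => ⟨p, hA P hPA p hp⟩
    | i + 4 => ⟨f i, hA T hTA _ (hf i)⟩
  rw [← hθ A hA P T E p f g rfl rfl rfl rfl (fun i => rfl), he.sat θ g]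
  exact hθ B hB (e P) (e T) (e E) (e p) (fun i => e (f i)) (fun i => ⟨e (g i).1, he.map _ (g i).2⟩) rfl rfl rfl
    rfl (fun i => rfl)

theorem lift_sat (hA : Tra A) (hB : Tra B) (he : Elem A B e) (hN : CTM N) (hN' : CTM N') {P T E : ZFSet.{0}}
    (hPA : P ∈ A) (hTA : T ∈ A) (hEA : E ∈ A) (hP : P ∈ N) (hT : T ∈ N) (hP' : e P ∈ N') (hT' : e T ∈ N')
    (hTc : NmCl T) (hTc' : NmCl (e T)) (hE : IsE N' (e P) (e T) (e E)) {G G' : ZFSet.{0}} (hG : Gen N P G)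
    (hG' : Gen N' (e P) G') (hGG : ∀ p ∈ P, p ∈ G ↔ e p ∈ G') (φ : Fml) (f : ℕ → ZFSet.{0}) (hf : ∀ i, f i ∈ T)
    (g : ℕ → Tx (El T) G) (hg : ∀ i, (g i).1 = vl G (f i)) (g' : ℕ → Tx (El (e T)) G')
    (hg' : ∀ i, (g' i).1 = vl G' (e (f i))) :
    Sat (SMem (Tx (El T) G)) φ g ↔ Sat (SMem (Tx (El (e T)) G')) φ g' := by
  have hRB : RecE (e P) (e T) (e E) := hE.rec' hN' hP' hT' hTc'
  have hRA : RecE P T E := by
    have h := Elem.ud he hA hB ud_RecE ⟨P, hPA⟩ ![⟨P, hPA⟩, ⟨T, hTA⟩, ⟨E, hEA⟩]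
    exact h.2 hRB
  have hEN : IsE N P T E := RecE.isE hN hP hT hTc hRA
  have hmem : ∀ τ ∈ T, e τ ∈ e T := fun τ hτ => (Elem.mem he hA hB (hA T hTA τ hτ) hTA).1 hτ
  have key : ∀ ψ : Fml, Sat (SMem (Tx (El T) G)) ψ g → Sat (SMem (Tx (El (e T)) G')) ψ g' := by
    intro ψ h
    obtain ⟨p, hpG, hp⟩ := (Rf.truth hN hP hT hTc hEN hG ψ f hf g hg).1 h
    have hpP := hG.sub p hpG
    exact (Rf.truth hN' hP' hT' hTc' hE hG' ψ (fun i => e (f i)) (fun i => hmem _ (hf i)) g' hg').2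
      ⟨e p, (hGG p hpP).1 hpG, (lift_rf hA hB he hPA hTA hEA ψ hpP f hf).1 hp⟩
  refine ⟨key φ, fun h => ?_⟩
  by_contra hn
  exact key (.imp φ .bot) (fun h' => hn h') h

theorem lift (hA : Tra A) (hB : Tra B) (he : Elem A B e) (hN : CTM N) (hN' : CTM N') {P T E : ZFSet.{0}}
    (hPA : P ∈ A) (hTA : T ∈ A) (hEA : E ∈ A) (hP : P ∈ N) (hT : T ∈ N) (hP' : e P ∈ N') (hT' : e T ∈ N')
    (hTc : NmCl T) (hTc' : NmCl (e T)) (hE : IsE N' (e P) (e T) (e E)) {G G' : ZFSet.{0}} (hG : Gen N P G)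
    (hG' : Gen N' (e P) G') (hGG : ∀ p ∈ P, p ∈ G ↔ e p ∈ G') :
    ∃ e' : ZFSet.{0} → ZFSet.{0}, (∀ τ ∈ T, e' (vl G τ) = vl G' (e τ)) ∧
      Elem (Tx (El T) G) (Tx (El (e T)) G') e' := by
  classical
  have hS := lift_sat hA hB he hN hN' hPA hTA hEA hP hT hP' hT' hTc hTc' hE hG hG' hGG
  have hmem : ∀ τ ∈ T, e τ ∈ e T := fun τ hτ => (Elem.mem he hA hB (hA T hTA τ hτ) hTA).1 hτ
  let e' : ZFSet.{0} → ZFSet.{0} := fun x => if h : ∃ τ ∈ T, x = vl G τ then vl G' (e h.choose) else ∅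
  have h1 : ∀ τ ∈ T, e' (vl G τ) = vl G' (e τ) := by
    intro τ hτ
    have h : ∃ τ' ∈ T, vl G τ = vl G τ' := ⟨τ, hτ, rfl⟩
    have h2 : e' (vl G τ) = vl G' (e h.choose) := dif_pos h
    rw [h2]
    obtain ⟨h3, h4⟩ := h.choose_spec
    generalize h.choose = τ' at h3 h4
    let f : ℕ → ZFSet.{0} := fun i => if i = 0 then τ' else τ
    have hf : ∀ i, f i ∈ T := by
      intro i
      show (if i = 0 then τ' else τ) ∈ T
      split_ifs
      · exact h3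
      · exact hτ
    have h5 := (hS (.eq 0 1) f hf (fun i => ⟨vl G (f i), f i, hf i, rfl⟩) (fun i => rfl)
      (fun i => ⟨vl G' (e (f i)), e (f i), hmem _ (hf i), rfl⟩) (fun i => rfl)).1 (Subtype.ext h4.symm)
    exact congrArg Subtype.val h5
  have hmap : ∀ x ∈ Tx (El T) G, e' x ∈ Tx (El (e T)) G' := by
    rintro x ⟨τ, hτ, rfl⟩
    rw [h1 τ hτ]
    exact ⟨e τ, hmem τ hτ, rfl⟩
  refine ⟨e', h1, hmap, fun φ f => ?_⟩
  have h6 : ∀ i, ∃ τ ∈ T, (f i).1 = vl G τ := fun i => (f i).2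
  choose t ht ht' using h6
  exact hS φ t ht f ht' _ (fun i => by
    show e' (f i).1 = vl G' (e (t i))
    rw [ht' i, h1 _ (ht i)])

end Pool.Agent.H7.IG
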