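import Pool.Agent.H7.IG.LiftD

/-!
# IG, Part 4: forced equality, characterization

`exists_E`: separation from `prod P (prod T T)` with `Frc.dfn` (or `Frc.dfn2` for the formula `v 0 = v 1`).
`IsE.rec`: the forcing theorem for the statement: (→) let `(ρ, r) ∈ σ`, `q ⊇ p, r`. For a generic `G ∋ q` (`exists_gen`)
`vl G ρ ∈ vl G σ = vl G τ`, so there is `(π, s) ∈ τ`, `s ∈ G`, `vl G ρ = vl G π`; some `q' ∈ G` containing `q`, `s` forces `ρ = π` (`Frc.truth`).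
(←) Let `G ∋ p` be generic, `z ∈ vl G σ`: `z = vl G ρ`, `(ρ, r) ∈ σ`, `r ∈ G`. By genericity (`Gen.meet`, the set of the `q'` with `∃ π s, (π, s) ∈ τ`,
`s ⊆ q'`, `E3 E q' ρ π` is dense below a common extension of `p, r` in `G`) there is such `q' ∈ G`; so `z = vl G π ∈ vl G τ`. Symmetric.
Elements of `τ` that are not pairs `(π, s)` with `s ∈ P` are irrelevant for `vl` (`G ⊆ P`).
`RecE.isE`: two relations satisfying the recursion agree: show for all `σ, τ ∈ T`, `p ∈ P`: `E3 E p σ τ ↔ E3 E' p σ τ` by induction on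
the rank of `σ` (`rank_fst_lt`); take `E'` from `exists_E` and `IsE.rec`.
`ud_RecE`: blocks of UD.lean; `E3` as `∃ u, u = (σ, τ) ∧ (p, u) ∈ E`.
-/

set_option autoImplicit false
set_option linter.unusedVariables false
set_option linter.unusedSectionVars false
set_option linter.unusedSimpArgs false
set_option linter.unusedTactic false
set_option linter.unreachableTactic false

namespace Pool.Agent.H7.IG

open Pool.Agent.H17.Omega Pool.Agent.H17.Omega.CTM Pool.Agent.H52.GX Pool.Agent.H52.GC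

/-- Equality of the values. -/
def LiftEq (N : Set ZFSet.{0}) (v : Fin 2 → N) : Prop := (v 0).1 = (v 1).1

theorem ud_LiftEq {𝒞 : Set (Set ZFSet.{0})} : UD 𝒞 LiftEq := UD.eqv (UT.var 0) (UT.var 1)

/-- `p` forces `σ = τ`. -/
def FEq (N : Set ZFSet.{0}) (P p σ τ : ZFSet.{0}) : Prop := ∀ G, Gen N P G → p ∈ G → vl G σ = vl G τ

theorem frc_LiftEq {N : Set ZFSet.{0}} {P p : ZFSet.{0}} {σ τ : N} :
    Frc N P LiftEq p ![.n σ, .n τ] ↔ FEq N P p σ.1 τ.1 := by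
  constructor
  · intro h G hG hp
    exact h G hG hp ![⟨vl G σ.1, ⟨σ.1, σ.2, rfl⟩⟩, ⟨vl G τ.1, ⟨τ.1, τ.2, rfl⟩⟩] (by
      intro i
      fin_cases i <;> rfl)
  · intro h G hG hp v hv
    have h0 : (v 0).1 = vl G σ.1 := hv 0
    have h1 : (v 1).1 = vl G τ.1 := hv 1
    show (v 0).1 = (v 1).1
    rw [h0, h1]
    exact h G hG hp

theorem exists_E {N : Set ZFSet.{0}} (hN : CTM N) {P T : ZFSet.{0}} (hP : P ∈ N) (hT : T ∈ N) :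
    ∃ E ∈ N, IsE N P T E := by
  have hmem : ZFSet.sep (fun w => ∃ p σ τ : N, p.1 ∈ P ∧ σ.1 ∈ T ∧ τ.1 ∈ T ∧
      w = ZFSet.pair p.1 (ZFSet.pair σ.1 τ.1) ∧ FEq N P p.1 σ.1 τ.1) (ZFSet.prod P (ZFSet.prod T T)) ∈ N := by
    refine hN.sep_mem ?_ (hN.prod_mem hP (hN.prod_mem hT hT))
    have h1 : hN.Dfn (fun v : Fin 1 → N => ∃ p σ τ u : N, p.1 ∈ (⟨P, hP⟩ : N).1 ∧ σ.1 ∈ (⟨T, hT⟩ : N).1 ∧
        τ.1 ∈ (⟨T, hT⟩ : N).1 ∧ u.1 = ZFSet.pair σ.1 τ.1 ∧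
        (v 0).1 = ZFSet.pair p.1 u.1 ∧ Frc N P LiftEq p.1 ![.n σ, .n τ]) := by
      (repeat' first
        | exact DT.var _ | exact DT.last | exact DT.const _ | assumption
        | refine Dfn.pairMem ?_ ?_ ?_ | refine Dfn.isPair ?_ ?_ ?_ | refine Dfn.mem ?_ ?_
        | refine Dfn.eqv ?_ ?_ | refine Dfn.eq ?_ ?_ | refine Dfn.subset ?_ ?_
        | refine Dfn.and ?_ ?_ | refine Dfn.or ?_ ?_ | refine Dfn.iff ?_ ?_ | refine Dfn.not ?_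
        | refine Dfn.imp ?_ ?_ | refine Dfn.all ?_ | refine Dfn.ex ?_ | exact Dfn.false')
      exact Frc.dfn2 ud_LiftEq hP (DT.var _) (AT.n (DT.var _)) (AT.n (DT.var _))
    refine h1.congr fun v => ?_
    constructor
    · rintro ⟨p, σ, τ, u, hp, hσ, hτ, hu, hv, hf⟩
      exact ⟨p, σ, τ, hp, hσ, hτ, by rw [hv, hu], frc_LiftEq.1 hf⟩
    · rintro ⟨p, σ, τ, hp, hσ, hτ, hv, hf⟩
      exact ⟨p, σ, τ, ⟨_, hN.pair_mem σ.2 τ.2⟩, hp, hσ, hτ, rfl, hv, frc_LiftEq.2 hf⟩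
  refine ⟨_, hmem, ?_, ?_⟩
  · intro w hw
    rw [ZFSet.mem_sep] at hw
    obtain ⟨_, p, σ, τ, hp, hσ, hτ, hw, _⟩ := hw
    exact ⟨p.1, hp, σ.1, hσ, τ.1, hτ, hw⟩
  · intro p hp σ hσ τ hτ
    have hpN : p ∈ N := hN.mem_of_mem hP hp
    have hσN : σ ∈ N := hN.mem_of_mem hT hσ
    have hτN : τ ∈ N := hN.mem_of_mem hT hτ
    rw [E3, ZFSet.mem_sep]
    constructor
    · rintro ⟨_, p', σ', τ', _, _, _, hw, hf⟩
      rw [ZFSet.pair_inj, ZFSet.pair_inj] at hw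
      obtain ⟨h1, h2, h3⟩ := hw
      rw [← h1, ← h2, ← h3] at hf
      exact hf
    · intro h
      exact ⟨ZFSet.pair_mem_prod.2 ⟨hp, ZFSet.pair_mem_prod.2 ⟨hσ, hτ⟩⟩,
        ⟨p, hpN⟩, ⟨σ, hσN⟩, ⟨τ, hτN⟩, hp, hσ, hτ, rfl, h⟩

theorem feq_half {N : Set ZFSet.{0}} (hN : CTM N) {P T : ZFSet.{0}} (hP : P ∈ N) (hT : T ∈ N)
    (hTc : NmCl T) {p σ τ : ZFSet.{0}} (hp : p ∈ P) (hσ : σ ∈ T) (hτ : τ ∈ T)
    (h : ∀ G, Gen N P G → p ∈ G → ∀ z ∈ vl G σ, z ∈ vl G τ) :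
    ∀ ρ ∈ T, ∀ r ∈ P, ZFSet.pair ρ r ∈ σ → ∀ q ∈ P, p ⊆ q → r ⊆ q →
      ∃ q' ∈ P, q ⊆ q' ∧ ∃ π ∈ T, ∃ s ∈ P, ZFSet.pair π s ∈ τ ∧ s ⊆ q' ∧ FEq N P q' ρ π := by
  intro ρ hρ r hr hρr q hq hpq hrq
  obtain ⟨G, hG, hqG⟩ := exists_gen hN hP hq
  have hpG : p ∈ G := hG.up q hqG p hp hpq
  have hrG : r ∈ G := hG.up q hqG r hr hrq
  have h1 : vl G ρ ∈ vl G τ := h G hG hpG _ (mem_vl.2 ⟨ρ, r, hrG, hρr, rfl⟩)
  obtain ⟨π, s, hsG, hπs, hπ⟩ := mem_vl.1 h1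
  have hπT : π ∈ T := hTc τ hτ π s hπs
  have hρN : ρ ∈ N := hN.mem_of_mem hT hρ
  have hπN : π ∈ N := hN.mem_of_mem hT hπT
  have h2 := (Frc.truth ud_LiftEq hN hP hG ![.n ⟨ρ, hρN⟩, .n ⟨π, hπN⟩]
    ![⟨vl G ρ, ⟨ρ, hρN, rfl⟩⟩, ⟨vl G π, ⟨π, hπN, rfl⟩⟩] (by intro i; fin_cases i <;> rfl)).1 (by
      show vl G ρ = vl G π
      exact hπ.symm)
  obtain ⟨p1, hp1, hf⟩ := h2
  obtain ⟨q1, hq1, h3, h4⟩ := hG.dir q hqG p1 hp1
  obtain ⟨q', hq', h5, h6⟩ := hG.dir q1 hq1 s hsG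
  refine ⟨q', hG.sub _ hq', fun z hz => h5 (h3 hz), π, hπT, s, hG.sub _ hsG, hπs, h6, ?_⟩
  intro G' hG' hqG'
  exact frc_LiftEq.1 hf G' hG' (hG'.up q' hqG' p1 (hG.sub _ hp1) fun z hz => h5 (h4 hz))

theorem feq_half' {N : Set ZFSet.{0}} (hN : CTM N) {P T : ZFSet.{0}} (hP : P ∈ N) (hT : T ∈ N)
    (hTc : NmCl T) {p σ τ : ZFSet.{0}} (hp : p ∈ P) (hσ : σ ∈ T) (hτ : τ ∈ T)
    (h : ∀ ρ ∈ T, ∀ r ∈ P, ZFSet.pair ρ r ∈ σ → ∀ q ∈ P, p ⊆ q → r ⊆ q →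
      ∃ q' ∈ P, q ⊆ q' ∧ ∃ π ∈ T, ∃ s ∈ P, ZFSet.pair π s ∈ τ ∧ s ⊆ q' ∧ FEq N P q' ρ π) :
    ∀ G, Gen N P G → p ∈ G → ∀ z ∈ vl G σ, z ∈ vl G τ := by
  intro G hG hpG z hz
  obtain ⟨ρ, r, hrG, hρr, rfl⟩ := mem_vl.1 hz
  have hρT : ρ ∈ T := hTc σ hσ ρ r hρr
  have hρN : ρ ∈ N := hN.mem_of_mem hT hρT
  have hτN : τ ∈ N := hN.mem_of_mem hT hτ
  obtain ⟨q0, hq0, h1, h2⟩ := hG.dir p hpG r hrG
  have hd : hN.Dfn (fun v : Fin 1 → N => ∃ π s : N, π.1 ∈ (⟨T, hT⟩ : N).1 ∧ s.1 ∈ (⟨P, hP⟩ : N).1 ∧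
      ZFSet.pair π.1 s.1 ∈ (⟨τ, hτN⟩ : N).1 ∧ s.1 ⊆ (v 0).1 ∧
      Frc N P LiftEq (v 0).1 ![.n ⟨ρ, hρN⟩, .n π]) := by
    (repeat' first
      | exact DT.var _ | exact DT.last | exact DT.const _ | assumption
      | refine Dfn.pairMem ?_ ?_ ?_ | refine Dfn.isPair ?_ ?_ ?_ | refine Dfn.mem ?_ ?_
      | refine Dfn.eqv ?_ ?_ | refine Dfn.eq ?_ ?_ | refine Dfn.subset ?_ ?_
      | refine Dfn.and ?_ ?_ | refine Dfn.or ?_ ?_ | refine Dfn.iff ?_ ?_ | refine Dfn.not ?_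
      | refine Dfn.imp ?_ ?_ | refine Dfn.all ?_ | refine Dfn.ex ?_ | exact Dfn.false')
    exact Frc.dfn2 ud_LiftEq hP (DT.var _) (AT.n (DT.const _)) (AT.n (DT.var _))
  obtain ⟨q, hqG, hq0q, π, s, hπ, hs, hπs, hsq, hf⟩ := hG.meet hN hP
    (D := fun q => ∃ π s : N, π.1 ∈ T ∧ s.1 ∈ P ∧ ZFSet.pair π.1 s.1 ∈ τ ∧ s.1 ⊆ q.1 ∧
      Frc N P LiftEq q.1 ![.n ⟨ρ, hρN⟩, .n π]) hd hq0 (by
    intro q1 hq1 h3
    obtain ⟨q', hq', h4, π, hπ, s, hs, hπs, hsq, hf⟩ := h ρ hρT r (hG.sub _ hrG) hρr q1 hq1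
      (fun z hz => h3 (h1 hz)) (fun z hz => h3 (h2 hz))
    exact ⟨⟨q', hN.mem_of_mem hP hq'⟩, hq', h4, ⟨π, hN.mem_of_mem hT hπ⟩, ⟨s, hN.mem_of_mem hP hs⟩,
      hπ, hs, hπs, hsq, frc_LiftEq.2 hf⟩)
  refine mem_vl.2 ⟨π.1, s.1, hG.up _ hqG _ hs hsq, hπs, ?_⟩
  exact (frc_LiftEq.1 hf G hG hqG).symm

theorem IsE.rec' {N : Set ZFSet.{0}} (hN : CTM N) {P T E : ZFSet.{0}} (hP : P ∈ N) (hT : T ∈ N)
    (hTc : NmCl T) (h : IsE N P T E) : RecE P T E := by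
  refine ⟨h.sub, fun p hp σ hσ τ hτ => ?_⟩
  rw [h.iff p hp σ hσ τ hτ]
  constructor
  · intro hf
    constructor
    · intro ρ hρ r hr hρr q hq hpq hrq
      obtain ⟨q', hq', h1, π, hπ, s, hs, h2, h3, h4⟩ := feq_half hN hP hT hTc hp hσ hτ
        (fun G hG hpG z hz => by rw [← hf G hG hpG]; exact hz) ρ hρ r hr hρr q hq hpq hrq
      exact ⟨q', hq', h1, π, hπ, s, hs, h2, h3, (h.iff q' hq' ρ hρ π hπ).2 h4⟩
    · intro π hπ s hs hπs q hq hpq hsq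
      obtain ⟨q', hq', h1, ρ, hρ, r, hr, h2, h3, h4⟩ := feq_half hN hP hT hTc hp hτ hσ
        (fun G hG hpG z hz => by rw [hf G hG hpG]; exact hz) π hπ s hs hπs q hq hpq hsq
      exact ⟨q', hq', h1, ρ, hρ, r, hr, h2, h3, (h.iff q' hq' ρ hρ π hπ).2
        fun G hG hqG => (h4 G hG hqG).symm⟩
  · rintro ⟨h1, h2⟩ G hG hpG
    ext z
    constructor
    · refine feq_half' hN hP hT hTc hp hσ hτ ?_ G hG hpG z
      intro ρ hρ r hr hρr q hq hpq hrq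
      obtain ⟨q', hq', h3, π, hπ, s, hs, h4, h5, h6⟩ := h1 ρ hρ r hr hρr q hq hpq hrq
      exact ⟨q', hq', h3, π, hπ, s, hs, h4, h5, (h.iff q' hq' ρ hρ π hπ).1 h6⟩
    · refine feq_half' hN hP hT hTc hp hτ hσ ?_ G hG hpG z
      intro π hπ s hs hπs q hq hpq hsq
      obtain ⟨q', hq', h3, ρ, hρ, r, hr, h4, h5, h6⟩ := h2 π hπ s hs hπs q hq hpq hsq
      exact ⟨q', hq', h3, ρ, hρ, r, hr, h4, h5, fun G hG hqG =>
        ((h.iff q' hq' ρ hρ π hπ).1 h6 G hG hqG).symm⟩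

theorem RecE.unique {P T E E' : ZFSet.{0}} (h : RecE P T E) (h' : RecE P T E') {p σ τ : ZFSet.{0}}
    (hp : p ∈ P) (hσ : σ ∈ T) (hτ : τ ∈ T) : E3 E p σ τ ↔ E3 E' p σ τ := by
  have key : ∀ α : Ordinal.{0}, ∀ σ ∈ T, σ.rank = α → ∀ τ ∈ T, ∀ p ∈ P, (E3 E p σ τ ↔ E3 E' p σ τ) := by
    intro α
    induction α using WellFoundedLT.induction with
    | ind α ih =>
      intro σ hσ hα τ hτ p hp
      rw [h.2 p hp σ hσ τ hτ, h'.2 p hp σ hσ τ hτ]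
      have h1 : ∀ ρ ∈ T, ∀ r, ZFSet.pair ρ r ∈ σ → ∀ π ∈ T, ∀ q ∈ P, (E3 E q ρ π ↔ E3 E' q ρ π) :=
        fun ρ hρ r hρr π hπ q hq => ih ρ.rank (hα ▸ rank_fst_lt hρr) ρ hρ rfl π hπ q hq
      constructor
      · rintro ⟨h2, h3⟩
        constructor
        · intro ρ hρ r hr hρr q hq hpq hrq
          obtain ⟨q', hq', h4, π, hπ, s, hs, h5, h6, h7⟩ := h2 ρ hρ r hr hρr q hq hpq hrq
          exact ⟨q', hq', h4, π, hπ, s, hs, h5, h6, (h1 ρ hρ r hρr π hπ q' hq').1 h7⟩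
        · intro π hπ s hs hπs q hq hpq hsq
          obtain ⟨q', hq', h4, ρ, hρ, r, hr, h5, h6, h7⟩ := h3 π hπ s hs hπs q hq hpq hsq
          exact ⟨q', hq', h4, ρ, hρ, r, hr, h5, h6, (h1 ρ hρ r h5 π hπ q' hq').1 h7⟩
      · rintro ⟨h2, h3⟩
        constructor
        · intro ρ hρ r hr hρr q hq hpq hrq
          obtain ⟨q', hq', h4, π, hπ, s, hs, h5, h6, h7⟩ := h2 ρ hρ r hr hρr q hq hpq hrq
          exact ⟨q', hq', h4, π, hπ, s, hs, h5, h6, (h1 ρ hρ r hρr π hπ q' hq').2 h7⟩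
        · intro π hπ s hs hπs q hq hpq hsq
          obtain ⟨q', hq', h4, ρ, hρ, r, hr, h5, h6, h7⟩ := h3 π hπ s hs hπs q hq hpq hsq
          exact ⟨q', hq', h4, ρ, hρ, r, hr, h5, h6, (h1 ρ hρ r h5 π hπ q' hq').2 h7⟩
  exact key _ σ hσ rfl τ hτ p hp

theorem RecE.isE {N : Set ZFSet.{0}} (hN : CTM N) {P T E : ZFSet.{0}} (hP : P ∈ N) (hT : T ∈ N)
    (hTc : NmCl T) (h : RecE P T E) : IsE N P T E := by
  obtain ⟨E', _, hE'⟩ := exists_E hN hP hT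
  have h' := IsE.rec' hN hP hT hTc hE'
  refine ⟨h.1, fun p hp σ hσ τ hτ => ?_⟩
  rw [h.unique h' hp hσ hτ]
  exact hE'.iff p hp σ hσ τ hτ

/-- `E3` is uniformly definable. -/
theorem ud_E3 {𝒞 : Set (Set ZFSet.{0})} [TrC 𝒞] {n : ℕ} {s t r u : (N : Set ZFSet.{0}) → (Fin n → N) → N}
    (hs : UT s) (ht : UT t) (hr : UT r) (hu : UT u) :
    UD 𝒞 (fun N v => E3 (s N v).1 (t N v).1 (r N v).1 (u N v).1) := by
  refine (UD.ex (P := fun N v x => x.1 = ZFSet.pair (r N v).1 (u N v).1 ∧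
    ZFSet.pair (t N v).1 x.1 ∈ (s N v).1) (UD.and (UD.isPair UT.last hr.lift hu.lift)
      (UD.pairMem ht.lift UT.last hs.lift))).congr fun N hN v => ?_
  constructor
  · rintro ⟨x, hx, h⟩
    rw [E3, ← hx]
    exact h
  · intro h
    have hTr := TrC.tra N hN
    have h1 := hTr _ (s N v).2 _ h
    have h2 : ({(t N v).1, ZFSet.pair (r N v).1 (u N v).1} : ZFSet.{0}) ∈ N :=
      hTr _ h1 _ (by rw [ZFSet.pair]; simp)
    have h3 : ZFSet.pair (r N v).1 (u N v).1 ∈ N := hTr _ h2 _ (by simp)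
    exact ⟨⟨_, h3⟩, rfl, h⟩

attribute [local irreducible] E3 in
theorem ud_RecE : UD TraC (fun N (v : Fin 3 → N) => RecE (v 0).1 (v 1).1 (v 2).1) := by
  refine UD.and ?_ ?_
  · have h : UD TraC (fun N (v : Fin 3 → N) => ∀ w ∈ (v 2).1, ∃ p ∈ (v 0).1, ∃ σ ∈ (v 1).1, ∃ τ ∈ (v 1).1,
        ∃ u : N, u.1 = ZFSet.pair σ τ ∧ w = ZFSet.pair p u.1) := by
      (repeat' first
        | exact UT.var _ | exact UT.last | assumption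
        | refine UD.pairMem ?_ ?_ ?_ | refine UD.isPair ?_ ?_ ?_ | refine UD.mem ?_ ?_
        | refine UD.eqv ?_ ?_ | refine UD.eq ?_ ?_ | refine UD.subset ?_ ?_
        | refine UD.and ?_ ?_ | refine UD.or ?_ ?_ | refine UD.iff ?_ ?_ | refine UD.not ?_
        | refine UD.imp ?_ ?_ | refine UD.all ?_ | refine UD.ex ?_
        | refine UD.ball ?_ ?_ | refine UD.bex ?_ ?_)
    refine h.congr fun N hN v => ?_
    constructor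
    · intro h w hw
      obtain ⟨p, hp, σ, hσ, τ, hτ, u, hu, hw'⟩ := h w hw
      exact ⟨p, hp, σ, hσ, τ, hτ, by rw [hw', hu]⟩
    · intro h w hw
      obtain ⟨p, hp, σ, hσ, τ, hτ, hw'⟩ := h w hw
      have hTr := TrC.tra N hN
      have h1 := hTr _ (v 2).2 _ hw
      rw [hw'] at h1
      have h2 : ({p, ZFSet.pair σ τ} : ZFSet.{0}) ∈ N := hTr _ h1 _ (by rw [ZFSet.pair]; simp)
      have h3 : ZFSet.pair σ τ ∈ N := hTr _ h2 _ (by simp)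
      exact ⟨p, hp, σ, hσ, τ, hτ, ⟨_, h3⟩, rfl, hw'⟩
  · (repeat' first
      | exact UT.var _ | exact UT.last | assumption
      | refine ud_E3 ?_ ?_ ?_ ?_
      | refine UD.pairMem ?_ ?_ ?_ | refine UD.isPair ?_ ?_ ?_ | refine UD.mem ?_ ?_
      | refine UD.eqv ?_ ?_ | refine UD.eq ?_ ?_ | refine UD.subset ?_ ?_
      | refine UD.and ?_ ?_ | refine UD.or ?_ ?_ | refine UD.iff ?_ ?_ | refine UD.not ?_
      | refine UD.imp ?_ ?_ | refine UD.all ?_ | refine UD.ex ?_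
      | refine UD.ball ?_ ?_ | refine UD.bex ?_ ?_)

theorem ud_NmCl : UD TraC (fun N (v : Fin 1 → N) => NmCl (v 0).1) := by
  have h : UD TraC (fun N (v : Fin 1 → N) => ∀ τ ∈ (v 0).1, ∀ σ p : N, ZFSet.pair σ.1 p.1 ∈ τ →
      σ.1 ∈ (v 0).1) := by
    (repeat' first
      | exact UT.var _ | exact UT.last | assumption
      | refine UD.pairMem ?_ ?_ ?_ | refine UD.isPair ?_ ?_ ?_ | refine UD.mem ?_ ?_
      | refine UD.imp ?_ ?_ | refine UD.all ?_ | refine UD.ex ?_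
      | refine UD.ball ?_ ?_ | refine UD.bex ?_ ?_)
  refine h.congr fun N hN v => ?_
  constructor
  · intro h τ hτ σ p hσp
    have hTr := TrC.tra N hN
    have h1 := hTr _ (hTr _ (v 0).2 _ hτ) _ hσp
    have h2 : ({σ, p} : ZFSet.{0}) ∈ N := hTr _ h1 _ (by rw [ZFSet.pair]; simp)
    exact h τ hτ ⟨σ, hTr _ h2 _ (by simp)⟩ ⟨p, hTr _ h2 _ (by simp)⟩ hσp
  · intro h τ hτ σ p hσp
    exact h τ hτ σ.1 p.1 hσp

end Pool.Agent.H7.IG
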