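import Pool.Agent.H7.IG.LiftE

/-!
# IG, Part 4: the forcing relation restricted to a set of names

`Rf P T E φ p f`: `p ∈ P` forces `φ(f)` in the structure `{vl G τ : τ ∈ T}`, defined by recursion from the relation `E` of forced
equality, by bounded quantifiers over `P` and `T` only (no reference to a model).

`Rf.sat`: uniform definability: induction on `φ` (generalize the variables: prove it for arbitrary positions: for every injective... simplest:
work with `UD`-like lemmas: for every `n`, every `s : position of p` and `g : ℕ → position`, ... as `Fc.dfn` in H52/GX/Truth does for one model; or use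
renaming `Fml.ren` to move variables: in the step `all k φ` the new element must take the place of `f k`, position `k + 4`: the formula
`∀ x_(k+4), x_(k+4) ∈ x_1 → θ_φ` works directly, since the assignment `upd g (k + 4) x` is the coding of `P, T, E, p, upd f k x`. In the step
`imp φ ψ`: `∀ q ∈ P`: the new element must take position 3: but then `p` is lost; first express `p ⊆ q`: use `∀ x_m ∈ x_0 (x_3 ⊆ x_m → ∃ x_3 (x_3 = x_m ∧ (θ_φ → θ_ψ)))`
with `m` fresh for `θ_φ`, `θ_ψ` (larger than all variables occurring; `Sat` does not depend on variables that are not free); or rename.)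
`Rf.sep`: separation in `N` for the formula of `Rf.sat`.
`IsE.uniq`, `IsE.mem`: extensionality with the clause `sub`, and `exists_E`.
-/

set_option autoImplicit false
set_option linter.unusedVariables false
set_option linter.unusedSectionVars false
set_option linter.unusedSimpArgs false
set_option linter.unusedTactic false
set_option linter.unreachableTactic false

namespace Pool.Agent.H7.IG

open Pool.Agent.H17.Omega Pool.Agent.H17.Omega.CTM Pool.Agent.H52.GX Pool.Agent.H52.GC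

/-- The forcing relation for the structure `{vl G τ : τ ∈ T}`. -/
def Rf (P T E : ZFSet.{0}) : Fml → ZFSet.{0} → (ℕ → ZFSet.{0}) → Prop
  | .mem i j, p, f => ∀ q ∈ P, p ⊆ q → ∃ q' ∈ P, q ⊆ q' ∧ ∃ π ∈ T, ∃ s ∈ P, ZFSet.pair π s ∈ f j ∧ s ⊆ q' ∧ E3 E q' (f i) π
  | .eq i j, p, f => E3 E p (f i) (f j)
  | .bot, _, _ => False
  | .imp φ ψ, p, f => ∀ q ∈ P, p ⊆ q → Rf P T E φ q f → Rf P T E ψ q f
  | .and φ ψ, p, f => Rf P T E φ p f ∧ Rf P T E ψ p f
  | .or φ ψ, p, f => ∀ q ∈ P, p ⊆ q → ∃ r ∈ P, q ⊆ r ∧ (Rf P T E φ r f ∨ Rf P T E ψ r f)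
  | .all k φ, p, f => ∀ x ∈ T, Rf P T E φ p (upd f k x)
  | .ex k φ, p, f => ∀ q ∈ P, p ⊆ q → ∃ r ∈ P, q ⊆ r ∧ ∃ x ∈ T, Rf P T E φ r (upd f k x)

theorem IsE.uniq {N : Set ZFSet.{0}} {P T E E' : ZFSet.{0}} (h : IsE N P T E) (h' : IsE N P T E') : E = E' := by
  have key : ∀ E1 E2 : ZFSet.{0}, IsE N P T E1 → IsE N P T E2 → ∀ w ∈ E1, w ∈ E2 := by
    intro E1 E2 h1 h2 w hw
    obtain ⟨p, hp, σ, hσ, τ, hτ, rfl⟩ := h1.sub w hw
    exact (h2.iff p hp σ hσ τ hτ).2 ((h1.iff p hp σ hσ τ hτ).1 hw)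
  ext w
  exact ⟨key E E' h h' w, key E' E h' h w⟩

theorem IsE.mem {N : Set ZFSet.{0}} (hN : CTM N) {P T E : ZFSet.{0}} (hP : P ∈ N) (hT : T ∈ N)
    (h : IsE N P T E) : E ∈ N := by
  obtain ⟨E', hE', h'⟩ := exists_E hN hP hT
  rw [h.uniq h']
  exact hE'

theorem liftR_ud_E3 : UD TraC (fun N (v : Fin 4 → N) => E3 (v 0).1 (v 1).1 (v 2).1 (v 3).1) := by
  refine (UD.ex (P := fun N v u => u.1 = ZFSet.pair (v 2).1 (v 3).1 ∧ ZFSet.pair (v 1).1 u.1 ∈ (v 0).1)
    ((UD.isPair UT.last (UT.var _) (UT.var _)).and (UD.pairMem (UT.var _) UT.last (UT.var _)))).congr ?_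
  intro N hN v
  constructor
  · rintro ⟨u, hu, h⟩
    rw [hu] at h
    exact h
  · intro h
    have h1 : ZFSet.pair (v 1).1 (ZFSet.pair (v 2).1 (v 3).1) ∈ N := hN _ (v 0).2 _ h
    have h2 : ({(v 1).1, ZFSet.pair (v 2).1 (v 3).1} : ZFSet.{0}) ∈ N := by
      refine hN _ h1 _ ?_
      rw [pair_eq_upair]
      simp
    have h3 : ZFSet.pair (v 2).1 (v 3).1 ∈ N := hN _ h2 _ (by simp)
    exact ⟨⟨_, h3⟩, rfl, h⟩

theorem Rf.congr {P T E : ZFSet.{0}} {φ : Fml} : ∀ {p : ZFSet.{0}} {f g : ℕ → ZFSet.{0}},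
    (∀ i < φ.bd, f i = g i) → (Rf P T E φ p f ↔ Rf P T E φ p g) := by
  have hu : ∀ (k : ℕ) (φ : Fml) (f g : ℕ → ZFSet.{0}) (x : ZFSet.{0}),
      (∀ i < max (k + 1) φ.bd, f i = g i) → ∀ i < φ.bd, upd f k x i = upd g k x i := by
    intro k φ f g x h i hi
    by_cases hk : i = k
    · subst hk; simp
    · rw [upd_ne _ _ hk, upd_ne _ _ hk]
      exact h i (lt_of_lt_of_le hi (le_max_right _ _))
  induction φ with
  | mem i j =>
    intro p f g h
    simp only [Rf]
    rw [h i (by simp [Fml.bd]), h j (by simp [Fml.bd])]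
  | eq i j =>
    intro p f g h
    simp only [Rf]
    rw [h i (by simp [Fml.bd]), h j (by simp [Fml.bd])]
  | bot => intro p f g h; rfl
  | imp φ ψ ih1 ih2 =>
    intro p f g h
    simp only [Rf]
    refine forall_congr' fun q => forall_congr' fun _ => forall_congr' fun _ => ?_
    exact imp_congr (ih1 fun i hi => h i (lt_of_lt_of_le hi (le_max_left _ _)))
      (ih2 fun i hi => h i (lt_of_lt_of_le hi (le_max_right _ _)))
  | and φ ψ ih1 ih2 =>
    intro p f g h
    exact and_congr (ih1 fun i hi => h i (lt_of_lt_of_le hi (le_max_left _ _)))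
      (ih2 fun i hi => h i (lt_of_lt_of_le hi (le_max_right _ _)))
  | or φ ψ ih1 ih2 =>
    intro p f g h
    simp only [Rf]
    refine forall_congr' fun q => forall_congr' fun _ => forall_congr' fun _ => exists_congr fun r =>
      and_congr_right fun _ => and_congr_right fun _ => ?_
    exact or_congr (ih1 fun i hi => h i (lt_of_lt_of_le hi (le_max_left _ _)))
      (ih2 fun i hi => h i (lt_of_lt_of_le hi (le_max_right _ _)))
  | all k φ ih =>
    intro p f g h
    simp only [Rf]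
    exact forall_congr' fun x => forall_congr' fun _ => ih (hu k φ f g x h)
  | ex k φ ih =>
    intro p f g h
    simp only [Rf]
    exact forall_congr' fun q => forall_congr' fun _ => forall_congr' fun _ => exists_congr fun r =>
      and_congr_right fun _ => and_congr_right fun _ => exists_congr fun x => and_congr_right fun _ =>
      ih (hu k φ f g x h)

/-- Uniform definability of the restricted forcing relation, for arbitrary positions of the variables. -/
theorem Rf.ud (φ : Fml) : ∀ {n : ℕ} {P T E p : (N : Set ZFSet.{0}) → (Fin n → N) → N}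
    {f : ℕ → (N : Set ZFSet.{0}) → (Fin n → N) → N}, UT P → UT T → UT E → UT p → (∀ i, UT (f i)) →
    UD TraC (fun N v => Rf (P N v).1 (T N v).1 (E N v).1 φ (p N v).1 (fun i => (f i N v).1)) := by
  have hupd : ∀ {n : ℕ} {f : ℕ → (N : Set ZFSet.{0}) → (Fin n → N) → N} (k : ℕ), (∀ i, UT (f i)) →
      ∀ i, UT (fun N (v : Fin (n + 1) → N) => upd (fun j => f j N (fun i => v i.castSucc)) k (v (Fin.last n)) i) := by
    intro n f k hf i
    by_cases hik : i = k
    · refine ⟨Fin.last n, fun N v => ?_⟩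
      beta_reduce
      rw [hik, upd_same]
    · obtain ⟨j, hj⟩ := (hf i).lift
      refine ⟨j, fun N v => ?_⟩
      beta_reduce
      rw [upd_ne _ _ hik]
      exact hj N v
  have hval : ∀ {N : Set ZFSet.{0}} (g : ℕ → N) (k : ℕ) (x : N),
      (fun i => (upd g k x i).1) = upd (fun i => (g i).1) k x.1 := fun {N} g k x =>
    upd_comp (fun y : N => y.1) g k x
  induction φ with
  | mem i j =>
    intro n P T E p f hP hT hE hp hf
    have hi := hf i
    have hj := hf j
    have h3 := fun m => (liftR_ud_E3.shift m)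
    refine UD.ball hP (UD.imp (UD.subset hp.lift UT.last) (UD.bex hP.lift ((UD.subset UT.last.lift UT.last).and
      (UD.bex hT.lift.lift (UD.bex hP.lift.lift.lift ((UD.pairMem UT.last.lift UT.last hj.lift.lift.lift.lift).and
      ((UD.subset UT.last UT.last.lift.lift).and ?_)))))))
    exact UD.sub4 (P := fun N a b c d => E3 a.1 b.1 c.1 d.1) liftR_ud_E3 hE.lift.lift.lift.lift UT.last.lift.lift
      hi.lift.lift.lift.lift UT.last.lift
  | eq i j =>
    intro n P T E p f hP hT hE hp hf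
    exact UD.sub4 (P := fun N a b c d => E3 a.1 b.1 c.1 d.1) liftR_ud_E3 hE hp (hf i) (hf j)
  | bot => intro n P T E p f hP hT hE hp hf; exact UD.false'
  | imp φ ψ ih1 ih2 =>
    intro n P T E p f hP hT hE hp hf
    refine UD.ball hP (UD.imp (UD.subset hp.lift UT.last) (UD.imp ?_ ?_))
    · exact ih1 hP.lift hT.lift hE.lift UT.last fun i => (hf i).lift
    · exact ih2 hP.lift hT.lift hE.lift UT.last fun i => (hf i).lift
  | and φ ψ ih1 ih2 =>
    intro n P T E p f hP hT hE hp hf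
    exact (ih1 hP hT hE hp hf).and (ih2 hP hT hE hp hf)
  | or φ ψ ih1 ih2 =>
    intro n P T E p f hP hT hE hp hf
    refine UD.ball hP (UD.imp (UD.subset hp.lift UT.last) (UD.bex hP.lift ((UD.subset UT.last.lift UT.last).and
      (UD.or ?_ ?_))))
    · exact ih1 hP.lift.lift hT.lift.lift hE.lift.lift UT.last fun i => (hf i).lift.lift
    · exact ih2 hP.lift.lift hT.lift.lift hE.lift.lift UT.last fun i => (hf i).lift.lift
  | all k φ ih =>
    intro n P T E p f hP hT hE hp hf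
    refine UD.ball (p := fun N v x => Rf (P N v).1 (T N v).1 (E N v).1 φ (p N v).1
      (upd (fun i => (f i N v).1) k x)) hT ?_
    refine (ih hP.lift hT.lift hE.lift hp.lift (hupd k hf)).congr fun N hN v => ?_
    beta_reduce
    rw [hval]
  | ex k φ ih =>
    intro n P T E p f hP hT hE hp hf
    refine UD.ball (p := fun N v q => (p N v).1 ⊆ q → ∃ r ∈ (P N v).1, q ⊆ r ∧ ∃ x ∈ (T N v).1,
      Rf (P N v).1 (T N v).1 (E N v).1 φ r (upd (fun i => (f i N v).1) k x)) hP
      (UD.imp (UD.subset hp.lift UT.last) (UD.bex hP.lift ((UD.subset UT.last.lift UT.last).and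
      (UD.bex hT.lift.lift ?_))))
    have h1 := ih hP.lift.lift.lift hT.lift.lift.lift hE.lift.lift.lift UT.last.lift
      (hupd k (fun i => (hf i).lift.lift))
    refine h1.congr fun N hN v => ?_
    beta_reduce
    rw [hval]

theorem Rf.sat (φ : Fml) : ∃ θ : Fml, ∀ (S : Set ZFSet.{0}), Tra S → ∀ (P T E p : ZFSet.{0}) (f : ℕ → ZFSet.{0}) (g : ℕ → S),
    (g 0).1 = P → (g 1).1 = T → (g 2).1 = E → (g 3).1 = p → (∀ i, (g (i + 4)).1 = f i) →
    (Sat (SMem S) θ g ↔ Rf P T E φ p f) := by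
  obtain ⟨θ, hθ⟩ := Rf.ud φ (n := φ.bd + 4) (P := fun N v => v ⟨0, by omega⟩) (T := fun N v => v ⟨1, by omega⟩)
    (E := fun N v => v ⟨2, by omega⟩) (p := fun N v => v ⟨3, by omega⟩)
    (f := fun i N v => if h : i < φ.bd then v ⟨i + 4, by omega⟩ else v ⟨0, by omega⟩)
    (UT.var _) (UT.var _) (UT.var _) (UT.var _) (fun i => by
      by_cases h : i < φ.bd
      · refine ⟨⟨i + 4, by omega⟩, fun N v => ?_⟩
        beta_reduce
        rw [dif_pos h]
      · refine ⟨⟨0, by omega⟩, fun N v => ?_⟩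
        beta_reduce
        rw [dif_neg h])
  refine ⟨θ, fun S hS P T E p f g h0 h1 h2 h3 h4 => ?_⟩
  rw [hθ S hS (fun i => g i.1) g (fun i => rfl)]
  simp only [h0, h1, h2, h3]
  refine Rf.congr fun i hi => ?_
  rw [dif_pos hi]
  exact h4 i

/-- Definability of the restricted forcing relation with parameters. -/
theorem Rf.dfn {N : Set ZFSet.{0}} (hN : CTM N) {P T E : ZFSet.{0}} (hP : P ∈ N) (hT : T ∈ N) (hE : E ∈ N)
    (φ : Fml) : ∀ {n : ℕ} {p : (Fin n → N) → N} {f : ℕ → (Fin n → N) → N}, hN.DT p → (∀ i, hN.DT (f i)) →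
    hN.Dfn (fun v => Rf P T E φ (p v).1 (fun i => (f i v).1)) := by
  have hP' : ∀ {m : ℕ}, hN.DT (fun _ : Fin m → N => (⟨P, hP⟩ : N)) := DT.const _
  have hT' : ∀ {m : ℕ}, hN.DT (fun _ : Fin m → N => (⟨T, hT⟩ : N)) := DT.const _
  have hE' : ∀ {m : ℕ}, hN.DT (fun _ : Fin m → N => (⟨E, hE⟩ : N)) := DT.const _
  have hc : N ∈ TraC := show Tra N from hN.trans
  have hupd : ∀ {n : ℕ} {f : ℕ → (Fin n → N) → N} (k : ℕ), (∀ i, hN.DT (f i)) →
      ∀ i, hN.DT (fun (v : Fin (n + 1) → N) => upd (fun j => f j (fun i => v i.castSucc)) k (v (Fin.last n)) i) := by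
    intro n f k hf i
    by_cases hik : i = k
    · obtain ⟨j, hj⟩ := DT.last (hN := hN) (n := n)
      refine ⟨j, fun v g hg => ?_⟩
      rw [hj v g hg]
      beta_reduce
      rw [hik, upd_same]
    · obtain ⟨j, hj⟩ := (hf i).lift
      refine ⟨j, fun v g hg => ?_⟩
      rw [hj v g hg]
      beta_reduce
      rw [upd_ne _ _ hik]
  have hval : ∀ (g : ℕ → N) (k : ℕ) (x : N),
      (fun i => (upd g k x i).1) = upd (fun i => (g i).1) k x.1 := fun g k x =>
    upd_comp (fun y : N => y.1) g k x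
  induction φ with
  | mem i j =>
    intro n p f hp hf
    have hi := hf i
    have hj := hf j
    refine Dfn.ballZ hP' (Dfn.imp (Dfn.subset hp.lift DT.last) (Dfn.bexZ hP' ((Dfn.subset DT.last.lift DT.last).and
      (Dfn.bexZ hT' (Dfn.bexZ hP' ((Dfn.pairMem DT.last.lift DT.last hj.lift.lift.lift.lift).and
      ((Dfn.subset DT.last DT.last.lift.lift).and ?_)))))))
    exact UD.d4 (P := fun N a b c d => E3 a.1 b.1 c.1 d.1) liftR_ud_E3 hc hE' DT.last.lift.lift
      hi.lift.lift.lift.lift DT.last.lift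
  | eq i j =>
    intro n p f hp hf
    exact UD.d4 (P := fun N a b c d => E3 a.1 b.1 c.1 d.1) liftR_ud_E3 hc hE' hp (hf i) (hf j)
  | bot => intro n p f hp hf; exact Dfn.false'
  | imp φ ψ ih1 ih2 =>
    intro n p f hp hf
    refine Dfn.ballZ hP' (Dfn.imp (Dfn.subset hp.lift DT.last) (Dfn.imp ?_ ?_))
    · exact ih1 DT.last fun i => (hf i).lift
    · exact ih2 DT.last fun i => (hf i).lift
  | and φ ψ ih1 ih2 =>
    intro n p f hp hf
    exact (ih1 hp hf).and (ih2 hp hf)
  | or φ ψ ih1 ih2 =>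
    intro n p f hp hf
    refine Dfn.ballZ hP' (Dfn.imp (Dfn.subset hp.lift DT.last) (Dfn.bexZ hP' ((Dfn.subset DT.last.lift DT.last).and
      (Dfn.or ?_ ?_))))
    · exact ih1 DT.last fun i => (hf i).lift.lift
    · exact ih2 DT.last fun i => (hf i).lift.lift
  | all k φ ih =>
    intro n p f hp hf
    refine Dfn.ballZ (p := fun v x => Rf P T E φ (p v).1 (upd (fun i => (f i v).1) k x)) hT' ?_
    refine (ih hp.lift (hupd k hf)).congr fun v => ?_
    beta_reduce
    rw [hval]
  | ex k φ ih =>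
    intro n p f hp hf
    refine Dfn.ballZ (p := fun v q => (p v).1 ⊆ q → ∃ r ∈ P, q ⊆ r ∧ ∃ x ∈ T,
      Rf P T E φ r (upd (fun i => (f i v).1) k x)) hP'
      (Dfn.imp (Dfn.subset hp.lift DT.last) (Dfn.bexZ hP' ((Dfn.subset DT.last.lift DT.last).and
      (Dfn.bexZ hT' ?_))))
    have h1 := ih DT.last.lift (hupd k (fun i => (hf i).lift.lift))
    refine h1.congr fun v => ?_
    beta_reduce
    rw [hval]

theorem Rf.sep {N : Set ZFSet.{0}} (hN : CTM N) {P T E : ZFSet.{0}} (hP : P ∈ N) (hT : T ∈ N) (hE : E ∈ N)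
    (φ : Fml) (f : ℕ → ZFSet.{0}) (hf : ∀ i, f i ∈ N) : ∃ D ∈ N, ∀ p, p ∈ D ↔ p ∈ P ∧ Rf P T E φ p f := by
  have hd : hN.Dfn (fun v : Fin 1 → N => Rf P T E φ (v 0).1 f) :=
    Rf.dfn hN hP hT hE φ (f := fun i _ => ⟨f i, hf i⟩) (DT.var 0) (fun i => DT.const _)
  obtain ⟨D, hD, h⟩ := hN.exists_sep (P := fun x : N => Rf P T E φ x.1 f) hd hP
  refine ⟨D, hD, fun p => ?_⟩
  rw [h]
  exact and_congr_right fun hp => ⟨fun ⟨_, h⟩ => h, fun h => ⟨hN.mem_of_mem hP hp, h⟩⟩

end Pool.Agent.H7.IG
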