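import Pool.Agent.H7.IG.LiftR

/-!
# IG, Part 4: truth lemma for the restricted forcing relation

`Rf.mono`: by cases/induction on `φ`; in the case `eq` use `IsE.iff`.
`Rf.truth`: as in the usual proof (H52/GX/Truth for the full forcing relation), induction on `φ`. For the connectives: let `D_φ` be the set of the `p ∈ P` with
`Rf φ p f` (in `N` by `Rf.sep`). (i) `Gen.dec`: some `p ∈ G` has `Rf φ p f` or `∀ q ⊇ p, ¬ Rf φ q f` (dense set in `N`). (ii) if `p ∈ G` and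
`D ∈ N` is dense below `p` then `G` meets `D` (`Gen.meet`, Gx1). `mem i j`: → `vl G (f i) ∈ vl G (f j)`: there is `(π, s) ∈ f j`, `s ∈ G`, `vl G π = vl G (f i)`;
`π ∈ T` by `NmCl`; some `p ∈ G` forces `f i = π` (truth lemma for `=`: `Frc.truth` and `IsE.iff`), `p' ⊇ p, s` in `G`; every `q ⊇ p'` works with `q' = q`. ←: the set of the `q'` as in the
definition is dense below `p`. `all k φ`: → if no `p ∈ G` has `Rf (all k φ) p f`, let `D` be the set of the `q` with `∃ x ∈ T, ∀ r ⊇ q, ¬ Rf φ r (upd f k x)`, or `∀ x ∈ T, Rf φ q (upd f k x)`; it is dense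
(regularity: `(∀ q ⊇ p ∃ r ⊇ q, Rf φ r) → Rf φ p`, a lemma `Rf.reg`, as `Fc.reg`) and in `N` (`Rf.sep` for the formulas `ex k (imp φ bot)`, `all k φ`: indeed `Rf (imp φ bot) q f ↔ ∀ r ⊇ q, ¬ Rf φ r f`).
-/

set_option autoImplicit false
set_option linter.unusedVariables false
set_option linter.unusedSectionVars false
set_option linter.unusedSimpArgs false
set_option linter.unusedTactic false
set_option linter.unreachableTactic false

namespace Pool.Agent.H7.IG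

open Pool.Agent.H17.Omega Pool.Agent.H17.Omega.CTM Pool.Agent.H52.GX Pool.Agent.H52.GC

/-- Definability of the satisfaction of a formula, for an assignment by terms. -/
theorem liftT_sat {M : Set ZFSet.{0}} {hM : CTM M} (θ : Fml) : ∀ {n : ℕ} (g : (Fin n → M) → ℕ → M),
    (∀ i, hM.DT (fun v => g v i)) → hM.Dfn (fun v => Sat (SMem M) θ (g v)) := by
  induction θ with
  | mem i j => intro n g hg; exact Dfn.mem (hg i) (hg j)
  | eq i j => intro n g hg; exact Dfn.eq (hg i) (hg j)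
  | bot => intro n g hg; exact Dfn.false'
  | imp φ ψ ih1 ih2 => intro n g hg; exact Dfn.imp (ih1 g hg) (ih2 g hg)
  | and φ ψ ih1 ih2 => intro n g hg; exact Dfn.and (ih1 g hg) (ih2 g hg)
  | or φ ψ ih1 ih2 => intro n g hg; exact Dfn.or (ih1 g hg) (ih2 g hg)
  | all k φ ih =>
    intro n g hg
    refine Dfn.all (P := fun v x => Sat (SMem M) φ (upd (g v) k x)) ?_
    exact ih (fun v => upd (g (fun i => v i.castSucc)) k (v (Fin.last n)))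
      (DT_upd (fun i => (hg i).lift) k DT.last)
  | ex k φ ih =>
    intro n g hg
    refine Dfn.ex (P := fun v x => Sat (SMem M) φ (upd (g v) k x)) ?_
    exact ih (fun v => upd (g (fun i => v i.castSucc)) k (v (Fin.last n)))
      (DT_upd (fun i => (hg i).lift) k DT.last)

/-- The assignment used in `Rf.sat`. -/
def liftT_enc {M : Set ZFSet.{0}} (P T E p : M) (f : ℕ → M) : ℕ → M
  | 0 => P
  | 1 => T
  | 2 => E
  | 3 => p
  | (i + 4) => f i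

/-- The restricted forcing relation is definable. -/
theorem liftT_dfn {N : Set ZFSet.{0}} {hN : CTM N} {P T E : ZFSet.{0}} (hP : P ∈ N) (hT : T ∈ N) (hE : E ∈ N)
    (φ : Fml) {n : ℕ} {s : (Fin n → N) → N} {g : (Fin n → N) → ℕ → N} (hs : hN.DT s)
    (hg : ∀ i, hN.DT (fun v => g v i)) : hN.Dfn (fun v => Rf P T E φ (s v).1 (fun i => (g v i).1)) := by
  obtain ⟨θ, hθ⟩ := Rf.sat φ
  have h := liftT_sat (hM := hN) θ
    (fun v => liftT_enc (⟨P, hP⟩ : N) ⟨T, hT⟩ ⟨E, hE⟩ (s v) (g v)) (by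
    intro i
    match i with
    | 0 => exact DT.const _
    | 1 => exact DT.const _
    | 2 => exact DT.const _
    | 3 => exact hs
    | (i + 4) => exact hg i)
  refine h.congr fun v => ?_
  exact hθ N hN.trans P T E (s v).1 (fun i => (g v i).1) _ rfl rfl rfl rfl (fun i => rfl)

section

variable {N : Set ZFSet.{0}} {P T E G : ZFSet.{0}}

theorem liftT_upd {f : ℕ → ZFSet.{0}} (hf : ∀ i, f i ∈ T) {k : ℕ} {x : ZFSet.{0}} (hx : x ∈ T) :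
    ∀ i, upd f k x i ∈ T := by
  intro i
  by_cases h : i = k
  · subst h; rw [upd_same]; exact hx
  · rw [upd_ne _ _ h]; exact hf i

theorem E3.mono (hE : IsE N P T E) {p q σ τ : ZFSet.{0}} (hp : p ∈ P) (hq : q ∈ P) (hpq : p ⊆ q)
    (hσ : σ ∈ T) (hτ : τ ∈ T) (h : E3 E p σ τ) : E3 E q σ τ := by
  rw [hE.iff q hq σ hσ τ hτ]
  intro G hG hqG
  exact (hE.iff p hp σ hσ τ hτ).1 h G hG (hG.up q hqG p hp hpq)

theorem E3.sound (hE : IsE N P T E) (hG : Gen N P G) {p σ τ : ZFSet.{0}} (hp : p ∈ G)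
    (hσ : σ ∈ T) (hτ : τ ∈ T) (h : E3 E p σ τ) : vl G σ = vl G τ :=
  (hE.iff p (hG.sub p hp) σ hσ τ hτ).1 h G hG hp

theorem liftT_udEq : UD CtmC (fun N (v : Fin 2 → N) => v 0 = v 1) :=
  ⟨.eq 0 1, fun N hN v f hf => by
    show f 0 = f 1 ↔ v 0 = v 1
    have h0 : f 0 = v 0 := hf 0
    have h1 : f 1 = v 1 := hf 1
    rw [h0, h1]⟩

theorem E3.truth (hN : CTM N) (hP : P ∈ N) (hT : T ∈ N) (hE : IsE N P T E) (hG : Gen N P G)
    {σ τ : ZFSet.{0}} (hσ : σ ∈ T) (hτ : τ ∈ T) : vl G σ = vl G τ ↔ ∃ p ∈ G, E3 E p σ τ := by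
  have hσN := hN.mem_of_mem hT hσ
  have hτN := hN.mem_of_mem hT hτ
  constructor
  · intro h
    obtain ⟨p, hp, hF⟩ := (Frc.truth liftT_udEq hN hP hG (![Ar.n ⟨σ, hσN⟩, Ar.n ⟨τ, hτN⟩])
      (![⟨vl G σ, ⟨σ, hσN, rfl⟩⟩, ⟨vl G τ, ⟨τ, hτN, rfl⟩⟩]) (by
        intro i
        fin_cases i
        · rfl
        · rfl)).1 (Subtype.ext h)
    refine ⟨p, hp, (hE.iff p (hG.sub p hp) σ hσ τ hτ).2 ?_⟩
    intro G' hG' hp'
    have := hF G' hG' hp' (![⟨vl G' σ, ⟨σ, hσN, rfl⟩⟩, ⟨vl G' τ, ⟨τ, hτN, rfl⟩⟩]) (by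
        intro i
        fin_cases i
        · rfl
        · rfl)
    exact congrArg Subtype.val this
  · rintro ⟨p, hp, h⟩
    exact E3.sound hE hG hp hσ hτ h

theorem E3.reg (hN : CTM N) (hP : P ∈ N) (hT : T ∈ N) (hE : IsE N P T E)
    {p σ τ : ZFSet.{0}} (hp : p ∈ P) (hσ : σ ∈ T) (hτ : τ ∈ T)
    (h : ∀ q ∈ P, p ⊆ q → ∃ r ∈ P, q ⊆ r ∧ E3 E r σ τ) : E3 E p σ τ := by
  rw [hE.iff p hp σ hσ τ hτ]
  intro G hG hpG
  have hEN := IsE.mem hN hP hT hE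
  have hστ : ZFSet.pair σ τ ∈ N := hN.pair_mem (hN.mem_of_mem hT hσ) (hN.mem_of_mem hT hτ)
  obtain ⟨q, hq, hpq, hD⟩ := hG.meet hN hP (D := fun q => ZFSet.pair q.1 (⟨_, hστ⟩ : N).1 ∈ (⟨E, hEN⟩ : N).1)
    (Dfn.pairMem (DT.var _) (DT.const _) (DT.const _)) hpG (by
      intro r hr hpr
      obtain ⟨s, hs, hrs, hsE⟩ := h r hr hpr
      exact ⟨⟨s, hN.mem_of_mem hP hs⟩, hs, hrs, hsE⟩)
  exact E3.sound hE hG hq hσ hτ hD

end

theorem Rf.mono {N : Set ZFSet.{0}} {P T E : ZFSet.{0}} (hE : IsE N P T E) {φ : Fml} {f : ℕ → ZFSet.{0}} (hf : ∀ i, f i ∈ T)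
    {p q : ZFSet.{0}} (hp : p ∈ P) (hq : q ∈ P) (hpq : p ⊆ q) (h : Rf P T E φ p f) : Rf P T E φ q f := by
  induction φ generalizing f with
  | mem i j => exact fun r hr hqr => h r hr (fun x hx => hqr (hpq hx))
  | eq i j => exact E3.mono hE hp hq hpq (hf i) (hf j) h
  | bot => exact h
  | imp φ ψ ih1 ih2 => exact fun r hr hqr => h r hr (fun x hx => hqr (hpq hx))
  | and φ ψ ih1 ih2 => exact ⟨ih1 hf h.1, ih2 hf h.2⟩
  | or φ ψ ih1 ih2 => exact fun r hr hqr => h r hr (fun x hx => hqr (hpq hx))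
  | all k φ ih => exact fun x hx => ih (liftT_upd hf hx) (h x hx)
  | ex k φ ih => exact fun r hr hqr => h r hr (fun x hx => hqr (hpq hx))

theorem Rf.reg {N : Set ZFSet.{0}} {P T E : ZFSet.{0}} (hN : CTM N) (hP : P ∈ N) (hT : T ∈ N)
    (hE : IsE N P T E) {φ : Fml} {f : ℕ → ZFSet.{0}} (hf : ∀ i, f i ∈ T)
    {p : ZFSet.{0}} (hp : p ∈ P) (h : ∀ q ∈ P, p ⊆ q → ∃ r ∈ P, q ⊆ r ∧ Rf P T E φ r f) :
    Rf P T E φ p f := by
  induction φ generalizing f p with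
  | mem i j =>
    intro q hq hpq
    obtain ⟨r, hr, hqr, h'⟩ := h q hq hpq
    obtain ⟨q', hq', hrq', h''⟩ := h' r hr (fun x hx => hx)
    exact ⟨q', hq', fun x hx => hrq' (hqr hx), h''⟩
  | eq i j => exact E3.reg hN hP hT hE hp (hf i) (hf j) h
  | bot =>
    obtain ⟨r, hr, hqr, h'⟩ := h p hp (fun x hx => hx)
    exact h'
  | imp φ ψ ih1 ih2 =>
    intro q hq hpq ha
    refine ih2 hf hq fun r hr hqr => ?_
    obtain ⟨s, hs, hrs, h'⟩ := h r hr (fun x hx => hqr (hpq hx))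
    exact ⟨s, hs, hrs, h' s hs (fun x hx => hx)
      (Rf.mono hE hf hq hs (fun x hx => hrs (hqr hx)) ha)⟩
  | and φ ψ ih1 ih2 =>
    refine ⟨ih1 hf hp fun q hq hpq => ?_, ih2 hf hp fun q hq hpq => ?_⟩
    · obtain ⟨r, hr, hqr, h'⟩ := h q hq hpq
      exact ⟨r, hr, hqr, h'.1⟩
    · obtain ⟨r, hr, hqr, h'⟩ := h q hq hpq
      exact ⟨r, hr, hqr, h'.2⟩
  | or φ ψ ih1 ih2 =>
    intro q hq hpq
    obtain ⟨r, hr, hqr, h'⟩ := h q hq hpq
    obtain ⟨s, hs, hrs, h''⟩ := h' r hr (fun x hx => hx)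
    exact ⟨s, hs, fun x hx => hrs (hqr hx), h''⟩
  | all k φ ih =>
    intro x hx
    refine ih (liftT_upd hf hx) hp fun q hq hpq => ?_
    obtain ⟨r, hr, hqr, h'⟩ := h q hq hpq
    exact ⟨r, hr, hqr, h' x hx⟩
  | ex k φ ih =>
    intro q hq hpq
    obtain ⟨r, hr, hqr, h'⟩ := h q hq hpq
    obtain ⟨s, hs, hrs, h''⟩ := h' r hr (fun x hx => hx)
    exact ⟨s, hs, fun x hx => hrs (hqr hx), h''⟩

/-- Generic filters decide formulas. -/
theorem Rf.decide {N : Set ZFSet.{0}} (hN : CTM N) {P T E G : ZFSet.{0}} (hP : P ∈ N) (hT : T ∈ N)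
    (hE : IsE N P T E) (hG : Gen N P G) (φ : Fml) {f : ℕ → ZFSet.{0}} (hf : ∀ i, f i ∈ T) :
    ∃ p ∈ G, Rf P T E φ p f ∨ ∀ r ∈ P, p ⊆ r → ¬ Rf P T E φ r f := by
  have hEN := IsE.mem hN hP hT hE
  have hfN : ∀ i, f i ∈ N := fun i => hN.mem_of_mem hT (hf i)
  obtain ⟨p₀, hp₀⟩ := hG.ne
  obtain ⟨q, hq, -, hD⟩ := hG.meet hN hP (D := fun q => Rf P T E φ q.1 f ∨
      ∀ r : N, r.1 ∈ (⟨P, hP⟩ : N).1 → q.1 ⊆ r.1 → ¬ Rf P T E φ r.1 f) (by
      refine Dfn.or ?_ (Dfn.all (Dfn.imp (Dfn.mem DT.last (DT.const _))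
        (Dfn.imp (Dfn.subset (DT.var 0) DT.last) (Dfn.not ?_))))
      · exact liftT_dfn hP hT hEN φ (s := fun v => v 0) (g := fun _ i => ⟨f i, hfN i⟩) (DT.var _)
          (fun i => DT.const _)
      · exact liftT_dfn hP hT hEN φ (s := fun v => v (Fin.last 1)) (g := fun _ i => ⟨f i, hfN i⟩) DT.last
          (fun i => DT.const _)) hp₀ (by
      intro r hr hpr
      by_cases h1 : ∃ q ∈ P, r ⊆ q ∧ Rf P T E φ q f
      · obtain ⟨q, hq, hrq, hR⟩ := h1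
        exact ⟨⟨q, hN.mem_of_mem hP hq⟩, hq, hrq, Or.inl hR⟩
      · refine ⟨⟨r, hN.mem_of_mem hP hr⟩, hr, fun x hx => hx, Or.inr ?_⟩
        intro w hw hrw hR
        exact h1 ⟨w.1, hw, hrw, hR⟩)
  refine ⟨q.1, hq, ?_⟩
  rcases hD with h | h
  · exact Or.inl h
  · exact Or.inr fun r hr hqr => h ⟨r, hN.mem_of_mem hP hr⟩ hr hqr

/-- Witnesses. -/
theorem Rf.witness {N : Set ZFSet.{0}} (hN : CTM N) {P T E G : ZFSet.{0}} (hP : P ∈ N) (hT : T ∈ N)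
    (hE : IsE N P T E) (hG : Gen N P G) (k : ℕ) (φ : Fml) {f : ℕ → ZFSet.{0}} (hf : ∀ i, f i ∈ T)
    {p : ZFSet.{0}} (hp : p ∈ G) (h : Rf P T E (.ex k φ) p f) :
    ∃ x ∈ T, ∃ q ∈ G, Rf P T E φ q (upd f k x) := by
  have hEN := IsE.mem hN hP hT hE
  have hfN : ∀ i, f i ∈ N := fun i => hN.mem_of_mem hT (hf i)
  have hval : ∀ x : N, (fun i => (upd (fun i => (⟨f i, hfN i⟩ : N)) k x i).1) = upd f k x.1 := fun x =>
    upd_comp (Subtype.val : N → ZFSet.{0}) (fun i => (⟨f i, hfN i⟩ : N)) k x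
  obtain ⟨q, hq, -, x, hx, hR⟩ := hG.meet hN hP (D := fun q => ∃ x : N, x.1 ∈ (⟨T, hT⟩ : N).1 ∧
      Rf P T E φ q.1 (upd f k x.1)) (by
      refine Dfn.ex (Dfn.and (Dfn.mem DT.last (DT.const _)) ?_)
      refine (liftT_dfn hP hT hEN φ (s := fun v : Fin 2 → N => v 0)
        (g := fun v => upd (fun i => (⟨f i, hfN i⟩ : N)) k (v (Fin.last 1))) (DT.var _)
        (DT_upd (g := fun _ => fun i => (⟨f i, hfN i⟩ : N)) (fun i => DT.const _) k DT.last)).congr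
        fun v => ?_
      rw [hval]
      exact Iff.rfl) hp (by
      intro r hr hpr
      obtain ⟨q, hq, hrq, x, hx, hR⟩ := h r hr hpr
      exact ⟨⟨q, hN.mem_of_mem hP hq⟩, hq, hrq, ⟨x, hN.mem_of_mem hT hx⟩, hx, hR⟩)
  exact ⟨x.1, hx, q.1, hq, hR⟩

theorem Rf.truth {N : Set ZFSet.{0}} (hN : CTM N) {P T E G : ZFSet.{0}} (hP : P ∈ N) (hT : T ∈ N)
    (hTc : NmCl T) (hE : IsE N P T E) (hG : Gen N P G) (φ : Fml) (f : ℕ → ZFSet.{0}) (hf : ∀ i, f i ∈ T)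
    (g : ℕ → Tx (El T) G) (hg : ∀ i, (g i).1 = vl G (f i)) :
    Sat (SMem (Tx (El T) G)) φ g ↔ ∃ p ∈ G, Rf P T E φ p f := by
  have hEN := IsE.mem hN hP hT hE
  have hgu : ∀ (f : ℕ → ZFSet.{0}) (g : ℕ → Tx (El T) G), (∀ i, (g i).1 = vl G (f i)) →
      ∀ (k : ℕ) (τ : ZFSet.{0}) (x : Tx (El T) G), x.1 = vl G τ →
      ∀ i, (upd g k x i).1 = vl G (upd f k τ i) := by
    intro f g hg k τ x hx i
    by_cases h : i = k
    · subst h; rw [upd_same, upd_same]; exact hx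
    · rw [upd_ne _ _ h, upd_ne _ _ h]; exact hg i
  induction φ generalizing f g with
  | mem i j =>
    show (g i).1 ∈ (g j).1 ↔ _
    rw [hg, hg]
    constructor
    · intro h
      obtain ⟨π, s, hs, hπs, hv⟩ := mem_vl.1 h
      have hπ : π ∈ T := hTc (f j) (hf j) π s hπs
      obtain ⟨p, hp, hpE⟩ := (E3.truth hN hP hT hE hG (hf i) hπ).1 hv.symm
      obtain ⟨p', hp', h1, h2⟩ := hG.dir p hp s hs
      refine ⟨p', hp', ?_⟩
      intro q hq hpq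
      exact ⟨q, hq, fun x hx => hx, π, hπ, s, hG.sub s hs, hπs, fun x hx => hpq (h2 hx),
        E3.mono hE (hG.sub p hp) hq (fun x hx => hpq (h1 hx)) (hf i) hπ hpE⟩
    · rintro ⟨p, hp, h⟩
      obtain ⟨q, hq, -, π, s, u, hπ, hs, hπs, hsq, hu, hquE⟩ := hG.meet hN hP (D := fun q =>
        ∃ π s u : N, π.1 ∈ (⟨T, hT⟩ : N).1 ∧ s.1 ∈ (⟨P, hP⟩ : N).1 ∧
          ZFSet.pair π.1 s.1 ∈ (⟨f j, hN.mem_of_mem hT (hf j)⟩ : N).1 ∧ s.1 ⊆ q.1 ∧
          u.1 = ZFSet.pair (⟨f i, hN.mem_of_mem hT (hf i)⟩ : N).1 π.1 ∧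
          ZFSet.pair q.1 u.1 ∈ (⟨E, hEN⟩ : N).1) (by
        (repeat' first
          | exact DT.var _ | exact DT.last | exact DT.const _ | assumption
          | refine Dfn.pairMem ?_ ?_ ?_ | refine Dfn.isPair ?_ ?_ ?_ | refine Dfn.mem ?_ ?_
          | refine Dfn.eqv ?_ ?_ | refine Dfn.eq ?_ ?_ | refine Dfn.subset ?_ ?_
          | refine Dfn.and ?_ ?_ | refine Dfn.ex ?_)) hp (by
        intro r hr hpr
        obtain ⟨q, hq, hrq, π, hπ, s, hs, hπs, hsq, hE3⟩ := h r hr hpr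
        exact ⟨⟨q, hN.mem_of_mem hP hq⟩, hq, hrq, ⟨π, hN.mem_of_mem hT hπ⟩,
          ⟨s, hN.mem_of_mem hP hs⟩, ⟨ZFSet.pair (f i) π, hN.pair_mem (hN.mem_of_mem hT (hf i))
            (hN.mem_of_mem hT hπ)⟩, hπ, hs, hπs, hsq, rfl, hE3⟩)
      have hE3 : E3 E q.1 (f i) π.1 := by
        unfold E3
        rw [← hu]
        exact hquE
      rw [E3.sound hE hG hq (hf i) hπ hE3]
      exact mem_vl.2 ⟨π.1, s.1, hG.up q.1 hq s.1 hs hsq, hπs, rfl⟩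
  | eq i j =>
    show g i = g j ↔ _
    rw [Subtype.ext_iff, hg, hg]
    exact E3.truth hN hP hT hE hG (hf i) (hf j)
  | bot => exact ⟨fun h => h.elim, fun ⟨p, _, h⟩ => h⟩
  | imp φ ψ ih1 ih2 =>
    constructor
    · intro h
      obtain ⟨p, hp, h1 | h1⟩ := Rf.decide hN hP hT hE hG φ hf
      · obtain ⟨q, hq, h2⟩ := (ih2 f hf g hg).1 (h ((ih1 f hf g hg).2 ⟨p, hp, h1⟩))
        exact ⟨q, hq, fun r hr hqr _ => Rf.mono hE hf (hG.sub q hq) hr hqr h2⟩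
      · exact ⟨p, hp, fun r hr hpr h2 => (h1 r hr hpr h2).elim⟩
    · rintro ⟨p, hp, h1⟩ h2
      obtain ⟨q, hq, h3⟩ := (ih1 f hf g hg).1 h2
      obtain ⟨r, hr, h4, h5⟩ := hG.dir p hp q hq
      exact (ih2 f hf g hg).2 ⟨r, hr, h1 r (hG.sub r hr) h4
        (Rf.mono hE hf (hG.sub q hq) (hG.sub r hr) h5 h3)⟩
  | and φ ψ ih1 ih2 =>
    constructor
    · rintro ⟨h1, h2⟩
      obtain ⟨p, hp, h3⟩ := (ih1 f hf g hg).1 h1
      obtain ⟨q, hq, h4⟩ := (ih2 f hf g hg).1 h2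
      obtain ⟨r, hr, h5, h6⟩ := hG.dir p hp q hq
      exact ⟨r, hr, Rf.mono hE hf (hG.sub p hp) (hG.sub r hr) h5 h3,
        Rf.mono hE hf (hG.sub q hq) (hG.sub r hr) h6 h4⟩
    · rintro ⟨p, hp, h1, h2⟩
      exact ⟨(ih1 f hf g hg).2 ⟨p, hp, h1⟩, (ih2 f hf g hg).2 ⟨p, hp, h2⟩⟩
  | or φ ψ ih1 ih2 =>
    constructor
    · rintro (h1 | h1)
      · obtain ⟨p, hp, h3⟩ := (ih1 f hf g hg).1 h1
        exact ⟨p, hp, fun q hq hpq => ⟨q, hq, fun x hx => hx,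
          Or.inl (Rf.mono hE hf (hG.sub p hp) hq hpq h3)⟩⟩
      · obtain ⟨p, hp, h3⟩ := (ih2 f hf g hg).1 h1
        exact ⟨p, hp, fun q hq hpq => ⟨q, hq, fun x hx => hx,
          Or.inr (Rf.mono hE hf (hG.sub p hp) hq hpq h3)⟩⟩
    · rintro ⟨p, hp, h1⟩
      obtain ⟨q, hq, h2 | h2⟩ := Rf.decide hN hP hT hE hG φ hf
      · exact Or.inl ((ih1 f hf g hg).2 ⟨q, hq, h2⟩)
      · obtain ⟨q', hq', h3 | h3⟩ := Rf.decide hN hP hT hE hG ψ hf
        · exact Or.inr ((ih2 f hf g hg).2 ⟨q', hq', h3⟩)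
        · exfalso
          obtain ⟨r, hr, h4, h5⟩ := hG.dir p hp q hq
          obtain ⟨r', hr', h6, h7⟩ := hG.dir r hr q' hq'
          obtain ⟨s, hs, hrs, h8 | h8⟩ := h1 r' (hG.sub r' hr') (fun x hx => h6 (h4 hx))
          · exact h2 s hs (fun x hx => hrs (h6 (h5 hx))) h8
          · exact h3 s hs (fun x hx => hrs (h7 hx)) h8
  | all k φ ih =>
    constructor
    · intro h
      obtain ⟨p, hp, h1 | h1⟩ := Rf.decide hN hP hT hE hG (.ex k (.imp φ .bot)) hf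
      · exfalso
        obtain ⟨x, hx, q, hq, h2⟩ := Rf.witness hN hP hT hE hG k (.imp φ .bot) hf hp h1
        have hxT : vl G x ∈ Tx (El T) G := ⟨x, hx, rfl⟩
        have h3 := h ⟨vl G x, hxT⟩
        obtain ⟨q', hq', h3⟩ := (ih (upd f k x) (liftT_upd hf hx) _
          (hgu f g hg k x ⟨vl G x, hxT⟩ rfl)).1 h3
        obtain ⟨r, hr, h4, h5⟩ := hG.dir q hq q' hq'
        exact h2 r (hG.sub r hr) h4 (Rf.mono hE (liftT_upd hf hx) (hG.sub q' hq') (hG.sub r hr) h5 h3)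
      · refine ⟨p, hp, fun x hx => ?_⟩
        refine Rf.reg hN hP hT hE (liftT_upd hf hx) (hG.sub p hp) fun q hq hpq => ?_
        by_contra hc
        push Not at hc
        refine h1 q hq hpq fun r hr hqr => ⟨r, hr, fun y hy => hy, x, hx, fun s hs hrs h2 => ?_⟩
        exact hc s hs (fun y hy => hrs (hqr hy)) h2
    · rintro ⟨p, hp, h1⟩ x
      obtain ⟨τ, hτ, hxτ⟩ := x.2
      exact (ih (upd f k τ) (liftT_upd hf hτ) _ (hgu f g hg k τ x hxτ)).2 ⟨p, hp, h1 τ hτ⟩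
  | ex k φ ih =>
    constructor
    · rintro ⟨x, h⟩
      obtain ⟨τ, hτ, hxτ⟩ := x.2
      obtain ⟨p, hp, h1⟩ := (ih (upd f k τ) (liftT_upd hf hτ) _ (hgu f g hg k τ x hxτ)).1 h
      exact ⟨p, hp, fun q hq hpq => ⟨q, hq, fun y hy => hy, τ, hτ,
        Rf.mono hE (liftT_upd hf hτ) (hG.sub p hp) hq hpq h1⟩⟩
    · rintro ⟨p, hp, h1⟩
      obtain ⟨x, hx, q, hq, h2⟩ := Rf.witness hN hP hT hE hG k φ hf hp h1
      have hxT : vl G x ∈ Tx (El T) G := ⟨x, hx, rfl⟩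
      exact ⟨⟨vl G x, hxT⟩, (ih (upd f k x) (liftT_upd hf hx) _
        (hgu f g hg k x ⟨vl G x, hxT⟩ rfl)).2 ⟨q, hq, h2⟩⟩

end Pool.Agent.H7.IG
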