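import Pool.Agent.H7.IG.SideCa

/-!
# IG, Part 1: inaccessible `κ`, transitive nodes closed under functions

`exists_tr_closed`: recursion of length `δ = ω₁` (`exists_rec` / `exists_dep` with values in `κ`): `o_ξ < κ` increasing such that for
`z` of rank `< sup_{η<ξ} o_η` with a witness `w` of rank `< κ` there is one of rank `< o_ξ` (bounds exist because `V_α` has size `< κ` and
`κ` is regular, `Inac.str`, `Inac.reg`); `o = sup o_ξ` has cofinality `ω₁`: `UCof M o`.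
`tr_add`: `α + δ` is a transitive node for `α < κ`.
-/

set_option autoImplicit false
set_option linter.unusedVariables false
set_option linter.unusedSectionVars false
set_option linter.unusedSimpArgs false
set_option linter.unusedTactic false
set_option linter.unreachableTactic false

namespace Pool.Agent.H7.IG

open Pool.Agent.H17.Omega Pool.Agent.H17.Omega.CTM Pool.Agent.H52.GX Pool.Agent.H52.GC

variable {M : Set ZFSet.{0}} (hM : CTM M) {κ : Ordinal.{0}} (hκ : Inac M κ)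

include hM hκ

omit hκ in
/-- values of a definable function on a set of size below `κ` are bounded below `κ` -/
theorem cb_reg (hreg : RegC M κ) {α : Ordinal.{0}} (hα : α < κ) {R : M → M → Prop}
    (hR : hM.Dfn (fun v : Fin 2 → M => R (v 0) (v 1))) {A : ZFSet.{0}} (hA : A ∈ M)
    (hc : Cvr M α.toZFSet A) (huni : ∀ a : M, a.1 ∈ A → ∀ b b' : M, R a b → R a b' → b = b') :
    ∃ β < κ, ∀ a b : M, a.1 ∈ A → b.1 ∈ κ.toZFSet → R a b → b.1 ∈ β.toZFSet := by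
  have hκM := hreg.1
  obtain ⟨x, hx, hx'⟩ := hM.exists_sep (P := fun b => ∃ a : M, a.1 ∈ (⟨A, hA⟩ : M).1 ∧ R a b) (by
    (repeat' first
      | exact DT.var _ | exact DT.last | exact DT.const _ | assumption
      | refine Dfn.pairMem ?_ ?_ ?_ | refine Dfn.isPair ?_ ?_ ?_ | refine Dfn.mem ?_ ?_
      | refine Dfn.eqv ?_ ?_ | refine Dfn.eq ?_ ?_ | refine Dfn.subset ?_ ?_
      | refine Dfn.isEmpty ?_ | refine Dfn.isTrans ?_ | refine Dfn.isOrd ?_ | refine Dfn.isNat ?_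
      | refine Dfn.isUpair ?_ ?_ ?_ | refine Dfn.isInsert ?_ ?_ ?_
      | refine Dfn.and ?_ ?_ | refine Dfn.or ?_ ?_ | refine Dfn.iff ?_ ?_ | refine Dfn.not ?_
      | refine Dfn.imp ?_ ?_ | refine Dfn.all ?_ | refine Dfn.ex ?_ | exact Dfn.false'
      | refine Dfn.ballZ ?_ ?_ | refine Dfn.bexZ ?_ ?_ | exact Dfn.const _)
    exact Dfn.subst2 hR (DT.var _) (DT.var _)) hκM
  have h1 : Cvr M A x := by
    refine cvr_of_dfn hM hR hA hx huni fun b hb => ?_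
    obtain ⟨_, _, a, ha, hab⟩ := (hx' _).1 hb
    exact ⟨a, ha, hab⟩
  have h2 : Cvr M α.toZFSet x :=
    Cvr.trans hM (hM.toZFSet_mem_of_le hα.le hκM) hA hx hc h1
  obtain ⟨β, hβ, h3⟩ := hreg.2 α hα x hx (fun z hz => ((hx' z).1 hz).1) h2
  exact ⟨β, hβ, fun a b ha hb hab => h3 ((hx' _).2 ⟨hb, b.2, a, ha, hab⟩)⟩

/-- `b` bounds the ranks of witnesses for the sets of rank below `v` -/
def CbGood (κ : Ordinal.{0}) (Φ : M → M → Prop) (v b : M) : Prop :=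
  v.1 ∈ b.1 ∧ ∀ z w rz rw' : M, rz.1 = z.1.rank.toZFSet → rw'.1 = w.1.rank.toZFSet →
    rz.1 ∈ v.1 → rw'.1 ∈ κ.toZFSet → Φ z w →
    ∃ w' rw'' : M, rw''.1 = w'.1.rank.toZFSet ∧ rw''.1 ∈ b.1 ∧ Φ z w'

omit hκ in
theorem cbGood_dfn (hκM : κ.toZFSet ∈ M) {Φ : M → M → Prop}
    (hΦ : hM.Dfn (fun v : Fin 2 → M => Φ (v 0) (v 1))) :
    hM.Dfn (fun v : Fin 2 → M => CbGood κ Φ (v 0) (v 1)) := by
  have hrk := dfn_rank hM
  show hM.Dfn (fun v : Fin 2 → M => (v 0).1 ∈ (v 1).1 ∧ ∀ z w rz rw' : M,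
    rz.1 = z.1.rank.toZFSet → rw'.1 = w.1.rank.toZFSet →
    rz.1 ∈ (v 0).1 → rw'.1 ∈ (⟨κ.toZFSet, hκM⟩ : M).1 → Φ z w →
    ∃ w' rw'' : M, rw''.1 = w'.1.rank.toZFSet ∧ rw''.1 ∈ (v 1).1 ∧ Φ z w')
  (repeat' first
      | exact DT.var _ | exact DT.last | exact DT.const _ | assumption
      | refine Dfn.pairMem ?_ ?_ ?_ | refine Dfn.isPair ?_ ?_ ?_ | refine Dfn.mem ?_ ?_
      | refine Dfn.eqv ?_ ?_ | refine Dfn.eq ?_ ?_ | refine Dfn.subset ?_ ?_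
      | refine Dfn.isEmpty ?_ | refine Dfn.isTrans ?_ | refine Dfn.isOrd ?_ | refine Dfn.isNat ?_
      | refine Dfn.isUpair ?_ ?_ ?_ | refine Dfn.isInsert ?_ ?_ ?_
      | refine Dfn.and ?_ ?_ | refine Dfn.or ?_ ?_ | refine Dfn.iff ?_ ?_ | refine Dfn.not ?_
      | refine Dfn.imp ?_ ?_ | refine Dfn.all ?_ | refine Dfn.ex ?_ | exact Dfn.false'
      | refine Dfn.ballZ ?_ ?_ | refine Dfn.bexZ ?_ ?_ | exact Dfn.const _)
  all_goals first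
    | exact Dfn.subst2 (P := fun x y => y.1 = x.1.rank.toZFSet) hrk (DT.var _) (DT.var _)
    | exact Dfn.subst2 hΦ (DT.var _) (DT.var _)

theorem cbGood_exists {Φ : M → M → Prop}
    (hΦ : hM.Dfn (fun v : Fin 2 → M => Φ (v 0) (v 1))) {γ : Ordinal.{0}} (hγ : γ < κ) :
    ∃ β < κ, ∀ v b : M, v.1 = γ.toZFSet → b.1 = β.toZFSet → CbGood κ Φ v b := by
  have hκM := hκ.mem
  have hγM := hM.toZFSet_mem_of_le hγ.le hκM
  obtain ⟨K, hK, hK'⟩ := exists_Lv hM hγM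
  obtain ⟨β₀, hβ₀, hβ₀'⟩ := hκ.str γ hγ
  have hc := hβ₀' K hK (fun x hx => (hK' x).1 hx)
  have hrk := dfn_rank hM
  obtain ⟨β₁, hβ₁, hβ₁'⟩ := cb_reg hM hκ.reg hβ₀ (R := fun z b =>
    (b.1 ∈ (⟨κ.toZFSet, hκM⟩ : M).1 ∧ ∃ w : M, b.1 = w.1.rank.toZFSet ∧ Φ z w) ∧
      ∀ b' : M, b'.1 ∈ b.1 → ¬ ∃ w : M, b'.1 = w.1.rank.toZFSet ∧ Φ z w) (by
    (repeat' first
      | exact DT.var _ | exact DT.last | exact DT.const _ | assumption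
      | refine Dfn.pairMem ?_ ?_ ?_ | refine Dfn.isPair ?_ ?_ ?_ | refine Dfn.mem ?_ ?_
      | refine Dfn.eqv ?_ ?_ | refine Dfn.eq ?_ ?_ | refine Dfn.subset ?_ ?_
      | refine Dfn.isEmpty ?_ | refine Dfn.isTrans ?_ | refine Dfn.isOrd ?_ | refine Dfn.isNat ?_
      | refine Dfn.isUpair ?_ ?_ ?_ | refine Dfn.isInsert ?_ ?_ ?_
      | refine Dfn.and ?_ ?_ | refine Dfn.or ?_ ?_ | refine Dfn.iff ?_ ?_ | refine Dfn.not ?_
      | refine Dfn.imp ?_ ?_ | refine Dfn.all ?_ | refine Dfn.ex ?_ | exact Dfn.false'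
      | refine Dfn.ballZ ?_ ?_ | refine Dfn.bexZ ?_ ?_ | exact Dfn.const _)
    all_goals first
      | exact Dfn.subst2 (P := fun x y => y.1 = x.1.rank.toZFSet) hrk (DT.var _) (DT.var _)
      | exact Dfn.subst2 hΦ (DT.var _) (DT.var _)) hK hc (by
    rintro z hz b b' ⟨⟨h1, h2⟩, h3⟩ ⟨⟨h1', h2'⟩, h3'⟩
    obtain ⟨c, hc, hcb⟩ := Ordinal.mem_toZFSet_iff.1 h1
    obtain ⟨c', hc', hcb'⟩ := Ordinal.mem_toZFSet_iff.1 h1'
    rcases lt_trichotomy c c' with h | h | h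
    · exact (h3' b (by rw [← hcb, ← hcb']; exact Ordinal.toZFSet_mem_toZFSet_iff.2 h) h2).elim
    · exact Subtype.ext (by rw [← hcb, ← hcb', h])
    · exact (h3 b' (by rw [← hcb, ← hcb']; exact Ordinal.toZFSet_mem_toZFSet_iff.2 h) h2').elim)
  refine ⟨max β₁ (Order.succ γ), max_lt hβ₁ (hκ.lim γ hγ), fun v b hv hb => ⟨?_, ?_⟩⟩
  · rw [hv, hb]
    exact Ordinal.toZFSet_mem_toZFSet_iff.2 (lt_of_lt_of_le (Order.lt_succ γ) (le_max_right _ _))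
  · intro z w rz rw' h1 h2 h3 h4 h5
    rw [h2] at h4
    have h4' := Ordinal.toZFSet_mem_toZFSet_iff.1 h4
    rw [h1, hv] at h3
    have h3' := Ordinal.toZFSet_mem_toZFSet_iff.1 h3
    -- the least rank of a witness
    have hne : {ρ : Ordinal.{0} | ∃ w : M, ρ = w.1.rank ∧ Φ z w}.Nonempty := ⟨_, w, rfl, h5⟩
    obtain ⟨w', h6, h7⟩ := csInf_mem hne
    have h8 : sInf {ρ : Ordinal.{0} | ∃ w : M, ρ = w.1.rank ∧ Φ z w} ≤ w.1.rank :=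
      csInf_le (OrderBot.bddBelow _) ⟨w, rfl, h5⟩
    rw [h6] at h8
    have h9 := hβ₁' z ⟨_, hM.rank_mem w'.2⟩ ((hK' _).2 ⟨z.2, h3'⟩)
      (Ordinal.toZFSet_mem_toZFSet_iff.2 (h8.trans_lt h4')) (by
        refine ⟨⟨Ordinal.toZFSet_mem_toZFSet_iff.2 (h8.trans_lt h4'), w', rfl, h7⟩, ?_⟩
        rintro b' hb' ⟨w'', h10, h11⟩
        rw [h10] at hb'
        have h12 := Ordinal.toZFSet_mem_toZFSet_iff.1 hb'
        rw [← h6] at h12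
        exact notMem_of_lt_csInf h12 (OrderBot.bddBelow _) ⟨w'', rfl, h11⟩)
    refine ⟨w', ⟨_, hM.rank_mem w'.2⟩, rfl, ?_, h7⟩
    rw [hb]
    exact Ordinal.toZFSet_mem_toZFSet_iff.2
      (lt_of_lt_of_le (Ordinal.toZFSet_mem_toZFSet_iff.1 h9) (le_max_left _ _))

theorem exists_tr_closed {Φ : M → M → Prop} (hΦ : hM.Dfn (fun v : Fin 2 → M => Φ (v 0) (v 1)))
    {α : Ordinal.{0}} (hα : α < κ) : ∃ o, TrO M κ o ∧ α < o ∧
      ∀ z w : M, z.1.rank < o → w.1.rank < κ → Φ z w → ∃ w' : M, w'.1.rank < o ∧ Φ z w' := by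
  have hκM := hκ.mem
  have hαM := hM.toZFSet_mem_of_le hα.le hκM
  have hrk := dfn_rank hM
  have hG := cbGood_dfn hM hκM hΦ
  obtain ⟨δ, hδκ, hδ⟩ := hκ.om
  have hδM := hδ.mem
  -- the function `f`
  obtain ⟨f, hf, hfn, hf'⟩ := exists_fn hM (F := fun v b => CbGood κ Φ v b ∧
    ∀ b' : M, b'.1 ∈ b.1 → ¬ CbGood κ Φ v b') (by
    refine Dfn.and ?_ (Dfn.all (Dfn.imp (Dfn.mem (DT.var _) (DT.var _)) (Dfn.not ?_)))
    · exact Dfn.subst2 hG (DT.var _) (DT.var _)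
    · exact Dfn.subst2 hG (DT.var _) (DT.var _)) hκM hκM (by
    intro v hv
    obtain ⟨γ, hγ, hγv⟩ := Ordinal.mem_toZFSet_iff.1 hv
    obtain ⟨β, hβ, hβ'⟩ := cbGood_exists hM hκ hΦ hγ
    have hne : {β : Ordinal.{0} | β < κ ∧ ∀ b : M, b.1 = β.toZFSet → CbGood κ Φ v b}.Nonempty :=
      ⟨β, hβ, fun b hb => hβ' v b hγv.symm hb⟩
    have h1 := csInf_mem hne
    set β₀ := sInf {β : Ordinal.{0} | β < κ ∧ ∀ b : M, b.1 = β.toZFSet → CbGood κ Φ v b}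
    have hβ₀M := hM.toZFSet_mem_of_le h1.1.le hκM
    refine ⟨⟨_, hβ₀M⟩, Ordinal.toZFSet_mem_toZFSet_iff.2 h1.1, ⟨h1.2 _ rfl, ?_⟩, ?_⟩
    · intro b' hb' hg
      obtain ⟨c, hc, hcb⟩ := Ordinal.mem_toZFSet_iff.1 hb'
      refine notMem_of_lt_csInf hc (OrderBot.bddBelow _) ⟨hc.trans h1.1, fun b hb => ?_⟩
      have : b = b' := Subtype.ext (hb.trans hcb)
      rw [this]; exact hg
    · rintro y' hy' ⟨h2, h3⟩
      obtain ⟨c, hc, hcy⟩ := Ordinal.mem_toZFSet_iff.1 hy'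
      rcases lt_trichotomy c β₀ with h | h | h
      · exfalso
        refine notMem_of_lt_csInf h (OrderBot.bddBelow _) ⟨hc, fun b hb => ?_⟩
        have : b = y' := Subtype.ext (hb.trans hcy)
        rw [this]; exact h2
      · exact Subtype.ext (by rw [← hcy, h])
      · exfalso
        exact h3 ⟨_, hβ₀M⟩ (by rw [← hcy]; exact Ordinal.toZFSet_mem_toZFSet_iff.2 h) (h1.2 _ rfl))
  have hfv : ∀ γ < κ, ∃ β < κ, γ < β ∧ ZFSet.pair γ.toZFSet β.toZFSet ∈ f ∧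
      ∀ v b : M, v.1 = γ.toZFSet → b.1 = β.toZFSet → CbGood κ Φ v b := by
    intro γ hγ
    have hγM := hM.toZFSet_mem_of_le hγ.le hκM
    obtain ⟨y, hy, hγy⟩ := hfn.tot _ (Ordinal.toZFSet_mem_toZFSet_iff.2 hγ)
    obtain ⟨β, hβ, rfl⟩ := Ordinal.mem_toZFSet_iff.1 hy
    have hβM := hM.toZFSet_mem_of_le hβ.le hκM
    have h1 := ((hf' ⟨_, hγM⟩ ⟨_, hβM⟩).1 hγy).2.2.1
    refine ⟨β, hβ, Ordinal.toZFSet_mem_toZFSet_iff.1 h1.1, hγy, fun v b hv hb => ?_⟩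
    have e1 : v = ⟨_, hγM⟩ := Subtype.ext hv
    have e2 : b = ⟨_, hβM⟩ := Subtype.ext hb
    rw [e1, e2]; exact h1
  -- the recursion
  obtain ⟨g, hgn, hg'⟩ := exists_dep hM (Φ := fun r y => (⟨α.toZFSet, hαM⟩ : M).1 ∈ y.1 ∧
    ∀ x v b : M, ZFSet.pair x.1 v.1 ∈ r.1 → ZFSet.pair v.1 b.1 ∈ (⟨f, hf⟩ : M).1 → b.1 ∈ y.1) (by
    (repeat' first
      | exact DT.var _ | exact DT.last | exact DT.const _ | assumption
      | refine Dfn.pairMem ?_ ?_ ?_ | refine Dfn.isPair ?_ ?_ ?_ | refine Dfn.mem ?_ ?_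
      | refine Dfn.eqv ?_ ?_ | refine Dfn.eq ?_ ?_ | refine Dfn.subset ?_ ?_
      | refine Dfn.isEmpty ?_ | refine Dfn.isTrans ?_ | refine Dfn.isOrd ?_ | refine Dfn.isNat ?_
      | refine Dfn.isUpair ?_ ?_ ?_ | refine Dfn.isInsert ?_ ?_ ?_
      | refine Dfn.and ?_ ?_ | refine Dfn.or ?_ ?_ | refine Dfn.iff ?_ ?_ | refine Dfn.not ?_
      | refine Dfn.imp ?_ ?_ | refine Dfn.all ?_ | refine Dfn.ex ?_ | exact Dfn.false'
      | refine Dfn.ballZ ?_ ?_ | refine Dfn.bexZ ?_ ?_ | exact Dfn.const _)) hδM hκM (by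
    intro ξ hξ g hgn _
    obtain ⟨β, hβ, hβ'⟩ := cb_reg hM hκ.reg (hξ.trans hδκ) (R := fun x b => ∃ v : M,
      ZFSet.pair x.1 v.1 ∈ g.1 ∧ ZFSet.pair v.1 b.1 ∈ (⟨f, hf⟩ : M).1) (by
      (repeat' first
      | exact DT.var _ | exact DT.last | exact DT.const _ | assumption
      | refine Dfn.pairMem ?_ ?_ ?_ | refine Dfn.isPair ?_ ?_ ?_ | refine Dfn.mem ?_ ?_
      | refine Dfn.eqv ?_ ?_ | refine Dfn.eq ?_ ?_ | refine Dfn.subset ?_ ?_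
      | refine Dfn.isEmpty ?_ | refine Dfn.isTrans ?_ | refine Dfn.isOrd ?_ | refine Dfn.isNat ?_
      | refine Dfn.isUpair ?_ ?_ ?_ | refine Dfn.isInsert ?_ ?_ ?_
      | refine Dfn.and ?_ ?_ | refine Dfn.or ?_ ?_ | refine Dfn.iff ?_ ?_ | refine Dfn.not ?_
      | refine Dfn.imp ?_ ?_ | refine Dfn.all ?_ | refine Dfn.ex ?_ | exact Dfn.false'
      | refine Dfn.ballZ ?_ ?_ | refine Dfn.bexZ ?_ ?_ | exact Dfn.const _)) (hM.toZFSet_mem_of_le hξ.le hδM) (cvr_of_subset hM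
        (hM.toZFSet_mem_of_le hξ.le hδM) (fun z hz => hz)) (by
      rintro x hx b b' ⟨v, h1, h2⟩ ⟨v', h1', h2'⟩
      have e : v = v' := Subtype.ext ((hgn.ap_eq h1).symm.trans (hgn.ap_eq h1'))
      subst e
      exact Subtype.ext ((hfn.ap_eq h2).symm.trans (hfn.ap_eq h2')))
    have hm : max β (Order.succ α) < κ := max_lt hβ (hκ.lim α hα)
    refine ⟨⟨_, hM.toZFSet_mem_of_le hm.le hκM⟩, Ordinal.toZFSet_mem_toZFSet_iff.2 hm,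
      Ordinal.toZFSet_mem_toZFSet_iff.2 (lt_of_lt_of_le (Order.lt_succ α) (le_max_right _ _)), ?_⟩
    intro x v b hxv hvb
    obtain ⟨x', hx', v', hv', h1⟩ := hgn.sub _ hxv
    obtain ⟨v'', hv'', b', hb', h2⟩ := hfn.sub _ hvb
    rw [ZFSet.pair_inj] at h1 h2
    have h3 := hβ' x b (h1.1 ▸ hx') (h2.2 ▸ hb') ⟨v, hxv, hvb⟩
    exact Ordinal.toZFSet_subset_toZFSet_iff.2 (le_max_left _ _) h3)
  -- values of `g`
  have hgv : ∀ ξ < δ, ∃ γ < κ, ZFSet.pair ξ.toZFSet γ.toZFSet ∈ g.1 := by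
    intro ξ hξ
    obtain ⟨y, hy, hξy⟩ := hgn.tot _ (Ordinal.toZFSet_mem_toZFSet_iff.2 hξ)
    obtain ⟨γ, hγ, rfl⟩ := Ordinal.mem_toZFSet_iff.1 hy
    exact ⟨γ, hγ, hξy⟩
  choose! G hGκ hGg using hgv
  have hGu : ∀ ξ < δ, ∀ y, ZFSet.pair ξ.toZFSet y ∈ g.1 → y = (G ξ).toZFSet := fun ξ hξ y hy =>
    (hgn.ap_eq hy).symm.trans (hgn.ap_eq (hGg ξ hξ))
  have hstep : ∀ ξ < δ, α < G ξ ∧ ∀ η < ξ, ∀ β : Ordinal.{0},
      ZFSet.pair (G η).toZFSet β.toZFSet ∈ f → β < G ξ := by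
    intro ξ hξ
    have hξM := hM.toZFSet_mem_of_le hξ.le hδM
    have hGM := hM.toZFSet_mem_of_le (hGκ ξ hξ).le hκM
    obtain ⟨h1, h2⟩ := hg' ξ hξ ⟨_, rs_mem hM g.2 hξM⟩ ⟨_, hGM⟩ rfl (hGg ξ hξ)
    refine ⟨Ordinal.toZFSet_mem_toZFSet_iff.1 h1, fun η hη β hβ => ?_⟩
    have hη' := hη.trans hξ
    have hηM := hM.toZFSet_mem_of_le hη'.le hδM
    have hGM' := hM.toZFSet_mem_of_le (hGκ η hη').le hκM
    have hβM := (hM.of_pair_mem (hM.mem_of_mem hf hβ)).2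
    exact Ordinal.toZFSet_mem_toZFSet_iff.1 (h2 ⟨_, hηM⟩ ⟨_, hGM'⟩ ⟨_, hβM⟩
      (pair_mem_rs.2 ⟨Ordinal.toZFSet_mem_toZFSet_iff.2 hη, hGg η hη'⟩) hβ)
  have hmono : ∀ ξ < δ, ∀ η < ξ, G η < G ξ := by
    intro ξ hξ η hη
    obtain ⟨β, hβ, h1, h2, -⟩ := hfv (G η) (hGκ η (hη.trans hξ))
    exact h1.trans ((hstep ξ hξ).2 η hη β h2)
  -- the supremum
  obtain ⟨β₀, hβ₀, hβ₀'⟩ := cb_reg hM hκ.reg hδκ (R := fun x v => ZFSet.pair x.1 v.1 ∈ g.1) (by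
    (repeat' first
      | exact DT.var _ | exact DT.last | exact DT.const _ | assumption
      | refine Dfn.pairMem ?_ ?_ ?_ | refine Dfn.isPair ?_ ?_ ?_ | refine Dfn.mem ?_ ?_
      | refine Dfn.eqv ?_ ?_ | refine Dfn.eq ?_ ?_ | refine Dfn.subset ?_ ?_
      | refine Dfn.isEmpty ?_ | refine Dfn.isTrans ?_ | refine Dfn.isOrd ?_ | refine Dfn.isNat ?_
      | refine Dfn.isUpair ?_ ?_ ?_ | refine Dfn.isInsert ?_ ?_ ?_
      | refine Dfn.and ?_ ?_ | refine Dfn.or ?_ ?_ | refine Dfn.iff ?_ ?_ | refine Dfn.not ?_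
      | refine Dfn.imp ?_ ?_ | refine Dfn.all ?_ | refine Dfn.ex ?_ | exact Dfn.false'
      | refine Dfn.ballZ ?_ ?_ | refine Dfn.bexZ ?_ ?_ | exact Dfn.const _)) hδM (cvr_of_subset hM hδM (fun z hz => hz)) (by
    intro x hx b b' h1 h2
    exact Subtype.ext ((hgn.ap_eq h1).symm.trans (hgn.ap_eq h2)))
  have hne : {o : Ordinal.{0} | ∀ ξ < δ, G ξ < o}.Nonempty := by
    refine ⟨β₀, fun ξ hξ => ?_⟩
    have h1 := hβ₀' ⟨_, hM.toZFSet_mem_of_le hξ.le hδM⟩ ⟨_, hM.toZFSet_mem_of_le (hGκ ξ hξ).le hκM⟩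
      (Ordinal.toZFSet_mem_toZFSet_iff.2 hξ) (Ordinal.toZFSet_mem_toZFSet_iff.2 (hGκ ξ hξ)) (hGg ξ hξ)
    exact Ordinal.toZFSet_mem_toZFSet_iff.1 h1
  have hβ₀mem : β₀ ∈ {o : Ordinal.{0} | ∀ ξ < δ, G ξ < o} := by
    intro ξ hξ
    have h1 := hβ₀' ⟨_, hM.toZFSet_mem_of_le hξ.le hδM⟩ ⟨_, hM.toZFSet_mem_of_le (hGκ ξ hξ).le hκM⟩
      (Ordinal.toZFSet_mem_toZFSet_iff.2 hξ) (Ordinal.toZFSet_mem_toZFSet_iff.2 (hGκ ξ hξ)) (hGg ξ hξ)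
    exact Ordinal.toZFSet_mem_toZFSet_iff.1 h1
  have ho1 := csInf_mem hne
  have ho2 : sInf {o : Ordinal.{0} | ∀ ξ < δ, G ξ < o} ≤ β₀ := csInf_le (OrderBot.bddBelow _) hβ₀mem
  have ho3 : ∀ γ < sInf {o : Ordinal.{0} | ∀ ξ < δ, G ξ < o}, ∃ ξ < δ, γ < G ξ := by
    intro γ hγ
    have h1 := notMem_of_lt_csInf hγ (OrderBot.bddBelow _)
    rw [Set.mem_setOf_eq] at h1
    push Not at h1
    obtain ⟨ξ, hξ, h2⟩ := h1
    have h3 : ξ + 1 < δ := hδ.succ_lt hM hξ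
    exact ⟨ξ + 1, h3, h2.trans_lt (hmono _ h3 ξ (by rw [← Order.succ_eq_add_one]; exact Order.lt_succ ξ))⟩
  generalize sInf {o : Ordinal.{0} | ∀ ξ < δ, G ξ < o} = o at ho1 ho2 ho3
  have hoκ : o < κ := ho2.trans_lt hβ₀
  have h0δ : (0 : Ordinal.{0}) < δ := by simpa using hδ.omega_lt hM 0
  have hαo : α < o := (hstep 0 h0δ).1.trans (ho1 0 h0δ)
  refine ⟨o, ⟨hM.toZFSet_mem_of_le hoκ.le hκM, hoκ, lt_of_le_of_lt bot_le hαo, ?_, ?_⟩, hαo, ?_⟩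
  · intro γ hγ
    obtain ⟨ξ, hξ, h1⟩ := ho3 γ hγ
    exact (Order.succ_le_of_lt h1).trans_lt (ho1 ξ hξ)
  · -- cofinality
    intro x hx hxc hxo
    let H : M → M → Prop := fun y ξ => ∃ v r : M, r.1 = y.1.rank.toZFSet ∧
      ZFSet.pair ξ.1 v.1 ∈ g.1 ∧ r.1 ∈ v.1
    have hH : hM.Dfn (fun v : Fin 2 → M => H (v 0) (v 1)) := by
      show hM.Dfn (fun u : Fin 2 → M => ∃ v r : M, r.1 = (u 0).1.rank.toZFSet ∧
        ZFSet.pair (u 1).1 v.1 ∈ g.1 ∧ r.1 ∈ v.1)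
      (repeat' first
      | exact DT.var _ | exact DT.last | exact DT.const _ | assumption
      | refine Dfn.pairMem ?_ ?_ ?_ | refine Dfn.isPair ?_ ?_ ?_ | refine Dfn.mem ?_ ?_
      | refine Dfn.eqv ?_ ?_ | refine Dfn.eq ?_ ?_ | refine Dfn.subset ?_ ?_
      | refine Dfn.isEmpty ?_ | refine Dfn.isTrans ?_ | refine Dfn.isOrd ?_ | refine Dfn.isNat ?_
      | refine Dfn.isUpair ?_ ?_ ?_ | refine Dfn.isInsert ?_ ?_ ?_
      | refine Dfn.and ?_ ?_ | refine Dfn.or ?_ ?_ | refine Dfn.iff ?_ ?_ | refine Dfn.not ?_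
      | refine Dfn.imp ?_ ?_ | refine Dfn.all ?_ | refine Dfn.ex ?_ | exact Dfn.false'
      | refine Dfn.ballZ ?_ ?_ | refine Dfn.bexZ ?_ ?_ | exact Dfn.const _)
      exact Dfn.subst2 (P := fun x y => y.1 = x.1.rank.toZFSet) hrk (DT.var _) (DT.var _)
    have hHiff : ∀ (y : M) (ξ : Ordinal.{0}) (hξ : ξ < δ),
        H y ⟨_, hM.toZFSet_mem_of_le hξ.le hδM⟩ ↔ y.1.rank < G ξ := by
      intro y ξ hξ
      constructor
      · rintro ⟨v, r, h1, h2, h3⟩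
        rw [h1, hGu ξ hξ _ h2] at h3
        exact Ordinal.toZFSet_mem_toZFSet_iff.1 h3
      · intro h
        exact ⟨⟨_, hM.toZFSet_mem_of_le (hGκ ξ hξ).le hκM⟩, ⟨_, hM.rank_mem y.2⟩, rfl, hGg ξ hξ,
          Ordinal.toZFSet_mem_toZFSet_iff.2 h⟩
    obtain ⟨θ, hθ, hθ'⟩ := hδ.bdd hM hx hxc (F := fun y ξ => ξ.1 ∈ (⟨δ.toZFSet, hδM⟩ : M).1 ∧
      H y ξ ∧ ∀ ξ' : M, ξ'.1 ∈ ξ.1 → ¬ H y ξ') (by
      refine Dfn.and (Dfn.mem (DT.var _) (DT.const _)) (Dfn.and ?_ (Dfn.all (Dfn.imp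
        (Dfn.mem (DT.var _) (DT.var _)) (Dfn.not ?_))))
      · exact Dfn.subst2 (P := H) hH (DT.var _) (DT.var _)
      · exact Dfn.subst2 (P := H) hH (DT.var _) (DT.var _)) (by
      rintro y hy b b' ⟨h1, h2, h3⟩ ⟨h1', h2', h3'⟩
      obtain ⟨c, hc, hcb⟩ := Ordinal.mem_toZFSet_iff.1 h1
      obtain ⟨c', hc', hcb'⟩ := Ordinal.mem_toZFSet_iff.1 h1'
      rcases lt_trichotomy c c' with h | h | h
      · exact (h3' b (by rw [← hcb, ← hcb']; exact Ordinal.toZFSet_mem_toZFSet_iff.2 h) h2).elim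
      · exact Subtype.ext (by rw [← hcb, ← hcb', h])
      · exact (h3 b' (by rw [← hcb, ← hcb']; exact Ordinal.toZFSet_mem_toZFSet_iff.2 h) h2').elim)
    have hθ1 := hδ.succ_lt hM hθ
    refine lt_of_le_of_lt (ZFSet.rank_le_iff.2 fun y hy => ?_) (ho1 (θ + 1) hθ1)
    have hyM := hM.mem_of_mem hx hy
    obtain ⟨ξ, hξ, h1⟩ := ho3 _ (hxo y hy)
    have hne' : {ξ : Ordinal.{0} | ξ < δ ∧ y.rank < G ξ}.Nonempty := ⟨ξ, hξ, h1⟩
    have h2 := csInf_mem hne'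
    set ξ₀ := sInf {ξ : Ordinal.{0} | ξ < δ ∧ y.rank < G ξ}
    have hξ₀M := hM.toZFSet_mem_of_le h2.1.le hδM
    have h3 := hθ' ⟨y, hyM⟩ hy ⟨_, hξ₀M⟩ (by
      refine ⟨Ordinal.toZFSet_mem_toZFSet_iff.2 h2.1, (hHiff ⟨y, hyM⟩ ξ₀ h2.1).2 h2.2, ?_⟩
      intro ξ' hξ' h4
      obtain ⟨c, hc, hcx⟩ := Ordinal.mem_toZFSet_iff.1 hξ'
      have hcδ := hc.trans h2.1
      have e : ξ' = ⟨_, hM.toZFSet_mem_of_le hcδ.le hδM⟩ := Subtype.ext hcx.symm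
      rw [e, hHiff ⟨y, hyM⟩ c hcδ] at h4
      exact notMem_of_lt_csInf hc (OrderBot.bddBelow _) ⟨hcδ, h4⟩) ξ₀ h2.1 rfl
    refine h2.2.trans (hmono _ hθ1 ξ₀ (h3.trans_lt ?_))
    rw [← Order.succ_eq_add_one]
    exact Order.lt_succ θ
  · -- closure
    intro z w hz hw hzw
    obtain ⟨ξ, hξ, h1⟩ := ho3 _ hz
    obtain ⟨β, hβ, h2, h3, h4⟩ := hfv (G ξ) (hGκ ξ hξ)
    have hξ1 := hδ.succ_lt hM hξ
    have h5 : β < G (ξ + 1) := (hstep _ hξ1).2 ξ (by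
      rw [← Order.succ_eq_add_one]; exact Order.lt_succ ξ) β h3
    obtain ⟨w', rw'', h6, h7, h8⟩ := (h4 ⟨_, hM.toZFSet_mem_of_le (hGκ ξ hξ).le hκM⟩
      ⟨_, hM.toZFSet_mem_of_le hβ.le hκM⟩ rfl rfl).2 z w ⟨_, hM.rank_mem z.2⟩ ⟨_, hM.rank_mem w.2⟩
      rfl rfl (Ordinal.toZFSet_mem_toZFSet_iff.2 h1) (Ordinal.toZFSet_mem_toZFSet_iff.2 hw) hzw
    rw [h6] at h7
    exact ⟨w', (Ordinal.toZFSet_mem_toZFSet_iff.1 h7).trans (h5.trans (ho1 _ hξ1)), h8⟩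

end Pool.Agent.H7.IG
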