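import Pool.Agent.H7.IG.Gx
import Pool.Agent.H7.IG.Stat
import Pool.Agent.H7.IG.CondC
import Pool.Agent.H7.IG.CondX
import Pool.Agent.H7.IG.CondAA
import Pool.Agent.H7.IG.CondM
import Pool.Agent.H7.IG.Tk1
import Pool.Agent.H7.IG.Tk8

/-!
# IG, Part 1: the poset of side conditions in a model `M` (definitions)

* `TrO M κ o`: transitive nodes: limit ordinals `o < κ` of uncountable cofinality (every `M`-countable set `x ∈ M` of sets
  of rank `< o` has rank `< o`).
* `SmN M κ N`: small nodes.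
* `IsPK M κ P`: `P` is the set of all conditions. `Po P o`: the conditions contained in `V_o`. `Pg P o`: the conditions that
  contain the node `o`.
* `Inac M κ`: `κ` is (strongly) inaccessible in `M`.
-/

set_option autoImplicit false
set_option linter.unusedVariables false
set_option linter.unusedSectionVars false
set_option linter.unusedSimpArgs false
set_option linter.unusedTactic false
set_option linter.unreachableTactic false

namespace Pool.Agent.H7.IG

open Pool.Agent.H17.Omega Pool.Agent.H17.Omega.CTM Pool.Agent.H52.GX Pool.Agent.H52.GC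

/-- Every `M`-countable subset of `V_o` is bounded in rank. -/
def UCof (M : Set ZFSet.{0}) (o : Ordinal.{0}) : Prop :=
  0 < o ∧ (∀ γ < o, Order.succ γ < o) ∧ ∀ x ∈ M, Ctb M x → (∀ y ∈ x, y.rank < o) → x.rank < o

/-- Transitive nodes. -/
def TrO (M : Set ZFSet.{0}) (κ o : Ordinal.{0}) : Prop := o.toZFSet ∈ M ∧ o < κ ∧ UCof M o

/-- Small nodes. -/
structure SmN (M : Set ZFSet.{0}) (κ : Ordinal.{0}) (N : ZFSet.{0}) : Prop where
  mem : N ∈ M
  rk : N.rank < κ
  ctb : Ctb M N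
  sub : ∀ x ∈ N, Ctb M x → x ⊆ N
  cut : ∀ x ∈ N, ∀ o, TrO M κ o → o.toZFSet ∈ N → ct o x ∈ N
  fin : ∀ a, FinZ a → a ⊆ N → a ∈ N

/-- `P` is the set of conditions. -/
def IsPK (M : Set ZFSet.{0}) (κ : Ordinal.{0}) (P : ZFSet.{0}) : Prop :=
  P ∈ M ∧ ∀ s, s ∈ P ↔ Cd (SmN M κ) (TrO M κ) s

/-- The conditions contained in `V_o`. -/
noncomputable def Po (P : ZFSet.{0}) (o : Ordinal.{0}) : ZFSet.{0} := ZFSet.sep (fun s => ∀ Q ∈ s, Q.rank < o) P

/-- The conditions containing the node `o`. -/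
noncomputable def Pg (P : ZFSet.{0}) (o : Ordinal.{0}) : ZFSet.{0} := ZFSet.sep (fun s => o.toZFSet ∈ s) P

theorem mem_Po {P s : ZFSet.{0}} {o : Ordinal.{0}} : s ∈ Po P o ↔ s ∈ P ∧ ∀ Q ∈ s, Q.rank < o := by
  rw [Po, ZFSet.mem_sep]

theorem mem_Pg {P s : ZFSet.{0}} {o : Ordinal.{0}} : s ∈ Pg P o ↔ s ∈ P ∧ o.toZFSet ∈ s := by
  rw [Pg, ZFSet.mem_sep]

/-- `κ` is inaccessible in `M`. -/
structure Inac (M : Set ZFSet.{0}) (κ : Ordinal.{0}) : Prop where
  mem : κ.toZFSet ∈ M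
  om : ∃ δ < κ, IsOm1 M δ
  lim : ∀ γ < κ, Order.succ γ < κ
  reg : RegC M κ
  str : ∀ α < κ, ∃ β < κ, ∀ K ∈ M, (∀ x ∈ K, x ∈ Lv M α) → Cvr M β.toZFSet K

end Pool.Agent.H7.IG
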