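import Pool.Agent.H7.IG.SideN
import Pool.Agent.H7.IG.Tk6

/-!
# IG, Part 1: hulls and small nodes

`exists_Z`: apply `exists_hull` to `Φ'` which codes by pairs `(i, y)` (`i ∈ ω` a natural number `natZ i`): `Φ`; the elements of
countable sets (`(x, n) ↦` the `n`-th element of `x` in an enumeration chosen in `M`, `exists_choice`); the cuts
`(x, o) ↦ ct o x`; the components of pairs. `Y = V_η` with `η` limit is closed under all this. (Inputs `(i, y)` with `y ∈ Z` are in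
`Z` because `Z` is closed under finite subsets: `∅, {∅}, ...` natural numbers, pairs.)
`node_of_Z`: `ct o Z` is a small node for every `o ≤ κ` with `UCof M o` (and `o ∈ M`): `Z` is countable so `rk (ct o Z) < o`.
-/

set_option autoImplicit false
set_option linter.unusedVariables false
set_option linter.unusedSectionVars false
set_option linter.unusedSimpArgs false
set_option linter.unusedTactic false
set_option linter.unreachableTactic false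

namespace Pool.Agent.H7.IG

open Pool.Agent.H17.Omega Pool.Agent.H17.Omega.CTM Pool.Agent.H52.GX Pool.Agent.H52.GC

/-- `Z` is closed under everything that small nodes need. -/
structure ZC (M : Set ZFSet.{0}) (κ : Ordinal.{0}) (Z : ZFSet.{0}) : Prop where
  mem : Z ∈ M
  ctb : Ctb M Z
  sub : ∀ x ∈ Z, Ctb M x → x ⊆ Z
  cut : ∀ x ∈ Z, ∀ o, TrO M κ o → o.toZFSet ∈ Z → ct o x ∈ Z
  fin : ∀ a, FinZ a → a ⊆ Z → a ∈ Z

/-- `Z` is closed under `Φ` with values in `Y`. -/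
def PhC {M : Set ZFSet.{0}} (Φ : M → M → Prop) (Y Z : ZFSet.{0}) : Prop :=
  ∀ y z : M, y.1 ∈ Z → z.1 ∈ Y → Φ y z → ∃ z' : M, z'.1 ∈ Z ∧ z'.1 ∈ Y ∧ Φ y z'

variable {M : Set ZFSet.{0}} (hM : CTM M) (κ : Ordinal.{0})

include hM

omit hM in
/-- Sets closed under finite subsets are closed under pairs and contain the natural numbers. -/
theorem fcl_pair {Z : ZFSet.{0}} (hfin : ∀ a, FinZ a → a ⊆ Z → a ∈ Z) {a b : ZFSet.{0}} (ha : a ∈ Z)
    (hb : b ∈ Z) : ZFSet.pair a b ∈ Z := by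
  classical
  have h2 : ∀ x ∈ Z, ∀ y ∈ Z, ({x, y} : ZFSet.{0}) ∈ Z := by
    intro x hx y hy
    refine hfin _ ⟨{x, y}, fun z => by simp⟩ ?_
    intro z hz
    rcases ZFSet.mem_pair.1 hz with rfl | rfl
    · exact hx
    · exact hy
  rw [pair_eq_upair]
  exact h2 _ (h2 a ha a ha) _ (h2 a ha b hb)

omit hM in
theorem fcl_nat {Z : ZFSet.{0}} (hfin : ∀ a, FinZ a → a ⊆ Z → a ∈ Z) (n : ℕ) : natZ n ∈ Z := by
  classical
  induction n using Nat.strong_induction_on with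
  | _ n ih =>
    refine hfin _ ⟨(Finset.range n).image natZ, fun z => ?_⟩ ?_
    · rw [mem_natZ, Finset.mem_image]
      constructor
      · rintro ⟨m, hm, rfl⟩
        exact ⟨m, Finset.mem_range.2 hm, rfl⟩
      · rintro ⟨m, hm, rfl⟩
        exact ⟨m, Finset.mem_range.1 hm, rfl⟩
    · intro z hz
      obtain ⟨m, hm, rfl⟩ := mem_natZ.1 hz
      exact ih m hm

theorem exists_Z (hκ : κ.toZFSet ∈ M) {η : Ordinal.{0}} (hη : η.toZFSet ∈ M) (hlim : ∀ γ < η, Order.succ γ < η)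
    (hκη : κ < η) {Φ : M → M → Prop} (hΦ : hM.Dfn (fun v : Fin 2 → M => Φ (v 0) (v 1))) {Y A : ZFSet.{0}}
    (hY : ∀ x, x ∈ Y ↔ x ∈ Lv M η) (hYM : Y ∈ M) (hA : A ∈ M) (hAY : A ⊆ Y) (hAc : Ctb M A) :
    ∃ Z, ZC M κ Z ∧ A ⊆ Z ∧ Z ⊆ Y ∧ PhC Φ Y Z := by
  have h0η : 0 < η := lt_of_le_of_lt bot_le hκη
  have hYf : ∀ a, FinZ a → a ⊆ Y → a ∈ Y := fun a ha haY =>
    (hY a).2 (finZ_mem_Lv hM hlim h0η ha fun x hx => (hY x).1 (haY hx))
  have hYtr : ∀ x ∈ Y, ∀ y ∈ x, y ∈ Y := fun x hx y hy =>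
    (hY y).2 ⟨hM.mem_of_mem ((hY x).1 hx).1 hy, (ZFSet.rank_lt_of_mem hy).trans ((hY x).1 hx).2⟩
  -- enumerations of the countable elements of `Y`
  obtain ⟨B, hB, hB'⟩ := hM.exists_pow (hM.prod_mem hM.omZ_mem hYM)
  obtain ⟨Yc, hYc, hYc'⟩ := hM.exists_sep (P := fun x => Ctb M x.1) (UD.d1 (P := fun N x => Ctb N x.1) ud_Ctb hM
    (DT.var _)) hYM
  obtain ⟨E, hE, hEf, hE'⟩ := exists_choice hM (F := fun x e : M => (∀ k y y' : M,
      ZFSet.pair k.1 y.1 ∈ e.1 → ZFSet.pair k.1 y'.1 ∈ e.1 → y = y') ∧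
      ∀ y : M, y.1 ∈ x.1 → ∃ k : M, k.1 ∈ (⟨omZ, hM.omZ_mem⟩ : M).1 ∧ ZFSet.pair k.1 y.1 ∈ e.1) (by
    (repeat' first
      | exact DT.var _ | exact DT.last | exact DT.const _ | assumption
      | refine Dfn.pairMem ?_ ?_ ?_ | refine Dfn.isPair ?_ ?_ ?_ | refine Dfn.mem ?_ ?_
      | refine Dfn.eqv ?_ ?_ | refine Dfn.eq ?_ ?_ | refine Dfn.subset ?_ ?_
      | refine Dfn.isEmpty ?_ | refine Dfn.isTrans ?_ | refine Dfn.isOrd ?_ | refine Dfn.isNat ?_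
      | refine Dfn.isUpair ?_ ?_ ?_ | refine Dfn.isInsert ?_ ?_ ?_
      | refine Dfn.and ?_ ?_ | refine Dfn.or ?_ ?_ | refine Dfn.iff ?_ ?_ | refine Dfn.not ?_
      | refine Dfn.imp ?_ ?_ | refine Dfn.all ?_ | refine Dfn.ex ?_ | exact Dfn.false'
      | refine Dfn.ballZ ?_ ?_ | refine Dfn.bexZ ?_ ?_ | exact Dfn.const _)) hYc hB (by
    intro x hx
    obtain ⟨hxY, _, hxc⟩ := (hYc' _).1 hx
    obtain ⟨f, hf, h1, h2⟩ := (ctb_iff_cvr hM).1 hxc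
    obtain ⟨e, he, he'⟩ := hM.exists_sep (P := fun z => z.1 ∈ (⟨f, hf⟩ : M).1) (Dfn.mem (DT.var _) (DT.const _))
      (hM.prod_mem hM.omZ_mem hYM)
    refine ⟨⟨e, he⟩, (hB' e).2 ⟨he, fun z hz => ((he' z).1 hz).1⟩, ?_, ?_⟩
    · intro k y y' h3 h4
      obtain ⟨h5, _, h6⟩ := (he' _).1 h3
      obtain ⟨_, _, h7⟩ := (he' _).1 h4
      rw [ZFSet.pair_mem_prod] at h5
      exact Subtype.ext (h1 k.1 h5.1 y.1 y'.1 h6 h7)
    · intro y hy
      obtain ⟨k, hk, hky⟩ := h2 y.1 hy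
      have hkM := hM.mem_of_mem hM.omZ_mem hk
      refine ⟨⟨k, hkM⟩, hk, (he' _).2 ⟨?_, hM.pair_mem hkM y.2, hky⟩⟩
      rw [ZFSet.pair_mem_prod]
      exact ⟨hk, hYtr x.1 hxY y.1 hy⟩)
  -- the coded relation
  have hn : ∀ n, natZ n ∈ M := fun n => hM.natZ_mem_N n
  let Ψ : M → M → Prop := fun y z =>
    (∃ w : M, y.1 = ZFSet.pair (⟨natZ 0, hn 0⟩ : M).1 w.1 ∧ z.1 ∈ (⟨Y, hYM⟩ : M).1 ∧ Φ w z) ∨
    (∃ x k w e : M, w.1 = ZFSet.pair x.1 k.1 ∧ y.1 = ZFSet.pair (⟨natZ 1, hn 1⟩ : M).1 w.1 ∧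
      ZFSet.pair x.1 e.1 ∈ (⟨E, hE⟩ : M).1 ∧ ZFSet.pair k.1 z.1 ∈ e.1) ∨
    ∃ x u w : M, w.1 = ZFSet.pair x.1 u.1 ∧ y.1 = ZFSet.pair (⟨natZ 2, hn 2⟩ : M).1 w.1 ∧
      ∃ o : Ordinal.{0}, u.1 = o.toZFSet ∧ z.1 = ct o x.1
  have hΨ : hM.Dfn (fun v : Fin 2 → M => Ψ (v 0) (v 1)) := by
    refine Dfn.or ?_ (Dfn.or ?_ ?_)
    · (repeat' first
        | exact DT.var _ | exact DT.last | exact DT.const _ | assumption
        | refine Dfn.pairMem ?_ ?_ ?_ | refine Dfn.isPair ?_ ?_ ?_ | refine Dfn.mem ?_ ?_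
        | refine Dfn.eqv ?_ ?_ | refine Dfn.eq ?_ ?_ | refine Dfn.subset ?_ ?_
        | refine Dfn.isEmpty ?_ | refine Dfn.isTrans ?_ | refine Dfn.isOrd ?_ | refine Dfn.isNat ?_
        | refine Dfn.isUpair ?_ ?_ ?_ | refine Dfn.isInsert ?_ ?_ ?_
        | refine Dfn.and ?_ ?_ | refine Dfn.or ?_ ?_ | refine Dfn.iff ?_ ?_ | refine Dfn.not ?_
        | refine Dfn.imp ?_ ?_ | refine Dfn.all ?_ | refine Dfn.ex ?_ | exact Dfn.false'
        | refine Dfn.ballZ ?_ ?_ | refine Dfn.bexZ ?_ ?_ | exact Dfn.const _)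
      all_goals exact Dfn.subst2 hΦ (DT.var _) (DT.var _)
    · (repeat' first
        | exact DT.var _ | exact DT.last | exact DT.const _ | assumption
        | refine Dfn.pairMem ?_ ?_ ?_ | refine Dfn.isPair ?_ ?_ ?_ | refine Dfn.mem ?_ ?_
        | refine Dfn.eqv ?_ ?_ | refine Dfn.eq ?_ ?_ | refine Dfn.subset ?_ ?_
        | refine Dfn.isEmpty ?_ | refine Dfn.isTrans ?_ | refine Dfn.isOrd ?_ | refine Dfn.isNat ?_
        | refine Dfn.isUpair ?_ ?_ ?_ | refine Dfn.isInsert ?_ ?_ ?_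
        | refine Dfn.and ?_ ?_ | refine Dfn.or ?_ ?_ | refine Dfn.iff ?_ ?_ | refine Dfn.not ?_
        | refine Dfn.imp ?_ ?_ | refine Dfn.all ?_ | refine Dfn.ex ?_ | exact Dfn.false'
        | refine Dfn.ballZ ?_ ?_ | refine Dfn.bexZ ?_ ?_ | exact Dfn.const _)
    · refine Dfn.ex (Dfn.ex (Dfn.ex (Dfn.and (Dfn.isPair (DT.var _) (DT.var _) (DT.var _))
        (Dfn.and (Dfn.isPair (DT.var _) (DT.const _) (DT.var _)) ?_))))
      exact Dfn.subst3 (P := fun u x z : M => ∃ o : Ordinal.{0}, u.1 = o.toZFSet ∧ z.1 = ct o x.1) (dfn_ct hM)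
        (DT.var _) (DT.var _) (DT.var _)
  have hinj : ∀ {m n : ℕ} {w w' : ZFSet.{0}}, ZFSet.pair (natZ m) w = ZFSet.pair (natZ n) w' → m = n ∧ w = w' := by
    intro m n w w' h
    rw [ZFSet.pair_inj] at h
    exact ⟨natZ_inj.1 h.1, h.2⟩
  obtain ⟨Z, hZM, hAZ, hZY, hZc, hZf, hZΨ⟩ := exists_hull hM hΨ hYM hYf hA hAY hAc
  refine ⟨Z, ⟨hZM, hZc, ?_, ?_, hZf⟩, hAZ, hZY, ?_⟩
  · -- elements of countable sets
    intro x hx hxc y hy
    have hxY := hZY hx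
    have hxM := hM.mem_of_mem hZM hx
    have hyM := hM.mem_of_mem hxM hy
    have hxYc : x ∈ Yc := (hYc' x).2 ⟨hxY, hxM, hxc⟩
    obtain ⟨e, heB, he⟩ := hEf.tot x hxYc
    have heM := hM.mem_of_mem hB heB
    obtain ⟨h1, h2⟩ := hE' ⟨x, hxM⟩ ⟨e, heM⟩ he
    obtain ⟨k, hk, hky⟩ := h2 ⟨y, hyM⟩ hy
    obtain ⟨n, hkn⟩ := mem_omZ.1 hk
    have hkZ : k.1 ∈ Z := by rw [hkn]; exact fcl_nat hZf n
    have hw := fcl_pair hZf hx hkZ
    have hc := fcl_pair hZf (fcl_nat hZf 1) hw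
    obtain ⟨z', hz', h3⟩ := hZΨ ⟨_, hM.mem_of_mem hZM hc⟩ ⟨y, hyM⟩ hc (hYtr x hxY y hy)
      (Or.inr (Or.inl ⟨⟨x, hxM⟩, k, ⟨_, hM.mem_of_mem hZM hw⟩, ⟨e, heM⟩, rfl, rfl, he, hky⟩))
    have key : z' = ⟨y, hyM⟩ := by
      rcases h3 with ⟨w, h4, _⟩ | ⟨x', k', w, e', h4, h5, h6, h7⟩ | ⟨x', u, w, h4, h5, _⟩
      · exact absurd (hinj h4).1 (by norm_num)
      · have h8 := (hinj h5).2
        rw [h4, ZFSet.pair_inj] at h8
        have hx' : x'.1 = x := h8.1.symm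
        have hk' : k'.1 = k.1 := h8.2.symm
        have he' : e'.1 = e := by
          obtain ⟨a, ha, b, hb, h9⟩ := hEf.sub _ h6
          rw [ZFSet.pair_inj] at h9
          rw [hx'] at h6
          exact hEf.uni x hxYc e'.1 (h9.2 ▸ hb) e heB h6 he
        rw [he', hk'] at h7
        exact h1 k z' ⟨y, hyM⟩ h7 hky
      · exact absurd (hinj h5).1 (by norm_num)
    rw [key] at hz'
    exact hz'
  · -- cuts
    intro x hx o ho hoZ
    have hxY := hZY hx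
    have hxM := hM.mem_of_mem hZM hx
    have hctM : ct o x ∈ M := ct_mem hM hxM o
    have hctY : ct o x ∈ Y := (hY _).2 ⟨hctM, (ZFSet.rank_mono ct_sub).trans_lt ((hY x).1 hxY).2⟩
    have hw := fcl_pair hZf hx hoZ
    have hc := fcl_pair hZf (fcl_nat hZf 2) hw
    obtain ⟨z', hz', h3⟩ := hZΨ ⟨_, hM.mem_of_mem hZM hc⟩ ⟨ct o x, hctM⟩ hc hctY
      (Or.inr (Or.inr ⟨⟨x, hxM⟩, ⟨o.toZFSet, ho.1⟩, ⟨_, hM.mem_of_mem hZM hw⟩, rfl, rfl, o, rfl, rfl⟩))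
    have key : z'.1 = ct o x := by
      rcases h3 with ⟨w, h4, _⟩ | ⟨x', k', w, e', h4, h5, h6, h7⟩ | ⟨x', u, w, h4, h5, o', h6, h7⟩
      · exact absurd (hinj h4).1 (by norm_num)
      · exact absurd (hinj h5).1 (by norm_num)
      · have h8 := (hinj h5).2
        rw [h4, ZFSet.pair_inj] at h8
        have ho' : o' = o := by
          have h9 : o.toZFSet = o'.toZFSet := h8.2.trans h6
          exact (toZFSet_inj.1 h9).symm
        rw [h7, ho', ← h8.1]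
    rw [key] at hz'
    exact hz'
  · intro y z hy hz hyz
    have hc := fcl_pair hZf (fcl_nat hZf 0) hy
    obtain ⟨z', hz', h3⟩ := hZΨ ⟨_, hM.mem_of_mem hZM hc⟩ z hc hz (Or.inl ⟨y, rfl, hz, hyz⟩)
    rcases h3 with ⟨w, h4, h5, h6⟩ | ⟨x', k', w, e', h4, h5, h6, h7⟩ | ⟨x', u, w, h4, h5, o', h6, h7⟩
    · have h7 : w = y := Subtype.ext (hinj h4).2.symm
      exact ⟨z', hz', h5, h7 ▸ h6⟩
    · exact absurd (hinj h5).1 (by norm_num)
    · exact absurd (hinj h5).1 (by norm_num)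

end Pool.Agent.H7.IG
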