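import Pool.Agent.H7.IG.SideD

/-!
# IG, Part 1: the nodes satisfy the axioms `NS`; definability; the poset is a set of `M`

`ns_node`: `cut`: elements of a countable `x ∈ ct o N` have rank `< rk x < o`; `ct o' x` has rank `≤ rk x`; finite subsets of
`ct o N` have rank `< o` (limit). `rk`, `rkcut`: `N` (`ct o N`) is countable with elements of rank `< rk N` (`< o`) and `UCof`.
Definability over `M`: the rank function of `M` is definable (`exists_rankF`), `Ctb` is (`ud_Ctb`), ordinals `o` are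
represented by `o.toZFSet` (`isOrd`; an ordinal set `x` is `x.rank.toZFSet`); `FinZ`: `∃ n ∈ ω, ∃ f, f` maps `n` onto `x`
(for `x ∈ M`).
`exists_PK`: `P` is separated from the finite subsets (`exists_fin`) of `V_κ` of `M` (`exists_Lv`).
-/

set_option autoImplicit false
set_option linter.unusedVariables false
set_option linter.unusedSectionVars false
set_option linter.unusedSimpArgs false
set_option linter.unusedTactic false
set_option linter.unreachableTactic false

namespace Pool.Agent.H7.IG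

open Pool.Agent.H17.Omega Pool.Agent.H17.Omega.CTM Pool.Agent.H52.GX Pool.Agent.H52.GC

variable {M : Set ZFSet.{0}} (hM : CTM M) (κ : Ordinal.{0})

include hM

theorem rank_toZFSet' (o : Ordinal.{0}) : o.toZFSet.rank = o := Ordinal.rank_toZFSet o

theorem ct_mem {x : ZFSet.{0}} (hx : x ∈ M) (o : Ordinal.{0}) : ct o x ∈ M := by
  by_cases ho : o.toZFSet ∈ M
  · obtain ⟨F, hF, hF'⟩ := hM.exists_rankF
    obtain ⟨b, hb, hb'⟩ := hM.exists_sep (P := fun y => ∃ g : M, F y = g ∧ g.1 ∈ (⟨o.toZFSet, ho⟩ : M).1)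
      (Dfn.ex (Dfn.and (Dfn.subst2 (P := fun x y => F x = y) hF (DT.var _) (DT.var _))
        (Dfn.mem (DT.var _) (DT.const _)))) hx
    have : ct o x = b := by
      refine ZFSet.ext fun z => ?_
      rw [mem_ct, hb']
      refine and_congr_right fun hz => ?_
      have hzM := hM.mem_of_mem hx hz
      constructor
      · intro h
        refine ⟨hzM, F ⟨z, hzM⟩, rfl, ?_⟩
        show (F ⟨z, hzM⟩).1 ∈ o.toZFSet
        rw [hF']
        exact Ordinal.toZFSet_mem_toZFSet_iff.2 h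
      · rintro ⟨_, g, rfl, h⟩
        have h : (F ⟨z, hzM⟩).1 ∈ o.toZFSet := h
        rw [hF'] at h
        exact Ordinal.toZFSet_mem_toZFSet_iff.1 h
    rw [this]
    exact hb
  · have hlt : x.rank < o := by
      by_contra h
      exact ho (hM.toZFSet_mem_of_le (not_lt.1 h) (hM.rank_mem hx))
    have : ct o x = x := by
      refine ZFSet.ext fun z => ?_
      rw [mem_ct]
      exact ⟨fun h => h.1, fun h => ⟨h, (ZFSet.rank_lt_of_mem h).trans hlt⟩⟩
    rw [this]
    exact hx

/-- Countable subsets of `V_o` are small. -/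
theorem ucof_ct {Z : ZFSet.{0}} (hZ : Z ∈ M) (hc : Ctb M Z) {o : Ordinal.{0}} (hu : UCof M o) :
    (ct o Z).rank < o :=
  hu.2.2 _ (ct_mem hM hZ o) (hc.mono ct_sub) fun y hy => (mem_ct.1 hy).2

theorem ucof_fin {o : Ordinal.{0}} (hu : UCof M o) {a Z : ZFSet.{0}} (hZ : Z ∈ M) (ha : FinZ a)
    (haZ : a ⊆ ct o Z) : a.rank < o :=
  (finZ_mem_Lv hM hu.2.1 hu.1 ha fun x hx => ⟨hM.mem_of_mem hZ (mem_ct.1 (haZ hx)).1, (mem_ct.1 (haZ hx)).2⟩).2

theorem ns_node : NS (SmN M κ) (TrO M κ) := by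
  refine ⟨?_, ?_, ?_, ?_, ?_⟩
  · intro N o hN ho hoN
    refine ⟨ct_mem hM hN.mem o, (ZFSet.rank_mono ct_sub).trans_lt hN.rk, hN.ctb.mono ct_sub, ?_, ?_, ?_⟩
    · intro x hx hxc y hy
      have hx' := mem_ct.1 hx
      exact mem_ct.2 ⟨hN.sub x hx'.1 hxc hy, (ZFSet.rank_lt_of_mem hy).trans hx'.2⟩
    · intro x hx o' ho' ho'N
      have hx' := mem_ct.1 hx
      exact mem_ct.2 ⟨hN.cut x hx'.1 o' ho' (ct_sub ho'N), (ZFSet.rank_mono ct_sub).trans_lt hx'.2⟩
    · intro a ha haN
      exact mem_ct.2 ⟨hN.fin a ha fun z hz => ct_sub (haN hz), ucof_fin hM ho.2.2 hN.mem ha haN⟩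
  · intro N N' hN hN' h
    exact hN'.sub N h hN.ctb
  · intro N N' o hN hN' ho h hoN'
    exact hN'.cut N h o ho hoN'
  · intro N hN h
    exact lt_irrefl _ (h.2.2.2.2 N hN.mem hN.ctb fun y hy => ZFSet.rank_lt_of_mem hy)
  · intro N o hN ho
    exact ucof_ct hM hN.mem hN.ctb ho.2.2

end Pool.Agent.H7.IG
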