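import Pool.Agent.H7.IG.SideN
import Pool.Agent.H7.IG.Prj1

/-!
# IG, Part 1: cutting at a transitive node is a projection

`B` is `V_o` of `M`. `Pg P o` = conditions containing `o`; `Po P o` = conditions contained in `V_o`.
`down`: `p ∩ B = ct o p` (`p ⊆ M`), `cond_cut`. `amal`: Lemma A (`cond_A`). `lift`: `p' = insert o.toZFSet r` (`cond_top`).
-/

set_option autoImplicit false
set_option linter.unusedVariables false
set_option linter.unusedSectionVars false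
set_option linter.unusedSimpArgs false
set_option linter.unusedTactic false
set_option linter.unreachableTactic false

namespace Pool.Agent.H7.IG

open Pool.Agent.H17.Omega Pool.Agent.H17.Omega.CTM Pool.Agent.H52.GX Pool.Agent.H52.GC

variable {M : Set ZFSet.{0}} (hM : CTM M) {κ : Ordinal.{0}}

include hM

omit hM in
theorem spa_mem_B {o : Ordinal.{0}} {B : ZFSet.{0}} (hB : ∀ x, x ∈ B ↔ x ∈ Lv M o) {z : ZFSet.{0}} :
    z ∈ B ↔ z ∈ M ∧ z.rank < o := hB z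

theorem spa_inter_eq_ct {P : ZFSet.{0}} (hP : IsPK M κ P) {o : Ordinal.{0}} {B : ZFSet.{0}}
    (hB : ∀ x, x ∈ B ↔ x ∈ Lv M o) {s : ZFSet.{0}} (hs : s ∈ P) : s ∩ B = ct o s := by
  ext z
  rw [ZFSet.mem_inter, mem_ct, spa_mem_B hB]
  exact ⟨fun h => ⟨h.1, h.2.2⟩, fun h => ⟨h.1, hM.mem_of_mem (hM.mem_of_mem hP.1 hs) h.1, h.2⟩⟩

theorem side_prj {P : ZFSet.{0}} (hP : IsPK M κ P) {o : Ordinal.{0}} (ho : TrO M κ o) {B : ZFSet.{0}}
    (hB : ∀ x, x ∈ B ↔ x ∈ Lv M o) : Prj (Pg P o) (Po P o) B := by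
  have hns := ns_node hM κ
  refine ⟨?_, ?_, ?_, ?_⟩
  · intro p hp
    rw [mem_Pg] at hp
    rw [spa_inter_eq_ct hM hP hB hp.1, mem_Po]
    exact ⟨(hP.2 _).2 (cond_cut hns ((hP.2 _).1 hp.1) o), fun Q hQ => (mem_ct.1 hQ).2⟩
  · intro r hr z hz
    rw [mem_Po] at hr
    exact (spa_mem_B hB).2 ⟨hM.mem_of_mem (hM.mem_of_mem hP.1 hr.1) hz, hr.2 z hz⟩
  · intro p hp r hr hpr
    rw [mem_Pg] at hp
    rw [mem_Po] at hr
    rw [spa_inter_eq_ct hM hP hB hp.1] at hpr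
    rw [mem_Pg]
    exact ⟨(hP.2 _).2 (cond_A hns ((hP.2 _).1 hp.1) ((hP.2 _).1 hr.1) ho hp.2 hr.2 hpr),
      ZFSet.mem_union.2 (Or.inl hp.2)⟩
  · intro p hp r hr hrp
    rw [mem_Pg] at hp
    rw [mem_Po] at hr
    refine ⟨insert o.toZFSet r, mem_Pg.2 ⟨(hP.2 _).2 (cond_top hns ((hP.2 _).1 hr.1) ho hr.2),
      ZFSet.mem_insert_iff.2 (Or.inl rfl)⟩, ?_, ?_⟩
    · intro z hz
      rcases ZFSet.mem_insert_iff.1 hz with h1 | h1
      · rw [h1]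
        exact hp.2
      · exact (ZFSet.mem_inter.1 (hrp h1)).1
    · ext z
      rw [ZFSet.mem_inter, ZFSet.mem_insert_iff]
      constructor
      · rintro ⟨h1 | h1, h2⟩
        · have h3 := ((spa_mem_B hB).1 h2).2
          rw [h1, Ordinal.rank_toZFSet] at h3
          exact absurd h3 (lt_irrefl _)
        · exact h1
      · intro h1
        exact ⟨Or.inr h1, (ZFSet.mem_inter.1 (hrp h1)).2⟩

theorem inter_eq_ct {P : ZFSet.{0}} (hP : IsPK M κ P) {o : Ordinal.{0}} {B : ZFSet.{0}}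
    (hB : ∀ x, x ∈ B ↔ x ∈ Lv M o) {s : ZFSet.{0}} (hs : s ∈ P) : s ∩ B = ct o s :=
  spa_inter_eq_ct hM hP hB hs

theorem Po_mem {P : ZFSet.{0}} (hP : IsPK M κ P) {o : Ordinal.{0}} (ho : o.toZFSet ∈ M) : Po P o ∈ M := by
  refine hM.sep_mem (Dfn.congr (P := fun v : Fin 1 → M => ∀ Q : M, Q.1 ∈ (v 0).1 →
    ∃ y : M, y.1 = Q.1.rank.toZFSet ∧ y.1 ∈ (⟨o.toZFSet, ho⟩ : M).1) ?_ ?_) hP.1
  · intro v
    constructor
    · intro h Q hQ
      obtain ⟨y, h1, h2⟩ := h ⟨Q, hM.mem_of_mem (v 0).2 hQ⟩ hQ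
      rw [h1] at h2
      exact Ordinal.toZFSet_mem_toZFSet_iff.1 h2
    · intro h Q hQ
      have h1 := h Q.1 hQ
      exact ⟨⟨_, hM.toZFSet_mem_of_le h1.le ho⟩, rfl, Ordinal.toZFSet_mem_toZFSet_iff.2 h1⟩
  · refine Dfn.all (Dfn.imp (Dfn.mem (DT.var _) (DT.var _)) (Dfn.ex (Dfn.and
      (Dfn.subst2 (P := fun x y => y.1 = x.1.rank.toZFSet) (dfn_rank hM) (DT.var _) (DT.var _))
      (Dfn.mem (DT.var _) (DT.const _)))))

theorem Pg_mem {P : ZFSet.{0}} (hP : IsPK M κ P) {o : Ordinal.{0}} (ho : o.toZFSet ∈ M) : Pg P o ∈ M :=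
  hM.sep_mem (Dfn.mem (s := fun _ => (⟨o.toZFSet, ho⟩ : M)) (DT.const _) (DT.var 0)) hP.1

end Pool.Agent.H7.IG
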