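import Pool.Agent.H52.GC.Fin
import Pool.Agent.H52.GX.Min

/-!
# Uniform definability

`UD 𝒞 Ψ`: the predicate `Ψ N v` (of a structure `N` and a tuple `v` of elements of `N`) is defined by one
formula without parameters in all structures `N` of the class `𝒞`. For proofs paste the following block
(no macros are allowed in our files). It decomposes quantifiers (over the structure, `∀ z : N, ...`, or bounded,
`∀ z ∈ (v 0).1, ...` with `z : ZFSet`), connectives, `∈`, `=`, `⊆`, pairs; the remaining goals are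
substitution instances (`exact UD.sub2 h (UT.var _) (UT.var _)`, ... for earlier lemmas
`h : UD 𝒞 (fun N (v : Fin 2 → N) => P N (v 0) (v 1))`).

  (repeat' first
      | exact UT.var _ | exact UT.last | assumption
      | refine UD.pairMem ?_ ?_ ?_ | refine UD.isPair ?_ ?_ ?_ | refine UD.mem ?_ ?_
      | refine UD.eqv ?_ ?_ | refine UD.eq ?_ ?_ | refine UD.subset ?_ ?_
      | refine UD.isEmpty ?_ | refine UD.isTrans ?_ | refine UD.isOrd ?_ | refine UD.isNat ?_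
      | refine UD.isUpair ?_ ?_ ?_ | refine UD.isInsert ?_ ?_ ?_ | refine UD.isUnion ?_ ?_ ?_
      | refine UD.and ?_ ?_ | refine UD.or ?_ ?_ | refine UD.iff ?_ ?_ | refine UD.not ?_
      | refine UD.imp ?_ ?_ | refine UD.all ?_ | refine UD.ex ?_ | exact UD.false' | exact UD.true'
      | refine UD.ball ?_ ?_ | refine UD.bex ?_ ?_)

For definability with parameters in one model (`hM.Dfn P`) the block is

  (repeat' first
      | exact DT.var _ | exact DT.last | exact DT.const _ | assumption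
      | refine Dfn.pairMem ?_ ?_ ?_ | refine Dfn.isPair ?_ ?_ ?_ | refine Dfn.mem ?_ ?_
      | refine Dfn.eqv ?_ ?_ | refine Dfn.eq ?_ ?_ | refine Dfn.subset ?_ ?_
      | refine Dfn.isEmpty ?_ | refine Dfn.isTrans ?_ | refine Dfn.isOrd ?_ | refine Dfn.isNat ?_
      | refine Dfn.isUpair ?_ ?_ ?_ | refine Dfn.isInsert ?_ ?_ ?_
      | refine Dfn.and ?_ ?_ | refine Dfn.or ?_ ?_ | refine Dfn.iff ?_ ?_ | refine Dfn.not ?_
      | refine Dfn.imp ?_ ?_ | refine Dfn.all ?_ | refine Dfn.ex ?_ | exact Dfn.false'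
      | refine Dfn.ballZ ?_ ?_ | refine Dfn.bexZ ?_ ?_ | exact Dfn.const _)

with the remaining goals by `exact UD.d2 h hM (DT.var _) (DT.var _)` (for `h : UD CtmC ...`, `M ∈ CtmC` is `hM`).
Parameters must appear as elements of the model, `((⟨a, ha⟩ : M).1)`, so that `DT.const _` applies; use
`show hM.Dfn (fun v : Fin 1 → M => ...)` first.
-/

set_option autoImplicit false
set_option linter.unusedVariables false
set_option linter.unusedSectionVars false
set_option linter.unusedSimpArgs false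

namespace Pool.Agent.H7.IG

open Pool.Agent.H17.Omega Pool.Agent.H17.Omega.CTM Pool.Agent.H52.GX Pool.Agent.H52.GC

/-- Transitive class of sets. -/
def Tra (N : Set ZFSet.{0}) : Prop := ∀ x ∈ N, ∀ y ∈ x, y ∈ N

/-- The class of all transitive structures. -/
def TraC : Set (Set ZFSet.{0}) := {N | Tra N}

/-- The class of all countable transitive models of ZFC. -/
def CtmC : Set (Set ZFSet.{0}) := {N | CTM N}

theorem ctmC_sub : CtmC ⊆ TraC := fun N hN => (show CTM N from hN).trans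

/-- Uniformly definable predicates. -/
def UD (𝒞 : Set (Set ZFSet.{0})) {n : ℕ} (Ψ : (N : Set ZFSet.{0}) → (Fin n → N) → Prop) : Prop :=
  ∃ θ : Fml, ∀ N ∈ 𝒞, ∀ (v : Fin n → N) (f : ℕ → N), (∀ i : Fin n, f i = v i) →
    (Sat (SMem N) θ f ↔ Ψ N v)

/-- Uniform terms: variables. -/
def UT {n : ℕ} (s : (N : Set ZFSet.{0}) → (Fin n → N) → N) : Prop :=
  ∃ k : Fin n, ∀ (N : Set ZFSet.{0}) (v : Fin n → N), s N v = v k

theorem UT.var {n : ℕ} (i : Fin n) : UT (fun N v => v i) := ⟨i, fun _ _ => rfl⟩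

theorem UT.last {n : ℕ} : UT (fun N (v : Fin (n + 1) → N) => v (Fin.last n)) := UT.var _

theorem UT.lift {n : ℕ} {s : (N : Set ZFSet.{0}) → (Fin n → N) → N} (h : UT s) :
    UT (fun N (v : Fin (n + 1) → N) => s N (fun i => v i.castSucc)) := by
  obtain ⟨k, hk⟩ := h
  exact ⟨k.castSucc, fun N v => hk N _⟩

variable {𝒞 : Set (Set ZFSet.{0})}

namespace UD

variable {n : ℕ} {P P' : (N : Set ZFSet.{0}) → (Fin n → N) → Prop}
  {s t r : (N : Set ZFSet.{0}) → (Fin n → N) → N}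

theorem congr (hP : UD 𝒞 P) (h : ∀ N ∈ 𝒞, ∀ v, P N v ↔ P' N v) : UD 𝒞 P' := by
  obtain ⟨θ, hθ⟩ := hP
  exact ⟨θ, fun N hN v f hf => (hθ N hN v f hf).trans (h N hN v)⟩

theorem mono {𝒟 : Set (Set ZFSet.{0})} (hP : UD 𝒞 P) (h : 𝒟 ⊆ 𝒞) : UD 𝒟 P := by
  obtain ⟨θ, hθ⟩ := hP
  exact ⟨θ, fun N hN v f hf => hθ N (h hN) v f hf⟩

theorem mem (hs : UT s) (ht : UT t) : UD 𝒞 (fun N v => (s N v).1 ∈ (t N v).1) := by
  obtain ⟨i, hi⟩ := hs
  obtain ⟨j, hj⟩ := ht
  refine ⟨.mem i j, fun N _ v f h => ?_⟩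
  show (f i).1 ∈ (f j).1 ↔ (s N v).1 ∈ (t N v).1
  rw [h i, h j, hi, hj]

theorem eq (hs : UT s) (ht : UT t) : UD 𝒞 (fun N v => s N v = t N v) := by
  obtain ⟨i, hi⟩ := hs
  obtain ⟨j, hj⟩ := ht
  refine ⟨.eq i j, fun N _ v f h => ?_⟩
  show f i = f j ↔ s N v = t N v
  rw [h i, h j, hi, hj]

theorem eqv (hs : UT s) (ht : UT t) : UD 𝒞 (fun N v => (s N v).1 = (t N v).1) :=
  (eq hs ht).congr fun N _ v => ⟨fun h => congrArg Subtype.val h, fun h => Subtype.ext h⟩

theorem and (h : UD 𝒞 P) (h' : UD 𝒞 P') : UD 𝒞 (fun N v => P N v ∧ P' N v) := by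
  obtain ⟨θ, hθ⟩ := h
  obtain ⟨θ', hθ'⟩ := h'
  exact ⟨.and θ θ', fun N hN v f hf => and_congr (hθ N hN v f hf) (hθ' N hN v f hf)⟩

theorem or (h : UD 𝒞 P) (h' : UD 𝒞 P') : UD 𝒞 (fun N v => P N v ∨ P' N v) := by
  obtain ⟨θ, hθ⟩ := h
  obtain ⟨θ', hθ'⟩ := h'
  exact ⟨.or θ θ', fun N hN v f hf => or_congr (hθ N hN v f hf) (hθ' N hN v f hf)⟩

theorem imp (h : UD 𝒞 P) (h' : UD 𝒞 P') : UD 𝒞 (fun N v => P N v → P' N v) := by
  obtain ⟨θ, hθ⟩ := h
  obtain ⟨θ', hθ'⟩ := h'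
  exact ⟨.imp θ θ', fun N hN v f hf => imp_congr (hθ N hN v f hf) (hθ' N hN v f hf)⟩

theorem false' : UD 𝒞 (fun N (_ : Fin n → N) => False) := ⟨.bot, fun N _ v f hf => Iff.rfl⟩

theorem not (h : UD 𝒞 P) : UD 𝒞 (fun N v => ¬ P N v) := h.imp false'

theorem true' : UD 𝒞 (fun N (_ : Fin n → N) => True) :=
  (not false').congr fun N _ v => by simp

theorem iff (h : UD 𝒞 P) (h' : UD 𝒞 P') : UD 𝒞 (fun N v => P N v ↔ P' N v) :=
  ((h.imp h').and (h'.imp h)).congr fun N _ v => iff_def.symm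

theorem upd_snoc {N : Set ZFSet.{0}} {v : Fin n → N} {f : ℕ → N} (h : ∀ i : Fin n, f i = v i) (x : N)
    (i : Fin (n + 1)) : upd f n x i = Fin.snoc (α := fun _ => N) v x i := by
  refine Fin.lastCases ?_ (fun i => ?_) i
  · simp
  · rw [Fin.snoc_castSucc, upd_ne, ← h i]
    · rfl
    · have := i.2
      simp only [Fin.val_castSucc]
      omega

theorem all {P : (N : Set ZFSet.{0}) → (Fin n → N) → N → Prop}
    (h : UD 𝒞 (fun N (v : Fin (n + 1) → N) => P N (fun i => v i.castSucc) (v (Fin.last n)))) :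
    UD 𝒞 (fun N v => ∀ x, P N v x) := by
  obtain ⟨θ, hθ⟩ := h
  refine ⟨.all n θ, fun N hN v f hf => forall_congr' fun x => ?_⟩
  rw [hθ N hN _ _ (upd_snoc hf x)]
  simp only [Fin.snoc_castSucc, Fin.snoc_last]

theorem ex {P : (N : Set ZFSet.{0}) → (Fin n → N) → N → Prop}
    (h : UD 𝒞 (fun N (v : Fin (n + 1) → N) => P N (fun i => v i.castSucc) (v (Fin.last n)))) :
    UD 𝒞 (fun N v => ∃ x, P N v x) := by
  obtain ⟨θ, hθ⟩ := h
  refine ⟨.ex n θ, fun N hN v f hf => exists_congr fun x => ?_⟩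
  rw [hθ N hN _ _ (upd_snoc hf x)]
  simp only [Fin.snoc_castSucc, Fin.snoc_last]

/-- Substitution of variables. -/
theorem shift {m : ℕ} {P : (N : Set ZFSet.{0}) → (Fin m → N) → Prop} (h : UD 𝒞 P) (n : ℕ) :
    UD 𝒞 (fun N (v : Fin (n + m) → N) => P N (fun i => v (Fin.natAdd n i))) := by
  obtain ⟨θ, hθ⟩ := h
  refine ⟨θ.ren (fun k => n + k), fun N hN v f hf => ?_⟩
  rw [Sat.ren (fun a b h => by simpa using h)]
  exact hθ N hN _ _ fun i => hf (Fin.natAdd n i)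

theorem sub1 {P : (N : Set ZFSet.{0}) → N → Prop} (h : UD 𝒞 (fun N (v : Fin 1 → N) => P N (v 0)))
    (hs : UT s) : UD 𝒞 (fun N v => P N (s N v)) := by
  have h1 := h.shift n
  refine (ex (P := fun N v x => x = s N v ∧ P N x) ((eq UT.last hs.lift).and ?_)).congr fun N _ v => ?_
  · exact h1
  · simp

theorem sub2 {P : (N : Set ZFSet.{0}) → N → N → Prop}
    (h : UD 𝒞 (fun N (v : Fin 2 → N) => P N (v 0) (v 1)))
    (hs : UT s) (ht : UT t) : UD 𝒞 (fun N v => P N (s N v) (t N v)) := by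
  have h1 := h.shift n
  refine (ex (P := fun N v x => ∃ y, x = s N v ∧ y = t N v ∧ P N x y) (ex ((eq (UT.var _) hs.lift.lift).and
    ((eq (UT.var _) ht.lift.lift).and ?_)))).congr fun N _ v => ?_
  · exact h1
  · constructor
    · rintro ⟨x, y, rfl, rfl, h⟩; exact h
    · intro h; exact ⟨_, _, rfl, rfl, h⟩

theorem sub3 {P : (N : Set ZFSet.{0}) → N → N → N → Prop}
    (h : UD 𝒞 (fun N (v : Fin 3 → N) => P N (v 0) (v 1) (v 2)))
    (hs : UT s) (ht : UT t) (hr : UT r) : UD 𝒞 (fun N v => P N (s N v) (t N v) (r N v)) := by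
  have h1 := h.shift n
  refine (ex (P := fun N v x => ∃ y, ∃ z, x = s N v ∧ y = t N v ∧ z = r N v ∧ P N x y z)
    (ex (ex ((eq (UT.var _) hs.lift.lift.lift).and ((eq (UT.var _) ht.lift.lift.lift).and
    ((eq (UT.var _) hr.lift.lift.lift).and ?_)))))).congr fun N _ v => ?_
  · exact h1
  · constructor
    · rintro ⟨x, y, z, rfl, rfl, rfl, h⟩; exact h
    · intro h; exact ⟨_, _, _, rfl, rfl, rfl, h⟩

theorem sub4 {P : (N : Set ZFSet.{0}) → N → N → N → N → Prop}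
    {q : (N : Set ZFSet.{0}) → (Fin n → N) → N}
    (h : UD 𝒞 (fun N (v : Fin 4 → N) => P N (v 0) (v 1) (v 2) (v 3)))
    (hs : UT s) (ht : UT t) (hr : UT r) (hq : UT q) :
    UD 𝒞 (fun N v => P N (s N v) (t N v) (r N v) (q N v)) := by
  have h1 := h.shift n
  refine (ex (P := fun N v x => ∃ y, ∃ z, ∃ w, x = s N v ∧ y = t N v ∧ z = r N v ∧ w = q N v ∧ P N x y z w)
    (ex (ex (ex ((eq (UT.var _) hs.lift.lift.lift.lift).and ((eq (UT.var _) ht.lift.lift.lift.lift).and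
    ((eq (UT.var _) hr.lift.lift.lift.lift).and
    ((eq (UT.var _) hq.lift.lift.lift.lift).and ?_)))))))).congr fun N _ v => ?_
  · exact h1
  · constructor
    · rintro ⟨x, y, z, w, rfl, rfl, rfl, rfl, h⟩; exact h
    · intro h; exact ⟨_, _, _, _, rfl, rfl, rfl, rfl, h⟩

/-- A uniformly definable predicate is definable in each model, also after substitution of
parameters. -/
theorem dfn {m : ℕ} {P : (N : Set ZFSet.{0}) → (Fin m → N) → Prop} (h : UD 𝒞 P) {N : Set ZFSet.{0}}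
    (hN : CTM N) (hc : N ∈ 𝒞) : hN.Dfn (fun v : Fin m → N => P N v) := by
  obtain ⟨θ, hθ⟩ := h
  refine ⟨θ.ren pos, fun v f hf => ?_⟩
  rw [Sat.ren (fun a b h => pos_inj h)]
  exact hθ N hc v _ fun i => hf.1 i

end UD

/-! ## Absolute predicates (in transitive structures) -/

/-- Classes of transitive structures. -/
class TrC (𝒞 : Set (Set ZFSet.{0})) : Prop where
  tra : ∀ N ∈ 𝒞, Tra N

instance : TrC TraC := ⟨fun N hN => hN⟩
instance : TrC CtmC := ⟨fun N hN => ctmC_sub hN⟩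

namespace UD

variable [TrC 𝒞] {n : ℕ} {s t r : (N : Set ZFSet.{0}) → (Fin n → N) → N}

theorem ball {p : (N : Set ZFSet.{0}) → (Fin n → N) → ZFSet.{0} → Prop} (hs : UT s)
    (h : UD 𝒞 (fun N (v : Fin (n + 1) → N) => p N (fun i => v i.castSucc) (v (Fin.last n)).1)) :
    UD 𝒞 (fun N v => ∀ z ∈ (s N v).1, p N v z) :=
  (all (P := fun N v x => x.1 ∈ (s N v).1 → p N v x.1) ((mem UT.last hs.lift).imp h)).congr
    fun N hN v => ⟨fun h z hz => h ⟨z, TrC.tra N hN _ (s N v).2 z hz⟩ hz, fun h x hx => h x.1 hx⟩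

theorem bex {p : (N : Set ZFSet.{0}) → (Fin n → N) → ZFSet.{0} → Prop} (hs : UT s)
    (h : UD 𝒞 (fun N (v : Fin (n + 1) → N) => p N (fun i => v i.castSucc) (v (Fin.last n)).1)) :
    UD 𝒞 (fun N v => ∃ z ∈ (s N v).1, p N v z) :=
  (ex (P := fun N v x => x.1 ∈ (s N v).1 ∧ p N v x.1) ((mem UT.last hs.lift).and h)).congr
    fun N hN v => ⟨fun ⟨x, hx, h⟩ => ⟨x.1, hx, h⟩,
      fun ⟨z, hz, h⟩ => ⟨⟨z, TrC.tra N hN _ (s N v).2 z hz⟩, hz, h⟩⟩

theorem subset (hs : UT s) (ht : UT t) : UD 𝒞 (fun N v => (s N v).1 ⊆ (t N v).1) :=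
  (ball (p := fun N v z => z ∈ (t N v).1) hs (mem UT.last ht.lift)).congr fun N _ v =>
    ⟨fun h z hz => h z hz, fun h z hz => h hz⟩

theorem isEmpty (hs : UT s) : UD 𝒞 (fun N v => (s N v).1 = ∅) :=
  (ball (p := fun N v z => False) hs false').congr fun N _ v => (ZFSet.eq_empty _).symm

theorem isUpair (hr : UT r) (hs : UT s) (ht : UT t) :
    UD 𝒞 (fun N v => (r N v).1 = {(s N v).1, (t N v).1}) := by
  refine (((mem hs hr).and (mem ht hr)).and (ball (p := fun N v z => z = (s N v).1 ∨ z = (t N v).1) hr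
    ((eqv UT.last hs.lift).or (eqv UT.last ht.lift)))).congr fun N _ v => ?_
  constructor
  · rintro ⟨⟨h1, h2⟩, h3⟩
    ext z
    rw [ZFSet.mem_pair]
    constructor
    · exact h3 z
    · rintro (rfl | rfl) <;> assumption
  · intro h
    rw [h]
    simp

theorem isPair (hr : UT r) (hs : UT s) (ht : UT t) :
    UD 𝒞 (fun N v => (r N v).1 = ZFSet.pair (s N v).1 (t N v).1) := by
  refine (bex (p := fun N v a => ∃ b ∈ (r N v).1, a = {(s N v).1, (s N v).1} ∧
    b = {(s N v).1, (t N v).1} ∧ (r N v).1 = {a, b}) hr (bex (p := fun N v b =>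
    (v (Fin.last n)).1 = {(s N fun i => v i.castSucc).1, (s N fun i => v i.castSucc).1} ∧
    b = {(s N fun i => v i.castSucc).1, (t N fun i => v i.castSucc).1} ∧
    (r N fun i => v i.castSucc).1 = {(v (Fin.last n)).1, b}) hr.lift
    ((isUpair (UT.var _) hs.lift.lift hs.lift.lift).and
    ((isUpair (UT.var _) hs.lift.lift ht.lift.lift).and
      (isUpair hr.lift.lift (UT.var _) (UT.var _)))))).congr fun N _ v => ?_
  rw [pair_eq_upair]
  constructor
  · rintro ⟨a, ha, b, hb, h1, h2, h3⟩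
    rw [h3, h1, h2]
  · intro h
    rw [h]
    exact ⟨_, by simp, _, by simp, rfl, rfl, rfl⟩

theorem pairMem (hs : UT s) (ht : UT t) (hr : UT r) :
    UD 𝒞 (fun N v => ZFSet.pair (s N v).1 (t N v).1 ∈ (r N v).1) := by
  refine (bex (p := fun N v z => z = ZFSet.pair (s N v).1 (t N v).1) hr
    (isPair UT.last hs.lift ht.lift)).congr fun N _ v => ?_
  simp

theorem isTrans (hs : UT s) : UD 𝒞 (fun N v => (s N v).1.IsTransitive) :=
  (ball (p := fun N v y => y ⊆ (s N v).1) hs (subset UT.last hs.lift)).congr fun N _ v => Iff.rfl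

theorem isOrd (hs : UT s) : UD 𝒞 (fun N v => (s N v).1.IsOrdinal) :=
  ((isTrans hs).and (ball (p := fun N v y => y.IsTransitive) hs (isTrans UT.last))).congr fun N _ v =>
    ZFSet.isOrdinal_iff_forall_mem_isTransitive.symm

theorem isInsert (hr : UT r) (hs : UT s) (ht : UT t) :
    UD 𝒞 (fun N v => (r N v).1 = insert (s N v).1 (t N v).1) := by
  refine (((mem hs hr).and (subset ht hr)).and (ball (p := fun N v z => z = (s N v).1 ∨ z ∈ (t N v).1) hr
    ((eqv UT.last hs.lift).or (mem UT.last ht.lift)))).congr fun N _ v => ?_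
  constructor
  · rintro ⟨⟨h1, h2⟩, h3⟩
    ext z
    rw [ZFSet.mem_insert_iff]
    constructor
    · exact h3 z
    · rintro (rfl | h)
      · exact h1
      · exact h2 h
  · intro h
    rw [h]
    exact ⟨⟨ZFSet.mem_insert _ _, fun z hz => ZFSet.mem_insert_of_mem _ hz⟩, fun z hz => by
      rwa [ZFSet.mem_insert_iff] at hz⟩

theorem isUnion (hr : UT r) (hs : UT s) (ht : UT t) :
    UD 𝒞 (fun N v => (r N v).1 = (s N v).1 ∪ (t N v).1) := by
  refine (((subset hs hr).and (subset ht hr)).and (ball (p := fun N v z => z ∈ (s N v).1 ∨ z ∈ (t N v).1) hr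
    ((mem UT.last hs.lift).or (mem UT.last ht.lift)))).congr fun N _ v => ?_
  constructor
  · rintro ⟨⟨h1, h2⟩, h3⟩
    ext z
    rw [ZFSet.mem_union]
    constructor
    · exact h3 z
    · rintro (h | h)
      · exact h1 h
      · exact h2 h
  · intro h
    rw [h]
    exact ⟨⟨fun z hz => ZFSet.mem_union.2 (Or.inl hz), fun z hz => ZFSet.mem_union.2 (Or.inr hz)⟩,
      fun z hz => by rwa [ZFSet.mem_union] at hz⟩

theorem isNat (hs : UT s) : UD 𝒞 (fun N v => IsNatZ (s N v).1) :=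
  ((isEmpty hs).or (bex (p := fun N v y => (s N v).1 = insert y y) hs
    (isInsert hs.lift UT.last UT.last))).and
    ((ball (p := fun N v y => y = ∅ ∨ ∃ z ∈ y, y = insert z z) hs
      ((isEmpty UT.last).or (bex (p := fun N v z => (v (Fin.last n)).1 = insert z z) UT.last
        (isInsert (UT.var _) (UT.var _) (UT.var _))))).and (isTrans hs))

end UD

/-! ## Substitution for `Dfn` -/

section

variable {M : Set ZFSet.{0}} {hM : CTM M}

theorem Dfn.sub4 {n : ℕ} {P : M → M → M → M → Prop}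
    (h : hM.Dfn (fun v : Fin 4 → M => P (v 0) (v 1) (v 2) (v 3))) {a b c d : (Fin n → M) → M} (ha : hM.DT a)
    (hb : hM.DT b) (hc : hM.DT c) (hd : hM.DT d) : hM.Dfn (fun v => P (a v) (b v) (c v) (d v)) := by
  have h1 := h.shift n
  refine (Dfn.ex (P := fun v x => ∃ y, ∃ z, ∃ w, x = a v ∧ y = b v ∧ z = c v ∧ w = d v ∧ P x y z w)
    (Dfn.ex (Dfn.ex (Dfn.ex ((Dfn.eq (DT.var _) ha.lift.lift.lift.lift).and
    ((Dfn.eq (DT.var _) hb.lift.lift.lift.lift).and ((Dfn.eq (DT.var _) hc.lift.lift.lift.lift).and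
    ((Dfn.eq (DT.var _) hd.lift.lift.lift.lift).and ?_)))))))).congr fun v => ?_
  · exact h1
  · constructor
    · rintro ⟨x, y, z, w, rfl, rfl, rfl, rfl, h⟩; exact h
    · intro h; exact ⟨_, _, _, _, rfl, rfl, rfl, rfl, h⟩

/-- From uniform definability to definability with parameters: one variable. -/
theorem UD.d1 {n : ℕ} {P : (N : Set ZFSet.{0}) → N → Prop} (h : UD 𝒞 (fun N (v : Fin 1 → N) => P N (v 0)))
    (hc : M ∈ 𝒞) {a : (Fin n → M) → M} (ha : hM.DT a) : hM.Dfn (fun v => P M (a v)) :=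
  Dfn.subst1 (h.dfn hM hc) ha

theorem UD.d2 {n : ℕ} {P : (N : Set ZFSet.{0}) → N → N → Prop}
    (h : UD 𝒞 (fun N (v : Fin 2 → N) => P N (v 0) (v 1)))
    (hc : M ∈ 𝒞) {a b : (Fin n → M) → M} (ha : hM.DT a) (hb : hM.DT b) :
    hM.Dfn (fun v => P M (a v) (b v)) :=
  Dfn.subst2 (h.dfn hM hc) ha hb

theorem UD.d3 {n : ℕ} {P : (N : Set ZFSet.{0}) → N → N → N → Prop}
    (h : UD 𝒞 (fun N (v : Fin 3 → N) => P N (v 0) (v 1) (v 2)))
    (hc : M ∈ 𝒞) {a b c : (Fin n → M) → M} (ha : hM.DT a) (hb : hM.DT b) (hc' : hM.DT c) :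
    hM.Dfn (fun v => P M (a v) (b v) (c v)) :=
  Dfn.subst3 (h.dfn hM hc) ha hb hc'

theorem UD.d4 {n : ℕ} {P : (N : Set ZFSet.{0}) → N → N → N → N → Prop}
    (h : UD 𝒞 (fun N (v : Fin 4 → N) => P N (v 0) (v 1) (v 2) (v 3)))
    (hc : M ∈ 𝒞) {a b c d : (Fin n → M) → M} (ha : hM.DT a) (hb : hM.DT b) (hc' : hM.DT c)
    (hd : hM.DT d) : hM.Dfn (fun v => P M (a v) (b v) (c v) (d v)) :=
  Dfn.sub4 (h.dfn hM hc) ha hb hc' hd

end

end Pool.Agent.H7.IG
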